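import Mathlib.Analysis.SpecialFunctions.Exponential
import Mathlib.Analysis.Complex.ExponentialBounds
import Mathlib.Data.Int.ModEq
import Mathlib.Tactic.IntervalCases

/-! Taylor models of degree two in three variables, packed into natural numbers: ten lanes of 144
bits at the places `0; 7, 8, 10; 14, 15, 16, 17, 18, 20`, computed modulo `2 ^ (21 * 144)`;
fixed point `2 ^ 48`. -/

set_option autoImplicit false
set_option exponentiation.threshold 4000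

noncomputable section

namespace Pool.Agent.MP_815c6c_an.W.AA

/-- packed coefficients and remainder; scale `2 ^ 48` (relation `RA`) or `2 ^ 96` (`RW`) -/
structure A : Type where
  x : ℕ
  r : ℕ

/-- a model with its norms, ready for multiplication -/
structure N : Type where
  x : ℕ
  r : ℕ
  n1 : ℕ
  n2 : ℕ
  k : ℕ
  n : ℕ
  m : ℕ

/-- lanes with gaps -/
def pk (w : ℕ) : List ℕ → (ℕ → ℕ) → ℕ → ℕ
  | [], _, H => H
  | k :: G, f, H => f 0 + 2 ^ (w * k) * pk w G (fun i => f (i + 1)) H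

def gp : List ℕ := [7, 1, 2, 4, 1, 1, 1, 1, 2, 1]
def cW : ℕ := 2 ^ 144
def cV : ℕ := 2 ^ 144 - 1
def cT : ℕ := 2 ^ 3024
def cO : ℕ := pk 144 gp (fun _ => 1) 0
def cH : ℕ := pk 144 gp (fun _ => 2 ^ 143) 0
def cM : ℕ := pk 144 gp (fun _ => 2 ^ 96 - 1) 0
def cZ : ℕ := pk 144 gp (fun _ => 2 ^ 95) 0
def cB : ℕ := cT - cZ
def cX : ℕ := pk 144 gp (fun _ => 2 ^ 143 - 1) 0
def c7 : ℕ := 2 ^ 1008
def ch : ℕ := 2 ^ 143
def cL : ℕ := 1 + 2 ^ 1008 + 2 ^ 1152 + 2 ^ 1440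
def cS : ℕ := 1 + 2 ^ 984 + 2 ^ 1104 + 2 ^ 1368
def cF : ℕ := (2 ^ 24 - 1) * cL
def cG : ℕ := 2 ^ 23 * cL

def add (a b : A) : A := ⟨Nat.add a.x b.x, Nat.add a.r b.r⟩
def sub (a b : A) : A := ⟨Nat.add a.x (Nat.sub cT (Nat.mod b.x cT)), Nat.add a.r b.r⟩
def neg (b : A) : A := ⟨Nat.sub cT (Nat.mod b.x cT), b.r⟩
def smul (k : ℕ) (a : A) : A := ⟨Nat.mul k a.x, Nat.mul k a.r⟩
def wid (d : ℕ) (a : A) : A := ⟨a.x, Nat.add a.r d⟩
def N.toA (a : N) : A := ⟨a.x, a.r⟩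
/-- the product, unrounded -/
def mul (a b : N) : A := ⟨Nat.mul a.x b.x, Nat.add (Nat.add (Nat.mul a.n1 b.n2) (Nat.mul a.n2 b.k))
  (Nat.add (Nat.mul a.n b.r) (Nat.mul a.r b.m))⟩
/-- lanes of 96 bits, centred -/
def msk (y : ℕ) : ℕ := Nat.add (Nat.land y cM) cB
def rnd (a : A) : A :=
  ⟨msk (Nat.shiftRight (Nat.add a.x cH) 48), Nat.add (Nat.shiftRight a.r 48) 4096⟩
def ab (y : ℕ) : ℕ := Nat.xor y (Nat.add cX (Nat.land (Nat.shiftRight y 143) cO))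
def nr3 (x n1 n2 k n r : ℕ) : N := ⟨x, r, n1, n2, k, n, Nat.add n r⟩
def nr2 (x r n1 n2 k n : ℕ) : N := nr3 x n1 n2 k n (Nat.add r (Nat.succ (Nat.shiftRight n 37)))
def nr1 (x r z n1 n2 k : ℕ) : N := nr2 x r n1 n2 k
  (Nat.add (Nat.add k (Nat.succ (Nat.mod z cW))) (Nat.shiftLeft (Nat.shiftRight r 58) 106))
def nr0 (x r z n1 n2 : ℕ) : N := nr1 x r z n1 n2 (Nat.add n1 n2)
def nrz (x r z y : ℕ) : N := nr0 x r z (Nat.add (Nat.mod (Nat.mod y c7) cV) 3)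
  (Nat.add (Nat.mod (Nat.mod (Nat.shiftRight y 1008) c7) cV) 6)
def nry (x r z : ℕ) : N := nrz x r z (Nat.shiftRight z 1008)
def nrm (a : A) : N := nry a.x a.r (ab (Nat.add a.x cH))
def cst (d : ℕ) : A := ⟨d, 1⟩
def ncst (d : ℕ) : A := ⟨Nat.sub cT d, 1⟩
def cN (d : ℕ) : N := nr2 d 1 0 0 0 d
def ncN (d : ℕ) : N := nr2 (Nat.sub cT d) 1 0 0 0 d
def one : A := cst 281474976710656
def var (i l h : ℕ) : A :=
  ⟨Nat.add (Nat.add l h) (Nat.shiftLeft h i), Nat.succ (Nat.shiftRight (Nat.add l h) 83)⟩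
/-- any number of the interval `[l, l + 2 h]` -/
def ivl (l h : ℕ) : A :=
  ⟨Nat.add l h, Nat.add h (Nat.succ (Nat.shiftRight (Nat.add l h) 83))⟩
def hint (y : ℕ) : A := ⟨msk y, 4096⟩
/-- the polynomial part as a hint -/
def lin (a : A) : A := hint (Nat.add a.x cZ)
/-- the affine hint with coefficients `(a_i - 2 ^ 23) 2 ^ (s - 48)`, `d = Σ a_i 2 ^ (24 i)` -/
def aff (s d : ℕ) : A :=
  hint (Nat.sub (Nat.add cZ (Nat.shiftLeft (Nat.land (Nat.mul d cS) cF) s)) (Nat.shiftLeft cG s))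
/-- the `k`-th block of 96 bits -/
def fld (D k : ℕ) : ℕ := Nat.mod (Nat.shiftRight D (Nat.mul 96 k)) 79228162514264337593543950336
def lane (x : ℕ) : ℕ := Nat.mod (Nat.add x cH) cW
def pos (a : A) : Bool := Nat.blt (Nat.add (Nat.add ch (Nat.add (nrm a).k a.r))
  (Nat.shiftLeft (Nat.shiftRight a.r 58) 143)) (lane a.x)
def iv1 (d : ℕ) (u : N) : A := wid (Nat.add (Nat.succ (Nat.shiftRight
    (Nat.mul d (Nat.mul u.m (Nat.mul u.m u.m))) 143)) (Nat.shiftLeft (Nat.shiftRight u.m 47) 58))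
  (rnd (mul (cN d) (nrm (add (add one u.toA) (rnd (mul u u))))))
def iv0 (d : ℕ) (a : N) : A := iv1 d (nrm (sub one (rnd (mul (cN d) a))))
/-- the inverse of a positive quantity -/
def inv (a : N) : A := iv0 (Nat.div 79228162514264337593543950336 (Nat.sub (lane a.x) ch)) a
/-- Horner's scheme `c + x (l₀ + x (l₁ + ...))` -/
def hor (x : N) (l : List A) : A → A :=
  List.rec (motive := fun _ => A → A) (fun c => c) (fun d _ r c => add c (rnd (mul x (nrm (r d))))) l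
/-- the exponential of a quantity of modulus below one -/
def ex1 (a : N) : A := wid (Nat.add (Nat.succ (Nat.shiftRight (Nat.pow a.m 10) 453))
    (Nat.shiftLeft (Nat.shiftRight a.m 48) 58))
  (hor a [one, cst 140737488355328, cst 46912496118442, cst 11728124029610,
    cst 2345624805922, cst 390937467653, cst 55848209664, cst 6981026208, cst 775669578] one)

/-- a point of the cube -/
structure Pt : Type where
  a : ℝ
  b : ℝ
  c : ℝ
  ha : |a| ≤ 1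
  hb : |b| ≤ 1
  hc : |c| ≤ 1

def PK (W : ℤ) (v : ℕ → ℤ) : ℤ := v 0 + W ^ 7 * v 1 + W ^ 8 * v 2 + W ^ 10 * v 3 + W ^ 14 * v 4 +
  W ^ 15 * v 5 + W ^ 16 * v 6 + W ^ 17 * v 7 + W ^ 18 * v 8 + W ^ 20 * v 9
def e1 (t : Pt) (v : ℕ → ℤ) : ℝ := v 1 * t.a + v 2 * t.b + v 3 * t.c
def e2 (t : Pt) (v : ℕ → ℤ) : ℝ := v 4 * (t.a * t.a) + v 5 * (t.a * t.b) + v 6 * (t.b * t.b) +
  v 7 * (t.a * t.c) + v 8 * (t.b * t.c) + v 9 * (t.c * t.c)
def ev (t : Pt) (v : ℕ → ℤ) : ℝ := v 0 + e1 t v + e2 t v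

def Rg (s : ℝ) (α θ : ℕ) (t : Pt) (a : A) (z : ℝ) : Prop := a.r < θ → ∃ v : ℕ → ℤ,
  (a.x : ℤ) ≡ PK cW v [ZMOD cT] ∧ (∀ i < 10, |v i| ≤ (α * a.r : ℕ)) ∧ |z * s - ev t v| ≤ a.r
/-- `a` encloses `z` at the point `t` -/
abbrev RA : Pt → A → ℝ → Prop := Rg (2 ^ 48) (2 ^ 83) (2 ^ 58)
/-- the same for unrounded products -/
abbrev RW : Pt → A → ℝ → Prop := Rg (2 ^ 96) (2 ^ 37) (2 ^ 106)
structure RN (t : Pt) (a : N) (z : ℝ) : Prop where
  r1 : 1 ≤ a.r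
  nr : a.n ≤ 2 ^ 37 * a.r
  hk : a.k = a.n1 + a.n2
  hm : a.m = a.n + a.r
  ex : a.n < 2 ^ 106 → ∃ v : ℕ → ℤ, (a.x : ℤ) ≡ PK cW v [ZMOD cT] ∧
    |v 1| + |v 2| + |v 3| ≤ a.n1 ∧ |v 4| + |v 5| + |v 6| + |v 7| + |v 8| + |v 9| ≤ a.n2 ∧
    |v 0| + (a.k : ℤ) ≤ a.n ∧ |z * 2 ^ 48 - ev t v| ≤ (a.r : ℝ)

/-- trees of boxes -/
inductive Tr : Type
  | lf (d : ℕ) : Tr
  | s1 (a b : Tr) : Tr
  | s2 (a b : Tr) : Tr
  | s3 (a b : Tr) : Tr

def hf (h : ℕ) : ℕ := Nat.shiftRight (Nat.succ h) 1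

/-- the check of all leaves; a box is `[l, l + 2 h] / 2 ^ 48` in each variable -/
def run (f : ℕ → ℕ → ℕ → ℕ → ℕ → ℕ → ℕ → Bool) (T : Tr) : ℕ → ℕ → ℕ → ℕ → ℕ → ℕ → Bool :=
  Tr.rec (motive := fun _ => ℕ → ℕ → ℕ → ℕ → ℕ → ℕ → Bool) f
    (fun _ _ a b l h m i n j => and (a l (hf h) m i n j) (b (Nat.add l h) (hf h) m i n j))
    (fun _ _ a b l h m i n j => and (a l h m (hf i) n j) (b l h (Nat.add m i) (hf i) n j))
    (fun _ _ a b l h m i n j => and (a l h m i n (hf j)) (b l h m i (Nat.add n j) (hf j))) T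

def In (l h : ℕ) (x : ℝ) : Prop := l ≤ x * 2 ^ 48 ∧ x * 2 ^ 48 ≤ l + 2 * h
def Cov (G : ℝ → ℝ → ℝ → Prop) (l h m i n j : ℕ) : Prop :=
  ∀ x y z, In l h x → In m i y → In n j z → G x y z

/-! lanes -/

theorem and_split {k a c : ℕ} (b d : ℕ) (ha : a < 2 ^ k) (hc : c < 2 ^ k) :
    (a + 2 ^ k * b) &&& (c + 2 ^ k * d) = (a &&& c) + 2 ^ k * (b &&& d) := by
  have p := Nat.two_pow_pos k
  rw [← Nat.mod_add_div ((a + 2 ^ k * b) &&& (c + 2 ^ k * d)) (2 ^ k), Nat.and_mod_two_pow,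
    Nat.and_div_two_pow, Nat.add_mul_mod_self_left, Nat.add_mul_mod_self_left,
    Nat.add_mul_div_left _ _ p, Nat.add_mul_div_left _ _ p, Nat.mod_eq_of_lt ha, Nat.mod_eq_of_lt hc,
    Nat.div_eq_of_lt ha, Nat.div_eq_of_lt hc, Nat.zero_add, Nat.zero_add]

theorem xor_split {k a c : ℕ} (b d : ℕ) (ha : a < 2 ^ k) (hc : c < 2 ^ k) :
    (a + 2 ^ k * b) ^^^ (c + 2 ^ k * d) = (a ^^^ c) + 2 ^ k * (b ^^^ d) := by
  have p := Nat.two_pow_pos k
  rw [← Nat.mod_add_div ((a + 2 ^ k * b) ^^^ (c + 2 ^ k * d)) (2 ^ k), Nat.xor_mod_two_pow,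
    Nat.xor_div_two_pow, Nat.add_mul_mod_self_left, Nat.add_mul_mod_self_left,
    Nat.add_mul_div_left _ _ p, Nat.add_mul_div_left _ _ p, Nat.mod_eq_of_lt ha, Nat.mod_eq_of_lt hc,
    Nat.div_eq_of_lt ha, Nat.div_eq_of_lt hc, Nat.zero_add, Nat.zero_add]

section
variable {w : ℕ} {G : List ℕ} {f g : ℕ → ℕ}

/-- the lanes fit -/
def Fit (w : ℕ) (G : List ℕ) (f : ℕ → ℕ) : Prop := ∀ i < G.length, f i < 2 ^ w

theorem Fit.hd {k : ℕ} (h : Fit w (k :: G) f) (hk : 1 ≤ k) : f 0 < 2 ^ (w * k) :=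
  (h 0 (by simp)).trans_le (Nat.pow_le_pow_right (by norm_num) (Nat.le_mul_of_pos_right w hk))

theorem Fit.tl {k : ℕ} (h : Fit w (k :: G) f) : Fit w G fun i => f (i + 1) :=
  fun i hi => h (i + 1) (by simpa using hi)

theorem pk_top (w : ℕ) (G : List ℕ) (f : ℕ → ℕ) (H : ℕ) :
    pk w G f H = pk w G f 0 + 2 ^ (w * G.sum) * H := by
  induction G generalizing f with
  | nil => simp [pk]
  | cons k G ih => rw [pk, pk, ih, List.sum_cons, mul_add w, pow_add]; ring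

theorem pk_lt (hG : ∀ k ∈ G, 1 ≤ k) (hf : Fit w G f) : pk w G f 0 < 2 ^ (w * G.sum) := by
  induction G generalizing f with
  | nil => simp [pk]
  | cons k G ih =>
    have a := hf.hd (hG k (by simp))
    have b := ih (fun j hj => hG j (by simp [hj])) hf.tl
    rw [pk, List.sum_cons, mul_add w, pow_add]
    nlinarith

theorem pk_mod (hG : ∀ k ∈ G, 1 ≤ k) (hf : Fit w G f) (H : ℕ) :
    pk w G f H % 2 ^ (w * G.sum) = pk w G f 0 ∧ pk w G f H >>> (w * G.sum) = H := by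
  have a := pk_lt hG hf
  rw [pk_top, Nat.add_mul_mod_self_left, Nat.mod_eq_of_lt a, Nat.shiftRight_eq_div_pow,
    Nat.add_mul_div_left _ _ (Nat.two_pow_pos _), Nat.div_eq_of_lt a, Nat.zero_add]
  exact ⟨rfl, rfl⟩

theorem pk_add (w : ℕ) (G : List ℕ) (f g : ℕ → ℕ) :
    pk w G f 0 + pk w G g 0 = pk w G (fun i => f i + g i) 0 := by
  induction G generalizing f g with
  | nil => simp [pk]
  | cons k G ih => rw [pk, pk, pk, ← ih]; ring

theorem pk_xor (hG : ∀ k ∈ G, 1 ≤ k) (hf : Fit w G f) (hg : Fit w G g) (H : ℕ) :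
    pk w G f H ^^^ pk w G g 0 = pk w G (fun i => f i ^^^ g i) H := by
  induction G generalizing f g with
  | nil => simp [pk]
  | cons k G ih =>
    rw [pk, pk, pk, xor_split _ _ (hf.hd (hG k (by simp))) (hg.hd (hG k (by simp))),
      ih (fun j hj => hG j (by simp [hj])) hf.tl hg.tl]

theorem pk_shr {s : ℕ} (hs : s ≤ w) (hG : ∀ k ∈ G, 1 ≤ k) (hf : Fit w G f) (hg : Fit (w - s) G g)
    (H : ℕ) : (pk w G f H >>> s) &&& pk w G g 0 = pk w G (fun i => (f i >>> s) &&& g i) 0 := by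
  induction G generalizing f g with
  | nil => simp [pk]
  | cons k G ih =>
    have k1 := hG k (by simp)
    obtain ⟨u, hu⟩ : ∃ u, w * k = s + u := ⟨w * k - s, by
      have := Nat.le_mul_of_pos_right w k1
      omega⟩
    have u1 : w - s ≤ u := by
      have := Nat.le_mul_of_pos_right w k1
      omega
    have a1 : f 0 / 2 ^ s < 2 ^ u := by
      rw [Nat.div_lt_iff_lt_mul (Nat.two_pow_pos s), ← pow_add, add_comm, ← hu]
      exact hf.hd k1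
    have a2 : g 0 < 2 ^ u := (hg 0 (by simp)).trans_le (Nat.pow_le_pow_right (by norm_num) u1)
    have a3 : ∀ Y M : ℕ, Y &&& 2 ^ s * M = 2 ^ s * (Y / 2 ^ s &&& M) := fun Y M => by
      have := and_split (Y / 2 ^ s) M (Nat.mod_lt Y (Nat.two_pow_pos s)) (Nat.two_pow_pos s)
      rwa [Nat.mod_add_div, Nat.and_zero, Nat.zero_add, Nat.zero_add] at this
    rw [pk, pk, pk, ← ih (fun j hj => hG j (by simp [hj])) hf.tl hg.tl, hu, pow_add,
      Nat.shiftRight_eq_div_pow, Nat.shiftRight_eq_div_pow, Nat.shiftRight_eq_div_pow, mul_assoc,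
      Nat.add_mul_div_left _ _ (Nat.two_pow_pos s), mul_comm (2 ^ s) (2 ^ u), mul_assoc,
      and_split _ _ a1 a2, a3, mul_assoc]

theorem pk_msk (hG : ∀ k ∈ G, 1 ≤ k) (hg : Fit w G g) (y : ℕ) :
    ∃ f : ℕ → ℕ, y &&& pk w G g 0 = pk w G f 0 ∧ ∀ i < G.length, f i ≤ g i := by
  induction G generalizing g y with
  | nil => exact ⟨g, by simp [pk], by simp⟩
  | cons k G ih =>
    obtain ⟨f, a, b⟩ := ih (fun j hj => hG j (by simp [hj])) hg.tl (y / 2 ^ (w * k))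
    refine ⟨fun i => Nat.casesOn i (y % 2 ^ (w * k) &&& g 0) f, ?_, fun i hi => ?_⟩
    · have c := and_split (y / 2 ^ (w * k)) (pk w G (fun i => g (i + 1)) 0)
        (Nat.mod_lt y (Nat.two_pow_pos _)) (hg.hd (hG k (by simp)))
      rw [Nat.mod_add_div, a] at c
      exact c
    · cases i with
      | zero => exact Nat.and_le_right
      | succ i => exact b i (by simpa using hi)

theorem pk_sum (w : ℕ) (G : List ℕ) (f : ℕ → ℕ) :
    pk w G f 0 ≡ ∑ i ∈ Finset.range G.length, f i [MOD 2 ^ w - 1] := by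
  induction G generalizing f with
  | nil => simp [pk, Nat.ModEq]
  | cons k G ih =>
    rw [pk, List.length_cons, Finset.sum_range_succ', add_comm (∑ _ ∈ _, _)]
    have a : 1 ≡ 2 ^ w [MOD 2 ^ w - 1] := (Nat.modEq_iff_dvd' Nat.one_le_two_pow).2 dvd_rfl
    have b := ((a.symm.pow k).mul (ih fun i => f (i + 1))).add_left (f 0)
    rwa [one_pow, one_mul, ← pow_mul] at b

end

theorem pk_cast (w : ℕ) (f : ℕ → ℕ) : (pk w gp f 0 : ℤ) = PK (2 ^ w) fun i => f i := by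
  simp only [pk, gp, PK, pow_mul]
  push_cast
  ring

theorem PK_comb {u v x : ℕ → ℤ} {c d : ℤ} (W : ℤ) (h : ∀ i < 10, x i = c * u i + d * v i) :
    PK W x = c * PK W u + d * PK W v := by
  simp only [PK, h 0, h 1, h 2, h 3, h 4, h 5, h 6, h 7, h 8, h 9, Nat.reduceLT]
  ring

theorem ev_comb {u v x : ℕ → ℤ} {c d : ℤ} (t : Pt) (h : ∀ i < 10, x i = c * u i + d * v i) :
    ev t x = c * ev t u + d * ev t v := by
  simp only [ev, e1, e2, h 0, h 1, h 2, h 3, h 4, h 5, h 6, h 7, h 8, h 9, Nat.reduceLT]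
  push_cast
  ring

theorem g1 : ∀ k ∈ gp, 1 ≤ k := by decide
theorem cWz : (cW : ℤ) = 2 ^ 144 := by rw [cW]; norm_cast
theorem cTz : (cT : ℤ) = (cW : ℤ) ^ 21 := by rw [cT, cW, ← Nat.cast_pow, ← pow_mul]
theorem cT0 : 0 < cT := Nat.two_pow_pos _

/-- biased lanes -/
theorem bias {x : ℕ} {v : ℕ → ℤ} (h : (x : ℤ) ≡ PK cW v [ZMOD cT]) (g : ∀ i < 10, |v i| < 2 ^ 143) :
    ∃ (f : ℕ → ℕ) (H : ℕ), x + cH = pk 144 gp f H ∧ Fit 144 gp f ∧
      ∀ i < 10, (f i : ℤ) = v i + 2 ^ 143 := by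
  have a : ∀ i < 10, (((v i + 2 ^ 143).toNat : ℕ) : ℤ) = v i + 2 ^ 143 := fun i hi =>
    Int.toNat_of_nonneg (by linarith [abs_lt.1 (g i hi)])
  have b : Fit 144 gp fun i => (v i + 2 ^ 143).toNat := fun i hi => by
    have := abs_lt.1 (g i hi)
    zify
    rw [a i hi]
    linarith
  refine ⟨_, (x + cH) / cT, ?_, b, a⟩
  have c : x + cH ≡ pk 144 gp (fun i => (v i + 2 ^ 143).toNat) 0 [MOD cT] := by
    have k := PK_comb (x := fun i => ((v i + 2 ^ 143).toNat : ℤ)) (u := v)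
      (v := fun _ => ((2 ^ 143 : ℕ) : ℤ)) (c := 1) (d := 1) cW
      (fun i hi => by rw [a i hi]; push_cast; ring)
    rw [← Int.natCast_modEq_iff, pk_cast, Nat.cast_add, cH, pk_cast, ← cWz, k, one_mul, one_mul]
    exact h.add_right _
  have d : pk 144 gp (fun i => (v i + 2 ^ 143).toNat) 0 < cT := pk_lt g1 b
  rw [pk_top, ← Nat.mod_eq_of_lt d, ← c]
  exact (Nat.mod_add_div _ cT).symm

theorem msk_eq {y : ℕ} {f : ℕ → ℕ} (h : y &&& cM = pk 144 gp f 0) :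
    (msk y : ℤ) ≡ PK cW (fun i => f i - 2 ^ 95) [ZMOD cT] := by
  have a : cZ ≤ cT := (pk_lt (w := 144) (f := fun _ => 2 ^ 95) g1 fun _ _ => by norm_num).le
  have b : msk y = pk 144 gp f 0 + (cT - cZ) := by rw [← h]; rfl
  rw [b, Nat.cast_add, Nat.cast_sub a, cZ, pk_cast, pk_cast, ← cWz,
    PK_comb (x := fun i => f i - 2 ^ 95) (u := fun i => f i) (v := fun _ => ((2 ^ 95 : ℕ) : ℤ))
      (c := 1) (d := -1) _ (fun i _ => by push_cast; ring), Int.modEq_iff_dvd]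
  exact ⟨-1, by ring⟩

theorem ab_lane {f : ℕ} {v : ℤ} (h : (f : ℤ) = v + 2 ^ 143) (g : |v| < 2 ^ 143) :
    ((f ^^^ (2 ^ 143 - 1 + (f >>> 143 &&& 1)) : ℕ) : ℤ) ≤ |v| ∧
      |v| ≤ ((f ^^^ (2 ^ 143 - 1 + (f >>> 143 &&& 1)) : ℕ) : ℤ) + 1 := by
  have b := abs_lt.1 g
  rcases lt_or_ge v 0 with c | c
  · have d : f < 2 ^ 143 := by zify; linarith
    have e : f ^^^ (2 ^ 143 - 1) = 2 ^ 143 - (f + 1) := Nat.eq_of_testBit_eq fun i => by
      rw [Nat.testBit_two_pow_sub_succ d, Nat.testBit_xor, Nat.testBit_two_pow_sub_one]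
      by_cases hi : i < 143
      · simp [hi]
      · simp [hi, Nat.testBit_lt_two_pow
          (d.trans_le (Nat.pow_le_pow_right (by norm_num) (not_lt.1 hi)))]
    rw [Nat.shiftRight_eq_div_pow, Nat.div_eq_of_lt d, Nat.zero_and, add_zero, e, abs_of_neg c,
      Nat.cast_sub d]
    push_cast
    constructor <;> linarith
  · obtain ⟨a, rfl⟩ := Int.eq_ofNat_of_zero_le c
    have d : a < 2 ^ 143 := by zify; linarith
    have e : f = a + 2 ^ 143 * 1 := by zify; linarith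
    have k := xor_split 1 1 d (Nat.two_pow_pos 143)
    rw [e, Nat.shiftRight_eq_div_pow, Nat.add_mul_div_left _ _ (Nat.two_pow_pos _),
      Nat.div_eq_of_lt d, show 2 ^ 143 - 1 + (0 + 1 &&& 1) = 0 + 2 ^ 143 * 1 by norm_num, k,
      abs_of_nonneg c]
    simp

/-- the norms -/
theorem norms {x : ℕ} {v : ℕ → ℤ} (h : (x : ℤ) ≡ PK cW v [ZMOD cT])
    (g : ∀ i < 10, |v i| < 2 ^ 141) :
    (lane x : ℤ) = v 0 + 2 ^ 143 ∧ |v 0| ≤ (ab (x + cH) % cW + 1 : ℕ) ∧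
      |v 1| + |v 2| + |v 3| ≤ (ab (x + cH) >>> 1008 % c7 % cV + 3 : ℕ) ∧
      |v 4| + |v 5| + |v 6| + |v 7| + |v 8| + |v 9| ≤
        (ab (x + cH) >>> 1008 >>> 1008 % c7 % cV + 6 : ℕ) := by
  have g' : ∀ i < 10, |v i| < 2 ^ 143 := fun i hi => (g i hi).trans (by norm_num)
  obtain ⟨f, H, e, a, b⟩ := bias h g'
  have m0 : ∀ (f : ℕ → ℕ) (H : ℕ), Fit 144 gp f → pk 144 gp f H % cW = f 0 := fun f H a => by
    rw [gp, pk, cW, show 144 * 7 = 144 + 864 by norm_num, pow_add, mul_assoc,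
      Nat.add_mul_mod_self_left, Nat.mod_eq_of_lt (a 0 (by decide))]
  obtain ⟨k, hk⟩ : ∃ k : ℕ → ℕ, k = fun i => f i ^^^ (2 ^ 143 - 1 + (f i >>> 143 &&& 1)) := ⟨_, rfl⟩
  have c : ∀ i < 10, (k i : ℤ) ≤ |v i| ∧ |v i| ≤ k i + 1 := fun i hi =>
    hk ▸ ab_lane (b i hi) (g' i hi)
  have c' : ∀ i < 10, k i < 2 ^ 141 := fun i hi => by
    zify
    exact (c i hi).1.trans_lt (g i hi)
  have z : ab (x + cH) = pk 144 gp k H := by
    have s : Fit 144 gp fun i => 2 ^ 143 - 1 + (f i >>> 143 &&& 1) := fun i _ => by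
      have : f i >>> 143 &&& 1 ≤ 1 := Nat.and_le_right
      beta_reduce
      omega
    rw [hk, ← pk_xor g1 a s, ← pk_add, ← pk_shr (by norm_num) g1 a fun _ _ => by norm_num, e]
    rfl
  have k0 : Fit 144 gp k := fun i hi => (c' i hi).trans (by norm_num)
  have z1 := pk_mod (w := 144) (G := [7]) (f := k) (by decide)
    (fun i hi => k0 i (hi.trans (by decide)))
    (pk 144 [1, 2, 4] (fun i => k (i + 1)) (pk 144 [1, 1, 1, 1, 2, 1] (fun i => k (i + 4)) H))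
  have z2 := pk_mod (w := 144) (G := [1, 2, 4]) (f := fun i => k (i + 1)) (by decide)
    (fun i hi => k0 _ (by simp [gp] at hi ⊢; omega))
    (pk 144 [1, 1, 1, 1, 2, 1] (fun i => k (i + 4)) H)
  have z3 := pk_mod (w := 144) (G := [1, 1, 1, 1, 2, 1]) (f := fun i => k (i + 4)) (by decide)
    (fun i hi => k0 _ (by simp [gp] at hi ⊢; omega)) H
  have s2 := pk_sum 144 [1, 2, 4] fun i => k (i + 1)
  have s3 := pk_sum 144 [1, 1, 1, 1, 2, 1] fun i => k (i + 4)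
  simp only [List.length_cons, List.length_nil, Finset.sum_range_succ, Finset.sum_range_zero,
    Nat.reduceAdd, zero_add] at s2 s3
  have := c' 1 (by decide); have := c' 2 (by decide); have := c' 3 (by decide)
  have := c' 4 (by decide); have := c' 5 (by decide); have := c' 6 (by decide)
  have := c' 7 (by decide); have := c' 8 (by decide); have := c' 9 (by decide)
  have y1 : pk 144 gp k H >>> 1008 = _ := z1.2
  have y2 : _ % c7 = _ := z2.1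
  have y3 : _ >>> 1008 = _ := z2.2
  have y4 : _ % c7 = _ := z3.1
  have y5 : _ % cV = _ := Eq.trans s2 (Nat.mod_eq_of_lt (by omega))
  have y6 : _ % cV = _ := Eq.trans s3 (Nat.mod_eq_of_lt (by omega))
  rw [z, y1, y2, y3, y4, y5, y6, m0 _ _ k0]
  refine ⟨?_, ?_, ?_, ?_⟩
  · rw [← b 0 (by decide), ← m0 _ H a, ← e]; rfl
  · exact (c 0 (by decide)).2
  · push_cast
    linarith [(c 1 (by decide)).2, (c 2 (by decide)).2, (c 3 (by decide)).2]
  · push_cast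
    linarith [(c 4 (by decide)).2, (c 5 (by decide)).2, (c 6 (by decide)).2, (c 7 (by decide)).2,
      (c 8 (by decide)).2, (c 9 (by decide)).2]

/-! operations -/

variable {t : Pt} {s y z : ℝ} {α θ : ℕ} {a b : A} {p q : N}

theorem tm (k : ℤ) {x : ℝ} (h : |x| ≤ 1) : |k * x| ≤ ((|k| : ℤ) : ℝ) := by
  rw [abs_mul, Int.cast_abs]
  exact mul_le_of_le_one_right (abs_nonneg _) h

theorem tm2 (k : ℤ) {x y : ℝ} (h : |x| ≤ 1) (g : |y| ≤ 1) : |k * (x * y)| ≤ ((|k| : ℤ) : ℝ) :=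
  tm k (by rw [abs_mul]; exact mul_le_one₀ h (abs_nonneg _) g)

theorem e1_le (t : Pt) {v : ℕ → ℤ} {n : ℕ} (h : |v 1| + |v 2| + |v 3| ≤ n) : |e1 t v| ≤ n := by
  have : (((|v 1| + |v 2| + |v 3| : ℤ)) : ℝ) ≤ (n : ℤ) := Int.cast_le.2 h
  have a1 := abs_le.1 (tm (v 1) t.ha)
  have a2 := abs_le.1 (tm (v 2) t.hb)
  have a3 := abs_le.1 (tm (v 3) t.hc)
  rw [Int.cast_add, Int.cast_add, Int.cast_natCast] at this
  rw [e1, abs_le]
  constructor <;> linarith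

theorem e2_le (t : Pt) {v : ℕ → ℤ} {n : ℕ}
    (h : |v 4| + |v 5| + |v 6| + |v 7| + |v 8| + |v 9| ≤ n) : |e2 t v| ≤ n := by
  have : (((|v 4| + |v 5| + |v 6| + |v 7| + |v 8| + |v 9| : ℤ)) : ℝ) ≤ (n : ℤ) := Int.cast_le.2 h
  have a4 := abs_le.1 (tm2 (v 4) t.ha t.ha)
  have a5 := abs_le.1 (tm2 (v 5) t.ha t.hb)
  have a6 := abs_le.1 (tm2 (v 6) t.hb t.hb)
  have a7 := abs_le.1 (tm2 (v 7) t.ha t.hc)
  have a8 := abs_le.1 (tm2 (v 8) t.hb t.hc)
  have a9 := abs_le.1 (tm2 (v 9) t.hc t.hc)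
  simp only [Int.cast_add, Int.cast_natCast] at this
  rw [e2, abs_le]
  constructor <;> linarith

theorem ev_le (t : Pt) {v : ℕ → ℤ} {n1 n2 n : ℕ} (h1 : |v 1| + |v 2| + |v 3| ≤ n1)
    (h2 : |v 4| + |v 5| + |v 6| + |v 7| + |v 8| + |v 9| ≤ n2) (h : |v 0| + (n1 + n2 : ℕ) ≤ n) :
    |ev t v| ≤ n := by
  have : (((|v 0| + (n1 + n2 : ℕ) : ℤ)) : ℝ) ≤ (n : ℤ) := Int.cast_le.2 h
  push_cast at this
  linarith [e1_le t h1, e2_le t h2, abs_add_three (v 0 : ℝ) (e1 t v) (e2 t v),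
    show |ev t v| = |v 0 + e1 t v + e2 t v| from rfl]

theorem Rg.cast (h : Rg s α θ t a y) (e : y = z) : Rg s α θ t a z := e ▸ h
theorem RN.cast (h : RN t p y) (e : y = z) : RN t p z := e ▸ h

theorem add_ok (h : Rg s α θ t a y) (g : Rg s α θ t b z) : Rg s α θ t (add a b) (y + z) := by
  intro (k : a.r + b.r < θ)
  obtain ⟨u, u1, u2, u3⟩ := h (by omega)
  obtain ⟨v, v1, v2, v3⟩ := g (by omega)
  refine ⟨fun i => 1 * u i + 1 * v i, ?_, fun i hi => ?_, ?_⟩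
  · rw [PK_comb _ fun _ _ => rfl, one_mul, one_mul]
    exact (Nat.cast_add (R := ℤ) a.x b.x).symm ▸ u1.add v1
  · change |1 * u i + 1 * v i| ≤ ((α * (a.r + b.r) : ℕ) : ℤ)
    rw [one_mul, one_mul, mul_add, Nat.cast_add]
    exact (abs_add_le _ _).trans (add_le_add (u2 i hi) (v2 i hi))
  · change _ ≤ ((a.r + b.r : ℕ) : ℝ)
    rw [ev_comb _ fun _ _ => rfl, Nat.cast_add]
    refine le_trans (le_of_eq ?_) ((abs_add_le _ _).trans (add_le_add u3 v3))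
    congr 1
    push_cast
    ring

theorem neg_ok (h : Rg s α θ t a y) : Rg s α θ t (neg a) (-y) := by
  intro k
  obtain ⟨u, u1, u2, u3⟩ := h k
  refine ⟨fun i => -1 * u i + 0 * u i, ?_, fun i hi => ?_, ?_⟩
  · change ((cT - a.x % cT : ℕ) : ℤ) ≡ _ [ZMOD _]
    rw [PK_comb _ fun _ _ => rfl, Nat.cast_sub (Nat.mod_lt _ cT0).le, Int.natCast_mod]
    have := (Int.modEq_zero_iff_dvd.2 (dvd_refl (cT : ℤ))).sub ((Int.mod_modEq _ _).trans u1)
    rwa [show -1 * PK cW u + 0 * PK cW u = 0 - PK cW u by ring]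
  · beta_reduce
    rw [show -1 * u i + 0 * u i = -u i by ring, abs_neg]
    exact u2 i hi
  · rw [ev_comb _ fun _ _ => rfl, ← abs_neg]
    refine le_trans (le_of_eq ?_) u3
    congr 1
    push_cast
    ring

theorem sub_ok (h : Rg s α θ t a y) (g : Rg s α θ t b z) : Rg s α θ t (sub a b) (y - z) :=
  (add_ok h (neg_ok g)).cast (sub_eq_add_neg y z).symm

theorem smul_ok (k : ℕ) (h : Rg s α θ t a y) : Rg s α θ t (smul k a) (k * y) := by
  intro (c : k * a.r < θ)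
  rcases k.eq_zero_or_pos with rfl | k0
  · exact ⟨fun _ => 0, by simp [smul, PK], by simp [smul], by simp [ev, e1, e2]⟩
  obtain ⟨u, u1, u2, u3⟩ := h ((Nat.le_mul_of_pos_left _ k0).trans_lt c)
  refine ⟨fun i => k * u i + 0 * u i, ?_, fun i hi => ?_, ?_⟩
  · rw [PK_comb _ fun _ _ => rfl, zero_mul, add_zero]
    exact (Nat.cast_mul (α := ℤ) k a.x).symm ▸ u1.mul_left k
  · change |k * u i + 0 * u i| ≤ ((α * (k * a.r) : ℕ) : ℤ)
    rw [zero_mul, add_zero, abs_mul, mul_left_comm, Nat.cast_mul, Nat.abs_cast]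
    exact mul_le_mul_of_nonneg_left (u2 i hi) (Nat.cast_nonneg k)
  · change _ ≤ ((k * a.r : ℕ) : ℝ)
    rw [ev_comb _ fun _ _ => rfl, Nat.cast_mul]
    refine le_trans (le_of_eq ?_) (mul_le_mul_of_nonneg_left u3 (Nat.cast_nonneg k))
    rw [← Nat.abs_cast (R := ℝ) k, ← abs_mul, Nat.abs_cast]
    congr 1
    push_cast
    ring

theorem wid_of (d : ℕ) (h : RA t a y) (e : d < 2 ^ 58 → |z - y| * 2 ^ 48 ≤ d) :
    RA t (wid d a) z := by
  intro (k : a.r + d < 2 ^ 58)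
  obtain ⟨u, u1, u2, u3⟩ := h (by omega)
  refine ⟨u, u1, fun i hi => (u2 i hi).trans (Nat.cast_le.2 ?_), ?_⟩
  · exact Nat.mul_le_mul_left _ (Nat.le_add_right _ _)
  · change _ ≤ ((a.r + d : ℕ) : ℝ)
    have := e (by omega)
    rw [← abs_of_pos (show (0 : ℝ) < 2 ^ 48 by norm_num), ← abs_mul] at this
    rw [Nat.cast_add, show z * 2 ^ 48 - ev t u = y * 2 ^ 48 - ev t u + (z - y) * 2 ^ 48 by ring]
    exact (abs_add_le _ _).trans (add_le_add u3 this)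

theorem wid_ok (d : ℕ) (h : RA t a y) (e : |z - y| * 2 ^ 48 ≤ d) : RA t (wid d a) z :=
  wid_of d h fun _ => e

theorem all10 {P : ℕ → Prop} (h : P 0 ∧ P 1 ∧ P 2 ∧ P 3 ∧ P 4 ∧ P 5 ∧ P 6 ∧ P 7 ∧ P 8 ∧ P 9) :
    ∀ i < 10, P i := fun i hi => by
  interval_cases i <;> tauto

theorem ent {v : ℕ → ℤ} {n1 n2 n : ℤ} (h1 : |v 1| + |v 2| + |v 3| ≤ n1)
    (h2 : |v 4| + |v 5| + |v 6| + |v 7| + |v 8| + |v 9| ≤ n2) (h : |v 0| + (n1 + n2) ≤ n) :
    ∀ i < 10, |v i| ≤ n := by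
  have := abs_nonneg (v 0); have := abs_nonneg (v 1); have := abs_nonneg (v 2)
  have := abs_nonneg (v 3); have := abs_nonneg (v 4); have := abs_nonneg (v 5)
  have := abs_nonneg (v 6); have := abs_nonneg (v 7); have := abs_nonneg (v 8)
  have := abs_nonneg (v 9)
  refine all10 ⟨?_, ?_, ?_, ?_, ?_, ?_, ?_, ?_, ?_, ?_⟩ <;> linarith

theorem RN.toA (h : RN t p y) : RA t p.toA y := by
  intro (k : p.r < 2 ^ 58)
  have := h.nr
  obtain ⟨u, u1, u2, u3, u4, u5⟩ := h.ex (by omega)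
  rw [h.hk, Nat.cast_add] at u4
  refine ⟨u, u1, fun i hi => (ent u2 u3 u4 i hi).trans (Nat.cast_le.2 ?_), u5⟩
  change p.n ≤ 2 ^ 83 * p.r
  omega

theorem RN.le (h : RN t p y) (g : p.m < 2 ^ 106) : |y| * 2 ^ 48 ≤ p.m := by
  have := h.hm
  obtain ⟨u, -, u2, u3, u4, u5⟩ := h.ex (by omega)
  rw [h.hk] at u4
  rw [← abs_of_pos (show (0 : ℝ) < 2 ^ 48 by norm_num), ← abs_mul, h.hm, Nat.cast_add]
  linarith [ev_le t u2 u3 u4, abs_sub_abs_le_abs_sub (y * 2 ^ 48) (ev t u)]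

def prd (u v : ℕ → ℤ) : ℕ → ℤ
  | 0 => u 0 * v 0 + 0 * v 0 + 0 * v 0 + 0 * v 0
  | 1 => u 0 * v 1 + u 1 * v 0 + 0 * v 0 + 0 * v 0
  | 2 => u 0 * v 2 + u 2 * v 0 + 0 * v 0 + 0 * v 0
  | 3 => u 0 * v 3 + u 3 * v 0 + 0 * v 0 + 0 * v 0
  | 4 => u 0 * v 4 + u 4 * v 0 + u 1 * v 1 + 0 * v 0
  | 5 => u 0 * v 5 + u 5 * v 0 + u 1 * v 2 + u 2 * v 1
  | 6 => u 0 * v 6 + u 6 * v 0 + u 2 * v 2 + 0 * v 0
  | 7 => u 0 * v 7 + u 7 * v 0 + u 1 * v 3 + u 3 * v 1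
  | 8 => u 0 * v 8 + u 8 * v 0 + u 2 * v 3 + u 3 * v 2
  | 9 => u 0 * v 9 + u 9 * v 0 + u 3 * v 3 + 0 * v 0
  | _ => 0

theorem dot4 {x1 x2 x3 x4 n m : ℤ} {v : ℕ → ℤ} (h : ∀ i < 10, |v i| ≤ m) {i j k l : ℕ}
    (c : i < 10 ∧ j < 10 ∧ k < 10 ∧ l < 10) (g : |x1| + |x2| + |x3| + |x4| ≤ n) :
    |x1 * v i + x2 * v j + x3 * v k + x4 * v l| ≤ n * m := by
  have f : ∀ (x : ℤ) (i : ℕ), i < 10 → |x * v i| ≤ |x| * m := fun x i hi => by
    rw [abs_mul]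
    exact mul_le_mul_of_nonneg_left (h i hi) (abs_nonneg _)
  have := mul_le_mul_of_nonneg_right g ((abs_nonneg _).trans (h 0 (by decide)))
  linarith [f x1 i c.1, f x2 j c.2.1, f x3 k c.2.2.1, f x4 l c.2.2.2,
    abs_add_le (x1 * v i + x2 * v j + x3 * v k) (x4 * v l),
    abs_add_three (x1 * v i) (x2 * v j) (x3 * v k)]

theorem mul_ok (h : RN t p y) (g : RN t q z) : RW t (mul p q) (y * z) := by
  intro (k : p.n1 * q.n2 + p.n2 * q.k + (p.n * q.r + p.r * q.m) < 2 ^ 106)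
  have a1 := Nat.le_mul_of_pos_right p.n g.r1
  have a2 := Nat.le_mul_of_pos_left q.m h.r1
  have a3 := g.hm
  obtain ⟨u, u1, u2, u3, u4, u5⟩ := h.ex (by omega)
  obtain ⟨v, v1, v2, v3, v4, v5⟩ := g.ex (by omega)
  rw [h.hk] at u4
  rw [g.hk] at v4
  refine ⟨prd u v, ?_, fun i hi => ?_, ?_⟩
  · refine ((Nat.cast_mul (α := ℤ) p.x q.x).symm ▸ u1.mul v1).trans ?_
    rw [cTz, Int.modEq_iff_dvd]
    generalize (cW : ℤ) = W
    refine ⟨-((u 1 + W * u 2 + W ^ 3 * u 3) *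
      (v 4 + W * v 5 + W ^ 2 * v 6 + W ^ 3 * v 7 + W ^ 4 * v 8 + W ^ 6 * v 9) +
      (u 4 + W * u 5 + W ^ 2 * u 6 + W ^ 3 * u 7 + W ^ 4 * u 8 + W ^ 6 * u 9) *
      (v 1 + W * v 2 + W ^ 3 * v 3 + W ^ 7 *
        (v 4 + W * v 5 + W ^ 2 * v 6 + W ^ 3 * v 7 + W ^ 4 * v 8 + W ^ 6 * v 9))), ?_⟩
    simp only [PK, prd]
    ring
  · have b1 : |prd u v i| ≤ p.n * q.n := by
      rw [Nat.cast_add] at u4 v4
      have := abs_nonneg (u 0); have := abs_nonneg (u 1); have := abs_nonneg (u 2)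
      have := abs_nonneg (u 3); have := abs_nonneg (u 4); have := abs_nonneg (u 5)
      have := abs_nonneg (u 6); have := abs_nonneg (u 7); have := abs_nonneg (u 8)
      have := abs_nonneg (u 9); have := abs_zero (α := ℤ)
      revert i
      refine all10 ⟨?_, ?_, ?_, ?_, ?_, ?_, ?_, ?_, ?_, ?_⟩ <;>
        exact dot4 (ent v2 v3 v4) (by decide) (by linarith)
    refine b1.trans (le_trans (le_of_eq (Nat.cast_mul _ _).symm) (Nat.cast_le.2 ?_))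
    change _ ≤ 2 ^ 37 * (p.n1 * q.n2 + p.n2 * q.k + (p.n * q.r + p.r * q.m))
    have := Nat.mul_le_mul_left p.n g.nr
    rw [mul_left_comm] at this
    omega
  · change _ ≤ ((p.n1 * q.n2 + p.n2 * q.k + (p.n * q.r + p.r * q.m) : ℕ) : ℝ)
    have e : y * z * 2 ^ 96 - ev t (prd u v) = e1 t u * e2 t v + e2 t u * (e1 t v + e2 t v) +
        (ev t u * (z * 2 ^ 48 - ev t v) + (y * 2 ^ 48 - ev t u) * (z * 2 ^ 48)) := by
      simp only [ev, e1, e2, prd]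
      push_cast
      ring
    have m : ∀ {a b c d : ℝ}, |a| ≤ c → |b| ≤ d → |a * b| ≤ c * d := fun h g => by
      rw [abs_mul]
      exact mul_le_mul h g (abs_nonneg _) ((abs_nonneg _).trans h)
    have c1 := g.le (by omega)
    rw [← abs_of_pos (show (0 : ℝ) < 2 ^ 48 by norm_num), ← abs_mul] at c1
    rw [e, g.hk]
    push_cast
    exact (abs_add_le _ _).trans (add_le_add ((abs_add_le _ _).trans (add_le_add
      (m (e1_le t u2) (e2_le t v3)) (m (e2_le t u3) ((abs_add_le _ _).trans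
        (add_le_add (e1_le t v2) (e2_le t v3)))))) ((abs_add_le _ _).trans
      (add_le_add (m (ev_le t u2 u3 u4) v5) (m u5 c1))))

theorem cen {k : ℕ} (h : k < 2 ^ 96) {r : ℕ} (g : 4096 ≤ r) :
    |(k : ℤ) - 2 ^ 95| ≤ ((2 ^ 83 * r : ℕ) : ℤ) := by
  rw [abs_le]
  omega

theorem ev_rem (t : Pt) {v : ℕ → ℤ} (b : ∀ i, |v i| ≤ 2 ^ 48) : |ev t v| ≤ 10 * 2 ^ 48 := by
  have := ev_le t (v := v) (n1 := 3 * 2 ^ 48) (n2 := 6 * 2 ^ 48) (n := 10 * 2 ^ 48)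
    (by push_cast; linarith [b 1, b 2, b 3]) (by push_cast; linarith [b 4, b 5, b 6, b 7, b 8, b 9])
    (by push_cast; linarith [b 0])
  exact_mod_cast this

theorem shr_le (x k : ℕ) : (x : ℝ) ≤ 2 ^ k * ((x >>> k + 1 : ℕ) : ℝ) := by
  rw [Nat.shiftRight_eq_div_pow]
  norm_cast
  exact (Nat.lt_mul_div_succ x (Nat.two_pow_pos k)).le

theorem rnd_ok (h : RW t a y) : RA t (rnd a) y := by
  intro (k : a.r >>> 48 + 4096 < 2 ^ 58)
  rw [Nat.shiftRight_eq_div_pow] at k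
  obtain ⟨v, v1, v2, v3⟩ := h (by omega)
  obtain ⟨f, H, e, c, d⟩ := bias v1 fun i hi => (v2 i hi).trans_lt (by omega)
  have m := pk_shr (s := 48) (g := fun _ => 2 ^ 96 - 1) (by norm_num) g1 c
    (fun _ _ => by norm_num) H
  rw [← e] at m
  refine ⟨_, msk_eq m, fun i _ => cen (Nat.and_le_right.trans_lt (by norm_num))
    (Nat.le_add_left _ _), ?_⟩
  change _ ≤ ((a.r >>> 48 + 4096 : ℕ) : ℝ)
  have e1 := ev_comb (x := v) (c := 2 ^ 48) (d := 1) (v := fun i => (f i % 2 ^ 48 : ℕ))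
    (u := fun i => ((f i >>> 48 &&& 2 ^ 96 - 1 : ℕ) : ℤ) - 2 ^ 95) t fun i hi => by
      have := c i hi
      have := d i hi
      clear m e
      rw [Nat.and_two_pow_sub_one_eq_mod, Nat.shiftRight_eq_div_pow]
      omega
  have e2 := ev_rem t (v := fun i => (f i % 2 ^ 48 : ℕ)) fun i =>
    (Nat.abs_cast _).le.trans (by exact_mod_cast (Nat.mod_lt (f i) (Nat.two_pow_pos 48)).le)
  have e3 := shr_le a.r 48
  rw [e1] at v3
  generalize ev t _ = E at v3 ⊢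
  generalize ev t _ = F at v3 e2
  rw [abs_le] at v3 e2 ⊢
  push_cast at v3 e3 ⊢
  constructor <;> linarith [v3.1, v3.2, e2.1, e2.2]

theorem nr2_ok {x r n1 n2 n : ℕ} (h : n < 2 ^ 106 → ∃ v : ℕ → ℤ, (x : ℤ) ≡ PK cW v [ZMOD cT] ∧
    |v 1| + |v 2| + |v 3| ≤ n1 ∧ |v 4| + |v 5| + |v 6| + |v 7| + |v 8| + |v 9| ≤ n2 ∧
    |v 0| + ((n1 + n2 : ℕ) : ℤ) ≤ n ∧ |z * 2 ^ 48 - ev t v| ≤ (r : ℝ)) :
    RN t (nr2 x r n1 n2 (n1 + n2) n) z := by
  refine ⟨?_, ?_, rfl, rfl, fun k => ?_⟩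
  · change 1 ≤ r + (n >>> 37 + 1)
    omega
  · change n ≤ 2 ^ 37 * (r + (n >>> 37 + 1))
    rw [Nat.shiftRight_eq_div_pow]
    omega
  · obtain ⟨v, v1, v2, v3, v4, v5⟩ := h k
    exact ⟨v, v1, v2, v3, v4, v5.trans (Nat.cast_le.2 (Nat.le_add_right _ _))⟩

theorem RA.ex (h : RA t a y) (k : a.r < 2 ^ 58) : ∃ v : ℕ → ℤ, (a.x : ℤ) ≡ PK cW v [ZMOD cT] ∧
    (∀ i < 10, |v i| < 2 ^ 141) ∧ |y * 2 ^ 48 - ev t v| ≤ (a.r : ℝ) := by
  obtain ⟨v, v1, v2, v3⟩ := h k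
  exact ⟨v, v1, fun i hi => (v2 i hi).trans_lt (by omega), v3⟩

theorem nrm_ok (h : RA t a y) : RN t (nrm a) y := by
  refine nr2_ok fun k => ?_
  simp only [Nat.add_eq, Nat.shiftRight_eq, Nat.shiftLeft_eq', Nat.shiftLeft_eq,
    Nat.shiftRight_eq_div_pow a.r] at k
  obtain ⟨v, v1, v2, v3⟩ := h.ex (by omega)
  obtain ⟨-, n0, n1, n2⟩ := norms v1 v2
  refine ⟨v, v1, n1, n2, ?_, v3⟩
  refine le_trans ?_ (Nat.cast_le.2 (Nat.le_add_right _ _))
  rw [add_comm]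
  exact (add_le_add_right n0 _).trans (Nat.cast_add _ _).ge

theorem pos_ok (h : RA t a y) (g : pos a = true) : 0 < y := by
  have g' : 2 ^ 143 + ((nrm a).n1 + (nrm a).n2 + a.r) + a.r >>> 58 <<< 143 < lane a.x :=
    Nat.blt_eq.mp g
  have l : lane a.x < 2 ^ 144 := Nat.mod_lt _ (Nat.two_pow_pos _)
  rw [Nat.shiftLeft_eq, Nat.shiftRight_eq_div_pow] at g'
  obtain ⟨v, v1, v2, v3⟩ := h.ex (by omega)
  obtain ⟨n0, -, n1, n2⟩ := norms v1 v2
  have a1 : |e1 t v| ≤ (nrm a).n1 := e1_le t n1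
  have a2 : |e2 t v| ≤ (nrm a).n2 := e2_le t n2
  have a3 : (((nrm a).n1 + (nrm a).n2 + a.r : ℤ) : ℝ) < v 0 := Int.cast_lt.2 (by omega)
  push_cast at a3
  rw [ev] at v3
  linarith [abs_le.1 a1, abs_le.1 a2, abs_le.1 v3]

/-- constants -/
def v0 (d : ℤ) : ℕ → ℤ := fun i => if i = 0 then d else 0

theorem cs {x r : ℕ} {d : ℤ} (h : (x : ℤ) ≡ d [ZMOD cT]) (g : |d| ≤ ((2 ^ 83 * r : ℕ) : ℤ))
    (e : |z * 2 ^ 48 - d| ≤ (r : ℝ)) : RA t ⟨x, r⟩ z := fun _ =>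
  ⟨v0 d, by simpa [PK, v0] using h, fun i _ => by
    unfold v0
    split_ifs
    · exact g
    · simp, by simpa [ev, e1, e2, v0] using e⟩

theorem csN {x n : ℕ} {d : ℤ} (h : n < 2 ^ 106 → (x : ℤ) ≡ d [ZMOD cT]) (g : |d| ≤ n)
    (e : |z * 2 ^ 48 - d| ≤ 1) : RN t (nr2 x 1 0 0 0 n) z := nr2_ok fun k =>
  ⟨v0 d, by simpa [PK, v0] using h k, by simp [v0], by simp [v0], by simpa [v0] using g,
    by simpa [ev, e1, e2, v0] using e⟩

theorem ngc {d : ℕ} (h : d < 2 ^ 106) : ((cT - d : ℕ) : ℤ) ≡ -d [ZMOD cT] := by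
  have : d ≤ cT := h.le.trans (Nat.pow_le_pow_right (by norm_num) (by norm_num))
  rw [Nat.cast_sub this, Int.modEq_iff_dvd]
  exact ⟨-1, by ring⟩

theorem cst_ok (d : ℕ) (h : d ≤ 2 ^ 83) (e : |z * 2 ^ 48 - d| ≤ 1) : RA t (cst d) z :=
  cs (d := d) rfl (by rw [Nat.abs_cast]; omega) (by simpa using e)
theorem ncst_ok (d : ℕ) (h : d ≤ 2 ^ 83) (e : |z * 2 ^ 48 + d| ≤ 1) : RA t (ncst d) z :=
  cs (ngc (by omega)) (by rw [abs_neg, Nat.abs_cast]; omega) (by simpa using e)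
theorem cN_ok (d : ℕ) (e : |z * 2 ^ 48 - d| ≤ 1) : RN t (cN d) z :=
  csN (d := d) (fun _ => rfl) (Nat.abs_cast d).le (by simpa using e)
theorem ncN_ok (d : ℕ) (e : |z * 2 ^ 48 + d| ≤ 1) : RN t (ncN d) z :=
  csN ngc (by rw [abs_neg, Nat.abs_cast]) (by simpa using e)
theorem one_ok : RA t one 1 := cst_ok _ (by norm_num) (by norm_num)

theorem ivl_ok {l h : ℕ} (e : In l h z) : RA t (ivl l h) z := by
  refine cs (d := (l + h : ℕ)) rfl ?_ ?_
  · change _ ≤ ((2 ^ 83 * (h + ((l + h) >>> 83 + 1)) : ℕ) : ℤ)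
    rw [Nat.abs_cast, Nat.shiftRight_eq_div_pow]
    omega
  · change _ ≤ ((h + ((l + h) >>> 83 + 1) : ℕ) : ℝ)
    rw [abs_le]
    push_cast
    constructor <;> linarith [e.1, e.2, Nat.cast_nonneg (α := ℝ) ((l + h) >>> 83)]

theorem hint_ok (t : Pt) (y : ℕ) : ∃ z, RA t (hint y) z := by
  obtain ⟨f, a, b⟩ := pk_msk (w := 144) (g := fun _ => 2 ^ 96 - 1) g1 (fun _ _ => by norm_num) y
  exact ⟨ev t (fun i => f i - 2 ^ 95) / 2 ^ 48, fun _ => ⟨_, msk_eq a,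
    fun i hi => cen ((b i hi).trans_lt (by norm_num)) le_rfl, by simp⟩⟩

theorem lin_ok (t : Pt) (a : A) : ∃ z, RA t (lin a) z := hint_ok t _
theorem aff_ok (t : Pt) (s d : ℕ) : ∃ z, RA t (aff s d) z := hint_ok t _

theorem inv_ok (h : RN t p y) : RA t (inv p) y⁻¹ := by
  unfold inv iv0
  generalize Nat.div _ _ = d
  have c : RN t (cN d) (d / 2 ^ 48) := cN_ok d (by simp)
  have u := nrm_ok (sub_ok one_ok (rnd_ok (mul_ok c h)))
  generalize nrm _ = U at u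
  refine wid_of _ (rnd_ok (mul_ok c (nrm_ok (add_ok (add_ok one_ok u.toA) (rnd_ok (mul_ok u u))))))
    fun (k : (d * (U.m * (U.m * U.m))) >>> 143 + 1 + U.m >>> 47 <<< 58 < _) => ?_
  change _ ≤ (((d * (U.m * (U.m * U.m))) >>> 143 + 1 + U.m >>> 47 <<< 58 : ℕ) : ℝ)
  rw [Nat.shiftLeft_eq, Nat.shiftRight_eq_div_pow U.m] at k
  have m1 : U.m < 2 ^ 47 := by omega
  have m2 := u.le (by omega)
  have m3 : (U.m : ℝ) < 2 ^ 47 := by exact_mod_cast m1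
  have m4 := shr_le (d * (U.m * (U.m * U.m))) 143
  have d0 : (0 : ℝ) ≤ d := Nat.cast_nonneg d
  generalize hw : 1 - (d : ℝ) / 2 ^ 48 * y = w at m2
  have w1 : 1 / 2 ≤ 1 - w := by linarith [le_abs_self w]
  have y0 : y ≠ 0 := by
    rintro rfl
    rw [mul_zero] at hw
    linarith
  have e : y⁻¹ - d / 2 ^ 48 * (1 + w + w * w) = d / 2 ^ 48 * (w * (w * w)) / (1 - w) := by
    rw [eq_div_iff (by linarith)]
    have : y⁻¹ * (1 - w) = d / 2 ^ 48 := by rw [← hw]; field_simp; ring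
    linear_combination this
  have w3 : |w| * (|w| * |w|) * 2 ^ 144 ≤ U.m * (U.m * U.m) := by
    have := pow_le_pow_left₀ (by positivity) m2 3
    linarith [show (|w| * 2 ^ 48) ^ 3 = |w| * (|w| * |w|) * 2 ^ 144 by ring,
      show (U.m : ℝ) ^ 3 = U.m * (U.m * U.m) by ring]
  rw [e, abs_div, abs_mul, abs_mul, abs_mul, abs_of_nonneg (by positivity : (0 : ℝ) ≤ d / 2 ^ 48),
    abs_of_pos (by linarith : 0 < 1 - w), div_mul_eq_mul_div, div_le_iff₀ (by linarith),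
    Nat.cast_add]
  rw [Nat.cast_mul, Nat.cast_mul, Nat.cast_mul] at m4
  have w4 := mul_le_mul_of_nonneg_left w3 d0
  have w5 := Nat.cast_nonneg (α := ℝ) (U.m >>> 47 <<< 58)
  have w6 := Nat.cast_nonneg (α := ℝ) ((d * (U.m * (U.m * U.m))) >>> 143 + 1)
  nlinarith

def hr (x : ℝ) : List ℝ → ℝ → ℝ
  | [], c => c
  | d :: l, c => c + x * hr x l d

theorem hor_ok (h : RN t p y) {l : List A} {L : List ℝ} (g : List.Forall₂ (RA t) l L) :
    ∀ {a : A} {z : ℝ}, RA t a z → RA t (hor p l a) (hr y L z) := by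
  induction g with
  | nil => exact id
  | cons a _ ih => exact fun c => add_ok c (rnd_ok (mul_ok h (nrm_ok (ih a))))

theorem ex1_ok (h : RN t p y) : RA t (ex1 p) (Real.exp y) := by
  refine wid_of _ (hor_ok h (L := [1, 1 / 2, 1 / 6, 1 / 24, 1 / 120, 1 / 720, 1 / 5040, 1 / 40320,
    1 / 362880]) ?_ one_ok) fun (k : (p.m ^ 10) >>> 453 + 1 + p.m >>> 48 <<< 58 < _) => ?_
  · refine .cons one_ok ?_
    iterate 8 refine .cons (cst_ok _ (by norm_num) (by norm_num [abs_le])) ?_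
    exact .nil
  change _ ≤ (((p.m ^ 10) >>> 453 + 1 + p.m >>> 48 <<< 58 : ℕ) : ℝ)
  rw [Nat.shiftLeft_eq, Nat.shiftRight_eq_div_pow p.m] at k
  have m1 : p.m < 2 ^ 48 := by omega
  have m2 := h.le (by omega)
  have m3 : (p.m : ℝ) < 2 ^ 48 := by exact_mod_cast m1
  have m4 := shr_le (p.m ^ 10) 453
  have m5 := Real.exp_bound (x := y) (by linarith) (n := 10) (by norm_num)
  have m6 := pow_le_pow_left₀ (by positivity) m2 10
  have m7 : hr y [1, 1 / 2, 1 / 6, 1 / 24, 1 / 120, 1 / 720, 1 / 5040, 1 / 40320, 1 / 362880] 1 =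
      ∑ m ∈ Finset.range 10, y ^ m / m.factorial := by
    simp only [hr, Finset.sum_range_succ, Finset.sum_range_zero, Nat.factorial]
    push_cast
    ring
  rw [m7, Nat.cast_add]
  rw [mul_pow] at m6
  rw [Nat.cast_pow] at m4
  norm_num [Nat.factorial] at m5 m6
  linarith [Nat.cast_nonneg (α := ℝ) (p.m >>> 48 <<< 58), pow_nonneg (abs_nonneg y) 10]

/-! boxes -/

theorem In.pt {l h : ℕ} (e : In l h z) : ∃ x : ℝ, |x| ≤ 1 ∧ z * 2 ^ 48 = l + h + h * x := by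
  rcases h.eq_zero_or_pos with rfl | h0
  · exact ⟨0, by simp, by simpa using le_antisymm (by simpa using e.2) e.1⟩
  · have h1 : (0 : ℝ) < h := Nat.cast_pos.2 h0
    refine ⟨(z * 2 ^ 48 - l - h) / h, ?_, by field_simp; ring⟩
    rw [abs_div, abs_of_pos h1, div_le_one h1, abs_le]
    constructor <;> linarith [e.1, e.2]

theorem var_of {i k l h : ℕ} (h1 : PK cW (fun j => if j = k then 1 else 0) = 2 ^ i)
    (h2 : z * 2 ^ 48 = l + h + h * ev t fun j => if j = k then 1 else 0) (k0 : k ≠ 0) :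
    RA t (var i l h) z := fun _ => by
  refine ⟨fun j => (l + h : ℕ) * v0 1 j + h * if j = k then 1 else 0, ?_, fun j _ => ?_, ?_⟩
  · rw [PK_comb _ fun _ _ => rfl, h1]
    change ((l + h + h <<< i : ℕ) : ℤ) ≡ _ [ZMOD _]
    simp [PK, v0, Nat.shiftLeft_eq]
  · change _ ≤ ((2 ^ 83 * ((l + h) >>> 83 + 1) : ℕ) : ℤ)
    rw [Nat.shiftRight_eq_div_pow, abs_le]
    unfold v0
    beta_reduce
    split_ifs <;> omega
  · rw [ev_comb _ fun _ _ => rfl, h2]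
    simp [ev, e1, e2, v0]

/-- the points of a box -/
theorem box_ok {l h m i n j : ℕ} {x y z : ℝ} (a : In l h x) (b : In m i y) (c : In n j z) :
    ∃ t, RA t (var 1008 l h) x ∧ RA t (var 1152 m i) y ∧ RA t (var 1440 n j) z := by
  obtain ⟨x, x1, x2⟩ := a.pt
  obtain ⟨y, y1, y2⟩ := b.pt
  obtain ⟨z, z1, z2⟩ := c.pt
  refine ⟨⟨x, y, z, x1, y1, z1⟩, var_of (k := 1) ?_ ?_ (by decide), var_of (k := 2) ?_ ?_ (by decide),
    var_of (k := 3) ?_ ?_ (by decide)⟩ <;> simp [PK, cWz, ev, e1, e2, x2, y2, z2]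

theorem In.sp {l h l' h' : ℕ} (a : In l h z) (e : l' ≤ l + 2 * h' ∧ l + 2 * h ≤ l' + 2 * h') :
    In l h' z ∨ In l' h' z := by
  have e1 : (l' : ℝ) ≤ l + 2 * h' := by exact_mod_cast e.1
  have e2 : (l : ℝ) + 2 * h ≤ l' + 2 * h' := by exact_mod_cast e.2
  rcases le_total (z * 2 ^ 48) ((l : ℝ) + 2 * h') with c | c
  · exact Or.inl ⟨a.1, c⟩
  · exact Or.inr ⟨e1.trans c, a.2.trans e2⟩

section
variable {G : ℝ → ℝ → ℝ → Prop}

theorem Cov.s1 {l h l' h' m i n j : ℕ} (a : Cov G l h' m i n j) (b : Cov G l' h' m i n j)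
    (e : l' ≤ l + 2 * h' ∧ l + 2 * h ≤ l' + 2 * h') : Cov G l h m i n j :=
  fun x y z u v w => (u.sp e).elim (fun u => a x y z u v w) fun u => b x y z u v w
theorem Cov.s2 {l h m i m' i' n j : ℕ} (a : Cov G l h m i' n j) (b : Cov G l h m' i' n j)
    (e : m' ≤ m + 2 * i' ∧ m + 2 * i ≤ m' + 2 * i') : Cov G l h m i n j :=
  fun x y z u v w => (v.sp e).elim (fun v => a x y z u v w) fun v => b x y z u v w
theorem Cov.s3 {l h m i n j n' j' : ℕ} (a : Cov G l h m i n j') (b : Cov G l h m i n' j')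
    (e : n' ≤ n + 2 * j' ∧ n + 2 * j ≤ n' + 2 * j') : Cov G l h m i n j :=
  fun x y z u v w => (w.sp e).elim (fun w => a x y z u v w) fun w => b x y z u v w

theorem hf_ok (l h : ℕ) : l + h ≤ l + 2 * hf h ∧ l + 2 * h ≤ l + h + 2 * hf h := by
  rw [show hf h = (h + 1) / 2 from rfl]
  omega

theorem run_ok {f : ℕ → ℕ → ℕ → ℕ → ℕ → ℕ → ℕ → Bool}
    (hf : ∀ d l h m i n j, f d l h m i n j = true → Cov G l h m i n j) (T : Tr) :
    ∀ l h m i n j, run f T l h m i n j = true → Cov G l h m i n j := by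
  induction T with
  | lf d => exact hf d
  | s1 a b u v =>
    exact fun l h m i n j e => Cov.s1 (u _ _ _ _ _ _ (Bool.and_eq_true_iff.1 e).1)
      (v _ _ _ _ _ _ (Bool.and_eq_true_iff.1 e).2) (hf_ok l h)
  | s2 a b u v =>
    exact fun l h m i n j e => Cov.s2 (u _ _ _ _ _ _ (Bool.and_eq_true_iff.1 e).1)
      (v _ _ _ _ _ _ (Bool.and_eq_true_iff.1 e).2) (hf_ok m i)
  | s3 a b u v =>
    exact fun l h m i n j e => Cov.s3 (u _ _ _ _ _ _ (Bool.and_eq_true_iff.1 e).1)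
      (v _ _ _ _ _ _ (Bool.and_eq_true_iff.1 e).2) (hf_ok n j)

end

/-- pattern of a leaf: `0 < x y + U (z - 1) + 1 / z` for some `U`, or `0 < x - y` -/
def exa (d l h m i n j : ℕ) : Bool :=
  let x := nrm (var 1008 l h)
  let y := nrm (var 1152 m i)
  let z := nrm (var 1440 n j)
  let u := nrm (aff 28 (fld d 0))
  let w := add (rnd (add (mul x y) (mul u (nrm (sub z.toA one))))) (inv z)
  or (pos w) (pos (sub x.toA y.toA))

theorem exa_ok (d l h m i n j : ℕ) : exa d l h m i n j = true →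
    Cov (fun x y z => (∃ U, 0 < x * y + U * (z - 1) + z⁻¹) ∨ 0 < x - y) l h m i n j := by
  unfold exa
  extract_lets x y z u w
  intro H X Y Z hX hY hZ
  obtain ⟨t, a1, a2, a3⟩ := box_ok hX hY hZ
  have hx : RN t x X := nrm_ok a1
  have hy : RN t y Y := nrm_ok a2
  have hz : RN t z Z := nrm_ok a3
  obtain ⟨U, hU⟩ := aff_ok t 28 (fld d 0)
  have hu : RN t u U := nrm_ok hU
  have hw : RA t w _ :=
    add_ok (rnd_ok (add_ok (mul_ok hx hy) (mul_ok hu (nrm_ok (sub_ok hz.toA one_ok))))) (inv_ok hz)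
  rcases Bool.or_eq_true_iff.1 H with H | H
  · exact Or.inl ⟨U, pos_ok hw H⟩
  · exact Or.inr (pos_ok (sub_ok hx.toA hy.toA) H)

example : run exa (.s1 (.lf 0) (.s3 (.lf 0) (.lf 39614083618315503925032124416))) 281474976710657
    28147497671065 28147497671067 2814749767103 281474976710659 2814749767107 = true := by
  decide +kernel

end Pool.Agent.MP_815c6c_an.W.AA
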