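import Pool.Agent.MP_815c6c_an.W.Glue

/-! The certificate for large `p`: `F = exp (5 τ / 4)`, no dependence on the angle. -/

set_option autoImplicit false

noncomputable section

namespace Pool.Agent.MP_815c6c_an.W.Tl

open KR

theorem lag (Q S g v x y : ℝ) (hQ : 0 ≤ Q) :
    (Q * S * v - g * (x + y)) ^ 2 ≤ (Q * v ^ 2 + x ^ 2 + y ^ 2) * (Q * S ^ 2 + 2 * g ^ 2) := by
  have h1 := mul_nonneg hQ (sq_nonneg (g * v + S * x))
  have h2 := mul_nonneg hQ (sq_nonneg (g * v + S * y))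
  have h3 := sq_nonneg (g * (x - y))
  linear_combination h1 + h2 + h3

theorem mb {a b : ℝ} (A B : ℝ) (h1 : -A ≤ a) (h2 : a ≤ A) (h3 : -B ≤ b) (h4 : b ≤ B) :
    -(A * B) ≤ a * b ∧ a * b ≤ A * B := by
  have := abs_le.1 ((abs_mul a b).le.trans (mul_le_mul (abs_le.2 ⟨h1, h2⟩) (abs_le.2 ⟨h3, h4⟩)
    (abs_nonneg b) ((abs_nonneg a).trans (abs_le.2 ⟨h1, h2⟩))))
  exact this

/-- away from the valley -/
theorem core1 (Q u Z c S g h v x y w o : ℝ) (hQ : 16384 ≤ Q) (u0 : 0 ≤ u) (u1 : u ≤ 1 / 16383)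
    (hu : Q * u = 1 + u) (hS : c ^ 2 + S ^ 2 = 1) (hc : 17 ≤ Q * c ^ 2) (hg : g ^ 2 ≤ 81)
    (hw : (Q * w) ^ 2 ≤ Z ^ 2) (ho : o ^ 2 ≤ Z ^ 2 / 1000000)
    (c1 : g * h + S * v = Z * c - w) (tr : Q * h = -(2 * Z + x + y)) :
    Z ^ 2 / 1000 ≤ 1 / 4 * (Q * v ^ 2 + x ^ 2 + y ^ 2) -
      5 / 16 * (Q * (h - Z * u) ^ 2 + v ^ 2) - (5 / 4 + 5 / 4 * u) * Z ^ 2 * (2 + Q * u) -
      2 * o * v := by
  have Q0 : 0 < Q := by linarith
  have Z2 := sq_nonneg Z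
  have x2 := sq_nonneg x
  have y2 := sq_nonneg y
  have v2 := sq_nonneg v
  have e1 : Q * (h - Z * u) = -((3 + u) * Z + x + y) := by linear_combination tr - Z * hu
  have e2 : Q * (Q * (h - Z * u) ^ 2) = ((3 + u) * Z + x + y) ^ 2 := by
    have : Q * (Q * (h - Z * u) ^ 2) = (Q * (h - Z * u)) ^ 2 := by ring
    rw [this, e1]; ring
  have e3 : ((3 + u) * Z + x + y) ^ 2 ≤ 3 * ((3 + u) ^ 2 * Z ^ 2 + x ^ 2 + y ^ 2) := by
    have a1 := sq_nonneg ((3 + u) * Z - x)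
    have a2 := sq_nonneg ((3 + u) * Z - y)
    have a3 := sq_nonneg (x - y)
    linear_combination a1 + a2 + a3
  have e4 : (3 + u) ^ 2 ≤ 901 / 100 := by nlinarith
  have e5 := mul_le_mul_of_nonneg_right e4 Z2
  have A0 : 0 ≤ Q * (h - Z * u) ^ 2 := mul_nonneg Q0.le (sq_nonneg _)
  have e6 := mul_le_mul_of_nonneg_right hQ A0
  have e7 := mul_le_mul_of_nonneg_right hQ v2
  have f1 : Q * S * v - g * (x + y) = Q * Z * c - (Q * w - 2 * g * Z) := by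
    linear_combination Q * c1 - g * tr
  have f2 := lag Q S g v x y Q0.le
  rw [f1] at f2
  have f3 : (Q * w - 2 * g * Z) ^ 2 ≤ 361 * Z ^ 2 := by
    have a1 := sq_nonneg (18 * (Q * w) + 2 * g * Z)
    have a2 := mul_le_mul_of_nonneg_right hg Z2
    linear_combination 1 / 18 * a1 + 19 * hw + 38 / 9 * a2
  have f4 : 17 * (Q * Z ^ 2) ≤ (Q * Z * c) ^ 2 := by
    have := mul_le_mul_of_nonneg_right hc (mul_nonneg Q0.le Z2)
    linear_combination this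
  have f5 := sq_nonneg (Q * Z * c - 20 * (Q * w - 2 * g * Z))
  have f6 := mul_le_mul_of_nonneg_right hQ Z2
  have G0 : 0 ≤ Q * v ^ 2 + x ^ 2 + y ^ 2 := by positivity
  have f7 : Q * S ^ 2 + 2 * g ^ 2 ≤ 101 / 100 * Q := by
    have : Q * S ^ 2 ≤ Q := by nlinarith [mul_nonneg Q0.le (sq_nonneg c)]
    linarith
  have f8 := mul_le_mul_of_nonneg_left f7 G0
  have f9 : Q * (1573 / 100 * Z ^ 2) ≤ Q * (101 / 100 * (Q * v ^ 2 + x ^ 2 + y ^ 2)) := by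
    linear_combination f2 + f8 + 1 / 20 * f5 + 19 / 20 * f4 + 19 * f3 + 42 / 100 * f6 +
      (42 / 100 * 16384 - 19 * 361) * Z2
  have f10 := le_of_mul_le_mul_left f9 Q0
  have g1 : (5 / 4 + 5 / 4 * u) * (2 + Q * u) ≤ 3751 / 1000 := by rw [hu]; nlinarith
  have g2 := mul_le_mul_of_nonneg_right g1 Z2
  have g3 := sq_nonneg (o - v)
  have g4 : 2 * o * v ≤ o ^ 2 + v ^ 2 := by linear_combination g3
  have g5 : (5 / 4 + 5 / 4 * u) * Z ^ 2 * (2 + Q * u) ≤ 3751 / 1000 * Z ^ 2 := by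
    linear_combination g2
  generalize Q * (h - Z * u) ^ 2 = A at *
  generalize Q * v ^ 2 = B at *
  linarith

/-- in the valley -/
theorem core2 (Q u Z c S g h v x y w n₁ n₂ W ω : ℝ) (hQ : 16384 ≤ Q) (u0 : 0 ≤ u)
    (u1 : u ≤ 1 / 16383) (hu : Q * u = 1 + u) (hS : c ^ 2 + S ^ 2 = 1) (hc : Q * c ^ 2 ≤ 17)
    (Z0 : 0 ≤ Z) (Z1 : Z ≤ 25 / 2) (hg : g ^ 2 ≤ 41 / 4) (hw : |w| ≤ 1 / 100000)
    (h1 : |n₁| ≤ 1 / 10000000) (h2 : |n₂| ≤ 1 / 10000000) (h3 : |(Q - 1) * n₂| ≤ 1 / 1000)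
    (hW : W = Q * ω) (hω : ω * (Q * S ^ 2 + (c + Z) ^ 2) = 2 * ((c + Z) ^ 2 + S ^ 2))
    (c1 : g * h + S * v = Z * c - w) (tr : Q * h = -(2 * Z + x + y)) :
    Z ^ 2 / 1000 ≤ 1 / 4 * (Q * v ^ 2 + x ^ 2 + y ^ 2) -
      5 / 16 * (Q * (h - (Z - (c + Z) * ω) * u) ^ 2 + (v + S * W * u) ^ 2) -
      (5 / 4 + 5 / 4 * u) * Z ^ 2 * (2 + Q * u) +
      2 * W * ((1 + Z * c) * (1 - 5 / 4 * u ^ 2) - (c + Z) * n₁) -
      2 * n₂ * ((Q - 1) * v + S * W) := by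
  have Q0 : 0 < Q := by linarith
  have x2 := sq_nonneg x
  have y2 := sq_nonneg y
  have v2 := sq_nonneg v
  have Z2 : Z ^ 2 ≤ 625 / 4 := by nlinarith
  have cc : c ^ 2 ≤ 17 / 16384 := by nlinarith [sq_nonneg c]
  obtain ⟨ca, cb⟩ : -(323 / 10000) ≤ c ∧ c ≤ 323 / 10000 :=
    abs_le_of_sq_le_sq' (by linarith) (by norm_num)
  obtain ⟨ta, tb⟩ := mb (25 / 2) (323 / 10000) (by linarith) Z1 ca cb
  have g1 : (5 / 4 + 5 / 4 * u) * (2 + Q * u) ≤ 3751 / 1000 := by rw [hu]; nlinarith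
  have uu : u ^ 2 ≤ 1 / 100000000 := by nlinarith
  have S1 : S ^ 2 ≤ 1 := by nlinarith [sq_nonneg c]
  have S2 : 998 / 1000 ≤ S ^ 2 := by linarith
  obtain ⟨Sa, Sb⟩ : -1 ≤ S ∧ S ≤ 1 := abs_le_of_sq_le_sq' (by linarith) (by norm_num)
  have hX : (c + Z) ^ 2 + S ^ 2 = 1 + 2 * (Z * c) + Z ^ 2 := by linear_combination hS
  have Ra : -(1254 / 100) ≤ c + Z := by linarith
  have Rb : c + Z ≤ 1254 / 100 := by linarith
  have R2 : (c + Z) ^ 2 ≤ (1254 / 100) ^ 2 := sq_le_sq' Ra Rb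
  have D0 : 0 < Q * S ^ 2 + (c + Z) ^ 2 :=
    add_pos_of_pos_of_nonneg (mul_pos Q0 (by linarith)) (sq_nonneg _)
  have Z3 := sq_nonneg Z
  have X0 : 0 < 1 + 2 * (Z * c) + Z ^ 2 := by linarith
  rw [hX] at hω
  have ω0 : 0 ≤ ω := by
    by_contra hn
    have := mul_neg_of_neg_of_pos (not_le.1 hn) D0
    linarith
  have W0 : 0 ≤ W := by rw [hW]; exact mul_nonneg Q0.le ω0
  have Wb : W ≤ 317 := by
    have a1 := mul_le_mul_of_nonneg_left S2 W0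
    have a2 := mul_nonneg ω0 (sq_nonneg (c + Z))
    have a3 : W * S ^ 2 + ω * (c + Z) ^ 2 = 2 * (1 + 2 * (Z * c) + Z ^ 2) := by
      rw [hW]; linear_combination hω
    linarith
  have ωb : 16384 * ω ≤ W := by rw [hW]; exact mul_le_mul_of_nonneg_right hQ ω0
  have Wa : 198 / 100 * (1 + 2 * (Z * c) + Z ^ 2) ≤ W := by
    have a1 := mul_le_mul_of_nonneg_left S1 W0
    have a2 := mul_le_mul_of_nonneg_left R2 ω0
    have a3 : W * S ^ 2 + ω * (c + Z) ^ 2 = 2 * (1 + 2 * (Z * c) + Z ^ 2) := by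
      rw [hW]; linear_combination hω
    linarith
  have ω1 : ω ≤ 2 / 100 := by linarith
  obtain ⟨β, hβ⟩ : ∃ β, β = Z - (c + Z) * ω := ⟨_, rfl⟩
  obtain ⟨ra, rb⟩ := mb (1254 / 100) (2 / 100) Ra Rb (by linarith) ω1
  have βa : -(1276 / 100) ≤ β := by rw [hβ]; linarith
  have βa' : -1 ≤ β := by rw [hβ]; linarith
  have βb : β ≤ 1276 / 100 := by rw [hβ]; linarith
  obtain ⟨ua, ub⟩ := mb (1 / 16383) (1276 / 100) (by linarith) u1 βa βb
  rw [← hβ]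
  have e1 : Q * (h - β * u) = -((2 * Z + (1 + u) * β) + x + y) := by
    linear_combination tr - β * hu
  have e2 : Q * (Q * (h - β * u) ^ 2) = ((2 * Z + (1 + u) * β) + x + y) ^ 2 := by
    have : Q * (Q * (h - β * u) ^ 2) = (Q * (h - β * u)) ^ 2 := by ring
    rw [this, e1]; ring
  have e4 : (2 * Z + (1 + u) * β) ^ 2 ≤ 38 ^ 2 :=
    sq_le_sq' (by linarith) (by linarith)
  have e3 : ((2 * Z + (1 + u) * β) + x + y) ^ 2 ≤
      3 * ((2 * Z + (1 + u) * β) ^ 2 + x ^ 2 + y ^ 2) := by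
    have a1 := sq_nonneg ((2 * Z + (1 + u) * β) - x)
    have a2 := sq_nonneg ((2 * Z + (1 + u) * β) - y)
    have a3 := sq_nonneg (x - y)
    linear_combination a1 + a2 + a3
  have A0 : 0 ≤ Q * (h - β * u) ^ 2 := mul_nonneg Q0.le (sq_nonneg _)
  have e6 := mul_le_mul_of_nonneg_right hQ A0
  have e7 := mul_le_mul_of_nonneg_right hQ v2
  obtain ⟨sa, sb⟩ := mb 1 317 Sa Sb (by linarith) Wb
  obtain ⟨sc, sd⟩ := mb (1 * 317) (1 / 16383) sa sb (by linarith) u1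
  have e8 : (S * W * u) ^ 2 ≤ (2 / 100) ^ 2 := sq_le_sq' (by linarith) (by linarith)
  have e9 : (v + S * W * u) ^ 2 ≤ 2 * v ^ 2 + 2 * (S * W * u) ^ 2 := by
    have := sq_nonneg (v - S * W * u)
    linear_combination this
  -- the gain
  obtain ⟨ga, gb⟩ : -(321 / 100) ≤ g ∧ g ≤ 321 / 100 :=
    abs_le_of_sq_le_sq' (by linarith) (by norm_num)
  obtain ⟨wa, wb⟩ := abs_le.1 hw
  obtain ⟨N, hN⟩ : ∃ N, N = S * v - g * (x + y) / Q := ⟨_, rfl⟩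
  have f1 : Q * S * v - g * (x + y) = Q * N := by rw [hN]; field_simp
  have f1' : Q * (Z * c - w - N) = -(2 * (g * Z)) := by
    linear_combination -(Q * c1) + g * tr + f1
  obtain ⟨-, gz⟩ := mb (321 / 100) (25 / 2) ga gb (by linarith) Z1
  have tN : N - 5 / 1000 ≤ Z * c := by
    by_contra hn
    have a1 : Z * c - w - N ≤ -(499 / 100000) := by linarith
    have a2 := mul_le_mul_of_nonneg_left a1 Q0.le
    linarith
  have f2 := lag Q S g v x y Q0.le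
  rw [f1] at f2
  have G0 : 0 ≤ Q * v ^ 2 + x ^ 2 + y ^ 2 := by positivity
  have f7 : Q * S ^ 2 + 2 * g ^ 2 ≤ 1002 / 1000 * Q := by
    have := mul_le_mul_of_nonneg_left S1 Q0.le
    linarith
  have f8 := mul_le_mul_of_nonneg_left f7 G0
  have f6 := mul_le_mul_of_nonneg_right hQ (mul_nonneg Q0.le (sq_nonneg N))
  have f9 : Q * (16384 * N ^ 2) ≤ Q * (1002 / 1000 * (Q * v ^ 2 + x ^ 2 + y ^ 2)) := by
    linear_combination f2 + f8 + f6
  have f10 := le_of_mul_le_mul_left f9 Q0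
  -- the reflection
  obtain ⟨n1a, n1b⟩ := abs_le.1 h1
  obtain ⟨n2a, n2b⟩ := abs_le.1 h2
  obtain ⟨-, k1⟩ := mb _ _ Ra Rb n1a n1b
  have u2 := sq_nonneg u
  obtain ⟨-, k2⟩ := mb (a := 1 + Z * c) (b := 5 / 4 * u ^ 2) 2 (2 / 100000000) (by linarith)
    (by linarith) (by linarith) (by linarith)
  obtain ⟨-, k3⟩ := mb _ _ Sa Sb n2a n2b
  have k4 : (1 + Z * c) - 4 / 1000000 ≤
      (1 + Z * c) * (1 - 5 / 4 * u ^ 2) - (c + Z) * n₁ - S * n₂ := by linarith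
  have k5 := mul_le_mul_of_nonneg_left k4 W0
  have k6 := mul_le_mul_of_nonneg_right Wa (show 0 ≤ 1 + Z * c by linarith)
  have k7 : 2 * ((Q - 1) * n₂) * v ≤ 1 / 1000000 + v ^ 2 := by
    have a1 := sq_nonneg ((Q - 1) * n₂ - v)
    have a2 : ((Q - 1) * n₂) ^ 2 ≤ (1 / 1000) ^ 2 := by
      rw [← sq_abs]; exact pow_le_pow_left₀ (abs_nonneg _) h3 2
    linear_combination a1 + a2
  have g2 := mul_le_mul_of_nonneg_right g1 (sq_nonneg Z)
  have k8 := mul_le_mul_of_nonneg_left tN (show 0 ≤ 3 + Z ^ 2 by positivity)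
  have k9 := sq_nonneg (Z * c)
  have k10 : 0 ≤ 4080 * N ^ 2 + 396 / 100 * ((3 + Z ^ 2) * N) + 37 / 10 + 18 / 100 * Z ^ 2 := by
    have a1 := sq_nonneg (8160 * N + 396 / 100 * (3 + Z ^ 2))
    have a2 := mul_nonneg (sq_nonneg Z) (sub_nonneg.2 Z2)
    linear_combination 1 / 16320 * a1 + (396 / 100) ^ 2 / 16320 * a2 +
      (18 / 100 - (396 / 100) ^ 2 / 16320 * (6 + 625 / 4)) * Z3
  have k11 : 2 * W * ((1 + Z * c) * (1 - 5 / 4 * u ^ 2) - (c + Z) * n₁) -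
      2 * n₂ * ((Q - 1) * v + S * W) = 2 * (W * ((1 + Z * c) * (1 - 5 / 4 * u ^ 2) -
        (c + Z) * n₁ - S * n₂)) - 2 * ((Q - 1) * n₂) * v := by ring
  have k12 : (5 / 4 + 5 / 4 * u) * Z ^ 2 * (2 + Q * u) ≤ 3751 / 1000 * Z ^ 2 := by
    linear_combination g2
  have k13 : 396 / 100 * (1 + Z ^ 2 + (3 + Z ^ 2) * N - 5 / 1000 * (3 + Z ^ 2)) - 3 / 1000 ≤
      2 * (W * ((1 + Z * c) * (1 - 5 / 4 * u ^ 2) - (c + Z) * n₁ - S * n₂)) := by
    linear_combination 2 * k5 + 2 * k6 + 396 / 100 * k8 + 792 / 100 * k9 + 8 / 1000000 * Wb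
  generalize Q * (h - β * u) ^ 2 = A at *
  generalize Q * v ^ 2 = B at *
  linarith

/-- the jets of `exp (5 τ / 4)` -/
def jj (F : ℝ) : J6 := ⟨F, 5 / 4 * F, 0, (5 / 4) ^ 2 * F, 0, 0⟩

/-- the coefficients, `u = 1 / q` -/
def kk (u c S F : ℝ) : Co where
  g1 := c - F / 4
  g2 := S
  r := c + (F + 5 / 4 * F * u)
  e1 := c * (F + 5 / 4 * F * u)
  e2 := S * (F + 5 / 4 * F * u)
  y11 := 5 / 16 * F
  y12 := 0
  y22 := -(F / 4)
  c11 := c + (F + 5 / 4 * F * u) - 5 / 4 * F - 25 / 16 * F * u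
  c12 := S
  c21 := -S
  c22 := c
  z11 := 5 / 4 * F * u + 25 / 16 * F * u ^ 2
  z12 := 0
  z22 := F + 5 / 4 * F * u
  y3 := -(F / 4)
  c3 := 1
  z3 := F + 5 / 4 * F * u

theorem co_eq (q c S F : ℝ) : co q c S (jj F) = kk q⁻¹ c S F := by
  simp only [co, jj, kk, Co.mk.injEq, div_eq_mul_inv _ (q ^ 2), ← inv_pow]
  refine ⟨?_, ?_, ?_, ?_, ?_, ?_, ?_, ?_, ?_, ?_, ?_, ?_, ?_, ?_, ?_, ?_, ?_, ?_⟩ <;> ring

theorem blk0 (P u c S F Z ω h v k τ n₁ n₂ N₁ N₂ t μ : ℝ) (hZ : Z = F + 5 / 4 * F * u)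
    (hS : c ^ 2 + S ^ 2 = 1)
    (hω : ω * (ω * ((1 + P) * S ^ 2 + (c + Z) ^ 2) - 2 * ((c + Z) ^ 2 + S ^ 2)) = 0)
    (tr : (1 + P) * h + k + τ = 0) (c1 : (c - F / 4) * h + S * v = c * Z - F * n₁)
    (c2 : (c - F / 4) * v + S * k = S * Z - F * n₂) (hN : N₁ ^ 2 + N₂ ^ 2 = 1)
    (x1 : t * N₁ = c + Z) (x2 : t * N₂ = -S)
    (hv : μ ≤ F * (1 / 4 * ((1 + P) * v ^ 2 + (k - Z) ^ 2 + (τ - Z) ^ 2) -
      5 / 16 * ((1 + P) * (h - (Z - (c + Z) * ω) * u) ^ 2 + (v + S * ((1 + P) * ω) * u) ^ 2) -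
      (5 / 4 + 5 / 4 * u) * Z ^ 2 * (2 + (1 + P) * u) +
      2 * ((1 + P) * ω) * ((1 + Z * c) * (1 - 5 / 4 * u ^ 2) - (c + Z) * n₁) -
      2 * n₂ * ((1 + P - 1) * v + S * ((1 + P) * ω)))) :
    ∃ s a₁ a₂ b₁ b₂ e : ℝ, e ^ 2 ≤ s ∧
      (∀ v₁ v₂ : ℝ, (1 + P) * (v₁ * a₁ + v₂ * a₂) ^ 2 + (v₁ * b₁ + v₂ * b₂) ^ 2 ≤
        s * (v₁ ^ 2 + v₂ ^ 2 + P * (v₁ * N₁ + v₂ * N₂) ^ 2)) ∧
      (kk u c S F).vin P c S h v k τ (F * n₂) a₁ a₂ b₁ b₂ e s +
        (kk u c S F).xt P a₁ a₂ b₁ b₂ s N₁ N₂ ≤ -μ := by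
  have ht : (c + Z) ^ 2 + S ^ 2 = t ^ 2 := by
    have a : S = -(t * N₂) := by rw [x2]; ring
    rw [← x1, a]; linear_combination t ^ 2 * hN
  refine ⟨(c + Z) ^ 2 + S ^ 2, (c + Z) * (1 - ω), -S, S * (1 - (1 + P) * ω), c + Z, 1 + Z * c,
    ?_, ?_, ?_⟩
  · have := sq_nonneg (Z * S)
    linear_combination this - (1 - Z ^ 2) * hS
  · intro v₁ v₂
    have a : ((c + Z) ^ 2 + S ^ 2) * (v₁ * N₁ + v₂ * N₂) ^ 2 = (v₁ * (c + Z) - v₂ * S) ^ 2 := by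
      rw [ht, ← x1, show v₁ * (t * N₁) - v₂ * S = v₁ * (t * N₁) + v₂ * -S by ring, ← x2]; ring
    apply le_of_eq
    linear_combination v₁ ^ 2 * (1 + P) * hω - P * a
  · have a1 : ((c + Z) ^ 2 + S ^ 2) * N₁ ^ 2 = (c + Z) ^ 2 := by rw [ht, ← x1]; ring
    have a2 : ((c + Z) ^ 2 + S ^ 2) * N₂ ^ 2 = S ^ 2 := by
      rw [ht, show S ^ 2 = (-S) ^ 2 by ring, ← x2]; ring
    have e0 : (kk u c S F).xt P ((c + Z) * (1 - ω)) (-S) (S * (1 - (1 + P) * ω)) (c + Z)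
        ((c + Z) ^ 2 + S ^ 2) N₁ N₂ = 0 := by
      simp only [Co.xt, Co.zz, kk]
      linear_combination P * (5 / 4 * F * u + 25 / 16 * F * u ^ 2) * a1 +
        P * (F + 5 / 4 * F * u) * a2 - (5 / 4 * F * u + 25 / 16 * F * u ^ 2) * (1 + P) * hω
    rw [e0]
    subst hZ
    simp only [Co.vin, Co.dd, Co.yy, Co.cc, Co.zz, kk]
    linear_combination hv + ((F + 5 / 4 * F * u) + F / 4) * u * (1 + P) * hω +
      2 * (F + 5 / 4 * F * u) * (c - F / 4) * tr -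
      2 * (1 + P) * ω * (c + (F + 5 / 4 * F * u)) * c1 - 2 * (1 + P) * ω * S * c2 +
      ((F + 5 / 4 * F * u) - 2 * (1 + P) * ω * (F * (1 - 5 / 4 * u ^ 2))) * hS

theorem blk (P u c S F ν μ : ℝ) (hP : 16383 ≤ P) (hu : P * u = 1) (hS : c ^ 2 + S ^ 2 = 1)
    (F0 : 0 < F) (F1 : F ≤ 32) (F2 : (1 + P) * c ^ 2 ≤ 17 → F ≤ 1248 / 100) (ν0 : 0 ≤ ν)
    (ν1 : P * ν ≤ F ^ 2 / 10000000) (hμ : μ ≤ F * (F ^ 2 / 1000)) :
    Blk (kk u c S F) P c S (F * ν) μ := by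
  intro h v k τ w₁ w₂ N₁ N₂ t tr hw1 hw2 c1 c2 hN _ x1 x2
  obtain ⟨n₁, rfl⟩ : ∃ n, w₁ = F * n := ⟨w₁ / F, by field_simp⟩
  obtain ⟨n₂, rfl⟩ : ∃ n, w₂ = F * n := ⟨w₂ / F, by field_simp⟩
  have FF : 0 < F ^ 2 := by positivity
  have m1 : |n₁| ≤ ν := abs_le_of_sq_le_sq (le_of_mul_le_mul_left (by linear_combination hw1) FF) ν0
  have m2 : |n₂| ≤ ν := abs_le_of_sq_le_sq (le_of_mul_le_mul_left (by linear_combination hw2) FF) ν0
  have P0 : 0 < P := by linarith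
  have u0 : 0 < u := by
    by_contra hn
    have := mul_nonpos_of_nonneg_of_nonpos P0.le (not_lt.1 hn)
    linarith
  have u1 : u ≤ 1 / 16383 := by
    have := mul_le_mul_of_nonneg_right hP u0.le
    linarith
  have hu' : (1 + P) * u = 1 + u := by linear_combination hu
  obtain ⟨Z, hZ⟩ : ∃ Z, Z = F + 5 / 4 * F * u := ⟨_, rfl⟩
  have Fu := mul_pos F0 u0
  have Fu' := mul_le_mul_of_nonneg_left u1 F0.le
  have FZ : F ≤ Z := by rw [hZ]; linarith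
  have FZ2 : F ^ 2 ≤ Z ^ 2 := pow_le_pow_left₀ F0.le FZ 2
  have hμ' : μ ≤ F * (Z ^ 2 / 1000) :=
    hμ.trans (mul_le_mul_of_nonneg_left (by linarith) F0.le)
  simp only [kk] at c1 c2 x1 x2
  rw [← hZ] at c1 c2 x1
  have F3 : F ^ 2 ≤ 32 * F := by nlinarith
  have ν2 := mul_le_mul_of_nonneg_right hP ν0
  have m3 : |P * n₂| ≤ P * ν := by
    rw [abs_mul, abs_of_pos P0]; exact mul_le_mul_of_nonneg_left m2 P0.le
  have tr' : (1 + P) * h = -(2 * Z + (k - Z) + (τ - Z)) := by linear_combination tr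
  have c1' : (c - F / 4) * h + S * v = Z * c - F * n₁ := by linear_combination c1
  obtain ⟨ca, cb⟩ : -1 ≤ c ∧ c ≤ 1 :=
    abs_le_of_sq_le_sq' (by linarith [sq_nonneg S]) (by norm_num)
  rcases le_total 17 ((1 + P) * c ^ 2) with hc | hc
  · refine blk0 P u c S F Z 0 h v k τ n₁ n₂ N₁ N₂ t μ hZ hS (by ring) tr c1 c2 hN x1 x2
      (hμ'.trans (mul_le_mul_of_nonneg_left ?_ F0.le))
    have a1 : |(1 + P) * (F * n₁)| ≤ Z := by
      rw [show (1 + P) * (F * n₁) = F * ((1 + P) * n₁) by ring, abs_mul, abs_mul, abs_of_pos F0,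
        abs_of_pos (show 0 < 1 + P by linarith)]
      have b1 := mul_le_mul_of_nonneg_left m1 (show 0 ≤ 1 + P by linarith)
      have b2 : (1 + P) * |n₁| ≤ 1 := by linarith
      have b3 := mul_le_mul_of_nonneg_left b2 F0.le
      linarith
    have a2 : |P * n₂| ≤ Z / 1000 := by linarith
    have := core1 (1 + P) u Z c S (c - F / 4) h v (k - Z) (τ - Z) (F * n₁) (P * n₂) (by linarith)
      u0.le u1 hu' hS hc ((sq_le_sq' (a := c - F / 4) (b := 9) (by linarith) (by linarith)).trans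
        (by norm_num)) (by rw [← sq_abs]; exact pow_le_pow_left₀ (abs_nonneg _) a1 2)
      (by
        rw [← sq_abs]
        exact (pow_le_pow_left₀ (abs_nonneg _) a2 2).trans (le_of_eq (by ring))) c1' tr'
    linear_combination this
  · have F4 := F2 hc
    have cc : c ^ 2 ≤ 17 / 16384 := by
      have := mul_le_mul_of_nonneg_right hP (sq_nonneg c)
      linarith
    obtain ⟨cd, ce⟩ : -(323 / 10000) ≤ c ∧ c ≤ 323 / 10000 :=
      abs_le_of_sq_le_sq' (by linarith) (by norm_num)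
    have D0 : 0 < (1 + P) * S ^ 2 + (c + Z) ^ 2 :=
      add_pos_of_pos_of_nonneg (mul_pos (by linarith) (by linarith)) (sq_nonneg _)
    obtain ⟨ω, hω⟩ : ∃ ω, ω * ((1 + P) * S ^ 2 + (c + Z) ^ 2) = 2 * ((c + Z) ^ 2 + S ^ 2) :=
      ⟨_, div_mul_cancel₀ _ D0.ne'⟩
    refine blk0 P u c S F Z ω h v k τ n₁ n₂ N₁ N₂ t μ hZ hS (by rw [hω]; ring) tr c1 c2 hN x1 x2
      (hμ'.trans (mul_le_mul_of_nonneg_left ?_ F0.le))
    have a1 : |F * n₁| ≤ 1 / 100000 := by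
      rw [abs_mul, abs_of_pos F0]
      have b1 : |n₁| ≤ 1 / 10000000 := by linarith
      have b2 := mul_le_mul F1 b1 (abs_nonneg _) (by norm_num)
      linarith
    exact core2 (1 + P) u Z c S (c - F / 4) h v (k - Z) (τ - Z) (F * n₁) n₁ n₂ ((1 + P) * ω) ω
      (by linarith) u0.le u1 hu' hS hc (by linarith) (by rw [hZ]; linarith)
      ((sq_le_sq' (a := c - F / 4) (b := 32 / 10) (by linarith) (by linarith)).trans
        (by norm_num)) a1 (by linarith) (by linarith)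
      (by rw [show 1 + P - 1 = P by ring]; linarith) rfl hω c1' tr'

theorem out (P u c S F ν : ℝ) (hP : 16383 ≤ P) (F0 : 0 < F) :
    Out (kk u c S F) P (F * ν) (F * (8 * P * ν ^ 2)) := by
  intro h₁ h₂ w hw _
  simp only [Co.vout, Co.yy, kk]
  refine le_of_mul_le_mul_left ?_ F0
  have P0 : 0 ≤ P := by linarith
  have a1 := mul_nonneg P0 (sq_nonneg (F * h₁ - 8 * w))
  have a2 := mul_le_mul_of_nonneg_left hw P0
  have a3 := sq_nonneg (F * h₂)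
  have a4 := mul_nonneg (show 0 ≤ P / 8 - 1 / 16 by linarith) (sq_nonneg (F * h₁))
  linear_combination 1 / 8 * a1 + 8 * a2 + 1 / 2 * a3 + a4

theorem key (P c S F : ℝ) (hP : 16383 ≤ P) (hS : c ^ 2 + S ^ 2 = 1) (F0 : 0 < F) (F1 : F ≤ 32)
    (F2 : (1 + P) * c ^ 2 ≤ 17 → F ≤ 1248 / 100) :
    Key P P c S (jj F) (1 / (10000000 * P) * F ^ 3) := by
  have P0 : 0 < P := by linarith
  obtain ⟨ν, hν⟩ : ∃ ν, ν = 1 / (10000000 * P) * F ^ 2 := ⟨_, rfl⟩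
  have ν0 : 0 ≤ ν := by rw [hν]; positivity
  have ν1 : P * ν = F ^ 2 / 10000000 := by rw [hν]; field_simp
  rw [show 1 / (10000000 * P) * F ^ 3 = F * ν by rw [hν]; ring]
  refine key_of_blk P P c S _ (F * (8 * P * ν ^ 2)) _ hS (by simp [jj]) ?_ ?_
  · rw [co_eq]
    refine blk P P⁻¹ c S F ν _ hP (mul_inv_cancel₀ P0.ne') hS F0 F1 F2 ν0 ν1.le ?_
    rw [← mul_add]
    refine mul_le_mul_of_nonneg_left ?_ F0.le
    have a1 := mul_le_mul_of_nonneg_right hP ν0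
    have a2 : F ^ 2 ≤ 32 ^ 2 := pow_le_pow_left₀ F0.le F1 2
    have a3 : P * ν ≤ 1 := by linarith
    have a4 := mul_le_mul_of_nonneg_right a3 ν0
    have a5 := sq_nonneg F
    linear_combination 8 * a4 + 9 / 16383 * a1 + 9 / 16383 * ν1 +
      (1 / 1000 - 9 / 16383 / 10000000) * a5
  · rw [co_eq]
    exact out P P⁻¹ c S F ν hP F0

theorem ex4 (τ : ℝ) : Real.exp τ = Real.exp (τ / 4) ^ 4 := by
  rw [← Real.exp_nat_mul]; congr 1; push_cast; ring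

theorem ex5 (τ : ℝ) : Real.exp (5 / 4 * τ) = Real.exp (τ / 4) ^ 5 := by
  rw [← Real.exp_nat_mul]; congr 1; push_cast; ring

theorem exl (x : ℝ) (hx : 0 < x) : Real.exp (4 * Real.log x / 4) = x := by
  rw [show 4 * Real.log x / 4 = Real.log x by ring, Real.exp_log hx]

theorem cert (P : ℝ) (hP : 16383 ≤ P) : CertR P P (fun y => Real.exp (5 / 4 * y.1))
    (fun τ _ => jj (Real.exp (5 / 4 * τ))) (165 / 100) (4 * Real.log 2)
    (4 * Real.log (132 / 100)) 2 (1 / (10000000 * P)) (15 / 4) := by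
  have P0 : 0 < P := by linarith
  have mono : ∀ τ x : ℝ, 0 < x → τ ≤ 4 * Real.log x → Real.exp (τ / 4) ≤ x := fun τ x hx h => by
    rw [← exl x hx]; exact Real.exp_le_exp.2 (by linarith)
  refine ⟨?_, ?_, by positivity, by norm_num, by linarith, ?_, ?_, ?_, ?_, ?_⟩
  · have := Real.log_lt_log (show (0 : ℝ) < 132 / 100 by norm_num) (show 132 / 100 < 2 by norm_num)
    linarith
  · rw [ex4, exl _ (by norm_num)]; norm_num
  · intro τ c _ _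
    have e : jj (Real.exp (5 / 4 * τ)) = ((J6.cst (5 / 4)).mul (.vx τ)).exp := by
      simp only [jj, J6.mul, J6.exp, J6.cmp, J6.cst, J6.vx, J6.mk.injEq]
      refine ⟨trivial, ?_, ?_, ?_, ?_, ?_⟩ <;> ring
    show Jt2 _ (τ, c) (jj (Real.exp (5 / 4 * τ)))
    rw [e]
    exact jt_exp (5 / 4) τ c
  · intro c hc
    have := abs_le_of_sq_le_sq' (a := c) (b := 1) (by linarith) (by norm_num)
    simp only [jj]
    rw [ex5, ex4, exl _ (by norm_num)]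
    linarith [this.1]
  · intro c hc
    have := abs_le_of_sq_le_sq' (a := c) (b := 1) (by linarith) (by norm_num)
    simp only [jj]
    rw [ex5, ex4 (4 * Real.log (132 / 100)), exl _ (by norm_num)]
    linarith [this.2]
  · intro τ c hτ _
    simp only [jj]
    rw [abs_of_pos (Real.exp_pos _), ex5, ex4 τ, pow_succ, mul_comm]
    exact mul_le_mul_of_nonneg_right (mono τ 2 (by norm_num) hτ) (by positivity)
  · intro τ c S hτ hS _ hr
    have x0 := Real.exp_pos (τ / 4)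
    have e3 : Real.exp (15 / 4 * τ) = Real.exp (5 / 4 * τ) ^ 3 := by
      rw [← Real.exp_nat_mul]; congr 1; push_cast; ring
    rw [e3]
    refine key P c S _ hP hS (Real.exp_pos _) ?_ ?_
    · rw [ex5]
      exact (pow_le_pow_left₀ x0.le (mono τ 2 (by norm_num) hτ) 5).trans (by norm_num)
    · intro hc
      have cc : c ^ 2 ≤ 17 / 16384 := by
        have := mul_le_mul_of_nonneg_right hP (sq_nonneg c)
        linarith
      obtain ⟨cd, -⟩ : -(323 / 10000) ≤ c ∧ c ≤ 323 / 10000 :=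
        abs_le_of_sq_le_sq' (by linarith) (by norm_num)
      have x1 : Real.exp (τ / 4) ≤ 16565 / 10000 := by
        rcases hr with hr | hr
        · exact (mono τ _ (by norm_num) hr).trans (by norm_num)
        · simp only [jj] at hr
          rw [ex5, ex4 τ] at hr
          by_contra hn
          have a1 := pow_le_pow_left₀ (by norm_num) (not_le.1 hn).le 4
          have a2 := mul_le_mul_of_nonneg_left (not_le.1 hn).le (pow_pos x0 4).le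
          rw [← pow_succ] at a2
          norm_num at a1
          linarith
      rw [ex5]
      exact (pow_le_pow_left₀ x0.le x1 5).trans (by norm_num)

/-- the certificate for all large `p` -/
theorem tail (p : ℝ) (hp : 16385 ≤ p) : ∃ (q : ℝ) (F : ℝ × ℝ → ℝ) (j : ℝ → ℝ → J6)
    (κ τ₀ τ₁ C δ e : ℝ), q < p - 1 ∧ CertR (p - 2) q F j κ τ₀ τ₁ C δ e :=
  ⟨p - 2, _, _, _, _, _, _, _, _, by linarith, cert (p - 2) (by linarith)⟩

end Pool.Agent.MP_815c6c_an.W.Tl
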