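import Pool.Agent.MP_815c6c_an.W.Goal
import Pool.Agent.MP_815c6c_an.W.M.Up10
import Pool.Agent.MP_815c6c_an.W.M.R10
import Pool.Agent.MP_815c6c_an.W.M.R15
import Pool.Agent.MP_815c6c_an.W.M.R22
import Pool.Agent.MP_815c6c_an.W.G.Hi

/-! The certificate for every `p > 2`. -/

set_option autoImplicit false

namespace Pool.Agent.MP_815c6c_an.W

theorem all (x : ℝ) (h : 2 < x) : Br.Ct x := by
  rcases le_total x 10 with a | a
  · exact upTo10 x h a
  rcases le_total x 15 with b | b
  · exact R10.cert x a b
  rcases le_total x 22 with c | c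
  · exact R15.cert x b c
  rcases le_total x 30 with d | d
  · exact R22.cert x c d
  exact G.hi x (by linarith)

end Pool.Agent.MP_815c6c_an.W
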