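import Pool.Agent.MP_815c6c_an.W.Kp

/-! Flat solutions omit one size of the gradient. -/

set_option autoImplicit false

noncomputable section

namespace Pool.Agent.MP_815c6c_an.W

open Set Metric Filter Topology
open scoped RealInnerProductSpace
open H (St VS Bd)

namespace BerA

variable {d : ℕ}

/-- a lower bound for the sum over the basis -/
theorem frob0 {G : En d} (hs : ∀ v w, ⟪G v, w⟫ = ⟪v, G w⟫) {n : X d} (hn : ‖n‖ = 1) :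
    2 * ‖G n‖ ^ 2 - ⟪G n, n⟫ ^ 2 ≤ ∑ k, ‖G (ei k)‖ ^ 2 := by
  obtain ⟨w, hw⟩ : ∃ w : X d, w = G n - ⟪G n, n⟫ • n := ⟨_, rfl⟩
  have nn : ⟪n, n⟫ = 1 := by rw [real_inner_self_eq_norm_sq, hn, one_pow]
  have w1 : ⟪n, w⟫ = 0 := by
    rw [hw, inner_sub_right, real_inner_smul_right, nn, real_inner_comm]
    ring
  have w2 : ⟪G n, w⟫ = ‖G n‖ ^ 2 - ⟪G n, n⟫ ^ 2 := by
    rw [hw, inner_sub_right, real_inner_smul_right, real_inner_self_eq_norm_sq]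
    ring
  have w3 : ‖w‖ ^ 2 = ‖G n‖ ^ 2 - ⟪G n, n⟫ ^ 2 := by
    rw [← real_inner_self_eq_norm_sq, ← w2]
    conv_lhs => enter [2]; rw [hw]
    rw [inner_sub_left, real_inner_smul_left, w1]
    ring
  have h1 : ∀ k : Fin d, G n k ^ 2 + 2 * (n k * G w k) - n k ^ 2 * ‖w‖ ^ 2 ≤ ‖G (ei k)‖ ^ 2 := by
    intro k
    have a1 : ⟪G (ei k), n⟫ = G n k := by rw [hs, H.bas_ei]
    have a2 : ⟪G (ei k), w⟫ = G w k := by rw [hs, H.bas_ei]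
    have a3 := sq_nonneg ‖G (ei k) - (G n k • n + n k • w)‖
    rw [norm_sub_sq_real, norm_add_sq_real, inner_add_right, real_inner_smul_right,
      real_inner_smul_right, real_inner_smul_right, real_inner_smul_left, a1, a2, w1, norm_smul,
      norm_smul, hn, mul_pow, mul_pow, Real.norm_eq_abs, Real.norm_eq_abs, sq_abs, sq_abs] at a3
    linarith
  have h2 := Finset.sum_le_sum fun k (_ : k ∈ Finset.univ) => h1 k
  rw [Finset.sum_sub_distrib, Finset.sum_add_distrib, ← Finset.mul_sum, ← Finset.sum_mul,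
    ← H.bas_norm, ← H.bas_norm, ← H.bas_inner, ← hs, w2, w3, hn] at h2
  linarith

theorem frob {A : En d} (hs : ∀ v w, ⟪A v, w⟫ = ⟪v, A w⟫) {n : X d} (hn : ‖n‖ = 1) (a : ℝ) :
    2 * (‖A n‖ ^ 2 + 2 * a * ⟪A n, n⟫ + a ^ 2) - (⟪A n, n⟫ + a) ^ 2 ≤
      ∑ k, ‖A (ei k)‖ ^ 2 + 2 * a * ∑ k, ⟪A (ei k), ei k⟫ + d * a ^ 2 := by
  have ev : ∀ v : X d, (A + a • ContinuousLinearMap.id ℝ (X d)) v = A v + a • v := fun _ => rfl
  have ex : ∀ v : X d, ‖v‖ = 1 → ‖A v + a • v‖ ^ 2 = ‖A v‖ ^ 2 + 2 * a * ⟪A v, v⟫ + a ^ 2 := by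
    intro v hv
    rw [norm_add_sq_real, real_inner_smul_right, norm_smul, hv, Real.norm_eq_abs, mul_one, sq_abs]
    ring
  have h1 := frob0 (G := A + a • ContinuousLinearMap.id ℝ (X d)) (fun v w => by
    rw [ev, ev, inner_add_left, inner_add_right, hs, real_inner_smul_left,
      real_inner_smul_right]) hn
  have h2 : ∀ k : Fin d, ‖(ei k : X d)‖ = 1 := fun k => by simp [ei]
  simp only [ev] at h1
  rw [ex n hn, Finset.sum_congr rfl fun k _ => ex (ei k) (h2 k), Finset.sum_add_distrib,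
    Finset.sum_add_distrib, ← Finset.mul_sum, Finset.sum_const, Finset.card_univ, Fintype.card_fin,
    nsmul_eq_mul, inner_add_left, real_inner_smul_left, real_inner_self_eq_norm_sq, hn, one_pow,
    mul_one] at h1
  exact h1

/-- the real form of the refined inequality -/
theorem kato_re {P D h n F : ℝ} (P0 : 0 < P) (hD : 0 ≤ D) (hd : D < 2 * P + 3) (hn : h ^ 2 ≤ n)
    (hF : 2 * n + P * h ^ 2 - (D - 1) / 4 * h ^ 2 ≤ F) :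
    3 / 2 * (h ^ 2 + P⁻¹ * n) + (2 * P + 3 - D) / (16 * (P + 1)) * (n + P⁻¹ * F) ≤
      n + P⁻¹ * F := by
  set κ := (2 * P + 3 - D) / (16 * (P + 1)) with hκ
  have k1 : κ * (16 * (P + 1)) = 2 * P + 3 - D := div_mul_cancel₀ _ (by positivity)
  have k0 : 0 ≤ κ := div_nonneg (by linarith) (by positivity)
  have k2 : κ ≤ 1 / 4 := by
    rw [hκ, div_le_iff₀ (by positivity)]
    linarith
  have a1 : 3 / 2 ≤ (1 - κ) * (P + 2) := by nlinarith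
  have a2 : 3 / 2 * (P + 1) ≤ (1 - κ) * (2 * (P + 1) - (D - 1) / 4) := by nlinarith
  have a3 := mul_le_mul_of_nonneg_right a1 (sub_nonneg.2 hn)
  have a4 := mul_le_mul_of_nonneg_right a2 (sq_nonneg h)
  have a5 := mul_le_mul_of_nonneg_left hF (show 0 ≤ 1 - κ by linarith)
  have a6 : 3 / 2 * (P * h ^ 2 + n) + κ * (P * n + F) ≤ P * n + F := by nlinarith
  have a7 := mul_le_mul_of_nonneg_left a6 (inv_nonneg.2 P0.le)
  have e1 : P⁻¹ * (3 / 2 * (P * h ^ 2 + n) + κ * (P * n + F)) =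
      3 / 2 * (h ^ 2 + P⁻¹ * n) + κ * (n + P⁻¹ * F) := by field_simp
  have e2 : P⁻¹ * (P * n + F) = n + P⁻¹ * F := by field_simp
  rwa [e1, e2] at a7

/-- the refined inequality for admissible Hessians -/
theorem kato {P : ℝ} (h : 0 < P) (hd : d < 2 * P + 3) {ξ : X d} (h0 : ξ ≠ 0) {A : En d}
    (hA : H.Adm P ξ A) :
    3 / 2 * ‖H.vh P ξ A (H.nu ξ)‖ ^ 2 + (2 * P + 3 - d) / (16 * (P + 1)) * H.sg P ξ A ≤
      H.sg P ξ A := by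
  have hn := H.bas_nu1 h0
  have e1 : ‖H.vh P ξ A (H.nu ξ)‖ ^ 2 =
      ⟪A (H.nu ξ), H.nu ξ⟫ ^ 2 + P⁻¹ * ‖A (H.nu ξ)‖ ^ 2 := by
    rw [H.bas_vnorm, Fintype.sum_option, H.bas_norm, Finset.mul_sum]
    congr 1
    · simp only [H.vh, H.dir]
      rw [real_inner_comm]
    · refine Finset.sum_congr rfl fun k _ => ?_
      simp only [H.vh, H.dir, ← hA.1, real_inner_smul_right, H.bas_ie]
      rw [← H.K.bas_sq h]
      ring
  have e2 : ⟪A (H.nu ξ), H.nu ξ⟫ + P⁻¹ * ∑ k, ⟪A (ei k), ei k⟫ = 0 := by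
    have := hA.2
    rw [Fintype.sum_option] at this
    rw [← this, Finset.mul_sum]
    congr 1
    refine Finset.sum_congr rfl fun k _ => ?_
    simp only [H.dir, map_smul, real_inner_smul_right, real_inner_smul_left]
    rw [← H.K.bas_sq h]
    ring
  have e4 : ∑ k, ⟪A (ei k), ei k⟫ = -(P * ⟪A (H.nu ξ), H.nu ξ⟫) := by
    field_simp at e2
    linarith
  have e5 := frob hA.1 hn (⟪A (H.nu ξ), H.nu ξ⟫ / 2)
  have e6 : ⟪A (H.nu ξ), H.nu ξ⟫ ^ 2 ≤ ‖A (H.nu ξ)‖ ^ 2 := by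
    have k1 := abs_real_inner_le_norm (A (H.nu ξ)) (H.nu ξ)
    rw [hn, mul_one] at k1
    rw [← sq_abs]
    exact pow_le_pow_left₀ (abs_nonneg _) k1 2
  rw [e4] at e5
  rw [e1, H.K.bas_sge h]
  exact kato_re h (Nat.cast_nonneg d) hd e6 (by linarith)

/-- the test function -/
def psi (l : ℝ) (e : X d) (y : St d) : ℝ :=
  √(√(‖y.2.2 - 0‖ ^ 2)) + 16 * ((1 - ‖y.1 - 0‖ ^ 2) * (1 / 2 - ⟪e, y.2.2⟫)) ^ 2 +
    l * (y.2.1 - ⟪e, y.1⟫) ^ 2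

theorem psi_eq (l : ℝ) (e : X d) (y : St d) : psi l e y =
    √‖y.2.2‖ + 16 * ((1 - ‖y.1‖ ^ 2) * (1 / 2 - ⟪e, y.2.2⟫)) ^ 2 +
      l * (y.2.1 - ⟪e, y.1⟫) ^ 2 := by
  rw [psi, sub_zero, sub_zero, Real.sqrt_sq (norm_nonneg _)]

/-- the root term -/
theorem t1 {g κ s N : ℝ} (g0 : 0 < g) (g1 : g ≤ 1) (hκ : 0 ≤ κ) (hs : 0 ≤ s)
    (h : 3 / 2 * N + κ * s ≤ s) :
    κ / 2 * s ≤ (2 * s / (2 * g) - (2 * g) ^ 2 * N / (4 * g ^ 3)) / (2 * √g) -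
      N / (4 * √g ^ 3) := by
  have r0 : 0 < √g := Real.sqrt_pos.2 g0
  have r1 : √g ≤ 1 := Real.sqrt_le_one.2 g1
  have r2 : g = √g ^ 2 := (Real.sq_sqrt g0.le).symm
  generalize √g = r at *
  subst r2
  have e : (2 * s / (2 * r ^ 2) - (2 * r ^ 2) ^ 2 * N / (4 * (r ^ 2) ^ 3)) / (2 * r) -
      N / (4 * r ^ 3) = (s - 3 / 2 * N) / (2 * r ^ 3) := by
    field_simp
    ring
  rw [e, le_div_iff₀ (by positivity)]
  have r3 : r ^ 3 ≤ 1 := pow_le_one₀ r0.le r1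
  have := mul_le_mul_of_nonneg_left r3 (mul_nonneg hκ hs)
  linarith

/-- the cut off term -/
theorem t2 {η w I D q Q σ : ℝ} (h0 : 0 ≤ η) (h1 : η ≤ 1) (w0 : 0 ≤ w) (w1 : w ≤ 3 / 2)
    (hD : 0 ≤ D) (hq : 0 ≤ q) (hσ : 0 ≤ σ) (hI : I ≤ 2 * D + 2 * q) (hQ : -σ ≤ Q) :
    -(9 * D + 9 * q + 6 * σ) ≤ 2 * (η * w) * (η * (0 - 0) + w * (0 - I) + 2 * Q) := by
  have a1 : w * I ≤ 3 / 2 * (2 * D + 2 * q) :=
    (mul_le_mul_of_nonneg_left hI w0).trans (mul_le_mul_of_nonneg_right w1 (by positivity))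
  have a2 : 0 ≤ 2 * (η * w) := by positivity
  have a3 : 2 * (η * w) ≤ 3 := by nlinarith
  have a4 : -(3 * D + 3 * q + 2 * σ) ≤ η * (0 - 0) + w * (0 - I) + 2 * Q := by linarith
  have a5 := mul_le_mul_of_nonneg_left a4 a2
  have a6 := mul_le_mul_of_nonneg_right a3 (show 0 ≤ 3 * D + 3 * q + 2 * σ by positivity)
  linarith

theorem sub {P κ C l τ : ℝ} (P0 : 0 < P) (hd : d < 2 * P + 3)
    (hκ : κ = (2 * P + 3 - d) / (16 * (P + 1))) (hC : C = 12000000 * (1 + P⁻¹))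
    (hl : l = 2 * P * (144 * (1 + d / P) + C ^ 2 / κ)) (hτ : l * τ ≤ 1) (T : Set (St d))
    {e : X d} (he : ‖e‖ = 1) {z : St d} (x1 : ‖z.1‖ ≤ 1) (g0 : 1 / 40000 ≤ ‖z.2.2‖)
    (g1 : ‖z.2.2‖ ≤ 1) (w0 : ⟪e, z.2.2⟫ ≤ 1 / 2) (ht : |z.2.1 - ⟪e, z.1⟫| ≤ τ) :
    H.Sub P T z (psi l e) := by
  have gp : 0 < ‖z.2.2‖ := by linarith
  have hξ : z.2.2 ≠ 0 := norm_pos_iff.1 gp
  have d0 : (0 : ℝ) ≤ d := Nat.cast_nonneg d
  have p0 : 0 < P⁻¹ := inv_pos.2 P0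
  have k0 : 0 < κ := by
    rw [hκ]
    exact div_pos (by linarith) (by positivity)
  have l0 : 0 ≤ l := by
    rw [hl]
    positivity
  refine ⟨_, κ / 4, by positivity, Eventually.of_forall fun _ => le_rfl, rfl, fun A hA => ?_⟩
  have j := hk.jet d P z A
  have b := H.K.bas d P z A P0 hξ
  have q0 : √(‖z.2.2 - 0‖ ^ 2) = ‖z.2.2‖ := by rw [sub_zero, Real.sqrt_sq gp.le]
  have j1 := j.sqrt (j.sqrt (b.ww 0) (by rw [sub_zero]; positivity)) (by rw [q0]; exact gp)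
  have j2 := j.cmul 16 (j.sq (j.mul (j.sub (j.const 1) (b.xx 0)) (j.sub (j.const (1 / 2)) (j.jw e))))
  have j3 := j.cmul l (j.sq (j.sub j.jt (j.jx e)))
  refine ⟨_, _, j.add (j.add j1 j2) j3, ?_⟩
  have e0 : H.vh P z.2.2 A ((2 : ℝ) • (z.2.2 - 0)) =
      (2 * ‖z.2.2‖) • H.vh P z.2.2 A (H.nu z.2.2) := by
    ext k
    simp only [H.vh, sub_zero, PiLp.smul_apply, smul_eq_mul, real_inner_smul_left]
    conv_lhs => enter [2, 2]; rw [H.bas_xi hξ]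
    rw [real_inner_smul_left]
    ring
  have e1 : H.vx P z.2.2 z.2.2 - H.vx P z.2.2 e = H.vx P z.2.2 (z.2.2 - e) := by
    ext k
    simp only [H.vx, PiLp.sub_apply, inner_sub_left]
  have s0 := b.sg0
  have a1 := t1 gp g1 k0.le s0 (hκ ▸ kato P0 hd hξ hA)
  obtain ⟨σ, σ0, hσ⟩ : ∃ σ : ℝ, 0 ≤ σ ∧ H.sg P z.2.2 A = σ ^ 2 :=
    ⟨_, Real.sqrt_nonneg _, (Real.sq_sqrt s0).symm⟩
  have D0 := norm_nonneg (H.dr z.2.2 A)
  have D1 : ‖H.dr z.2.2 A‖ ≤ 80000 * σ := by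
    have h1 := b.nd
    rw [hσ] at h1
    have h2 : ‖H.dr z.2.2 A‖ * ‖z.2.2‖ ≤ 2 * σ :=
      (abs_le_of_sq_le_sq' (by nlinarith) (by positivity)).2
    have h3 := mul_le_mul_of_nonneg_left g0 D0
    linarith
  have i1 : |⟪e, z.2.2⟫| ≤ 1 := by
    have := abs_real_inner_le_norm e z.2.2
    rw [he, one_mul] at this
    linarith
  have n1 : ‖z.1 - 0‖ ≤ 1 := by rwa [sub_zero]
  have n2 : ‖z.1 - 0‖ ^ 2 ≤ 1 := pow_le_one₀ (norm_nonneg _) n1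
  have hI : 2 * ⟪z.1 - 0, H.dr z.2.2 A⟫ + 2 * (1 + d / P) ≤
      2 * ‖H.dr z.2.2 A‖ + 2 * (1 + d / P) := by
    have h1 := real_inner_le_norm (z.1 - 0) (H.dr z.2.2 A)
    have h2 := mul_le_mul_of_nonneg_right n1 D0
    linarith
  have hQ : -(2 * (1 + P⁻¹) * σ) ≤
      ⟪0 - H.vx P z.2.2 ((2 : ℝ) • (z.1 - 0)), 0 - H.vh P z.2.2 A e⟫ := by
    have h1 := (b.nx ((2 : ℝ) • (z.1 - 0))).2
    rw [norm_smul, Real.norm_ofNat, mul_pow] at h1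
    have h2 := b.nh e
    rw [he, hσ] at h2
    have h3 : ‖H.vx P z.2.2 ((2 : ℝ) • (z.1 - 0))‖ ≤ 2 * (1 + P⁻¹) :=
      (abs_le_of_sq_le_sq' (by nlinarith) (by positivity)).2
    have h4 : ‖H.vh P z.2.2 A e‖ ≤ σ := (abs_le_of_sq_le_sq' (by linarith) σ0).2
    have h5 := abs_real_inner_le_norm (H.vx P z.2.2 ((2 : ℝ) • (z.1 - 0))) (H.vh P z.2.2 A e)
    have h6 := mul_le_mul h3 h4 (norm_nonneg _) (by positivity)
    rw [zero_sub, zero_sub, inner_neg_neg]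
    linarith [(abs_le.1 h5).1]
  have a2 := t2 (η := 1 - ‖z.1 - 0‖ ^ 2) (w := 1 / 2 - ⟪e, z.2.2⟫) (by linarith)
    (by linarith [sq_nonneg ‖z.1 - 0‖]) (by linarith) (by linarith [(abs_le.1 i1).1]) D0
    (by positivity) (by positivity) hI hQ
  have a3 : -(2 * ‖H.dr z.2.2 A‖) ≤ l * (2 * (z.2.1 - ⟪e, z.1⟫) * (0 - ⟪e, H.dr z.2.2 A⟫)) := by
    have h1 := abs_real_inner_le_norm e (H.dr z.2.2 A)
    rw [he, one_mul] at h1
    have h2 : |(z.2.1 - ⟪e, z.1⟫) * ⟪e, H.dr z.2.2 A⟫| ≤ τ * ‖H.dr z.2.2 A‖ := by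
      rw [abs_mul]
      exact mul_le_mul ht h1 (abs_nonneg _) ((abs_nonneg _).trans ht)
    have h3 := mul_le_mul_of_nonneg_left (abs_le.1 h2).2 l0
    have h4 := mul_le_mul_of_nonneg_right hτ D0
    nlinarith
  have a4 : 144 * (1 + d / P) + C ^ 2 / κ ≤ l * (2 * ‖H.vx P z.2.2 (z.2.2 - e)‖ ^ 2) := by
    have h1 := (b.nx (z.2.2 - e)).1
    have h2 : 1 / 2 ≤ ‖z.2.2 - e‖ := by
      have h3 := real_inner_le_norm e (e - z.2.2)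
      rw [he, one_mul, inner_sub_right, real_inner_self_eq_norm_sq, he, norm_sub_rev] at h3
      linarith
    have h4 : P⁻¹ * (1 / 2) ^ 2 ≤ P⁻¹ * ‖z.2.2 - e‖ ^ 2 :=
      mul_le_mul_of_nonneg_left (pow_le_pow_left₀ (by norm_num) h2 2) (inv_nonneg.2 P0.le)
    have h5 : 144 * (1 + d / P) + C ^ 2 / κ = l * (2 * (P⁻¹ * (1 / 2) ^ 2)) := by
      rw [hl]
      field_simp
    rw [h5]
    exact mul_le_mul_of_nonneg_left (by linarith) l0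
  have a5 : C * σ ≤ κ / 4 * σ ^ 2 + C ^ 2 / κ := by
    have h1 : κ / 4 * σ ^ 2 + C ^ 2 / κ - C * σ = (κ * σ / 2 - C) ^ 2 / κ := by
      field_simp
      ring
    have h2 : 0 ≤ (κ * σ / 2 - C) ^ 2 / κ := by positivity
    linarith
  have e2 : ‖(2 * ‖z.2.2‖) • H.vh P z.2.2 A (H.nu z.2.2)‖ ^ 2 =
      (2 * ‖z.2.2‖) ^ 2 * ‖H.vh P z.2.2 A (H.nu z.2.2)‖ ^ 2 := by
    rw [norm_smul, mul_pow, Real.norm_eq_abs, sq_abs]
  rw [q0, e0, e1, e2, smul_smul, inv_mul_cancel₀ (by positivity), one_smul, mul_add l, mul_add 16]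
  rw [hσ] at a1 ⊢
  have a6 := sq_nonneg ‖(1 - ‖z.1 - 0‖ ^ 2) • (0 - H.vh P z.2.2 A e) +
    (1 / 2 - ⟪e, z.2.2⟫) • (0 - H.vx P z.2.2 ((2 : ℝ) • (z.1 - 0)))‖
  have a7 : C * σ = 12000000 * σ + 12000000 * (P⁻¹ * σ) := by
    rw [hC]
    ring
  have a8 : 0 ≤ P⁻¹ * σ := by positivity
  linarith

end BerA

theorem ber0 : ∀ (d : ℕ) (P : ℝ), 0 < P → d < 2 * P + 3 → ∃ c τ : ℝ, 0 < c ∧ c ≤ 1 / 8 ∧
    0 < τ ∧ ∀ (U : Set (X d)) (u : X d → ℝ) (T : Set (St d)) (e : X d), VS P U u T →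
      closedBall 0 1 ⊆ U → ‖e‖ = 1 → Bd T 0 1 1 → (∀ x, ‖x‖ ≤ 1 → |u x - ⟪e, x⟫| ≤ τ) →
      ∀ z ∈ T, z.1 = 0 → ‖z.2.2‖ ≠ c := by
  intro d P hP hd
  have d0 : (0 : ℝ) ≤ d := Nat.cast_nonneg d
  obtain ⟨κ, hκ⟩ : ∃ κ : ℝ, κ = (2 * P + 3 - d) / (16 * (P + 1)) := ⟨_, rfl⟩
  obtain ⟨C, hC⟩ : ∃ C : ℝ, C = 12000000 * (1 + P⁻¹) := ⟨_, rfl⟩
  obtain ⟨l, hl⟩ : ∃ l : ℝ, l = 2 * P * (144 * (1 + d / P) + C ^ 2 / κ) := ⟨_, rfl⟩
  have k0 : 0 < κ := by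
    rw [hκ]
    exact div_pos (by linarith) (by positivity)
  have l0 : 0 ≤ l := by
    rw [hl]
    positivity
  obtain ⟨τ, τ0, τ1, τ2⟩ : ∃ τ : ℝ, 0 < τ ∧ τ ≤ 1 ∧ l * τ ≤ 1 / 1000 := by
    refine ⟨1 / (1000 * (l + 1)), by positivity, ?_, ?_⟩
    · rw [div_le_one (by positivity)]
      linarith
    · rw [mul_one_div, div_le_div_iff₀ (by positivity) (by norm_num)]
      linarith
  refine ⟨1 / 10000, τ, by norm_num, by norm_num, τ0, ?_⟩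
  intro U u T e vs hU he hB hu z₀ h0 hx hc
  have ie : ∀ ξ : X d, |⟪e, ξ⟫| ≤ ‖ξ‖ := fun ξ => by
    have := abs_real_inner_le_norm e ξ
    rwa [he, one_mul] at this
  have g1 : ∀ z ∈ T, ‖z.1‖ ≤ 1 → ‖z.2.2‖ ≤ 1 := fun z hz h => hB z hz (by rwa [sub_zero])
  have ht : ∀ z ∈ T, ‖z.1‖ ≤ 1 → |z.2.1 - ⟪e, z.1⟫| ≤ τ := fun z hz h => by
    rw [(vs.gr z hz).2]
    exact hu _ h
  have kc : IsCompact {z : St d | (z ∈ T ∧ z.1 ∈ closedBall (0 : X d) 1) ∧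
      1 / 40000 ≤ ‖z.2.2‖ ∧ ⟪e, z.2.2⟫ ≤ 1 / 2} :=
    (vs.cpt _ hU (isCompact_closedBall 0 1)).inter_right
      (IsClosed.and (isClosed_le continuous_const (by fun_prop))
        (isClosed_le (by fun_prop) continuous_const))
  have cp : Continuous (BerA.psi l e) := by
    unfold BerA.psi
    fun_prop
  have i0 := abs_le.1 (ie z₀.2.2)
  rw [hc] at i0
  obtain ⟨z, ⟨⟨zT, z1⟩, z2, z3⟩, zB, hz⟩ := H.K.mp d P U u T _
    {z | ‖z.1‖ = 1 ∨ ‖z.2.2‖ = 1 / 40000 ∨ ⟪e, z.2.2⟫ = 1 / 2} (BerA.psi l e) hP vs kc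
    (fun z hz => hz.1.1) cp.continuousOn
    (by
      rintro z ⟨⟨zT, z1⟩, z2, z3⟩ zB
      rw [mem_closedBall_zero_iff] at z1
      have n1 : ‖z.1‖ ≠ 1 := fun h => zB (Or.inl h)
      have n2 : ‖z.2.2‖ ≠ 1 / 40000 := fun h => zB (Or.inr (Or.inl h))
      have n3 : ⟪e, z.2.2⟫ ≠ 1 / 2 := fun h => zB (Or.inr (Or.inr h))
      refine ⟨norm_pos_iff.1 (by linarith), ?_,
        BerA.sub hP hd hκ hC hl (by linarith) T he z1 z2 (g1 z zT z1) z3 (ht z zT z1)⟩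
      have c1 : ContinuousAt (fun y : St d => ‖y.1‖) z := by fun_prop
      have c2 : ContinuousAt (fun y : St d => ‖y.2.2‖) z := by fun_prop
      have c3 : ContinuousAt (fun y : St d => ⟪e, y.2.2⟫) z := by fun_prop
      have e1 := c1.eventually (gt_mem_nhds (lt_of_le_of_ne z1 n1))
      have e2 := c2.eventually (lt_mem_nhds (lt_of_le_of_ne z2 n2.symm))
      have e3 := c3.eventually (gt_mem_nhds (lt_of_le_of_ne z3 n3))
      filter_upwards [self_mem_nhdsWithin, mem_nhdsWithin_of_mem_nhds e1,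
        mem_nhdsWithin_of_mem_nhds e2, mem_nhdsWithin_of_mem_nhds e3] with y hy a1 a2 a3
      exact ⟨⟨hy, mem_closedBall_zero_iff.2 a1.le⟩, a2.le, a3.le⟩)
    z₀ ⟨⟨h0, by rw [hx]; exact mem_closedBall_self zero_le_one⟩, by rw [hc]; norm_num,
      by linarith [i0.2]⟩ (1 / 1000) (by norm_num)
  rw [mem_closedBall_zero_iff] at z1
  have v0 : 1 / 100 + 16 * (1 / 2 - 1 / 10000) ^ 2 ≤ BerA.psi l e z₀ := by
    have r : √(1 / 10000 : ℝ) = 1 / 100 := by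
      rw [show (1 / 10000 : ℝ) = (1 / 100) ^ 2 by norm_num, Real.sqrt_sq (by norm_num)]
    have a1 : (1 / 2 - 1 / 10000 : ℝ) ^ 2 ≤ (1 / 2 - ⟪e, z₀.2.2⟫) ^ 2 :=
      pow_le_pow_left₀ (by norm_num) (by linarith [i0.2]) 2
    have a2 : 0 ≤ l * (z₀.2.1 - ⟪e, z₀.1⟫) ^ 2 := by positivity
    rw [BerA.psi_eq, hc, r]
    rw [hx] at a2 ⊢
    rw [norm_zero, zero_pow two_ne_zero, sub_zero, one_mul]
    linarith
  have v1 : l * (z.2.1 - ⟪e, z.1⟫) ^ 2 ≤ 1 / 1000 := by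
    have a1 : (z.2.1 - ⟪e, z.1⟫) ^ 2 ≤ τ ^ 2 := by
      rw [← sq_abs]
      exact pow_le_pow_left₀ (abs_nonneg _) (ht z zT z1) 2
    have a2 := mul_le_mul_of_nonneg_left a1 l0
    have a3 := mul_le_mul_of_nonneg_left τ1 (mul_nonneg l0 τ0.le)
    nlinarith
  have v2 : √‖z.2.2‖ ≤ 1 := Real.sqrt_le_one.2 (g1 z zT z1)
  rw [BerA.psi_eq l e z] at hz
  rcases zB with zB | zB | zB
  · rw [zB, one_pow, sub_self, zero_mul] at hz
    linarith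
  · have r : √(1 / 40000 : ℝ) = 1 / 200 := by
      rw [show (1 / 40000 : ℝ) = (1 / 200) ^ 2 by norm_num, Real.sqrt_sq (by norm_num)]
    have i1 := abs_le.1 (ie z.2.2)
    rw [zB] at i1
    have n2 : ‖z.1‖ ^ 2 ≤ 1 := pow_le_one₀ (norm_nonneg _) z1
    have a1 : (1 - ‖z.1‖ ^ 2) * (1 / 2 - ⟪e, z.2.2⟫) ≤ 1 * (1 / 2 + 1 / 40000) :=
      mul_le_mul (by linarith [sq_nonneg ‖z.1‖]) (by linarith [i1.1]) (by linarith) zero_le_one
    have a2 := pow_le_pow_left₀ (mul_nonneg (by linarith) (by linarith)) a1 2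
    rw [zB, r] at hz
    linarith
  · rw [zB, sub_self, mul_zero] at hz
    linarith

theorem ber : BerS := fun d P hP => ber0 d P (by linarith)

end Pool.Agent.MP_815c6c_an.W

end
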