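import Pool.Agent.MP_815c6c_an.W.Glue

/-! The family `F = T Φ(s, c)`, `T = (s / (1 - s))²`, and the homogeneous form of the reduction
of `Key`: `T = a / l`, all coefficients multiplied by `l`. -/

set_option autoImplicit false

noncomputable section

namespace Pool.Agent.MP_815c6c_an.W.Br

open Set Filter Topology KR

theorem jt_s2 {Φ : ℝ × ℝ → ℝ} {b τ c s : ℝ} {k : J6}
    (e : s = Real.exp (b / 2 * τ) / (1 + Real.exp (b / 2 * τ))) (h : Jt2 Φ (s, c) k) :
    Jt2 (fun y => Real.exp (b * y.1) *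
      Φ (Real.exp (b / 2 * y.1) / (1 + Real.exp (b / 2 * y.1)), y.2)) (τ, c)
      (jT (Real.exp (b * τ)) (k.th b (s * (1 - s) / 2) (s * (1 - s) * (1 - 2 * s) / 4))) := by
  have n : ∀ t, 1 + Real.exp (b / 2 * t) ≠ 0 := fun t => by positivity
  have d : ∀ t, HasDerivAt (fun t => Real.exp (b / 2 * t) / (1 + Real.exp (b / 2 * t)))
      (b / 2 * (Real.exp (b / 2 * t) / (1 + Real.exp (b / 2 * t)) *
        (1 - Real.exp (b / 2 * t) / (1 + Real.exp (b / 2 * t))))) t := fun t => by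
    refine ((d_exp (b / 2) t).fun_div ((d_exp (b / 2) t).const_add 1) (n t)).congr_deriv ?_
    have := n t
    field_simp
  subst e
  have a := (jt_exp b τ c).mul
    (h.sub1 (σ := fun t => Real.exp (b / 2 * t) / (1 + Real.exp (b / 2 * t)))
      (ContDiffAt.div (by fun_prop) (by fun_prop) (n τ)) (Eventually.of_forall d)
      (((d τ).fun_mul ((d τ).const_sub 1)).const_mul (b / 2)))
  refine Eq.mp (congrArg _ ?_) a
  simp only [jT, J6.th, J6.mul, J6.exp, J6.cmp, J6.cst, J6.vx, J6.mk.injEq]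
  refine ⟨trivial, ?_, ?_, ?_, ?_, ?_⟩ <;> ring

/-- `T` as a function of `s` -/
def ts (s : ℝ) : ℝ := (s / (1 - s)) ^ 2
/-- `s` as a function of `T` -/
def st (T : ℝ) : ℝ := √T / (1 + √T)
/-- the jets divided by `T` -/
def jh (k : J6) (b s : ℝ) : J6 := k.th b (s * (1 - s) / 2) (s * (1 - s) * (1 - 2 * s) / 4)

theorem ts_st {T : ℝ} (h : 0 < T) : ts (st T) = T := by
  have := Real.sqrt_pos.2 h
  have e : st T / (1 - st T) = √T := by
    unfold st
    field_simp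
    ring
  rw [ts, e, Real.sq_sqrt h.le]

theorem st_ts {s : ℝ} (h : 0 < s) (g : s < 1) : st (ts s) = s := by
  have a : 0 < 1 - s := by linarith
  rw [st, ts, Real.sqrt_sq (by positivity)]
  field_simp
  ring

theorem st_le {T U : ℝ} (g : T ≤ U) : st T ≤ st U := by
  have a := Real.sqrt_le_sqrt g
  have b := Real.sqrt_nonneg T
  rw [st, st, div_le_div_iff₀ (by linarith) (by linarith)]
  linarith

theorem st_pos {T : ℝ} (h : 0 < T) : 0 < st T := by
  have := Real.sqrt_pos.2 h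
  unfold st
  positivity

theorem ts_pos {s : ℝ} (h : 0 < s) (g : s < 1) : 0 < ts s := by
  have a : 0 < 1 - s := by linarith
  unfold ts
  positivity

theorem certR_s2 {P q b s₀ s₁ K₁ M δ : ℝ} {Φ : ℝ × ℝ → ℝ} {φ : ℝ → ℝ → J6} (b1 : 1 ≤ b)
    (bq : b < q) (t1 : 0 < s₁) (t0 : s₁ < s₀) (t2 : s₀ < 1) (k1 : 1 ≤ K₁) (d0 : 0 < δ)
    (jet : ∀ s c, 0 < s → s ≤ s₀ → c ^ 2 ≤ 1 → Jt2 Φ (s, c) (φ s c) ∧ |(φ s c).f| ≤ M)
    (lo : ∀ c, c ^ 2 ≤ 1 → K₁ * (ts s₀ / ts s₁) ^ b⁻¹ < c + ts s₀ * (φ s₀ c).f)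
    (hi : ∀ c, c ^ 2 ≤ 1 → c + ts s₁ * (φ s₁ c).f < K₁)
    (key : ∀ s c S, 0 < s → s ≤ s₀ → c ^ 2 + S ^ 2 = 1 → 0 ≤ S →
      (s ≤ s₁ ∨ c + ts s * (φ s c).f ≤ K₁ * (ts s / ts s₁) ^ b⁻¹) →
      Key P q c S (jT (ts s) (jh (φ s c) b s)) (δ * ts s)) :
    ∃ F j κ τ₀ τ₁ C δ e, CertR P q F j κ τ₀ τ₁ C δ e := by
  have s0 : 0 < s₀ := t1.trans t0
  have m : ∀ T, T ≤ ts s₀ → st T ≤ s₀ := fun T g => (st_le g).trans (st_ts s0 t2).le
  have lt : ts s₁ < ts s₀ := by
    have a : 0 < 1 - s₀ := by linarith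
    have a' : 0 < 1 - s₁ := by linarith
    refine pow_lt_pow_left₀ ?_ (by positivity) two_ne_zero
    rw [div_lt_div_iff₀ a' a]
    nlinarith
  refine certR_of (M := M) (K₁ := K₁) (δ := δ) (k := fun T c => jh (φ (st T) c) b (st T))
    (F := fun y => Real.exp (b * y.1) *
      Φ (Real.exp (b / 2 * y.1) / (1 + Real.exp (b / 2 * y.1)), y.2))
    b1 bq (ts_pos t1 (t0.trans t2)) lt k1 d0 (fun τ c h g => ?_) (fun c h => ?_) (fun c h => ?_)
    (fun T c h g r => (jet _ c (st_pos h) (m T g) r).2) fun T c S h g r s0 p => ?_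
  · refine jt_s2 ?_ (jet _ c (st_pos (Real.exp_pos _)) (m _ h) g).1
    rw [st, ← Real.exp_half, show b * τ / 2 = b / 2 * τ by ring]
  · rw [st_ts s0 t2]
    exact lo c h
  · rw [st_ts t1 (t0.trans t2)]
    exact hi c h
  · have := key (st T) c S (st_pos h) (m T g) r s0
    rw [ts_st h] at this
    exact this (p.imp (fun x => (st_le x).trans (st_ts t1 (t0.trans t2)).le) id)

/-- all coefficients multiplied by `l` -/
def sca (l : ℝ) (k : Co) : Co :=
  ⟨l * k.g1, l * k.g2, l * k.r, l * k.e1, l * k.e2, l * k.y11, l * k.y12, l * k.y22, l * k.c11,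
    l * k.c12, l * k.c21, l * k.c22, l * k.z11, l * k.z12, l * k.z22, l * k.y3, l * k.c3, l * k.z3⟩

theorem blk_sca {k : Co} {P c S μ ν l : ℝ} (hl : 0 < l) (h : Blk (sca l k) P c S (l * μ) (l * ν)) :
    Blk k P c S μ ν := by
  intro h₁₁ h₁₂ h₂₂ h₃₃ w₁ w₂ N₁ N₂ t a1 a2 a3 a4 a5 a6 a7 a8 a9
  obtain ⟨s, a₁, a₂, b₁, b₂, e, b1, b2, b3⟩ := h h₁₁ h₁₂ h₂₂ h₃₃ (l * w₁) (l * w₂) N₁ N₂ (l * t) a1
    (by rw [mul_pow, mul_pow]; exact mul_le_mul_of_nonneg_left a2 (sq_nonneg l))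
    (by rw [mul_pow, mul_pow]; exact mul_le_mul_of_nonneg_left a3 (sq_nonneg l))
    (by simp only [sca]; linear_combination l * a4) (by simp only [sca]; linear_combination l * a5)
    a6 (mul_nonneg hl.le a7) (by simp only [sca]; linear_combination l * a8)
    (by simp only [sca]; linear_combination l * a9)
  refine ⟨s, a₁, a₂, b₁, b₂, e, b1, b2, le_of_mul_le_mul_left ?_ hl⟩
  simp only [sca, Co.vin, Co.xt, Co.dd, Co.yy, Co.cc, Co.zz] at b3 ⊢
  linear_combination b3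

theorem out_sca {k : Co} {P μ ν l : ℝ} (hl : 0 < l) (h : Out (sca l k) P (l * μ) (l * ν)) :
    Out k P μ ν := by
  intro h₁ h₂ w a1 a2
  have b := h h₁ h₂ (l * w)
    (by rw [mul_pow, mul_pow]; exact mul_le_mul_of_nonneg_left a1 (sq_nonneg l))
    (by simp only [sca]; linear_combination l * a2)
  refine le_of_mul_le_mul_left ?_ hl
  simp only [sca, Co.vout, Co.yy] at b ⊢
  linear_combination b

/-- the homogeneous coefficients -/
def hco (q c S l a : ℝ) (j : J6) : Co where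
  g1 := l * c + a * (j.f - j.t)
  g2 := S * (l + a * j.c)
  r := l * c + a * (j.f + j.t / q)
  e1 := c * (j.f + j.t / q) + S ^ 2 * j.c
  e2 := S * (j.f + j.t / q - c * j.c)
  y11 := j.tt - j.t
  y12 := -(S * j.tc)
  y22 := j.f - j.t + (S ^ 2 * j.cc - c * j.c)
  c11 := l * c + a * (j.f + j.t / q - j.t - j.tt / q)
  c12 := S * (l + a * (j.c + j.tc / q))
  c21 := S * (a * (j.tc - j.c) - l)
  c22 := l * c - a * (S ^ 2 * j.cc - c * j.c)
  z11 := j.t / q + j.tt / q ^ 2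
  z12 := -(S * j.tc / q)
  z22 := j.f + j.t / q + (S ^ 2 * j.cc - c * j.c)
  y3 := j.f - j.t - c * j.c
  c3 := l + a * j.c
  z3 := j.f + j.t / q - c * j.c

theorem sc_hco (q c S l a : ℝ) (j : J6) (hl : l ≠ 0) :
    Sc (sca l (co q c S (jT (a / l) j))) (hco q c S l a j) a 1 := by
  constructor <;> simp only [co, hco, jT, sca] <;> field_simp <;> ring

theorem key_h {P q c S l a δ m : ℝ} {j : J6} (h : c ^ 2 + S ^ 2 = 1) (hl : 0 < l)
    (h3 : 0 < (hco q c S l a j).c3)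
    (ho : Out (sca l (co q c S (jT (a / l) j))) P (δ * a) (m * a))
    (hb : Blk (sca l (co q c S (jT (a / l) j))) P c S (δ * a) ((δ + m) * a)) :
    Key P q c S (jT (a / l) j) (δ * (a / l)) := by
  refine key_of_blk P q c S _ (m * (a / l)) _ h ?_ (blk_sca hl ?_) (out_sca hl ?_)
  · refine pos_of_mul_pos_left (b := l) ?_ hl.le
    simp only [hco, jT] at h3 ⊢
    rw [show (1 + a / l * j.c) * l = l + a * j.c by field_simp]
    exact h3
  · rw [show l * (δ * (a / l)) = δ * a by field_simp,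
      show l * (δ * (a / l) + m * (a / l)) = (δ + m) * a by field_simp]
    exact hb
  · rw [show l * (δ * (a / l)) = δ * a by field_simp, show l * (m * (a / l)) = m * a by field_simp]
    exact ho

end Pool.Agent.MP_815c6c_an.W.Br
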