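import Pool.Agent.MP_815c6c_an.W.Br0

/-! The zero coupling with two multipliers (near the critical point), half angles, plateau. -/

set_option autoImplicit false

noncomputable section

namespace Pool.Agent.MP_815c6c_an.W.Br

open KR

theorem pd3 {A₁ A₂ A₃ A₁₂ A₁₃ A₂₃ : ℝ} (h1 : 0 < A₁) (h2 : 0 < A₁ * A₂ - A₁₂ * A₁₂)
    (h3 : 0 < A₁ * (A₂ * A₃ - A₂₃ * A₂₃) + A₁₂ * (A₂₃ * A₁₃ - A₁₂ * A₃) +
      A₁₃ * (A₁₂ * A₂₃ - A₂ * A₁₃)) (x y z : ℝ) :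
    0 ≤ A₁ * x ^ 2 + A₂ * y ^ 2 + A₃ * z ^ 2 + 2 * (A₁₂ * x * y + A₁₃ * x * z + A₂₃ * y * z) := by
  refine le_of_mul_le_mul_left ?_ (mul_pos h1 h2)
  have a := mul_nonneg h2.le (sq_nonneg (A₁ * x + A₁₂ * y + A₁₃ * z))
  have b := sq_nonneg ((A₁ * A₂ - A₁₂ * A₁₂) * y + (A₁ * A₂₃ - A₁₂ * A₁₃) * z)
  have c := mul_nonneg (mul_pos h1 h3).le (sq_nonneg z)
  linear_combination a + b + c

/-- the test of a concave quadratic function of three variables -/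
def Q3 (A₁ A₂ A₃ A₁₂ A₁₃ A₂₃ b₁ b₂ b₃ c₀ : ℝ) : Prop :=
  0 < A₁ ∧ 0 < A₁ * A₂ - A₁₂ * A₁₂ ∧ 0 < A₁ * (A₂ * A₃ - A₂₃ * A₂₃) +
    A₁₂ * (A₂₃ * A₁₃ - A₁₂ * A₃) + A₁₃ * (A₁₂ * A₂₃ - A₂ * A₁₃) ∧
  0 < -(c₀ * (A₁ * (A₂ * A₃ - A₂₃ * A₂₃) + A₁₂ * (A₂₃ * A₁₃ - A₁₂ * A₃) +
      A₁₃ * (A₁₂ * A₂₃ - A₂ * A₁₃)) +
    b₁ * ((A₂ * A₃ - A₂₃ * A₂₃) * b₁ + 2 * ((A₂₃ * A₁₃ - A₁₂ * A₃) * b₂ +
      (A₁₂ * A₂₃ - A₂ * A₁₃) * b₃)) +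
    b₂ * ((A₁ * A₃ - A₁₃ * A₁₃) * b₂ + 2 * ((A₁₂ * A₁₃ - A₁ * A₂₃) * b₃)) +
    b₃ * ((A₁ * A₂ - A₁₂ * A₁₂) * b₃))

theorem Q3.le {A₁ A₂ A₃ A₁₂ A₁₃ A₂₃ b₁ b₂ b₃ c₀ : ℝ} (h : Q3 A₁ A₂ A₃ A₁₂ A₁₃ A₂₃ b₁ b₂ b₃ c₀)
    (x y z : ℝ) : 2 * (b₁ * x + b₂ * y + b₃ * z) + c₀ ≤
      A₁ * x ^ 2 + A₂ * y ^ 2 + A₃ * z ^ 2 + 2 * (A₁₂ * x * y + A₁₃ * x * z + A₂₃ * y * z) := by
  obtain ⟨h1, h2, h3, h4⟩ := h
  obtain ⟨D, hD⟩ : ∃ D, D = A₁ * (A₂ * A₃ - A₂₃ * A₂₃) + A₁₂ * (A₂₃ * A₁₃ - A₁₂ * A₃) +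
    A₁₃ * (A₁₂ * A₂₃ - A₂ * A₁₃) := ⟨_, rfl⟩
  have a := pd3 h1 h2 h3
    (D * x - ((A₂ * A₃ - A₂₃ * A₂₃) * b₁ + (A₂₃ * A₁₃ - A₁₂ * A₃) * b₂ + (A₁₂ * A₂₃ - A₂ * A₁₃) * b₃))
    (D * y - ((A₂₃ * A₁₃ - A₁₂ * A₃) * b₁ + (A₁ * A₃ - A₁₃ * A₁₃) * b₂ + (A₁₂ * A₁₃ - A₁ * A₂₃) * b₃))
    (D * z - ((A₁₂ * A₂₃ - A₂ * A₁₃) * b₁ + (A₁₂ * A₁₃ - A₁ * A₂₃) * b₂ + (A₁ * A₂ - A₁₂ * A₁₂) * b₃))
  have b := mul_pos h3 h4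
  rw [← hD] at h3
  refine le_of_mul_le_mul_left ?_ (mul_pos h3 h3)
  subst hD
  linear_combination a + b.le

/-- the zero coupling with two multipliers -/
theorem blk_Z {k n : Co} {a : ℝ} (h : Sc k n a 1) (ha : 0 < a) (P c S δ δ₁ : ℝ)
    (H : ∀ E₁ E₂ : ℝ, (E₁ - n.e1) ^ 2 ≤ δ ^ 2 → (E₂ - n.e2) ^ 2 ≤ δ ^ 2 → ∃ l₁ l₂ m : ℝ, δ₁ ≤ m ∧
      Q3 (-(a * a * ((1 + P) * (n.y11 + (1 + P) * n.y3)))) (-(a * a * (n.y11 + (1 + P) * n.y22)))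
        (-(a * a * (n.y22 + n.y3))) ((1 + P) * -(a * a * n.y12)) (-(a * a * ((1 + P) * n.y3)))
        (-(a * a * n.y12)) ((1 + P) * (n.c3 + (S * n.c21 - c * n.c11)) + l₁ * n.g1)
        ((1 + P) * (S * n.c22 - c * n.c12) + l₁ * n.g2 + l₂ * n.g1 -
          (S * n.c11 + c * n.c21 + P * (a * E₂)))
        (n.c3 + (l₂ * n.g2 - (S * n.c12 + c * n.c22)))
        (n.z3 + m + ((1 + P) * n.zz c (-S) + n.zz S c - 2 * (l₁ * E₁ + l₂ * E₂)))) :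
    Blk k P c S (δ * a) (δ₁ * a) := by
  intro h₁₁ h₁₂ h₂₂ h₃₃ w₁ w₂ N₁ N₂ t htr hw1 hw2 c1 c2 _ _ _ _
  obtain ⟨x, rfl⟩ : ∃ x, h₁₁ = a * x := ⟨h₁₁ / a, by field_simp⟩
  obtain ⟨y, rfl⟩ : ∃ x, h₁₂ = a * x := ⟨h₁₂ / a, by field_simp⟩
  obtain ⟨z, rfl⟩ : ∃ x, h₂₂ = a * x := ⟨h₂₂ / a, by field_simp⟩
  obtain rfl : h₃₃ = -((1 + P) * (a * x) + a * z) := by linear_combination htr
  rw [h.g1, h.g2, h.e1] at c1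
  rw [h.g1, h.g2, h.e2] at c2
  have a2 : 0 < a ^ 2 := by positivity
  obtain rfl : w₁ = -(a * (n.g1 * x + n.g2 * y - n.e1)) := by linear_combination c1
  obtain rfl : w₂ = -(a * (n.g1 * y + n.g2 * z - n.e2)) := by linear_combination c2
  obtain ⟨l₁, l₂, m, hm, hq⟩ := H (n.g1 * x + n.g2 * y) (n.g1 * y + n.g2 * z)
    (le_of_mul_le_mul_left (by linear_combination hw1) a2)
    (le_of_mul_le_mul_left (by linear_combination hw2) a2)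
  refine ⟨0, 0, 0, 0, 0, 0, by norm_num, fun v₁ v₂ => by norm_num, ?_⟩
  have b := mul_le_mul_of_nonneg_left (hq.le x y z) ha.le
  have b' := mul_le_mul_of_nonneg_left hm ha.le
  simp only [Co.vin, Co.xt, Co.dd, Co.yy, Co.cc, Co.zz, h.y11, h.y12, h.y22, h.c11, h.c12, h.c21,
    h.c22, h.z11, h.z12, h.z22, h.y3, h.c3, h.z3, h.e2] at b ⊢
  linear_combination b + b'

theorem half {c S : ℝ} (h : c ^ 2 + S ^ 2 = 1) (s0 : 0 ≤ S) : ∃ u : ℝ, 0 ≤ u ∧ u ≤ 1 ∧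
    S = 2 * (u * (1 + u * u)⁻¹) ∧ (c = 2 * (1 + u * u)⁻¹ - 1 ∨ c = 1 - 2 * (1 + u * u)⁻¹) := by
  have a0 := abs_nonneg c
  have a1 : 0 < 1 + |c| := by linarith
  have a2 : |c| ^ 2 + S ^ 2 = 1 := by rw [sq_abs]; exact h
  have e : (1 + S / (1 + |c|) * (S / (1 + |c|)))⁻¹ = (1 + |c|) / 2 := by
    refine inv_eq_of_mul_eq_one_right ?_
    field_simp
    linear_combination a2
  refine ⟨S / (1 + |c|), by positivity, (div_le_one a1).2 (by nlinarith), ?_, ?_⟩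
  · rw [e]
    field_simp
  · rw [e]
    rcases abs_cases c with x | x
    · left; linarith
    · right; linarith

/-- coefficients of a polynomial of degree five in `c`, scale `2 ^ 48` -/
structure Rw : Type where
  a0 : ℤ
  a1 : ℤ
  a2 : ℤ
  a3 : ℤ
  a4 : ℤ
  a5 : ℤ

def zr (d : ℤ) : ℝ := d / 2 ^ 48
def Rw.p0 (r : Rw) (c : ℝ) : ℝ :=
  zr r.a0 + zr r.a1 * c + zr r.a2 * c ^ 2 + zr r.a3 * c ^ 3 + zr r.a4 * c ^ 4 + zr r.a5 * c ^ 5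
def Rw.p1 (r : Rw) (c : ℝ) : ℝ :=
  zr r.a1 + 2 * zr r.a2 * c + 3 * zr r.a3 * c ^ 2 + 4 * zr r.a4 * c ^ 3 + 5 * zr r.a5 * c ^ 4
def Rw.p2 (r : Rw) (c : ℝ) : ℝ :=
  2 * zr r.a2 + 6 * zr r.a3 * c + 12 * zr r.a4 * c ^ 2 + 20 * zr r.a5 * c ^ 3
def Rw.l (r : Rw) : List ℝ := [zr r.a0, zr r.a1, zr r.a2, zr r.a3, zr r.a4, zr r.a5]

theorem Rw.hc_eq (r : Rw) (c : ℝ) : hc r.l c = ⟨r.p0 c, 0, r.p1 c, 0, 0, r.p2 c⟩ := by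
  simp only [hc, Rw.l, List.foldr, J6.add, J6.mul, J6.cst, J6.vy, J6.mk.injEq, Rw.p0, Rw.p1, Rw.p2]
  refine ⟨?_, ?_, ?_, ?_, ?_, ?_⟩ <;> ring

/-- the data of a piece: `Φ`, `b = bn / bd`, the plateau and its tangent lines -/
structure Pc : Type where
  r0 : Rw
  r1 : Rw
  r2 : Rw
  r3 : Rw
  six : Bool
  r4 : Rw
  r5 : Rw
  bn : ℕ
  bd : ℕ
  hb : ℕ
  hh : ℕ
  s1 : ℕ
  s0 : ℕ
  k1 : ℕ
  tg : List (ℕ × ℕ)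

def Pc.q4 (p : Pc) : Rw := cond p.six p.r4 ⟨0, 0, 0, 0, 0, 0⟩
def Pc.q5 (p : Pc) : Rw := cond p.six p.r5 ⟨0, 0, 0, 0, 0, 0⟩
def cu (a₀ a₁ a₂ a₃ a₄ a₅ x : ℝ) : ℝ :=
  a₀ + (a₁ * x + a₂ * x ^ 2 + a₃ * x ^ 3 + a₄ * x ^ 4 + a₅ * x ^ 5)
def cv (a₁ a₂ a₃ a₄ a₅ x : ℝ) : ℝ :=
  a₁ + (2 * a₂ * x + 3 * a₃ * x ^ 2 + 4 * a₄ * x ^ 3 + 5 * a₅ * x ^ 4)

/-- the jets of `Φ` in `(s, c)` -/
def Pc.ph (p : Pc) (s c : ℝ) : J6 where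
  f := cu (p.r0.p0 c) (p.r1.p0 c) (p.r2.p0 c) (p.r3.p0 c) (p.q4.p0 c) (p.q5.p0 c) (s - 5 / 8)
  t := cv (p.r1.p0 c) (p.r2.p0 c) (p.r3.p0 c) (p.q4.p0 c) (p.q5.p0 c) (s - 5 / 8)
  c := cu (p.r0.p1 c) (p.r1.p1 c) (p.r2.p1 c) (p.r3.p1 c) (p.q4.p1 c) (p.q5.p1 c) (s - 5 / 8)
  tt := 2 * p.r2.p0 c + (6 * p.r3.p0 c * (s - 5 / 8) + 12 * p.q4.p0 c * (s - 5 / 8) ^ 2 +
    20 * p.q5.p0 c * (s - 5 / 8) ^ 3)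
  tc := cv (p.r1.p1 c) (p.r2.p1 c) (p.r3.p1 c) (p.q4.p1 c) (p.q5.p1 c) (s - 5 / 8)
  cc := cu (p.r0.p2 c) (p.r1.p2 c) (p.r2.p2 c) (p.r3.p2 c) (p.q4.p2 c) (p.q5.p2 c) (s - 5 / 8)

theorem Pc.jet (p : Pc) (s c : ℝ) : Jt2 (fun y =>
    (hs [p.r0.l, p.r1.l, p.r2.l, p.r3.l, p.q4.l, p.q5.l] (y.1 - 5 / 8) y.2).f) (s, c) (p.ph s c) := by
  have a := (jt_hs [p.r0.l, p.r1.l, p.r2.l, p.r3.l, p.q4.l, p.q5.l] (s - 5 / 8, c)).sub1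
    (σ := fun t => t - 5 / 8) (σ' := fun _ => 1) (u := 0) (by fun_prop)
    (Filter.Eventually.of_forall fun t => (hasDerivAt_id' t).sub_const _) (hasDerivAt_const s 1)
  refine Eq.mp (congrArg _ ?_) a
  simp only [hs, List.foldr, Rw.hc_eq, J6.add, J6.mul, J6.cst, J6.vx, J6.mk.injEq, Pc.ph, cu, cv]
  refine ⟨?_, ?_, ?_, ?_, ?_, ?_⟩ <;> ring

theorem Pc.bdd (p : Pc) : ∃ M, ∀ s c : ℝ, 0 ≤ s → s ≤ 1 → c ^ 2 ≤ 1 → |(p.ph s c).f| ≤ M := by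
  have c : Continuous fun y : ℝ × ℝ => (p.ph y.1 y.2).f := by
    simp only [Pc.ph, cu, Rw.p0]
    fun_prop
  obtain ⟨M, h⟩ := ((isCompact_Icc (a := (0 : ℝ)) (b := 1)).prod
    (isCompact_Icc (a := (-1 : ℝ)) (b := 1))).exists_bound_of_continuousOn c.continuousOn
  exact ⟨M, fun s c a b d => h (s, c) ⟨⟨a, b⟩, abs_le.1 ((sq_le_one_iff_abs_le_one c).1 d)⟩⟩

def Pc.b (p : Pc) : ℝ := (p.bn : ℝ) / p.bd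
def nr (d : ℕ) : ℝ := d / 2 ^ 48
/-- the plateau -/
def Pc.pl (p : Pc) (T : ℝ) : ℝ := nr p.k1 * (T / ts (nr p.s1)) ^ p.b⁻¹

/-- the test of a tangent line -/
def Pc.tk (p : Pc) (x : ℕ × ℕ) : Bool :=
  let b : ℚ := (p.bn : ℚ) / p.bd
  let y : ℚ := (x.1 : ℚ) / (p.k1 * (1 - 1 / b))
  decide (0 < x.1 ∧ 0 < x.2 ∧
    ((p.k1 : ℚ) * y / (b * ((p.s1 : ℚ) / (2 ^ 48 - p.s1)) ^ 2 * x.2)) ^ p.bd ≤ y ^ p.bn)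

/-- the test of the constants -/
def Pc.ok (p : Pc) : Bool :=
  let b : ℚ := (p.bn : ℚ) / p.bd
  decide (0 < p.bd ∧ p.bd < p.bn ∧ 0 < p.s1 ∧ p.s1 < p.s0 ∧ p.s0 < 2 ^ 48 ∧ 2 ^ 48 ≤ p.k1 ∧
    |b / 2 * 2 ^ 48 - p.hb| ≤ 1 ∧ |b ^ 2 / 4 * 2 ^ 48 - p.hh| ≤ 1) && p.tg.all p.tk

structure Pc.Ok (p : Pc) : Prop where
  b1 : 1 < p.b
  s1 : 0 < nr p.s1
  s0 : nr p.s1 < nr p.s0
  s2 : nr p.s0 < 1
  k1 : 1 ≤ nr p.k1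
  s3 : p.s1 ≤ 2 ^ 83
  hb : |p.b / 2 * 2 ^ 48 - p.hb| ≤ 1
  hh : |p.b ^ 2 / 4 * 2 ^ 48 - p.hh| ≤ 1
  tg : ∀ x ∈ p.tg, ∀ T, 0 ≤ T → p.pl T ≤ nr x.1 + nr x.2 * T

theorem Pc.ok_ok {p : Pc} (h : p.ok = true) : p.Ok := by
  simp only [Pc.ok, Bool.and_eq_true, decide_eq_true_eq, List.all_eq_true] at h
  obtain ⟨⟨d0, d1, a1, a2, a3, a4, a5, a6⟩, a7⟩ := h
  have d0' : (0 : ℝ) < p.bd := by exact_mod_cast d0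
  have b1 : 1 < p.b := (one_lt_div d0').2 (by exact_mod_cast d1)
  have a1' : (0 : ℝ) < p.s1 := by exact_mod_cast a1
  have a2' : (p.s1 : ℝ) < p.s0 := by exact_mod_cast a2
  have a3' : (p.s0 : ℝ) < 2 ^ 48 := by exact_mod_cast a3
  have a4' : (2 : ℝ) ^ 48 ≤ p.k1 := by exact_mod_cast a4
  refine ⟨b1, by unfold nr; positivity, by unfold nr; linarith, by unfold nr; linarith,
    by unfold nr; linarith, by omega, ?_, ?_, fun x hx T hT => ?_⟩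
  · have := (Rat.cast_le (K := ℝ)).2 a5
    push_cast at this
    exact this
  · have := (Rat.cast_le (K := ℝ)).2 a6
    push_cast at this
    exact this
  · have := a7 x hx
    simp only [Pc.tk, decide_eq_true_eq] at this
    obtain ⟨x1, x2, x3⟩ := this
    have x1' : (0 : ℝ) < x.1 := by exact_mod_cast x1
    have x2' : (0 : ℝ) < x.2 := by exact_mod_cast x2
    have x4 : ((p.k1 : ℝ) * (x.1 / (p.k1 * (1 - 1 / p.b))) /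
        (p.b * ((p.s1 : ℝ) / (2 ^ 48 - p.s1)) ^ 2 * x.2)) ^ p.bd ≤
        ((x.1 : ℝ) / (p.k1 * (1 - 1 / p.b))) ^ p.bn := by
      have := (Rat.cast_le (K := ℝ)).2 x3
      push_cast at this
      exact this
    have e : ts (nr p.s1) = ((p.s1 : ℝ) / (2 ^ 48 - p.s1)) ^ 2 := by
      have : (2 : ℝ) ^ 48 - p.s1 ≠ 0 := by linarith
      unfold ts nr
      field_simp
    rw [← e] at x4
    have t1 : 0 < ts (nr p.s1) := ts_pos (by unfold nr; positivity) (by unfold nr; linarith)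
    have b0 : 0 < p.b := by linarith
    have b2 : 0 < 1 - 1 / p.b := sub_pos.2 ((div_lt_one b0).2 b1)
    have k0 : (0 : ℝ) < p.k1 := by linarith [show (0 : ℝ) < 2 ^ 48 by positivity]
    obtain ⟨y, hy⟩ : ∃ y, y = (x.1 : ℝ) / (p.k1 * (1 - 1 / p.b)) := ⟨_, rfl⟩
    have y0 : 0 < y := by rw [hy]; positivity
    rw [← hy] at x4
    have x5 : (p.k1 : ℝ) * y / (p.b * ts (nr p.s1) * x.2) ≤ y ^ p.b := by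
      refine le_of_pow_le_pow_left₀ d0.ne' (Real.rpow_nonneg y0.le _) (x4.trans (le_of_eq ?_))
      rw [← Real.rpow_natCast, ← Real.rpow_natCast, ← Real.rpow_mul y0.le, Pc.b,
        div_mul_cancel₀ _ d0'.ne']
    have x6 := plat_le b1.le (div_nonneg hT t1.le) (by positivity) y0.le x5
    have x7 : (x.1 : ℝ) = y * (p.k1 * (1 - 1 / p.b)) := by
      rw [hy, div_mul_cancel₀ _ (mul_pos k0 b2).ne']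
    refine (mul_le_mul_of_nonneg_left x6 (show 0 ≤ nr p.k1 by unfold nr; positivity)).trans
      (le_of_eq ?_)
    generalize ts (nr p.s1) = T₁ at *
    unfold nr
    rw [x7]
    field_simp
    ring

end Pool.Agent.MP_815c6c_an.W.Br
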