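import Pool.Agent.MP_815c6c_an.W.Br1
import Pool.Agent.MP_815c6c_an.W.AA

/-! Taylor models of the state and of the jets of `Φ`. -/

set_option autoImplicit false

noncomputable section

namespace Pool.Agent.MP_815c6c_an.W.Br

open KR AA

variable {t : Pt}

def kN (d : ℤ) : N := Int.rec (fun n => cN n) (fun n => ncN (Nat.succ n)) d

theorem kN_ok (d : ℤ) : RN t (kN d) (zr d) := by
  cases d with
  | ofNat n => exact cN_ok n (by simp [zr])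
  | negSucc n => exact ncN_ok (n + 1) (by simp [zr, Int.negSucc_eq])

theorem nN_ok (d : ℕ) : RN t (cN d) (nr d) := cN_ok d (by simp [nr])
theorem nA_ok {d : ℕ} (h : d ≤ 2 ^ 83) : RA t (cst d) (nr d) := cst_ok d h (by simp [nr])
def oN : N := cN 281474976710656
theorem oN_ok : RN t oN 1 := cN_ok _ (by norm_num)
theorem k58 : RA t (cst 175921860444160) (5 / 8) := cst_ok _ (by norm_num) (by norm_num)
theorem k5 : RA t (cst 1407374883553280) 5 := cst_ok _ (by norm_num) (by norm_num)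
theorem k257 : RN t (cN 282574488338432) (257 / 256) := cN_ok _ (by norm_num)

/-- the cosine -/
def cs (g : Bool) (u : ℝ) : ℝ := cond g (2 * (1 + u * u)⁻¹ - 1) (1 - 2 * (1 + u * u)⁻¹)
/-- the sine -/
def sn (u : ℝ) : ℝ := 2 * (u * (1 + u * u)⁻¹)

structure UB : Type where
  c : N
  S : N
  c2 : N
  c3 : N
  c4 : N
  c5 : N

structure RU (t : Pt) (U : UB) (c S : ℝ) : Prop where
  c1 : RN t U.c c
  S : RN t U.S S
  c2 : RN t U.c2 (c ^ 2)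
  c3 : RN t U.c3 (c ^ 3)
  c4 : RN t U.c4 (c ^ 4)
  c5 : RN t U.c5 (c ^ 5)

def ub (g : Bool) (m i : ℕ) : UB :=
  let u := nrm (var 1152 m i)
  let w := nrm (inv (nrm (add one (rnd (mul u u)))))
  let c := cond g (nrm (sub (smul 2 w.toA) one)) (nrm (sub one (smul 2 w.toA)))
  let S := nrm (rnd (smul 2 (mul u w)))
  let c2 := nrm (rnd (mul c c))
  let c3 := nrm (rnd (mul c c2))
  let c4 := nrm (rnd (mul c2 c2))
  let c5 := nrm (rnd (mul c2 c3))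
  ⟨c, S, c2, c3, c4, c5⟩

theorem ub_ok (g : Bool) {m i : ℕ} {x : ℝ} (hv : RA t (var 1152 m i) x) :
    RU t (ub g m i) (cs g x) (sn x) := by
  unfold ub
  extract_lets u w c S c2 c3 c4 c5
  have hu : RN t u _ := nrm_ok hv
  have hw : RN t w _ := nrm_ok (inv_ok (nrm_ok (add_ok one_ok (rnd_ok (mul_ok hu hu)))))
  have hc : RN t c (cs g x) := by
    cases g
    · exact (nrm_ok (sub_ok one_ok (smul_ok 2 hw.toA))).cast (by push_cast; rfl)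
    · exact (nrm_ok (sub_ok (smul_ok 2 hw.toA) one_ok)).cast (by push_cast; rfl)
  have hS : RN t S (sn x) := (nrm_ok (rnd_ok (smul_ok 2 (mul_ok hu hw)))).cast (by push_cast; rfl)
  have hc2 : RN t c2 (cs g x ^ 2) := (nrm_ok (rnd_ok (mul_ok hc hc))).cast (by ring)
  have hc3 : RN t c3 (cs g x ^ 3) := (nrm_ok (rnd_ok (mul_ok hc hc2))).cast (by ring)
  have hc4 : RN t c4 (cs g x ^ 4) := (nrm_ok (rnd_ok (mul_ok hc2 hc2))).cast (by ring)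
  have hc5 : RN t c5 (cs g x ^ 5) := (nrm_ok (rnd_ok (mul_ok hc2 hc3))).cast (by ring)
  exact ⟨hc, hS, hc2, hc3, hc4, hc5⟩

structure R3 : Type where
  p0 : N
  p1 : N
  p2 : N

structure RR (t : Pt) (X : R3) (r : Rw) (c : ℝ) : Prop where
  p0 : RN t X.p0 (r.p0 c)
  p1 : RN t X.p1 (r.p1 c)
  p2 : RN t X.p2 (r.p2 c)

def row (r : Rw) (U : UB) : R3 where
  p0 := nrm (rnd (add (add (add (add (add (mul (kN r.a0) oN) (mul (kN r.a1) U.c)) (mul (kN r.a2)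
    U.c2)) (mul (kN r.a3) U.c3)) (mul (kN r.a4) U.c4)) (mul (kN r.a5) U.c5)))
  p1 := nrm (rnd (add (add (add (add (mul (kN r.a1) oN) (smul 2 (mul (kN r.a2) U.c))) (smul 3 (mul
    (kN r.a3) U.c2))) (smul 4 (mul (kN r.a4) U.c3))) (smul 5 (mul (kN r.a5) U.c4))))
  p2 := nrm (rnd (add (add (add (smul 2 (mul (kN r.a2) oN)) (smul 6 (mul (kN r.a3) U.c))) (smul 12
    (mul (kN r.a4) U.c2))) (smul 20 (mul (kN r.a5) U.c3))))

theorem row_ok (r : Rw) {U : UB} {c S : ℝ} (h : RU t U c S) : RR t (row r U) r c where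
  p0 := (nrm_ok (rnd_ok (add_ok (add_ok (add_ok (add_ok (add_ok (mul_ok (kN_ok r.a0) oN_ok) (mul_ok
    (kN_ok r.a1) h.c1)) (mul_ok (kN_ok r.a2) h.c2)) (mul_ok (kN_ok r.a3) h.c3)) (mul_ok (kN_ok r.a4)
    h.c4)) (mul_ok (kN_ok r.a5) h.c5)))).cast (by simp only [Rw.p0]; ring)
  p1 := (nrm_ok (rnd_ok (add_ok (add_ok (add_ok (add_ok (mul_ok (kN_ok r.a1) oN_ok) (smul_ok 2
    (mul_ok (kN_ok r.a2) h.c1))) (smul_ok 3 (mul_ok (kN_ok r.a3) h.c2))) (smul_ok 4 (mul_ok (kN_ok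
    r.a4) h.c3))) (smul_ok 5 (mul_ok (kN_ok r.a5) h.c4))))).cast
    (by simp only [Rw.p1, Nat.cast_ofNat]; ring)
  p2 := (nrm_ok (rnd_ok (add_ok (add_ok (add_ok (smul_ok 2 (mul_ok (kN_ok r.a2) oN_ok)) (smul_ok 6
    (mul_ok (kN_ok r.a3) h.c1))) (smul_ok 12 (mul_ok (kN_ok r.a4) h.c2))) (smul_ok 20 (mul_ok (kN_ok
    r.a5) h.c3))))).cast (by simp only [Rw.p2, Nat.cast_ofNat]; ring)

/-- `l = 1 / (1 + T / 2)` -/
def fl (s : ℝ) : ℝ := 2 * ((1 - s) * (1 - s)) * (s * s + 2 * ((1 - s) * (1 - s)))⁻¹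
/-- `a = T l` -/
def fa (s : ℝ) : ℝ := 2 * (s * s) * (s * s + 2 * ((1 - s) * (1 - s)))⁻¹

theorem fl_pos {s : ℝ} (h : 0 < s) (g : s < 1) : 0 < fl s := by
  have : 0 < 1 - s := by linarith
  unfold fl
  positivity

theorem fa_pos {s : ℝ} (h : 0 < s) (g : s < 1) : 0 < fa s := by
  have : 0 < 1 - s := by linarith
  unfold fa
  positivity

theorem fa_le {s : ℝ} (h : 0 < s) (g : s < 1) : fa s ≤ 2 := by
  have : 0 < 1 - s := by linarith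
  rw [fa, ← div_eq_mul_inv, div_le_iff₀ (by positivity)]
  nlinarith

theorem fa_fl {s : ℝ} (h : 0 < s) (g : s < 1) : fa s / fl s = ts s := by
  have : 0 < 1 - s := by linarith
  unfold fa fl ts
  field_simp

structure SB : Type where
  s : N
  L : N
  a : N
  x : N
  x2 : N
  x3 : N
  x4 : N
  x5 : N
  w : N
  ww : N
  y5 : N

structure RS (t : Pt) (B : SB) (s : ℝ) : Prop where
  s1 : RN t B.s s
  L : RN t B.L (fl s)
  a : RN t B.a (fa s)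
  x : RN t B.x (s - 5 / 8)
  x2 : RN t B.x2 ((s - 5 / 8) ^ 2)
  x3 : RN t B.x3 ((s - 5 / 8) ^ 3)
  x4 : RN t B.x4 ((s - 5 / 8) ^ 4)
  x5 : RN t B.x5 ((s - 5 / 8) ^ 5)
  w : RN t B.w (s * (1 - s))
  ww : RN t B.ww ((s * (1 - s)) ^ 2)
  y5 : RN t B.y5 (5 - 2 * s)

def sb (l h : ℕ) : SB :=
  let s := nrm (var 1008 l h)
  let o := nrm (sub one s.toA)
  let s2 := nrm (rnd (smul 2 (mul s s)))
  let o2 := nrm (rnd (smul 2 (mul o o)))
  let z := nrm (inv (nrm (rnd (add (mul s s) (smul 2 (mul o o))))))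
  let L := nrm (rnd (mul o2 z))
  let a := nrm (rnd (mul s2 z))
  let x := nrm (sub s.toA (cst 175921860444160))
  let x2 := nrm (rnd (mul x x))
  let x3 := nrm (rnd (mul x x2))
  let x4 := nrm (rnd (mul x2 x2))
  let x5 := nrm (rnd (mul x2 x3))
  let w := nrm (rnd (mul s o))
  let ww := nrm (rnd (mul w w))
  let y5 := nrm (sub (cst 1407374883553280) (smul 2 s.toA))
  ⟨s, L, a, x, x2, x3, x4, x5, w, ww, y5⟩

theorem sb_ok {l h : ℕ} {y : ℝ} (hv : RA t (var 1008 l h) y) : RS t (sb l h) y := by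
  unfold sb
  extract_lets s o s2 o2 z L a x x2 x3 x4 x5 w ww y5
  have hs : RN t s _ := nrm_ok hv
  have ho : RN t o _ := nrm_ok (sub_ok one_ok hs.toA)
  have hs2 : RN t s2 _ := nrm_ok (rnd_ok (smul_ok 2 (mul_ok hs hs)))
  have ho2 : RN t o2 _ := nrm_ok (rnd_ok (smul_ok 2 (mul_ok ho ho)))
  have hz : RN t z _ := nrm_ok (inv_ok (nrm_ok (rnd_ok (add_ok (mul_ok hs hs) (smul_ok 2 (mul_ok ho
    ho))))))
  have hL : RN t L (fl y) := (nrm_ok (rnd_ok (mul_ok ho2 hz))).cast (by push_cast; rfl)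
  have ha : RN t a (fa y) := (nrm_ok (rnd_ok (mul_ok hs2 hz))).cast (by push_cast; rfl)
  have hx : RN t x _ := nrm_ok (sub_ok hs.toA k58)
  have hx2 : RN t x2 ((y - 5 / 8) ^ 2) := (nrm_ok (rnd_ok (mul_ok hx hx))).cast (by ring)
  have hx3 : RN t x3 ((y - 5 / 8) ^ 3) := (nrm_ok (rnd_ok (mul_ok hx hx2))).cast (by ring)
  have hx4 : RN t x4 ((y - 5 / 8) ^ 4) := (nrm_ok (rnd_ok (mul_ok hx2 hx2))).cast (by ring)
  have hx5 : RN t x5 ((y - 5 / 8) ^ 5) := (nrm_ok (rnd_ok (mul_ok hx2 hx3))).cast (by ring)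
  have hw : RN t w _ := nrm_ok (rnd_ok (mul_ok hs ho))
  have hww : RN t ww ((y * (1 - y)) ^ 2) := (nrm_ok (rnd_ok (mul_ok hw hw))).cast (by ring)
  have hy5 : RN t y5 (5 - 2 * y) := (nrm_ok (sub_ok k5 (smul_ok 2 hs.toA))).cast (by push_cast; rfl)
  exact ⟨hs, hL, ha, hx, hx2, hx3, hx4, hx5, hw, hww, hy5⟩

structure PB : Type where
  P : N
  Q : N
  k : N

/-- the exponent -/
def qp (P : ℝ) : ℝ := 256 * (1 + P) / 257

structure RP (t : Pt) (B : PB) (P : ℝ) : Prop where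
  P1 : RN t B.P P
  Q : RN t B.Q (1 + P)
  k : RN t B.k (qp P)⁻¹

def pb (n j : ℕ) : PB :=
  let P := nrm (var 1440 n j)
  let Q := nrm (add P.toA one)
  let k := nrm (rnd (mul (cN 282574488338432) (nrm (inv Q))))
  ⟨P, Q, k⟩

theorem pb_ok {n j : ℕ} {y : ℝ} (hv : RA t (var 1440 n j) y) : RP t (pb n j) y := by
  unfold pb
  extract_lets P Q k
  have hP : RN t P _ := nrm_ok hv
  have hQ : RN t Q (1 + y) := (nrm_ok (add_ok hP.toA one_ok)).cast (by ring)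
  have hk : RN t k ((qp y)⁻¹) := (nrm_ok (rnd_ok (mul_ok k257 (nrm_ok (inv_ok hQ))))).cast
    (by rw [qp, inv_div, div_mul_eq_div_div, div_eq_mul_inv (257 / 256)])
  exact ⟨hP, hQ, hk⟩

structure JB : Type where
  f : N
  t : N
  c : N
  tt : N
  tc : N
  cc : N

structure RJ (t : Pt) (J : JB) (j : J6) : Prop where
  f : RN t J.f j.f
  t1 : RN t J.t j.t
  c : RN t J.c j.c
  tt : RN t J.tt j.tt
  tc : RN t J.tc j.tc
  cc : RN t J.cc j.cc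

theorem z0 (c : ℝ) : Rw.p0 ⟨0, 0, 0, 0, 0, 0⟩ c = 0 := by simp [Rw.p0, zr]
theorem z1 (c : ℝ) : Rw.p1 ⟨0, 0, 0, 0, 0, 0⟩ c = 0 := by simp [Rw.p1, zr]
theorem z2 (c : ℝ) : Rw.p2 ⟨0, 0, 0, 0, 0, 0⟩ c = 0 := by simp [Rw.p2, zr]

def ph4 (p : Pc) (U : UB) (B : SB) : JB :=
  let r0 := row p.r0 U
  let r1 := row p.r1 U
  let r2 := row p.r2 U
  let r3 := row p.r3 U
  ⟨nrm (add r0.p0.toA (rnd (add (add (mul r1.p0 B.x) (mul r2.p0 B.x2)) (mul r3.p0 B.x3)))), nrm (add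
    r1.p0.toA (rnd (add (smul 2 (mul r2.p0 B.x)) (smul 3 (mul r3.p0 B.x2))))), nrm (add r0.p1.toA
    (rnd (add (add (mul r1.p1 B.x) (mul r2.p1 B.x2)) (mul r3.p1 B.x3)))), nrm (add (smul 2
    r2.p0.toA) (rnd (smul 6 (mul r3.p0 B.x)))), nrm (add r1.p1.toA (rnd (add (smul 2 (mul r2.p1
    B.x)) (smul 3 (mul r3.p1 B.x2))))), nrm (add r0.p2.toA (rnd (add (add (mul r1.p2 B.x) (mul r2.p2
    B.x2)) (mul r3.p2 B.x3))))⟩

theorem ph4_ok (p : Pc) {U : UB} {B : SB} {s c S : ℝ} (h : RU t U c S) (g : RS t B s)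
    (e : p.six = false) : RJ t (ph4 p U B) (p.ph s c) := by
  unfold ph4
  extract_lets r0 r1 r2 r3
  have h0 : RR t r0 _ c := row_ok p.r0 h
  have h1 : RR t r1 _ c := row_ok p.r1 h
  have h2 : RR t r2 _ c := row_ok p.r2 h
  have h3 : RR t r3 _ c := row_ok p.r3 h
  have e4 : p.q4 = ⟨0, 0, 0, 0, 0, 0⟩ := by rw [Pc.q4, e, cond_false]
  have e5 : p.q5 = ⟨0, 0, 0, 0, 0, 0⟩ := by rw [Pc.q5, e, cond_false]
  refine ⟨(nrm_ok (add_ok h0.p0.toA (rnd_ok (add_ok (add_ok (mul_ok h1.p0 g.x) (mul_ok h2.p0 g.x2))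
    (mul_ok h3.p0 g.x3))))).cast ?_, (nrm_ok (add_ok h1.p0.toA (rnd_ok (add_ok (smul_ok 2 (mul_ok
    h2.p0 g.x)) (smul_ok 3 (mul_ok h3.p0 g.x2)))))).cast ?_, (nrm_ok (add_ok h0.p1.toA (rnd_ok
    (add_ok (add_ok (mul_ok h1.p1 g.x) (mul_ok h2.p1 g.x2)) (mul_ok h3.p1 g.x3))))).cast ?_, (nrm_ok
    (add_ok (smul_ok 2 h2.p0.toA) (rnd_ok (smul_ok 6 (mul_ok h3.p0 g.x))))).cast ?_, (nrm_ok (add_ok
    h1.p1.toA (rnd_ok (add_ok (smul_ok 2 (mul_ok h2.p1 g.x)) (smul_ok 3 (mul_ok h3.p1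
    g.x2)))))).cast ?_, (nrm_ok (add_ok h0.p2.toA (rnd_ok (add_ok (add_ok (mul_ok h1.p2 g.x) (mul_ok
    h2.p2 g.x2)) (mul_ok h3.p2 g.x3))))).cast ?_⟩ <;>
    simp only [Pc.ph, cu, cv, e4, e5, z0, z1, z2, Nat.cast_ofNat] <;> ring

def ph6 (p : Pc) (U : UB) (B : SB) : JB :=
  let r0 := row p.r0 U
  let r1 := row p.r1 U
  let r2 := row p.r2 U
  let r3 := row p.r3 U
  let r4 := row p.r4 U
  let r5 := row p.r5 U
  ⟨nrm (add r0.p0.toA (rnd (add (add (add (add (mul r1.p0 B.x) (mul r2.p0 B.x2)) (mul r3.p0 B.x3))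
    (mul r4.p0 B.x4)) (mul r5.p0 B.x5)))), nrm (add r1.p0.toA (rnd (add (add (add (smul 2 (mul r2.p0
    B.x)) (smul 3 (mul r3.p0 B.x2))) (smul 4 (mul r4.p0 B.x3))) (smul 5 (mul r5.p0 B.x4))))), nrm
    (add r0.p1.toA (rnd (add (add (add (add (mul r1.p1 B.x) (mul r2.p1 B.x2)) (mul r3.p1 B.x3)) (mul
    r4.p1 B.x4)) (mul r5.p1 B.x5)))), nrm (add (smul 2 r2.p0.toA) (rnd (add (add (smul 6 (mul r3.p0
    B.x)) (smul 12 (mul r4.p0 B.x2))) (smul 20 (mul r5.p0 B.x3))))), nrm (add r1.p1.toA (rnd (add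
    (add (add (smul 2 (mul r2.p1 B.x)) (smul 3 (mul r3.p1 B.x2))) (smul 4 (mul r4.p1 B.x3))) (smul 5
    (mul r5.p1 B.x4))))), nrm (add r0.p2.toA (rnd (add (add (add (add (mul r1.p2 B.x) (mul r2.p2
    B.x2)) (mul r3.p2 B.x3)) (mul r4.p2 B.x4)) (mul r5.p2 B.x5))))⟩

theorem ph6_ok (p : Pc) {U : UB} {B : SB} {s c S : ℝ} (h : RU t U c S) (g : RS t B s)
    (e : p.six = true) : RJ t (ph6 p U B) (p.ph s c) := by
  unfold ph6
  extract_lets r0 r1 r2 r3 r4 r5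
  have h0 : RR t r0 _ c := row_ok p.r0 h
  have h1 : RR t r1 _ c := row_ok p.r1 h
  have h2 : RR t r2 _ c := row_ok p.r2 h
  have h3 : RR t r3 _ c := row_ok p.r3 h
  have h4 : RR t r4 _ c := row_ok p.r4 h
  have h5 : RR t r5 _ c := row_ok p.r5 h
  have e4 : p.q4 = p.r4 := by rw [Pc.q4, e, cond_true]
  have e5 : p.q5 = p.r5 := by rw [Pc.q5, e, cond_true]
  refine ⟨(nrm_ok (add_ok h0.p0.toA (rnd_ok (add_ok (add_ok (add_ok (add_ok (mul_ok h1.p0 g.x)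
    (mul_ok h2.p0 g.x2)) (mul_ok h3.p0 g.x3)) (mul_ok h4.p0 g.x4)) (mul_ok h5.p0 g.x5))))).cast ?_,
    (nrm_ok (add_ok h1.p0.toA (rnd_ok (add_ok (add_ok (add_ok (smul_ok 2 (mul_ok h2.p0 g.x))
    (smul_ok 3 (mul_ok h3.p0 g.x2))) (smul_ok 4 (mul_ok h4.p0 g.x3))) (smul_ok 5 (mul_ok h5.p0
    g.x4)))))).cast ?_, (nrm_ok (add_ok h0.p1.toA (rnd_ok (add_ok (add_ok (add_ok (add_ok (mul_ok
    h1.p1 g.x) (mul_ok h2.p1 g.x2)) (mul_ok h3.p1 g.x3)) (mul_ok h4.p1 g.x4)) (mul_ok h5.p1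
    g.x5))))).cast ?_, (nrm_ok (add_ok (smul_ok 2 h2.p0.toA) (rnd_ok (add_ok (add_ok (smul_ok 6
    (mul_ok h3.p0 g.x)) (smul_ok 12 (mul_ok h4.p0 g.x2))) (smul_ok 20 (mul_ok h5.p0 g.x3)))))).cast
    ?_, (nrm_ok (add_ok h1.p1.toA (rnd_ok (add_ok (add_ok (add_ok (smul_ok 2 (mul_ok h2.p1 g.x))
    (smul_ok 3 (mul_ok h3.p1 g.x2))) (smul_ok 4 (mul_ok h4.p1 g.x3))) (smul_ok 5 (mul_ok h5.p1
    g.x4)))))).cast ?_, (nrm_ok (add_ok h0.p2.toA (rnd_ok (add_ok (add_ok (add_ok (add_ok (mul_ok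
    h1.p2 g.x) (mul_ok h2.p2 g.x2)) (mul_ok h3.p2 g.x3)) (mul_ok h4.p2 g.x4)) (mul_ok h5.p2
    g.x5))))).cast ?_⟩ <;>
    simp only [Pc.ph, cu, cv, e4, e5, Nat.cast_ofNat] <;> ring

def ph (p : Pc) (U : UB) (B : SB) : JB := cond p.six (ph6 p U B) (ph4 p U B)

theorem cond_of {α : Type} {R : α → Prop} {c : Bool} {a b : α} (h : c = true → R a)
    (g : c = false → R b) : R (cond c a b) := by
  cases c
  · exact g rfl
  · exact h rfl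

theorem ph_ok (p : Pc) {U : UB} {B : SB} {s c S : ℝ} (h : RU t U c S) (g : RS t B s) :
    RJ t (ph p U B) (p.ph s c) :=
  cond_of (R := fun J => RJ t J (p.ph s c)) (ph6_ok p h g) (ph4_ok p h g)

def jt (p : Pc) (B : SB) (F : JB) : JB :=
  let wf := nrm (rnd (mul B.w F.t))
  ⟨F.f, nrm (rnd (mul (cN p.hb) (nrm (add (smul 2 F.f.toA) wf.toA)))), F.c, nrm (rnd (mul (cN p.hh)
    (nrm (add (smul 4 F.f.toA) (rnd (add (mul wf B.y5) (mul B.ww F.tt))))))), nrm (rnd (mul (cN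
    p.hb) (nrm (add (smul 2 F.c.toA) (rnd (mul B.w F.tc)))))), F.cc⟩

theorem jt_ok {p : Pc} (o : p.Ok) {B : SB} {F : JB} {s : ℝ} {k : J6} (g : RS t B s)
    (h : RJ t F k) : RJ t (jt p B F) (jh k p.b s) := by
  unfold jt
  extract_lets wf
  have hwf : RN t wf _ := nrm_ok (rnd_ok (mul_ok g.w h.t1))
  exact ⟨h.f, (nrm_ok (rnd_ok (mul_ok (cN_ok _ o.hb) (nrm_ok (add_ok (smul_ok 2 h.f.toA)
    hwf.toA))))).cast (by simp only [jh, J6.th, Nat.cast_ofNat]; ring), h.c, (nrm_ok (rnd_ok (mul_ok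
    (cN_ok _ o.hh) (nrm_ok (add_ok (smul_ok 4 h.f.toA) (rnd_ok (add_ok (mul_ok hwf g.y5) (mul_ok
    g.ww h.tt)))))))).cast (by simp only [jh, J6.th, Nat.cast_ofNat]; ring), (nrm_ok (rnd_ok (mul_ok
    (cN_ok _ o.hb) (nrm_ok (add_ok (smul_ok 2 h.c.toA) (rnd_ok (mul_ok g.w h.tc))))))).cast
    (by simp only [jh, J6.th, Nat.cast_ofNat]; ring), h.cc⟩

end Pool.Agent.MP_815c6c_an.W.Br
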