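import Pool.Agent.MP_815c6c_an.W.Br2

/-! The plateau checks and the certificate on a piece from two covered boxes. -/

set_option autoImplicit false

noncomputable section

namespace Pool.Agent.MP_815c6c_an.W.Br

open KR AA

variable {t : Pt}

/-- `al + be T < c + T f` -/
def xc (x : ℕ × ℕ) (U : UB) (B : SB) (f : N) : Bool :=
  pos (rnd (sub (add (mul B.L U.c) (mul B.a f)) (add (mul (cN x.1) B.L) (mul (cN x.2) B.a))))

def xk (p : Pc) (k : ℕ) (U : UB) (B : SB) (f : N) : Bool :=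
  Option.rec false (fun x => xc x U B f) p.tg[k]?

theorem xk_ok {p : Pc} (o : p.Ok) {k : ℕ} {U : UB} {B : SB} {F : N} {s c S f : ℝ} (h : RU t U c S)
    (g : RS t B s) (e : RN t F f) (s0 : 0 < s) (s1 : s < 1) (H : xk p k U B F = true) :
    p.pl (ts s) < c + ts s * f := by
  unfold xk at H
  cases x : p.tg[k]? with
  | none => rw [x] at H; exact absurd H Bool.false_ne_true
  | some y =>
    rw [x] at H
    have a := pos_ok (rnd_ok (sub_ok (add_ok (mul_ok g.L h.c1) (mul_ok g.a e))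
      (add_ok (mul_ok (nN_ok y.1) g.L) (mul_ok (nN_ok y.2) g.a)))) H
    refine (o.tg y (List.mem_of_getElem? x) _ (ts_pos s0 s1).le).trans_lt ?_
    have l := fl_pos s0 s1
    refine lt_of_mul_lt_mul_left ?_ l.le
    rw [← fa_fl s0 s1]
    field_simp
    linarith

def fLo (p : Pc) (g : Bool) (d l h m i _n _j : ℕ) : Bool :=
  xk p d (ub g m i) (sb l h) (ph p (ub g m i) (sb l h)).f

def fHi (p : Pc) (g : Bool) (_d l h m i _n _j : ℕ) : Bool :=
  let U := ub g m i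
  let B := sb l h
  pos (rnd (sub (mul (cN p.k1) B.L) (add (mul B.L U.c) (mul B.a (ph p U B).f))))

theorem fLo_ok {p : Pc} (o : p.Ok) (g : Bool) (d l h m i n j : ℕ) (H : fLo p g d l h m i n j = true) :
    Cov (fun s u _ => 0 < s → s < 1 → p.pl (ts s) < cs g u + ts s * (p.ph s (cs g u)).f)
      l h m i n j := by
  intro s u P a b c s0 s1
  obtain ⟨t, a1, a2, -⟩ := box_ok a b c
  exact xk_ok o (ub_ok g a2) (sb_ok a1) (ph_ok p (ub_ok g a2) (sb_ok a1)).f s0 s1 H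

theorem fHi_ok (p : Pc) (g : Bool) (d l h m i n j : ℕ) (H : fHi p g d l h m i n j = true) :
    Cov (fun s u _ => 0 < s → s < 1 → cs g u + ts s * (p.ph s (cs g u)).f < nr p.k1)
      l h m i n j := by
  intro s u P a b c s0 s1
  obtain ⟨t, a1, a2, -⟩ := box_ok a b c
  have hU := ub_ok g a2
  have hB := sb_ok a1
  have e := pos_ok (rnd_ok (sub_ok (mul_ok (nN_ok p.k1) hB.L)
    (add_ok (mul_ok hB.L hU.c1) (mul_ok hB.a (ph_ok p hU hB).f)))) H
  have l := fl_pos s0 s1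
  refine lt_of_mul_lt_mul_left ?_ l.le
  rw [← fa_fl s0 s1]
  field_simp
  linarith

/-- the statement covered by the boxes -/
def Pc.G (p : Pc) (g : Bool) (s u P : ℝ) : Prop := 0 < s → s < 1 → 0 ≤ P → P ≤ 60 →
  (s ≤ nr p.s1 ∨ cs g u + ts s * (p.ph s (cs g u)).f ≤ p.pl (ts s)) →
  Key P (qp P) (cs g u) (sn u) (jT (ts s) (jh (p.ph s (cs g u)) p.b s)) (1 / 2 ^ 32 * ts s)

theorem cs_sn (g : Bool) (u : ℝ) : cs g u ^ 2 + sn u ^ 2 = 1 := by
  have : 1 + u * u ≠ 0 := by nlinarith [mul_self_nonneg u]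
  cases g <;> simp only [cs, sn, cond] <;> field_simp <;> ring

theorem ang {c S : ℝ} (h : c ^ 2 + S ^ 2 = 1) (s0 : 0 ≤ S) :
    ∃ g u, In 0 140737488355328 u ∧ c = cs g u ∧ S = sn u := by
  obtain ⟨u, a, b, e, f⟩ := half h s0
  have i : In 0 140737488355328 u := ⟨by push_cast; positivity, by push_cast; linarith⟩
  rcases f with f | f
  · exact ⟨true, u, i, f, e⟩
  · exact ⟨false, u, i, f, e⟩

theorem ang' {c : ℝ} (h : c ^ 2 ≤ 1) : ∃ g u, In 0 140737488355328 u ∧ c = cs g u := by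
  obtain ⟨g, u, a, b, -⟩ := ang (c := c) (S := √(1 - c ^ 2))
    (by rw [Real.sq_sqrt (by linarith)]; ring) (Real.sqrt_nonneg _)
  exact ⟨g, u, a, b⟩

/-- everything except the two big boxes -/
def pre (p : Pc) (a b : ℚ) (H n j : ℕ) (T₁ T₂ T₃ T₄ : Tr) : Bool :=
  p.ok && decide (p.s0 ≤ 2 * H ∧ 2 ≤ a ∧ b ≤ 62 ∧ n ≤ (a - 2) * 2 ^ 48 ∧
    (b - 2) * 2 ^ 48 ≤ n + 2 * j ∧ (p.bn : ℚ) / p.bd < 256 * (a - 1) / 257) &&
  run (fLo p true) T₁ p.s0 0 0 140737488355328 0 0 &&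
  run (fLo p false) T₂ p.s0 0 0 140737488355328 0 0 &&
  run (fHi p true) T₃ p.s1 0 0 140737488355328 0 0 &&
  run (fHi p false) T₄ p.s1 0 0 140737488355328 0 0

/-- the conclusion -/
def Ct (x : ℝ) : Prop := ∃ (q : ℝ) (F : ℝ × ℝ → ℝ) (j : ℝ → ℝ → J6) (κ τ₀ τ₁ C δ e : ℝ),
  q < x - 1 ∧ CertR (x - 2) q F j κ τ₀ τ₁ C δ e

theorem piece (p : Pc) (a b : ℚ) {H n j : ℕ} (T₁ T₂ T₃ T₄ : Tr)
    (h : pre p a b H n j T₁ T₂ T₃ T₄ = true) (c1 : Cov (p.G true) 0 H 0 140737488355328 n j)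
    (c2 : Cov (p.G false) 0 H 0 140737488355328 n j) (x : ℝ) (xa : a ≤ x) (xb : x ≤ b) : Ct x := by
  simp only [pre, Bool.and_eq_true, decide_eq_true_eq] at h
  obtain ⟨⟨⟨⟨⟨o, a1, a2, a3, a4, a5, a6⟩, l1⟩, l2⟩, l3⟩, l4⟩ := h
  have o := Pc.ok_ok o
  have b1 : (p.s0 : ℝ) ≤ 2 * H := by exact_mod_cast a1
  have b2 := (Rat.cast_le (K := ℝ)).2 a2
  have b3 := (Rat.cast_le (K := ℝ)).2 a3
  have b4 := (Rat.cast_le (K := ℝ)).2 a4
  have b5 := (Rat.cast_le (K := ℝ)).2 a5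
  have b6 := (Rat.cast_lt (K := ℝ)).2 a6
  push_cast at b2 b3 b4 b5 b6
  have z : In 0 0 0 := ⟨by simp, by simp⟩
  have pt : ∀ d : ℕ, In d 0 (nr d) := fun d => ⟨by simp [nr], by simp [nr]⟩
  have s0 := o.s1.trans o.s0
  have s1 := o.s0.trans o.s2
  obtain ⟨M, hM⟩ := p.bdd
  have := certR_s2 (P := x - 2) (q := qp (x - 2)) (M := M) (δ := 1 / 2 ^ 32) (φ := p.ph) o.b1.le
    (by unfold qp Pc.b; linarith) o.s1 o.s0 o.s2 o.k1 (by positivity)
    (fun s c a b d => ⟨p.jet s c, hM s c a.le (b.trans o.s2.le) d⟩) (fun c e => ?_) (fun c e => ?_)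
    fun s c S a b d e f => ?_
  · obtain ⟨F, j, κ, τ₀, τ₁, C, δ, e, r⟩ := this
    exact ⟨_, F, j, κ, τ₀, τ₁, C, δ, e, by unfold qp; linarith, r⟩
  · obtain ⟨g, u, i, rfl⟩ := ang' e
    cases g
    · exact run_ok (fLo_ok o false) _ _ _ _ _ _ _ l2 _ u 0 (pt _) i z s0 o.s2
    · exact run_ok (fLo_ok o true) _ _ _ _ _ _ _ l1 _ u 0 (pt _) i z s0 o.s2
  · obtain ⟨g, u, i, rfl⟩ := ang' e
    cases g
    · exact run_ok (fHi_ok p false) _ _ _ _ _ _ _ l4 _ u 0 (pt _) i z o.s1 s1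
    · exact run_ok (fHi_ok p true) _ _ _ _ _ _ _ l3 _ u 0 (pt _) i z o.s1 s1
  · obtain ⟨g, u, i, rfl, rfl⟩ := ang d e
    have i1 : In 0 H s := ⟨by push_cast; positivity, by unfold nr at b; push_cast; linarith⟩
    have i3 : In n j (x - 2) := ⟨by linarith, by linarith⟩
    cases g
    · exact c2 s u _ i1 i i3 a (b.trans_lt o.s2) (by linarith) (by linarith) f
    · exact c1 s u _ i1 i i3 a (b.trans_lt o.s2) (by linarith) (by linarith) f

end Pool.Agent.MP_815c6c_an.W.Br
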