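import Pool.Agent.MP_815c6c_an.W.Br3

/-! The leaves: Taylor models of the coefficients and of the value of the game. -/

set_option autoImplicit false

noncomputable section

namespace Pool.Agent.MP_815c6c_an.W.Br

open KR AA

variable {t : Pt}

structure CB : Type where
  g1 : N
  g2 : N
  r : N
  y11 : N
  y12 : N
  y22 : N
  c11 : N
  c12 : N
  c21 : N
  c22 : N
  z11 : N
  z12 : N
  z22 : N
  y3 : N
  c3 : N
  z3 : N
  E1 : N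
  E2 : N
  G1 : N
  G2 : N
  g12 : N
  D : N
  n2 : N
  a2 : N

structure RC (t : Pt) (n : CB) (m : Co) (P a : ℝ) : Prop where
  g1 : RN t n.g1 m.g1
  g2 : RN t n.g2 m.g2
  r : RN t n.r m.r
  y11 : RN t n.y11 m.y11
  y12 : RN t n.y12 m.y12
  y22 : RN t n.y22 m.y22
  c11 : RN t n.c11 m.c11
  c12 : RN t n.c12 m.c12
  c21 : RN t n.c21 m.c21
  c22 : RN t n.c22 m.c22
  z11 : RN t n.z11 m.z11
  z12 : RN t n.z12 m.z12
  z22 : RN t n.z22 m.z22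
  y3 : RN t n.y3 m.y3
  c3 : RN t n.c3 m.c3
  z3 : RN t n.z3 m.z3
  E1 : ∀ E, (E - m.e1) ^ 2 ≤ (1 / 2 ^ 32) ^ 2 → RN t n.E1 E
  E2 : ∀ E, (E - m.e2) ^ 2 ≤ (1 / 2 ^ 32) ^ 2 → RN t n.E2 E
  G1 : RN t n.G1 (m.g1 * m.g1)
  G2 : RN t n.G2 (m.g2 * m.g2)
  g12 : RN t n.g12 (m.g1 * m.g2)
  D : RN t n.D (m.dl P)
  n2 : RN t n.n2 (m.n2 P)
  a2 : RN t n.a2 (a * a)

theorem wd {x : A} {y E : ℝ} (h : RA t x y) (e : (E - y) ^ 2 ≤ (1 / 2 ^ 32) ^ 2) :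
    RN t (nrm (wid 65536 x)) E := by
  refine nrm_ok (wid_ok _ h ?_)
  have := abs_le_of_sq_le_sq e (by positivity)
  push_cast
  linarith

def cb (U : UB) (B : SB) (X : PB) (J : JB) : CB :=
  let tk := rnd (mul J.t X.k)
  let fr := nrm (add J.f.toA tk)
  let cj := rnd (mul U.c J.c)
  let S2 := nrm (rnd (mul U.S U.S))
  let wv := nrm (sub (rnd (mul S2 J.cc)) cj)
  let ft := nrm (sub J.f.toA J.t.toA)
  let ttk := nrm (rnd (mul J.tt X.k))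
  let tck := nrm (rnd (mul J.tc X.k))
  let lc := mul B.L U.c
  let c3 := nrm (add B.L.toA (rnd (mul B.a J.c)))
  let g1 := nrm (rnd (add lc (mul B.a ft)))
  let g2 := nrm (rnd (mul U.S c3))
  let r := nrm (rnd (add lc (mul B.a fr)))
  let z3 := nrm (sub fr.toA cj)
  let e1 := rnd (add (mul U.c fr) (mul S2 J.c))
  let e2 := rnd (mul U.S z3)
  let y11 := nrm (sub J.tt.toA J.t.toA)
  let y12 := nrm (rnd (neg (mul U.S J.tc)))
  let y22 := nrm (add ft.toA wv.toA)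
  let y3 := nrm (sub ft.toA cj)
  let c11 := nrm (rnd (add lc (mul B.a (nrm (sub (sub fr.toA J.t.toA) ttk.toA)))))
  let c12 := nrm (rnd (mul U.S (nrm (add c3.toA (rnd (mul B.a tck))))))
  let c21 := nrm (rnd (mul U.S (nrm (sub (rnd (mul B.a J.tc)) c3.toA))))
  let c22 := nrm (rnd (sub lc (mul B.a wv)))
  let z11 := nrm (add tk (rnd (mul ttk X.k)))
  let z12 := nrm (rnd (neg (mul U.S tck)))
  let z22 := nrm (add fr.toA wv.toA)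
  let G1 := nrm (rnd (mul g1 g1))
  let G2 := nrm (rnd (mul g2 g2))
  let g12 := nrm (rnd (mul g1 g2))
  let D := nrm (add G1.toA (rnd (mul X.Q G2)))
  let n2 := nrm (rnd (sub (smul 2 (mul y12 g12)) (add (add (mul y11 G2) (mul y22 G1)) (mul D y3))))
  ⟨g1, g2, r, y11, y12, y22, c11, c12, c21, c22, z11, z12, z22, y3, c3, z3, nrm (wid 65536 e1), nrm
    (wid 65536 e2), G1, G2, g12, D, n2, nrm (rnd (mul B.a B.a))⟩

theorem cb_ok {U : UB} {B : SB} {X : PB} {J : JB} {s c S P : ℝ} {j : J6} {m : Co}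
    (hU : RU t U c S) (hB : RS t B s) (hX : RP t X P) (hJ : RJ t J j)
    (e : m = hco (qp P) c S (fl s) (fa s) j) : RC t (cb U B X J) m P (fa s) := by
  unfold cb
  extract_lets tk fr cj S2 wv ft ttk tck lc c3 g1 g2 r z3 e1 e2 y11 y12 y22 y3 c11 c12 c21 c22 z11 z12 z22 G1 G2 g12 D n2
  have htk : RA t tk _ := rnd_ok (mul_ok hJ.t1 hX.k)
  have hfr : RN t fr _ := nrm_ok (add_ok hJ.f.toA htk)
  have hcj : RA t cj _ := rnd_ok (mul_ok hU.c1 hJ.c)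
  have hS2 : RN t S2 _ := nrm_ok (rnd_ok (mul_ok hU.S hU.S))
  have hwv : RN t wv _ := nrm_ok (sub_ok (rnd_ok (mul_ok hS2 hJ.cc)) hcj)
  have hft : RN t ft _ := nrm_ok (sub_ok hJ.f.toA hJ.t1.toA)
  have httk : RN t ttk _ := nrm_ok (rnd_ok (mul_ok hJ.tt hX.k))
  have htck : RN t tck _ := nrm_ok (rnd_ok (mul_ok hJ.tc hX.k))
  have hlc : RW t lc _ := mul_ok hB.L hU.c1
  have hc3 : RN t c3 _ := nrm_ok (add_ok hB.L.toA (rnd_ok (mul_ok hB.a hJ.c)))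
  have hg1 : RN t g1 (m.g1) := (nrm_ok (rnd_ok (add_ok hlc (mul_ok hB.a hft)))).cast
    (by simp only [e, hco])
  have hg2 : RN t g2 (m.g2) := (nrm_ok (rnd_ok (mul_ok hU.S hc3))).cast (by simp only [e, hco])
  have hr : RN t r (m.r) := (nrm_ok (rnd_ok (add_ok hlc (mul_ok hB.a hfr)))).cast
    (by simp only [e, hco]; ring)
  have hz3 : RN t z3 _ := nrm_ok (sub_ok hfr.toA hcj)
  have he1 : RA t e1 (m.e1) := (rnd_ok (add_ok (mul_ok hU.c1 hfr) (mul_ok hS2 hJ.c))).cast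
    (by simp only [e, hco]; ring)
  have he2 : RA t e2 (m.e2) := (rnd_ok (mul_ok hU.S hz3)).cast (by simp only [e, hco]; ring)
  have hy11 : RN t y11 (m.y11) := (nrm_ok (sub_ok hJ.tt.toA hJ.t1.toA)).cast (by simp only [e, hco])
  have hy12 : RN t y12 (m.y12) := (nrm_ok (rnd_ok (neg_ok (mul_ok hU.S hJ.tc)))).cast
    (by simp only [e, hco])
  have hy22 : RN t y22 (m.y22) := (nrm_ok (add_ok hft.toA hwv.toA)).cast
    (by simp only [e, hco]; ring)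
  have hy3 : RN t y3 (m.y3) := (nrm_ok (sub_ok hft.toA hcj)).cast (by simp only [e, hco])
  have hc11 : RN t c11 (m.c11) := (nrm_ok (rnd_ok (add_ok hlc (mul_ok hB.a (nrm_ok (sub_ok (sub_ok
    hfr.toA hJ.t1.toA) httk.toA)))))).cast (by simp only [e, hco]; ring)
  have hc12 : RN t c12 (m.c12) := (nrm_ok (rnd_ok (mul_ok hU.S (nrm_ok (add_ok hc3.toA (rnd_ok
    (mul_ok hB.a htck))))))).cast (by simp only [e, hco]; ring)
  have hc21 : RN t c21 (m.c21) := (nrm_ok (rnd_ok (mul_ok hU.S (nrm_ok (sub_ok (rnd_ok (mul_ok hB.a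
    hJ.tc)) hc3.toA))))).cast (by simp only [e, hco]; ring)
  have hc22 : RN t c22 (m.c22) := (nrm_ok (rnd_ok (sub_ok hlc (mul_ok hB.a hwv)))).cast
    (by simp only [e, hco]; ring)
  have hz11 : RN t z11 (m.z11) := (nrm_ok (add_ok htk (rnd_ok (mul_ok httk hX.k)))).cast
    (by simp only [e, hco]; ring)
  have hz12 : RN t z12 (m.z12) := (nrm_ok (rnd_ok (neg_ok (mul_ok hU.S htck)))).cast
    (by simp only [e, hco]; ring)
  have hz22 : RN t z22 (m.z22) := (nrm_ok (add_ok hfr.toA hwv.toA)).cast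
    (by simp only [e, hco]; ring)
  have hG1 : RN t G1 _ := nrm_ok (rnd_ok (mul_ok hg1 hg1))
  have hG2 : RN t G2 _ := nrm_ok (rnd_ok (mul_ok hg2 hg2))
  have hg12 : RN t g12 _ := nrm_ok (rnd_ok (mul_ok hg1 hg2))
  have hD : RN t D (m.dl P) := (nrm_ok (add_ok hG1.toA (rnd_ok (mul_ok hX.Q hG2)))).cast
    (by simp only [Co.dl]; ring)
  have hn2 : RN t n2 (m.n2 P) := (nrm_ok (rnd_ok (sub_ok (smul_ok 2 (mul_ok hy12 hg12)) (add_ok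
    (add_ok (mul_ok hy11 hG2) (mul_ok hy22 hG1)) (mul_ok hD hy3))))).cast
    (by simp only [Co.n2, Co.yy, Nat.cast_ofNat]; ring)
  exact ⟨hg1, hg2, hr, hy11, hy12, hy22, hc11, hc12, hc21, hc22, hz11, hz12, hz22, hy3, hc3.cast
    (by simp only [e, hco]), hz3.cast (by simp only [e, hco]; ring), fun _ => wd he1, fun _ => wd
    he2, hG1, hG2, hg12, hD, hn2, nrm_ok (rnd_ok (mul_ok hB.a hB.a))⟩

theorem k36 : RA t (cst 68719476736) (1 / 2 ^ 12) := cst_ok _ (by norm_num) (by norm_num)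
theorem n36 : RN t (cN 68719476736) (1 / 2 ^ 12) := cN_ok _ (by norm_num)
theorem k17 : RA t (cst 131072) (1 / 2 ^ 31) := cst_ok _ (by norm_num) (by norm_num)

/-- the entries outside the blocks -/
def oc (kk : ℕ) (X : PB) (n : CB) : Bool :=
  let K := cN (Nat.shiftLeft 1 (Nat.add 44 kk))
  let u := nrm (add (add n.y11.toA (cst 68719476736)) (rnd (mul X.Q n.y3)))
  let v := nrm (add n.y22.toA n.y3.toA)
  let x := nrm (sub n.n2.toA (rnd (mul (cN 68719476736) n.G2)))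
  and (Nat.blt kk 20) (and (pos n.c3.toA) (and (pos (sub (rnd (mul K n.G1)) u.toA)) (and (pos (sub
    (rnd (mul K n.G2)) v.toA)) (pos (rnd (sub (add (mul K x) (mul u v)) (mul n.y12 n.y12)))))))

theorem oc_ok {kk : ℕ} {X : PB} {n : CB} {k m : Co} {P a : ℝ} (hX : RP t X P) (h : RC t n m P a)
    (sc : Sc k m a 1) (a0 : 0 < a) (a1 : a ≤ 2) (p0 : 0 ≤ P) (p1 : P ≤ 60) :
    oc kk X n = true → 0 < m.c3 ∧ Out k P (1 / 2 ^ 32 * a) (1 / 2 ^ 40 * a) := by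
  unfold oc
  extract_lets K u v x
  intro H
  simp only [Bool.and_eq_true] at H
  obtain ⟨b0, b1, b2, b3, b4⟩ := H
  have hK : RN t K _ := nN_ok _
  have hu : RN t u _ := nrm_ok (add_ok (add_ok h.y11.toA k36) (rnd_ok (mul_ok hX.Q h.y3)))
  have hv : RN t v _ := nrm_ok (add_ok h.y22.toA h.y3.toA)
  have hx : RN t x _ := nrm_ok (sub_ok h.n2.toA (rnd_ok (mul_ok n36 h.G2)))
  have d1 := pos_ok h.c3.toA b1
  have d2 := pos_ok (sub_ok (rnd_ok (mul_ok hK h.G1)) hu.toA) b2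
  have d3 := pos_ok (sub_ok (rnd_ok (mul_ok hK h.G2)) hv.toA) b3
  have d4 := pos_ok (rnd_ok (sub_ok (add_ok (mul_ok hK hx) (mul_ok hu hv)) (mul_ok h.y12 h.y12))) b4
  have k0 : 0 ≤ nr (Nat.shiftLeft 1 (Nat.add 44 kk)) := by unfold nr; positivity
  have k1 : nr (Nat.shiftLeft 1 (Nat.add 44 kk)) ≤ 2 ^ 15 := by
    have e : Nat.shiftLeft 1 (Nat.add 44 kk) ≤ 2 ^ 63 := by
      have := Nat.blt_eq ▸ b0
      exact (Nat.one_shiftLeft _).le.trans (Nat.pow_le_pow_right (by norm_num) (by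
        show 44 + kk ≤ 63
        omega))
    have : ((Nat.shiftLeft 1 (Nat.add 44 kk) : ℕ) : ℝ) ≤ 2 ^ 63 := by exact_mod_cast e
    unfold nr
    linarith
  generalize nr (Nat.shiftLeft 1 (Nat.add 44 kk)) = κ at d2 d3 d4 k0 k1
  refine ⟨d1, out_of sc a0 one_pos P _ _ κ (1 / 2 ^ 12) (by positivity) k0
    (by linear_combination d2.le) (by linear_combination d3.le) (by linear_combination d4.le) ?_⟩
  have e1 : κ * a ^ 2 ≤ 2 ^ 15 * 4 := mul_le_mul k1 (by nlinarith) (sq_nonneg a) (by positivity)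
  have e2 : P ^ 2 ≤ 3600 := by nlinarith
  linarith

/-- minus the value at `β` for `e = 0`, with the margin -/
def wv (m : Co) (P a E₁ E₂ y₁ y₂ a₁ a₃ x β : ℝ) : ℝ :=
  -(m.dt a (E₂ + β * m.g2) (-((1 + P) * E₁ + β * m.g1)) y₁ y₂ + (1 + P) * m.dt a E₁ E₂ a₁ a₃ +
    m.dl P * (a ^ 2 * m.y3 * β ^ 2 - 2 * m.c3 * β + m.z3 + 1 / 2 ^ 31) + x -
    2 * P * a * E₂ * ((1 + P) * m.g2 * E₁ + m.g1 * E₂ + β * m.g1 * m.g2))
/-- the slope -/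
def bv (m : Co) (P a E₁ E₂ y₁ y₂ β : ℝ) : ℝ :=
  2 * a ^ 2 * ((m.y11 * m.g2 - m.y12 * m.g1) * (E₂ + β * m.g2) -
      (m.y12 * m.g2 - m.y22 * m.g1) * ((1 + P) * E₁ + β * m.g1)) +
    2 * m.cc m.g2 (-m.g1) y₁ y₂ + m.dl P * (2 * a ^ 2 * m.y3 * β - 2 * m.c3) -
    2 * P * a * E₂ * (m.g1 * m.g2)

def wb (B : SB) (X : PB) (n : CB) (y1 y2 a1 a3 : N) (x0 : A) (be : N) : A × A :=
  let QE := nrm (rnd (mul X.Q n.E1))
  let x1 := nrm (add n.E2.toA (rnd (mul be n.g2)))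
  let x2 := nrm (neg (add QE.toA (rnd (mul be n.g1))))
  let C1 := rnd (add (mul n.c11 y1) (mul n.c21 y2))
  let C2 := rnd (add (mul n.c12 y1) (mul n.c22 y2))
  let H1 := add (rnd (mul n.a2 (nrm (rnd (add (mul n.y11 x1) (mul n.y12 x2)))))) C1
  let H2 := add (rnd (mul n.a2 (nrm (rnd (add (mul n.y12 x1) (mul n.y22 x2)))))) C2
  let F1 := nrm (rnd (add (mul n.a2 (nrm (rnd (add (mul n.y11 n.E1) (mul n.y12 n.E2))))) (smul 2
    (add (mul n.c11 a1) (mul n.c21 a3)))))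
  let F2 := nrm (rnd (add (mul n.a2 (nrm (rnd (add (mul n.y12 n.E1) (mul n.y22 n.E2))))) (smul 2
    (add (mul n.c12 a1) (mul n.c22 a3)))))
  let Z1 := nrm (rnd (add (mul n.z11 y1) (mul n.z12 y2)))
  let Z2 := nrm (rnd (add (mul n.z12 y1) (mul n.z22 y2)))
  let Z3 := nrm (rnd (add (mul n.z11 a1) (mul n.z12 a3)))
  let Z4 := nrm (rnd (add (mul n.z12 a1) (mul n.z22 a3)))
  let q := nrm (rnd (add (add (add (mul n.E1 F1) (mul n.E2 F2)) (mul a1 Z3)) (mul a3 Z4)))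
  let PT := nrm (rnd (smul 2 (mul X.P (nrm (rnd (mul B.a n.E2))))))
  let yc := sub (rnd (mul (nrm (rnd (mul n.a2 n.y3))) be)) n.c3.toA
  let dd := nrm (add (add n.z3.toA (cst 131072)) (rnd (mul (nrm (sub yc n.c3.toA)) be)))
  let pp := nrm (rnd (add (add (mul n.g2 QE) (mul n.g1 n.E2)) (mul be n.g12)))
  (rnd (sub (mul PT pp) (add (add (add (add (add (add (mul x1 (nrm (add H1 C1))) (mul x2 (nrm (add
    H2 C2)))) (mul y1 Z1)) (mul y2 Z2)) (mul X.Q q)) (mul n.D dd)) x0)), rnd (sub (smul 2 (add (mul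
    n.g2 (nrm H1)) (mul n.D (nrm yc)))) (add (smul 2 (mul n.g1 (nrm H2))) (mul PT n.g12))))

theorem wb_ok {B : SB} {X : PB} {n : CB} {y1 y2 a1 a3 be : N} {x0 : A} {m : Co}
    {s P E₁ E₂ y₁ y₂ a₁ a₃ x β : ℝ} (hB : RS t B s) (hX : RP t X P) (h : RC t n m P (fa s))
    (h1 : RN t n.E1 E₁) (h2 : RN t n.E2 E₂) (hy1 : RN t y1 y₁) (hy2 : RN t y2 y₂)
    (ha1 : RN t a1 a₁) (ha3 : RN t a3 a₃) (hx0 : RW t x0 x) (hbe : RN t be β) :
    RA t (wb B X n y1 y2 a1 a3 x0 be).1 (wv m P (fa s) E₁ E₂ y₁ y₂ a₁ a₃ x β) ∧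
      RA t (wb B X n y1 y2 a1 a3 x0 be).2 (bv m P (fa s) E₁ E₂ y₁ y₂ β) := by
  unfold wb
  extract_lets QE x1 x2 C1 C2 H1 H2 F1 F2 Z1 Z2 Z3 Z4 q PT yc dd pp
  have hQE : RN t QE _ := nrm_ok (rnd_ok (mul_ok hX.Q h1))
  have hx1 : RN t x1 _ := nrm_ok (add_ok h2.toA (rnd_ok (mul_ok hbe h.g2)))
  have hx2 : RN t x2 _ := nrm_ok (neg_ok (add_ok hQE.toA (rnd_ok (mul_ok hbe h.g1))))
  have hC1 : RA t C1 _ := rnd_ok (add_ok (mul_ok h.c11 hy1) (mul_ok h.c21 hy2))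
  have hC2 : RA t C2 _ := rnd_ok (add_ok (mul_ok h.c12 hy1) (mul_ok h.c22 hy2))
  have hH1 : RA t H1 _ := add_ok (rnd_ok (mul_ok h.a2 (nrm_ok (rnd_ok (add_ok (mul_ok h.y11 hx1)
    (mul_ok h.y12 hx2)))))) hC1
  have hH2 : RA t H2 _ := add_ok (rnd_ok (mul_ok h.a2 (nrm_ok (rnd_ok (add_ok (mul_ok h.y12 hx1)
    (mul_ok h.y22 hx2)))))) hC2
  have hF1 : RN t F1 _ := nrm_ok (rnd_ok (add_ok (mul_ok h.a2 (nrm_ok (rnd_ok (add_ok (mul_ok h.y11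
    h1) (mul_ok h.y12 h2))))) (smul_ok 2 (add_ok (mul_ok h.c11 ha1) (mul_ok h.c21 ha3)))))
  have hF2 : RN t F2 _ := nrm_ok (rnd_ok (add_ok (mul_ok h.a2 (nrm_ok (rnd_ok (add_ok (mul_ok h.y12
    h1) (mul_ok h.y22 h2))))) (smul_ok 2 (add_ok (mul_ok h.c12 ha1) (mul_ok h.c22 ha3)))))
  have hZ1 : RN t Z1 _ := nrm_ok (rnd_ok (add_ok (mul_ok h.z11 hy1) (mul_ok h.z12 hy2)))
  have hZ2 : RN t Z2 _ := nrm_ok (rnd_ok (add_ok (mul_ok h.z12 hy1) (mul_ok h.z22 hy2)))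
  have hZ3 : RN t Z3 _ := nrm_ok (rnd_ok (add_ok (mul_ok h.z11 ha1) (mul_ok h.z12 ha3)))
  have hZ4 : RN t Z4 _ := nrm_ok (rnd_ok (add_ok (mul_ok h.z12 ha1) (mul_ok h.z22 ha3)))
  have hq : RN t q _ := nrm_ok (rnd_ok (add_ok (add_ok (add_ok (mul_ok h1 hF1) (mul_ok h2 hF2))
    (mul_ok ha1 hZ3)) (mul_ok ha3 hZ4)))
  have hPT : RN t PT _ := nrm_ok (rnd_ok (smul_ok 2 (mul_ok hX.P1 (nrm_ok (rnd_ok (mul_ok hB.a
    h2))))))
  have hyc : RA t yc _ := sub_ok (rnd_ok (mul_ok (nrm_ok (rnd_ok (mul_ok h.a2 h.y3))) hbe)) h.c3.toA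
  have hdd : RN t dd _ := nrm_ok (add_ok (add_ok h.z3.toA k17) (rnd_ok (mul_ok (nrm_ok (sub_ok hyc
    h.c3.toA)) hbe)))
  have hpp : RN t pp _ := nrm_ok (rnd_ok (add_ok (add_ok (mul_ok h.g2 hQE) (mul_ok h.g1 h2)) (mul_ok
    hbe h.g12)))
  exact ⟨(rnd_ok (sub_ok (mul_ok hPT hpp) (add_ok (add_ok (add_ok (add_ok (add_ok (add_ok (mul_ok
    hx1 (nrm_ok (add_ok hH1 hC1))) (mul_ok hx2 (nrm_ok (add_ok hH2 hC2)))) (mul_ok hy1 hZ1)) (mul_ok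
    hy2 hZ2)) (mul_ok hX.Q hq)) (mul_ok h.D hdd)) hx0))).cast
    (by simp only [wv, Co.dt, Co.yy, Co.cc, Co.zz, Nat.cast_ofNat]; ring), (rnd_ok (sub_ok (smul_ok
    2 (add_ok (mul_ok h.g2 (nrm_ok hH1)) (mul_ok h.D (nrm_ok hyc)))) (add_ok (smul_ok 2 (mul_ok h.g1
    (nrm_ok hH2))) (mul_ok hPT h.g12)))).cast (by simp only [bv, Co.cc, Nat.cast_ofNat]; ring)⟩

theorem cond_or {c a b : Bool} (h : cond c a b = true) : a = true ∨ b = true := by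
  cases c
  · exact Or.inr h
  · exact Or.inl h

def disc (W B : A) (C : N) : Bool := pos (rnd (sub (mul (nrm W) C) (mul (nrm B) (nrm B))))

theorem disc_ok {W B : A} {C : N} {w b c : ℝ} (hW : RA t W w) (hB : RA t B b) (hC : RN t C (4 * c))
    (H : disc W B C = true) : b ^ 2 ≤ 4 * w * c ∧ 0 < w * c := by
  have := pos_ok (rnd_ok (sub_ok (mul_ok (nrm_ok hW) hC) (mul_ok (nrm_ok hB) (nrm_ok hB)))) H
  exact ⟨by linarith, by nlinarith [mul_self_nonneg b]⟩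

/-- all `β` from one point, with `e` or with `± e` -/
def sd (md : Bool) (n : CB) (W V : A) (e be : N) : Bool :=
  let kk := rnd (smul 2 (mul e (nrm (rnd (mul n.D (nrm (sub (rnd (mul n.c3 be)) n.z3.toA)))))))
  let dc := rnd (smul 2 (mul e (nrm (rnd (mul n.D n.c3)))))
  let C := nrm (rnd (smul 4 (mul n.a2 n.n2)))
  let W2 := sub W kk
  let V2 := add V dc
  let W1 := add W kk
  let V1 := sub V dc
  and (pos n.D.toA) (and (pos n.n2.toA) (cond md (disc W2 V2 C) (and (pos W1) (and (pos W2)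
    (and (or (pos (neg V1)) (disc W1 V1 C)) (or (pos V2) (disc W2 V2 C)))))))

theorem sd_ok {md : Bool} {n : CB} {W V : A} {e be : N} {m : Co} {P a w v ε β : ℝ}
    (h : RC t n m P a) (hW : RA t W w) (hV : RA t V v) (he : RN t e ε) (hbe : RN t be β) :
    sd md n W V e be = true → 0 < m.dl P ∧ ∀ x : ℝ, ∃ η : ℝ, η ^ 2 = ε * ε ∧
      (v + 2 * (η * (m.dl P * m.c3))) * x ≤
        w - 2 * (η * (m.dl P * (m.c3 * β - m.z3))) + a ^ 2 * m.n2 P * x ^ 2 := by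
  unfold sd
  extract_lets kk dc C W2 V2 W1 V1
  intro H
  simp only [Bool.and_eq_true] at H
  obtain ⟨b1, b2, b3⟩ := H
  have hkk : RA t kk (2 * (ε * (m.dl P * (m.c3 * β - m.z3)))) := (rnd_ok (smul_ok 2 (mul_ok he
    (nrm_ok (rnd_ok (mul_ok h.D (nrm_ok (sub_ok (rnd_ok (mul_ok h.c3 hbe)) h.z3.toA)))))))).cast
    (by push_cast; rfl)
  have hdc : RA t dc (2 * (ε * (m.dl P * m.c3))) := (rnd_ok (smul_ok 2 (mul_ok he (nrm_ok (rnd_ok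
    (mul_ok h.D h.c3)))))).cast (by push_cast; rfl)
  have hC : RN t C (4 * (a ^ 2 * m.n2 P)) := (nrm_ok (rnd_ok (smul_ok 4 (mul_ok h.a2 h.n2)))).cast
    (by push_cast; ring)
  have hW2 : RA t W2 _ := sub_ok hW hkk
  have hV2 : RA t V2 _ := add_ok hV hdc
  have hW1 : RA t W1 _ := add_ok hW hkk
  have hV1 : RA t V1 _ := sub_ok hV hdc
  have c0 : 0 ≤ a ^ 2 * m.n2 P := mul_nonneg (sq_nonneg a) (pos_ok h.n2.toA b2).le
  refine ⟨pos_ok h.D.toA b1, fun x => ?_⟩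
  rcases (cond_or b3).symm with b3 | b3
  · simp only [Bool.and_eq_true, Bool.or_eq_true] at b3
    obtain ⟨c1, c2, c3, c4⟩ := b3
    rcases le_total 0 x with hx | hx
    · have := quad_half _ _ _ x (pos_ok hW1 c1).le c0 hx (c3.imp
        (fun y => (neg_pos.1 (pos_ok (neg_ok hV1) y)).le) fun y => (disc_ok hW1 hV1 hC y).1)
      exact ⟨-ε, by ring, by linear_combination this⟩
    · have := quad_half _ _ _ (-x) (pos_ok hW2 c2).le c0 (neg_nonneg.2 hx) (c4.imp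
        (fun y => neg_nonpos.2 (pos_ok hV2 y).le)
        fun y => (neg_sq _).le.trans (disc_ok hW2 hV2 hC y).1)
      exact ⟨ε, by ring, by linear_combination this⟩
  · obtain ⟨c1, c2⟩ := disc_ok hW2 hV2 hC b3
    have := psd _ (-(v + 2 * (ε * (m.dl P * m.c3))) / 2) _ 1 x (pos_of_mul_pos_left c2 c0).le c0
      (by linear_combination c1 / 4)
    exact ⟨ε, by ring, by linear_combination this⟩

theorem vt_eq (m : Co) (P c S a E₁ E₂ γ₁ γ₂ ω₁ ω₂ σ β β₀ η : ℝ) :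
    m.vt P c S a 1 E₁ E₂ γ₁ γ₂ ω₁ ω₂ σ β η =
      (bv m P a E₁ E₂ (ω₁ - (S * m.g1 - (1 + P) * c * m.g2)) (ω₂ - (c * m.g1 + (1 + P) * S * m.g2)) β₀ +
        2 * (η * (m.dl P * m.c3))) * (β - β₀) -
      (wv m P a E₁ E₂ (ω₁ - (S * m.g1 - (1 + P) * c * m.g2)) (ω₂ - (c * m.g1 + (1 + P) * S * m.g2))
        (γ₁ - (c * m.g1 + S * m.g2)) (γ₂ - (c * m.g2 - S * m.g1)) (m.z3 * σ) β₀ -
        2 * (η * (m.dl P * (m.c3 * β₀ - m.z3))) + a ^ 2 * m.n2 P * (β - β₀) ^ 2) -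
      1 / 2 ^ 31 * m.dl P := by
  simp only [Co.vt, wv, bv, Co.n2, Co.dt, Co.yy, Co.cc, Co.zz]
  ring

def dat (d k : ℕ) : N := nrm (aff 31 (fld d k))
theorem dat_ok (t : Pt) (d k : ℕ) : ∃ z, RN t (dat d k) z :=
  (aff_ok t 31 (fld d k)).imp fun _ => nrm_ok

def lfA (md : Bool) (d : ℕ) (U : UB) (B : SB) (X : PB) (n : CB) : Bool :=
  let u := dat d 1
  let v := dat d 2
  let e := dat d 3
  let be := dat d 4
  let QV := nrm (rnd (mul X.Q v))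
  let Qg := nrm (rnd (mul X.Q n.g2))
  let y1 := nrm (rnd (sub (add (mul QV n.r) (mul U.c Qg)) (add (mul u n.g2) (mul U.S n.g1))))
  let y2 := nrm (rnd (neg (add (add (add (mul QV n.g2) (mul u n.r)) (mul U.c n.g1)) (mul U.S Qg))))
  let a1 := nrm (rnd (sub (add (mul u n.r) (mul v n.g2)) (add (mul U.c n.g1) (mul U.S n.g2))))
  let a3 := nrm (rnd (sub (add (mul v n.r) (mul U.S n.g1)) (add (mul u n.g2) (mul U.c n.g2))))
  let sg := nrm (rnd (mul (nrm (rnd (add (mul u u) (mul QV v)))) (nrm (add n.G2.toA (rnd (mul n.r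
    n.r))))))
  let W := wb B X n y1 y2 a1 a3 (mul n.z3 sg) be
  and (pos (sub sg.toA (rnd (mul (nrm (rnd (mul e e))) n.D)))) (sd md n W.1 W.2 e be)

theorem lfA_ok {md : Bool} {d : ℕ} {U : UB} {B : SB} {X : PB} {n : CB} {k m : Co} {s c S P : ℝ}
    (hU : RU t U c S) (hB : RS t B s) (hX : RP t X P) (h : RC t n m P (fa s))
    (sc : Sc k m (fa s) 1) (a0 : 0 < fa s) : lfA md d U B X n = true →
    Blk k P c S (1 / 2 ^ 32 * fa s) ((1 / 2 ^ 32 + 1 / 2 ^ 40) * fa s) := by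
  unfold lfA
  extract_lets u v e be QV Qg y1 y2 a1 a3 sg W
  intro H
  obtain ⟨b1, b2⟩ := Bool.and_eq_true_iff.1 H
  obtain ⟨u₀, hu : RN t u u₀⟩ := dat_ok t d 1
  obtain ⟨v₀, hv : RN t v v₀⟩ := dat_ok t d 2
  obtain ⟨ε, he : RN t e ε⟩ := dat_ok t d 3
  obtain ⟨β₀, hbe : RN t be β₀⟩ := dat_ok t d 4
  have hQV : RN t QV _ := nrm_ok (rnd_ok (mul_ok hX.Q hv))
  have hQg : RN t Qg _ := nrm_ok (rnd_ok (mul_ok hX.Q h.g2))
  have hy1 : RN t y1 ((1 + P) * v₀ * m.r - u₀ * (1 * m.g2) - (S * m.g1 - (1 + P) * c * m.g2)) :=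
    (nrm_ok (rnd_ok (sub_ok (add_ok (mul_ok hQV h.r) (mul_ok hU.c1 hQg)) (add_ok (mul_ok hu h.g2)
    (mul_ok hU.S h.g1))))).cast (by ring)
  have hy2 : RN t y2 (-((1 + P) * v₀ * (1 * m.g2)) - u₀ * m.r - (c * m.g1 + (1 + P) * S * m.g2)) :=
    (nrm_ok (rnd_ok (neg_ok (add_ok (add_ok (add_ok (mul_ok hQV h.g2) (mul_ok hu h.r)) (mul_ok hU.c1
    h.g1)) (mul_ok hU.S hQg))))).cast (by ring)
  have ha1 : RN t a1 (u₀ * m.r + v₀ * (1 * m.g2) - (c * m.g1 + S * m.g2)) := (nrm_ok (rnd_ok (sub_ok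
    (add_ok (mul_ok hu h.r) (mul_ok hv h.g2)) (add_ok (mul_ok hU.c1 h.g1) (mul_ok hU.S
    h.g2))))).cast (by ring)
  have ha3 : RN t a3 (v₀ * m.r - u₀ * (1 * m.g2) - (c * m.g2 - S * m.g1)) := (nrm_ok (rnd_ok (sub_ok
    (add_ok (mul_ok hv h.r) (mul_ok hU.S h.g1)) (add_ok (mul_ok hu h.g2) (mul_ok hU.c1
    h.g2))))).cast (by ring)
  have hsg : RN t sg ((u₀ ^ 2 + (1 + P) * v₀ ^ 2) * (m.r ^ 2 + (1 * m.g2) ^ 2)) := (nrm_ok (rnd_ok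
    (mul_ok (nrm_ok (rnd_ok (add_ok (mul_ok hu hu) (mul_ok hQV hv)))) (nrm_ok (add_ok h.G2.toA
    (rnd_ok (mul_ok h.r h.r))))))).cast (by ring)
  have c1 := pos_ok (sub_ok hsg.toA (rnd_ok (mul_ok (nrm_ok (rnd_ok (mul_ok he he))) h.D))) b1
  have c2 := fun E₁ E₂ h1 h2 => (fun w => sd_ok h w.1 w.2 he hbe b2)
    (wb_ok hB hX h (h.E1 E₁ h1) (h.E2 E₂ h2) hy1 hy2 ha1 ha3 (mul_ok h.z3 hsg) hbe)
  have d0 := (c2 m.e1 m.e2 (by simp) (by simp)).1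
  refine blk_A sc a0 one_pos P c S _ _ d0 fun E₁ E₂ β h1 h2 => ?_
  obtain ⟨η, e1, e2⟩ := (c2 E₁ E₂ h1 h2).2 (β - β₀)
  refine ⟨u₀, v₀, η, by rw [e1]; linarith, ?_⟩
  rw [Co.va, vt_eq _ _ _ _ _ _ _ _ _ _ _ _ _ β₀]
  linarith

def zz (n : CB) (a b : N) : A :=
  add (mul a (nrm (rnd (add (mul n.z11 a) (smul 2 (mul n.z12 b)))))) (mul n.z22 (nrm (rnd (mul b b))))

theorem zz_ok {n : CB} {m : Co} {P a x y : ℝ} {u v : N} (h : RC t n m P a) (hu : RN t u x)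
    (hv : RN t v y) : RW t (zz n u v) (m.zz x y) :=
  (add_ok (mul_ok hu (nrm_ok (rnd_ok (add_ok (mul_ok h.z11 hu) (smul_ok 2 (mul_ok h.z12 hv))))))
    (mul_ok h.z22 (nrm_ok (rnd_ok (mul_ok hv hv))))).cast
    (by simp only [Co.zz, Nat.cast_ofNat]; ring)

def lfB (md : Bool) (d : ℕ) (U : UB) (B : SB) (X : PB) (n : CB) : Bool :=
  let a1 := dat d 1
  let a3 := dat d 2
  let b1 := dat d 3
  let b2 := dat d 4
  let u := dat d 5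
  let ze := dat d 6
  let e := dat d 7
  let be := dat d 8
  let Q1 := nrm (rnd (mul X.Q a1))
  let Q2 := nrm (rnd (mul X.Q a3))
  let Qg := nrm (rnd (mul X.Q n.g2))
  let p1 := nrm (sub u.toA (rnd (add (mul Q1 a1) (mul b1 b1))))
  let p2 := nrm (sub u.toA (rnd (add (mul Q2 a3) (mul b2 b2))))
  let p3 := nrm (rnd (add (mul Q1 a3) (mul b1 b2)))
  let q1 := nrm (sub ze.toA n.z11.toA)
  let q2 := nrm (sub ze.toA n.z22.toA)
  let y1 := nrm (rnd (sub (add (mul n.g1 b1) (mul U.c Qg)) (add (mul Qg a1) (mul U.S n.g1))))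
  let y2 := nrm (rnd (sub (mul n.g1 b2) (add (add (mul Qg a3) (mul U.c n.g1)) (mul U.S Qg))))
  let x1 := nrm (rnd (sub (add (mul n.g1 a1) (mul n.g2 b1)) (add (mul U.c n.g1) (mul U.S n.g2))))
  let x3 := nrm (rnd (sub (add (add (mul n.g1 a3) (mul n.g2 b2)) (mul U.S n.g1)) (mul U.c n.g2)))
  let tr := nrm (add (add (add n.z3.toA n.z11.toA) n.z22.toA) (rnd (mul X.P ze)))
  let x0 := nrm (rnd (sub (mul u tr) (add (mul X.Q (nrm (rnd (zz n a1 a3)))) (zz n b1 b2))))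
  let W := wb B X n y1 y2 x1 x3 (mul n.D x0) be
  and (pos p1.toA) (and (pos p2.toA) (and (pos (rnd (sub (mul p1 p2) (mul p3 p3)))) (and (pos
    q1.toA) (and (pos q2.toA) (and (pos (rnd (sub (mul q1 q2) (mul n.z12 n.z12)))) (and (pos (sub
    u.toA (rnd (mul e e)))) (sd md n W.1 W.2 e be)))))))

theorem lfB_ok {md : Bool} {d : ℕ} {U : UB} {B : SB} {X : PB} {n : CB} {k m : Co} {s c S P : ℝ}
    (hU : RU t U c S) (hB : RS t B s) (hX : RP t X P) (h : RC t n m P (fa s))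
    (sc : Sc k m (fa s) 1) (a0 : 0 < fa s) (p0 : 0 ≤ P) : lfB md d U B X n = true →
    Blk k P c S (1 / 2 ^ 32 * fa s) ((1 / 2 ^ 32 + 1 / 2 ^ 40) * fa s) := by
  unfold lfB
  extract_lets a1 a3 b1 b2 u ze e be Q1 Q2 Qg p1 p2 p3 q1 q2 y1 y2 x1 x3 tr x0 W
  intro H
  simp only [Bool.and_eq_true] at H
  obtain ⟨f1, f2, f3, f4, f5, f6, f7, f8⟩ := H
  obtain ⟨a₁, ha1 : RN t a1 a₁⟩ := dat_ok t d 1
  obtain ⟨a₂, ha3 : RN t a3 a₂⟩ := dat_ok t d 2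
  obtain ⟨b₁, hb1 : RN t b1 b₁⟩ := dat_ok t d 3
  obtain ⟨b₂, hb2 : RN t b2 b₂⟩ := dat_ok t d 4
  obtain ⟨σ, hu : RN t u σ⟩ := dat_ok t d 5
  obtain ⟨ζ, hze : RN t ze ζ⟩ := dat_ok t d 6
  obtain ⟨ε, he : RN t e ε⟩ := dat_ok t d 7
  obtain ⟨β₀, hbe : RN t be β₀⟩ := dat_ok t d 8
  have hQ1 : RN t Q1 _ := nrm_ok (rnd_ok (mul_ok hX.Q ha1))
  have hQ2 : RN t Q2 _ := nrm_ok (rnd_ok (mul_ok hX.Q ha3))
  have hQg : RN t Qg _ := nrm_ok (rnd_ok (mul_ok hX.Q h.g2))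
  have hp1 : RN t p1 _ := nrm_ok (sub_ok hu.toA (rnd_ok (add_ok (mul_ok hQ1 ha1) (mul_ok hb1 hb1))))
  have hp2 : RN t p2 _ := nrm_ok (sub_ok hu.toA (rnd_ok (add_ok (mul_ok hQ2 ha3) (mul_ok hb2 hb2))))
  have hp3 : RN t p3 _ := nrm_ok (rnd_ok (add_ok (mul_ok hQ1 ha3) (mul_ok hb1 hb2)))
  have hq1 : RN t q1 _ := nrm_ok (sub_ok hze.toA h.z11.toA)
  have hq2 : RN t q2 _ := nrm_ok (sub_ok hze.toA h.z22.toA)
  have hy1 : RN t y1 (m.g1 * b₁ - (1 + P) * m.g2 * a₁ - (S * m.g1 - (1 + P) * c * m.g2)) := (nrm_ok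
    (rnd_ok (sub_ok (add_ok (mul_ok h.g1 hb1) (mul_ok hU.c1 hQg)) (add_ok (mul_ok hQg ha1) (mul_ok
    hU.S h.g1))))).cast (by ring)
  have hy2 : RN t y2 (m.g1 * b₂ - (1 + P) * m.g2 * a₂ - (c * m.g1 + (1 + P) * S * m.g2)) := (nrm_ok
    (rnd_ok (sub_ok (mul_ok h.g1 hb2) (add_ok (add_ok (mul_ok hQg ha3) (mul_ok hU.c1 h.g1)) (mul_ok
    hU.S hQg))))).cast (by ring)
  have hx1 : RN t x1 (m.g1 * a₁ + m.g2 * b₁ - (c * m.g1 + S * m.g2)) := (nrm_ok (rnd_ok (sub_ok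
    (add_ok (mul_ok h.g1 ha1) (mul_ok h.g2 hb1)) (add_ok (mul_ok hU.c1 h.g1) (mul_ok hU.S
    h.g2))))).cast (by ring)
  have hx3 : RN t x3 (m.g1 * a₂ + m.g2 * b₂ - (c * m.g2 - S * m.g1)) := (nrm_ok (rnd_ok (sub_ok
    (add_ok (add_ok (mul_ok h.g1 ha3) (mul_ok h.g2 hb2)) (mul_ok hU.S h.g1)) (mul_ok hU.c1
    h.g2)))).cast (by ring)
  have htr : RN t tr _ := nrm_ok (add_ok (add_ok (add_ok h.z3.toA h.z11.toA) h.z22.toA) (rnd_ok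
    (mul_ok hX.P1 hze)))
  have hx0 : RN t x0 _ := nrm_ok (rnd_ok (sub_ok (mul_ok hu htr) (add_ok (mul_ok hX.Q (nrm_ok
    (rnd_ok (zz_ok h ha1 ha3)))) (zz_ok h hb1 hb2))))
  have d1 := pos_ok hp1.toA f1
  have d2 := pos_ok hp2.toA f2
  have d3 := pos_ok (rnd_ok (sub_ok (mul_ok hp1 hp2) (mul_ok hp3 hp3))) f3
  have d4 := pos_ok hq1.toA f4
  have d5 := pos_ok hq2.toA f5
  have d6 := pos_ok (rnd_ok (sub_ok (mul_ok hq1 hq2) (mul_ok h.z12 h.z12))) f6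
  have d7 := pos_ok (sub_ok hu.toA (rnd_ok (mul_ok he he))) f7
  have c2 := fun E₁ E₂ h1 h2 => (fun w => sd_ok h w.1 w.2 he hbe f8)
    (wb_ok hB hX h (h.E1 E₁ h1) (h.E2 E₂ h2) hy1 hy2 hx1 hx3 (mul_ok h.D hx0) hbe)
  have d0 := (c2 m.e1 m.e2 (by simp) (by simp)).1
  refine blk_B sc a0 one_pos P c S _ _ p0 d0 ζ (by linarith) (by linarith)
    (by linear_combination d6.le) fun E₁ E₂ β h1 h2 => ?_
  obtain ⟨η, e1, e2⟩ := (c2 E₁ E₂ h1 h2).2 (β - β₀)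
  refine ⟨σ, a₁, a₂, b₁, b₂, η, by linarith, by linear_combination d1.le,
    by linear_combination d2.le, by linear_combination d3.le, ?_⟩
  rw [vt_eq _ _ _ _ _ _ _ _ _ _ _ _ _ β₀]
  simp only [wv] at e2 ⊢
  linear_combination e2 + (1 / 2 ^ 31 - 1 / 2 ^ 32 - 1 / 2 ^ 40) * d0.le

def q3 (A1 A2 A3 A12 A13 A23 b1 b2 b3 c0 : N) : Bool :=
  let m33 := nrm (rnd (sub (mul A1 A2) (mul A12 A12)))
  let m11 := nrm (rnd (sub (mul A2 A3) (mul A23 A23)))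
  let m22 := nrm (rnd (sub (mul A1 A3) (mul A13 A13)))
  let m12 := nrm (rnd (sub (mul A23 A13) (mul A12 A3)))
  let m13 := nrm (rnd (sub (mul A12 A23) (mul A2 A13)))
  let m23 := nrm (rnd (sub (mul A12 A13) (mul A1 A23)))
  let dt := nrm (rnd (add (add (mul A1 m11) (mul A12 m12)) (mul A13 m13)))
  let v1 := nrm (rnd (add (mul m11 b1) (smul 2 (add (mul m12 b2) (mul m13 b3)))))
  let v2 := nrm (rnd (add (mul m22 b2) (smul 2 (mul m23 b3))))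
  let v3 := nrm (rnd (mul m33 b3))
  and (pos A1.toA) (and (pos m33.toA) (and (pos dt.toA) (pos (rnd (neg (add (add (add (mul c0 dt)
    (mul b1 v1)) (mul b2 v2)) (mul b3 v3)))))))

theorem q3_ok {A1 A2 A3 A12 A13 A23 b1 b2 b3 c0 : N} {A₁ A₂ A₃ A₁₂ A₁₃ A₂₃ b₁ b₂ b₃ c₀ : ℝ}
    (hA1 : RN t A1 A₁) (hA2 : RN t A2 A₂) (hA3 : RN t A3 A₃) (hA12 : RN t A12 A₁₂)
    (hA13 : RN t A13 A₁₃) (hA23 : RN t A23 A₂₃) (hb1 : RN t b1 b₁) (hb2 : RN t b2 b₂)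
    (hb3 : RN t b3 b₃) (hc0 : RN t c0 c₀) : q3 A1 A2 A3 A12 A13 A23 b1 b2 b3 c0 = true →
    Q3 A₁ A₂ A₃ A₁₂ A₁₃ A₂₃ b₁ b₂ b₃ c₀ := by
  unfold q3
  extract_lets m33 m11 m22 m12 m13 m23 dt v1 v2 v3
  intro H
  simp only [Bool.and_eq_true] at H
  obtain ⟨f1, f2, f3, f4⟩ := H
  have hm33 : RN t m33 _ := nrm_ok (rnd_ok (sub_ok (mul_ok hA1 hA2) (mul_ok hA12 hA12)))
  have hm11 : RN t m11 _ := nrm_ok (rnd_ok (sub_ok (mul_ok hA2 hA3) (mul_ok hA23 hA23)))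
  have hm22 : RN t m22 _ := nrm_ok (rnd_ok (sub_ok (mul_ok hA1 hA3) (mul_ok hA13 hA13)))
  have hm12 : RN t m12 _ := nrm_ok (rnd_ok (sub_ok (mul_ok hA23 hA13) (mul_ok hA12 hA3)))
  have hm13 : RN t m13 _ := nrm_ok (rnd_ok (sub_ok (mul_ok hA12 hA23) (mul_ok hA2 hA13)))
  have hm23 : RN t m23 _ := nrm_ok (rnd_ok (sub_ok (mul_ok hA12 hA13) (mul_ok hA1 hA23)))
  have hdt : RN t dt _ := nrm_ok (rnd_ok (add_ok (add_ok (mul_ok hA1 hm11) (mul_ok hA12 hm12))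
    (mul_ok hA13 hm13)))
  have hv1 : RN t v1 _ := nrm_ok (rnd_ok (add_ok (mul_ok hm11 hb1) (smul_ok 2 (add_ok (mul_ok hm12
    hb2) (mul_ok hm13 hb3)))))
  have hv2 : RN t v2 _ := nrm_ok (rnd_ok (add_ok (mul_ok hm22 hb2) (smul_ok 2 (mul_ok hm23 hb3))))
  have hv3 : RN t v3 _ := nrm_ok (rnd_ok (mul_ok hm33 hb3))
  exact ⟨pos_ok hA1.toA f1, pos_ok hm33.toA f2, pos_ok hdt.toA f3, pos_ok (rnd_ok (neg_ok (add_ok
    (add_ok (add_ok (mul_ok hc0 hdt) (mul_ok hb1 hv1)) (mul_ok hb2 hv2)) (mul_ok hb3 hv3)))) f4⟩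

def lfZ (d : ℕ) (U : UB) (B : SB) (X : PB) (n : CB) : Bool :=
  let l1 := dat d 1
  let l2 := dat d 2
  let Qy := nrm (rnd (mul X.Q n.y3))
  let A1 := nrm (rnd (neg (mul n.a2 (nrm (rnd (mul X.Q (nrm (add n.y11.toA Qy.toA))))))))
  let A2 := nrm (rnd (neg (mul n.a2 (nrm (add n.y11.toA (rnd (mul X.Q n.y22)))))))
  let A3 := nrm (rnd (neg (mul n.a2 (nrm (add n.y22.toA n.y3.toA)))))
  let A23 := nrm (rnd (neg (mul n.a2 n.y12)))
  let A12 := nrm (rnd (mul X.Q A23))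
  let A13 := nrm (rnd (neg (mul n.a2 Qy)))
  let b1 := nrm (rnd (add (mul X.Q (nrm (add n.c3.toA (rnd (sub (mul U.S n.c21) (mul U.c n.c11))))))
    (mul l1 n.g1)))
  let b2 := nrm (rnd (sub (add (add (mul X.Q (nrm (rnd (sub (mul U.S n.c22) (mul U.c n.c12))))) (mul
    l1 n.g2)) (mul l2 n.g1)) (add (add (mul U.S n.c11) (mul U.c n.c21)) (mul X.P (nrm (rnd (mul B.a
    n.E2)))))))
  let b3 := nrm (add n.c3.toA (rnd (sub (mul l2 n.g2) (add (mul U.S n.c12) (mul U.c n.c22)))))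
  let c0 := nrm (add (add n.z3.toA (cst 131072)) (rnd (sub (add (mul X.Q (nrm (rnd (zz n U.c (nrm
    (neg U.S.toA)))))) (zz n U.S U.c)) (smul 2 (add (mul l1 n.E1) (mul l2 n.E2))))))
  q3 A1 A2 A3 A12 A13 A23 b1 b2 b3 c0

theorem lfZ_ok {d : ℕ} {U : UB} {B : SB} {X : PB} {n : CB} {k m : Co} {s c S P : ℝ}
    (hU : RU t U c S) (hB : RS t B s) (hX : RP t X P) (h : RC t n m P (fa s))
    (sc : Sc k m (fa s) 1) (a0 : 0 < fa s) : lfZ d U B X n = true →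
    Blk k P c S (1 / 2 ^ 32 * fa s) ((1 / 2 ^ 32 + 1 / 2 ^ 40) * fa s) := by
  unfold lfZ
  extract_lets l1 l2 Qy A1 A2 A3 A23 A12 A13 b1 b2 b3 c0
  intro H
  obtain ⟨l₁, hl1 : RN t l1 l₁⟩ := dat_ok t d 1
  obtain ⟨l₂, hl2 : RN t l2 l₂⟩ := dat_ok t d 2
  refine blk_Z sc a0 P c S _ _ fun E₁ E₂ h1 h2 => ⟨l₁, l₂, 1 / 2 ^ 31, by norm_num, ?_⟩
  replace h1 := h.E1 E₁ h1
  replace h2 := h.E2 E₂ h2
  have hQy : RN t Qy _ := nrm_ok (rnd_ok (mul_ok hX.Q h.y3))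
  have hA1 : RN t A1 _ := nrm_ok (rnd_ok (neg_ok (mul_ok h.a2 (nrm_ok (rnd_ok (mul_ok hX.Q (nrm_ok
    (add_ok h.y11.toA hQy.toA))))))))
  have hA2 : RN t A2 _ := nrm_ok (rnd_ok (neg_ok (mul_ok h.a2 (nrm_ok (add_ok h.y11.toA (rnd_ok
    (mul_ok hX.Q h.y22)))))))
  have hA3 : RN t A3 _ := nrm_ok (rnd_ok (neg_ok (mul_ok h.a2 (nrm_ok (add_ok h.y22.toA
    h.y3.toA)))))
  have hA23 : RN t A23 _ := nrm_ok (rnd_ok (neg_ok (mul_ok h.a2 h.y12)))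
  have hA12 : RN t A12 _ := nrm_ok (rnd_ok (mul_ok hX.Q hA23))
  have hA13 : RN t A13 _ := nrm_ok (rnd_ok (neg_ok (mul_ok h.a2 hQy)))
  have hb1 : RN t b1 _ := nrm_ok (rnd_ok (add_ok (mul_ok hX.Q (nrm_ok (add_ok h.c3.toA (rnd_ok
    (sub_ok (mul_ok hU.S h.c21) (mul_ok hU.c1 h.c11)))))) (mul_ok hl1 h.g1)))
  have hb2 : RN t b2 _ := nrm_ok (rnd_ok (sub_ok (add_ok (add_ok (mul_ok hX.Q (nrm_ok (rnd_ok
    (sub_ok (mul_ok hU.S h.c22) (mul_ok hU.c1 h.c12))))) (mul_ok hl1 h.g2)) (mul_ok hl2 h.g1))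
    (add_ok (add_ok (mul_ok hU.S h.c11) (mul_ok hU.c1 h.c21)) (mul_ok hX.P1 (nrm_ok (rnd_ok (mul_ok
    hB.a h2)))))))
  have hb3 : RN t b3 _ := nrm_ok (add_ok h.c3.toA (rnd_ok (sub_ok (mul_ok hl2 h.g2) (add_ok (mul_ok
    hU.S h.c12) (mul_ok hU.c1 h.c22)))))
  have hc0 : RN t c0 (m.z3 + 1 / 2 ^ 31 + ((1 + P) * m.zz c (-S) + m.zz S c - 2 * (l₁ * E₁ + l₂ *
    E₂))) := (nrm_ok (add_ok (add_ok h.z3.toA k17) (rnd_ok (sub_ok (add_ok (mul_ok hX.Q (nrm_ok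
    (rnd_ok (zz_ok h hU.c1 (nrm_ok (neg_ok hU.S.toA)))))) (zz_ok h hU.S hU.c1)) (smul_ok 2 (add_ok
    (mul_ok hl1 h1) (mul_ok hl2 h2))))))).cast (by push_cast; rfl)
  exact q3_ok hA1 hA2 hA3 hA12 hA13 hA23 hb1 hb2 hb3 hc0 H

/-- the check of one box -/
def leaf (p : Pc) (g : Bool) (d l h m i n j : ℕ) : Bool :=
  let U := ub g m i
  let B := sb l h
  let F := ph p U B
  let X := pb n j
  let C := cb U B X (jt p B F)
  let ty := Nat.mod d 4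
  let md := Nat.beq (Nat.mod (Nat.shiftRight d 2) 2) 0
  let kk := Nat.mod (Nat.shiftRight d 3) 32
  cond (Nat.beq ty 3) (and (pos (sub B.s.toA (cst p.s1))) (xk p kk U B F.f))
    (and (oc kk X C) (cond (Nat.beq ty 0) (lfA md d U B X C)
      (cond (Nat.beq ty 1) (lfB md d U B X C) (lfZ d U B X C))))

theorem leaf_ok {p : Pc} (o : p.Ok) (g : Bool) (d l h m i n j : ℕ) :
    leaf p g d l h m i n j = true → Cov (p.G g) l h m i n j := by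
  unfold leaf
  extract_lets U B F X C ty md kk
  intro H s u P a b c s0 s1 p0 p1 r
  obtain ⟨t, a1, a2, a3⟩ := box_ok a b c
  have hU : RU t U _ _ := ub_ok g a2
  have hB : RS t B s := sb_ok a1
  have hF : RJ t F _ := ph_ok p hU hB
  have hX : RP t X P := pb_ok a3
  have hC : RC t C _ P _ := cb_ok hU hB hX (jt_ok o hB hF) rfl
  have sc := sc_hco (qp P) (cs g u) (sn u) (fl s) (fa s) (jh (p.ph s (cs g u)) p.b s)
    (fl_pos s0 s1).ne'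
  have a0 := fa_pos s0 s1
  rcases cond_or H with H | H <;> obtain ⟨H1, H2⟩ := Bool.and_eq_true_iff.1 H
  · have x1 := pos_ok (sub_ok hB.s1.toA (nA_ok o.s3)) H1
    have x2 := xk_ok o hU hB hF.f s0 s1 H2
    rcases r with r | r <;> linarith
  · obtain ⟨c3, ho⟩ := oc_ok hX hC sc a0 (fa_le s0 s1) p0 p1 H1
    rw [← fa_fl s0 s1]
    refine key_h (cs_sn g u) (fl_pos s0 s1) c3 ho ?_
    rcases cond_or H2 with H | H
    · exact lfA_ok hU hB hX hC sc a0 H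
    · rcases cond_or H with H | H
      · exact lfB_ok hU hB hX hC sc a0 p0 H
      · exact lfZ_ok hU hB hX hC sc a0 H

end Pool.Agent.MP_815c6c_an.W.Br
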