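import Pool.Agent.MP_815c6c_an.W.Spec

/-! Scalar p-harmonic functions: class `C^(2,α)` near a point with nonzero gradient. -/

set_option autoImplicit false

noncomputable section

namespace Pool.Agent.MP_815c6c_an.W

open Set Metric Filter Topology
open S (Cs Hol)

namespace C2lA

variable {d : ℕ}

theorem fderiv_back {f g : X d → X d} {x : X d} {a r ρ : ℝ} (hr : 0 < r)
    (hg : ContDiffOn ℝ 1 g (ball 0 ρ)) (e : ∀ z ∈ ball x (ρ * r), f z = a • g (r⁻¹ • (z - x)))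
    {z : X d} (hz : z ∈ ball x (ρ * r)) :
    fderiv ℝ f z = (a * r⁻¹) • fderiv ℝ g (-(r⁻¹ • x) + r⁻¹ • z) := by
  have m := S.LNdA.back_mem hr hz
  have h1 : HasFDerivAt (fun z : X d => r⁻¹ • (z - x)) (r⁻¹ • ContinuousLinearMap.id ℝ (X d)) z :=
    ((hasFDerivAt_id z).sub_const x).const_smul r⁻¹
  have h2 : HasFDerivAt g (fderiv ℝ g (r⁻¹ • (z - x))) (r⁻¹ • (z - x)) :=
    ((hg.contDiffAt (isOpen_ball.mem_nhds m)).differentiableAt one_ne_zero).hasFDerivAt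
  have h3 := ((h2.comp z h1).const_smul a).congr_of_eventuallyEq
    (f₁ := f) (by filter_upwards [isOpen_ball.mem_nhds hz] with w hw using e w hw)
  rw [h3.fderiv, neg_add_eq_sub, ← smul_sub]
  ext1 v
  simp [smul_smul]

theorem exists_ball {U : Set (X d)} {u : X d → ℝ} {x : X d} (hU : IsOpen U)
    (hu : ContDiffOn ℝ 1 u U) (hx : x ∈ U) : ∃ r : ℝ, 0 < r ∧ ball x r ⊆ U ∧
      ∀ y ∈ ball x r, ‖gradient u y‖ ≤ ‖gradient u x‖ + 1 := by
  have h1 : ContinuousAt (fun y => ‖fderiv ℝ u y‖) x :=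
    ((hu.continuousOn_fderiv_of_isOpen hU le_rfl).continuousAt (hU.mem_nhds hx)).norm
  have h2 : ∀ᶠ y in 𝓝 x, ‖fderiv ℝ u y‖ < ‖fderiv ℝ u x‖ + 1 :=
    h1.eventually_lt continuousAt_const (by linarith)
  obtain ⟨r, r0, hr⟩ := Metric.eventually_nhds_iff_ball.1 (h2.and (hU.mem_nhds hx))
  refine ⟨r, r0, fun y hy => (hr y hy).2, fun y hy => ?_⟩
  simpa only [gradient, LinearIsometryEquiv.norm_map] using (hr y hy).1.le

end C2lA

open C2lA in
theorem c2l : C2lS := by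
  rintro d p hp ⟨α, C, rg⟩
  refine ⟨α, rg.a0, rg.a1, fun U u x hU hu hx h0 => ?_⟩
  have sc := sk.sca d p hp
  obtain ⟨δ, κ, C2, d0, -, k0, k1, -, c2⟩ := c2s d p α hp rg.a0 rg.a1
  obtain ⟨r, r0, hr, hM⟩ := exists_ball hU hu.c1 hx
  have hol := rg.hol u x r _ r0 (hu.mono hr) hM
  have a0 : 0 < ‖gradient u x‖ := norm_pos_iff.2 h0
  obtain ⟨a, ha⟩ : ∃ a, a = ‖gradient u x‖ := ⟨_, rfl⟩
  rw [← ha] at a0 hol
  obtain ⟨K, hK⟩ : ∃ K, K = C * (a + 1) / r ^ α := ⟨_, rfl⟩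
  rw [← hK] at hol
  have K0 : 0 ≤ a⁻¹ * K := by
    have := rg.c0
    rw [hK]
    positivity
  obtain ⟨t, t0, -, t2⟩ := S.LNdA.small (K := a⁻¹ * K) rg.a0 d0
  obtain ⟨s, s0, s1, s2⟩ : ∃ s : ℝ, 0 < s ∧ s * 2 ≤ t ∧ s * 2 ≤ r / 4 :=
    ⟨min t (r / 4) / 2, by positivity, by linarith [min_le_left t (r / 4)],
      by linarith [min_le_right t (r / 4)]⟩
  have sm : ∀ y ∈ ball (0 : X d) 2, x + s • y ∈ ball x (r / 4) := S.sca_mem s0 s2
  have b1 : ball x (r / 4) ⊆ U := (ball_subset_ball (by linarith)).trans hr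
  have up : ∀ w : ℝ, 0 ≤ w → w ≤ t → a⁻¹ * K * w ^ α ≤ δ := fun w w0 w1 =>
    (mul_le_mul_of_nonneg_left (Real.rpow_le_rpow w0 w1 rg.a0.le) K0).trans t2
  obtain ⟨v, hv⟩ : ∃ v : X d → ℝ, v = fun y => a⁻¹ / s * u (x + s • y) := ⟨_, rfl⟩
  have gv : ∀ y, gradient v y = a⁻¹ • gradient u (x + s • y) := fun y => by
    rw [hv, sc.gr u x s a⁻¹ s0]
  have fl : S.Flat p α δ (a⁻¹ • gradient u x) v := by
    refine ⟨?_, hv ▸ sc.cs _ _ u x s a⁻¹ s0 (inv_pos.2 a0) (fun y hy => b1 (sm y hy)) hu,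
      fun y hy => ?_, ?_⟩
    · rw [norm_smul, Real.norm_of_nonneg (inv_pos.2 a0).le, ← ha, inv_mul_cancel₀ a0.ne']
    · have a1 := hol _ (sm y hy) x (mem_ball_self (by linarith))
      rw [add_sub_cancel_left] at a1
      rw [gv, ← smul_sub, norm_smul, Real.norm_of_nonneg (inv_pos.2 a0).le]
      refine (mul_le_mul_of_nonneg_left a1 (inv_pos.2 a0).le).trans ?_
      rw [← mul_assoc]
      refine up _ (norm_nonneg _) ?_
      rw [norm_smul, Real.norm_of_nonneg s0.le]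
      exact (mul_le_mul_of_nonneg_left (mem_ball_zero_iff.1 hy).le s0.le).trans s1
    · refine ((sc.hol _ _ (gradient u) x α K s a⁻¹ s0 (inv_pos.2 a0).le sm hol).congr
        fun y _ => gv y).mono Subset.rfl ?_
      have := up s s0.le (by linarith)
      linarith
  obtain ⟨e1, e2, e3⟩ := c2 _ v fl
  have eq : ∀ z ∈ ball x (κ * s), gradient u z = a • gradient v (s⁻¹ • (z - x)) := fun z _ => by
    rw [gv, S.LNdA.back_eq x z s0, smul_inv_smul₀ a0.ne']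
  refine ⟨κ * s, _, by positivity, (ball_subset_ball (by nlinarith)).trans b1,
    (S.LNdA.transfer a0.le s0 e1 e2 eq).1,
    (sc.hol _ _ _ (-(s⁻¹ • x)) α _ s⁻¹ (a * s⁻¹) (inv_pos.2 s0) (by positivity)
      (fun z hz => ?_) e3).congr fun z hz => fderiv_back s0 e1 eq hz⟩
  rw [neg_add_eq_sub, ← smul_sub]
  exact S.LNdA.back_mem s0 hz

end Pool.Agent.MP_815c6c_an.W
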