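import Mathlib.Analysis.Calculus.Gradient.Basic
import Mathlib.Analysis.Calculus.FDeriv.Symmetric
import Mathlib.Analysis.InnerProductSpace.PiL2
import Mathlib.Analysis.InnerProductSpace.Calculus
import Mathlib.Analysis.SpecialFunctions.Pow.Deriv

/-! Scalar p-harmonic functions, the two-point game: definitions and the statements of the rows
that need only calculus. Note: `/team-store/PH_spec_h1.md`. Here `P = p - 2`. -/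

set_option autoImplicit false

noncomputable section

namespace Pool.Agent.MP_815c6c_an.W

open Set Metric Filter Topology
open scoped RealInnerProductSpace

abbrev X (d : ℕ) : Type := EuclideanSpace ℝ (Fin d)
abbrev En (d : ℕ) : Type := X d →L[ℝ] X d

variable {d : ℕ}

abbrev ei (i : Fin d) : X d := EuclideanSpace.single i 1
/-- the unit vector -/
def nu (ξ : X d) : X d := ‖ξ‖⁻¹ • ξ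
/-- the drift -/
def dr (ξ : X d) (H : En d) : X d := (2 / ‖ξ‖) • (H (nu ξ) - ⟪H (nu ξ), nu ξ⟫ • nu ξ)

/-! A. definitions -/

/-- the second derivative along a vector -/
def d2 {E : Type} [NormedAddCommGroup E] [NormedSpace ℝ E] (f : E → ℝ) (z v : E) : ℝ :=
  fderiv ℝ (fderiv ℝ f) z v v
/-- the form of `A(ν) = 1 + P ν ⊗ ν` -/
def qa (P : ℝ) (ν v : X d) : ℝ := ‖v‖ ^ 2 + P * ⟪v, ν⟫ ^ 2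
/-- the trace of a quadratic function against `A(ν)` -/
def ta (P : ℝ) (ν : X d) (f : X d → ℝ) : ℝ := ∑ i, f (ei i) + P * f ν
/-- admissible Hessians -/
def Ad (P : ℝ) (ξ : X d) (H : En d) : Prop :=
  (∀ v w, ⟪H v, w⟫ = ⟪v, H w⟫) ∧ ta P (nu ξ) (fun v => ⟪H v, v⟫) = 0

/-- classical solutions off the zeros of the gradient -/
structure Sm (P : ℝ) (U : Set (X d)) (u : X d → ℝ) : Prop where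
  op : IsOpen U
  c1 : ContDiffOn ℝ 1 u U
  c3 : ∀ x ∈ U, gradient u x ≠ 0 →
    ContDiffAt ℝ 3 u x ∧ Ad P (gradient u x) (fderiv ℝ (gradient u) x)

/-- a coupling of `A(η)` with a part of `s A(ν)` -/
structure Cp (P : ℝ) (η ν : X d) (s : ℝ) {m : ℕ} (l : Fin m → ℝ) (a b : Fin m → X d) : Prop where
  s0 : 0 ≤ s
  l0 : ∀ j, 0 ≤ l j
  hb : ∀ v, ∑ j, l j * ⟪v, b j⟫ ^ 2 = qa P (nu η) v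
  ha : ∀ v, ∑ j, l j * ⟪v, a j⟫ ^ 2 ≤ s * qa P ν v

/-- the value of the game -/
def val (P : ℝ) (G : X d × X d → ℝ) (η z ν : X d) (H : En d) (s : ℝ) {m : ℕ} (l : Fin m → ℝ)
    (a b : Fin m → X d) : ℝ :=
  ∑ j, l j * (d2 G (η, z) (H (b j), a j - b j) - d2 G (η, z) (0, a j)) +
    s * ta P ν (fun v => d2 G (η, z) (0, v)) - P * fderiv ℝ G (η, z) (H (dr η H), 0)

/-- the certificate -/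
structure Cert (d : ℕ) (P q : ℝ) (G : X d × X d → ℝ) (κ t₀ t₁ C δ θ : ℝ) : Prop where
  q1 : 1 < q
  t0 : 0 < t₀
  t1 : t₀ < t₁
  tk : t₁ ≤ κ
  c0 : 0 ≤ C
  d0 : 0 < δ
  h0 : 1 / q ≤ θ
  h1 : θ < 1
  c2 : ∀ η z, z ≠ 0 → t₀ * ‖z‖ ^ (1 / q) ≤ ‖η‖ → ContDiffAt ℝ 2 G (η, z)
  lo : ∀ η z, z ≠ 0 → t₀ * ‖z‖ ^ (1 / q) = ‖η‖ → κ * ‖z‖ ^ (1 + 1 / q) < G (η, z)
  hi : ∀ η z, z ≠ 0 → t₁ * ‖z‖ ^ (1 / q) = ‖η‖ → G (η, z) < κ * ‖z‖ ^ (1 + 1 / q)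
  bd : ∀ η z, z ≠ 0 → t₀ * ‖z‖ ^ (1 / q) ≤ ‖η‖ → |G (η, z) - ⟪η, z⟫| ≤ C * ‖z‖ ^ (1 + 1 / q)
  key : ∀ η z, z ≠ 0 → t₀ * ‖z‖ ^ (1 / q) ≤ ‖η‖ → ‖η‖ ≤ 1 →
    (t₁ * ‖z‖ ^ (1 / q) ≤ ‖η‖ ∨ G (η, z) ≤ κ * ‖z‖ ^ (1 + 1 / q)) →
    ∀ (H : En d) (w ν : X d) (t : ℝ), Ad P η H → ‖w‖ ≤ δ * ‖z‖ ^ θ →
    (∀ v, fderiv ℝ G (η, z) (H v, -v) + ⟪η + w, v⟫ = 0) → ‖ν‖ = 1 → 0 ≤ t →
    (∀ v, fderiv ℝ G (η, z) (0, v) = t * ⟪ν, v⟫) →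
    ∃ (s : ℝ) (m : ℕ) (l : Fin m → ℝ) (a b : Fin m → X d), Cp P η ν s l a b ∧
      val P G η z ν H s l a b ≤ -δ

/-- the one-sided Taylor estimate, normalised -/
def Tay (d : ℕ) (P q : ℝ) : Prop := ∃ R C : ℝ, 1 ≤ R ∧ 0 ≤ C ∧ ∀ u : X d → ℝ,
  Sm P (ball 0 R) u → (∀ y ∈ ball (0 : X d) R, ‖gradient u y‖ ≤ 1) →
  ∀ x : X d, ‖x‖ ≤ 1 → u x - u 0 - ⟪gradient u 0, x⟫ ≤ C * ‖x‖ ^ (1 + 1 / q)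

/-! B. the two-point principle -/

/-- traces of bilinear forms along families of vectors -/
def CpS : Prop := ∀ (d m : ℕ) (P s : ℝ) (ν : X d) (l : Fin m → ℝ) (a : Fin m → X d)
  (B : X d →L[ℝ] X d →L[ℝ] ℝ), 0 ≤ P → (∀ j, 0 ≤ l j) →
  ((∀ v, ∑ j, l j * ⟪v, a j⟫ ^ 2 = s * qa P ν v) →
    ∑ j, l j * B (a j) (a j) = s * ta P ν fun v => B v v) ∧
  ((∀ v, ∑ j, l j * ⟪v, a j⟫ ^ 2 ≤ s * qa P ν v) → (∀ v w, B v w = B w v) → (∀ v, 0 ≤ B v v) →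
    ∑ j, l j * B (a j) (a j) ≤ s * ta P ν fun v => B v v)

/-- the differentiated equation -/
def LinS : Prop := ∀ (d : ℕ) (P : ℝ) (U : Set (X d)) (u : X d → ℝ) (x a : X d), Sm P U u → x ∈ U →
  gradient u x ≠ 0 →
  ta P (nu (gradient u x)) (fun v => ⟪a, fderiv ℝ (fderiv ℝ (gradient u)) x v v⟫) =
    -(P * ⟪a, fderiv ℝ (gradient u) x (dr (gradient u x) (fderiv ℝ (gradient u) x))⟫)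

/-- quadratic functions that touch from above -/
def OneS : Prop := ∀ (d : ℕ) (P : ℝ) (U : Set (X d)) (u : X d → ℝ) (x : X d)
  (B : X d →L[ℝ] X d →L[ℝ] ℝ), 0 < d → 0 ≤ P → Sm P U u → x ∈ U → (∀ v w, B v w = B w v) →
  (∀ ε : ℝ, 0 < ε → ∀ᶠ h in 𝓝 (0 : X d),
    u (x + h) ≤ u x + ⟪gradient u x, h⟫ + B h h / 2 + ε * ‖h‖ ^ 2) →
  ∃ (ν : X d) (t : ℝ), ‖ν‖ = 1 ∧ 0 ≤ t ∧ gradient u x = t • ν ∧ 0 ≤ ta P ν fun v => B v v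

/-- the second order condition at a maximum of `u(x) - Φ(x, y)` -/
def SchS : Prop := ∀ (d : ℕ) (P : ℝ) (U : Set (X d)) (u : X d → ℝ) (Φ : X d × X d → ℝ)
  (x y : X d), 0 < d → 0 ≤ P → Sm P U u → x ∈ U → ContDiffAt ℝ 2 Φ (x, y) →
  IsLocalMax (fun w : X d × X d => u w.1 - Φ w) (x, y) →
  (∀ v, fderiv ℝ Φ (x, y) (0, v) = 0) ∧ (∀ v, fderiv ℝ Φ (x, y) (v, 0) = ⟪gradient u x, v⟫) ∧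
  ∀ ε : ℝ, 0 < ε → ∃ (ν : X d) (t : ℝ), ‖ν‖ = 1 ∧ 0 ≤ t ∧ gradient u x = t • ν ∧
    ∀ (s : ℝ) (m : ℕ) (l : Fin m → ℝ) (a b : Fin m → X d), 0 ≤ s → (∀ j, 0 ≤ l j) →
      (∀ v, ∑ j, l j * ⟪v, a j⟫ ^ 2 ≤ s * qa P ν v) →
      0 ≤ ∑ j, l j * (d2 Φ (x, y) (a j, b j) - d2 Φ (x, y) (a j, 0)) +
        s * ta P ν (fun v => d2 Φ (x, y) (v, 0)) + ε * ∑ j, l j * ‖b j‖ ^ 2

/-- the two-point principle -/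
def TwoS : Prop := ∀ (d : ℕ) (P : ℝ) (U : Set (X d)) (u φ : X d → ℝ) (G : X d × X d → ℝ)
  (x y : X d), 0 ≤ P → Sm P U u → x ∈ U → y ∈ U → gradient u y ≠ 0 →
  ContDiffAt ℝ 2 G (gradient u y, x - y) → ContDiffAt ℝ 2 φ y →
  IsLocalMax (fun w : X d × X d => u w.1 - (u w.2 + G (gradient u w.2, w.1 - w.2) + φ w.2))
    (x, y) →
  (∀ v, fderiv ℝ G (gradient u y, x - y) (fderiv ℝ (gradient u) y v, -v) +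
    ⟪gradient u y + gradient φ y, v⟫ = 0) ∧
  ∀ ε : ℝ, 0 < ε → ∃ (ν : X d) (t : ℝ), ‖ν‖ = 1 ∧ 0 ≤ t ∧
    (∀ v, fderiv ℝ G (gradient u y, x - y) (0, v) = t * ⟪ν, v⟫) ∧
    ∀ (s : ℝ) (m : ℕ) (l : Fin m → ℝ) (a b : Fin m → X d), Cp P (gradient u y) ν s l a b →
      -ε ≤ val P G (gradient u y) (x - y) ν (fderiv ℝ (gradient u) y) s l a b +
        ta P (nu (gradient u y)) (d2 φ y)

/-- the penalty -/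
def PenS : Prop := ∀ (d : ℕ) (θ ε A : ℝ), 0 < θ → θ < 1 → 0 < ε → 0 < A →
  ∃ (φ : X d → ℝ) (R : ℝ), 1 ≤ R ∧ ContDiff ℝ 2 φ ∧ φ 0 = 0 ∧ (∀ y, 0 ≤ φ y) ∧
    (∀ y, ‖y‖ = R → A ≤ φ y) ∧ ∀ y, ‖y‖ ≤ R → (∀ v, d2 φ y v ≤ ε * ‖v‖ ^ 2) ∧
      ∀ s : ℝ, φ y ≤ s → s ≤ A → ‖gradient φ y‖ ≤ ε * s ^ θ

/-- the comparison -/
def CmpS : Prop := ∀ (d : ℕ) (P q : ℝ) (G : X d × X d → ℝ) (κ t₀ t₁ C δ θ : ℝ), 0 ≤ P →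
  Cert d P q G κ t₀ t₁ C δ θ → Tay d P q

/-! E. the certificate in coordinates, `d = 3` -/

/-- value, first and second derivatives of a function of `(τ, c)` -/
structure J6 : Type where
  f : ℝ
  t : ℝ
  c : ℝ
  tt : ℝ
  tc : ℝ
  cc : ℝ

def Jt2 (F : ℝ × ℝ → ℝ) (x : ℝ × ℝ) (j : J6) : Prop :=
  ContDiffAt ℝ 2 F x ∧ F x = j.f ∧ ∀ a b : ℝ, fderiv ℝ F x (a, b) = j.t * a + j.c * b ∧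
    d2 F x (a, b) = j.tt * a ^ 2 + 2 * j.tc * a * b + j.cc * b ^ 2

/-- `G(η, z) = η.z + |η| |z| F(τ, c)`, `τ = log (|z|^(1/q) / |η|)`, `c` the cosine of the angle -/
def GF (q : ℝ) (F : ℝ × ℝ → ℝ) (w : X d × X d) : ℝ := ⟪w.1, w.2⟫ + ‖w.1‖ * ‖w.2‖ *
  F (Real.log ‖w.2‖ / q - Real.log ‖w.1‖, ⟪w.1, w.2⟫ / (‖w.1‖ * ‖w.2‖))

/-- the derivative of `G` at unit vectors `n, e` along `(h, k)`: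
`x = n.h`, `y = e.k`, `g = e.h + n.k` -/
def E1 (q c : ℝ) (j : J6) (x y g : ℝ) : ℝ :=
  g + (x + y) * j.f + j.t * (y / q - x) + j.c * (g - c * (x + y))
/-- the second derivative: `hh = h.h`, `kk = k.k`, `hk = h.k` -/
def E2 (q c : ℝ) (j : J6) (x y g hh kk hk : ℝ) : ℝ :=
  2 * hk + (hh + kk - x ^ 2 - y ^ 2 + 2 * x * y) * j.f +
    2 * (x + y) * (j.t * (y / q - x) + j.c * (g - c * (x + y))) +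
    j.tt * (y / q - x) ^ 2 + 2 * j.tc * (y / q - x) * (g - c * (x + y)) +
    j.cc * (g - c * (x + y)) ^ 2 + j.t * ((kk - 2 * y ^ 2) / q - (hh - 2 * x ^ 2)) +
    j.c * (2 * hk - 2 * g * (x + y) + c * ((x + y) ^ 2 - (hh - 2 * x ^ 2) - (kk - 2 * y ^ 2)))

/-- the jets of `GF` -/
def GjS : Prop := ∀ (d : ℕ) (q g r : ℝ) (F : ℝ × ℝ → ℝ) (j : J6) (n e : X d), 0 < g → 0 < r →
  ‖n‖ = 1 → ‖e‖ = 1 → Jt2 F (Real.log r / q - Real.log g, ⟪n, e⟫) j →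
  ContDiffAt ℝ 2 (GF q F) (g • n, r • e) ∧ GF q F (g • n, r • e) = g * r * (⟪n, e⟫ + j.f) ∧
  ∀ h k : X d, fderiv ℝ (GF q F) (g • n, r • e) (g • h, r • k) =
      g * r * E1 q ⟪n, e⟫ j ⟪n, h⟫ ⟪e, k⟫ (⟪e, h⟫ + ⟪n, k⟫) ∧
    d2 (GF q F) (g • n, r • e) (g • h, r • k) =
      g * r * E2 q ⟪n, e⟫ j ⟪n, h⟫ ⟪e, k⟫ (⟪e, h⟫ + ⟪n, k⟫) (‖h‖ ^ 2) (‖k‖ ^ 2) ⟪h, k⟫

/-- the same in the frame `n = (1, 0, 0)`, `e = (c, S, 0)` -/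
def D1 (q c S : ℝ) (j : J6) (h₁ h₂ k₁ k₂ : ℝ) : ℝ :=
  E1 q c j h₁ (c * k₁ + S * k₂) (c * h₁ + S * h₂ + k₁)
def D2 (q c S : ℝ) (j : J6) (h₁ h₂ h₃ k₁ k₂ k₃ : ℝ) : ℝ :=
  E2 q c j h₁ (c * k₁ + S * k₂) (c * h₁ + S * h₂ + k₁) (h₁ ^ 2 + h₂ ^ 2 + h₃ ^ 2)
    (k₁ ^ 2 + k₂ ^ 2 + k₃ ^ 2) (h₁ * k₁ + h₂ * k₂ + h₃ * k₃)

/-- the inequality at one state, margin `μ`; `a, b, e` are the columns of the coupling matrix -/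
def Key (P q c S : ℝ) (j : J6) (μ : ℝ) : Prop :=
  ∀ h₁₁ h₁₂ h₁₃ h₂₂ h₂₃ h₃₃ w₁ w₂ w₃ n₁ n₂ n₃ t : ℝ, (1 + P) * h₁₁ + h₂₂ + h₃₃ = 0 →
    w₁ ^ 2 + w₂ ^ 2 + w₃ ^ 2 ≤ μ ^ 2 → D1 q c S j h₁₁ h₁₂ (-1) 0 + 1 + w₁ = 0 →
    D1 q c S j h₁₂ h₂₂ 0 (-1) + w₂ = 0 → D1 q c S j h₁₃ h₂₃ 0 0 + w₃ = 0 →
    n₁ ^ 2 + n₂ ^ 2 + n₃ ^ 2 = 1 → 0 ≤ t → D1 q c S j 0 0 1 0 = t * n₁ →
    D1 q c S j 0 0 0 1 = t * n₂ → t * n₃ = 0 → (S = 0 → n₃ = 0) →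
    ∃ s a₁ a₂ a₃ b₁ b₂ b₃ e₁ e₂ e₃ : ℝ, 0 ≤ s ∧
      (∀ v₁ v₂ v₃ : ℝ, (1 + P) * (v₁ * a₁ + v₂ * a₂ + v₃ * a₃) ^ 2 +
        (v₁ * b₁ + v₂ * b₂ + v₃ * b₃) ^ 2 + (v₁ * e₁ + v₂ * e₂ + v₃ * e₃) ^ 2 ≤
        s * (v₁ ^ 2 + v₂ ^ 2 + v₃ ^ 2 + P * (v₁ * n₁ + v₂ * n₂ + v₃ * n₃) ^ 2)) ∧
      (1 + P) * (D2 q c S j h₁₁ h₁₂ h₁₃ (a₁ - 1) a₂ a₃ - D2 q c S j 0 0 0 a₁ a₂ a₃) +
        (D2 q c S j h₁₂ h₂₂ h₂₃ b₁ (b₂ - 1) b₃ - D2 q c S j 0 0 0 b₁ b₂ b₃) +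
        (D2 q c S j h₁₃ h₂₃ h₃₃ e₁ e₂ (e₃ - 1) - D2 q c S j 0 0 0 e₁ e₂ e₃) +
        s * (D2 q c S j 0 0 0 1 0 0 + D2 q c S j 0 0 0 0 1 0 + D2 q c S j 0 0 0 0 0 1 +
          P * D2 q c S j 0 0 0 n₁ n₂ n₃) -
        P * D1 q c S j (2 * (h₁₂ ^ 2 + h₁₃ ^ 2)) (2 * (h₂₂ * h₁₂ + h₂₃ * h₁₃)) 0 0 ≤ -μ

/-- the certificate in coordinates -/
structure CertR (P q : ℝ) (F : ℝ × ℝ → ℝ) (j : ℝ → ℝ → J6) (κ τ₀ τ₁ C δ e : ℝ) : Prop where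
  t1 : τ₁ < τ₀
  tk : 1 ≤ κ * Real.exp τ₁
  d0 : 0 < δ
  e1 : 1 ≤ e
  eq : e < q
  jet : ∀ τ c, τ ≤ τ₀ → c ^ 2 ≤ 1 → Jt2 F (τ, c) (j τ c)
  lo : ∀ c, c ^ 2 ≤ 1 → κ * Real.exp τ₀ < c + (j τ₀ c).f
  hi : ∀ c, c ^ 2 ≤ 1 → c + (j τ₁ c).f < κ * Real.exp τ₁
  bd : ∀ τ c, τ ≤ τ₀ → c ^ 2 ≤ 1 → |(j τ c).f| ≤ C * Real.exp τ
  key : ∀ τ c S, τ ≤ τ₀ → c ^ 2 + S ^ 2 = 1 → 0 ≤ S →
    (τ ≤ τ₁ ∨ c + (j τ c).f ≤ κ * Real.exp τ) → Key P q c S (j τ c) (δ * Real.exp (e * τ))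

/-- the reduction to coordinates -/
def RedS : Prop := ∀ (P q : ℝ) (F : ℝ × ℝ → ℝ) (j : ℝ → ℝ → J6) (κ τ₀ τ₁ C δ e : ℝ), 0 ≤ P →
  CertR P q F j κ τ₀ τ₁ C δ e → ∃ t₀ t₁ C' δ' θ, Cert 3 P q (GF q F) κ t₀ t₁ C' δ' θ

end Pool.Agent.MP_815c6c_an.W
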