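import Pool.Agent.MP_815c6c_an.H.All
import Pool.Agent.MP_815c6c_an.W.Defs

/-! Scalar p-harmonic functions, the two-point game: the statements of the rows on regularity.
Note: `/team-store/PH_spec_h1.md`. Here `P = p - 2`. -/

set_option autoImplicit false

noncomputable section

namespace Pool.Agent.MP_815c6c_an.W

open Set Metric MeasureTheory Filter Topology
open scoped RealInnerProductSpace
open S (Cs Hol Dv)
open H (St VS Bd)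

/-! C. regularity off the zeros, and the consequences of the Taylor estimate -/

def SmS (d : ℕ) (p : ℝ) : Prop := ∀ (U : Set (X d)) (u : X d → ℝ), IsOpen U → Cs p U u →
  Sm (p - 2) U u

/-- class `C^(2,α)` near a point with nonzero gradient -/
def C2lS : Prop := ∀ (d : ℕ) (p : ℝ), 2 < p → S.RegS d p → ∃ α : ℝ, 0 < α ∧ α < 1 ∧
  ∀ (U : Set (X d)) (u : X d → ℝ) (x : X d), IsOpen U → Cs p U u → x ∈ U → gradient u x ≠ 0 →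
    ∃ ρ K : ℝ, 0 < ρ ∧ ball x ρ ⊆ U ∧ ContDiffOn ℝ 1 (gradient u) (ball x ρ) ∧
      Hol α K (fderiv ℝ (gradient u)) (ball x ρ)

/-- divergence free fields of class `C^1` -/
def DerS : Prop := ∀ (d : ℕ) (U : Set (X d)) (F : X d → X d), IsOpen U → ContDiffOn ℝ 1 F U →
  Dv U F → (∀ x ∈ U, ∑ i, fderiv ℝ F x (ei i) i = 0) ∧ ∀ v, Dv U fun x => fderiv ℝ F x v

/-- third derivatives -/
def C3S : Prop := ∀ (d : ℕ) (p α ρ K : ℝ) (u : X d → ℝ) (x : X d), 2 < p → 0 < α → α < 1 → 0 < ρ →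
  Cs p (ball x ρ) u → gradient u x ≠ 0 → ContDiffOn ℝ 1 (gradient u) (ball x ρ) →
  Hol α K (fderiv ℝ (gradient u)) (ball x ρ) → ContDiffAt ℝ 3 u x

/-- the pointwise equation -/
def PdeS : Prop := ∀ (d : ℕ) (p ρ : ℝ) (u : X d → ℝ) (x : X d), 2 < p → 0 < ρ →
  Cs p (ball x ρ) u → gradient u x ≠ 0 → ContDiffOn ℝ 1 (gradient u) (ball x ρ) →
  Ad (p - 2) (gradient u x) (fderiv ℝ (gradient u) x)

/-- the Hölder exponent `1 / q` -/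
def HolS : Prop := ∀ (d : ℕ) (p q : ℝ), 2 < p → 1 < q → S.RegS d p → SmS d p → Tay d (p - 2) q →
  ∃ C, S.Reg d p (1 / q) C

/-- powers of the gradient above `1 / α` -/
def OutS : Prop := ∀ (d : ℕ) (p α C b : ℝ), 2 < p → S.Reg d p α C → 1 < α * b → S.Out d p (2 * b)

/-! D. some Hölder exponent, for fixed `p` -/

/-- flatness near an almost maximal gradient -/
def FlatS : Prop := ∀ (d : ℕ) (P β : ℝ), 1 ≤ P → 0 < β → ∃ c : ℝ, 0 < c ∧ ∀ (U : Set (X d))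
  (u : X d → ℝ) (T : Set (St d)) (s o : ℝ) (z₁ : St d), VS P U u T → 0 < s → 0 < o → z₁ ∈ T →
  closedBall z₁.1 (3 * s) ⊆ U → Bd T z₁.1 (3 * s) o → (1 - c) * o ≤ ‖z₁.2.2‖ →
  ∀ x, ‖x - z₁.1‖ ≤ s → |u x - u z₁.1 - ⟪z₁.2.2, x - z₁.1⟫| ≤ β * o * s

/-- flat solutions omit one size of the gradient -/
def BerS : Prop := ∀ (d : ℕ) (P : ℝ), 1 ≤ P → d < 2 * P + 3 → ∃ c τ : ℝ, 0 < c ∧ c ≤ 1 / 8 ∧
  0 < τ ∧ ∀ (U : Set (X d)) (u : X d → ℝ) (T : Set (St d)) (e : X d), VS P U u T →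
    closedBall 0 1 ⊆ U → ‖e‖ = 1 → Bd T 0 1 1 → (∀ x, ‖x‖ ≤ 1 → |u x - ⟪e, x⟫| ≤ τ) →
    ∀ z ∈ T, z.1 = 0 → ‖z.2.2‖ ≠ c

/-- slow growth excludes small gradients -/
def NwS : Prop := ∀ (d : ℕ) (P : ℝ), 1 ≤ P → d < 2 * P + 3 → ∃ Λ c : ℝ, 1 ≤ Λ ∧ 0 < c ∧
  ∀ (U : Set (X d)) (u : X d → ℝ) (T : Set (St d)), VS P U u T → closedBall 0 Λ ⊆ U →
    Bd T 0 Λ 2 → (∃ z ∈ T, ‖z.1‖ ≤ 1 ∧ 1 ≤ ‖z.2.2‖) → ∀ z ∈ T, ‖z.1‖ ≤ 1 → c ≤ ‖z.2.2‖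

def RgS : Prop := ∀ (d : ℕ) (p : ℝ), 3 ≤ p → d < p → S.RegS d p

/-! F. kits on main, and the assembly -/

theorem sk : S.Kit :=
  have al := S.lalg Q.pow S.nkit.al1
  ⟨S.losc, S.ldv, al, S.lsca (S.ws S.sob) S.ldv al⟩
theorem hk : H.Kit := ⟨H.jet, H.bas H.jet, H.mp H.jet (H.bas H.jet), H.inv, H.top⟩
theorem ani : S.AniS :=
  S.lani sk (S.labs sk (S.lcs sk S.nkit (N.evS S.nkit (N.shl S.nkit)) (N.mol S.nkit)))
theorem c2s : S.C2S := S.lc2 sk S.tr ani S.ldif (S.lsec sk.alg)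

theorem shell_of (rg : RgS) (c2 : C2lS) (c3 : C3S) (pde : PdeS) (cmp : CmpS) (hol : HolS)
    (red : RedS) {p q : ℝ} (hp : 3 < p) {F : ℝ × ℝ → ℝ} {j : ℝ → ℝ → J6} {κ τ₀ τ₁ C δ e : ℝ}
    (h : CertR (p - 2) q F j κ τ₀ τ₁ C δ e) : ∃ C, S.Reg 3 p (1 / q) C := by
  have p2 : 2 < p := by linarith
  have r := rg 3 p hp.le (by exact_mod_cast hp)
  obtain ⟨α, a0, a1, hc⟩ := c2 3 p p2 r
  obtain ⟨t₀, t₁, C', δ', θ, k⟩ := red _ _ _ _ _ _ _ _ _ _ (by linarith) h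
  refine hol 3 p q p2 k.q1 r (fun U u hU hu => ⟨hU, hu.c1, fun x hx h0 => ?_⟩)
    (cmp _ _ _ _ _ _ _ _ _ _ (by linarith) k)
  obtain ⟨ρ, K, r0, s, g1, g2⟩ := hc U u x hU hu hx h0
  exact ⟨c3 3 p α ρ K u x p2 a0 a1 r0 (hu.mono s) h0 g1 g2, pde 3 p ρ u x p2 r0 (hu.mono s) h0 g1⟩

end Pool.Agent.MP_815c6c_an.W
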