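import Mathlib.Analysis.Calculus.ContDiff.FiniteDimension
import Pool.Agent.MP_815c6c_an.W.Spec

/-! Scalar p-harmonic functions: third derivatives off the zeros of the gradient. -/

set_option autoImplicit false

namespace Pool.Agent.MP_815c6c_an.W

open Set Metric MeasureTheory Filter Topology
open scoped RealInnerProductSpace
open S (Cs Hol Dv Lin Est Me Ap Li)

namespace C3A

variable {d : ℕ}

theorem bnd {E : Type} [NormedAddCommGroup E] {f : X d → E} {α K ρ : ℝ} (a0 : 0 < α)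
    (h : Hol α K f (ball 0 ρ)) : ∃ M : ℝ, 0 < M ∧ K ≤ M ∧ ∀ x ∈ ball (0 : X d) ρ, ‖f x‖ ≤ M := by
  rcases le_or_gt ρ 0 with r0 | r0
  · exact ⟨|K| + 1, by positivity, by linarith [le_abs_self K], by simp [ball_eq_empty.2 r0]⟩
  have p0 : 0 ≤ |K| * ρ ^ α := by positivity
  refine ⟨‖f 0‖ + |K| * ρ ^ α + |K| + 1, by positivity,
    by linarith [le_abs_self K, norm_nonneg (f 0)], fun x hx => ?_⟩
  have h1 := h x hx 0 (mem_ball_self r0)
  rw [sub_zero x] at h1
  have h2 : K * ‖x‖ ^ α ≤ |K| * ρ ^ α := mul_le_mul (le_abs_self K)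
    (Real.rpow_le_rpow (norm_nonneg _) (mem_ball_zero_iff.1 hx).le a0.le) (by positivity)
    (abs_nonneg K)
  linarith [norm_sub_norm_le (f x) (f 0), abs_nonneg K]

theorem two {α : ℝ} (a0 : 0 < α) (a1 : α < 1) {x y : X d} (hx : x ∈ ball (0 : X d) 1)
    (hy : y ∈ ball (0 : X d) 1) : ‖x - y‖ ≤ 2 * ‖x - y‖ ^ α := by
  have h1 : ‖x - y‖ ≤ 2 := by
    linarith [norm_sub_le x y, mem_ball_zero_iff.1 hx, mem_ball_zero_iff.1 hy]
  rcases le_total ‖x - y‖ 1 with h | h
  · have := Real.self_le_rpow_of_le_one (norm_nonneg (x - y)) h a1.le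
    linarith [norm_nonneg (x - y)]
  · linarith [Real.one_le_rpow h a0.le]

/-- the linear equation on the ball of radius two -/
theorem unit (d : ℕ) {α μ : ℝ} (a0 : 0 < α) (a1 : α < 1) (m0 : 0 ≤ μ) :
    ∃ η κ : ℝ, 0 < η ∧ 0 < κ ∧ κ ≤ 1 ∧ ∀ (e : X d) (w : X d → ℝ) (a : X d → En d) (K K' : ℝ),
      ‖e‖ = 1 → a 0 = Me μ e → ContDiffOn ℝ 1 a (ball 0 2) →
      (∀ x ∈ ball (0 : X d) 2, ‖fderiv ℝ a x‖ ≤ η) → Hol α K (fderiv ℝ a) (ball 0 2) →
      ContDiffOn ℝ 1 w (ball 0 2) → Hol α K' (gradient w) (ball 0 2) →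
      Dv (ball 0 2) (fun x => a x (gradient w x)) → ContDiffOn ℝ 1 (gradient w) (ball 0 κ) := by
  obtain ⟨δ, κ, C, δ0, κ0, κ1, C0, H⟩ := ani d α μ a0 a1 m0
  refine ⟨δ / 2, κ, by positivity, κ0, κ1, fun e w a K K' he h0 ca ba ha cw hw dv => ?_⟩
  obtain ⟨A, A0, A1, A2⟩ := bnd a0 ha
  obtain ⟨B, B0, B1, B2⟩ := bnd a0 hw
  have ha' := ha.mono Subset.rfl A1
  have hw' := hw.mono Subset.rfl B1
  have m1 : ∀ x ∈ ball (0 : X d) 1, x ∈ ball (0 : X d) 2 := ball_subset_ball (by norm_num)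
  have lip : ∀ x ∈ ball (0 : X d) 2, ∀ y ∈ ball (0 : X d) 2, ‖a x - a y‖ ≤ δ / 2 * ‖x - y‖ :=
    fun x hx y hy => (convex_ball _ _).norm_image_sub_le_of_norm_fderiv_le (fun z hz =>
      (ca.contDiffAt (isOpen_ball.mem_nhds hz)).differentiableAt one_ne_zero) ba hy hx
  have lw : ∀ x ∈ ball (0 : X d) 2, ∀ y ∈ ball (0 : X d) 2, ‖w x - w y‖ ≤ B * ‖x - y‖ :=
    fun x hx y hy => (convex_ball _ _).norm_image_sub_le_of_norm_fderiv_le (fun z hz =>
      (cw.contDiffAt (isOpen_ball.mem_nhds hz)).differentiableAt one_ne_zero)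
      (fun z hz => by rw [← S.norm_grad]; exact B2 z hz) hy hx
  have v0 : 0 ≤ S.vb d 1 := measureReal_nonneg
  have cF : ContinuousOn (fun x => a x (gradient w x)) (ball 0 2) :=
    ca.continuousOn.clm_apply (S.cont_grad isOpen_ball cw)
  refine (S.ldif d _ α (C * (2 * (A * B) + B * S.vb d 1)) κ (1 / 2) a0 (by norm_num)
    (by positivity) fun h h0' hh => ?_).1
  have hh' : ‖h‖ ≤ 2 - 3 / 2 := by linarith
  have hp0 : 0 < ‖h‖ := norm_pos_iff.2 h0'
  have m2 : ∀ x ∈ ball (0 : X d) 1, x + h ∈ ball (0 : X d) 2 := S.tra_mem (by linarith)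
  have gw : ∀ x ∈ ball (0 : X d) 1, gradient (fun y => ‖h‖⁻¹ * (w (y + h) - w y - 0)) x =
      ‖h‖⁻¹ • (gradient w (x + h) - gradient w x) := fun x hx =>
    S.LC2A.grad_quo cw _ _ (m1 x hx) (m2 x hx)
  have hc : ContDiffOn ℝ 1 (fun y => ‖h‖⁻¹ * (w (y + h) - w y - 0)) (ball 0 (3 / 2)) :=
    contDiffOn_const.mul ((S.LC2A.c1_quo cw hh').sub contDiffOn_const)
  have hi : IntegrableOn (fun y => ‖h‖⁻¹ * (w (y + h) - w y - 0)) (ball 0 1) :=
    ((hc.continuousOn.mono (closedBall_subset_ball (by norm_num))).integrableOn_compact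
      (isCompact_closedBall (0 : X d) 1)).mono_set ball_subset_closedBall
  obtain ⟨⟨q1, q2⟩, -⟩ := S.cal_quo a α A h (by linarith) ca A2 ha'
  have sh : ∀ x ∈ ball (0 : X d) 1, ∀ y ∈ ball (0 : X d) 1,
      ‖gradient w (x + h) - gradient w (y + h)‖ ≤ B * ‖x - y‖ ^ α := fun x hx y hy => by
    have := hw' _ (m2 x hx) _ (m2 y hy)
    rwa [add_sub_add_right_eq_sub] at this
  have lin : Lin α δ (2 * (A * B)) (Me μ e) (fun y => ‖h‖⁻¹ * (w (y + h) - w y - 0)) a
      fun x => -(‖h‖⁻¹ • (a (x + h) - a x)) (gradient w (x + h)) := by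
    refine ⟨by positivity, hc.mono (ball_subset_ball (by norm_num)), hi, ⟨‖h‖⁻¹ * (2 * B), ?_⟩,
      fun x hx => ?_, fun x hx y hy => ?_, fun x hx y hy => ?_, ?_⟩
    · intro x hx y hy
      rw [gw x hx, gw y hy, ← smul_sub, norm_smul, norm_inv, norm_norm, mul_assoc]
      refine mul_le_mul_of_nonneg_left ?_ (by positivity)
      rw [sub_sub_sub_comm]
      linarith [norm_sub_le (gradient w (x + h) - gradient w (y + h))
        (gradient w x - gradient w y), sh x hx y hy, hw' x (m1 x hx) y (m1 y hy)]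
    · have := lip x (m1 x hx) 0 (mem_ball_self two_pos)
      rw [h0, sub_zero] at this
      have x1 := (mem_ball_zero_iff.1 hx).le
      nlinarith
    · have := mul_le_mul_of_nonneg_left (two a0 a1 hx hy) (by positivity : 0 ≤ δ / 2)
      linarith [lip x (m1 x hx) y (m1 y hy)]
    · have e1 := q1 y hy
      have e2 := q2 x hx y hy
      simp only at e2
      generalize ‖h‖⁻¹ • (a (x + h) - a x) = P at e2 ⊢
      generalize ‖h‖⁻¹ • (a (y + h) - a y) = Q at e1 e2 ⊢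
      have e3 : -P (gradient w (x + h)) - -Q (gradient w (y + h)) =
          -((P - Q) (gradient w (x + h)) + Q (gradient w (x + h) - gradient w (y + h))) := by
        rw [_root_.sub_apply, map_sub]
        abel
      have e4 := ((P - Q).le_opNorm (gradient w (x + h))).trans
        (mul_le_mul e2 (B2 _ (m2 x hx)) (norm_nonneg _) (by positivity))
      have e5 := (Q.le_opNorm (gradient w (x + h) - gradient w (y + h))).trans
        (mul_le_mul e1 (sh x hx y hy) (norm_nonneg _) A0.le)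
      rw [e3, norm_neg]
      exact (norm_add_le _ _).trans (by linarith)
    · have d1 := (sk.dv d).tra _ _ _ h m2 dv
      have d2 := (sk.dv d).sub _ _ _
        (Li.of_cont (cF.comp (continuous_id.add continuous_const).continuousOn m2))
        (Li.of_cont (cF.mono m1)) d1 (dv.mono m1)
      refine ((sk.dv d).smul _ _ ‖h‖⁻¹ d2).congr' fun x hx => ?_
      rw [gw x hx, map_smul, map_sub, _root_.smul_apply,
        _root_.sub_apply, sub_neg_eq_add, ← smul_add]
      congr 1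
      simp only [Function.comp]
      abel
  have est := H e _ _ _ _ he lin
  have hb : ∫ x in ball (0 : X d) 1, |‖h‖⁻¹ * (w (x + h) - w x - 0)| ≤ B * S.vb d 1 := by
    have : ∫ _ in ball (0 : X d) 1, B = B * S.vb d 1 := by
      rw [setIntegral_const, smul_eq_mul, mul_comm]
      rfl
    rw [← this]
    refine setIntegral_mono_on hi.abs (integrableOn_const measure_ball_lt_top.ne)
      measurableSet_ball fun x hx => ?_
    have := lw _ (m2 x hx) _ (m1 x hx)
    rw [add_sub_cancel_left, Real.norm_eq_abs] at this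
    rw [sub_zero, abs_mul, abs_inv, abs_norm, inv_mul_le_iff₀ hp0]
    linarith
  have est2 := est.mono le_rfl (mul_le_mul_of_nonneg_left (add_le_add_right hb _) C0)
  have m3 : ∀ x ∈ ball (0 : X d) κ, x ∈ ball (0 : X d) 1 := ball_subset_ball κ1
  exact ⟨fun x hx => (congrArg norm (gw x (m3 x hx))).symm.le.trans (est2.1 x hx),
    est2.2.congr fun x hx => (gw x (m3 x hx)).symm⟩

/-- the linear equation on a small ball -/
theorem loc {α μ ρ K : ℝ} (a0 : 0 < α) (a1 : α < 1) (m0 : 0 ≤ μ) (r0 : 0 < ρ) {e : X d}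
    {a : X d → En d} (he : ‖e‖ = 1) (h0 : a 0 = Me μ e) (ca : ContDiffOn ℝ 1 a (ball 0 ρ))
    (ha : Hol α K (fderiv ℝ a) (ball 0 ρ)) : ∃ s : ℝ, 0 < s ∧ s ≤ ρ ∧ ∀ (w : X d → ℝ) (K' : ℝ),
      ContDiffOn ℝ 1 w (ball 0 ρ) → Hol α K' (gradient w) (ball 0 ρ) →
      Dv (ball 0 ρ) (fun x => a x (gradient w x)) → ContDiffOn ℝ 1 (gradient w) (ball 0 s) := by
  obtain ⟨η, κ, η0, κ0, κ1, H⟩ := unit d a0 a1 m0
  obtain ⟨A, A0, -, A2⟩ := bnd a0 ha
  obtain ⟨r, r1, r2, r3⟩ : ∃ r : ℝ, 0 < r ∧ r * 2 ≤ ρ ∧ r * A ≤ η :=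
    ⟨min (ρ / 2) (η / A), by positivity, by linarith [min_le_left (ρ / 2) (η / A)],
      (le_div_iff₀ A0).1 (min_le_right _ _)⟩
  have sc := sk.sca d 3 (by norm_num)
  have m : ∀ y ∈ ball (0 : X d) 2, 0 + r • y ∈ ball (0 : X d) ρ := S.sca_mem r1 r2
  have fa : ∀ y, fderiv ℝ (fun y => a (0 + r • y)) y = r • fderiv ℝ a (0 + r • y) := fun y => by
    simp only [zero_add]
    exact fderiv_comp_smul r
  refine ⟨r * κ, by positivity, by nlinarith, fun w K' cw hw dv => ?_⟩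
  have g := sc.gr w 0 r 1 r1
  have h1 := H e (fun y => 1 / r * w (0 + r • y)) (fun y => a (0 + r • y)) _ _ he
    (by simpa using h0) (ca.comp (f := fun y : X d => 0 + r • y) (by fun_prop) m)
    (fun y hy => by
      rw [fa]
      refine (ContinuousLinearMap.opNorm_smul_le _ _).trans ?_
      rw [Real.norm_of_nonneg r1.le]
      exact (mul_le_mul_of_nonneg_left (A2 _ (m y hy)) r1.le).trans r3)
    ((sc.hol _ _ _ 0 α K r r r1 r1.le m ha).congr fun y _ => fa y)
    (contDiffOn_const.mul (cw.comp (f := fun y : X d => 0 + r • y) (by fun_prop) m))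
    ((sc.hol _ _ _ 0 α K' r 1 r1 zero_le_one m hw).congr fun y _ => g y)
    (((sk.dv d).sca _ _ _ 0 r r1 m dv).congr' fun y _ => by rw [g, one_smul])
  refine (h1.comp (f := fun z : X d => r⁻¹ • z) (by fun_prop) fun z hz => ?_).congr fun z _ => ?_
  · rw [mem_ball_zero_iff] at hz ⊢
    rw [norm_smul, norm_inv, Real.norm_of_nonneg r1.le, inv_mul_lt_iff₀ r1]
    exact hz
  · rw [Function.comp, g, one_smul, zero_add, smul_inv_smul₀ r1.ne']

theorem succ {E : Type} [NormedAddCommGroup E] [NormedSpace ℝ E] {f : X d → E} {x : X d} {ρ : ℝ}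
    (r0 : 0 < ρ) (n : ℕ) (h1 : ContDiffOn ℝ 1 f (ball x ρ))
    (h2 : ContDiffAt ℝ n (fderiv ℝ f) x) : ContDiffAt ℝ (n + 1 : ℕ) f x := by
  push_cast
  exact contDiffAt_succ_iff_hasFDerivAt.2 ⟨_, ⟨_, ball_mem_nhds x r0, fun y hy =>
    ((h1.contDiffAt (isOpen_ball.mem_nhds hy)).differentiableAt one_ne_zero).hasFDerivAt⟩, h2⟩

theorem fd (u : X d → ℝ) : fderiv ℝ u = fun y => innerSL ℝ (gradient u y) :=
  funext fun y => (S.innerSL_grad u y).symm

/-- the gradient of a directional derivative -/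
theorem grad_dir {u : X d → ℝ} {ρ : ℝ} (c1 : ContDiffOn ℝ 1 u (ball 0 ρ))
    (cg : ContDiffOn ℝ 1 (gradient u) (ball 0 ρ)) (v : X d) {y : X d} (hy : y ∈ ball (0 : X d) ρ) :
    gradient (fun z => ⟪gradient u z, v⟫) y = fderiv ℝ (gradient u) y v := by
  have g1 := cg.contDiffAt (isOpen_ball.mem_nhds hy)
  have g2 := (g1.differentiableAt one_ne_zero).hasFDerivAt
  obtain ⟨ε, e0, e1⟩ := Metric.isOpen_iff.1 isOpen_ball y hy
  have c2 : ContDiffAt ℝ (1 + 1 : ℕ) u y := succ e0 1 (c1.mono e1) (by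
    rw [fd]
    exact (innerSL ℝ (E := X d)).contDiff.contDiffAt.comp y g1)
  have sy := c2.isSymmSndFDerivAt (by simp)
  have k : ∀ a b, fderiv ℝ (fderiv ℝ u) y a b = ⟪fderiv ℝ (gradient u) y a, b⟫ := fun a b => by
    have := ((innerSL ℝ (E := X d)).hasFDerivAt.comp y g2).fderiv
    rw [fd]
    exact (congrArg (fun T : X d →L[ℝ] X d →L[ℝ] ℝ => T a b) this).trans rfl
  refine ext_inner_right ℝ fun z => ?_
  have := (g2.inner ℝ (hasFDerivAt_const v y)).fderiv
  rw [S.inner_grad, this, ← k, sy v z, k]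
  simp

/-- the normalised case -/
theorem zero (der : DerS) {p α ρ K : ℝ} {u : X d → ℝ} (hp : 2 < p) (a0 : 0 < α) (a1 : α < 1)
    (r0 : 0 < ρ) (hu : Cs p (ball 0 ρ) u) (he : ‖gradient u 0‖ = 1)
    (cg : ContDiffOn ℝ 1 (gradient u) (ball 0 ρ))
    (hg : Hol α K (fderiv ℝ (gradient u)) (ball 0 ρ)) : ContDiffAt ℝ 3 u 0 := by
  obtain ⟨c1, c2⟩ := (sk.alg (X d) p hp).cA
  obtain ⟨c3, c4⟩ := c2 (gradient u 0) (norm_ne_zero_iff.1 (by rw [he]; exact one_ne_zero))
  obtain ⟨ρ', K', r1, r2, ca, ha⟩ := S.cal_cmp (fderiv ℝ (Ap p)) (gradient u) α K ρ a0 a1.le r0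
    (c3.fderiv_right (by norm_num)) cg hg
  have sb : ball (0 : X d) ρ' ⊆ ball 0 ρ := ball_subset_ball r2
  obtain ⟨s, s0, s1, H⟩ := loc (μ := p - 2) a0 a1 (by linarith) r1 he (by
    ext1 Z
    rw [c4, S.Me_apply, he]
    simp) ca ha
  have dv := (der d _ _ isOpen_ball (c1.comp_contDiffOn cg) hu.dv).2
  have k1 : ContDiffOn ℝ 1 (fderiv ℝ (gradient u)) (ball 0 s) := by
    refine contDiffOn_clm_apply.2 fun v => ?_
    have g := fun y hy => grad_dir hu.c1 cg v (y := y) hy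
    refine (H (fun z => ⟪gradient u z, v⟫) (K * ‖v‖) ((cg.inner ℝ contDiffOn_const).mono sb)
      (fun x hx y hy => ?_) (((dv v).mono sb).congr' fun y hy => ?_)).congr
      fun y hy => (g y (sb (ball_subset_ball s1 hy))).symm
    · rw [g x (sb hx), g y (sb hy), ← _root_.sub_apply, mul_right_comm]
      exact (ContinuousLinearMap.le_opNorm _ _).trans
        (mul_le_mul_of_nonneg_right (hg x (sb hx) y (sb hy)) (norm_nonneg _))
    · rw [g y (sb hy), fderiv_comp y (c1.differentiable one_ne_zero _)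
        ((cg.contDiffAt (isOpen_ball.mem_nhds (sb hy))).differentiableAt one_ne_zero)]
      rfl
  have k2 := succ r0 1 cg (k1.contDiffAt (ball_mem_nhds _ s0))
  exact succ r0 2 hu.c1 (by
    rw [fd]
    exact (innerSL ℝ (E := X d)).contDiff.contDiffAt.comp 0 k2)

end C3A

open C3A in
theorem c3 : DerS → C3S := by
  intro der d p α ρ K u x hp a0 a1 r0 hu h0 cg hg
  have sc := sk.sca d p hp
  have n0 : 0 < ‖gradient u x‖ := norm_pos_iff.2 h0
  have c0 : 0 < ‖gradient u x‖⁻¹ := inv_pos.2 n0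
  generalize hc : ‖gradient u x‖⁻¹ = c at c0
  have m : ∀ y ∈ ball (0 : X d) ρ, x + (1 : ℝ) • y ∈ ball x ρ := S.sca_mem one_pos (by linarith)
  have g : gradient (fun y => c / 1 * u (x + (1 : ℝ) • y)) =
      c • fun y => gradient u (x + (1 : ℝ) • y) := funext (sc.gr u x 1 c one_pos)
  have h1 := zero der hp a0 a1 r0 (sc.cs _ _ u x 1 c one_pos c0 m hu) (by
      rw [g, Pi.smul_apply, norm_smul, smul_zero, add_zero, ← hc, norm_inv, norm_norm,
        inv_mul_cancel₀ n0.ne'])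
    (by
      rw [g]
      exact (cg.comp (f := fun y : X d => x + (1 : ℝ) • y) (by fun_prop) m).const_smul c)
    ((sc.hol _ _ _ x α K 1 c one_pos c0.le m hg).congr fun y _ => by
      rw [g, fderiv_const_smul_field]
      simp only [one_smul, Pi.smul_apply, fderiv_comp_add_left])
  have h2 : ContDiffAt ℝ 3 (fun y => c / 1 * u (x + (1 : ℝ) • y)) ((fun z => z - x) x) := by
    simpa only [sub_self] using h1
  have h3 := (contDiffAt_const (c := c⁻¹)).mul (h2.comp (f := fun z => z - x) x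
    (contDiffAt_id.sub contDiffAt_const))
  refine h3.congr_of_eventuallyEq (Eventually.of_forall fun z => ?_)
  simp [c0.ne']

end Pool.Agent.MP_815c6c_an.W
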