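import Pool.Agent.MP_815c6c_an.W.Cusp

/-! The certificate for `F = Φ₀ exp (τ - P R(s, c))`, `s = w / (G + w)`, `w = exp (-μ τ)`. -/

set_option autoImplicit false

noncomputable section

namespace Pool.Agent.MP_815c6c_an.W

open Set Filter Topology KR

/-- the variable `s` -/
def sg (μ G τ : ℝ) : ℝ := Real.exp (-μ * τ) / (G + Real.exp (-μ * τ))

/-- the jets divided by `T = exp (τ - P R)`; `k` are the jets of `R` in `(s, c)`,
`s₁ = μ s (1 - s)`, `s₂ = μ² s (1 - s) (1 - 2 s)` -/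
def jE (P Φ s₁ s₂ : ℝ) (k : J6) : J6 :=
  ⟨Φ, Φ * (1 + P * (k.t * s₁)), Φ * (P * -k.c),
    Φ * (1 + P * (k.t * s₁ * (2 + P * (k.t * s₁)) - (k.tt * s₁ ^ 2 + k.t * s₂))),
    Φ * (P * (-((1 + P * (k.t * s₁)) * k.c) + k.tc * s₁)), Φ * (P * (P * k.c ^ 2 - k.cc))⟩

/-- the jets of `F` -/
def jF (P Φ μ τ s : ℝ) (k : J6) : J6 :=
  jT (Real.exp (τ - P * k.f)) (jE P Φ (μ * (s * (1 - s))) (μ ^ 2 * (s * (1 - s) * (1 - 2 * s))) k)

theorem sg_mem {μ G : ℝ} (G0 : 0 < G) (τ : ℝ) : 0 < sg μ G τ ∧ sg μ G τ < 1 :=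
  ⟨by unfold sg; positivity, (div_lt_one (by positivity)).2 (by linarith)⟩

theorem d_sg {μ G : ℝ} (G0 : 0 < G) (τ : ℝ) :
    HasDerivAt (sg μ G) (-μ * (sg μ G τ * (1 - sg μ G τ))) τ := by
  have n : G + Real.exp (-μ * τ) ≠ 0 := by positivity
  refine ((d_exp (-μ) τ).fun_div ((d_exp (-μ) τ).const_add G) n).congr_deriv ?_
  unfold sg
  field_simp
  ring

theorem jt_F {R : ℝ × ℝ → ℝ} {μ G τ c : ℝ} {k : J6} (G0 : 0 < G) (P Φ : ℝ)
    (h : Jt2 R (sg μ G τ, c) k) :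
    Jt2 (fun y => Φ * Real.exp (y.1 + -P * R (sg μ G y.1, y.2))) (τ, c)
      (jF P Φ μ τ (sg μ G τ) k) := by
  have a := h.sub1 (σ := sg μ G) (ContDiffAt.div (by fun_prop) (by fun_prop) (by positivity))
    (Eventually.of_forall (d_sg G0)) (((d_sg G0 τ).fun_mul ((d_sg G0 τ).const_sub 1)).const_mul _)
  refine (congrArg _ ?_).mp ((Jt2.cst _ Φ).mul ((Jt2.vx _).add ((Jt2.cst _ (-P)).mul a)).exp)
  simp only [jF, jE, jT, J6.add, J6.mul, J6.exp, J6.cmp, J6.cst, J6.vx, J6.mk.injEq, neg_mul,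
    ← sub_eq_add_neg]
  refine ⟨?_, ?_, ?_, ?_, ?_, ?_⟩ <;> ring

theorem hs_bd (l : List (List ℝ)) :
    ∃ B, ∀ s c : ℝ, 0 ≤ s → s ≤ 1 → c ^ 2 ≤ 1 → |(hs l s c).f| ≤ B := by
  have k : Continuous fun y : ℝ × ℝ => (hs l y.1 y.2).f :=
    continuous_iff_continuousAt.2 fun x => (jt_hs l x).1.continuousAt
  obtain ⟨B, h⟩ := ((isCompact_Icc (a := (0 : ℝ)) (b := 1)).prod
    (isCompact_Icc (a := (-1 : ℝ)) (b := 1))).exists_bound_of_continuousOn k.continuousOn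
  exact ⟨B, fun s c a b g => h (s, c) ⟨⟨a, b⟩, abs_le.1 ((sq_le_one_iff_abs_le_one c).1 g)⟩⟩

/-- two-sided bounds for the scale -/
theorem scale_bd (l : List (List ℝ)) (P : ℝ) : ∃ B, 0 < B ∧ ∀ τ s c : ℝ, 0 ≤ s → s ≤ 1 → c ^ 2 ≤ 1 →
    Real.exp (τ - P * (hs l s c).f) ≤ B * Real.exp τ ∧
      Real.exp τ ≤ B * Real.exp (τ - P * (hs l s c).f) := by
  obtain ⟨B, h⟩ := hs_bd l
  refine ⟨Real.exp (|P| * B), Real.exp_pos _, fun τ s c a b g => ?_⟩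
  have := abs_le.1 (CuspA.mul_le (le_refl |P|) (h s c a b g))
  rw [← Real.exp_add, ← Real.exp_add]
  exact ⟨Real.exp_le_exp.2 (by linarith), Real.exp_le_exp.2 (by linarith)⟩

/-- the certificate with a plateau -/
theorem certE' {P q μ G Φ κ τ₀ τ₁ m : ℝ} (l : List (List ℝ)) (G0 : 0 < G) (q1 : 1 < q)
    (f0 : 0 ≤ Φ) (m0 : 0 < m) (t1 : τ₁ < τ₀) (tk : Real.exp (-τ₁) ≤ κ)
    (lo : ∀ c, c ^ 2 ≤ 1 → κ < c * Real.exp (-τ₀) + Φ * (1 - P * (hs l (sg μ G τ₀) c).f))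
    (hi : ∀ c, c ^ 2 ≤ 1 → 0 < 1 + P * (hs l (sg μ G τ₁) c).f ∧
      c * Real.exp (-τ₁) + Φ / (1 + P * (hs l (sg μ G τ₁) c).f) < κ)
    (key : ∀ τ c S, τ ≤ τ₀ → c ^ 2 + S ^ 2 = 1 → 0 ≤ S →
      Key P q c S (jF P Φ μ τ (sg μ G τ) (hs l (sg μ G τ) c))
        (m * Real.exp (τ - P * (hs l (sg μ G τ) c).f))) :
    ∃ F j κ τ₀ τ₁ C δ e, CertR P q F j κ τ₀ τ₁ C δ e := by
  obtain ⟨B, B0, hB⟩ := scale_bd l P
  have ex : ∀ τ, Real.exp (-τ) * Real.exp τ = 1 := fun τ => by rw [← Real.exp_add]; simp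
  refine ⟨_, fun τ c => jF P Φ μ τ (sg μ G τ) (hs l (sg μ G τ) c), κ, τ₀, τ₁, Φ * B, m / B, 1, t1,
    ?_, div_pos m0 B0, le_rfl, q1, fun τ c _ _ => jt_F G0 P Φ (jt_hs l (sg μ G τ, c)),
    fun c h => ?_, fun c h => ?_, fun τ c _ h => ?_, fun τ c S h g s _ => ?_⟩
  · exact (ex τ₁).ge.trans (mul_le_mul_of_nonneg_right tk (Real.exp_pos _).le)
  · have a := mul_lt_mul_of_pos_right (lo c h) (Real.exp_pos τ₀)
    have b := mul_le_mul_of_nonneg_left (Real.add_one_le_exp (-(P * (hs l (sg μ G τ₀) c).f)))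
      (mul_nonneg f0 (Real.exp_pos τ₀).le)
    simp only [jF, jT, jE]
    rw [sub_eq_add_neg τ₀, Real.exp_add]
    rw [add_mul, mul_assoc c, ex] at a
    linarith
  · obtain ⟨p, a⟩ := hi c h
    have a := mul_lt_mul_of_pos_right a (Real.exp_pos τ₁)
    have b : Real.exp (-(P * (hs l (sg μ G τ₁) c).f)) ≤ (1 + P * (hs l (sg μ G τ₁) c).f)⁻¹ := by
      rw [Real.exp_neg]
      exact inv_anti₀ p (by linarith [Real.add_one_le_exp (P * (hs l (sg μ G τ₁) c).f)])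
    have b := mul_le_mul_of_nonneg_left b (mul_nonneg f0 (Real.exp_pos τ₁).le)
    simp only [jF, jT, jE]
    rw [sub_eq_add_neg τ₁, Real.exp_add]
    rw [add_mul, mul_assoc c, ex, div_eq_mul_inv] at a
    linarith
  · have := mul_le_mul_of_nonneg_left
      (hB τ _ c (sg_mem (μ := μ) G0 τ).1.le (sg_mem G0 τ).2.le h).1 f0
    simp only [jF, jT, jE]
    rw [abs_of_nonneg (by positivity)]
    linarith
  · refine key_mono (key τ c S h g s) (by positivity) ?_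
    rw [one_mul, div_mul_eq_mul_div, div_le_iff₀ B0, mul_assoc, mul_comm _ B]
    exact mul_le_mul_of_nonneg_left (hB τ _ c (sg_mem G0 τ).1.le (sg_mem G0 τ).2.le
      (by linarith [sq_nonneg S])).2 m0.le

/-- the same for `μ = 2 / 3` in the variable `v = exp (-τ / 3)` -/
theorem certE {P q G Φ κ va vb m : ℝ} (l : List (List ℝ)) (G0 : 0 < G) (q1 : 1 < q) (f0 : 0 ≤ Φ)
    (m0 : 0 < m) (a0 : 0 < va) (ab : va < vb) (tk : vb ^ 3 ≤ κ)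
    (lo : ∀ c, c ^ 2 ≤ 1 → κ < c * va ^ 3 + Φ * (1 - P * (hs l (va ^ 2 / (G + va ^ 2)) c).f))
    (hi : ∀ c, c ^ 2 ≤ 1 → 0 < 1 + P * (hs l (vb ^ 2 / (G + vb ^ 2)) c).f ∧
      c * vb ^ 3 + Φ / (1 + P * (hs l (vb ^ 2 / (G + vb ^ 2)) c).f) < κ)
    (key : ∀ v s T c S, va ≤ v → s = v ^ 2 / (G + v ^ 2) →
      T = Real.exp (-(P * (hs l s c).f)) / v ^ 3 → c ^ 2 + S ^ 2 = 1 → 0 ≤ S →
      Key P q c S (jT T (jE P Φ (2 / 3 * (s * (1 - s))) (4 / 9 * (s * (1 - s) * (1 - 2 * s)))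
        (hs l s c))) (m * T)) :
    ∃ F j κ τ₀ τ₁ C δ e, CertR P q F j κ τ₀ τ₁ C δ e := by
  have e2 : ∀ τ, Real.exp (-(2 / 3) * τ) = Real.exp (-τ / 3) ^ 2 := fun τ => by
    rw [← Real.exp_nat_mul]; congr 1; push_cast; ring
  have e3 : ∀ τ, Real.exp (-τ) = Real.exp (-τ / 3) ^ 3 := fun τ => by
    rw [← Real.exp_nat_mul]; congr 1; push_cast; ring
  have e1 : ∀ v, 0 < v → Real.exp (-(-3 * Real.log v) / 3) = v := fun v h => by
    rw [show -(-3 * Real.log v) / 3 = Real.log v by ring, Real.exp_log h]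
  have b0 := a0.trans ab
  refine certE' (μ := 2 / 3) (τ₀ := -3 * Real.log va) (τ₁ := -3 * Real.log vb) (κ := κ) l G0 q1 f0
    m0 (by linarith [Real.log_lt_log a0 ab]) (by rwa [e3, e1 _ b0])
    (by rwa [sg, e2, e3, e1 _ a0]) (by rwa [sg, e2, e3, e1 _ b0]) fun τ c S h g s => ?_
  rw [jF, show (2 / 3 : ℝ) ^ 2 = 4 / 9 by norm_num]
  refine key (Real.exp (-τ / 3)) _ _ c S ?_ (by rw [sg, e2]) ?_ g s
  · rw [← Real.exp_log a0]
    exact Real.exp_le_exp.2 (by linarith)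
  · rw [← e3, ← Real.exp_sub]
    congr 1
    ring

end Pool.Agent.MP_815c6c_an.W
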