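import Pool.Agent.MP_815c6c_an.W.CertE

/-! The certificate for small `P` from a family with a linear cusp. -/

set_option autoImplicit false

noncomputable section

namespace Pool.Agent.MP_815c6c_an.W

open Set Filter Topology KR

namespace CertYA

/-- the block form with margin `η` -/
def fb (k : Co) (P η h₁ h₂ h₃ : ℝ) : ℝ :=
  (1 + P) * k.yy h₁ h₂ + k.yy h₂ h₃ + k.y3 * (-((1 + P) * h₁ + h₃)) ^ 2 -
    2 * P * h₂ * (k.g1 * h₂ + k.g2 * h₃) +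
    η * (h₁ ^ 2 + h₂ ^ 2 + h₃ ^ 2 + (-((1 + P) * h₁ + h₃)) ^ 2)
/-- the form outside the blocks with margin `η` -/
def fo (k : Co) (P η h₁ h₂ h₃ : ℝ) : ℝ :=
  (1 + P) * k.y3 * h₁ ^ 2 + k.y3 * h₂ ^ 2 + k.yy h₁ h₂ - 2 * P * h₁ * (k.g1 * h₁ + k.g2 * h₂) +
    η * h₁ ^ 2 - h₃ ^ 2
def sz (k : Co) : ℝ := |k.g1| + |k.g2| + |k.c11| + |k.c12| + |k.c21| + |k.c22| + |k.c3| + |k.z11| +
  |k.z12| + |k.z22| + |k.z3| + |k.e1| + |k.e2|

theorem polar (h₁ h₂ h₃ : ℝ) : ∃ r a b c : ℝ, a ^ 2 + b ^ 2 + c ^ 2 = 1 ∧ h₁ = r * a ∧ h₂ = r * b ∧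
    h₃ = r * c := by
  obtain ⟨r, r0, hr⟩ : ∃ r : ℝ, 0 ≤ r ∧ r ^ 2 = h₁ ^ 2 + h₂ ^ 2 + h₃ ^ 2 :=
    ⟨_, Real.sqrt_nonneg _, Real.sq_sqrt (by positivity)⟩
  have s1 := sq_nonneg h₁
  have s2 := sq_nonneg h₂
  have s3 := sq_nonneg h₃
  rcases r0.eq_or_lt with h | h
  · rw [← h] at hr
    exact ⟨0, 1, 0, 0, by norm_num, by rw [zero_mul]; exact pow_eq_zero_iff two_ne_zero |>.1 (by
      linarith), by rw [zero_mul]; exact pow_eq_zero_iff two_ne_zero |>.1 (by linarith), by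
      rw [zero_mul]; exact pow_eq_zero_iff two_ne_zero |>.1 (by linarith)⟩
  · have n := h.ne'
    exact ⟨r, h₁ / r, h₂ / r, h₃ / r, by field_simp; linarith, by field_simp, by field_simp,
      by field_simp⟩

/-- the large part of the jets -/
theorem zone_of {P q c S η M φ a T : ℝ} {u : J6} (h : c ^ 2 + S ^ 2 = 1) (q1 : 1 ≤ q) (f0 : 0 < φ)
    (T1 : 1 ≤ T) (a1 : φ * T ≤ 2 * a) (a2 : a ≤ 2 * (φ * T)) (hT : 6 * M ≤ φ * T)
    (H : ∀ h₁ h₂ h₃ : ℝ, h₁ ^ 2 + h₂ ^ 2 + h₃ ^ 2 = 1 → fb (co q c S u) P η h₁ h₂ h₃ < 0 ∧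
      fo (co q c S u) P η h₁ h₂ h₃ < 0) (hM : sz (co q c S u) ≤ M) (h3 : 0 < (co q c S u).c3) :
    Zone (co q c S (u.add ⟨a, a, 0, a, 0, 0⟩)) P η (M + 4 * φ) (φ / 4) T := by
  have u0 : 0 < q⁻¹ := inv_pos.2 (by linarith)
  have u1 : q⁻¹ ≤ 1 := inv_le_one_of_one_le₀ q1
  have fT : 0 < φ * T := mul_pos f0 (by linarith)
  have a0 : 0 ≤ a := by linarith
  set k := co q c S u with hk
  have E : co q c S (u.add ⟨a, a, 0, a, 0, 0⟩) =
      ⟨k.g1, k.g2, k.r + (a + a * q⁻¹), k.e1 + c * (a + a * q⁻¹), k.e2 + S * (a + a * q⁻¹), k.y11,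
        k.y12, k.y22, k.c11, k.c12, k.c21, k.c22, k.z11 + (a * q⁻¹ + a * q⁻¹ ^ 2), k.z12,
        k.z22 + (a + a * q⁻¹), k.y3, k.c3, k.z3 + (a + a * q⁻¹)⟩ := by
    simp only [hk, co, J6.add, Co.mk.injEq, div_eq_mul_inv, ← inv_pow]
    refine ⟨?_, ?_, ?_, ?_, ?_, ?_, ?_, ?_, ?_, ?_, ?_, ?_, ?_, ?_, ?_, ?_, ?_, ?_⟩ <;> ring
  rw [E]
  have n1 := abs_nonneg k.g1
  have n2 := abs_nonneg k.g2
  have n3 := abs_nonneg k.c11
  have n4 := abs_nonneg k.c12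
  have n5 := abs_nonneg k.c21
  have n6 := abs_nonneg k.c22
  have n7 := abs_nonneg k.c3
  have n8 := abs_nonneg k.z11
  have n9 := abs_nonneg k.z12
  have n10 := abs_nonneg k.z22
  have n11 := abs_nonneg k.z3
  have n12 := abs_nonneg k.e1
  have n13 := abs_nonneg k.e2
  unfold sz at hM
  have MT : M ≤ M * T := le_mul_of_one_le_right (by linarith) T1
  have p0 : 0 ≤ a * q⁻¹ := mul_nonneg a0 u0.le
  have p1 : a * q⁻¹ ≤ a := mul_le_of_le_one_right a0 u1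
  have p2 : a * q⁻¹ ^ 2 ≤ a := mul_le_of_le_one_right a0 (pow_le_one₀ u0.le u1)
  have ad : ∀ x d : ℝ, |x| ≤ M → 0 ≤ d → d ≤ 2 * a → |x + d| ≤ (M + 4 * φ) * T := fun x d a b e =>
    (abs_add_le _ _).trans (by rw [abs_of_nonneg b]; linarith)
  refine ⟨fun h₁ h₂ h₃ h₄ tr => ?_, fun h₁ h₂ => ?_, by linarith, by linarith, by linarith,
    by linarith, by linarith, by linarith, by linarith,
    ad _ _ (by linarith) (by positivity) (by linarith), by linarith,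
    ad _ _ (by linarith) (by linarith) (by linarith),
    ad _ _ (by linarith) (by linarith) (by linarith), ?_, h3⟩
  · obtain rfl : h₄ = -((1 + P) * h₁ + h₃) := by linarith
    obtain ⟨r, x, y, z, e, rfl, rfl, rfl⟩ := polar h₁ h₂ h₃
    have := mul_le_mul_of_nonneg_left (H x y z e).1.le (sq_nonneg r)
    simp only [fb, Co.yy] at this ⊢
    linarith
  · obtain ⟨r, x, y, z, e, rfl, rfl, e3⟩ := polar h₁ h₂ 0
    have := mul_le_mul_of_nonneg_left (H x y z e).2.le (sq_nonneg r)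
    have e4 : (r * z) ^ 2 = 0 := by rw [← e3]; ring
    simp only [fo, Co.yy] at this ⊢
    linarith
  · have b1 := pow_le_pow_left₀ n12 (show |k.e1| ≤ φ * T / 6 by linarith) 2
    have b2 := pow_le_pow_left₀ n13 (show |k.e2| ≤ φ * T / 6 by linarith) 2
    have b3 := pow_le_pow_left₀ (by linarith) (show φ * T / 2 ≤ a + a * q⁻¹ by linarith) 2
    rw [sq_abs] at b1 b2
    generalize a + a * q⁻¹ = d at b3
    have e : (c * d) ^ 2 + (S * d) ^ 2 = d ^ 2 := by linear_combination d ^ 2 * h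
    show _ ≤ (k.e1 + c * d) ^ 2 + (k.e2 + S * d) ^ 2
    linarith [sq_nonneg (2 * k.e1 + c * d), sq_nonneg (2 * k.e2 + S * d), sq_nonneg (φ * T)]

/-- continuity of the six entries -/
def Ct (u : ℝ → ℝ → J6) : Prop :=
  (Continuous fun x : ℝ × ℝ => (u x.1 x.2).f) ∧ (Continuous fun x : ℝ × ℝ => (u x.1 x.2).t) ∧
  (Continuous fun x : ℝ × ℝ => (u x.1 x.2).c) ∧ (Continuous fun x : ℝ × ℝ => (u x.1 x.2).tt) ∧
  (Continuous fun x : ℝ × ℝ => (u x.1 x.2).tc) ∧ Continuous fun x : ℝ × ℝ => (u x.1 x.2).cc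

theorem ct_hc (l : List ℝ) : Ct fun _ c => hc l c := by
  induction l with
  | nil => exact ⟨continuous_const, continuous_const, continuous_const, continuous_const,
      continuous_const, continuous_const⟩
  | cons a l ih =>
    obtain ⟨h1, h2, h3, h4, h5, h6⟩ := ih
    simp only [Ct, hc, List.foldr_cons, J6.add, J6.mul, J6.cst, J6.vy] at *
    refine ⟨?_, ?_, ?_, ?_, ?_, ?_⟩ <;> fun_prop

theorem ct_hs (l : List (List ℝ)) : Ct (hs l) := by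
  induction l with
  | nil => exact ⟨continuous_const, continuous_const, continuous_const, continuous_const,
      continuous_const, continuous_const⟩
  | cons a l ih =>
    obtain ⟨h1, h2, h3, h4, h5, h6⟩ := ih
    obtain ⟨g1, g2, g3, g4, g5, g6⟩ := ct_hc a
    simp only [Ct, hs, List.foldr_cons, J6.add, J6.mul, J6.vx] at *
    refine ⟨?_, ?_, ?_, ?_, ?_, ?_⟩ <;> fun_prop

theorem ct_co {Y : Type} [TopologicalSpace Y] (P q : ℝ) {c S η a b d : Y → ℝ} {j : Y → J6}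
    (hc : Continuous c) (hS : Continuous S) (hη : Continuous η) (ha : Continuous a)
    (hb : Continuous b) (hd : Continuous d) (h1 : Continuous fun x => (j x).f)
    (h2 : Continuous fun x => (j x).t) (h3 : Continuous fun x => (j x).c)
    (h4 : Continuous fun x => (j x).tt) (h5 : Continuous fun x => (j x).tc)
    (h6 : Continuous fun x => (j x).cc) :
    (Continuous fun x => fb (co q (c x) (S x) (j x)) P (η x) (a x) (b x) (d x)) ∧
    (Continuous fun x => fo (co q (c x) (S x) (j x)) P (η x) (a x) (b x) (d x)) ∧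
    (Continuous fun x => sz (co q (c x) (S x) (j x))) ∧
    Continuous fun x => (co q (c x) (S x) (j x)).c3 := by
  simp only [fb, fo, sz, co, Co.yy]
  refine ⟨?_, ?_, ?_, ?_⟩ <;> fun_prop

theorem tube {X Y : Type} [TopologicalSpace X] [TopologicalSpace Y] {K : Set Y} (hK : IsCompact K)
    (x₀ : X) {f : X × Y → ℝ} (hf : Continuous f) {M : ℝ} (h : ∀ y ∈ K, f (x₀, y) < M) :
    ∀ᶠ x in 𝓝 x₀, ∀ y ∈ K, f (x, y) < M :=
  hK.eventually_forall_of_forall_eventually (P := fun x y => f (x, y) < M) fun y hy =>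
    hf.continuousAt.eventually_lt continuousAt_const (h y hy)

/-- compactness -/
theorem near {P q : ℝ} {u : ℝ → ℝ → J6} (hu : Ct u)
    (H : ∀ c S h₁ h₂ h₃ : ℝ, c ^ 2 + S ^ 2 = 1 → h₁ ^ 2 + h₂ ^ 2 + h₃ ^ 2 = 1 →
      fb (co q c S (u 0 c)) P 0 h₁ h₂ h₃ < 0 ∧ fo (co q c S (u 0 c)) P 0 h₁ h₂ h₃ < 0 ∧
        0 < (co q c S (u 0 c)).c3) :
    ∃ η M : ℝ, 0 < η ∧ 0 < M ∧ ∀ᶠ s in 𝓝 (0 : ℝ), ∀ c S : ℝ, c ^ 2 + S ^ 2 = 1 →
      (∀ h₁ h₂ h₃ : ℝ, h₁ ^ 2 + h₂ ^ 2 + h₃ ^ 2 = 1 → fb (co q c S (u s c)) P η h₁ h₂ h₃ < 0 ∧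
        fo (co q c S (u s c)) P η h₁ h₂ h₃ < 0) ∧ sz (co q c S (u s c)) ≤ M ∧
        0 < (co q c S (u s c)).c3 := by
  obtain ⟨h1, h2, h3, h4, h5, h6⟩ := hu
  obtain ⟨K, hK, mK⟩ : ∃ K : Set ((ℝ × ℝ) × ℝ × ℝ × ℝ), IsCompact K ∧ ∀ x, x ∈ K ↔
      x.1.1 ^ 2 + x.1.2 ^ 2 = 1 ∧ x.2.1 ^ 2 + x.2.2.1 ^ 2 + x.2.2.2 ^ 2 = 1 := by
    have I := isCompact_Icc (a := (-1 : ℝ)) (b := 1)
    have cl : ∀ x : ℝ, x ^ 2 ≤ 1 → x ∈ Icc (-1 : ℝ) 1 := fun x h =>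
      abs_le.1 ((sq_le_one_iff_abs_le_one x).1 h)
    refine ⟨{x | x.1.1 ^ 2 + x.1.2 ^ 2 = 1} ∩ {x | x.2.1 ^ 2 + x.2.2.1 ^ 2 + x.2.2.2 ^ 2 = 1},
      ((I.prod I).prod (I.prod (I.prod I))).of_isClosed_subset
      ((isClosed_eq (by fun_prop) continuous_const).inter
        (isClosed_eq (by fun_prop) continuous_const)) ?_, fun _ => Iff.rfl⟩
    rintro ⟨⟨c, S⟩, a, b, d⟩ ⟨e1 : c ^ 2 + S ^ 2 = 1, e2 : a ^ 2 + b ^ 2 + d ^ 2 = 1⟩
    have := sq_nonneg c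
    have := sq_nonneg S
    have := sq_nonneg a
    have := sq_nonneg b
    have := sq_nonneg d
    exact ⟨⟨cl _ (by linarith), cl _ (by linarith)⟩, cl _ (by linarith), cl _ (by linarith),
      cl _ (by linarith)⟩
  have hπ : Continuous fun z : (ℝ × ℝ) × (ℝ × ℝ) × ℝ × ℝ × ℝ => (z.1.1, z.2.1.1) := by fun_prop
  obtain ⟨c1, c2, c3, c4⟩ := ct_co (Y := (ℝ × ℝ) × (ℝ × ℝ) × ℝ × ℝ × ℝ) P q
    (c := fun z => z.2.1.1) (S := fun z => z.2.1.2) (η := fun z => z.1.2) (a := fun z => z.2.2.1)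
    (b := fun z => z.2.2.2.1) (d := fun z => z.2.2.2.2) (j := fun z => u z.1.1 z.2.1.1)
    (by fun_prop) (by fun_prop) (by fun_prop) (by fun_prop) (by fun_prop) (by fun_prop)
    (h1.comp hπ) (h2.comp hπ) (h3.comp hπ) (h4.comp hπ) (h5.comp hπ) (h6.comp hπ)
  obtain ⟨M, hM⟩ := hK.exists_bound_of_continuousOn
    (c3.comp (Continuous.prodMk_right ((0, 0) : ℝ × ℝ))).continuousOn
  have ev := (tube hK (0, 0) c1 fun x hx => (H _ _ _ _ _ ((mK x).1 hx).1 ((mK x).1 hx).2).1).and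
    ((tube hK (0, 0) c2 fun x hx => (H _ _ _ _ _ ((mK x).1 hx).1 ((mK x).1 hx).2).2.1).and
      ((tube hK (0, 0) c3 (M := |M| + 1) fun x hx =>
        ((le_of_abs_le (hM x hx)).trans (le_abs_self M)).trans_lt (lt_add_one _)).and
        (tube hK (0, 0) c4.neg fun x hx =>
          neg_lt_zero.2 (H _ _ _ _ _ ((mK x).1 hx).1 ((mK x).1 hx).2).2.2)))
  rw [nhds_prod_eq] at ev
  obtain ⟨pa, ha, pb, hb, h⟩ := eventually_prod_iff.1 ev
  obtain ⟨η, e1, e2⟩ := ((hb.filter_mono nhdsWithin_le_nhds).and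
    (self_mem_nhdsWithin (s := Ioi (0 : ℝ)))).exists
  refine ⟨η, |M| + 1, e2, by positivity, ha.mono fun s hs c S e => ?_⟩
  obtain ⟨k1, k2, k3, k4⟩ := h hs e1
  have m := (mK ((c, S), 1, 0, 0)).2 ⟨e, by norm_num⟩
  exact ⟨fun a b d e' => ⟨k1 ((c, S), a, b, d) ((mK _).2 ⟨e, e'⟩), k2 ((c, S), a, b, d)
    ((mK _).2 ⟨e, e'⟩)⟩, (k3 _ m).le, neg_lt_zero.1 (k4 _ m)⟩

/-- the bounded part of the jets -/
def uY (P Φ G s : ℝ) (k : J6) : J6 :=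
  let b := Φ * P * Real.exp (-(P * (s * k.f))) * (1 - s) / G
  let t := (s * k.t + k.f) * (1 - s)
  ⟨0, b * t, b * -k.c, b * (t * (2 + P * (s * t)) - ((s * k.tt + 2 * k.t) * s * (1 - s) ^ 2 +
    t * (1 - 2 * s))), b * (-((1 + P * (s * t)) * k.c) + (s * k.tc + k.c) * (1 - s)),
    b * (P * s * k.c ^ 2 - k.cc)⟩

theorem pd {A B C x y : ℝ} (hC : 0 < C) (h : B ^ 2 < A * C) :
    0 ≤ A * x ^ 2 + 2 * B * x * y + C * y ^ 2 ∧
      (A * x ^ 2 + 2 * B * x * y + C * y ^ 2 ≤ 0 → x = 0 ∧ y = 0) := by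
  have p := mul_nonneg (sub_pos.2 h).le (sq_nonneg x)
  have p' := sq_nonneg (B * x + C * y)
  refine ⟨le_of_mul_le_mul_left (by linarith) hC, fun g => ?_⟩
  have g1 := mul_le_mul_of_nonneg_left g hC.le
  have x0 : x = 0 := pow_eq_zero_iff two_ne_zero |>.1
    ((mul_eq_zero.1 (show (A * C - B ^ 2) * x ^ 2 = 0 by linarith)).resolve_left (sub_pos.2 h).ne')
  subst x0
  exact ⟨rfl, (mul_eq_zero.1 (pow_eq_zero_iff two_ne_zero |>.1
    (show (C * y) ^ 2 = 0 by linarith [sq_nonneg (C * y)]))).resolve_left hC.ne'⟩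

/-- the limit forms -/
theorem lim0 {P q c S B B₁ B₂ h₁ h₂ h₃ : ℝ} (P0 : 0 < P) (e' : h₁ ^ 2 + h₂ ^ 2 + h₃ ^ 2 = 1)
    (a2 : 0 < B - c * B₁) (a3 : 0 < B - c * B₁ + S ^ 2 * B₂)
    (a4 : (S * (1 - P * B₁)) ^ 2 < ((1 + P) * (B - c * B₁ + S ^ 2 * B₂) + 2 * (c - P * B)) *
      (B - c * B₁ + S ^ 2 * B₂))
    (a5 : (S * (1 - P * B₁)) ^ 2 < ((1 + P) * (B - c * B₁) + 2 * (c - P * B)) *
      (2 * (B - c * B₁) + S ^ 2 * B₂)) :
    fb (co q c S ⟨0, P * B, -(P * B₁), P * B, 0, -(P * B₂)⟩) P 0 h₁ h₂ h₃ < 0 ∧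
      fo (co q c S ⟨0, P * B, -(P * B₁), P * B, 0, -(P * B₂)⟩) P 0 h₁ h₂ h₃ < 0 := by
  obtain ⟨b1, b2⟩ := pd (x := h₂) (y := h₃) a3 a4
  obtain ⟨d1, d2⟩ := pd (x := h₁) (y := h₂) (by linarith) a5
  have b3 := mul_nonneg a2.le (sq_nonneg ((1 + P) * h₁ + h₃))
  refine ⟨lt_of_not_ge fun g => ?_, lt_of_not_ge fun g => ?_⟩
  · simp only [fb, co, Co.yy] at g
    have p1 := mul_nonneg P0.le b3
    obtain ⟨rfl, rfl⟩ := b2 (le_of_mul_le_mul_left (by linarith) P0)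
    have p2 : 0 < P * ((B - c * B₁) * ((1 + P) ^ 2 * h₁ ^ 2)) := by
      rw [show h₁ ^ 2 = 1 by linarith]; positivity
    linarith
  · simp only [fo, co, Co.yy] at g
    have p1 := mul_nonneg P0.le d1
    obtain ⟨rfl, rfl⟩ := d2 (le_of_mul_le_mul_left (by linarith [sq_nonneg h₃]) P0)
    linarith

end CertYA

open CertYA

/-- the certificate without a plateau; `R = s R₁(s, c)`, `R₁` is given by `l`;
`B, B₁, B₂` are the value and the derivatives of `Φ R₁(0, c) / G` -/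
theorem certY {P q G Φ m : ℝ} (l : List (List ℝ)) (G0 : 0 < G) (q1 : 1 < q) (P0 : 0 < P)
    (P1 : P < 1) (f0 : 0 < Φ) (m0 : 0 < m)
    (key : ∀ s T c S, 0 < s → s < 1 → T = Real.exp (-(P * (hs ([] :: l) s c).f)) * (1 - s) / (G * s) →
      c ^ 2 + S ^ 2 = 1 → 0 ≤ S →
      Key P q c S (jT T (jE P Φ (s * (1 - s)) (s * (1 - s) * (1 - 2 * s)) (hs ([] :: l) s c)))
        (m * T))
    (end0 : ∀ c B B₁ B₂ : ℝ, c ^ 2 ≤ 1 → B = Φ / G * (hs l 0 c).f → B₁ = Φ / G * (hs l 0 c).c →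
      B₂ = Φ / G * (hs l 0 c).cc → 0 < 1 - P * B₁ ∧ 0 < B - c * B₁ ∧
      0 < B - c * B₁ + (1 - c ^ 2) * B₂ ∧
      (1 - c ^ 2) * (1 - P * B₁) ^ 2 < ((1 + P) * (B - c * B₁ + (1 - c ^ 2) * B₂) + 2 * (c - P * B)) *
        (B - c * B₁ + (1 - c ^ 2) * B₂) ∧
      (1 - c ^ 2) * (1 - P * B₁) ^ 2 < ((1 + P) * (B - c * B₁) + 2 * (c - P * B)) *
        (2 * (B - c * B₁) + (1 - c ^ 2) * B₂)) :
    ∃ F j κ τ₀ τ₁ C δ e, CertR P q F j κ τ₀ τ₁ C δ e := by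
  obtain ⟨B, B0, hB⟩ := scale_bd ([] :: l) P
  obtain ⟨D, hD⟩ := hs_bd l
  have D0 : 0 ≤ D := (abs_nonneg _).trans (hD 0 0 le_rfl zero_le_one (by norm_num))
  have cu : Ct fun s c => uY P Φ G s (hs l s c) := by
    obtain ⟨h1, h2, h3, h4, h5, h6⟩ := ct_hs l
    simp only [Ct, uY]
    refine ⟨?_, ?_, ?_, ?_, ?_, ?_⟩ <;> fun_prop
  obtain ⟨η, M, h0, M0, ev⟩ := near (P := P) (q := q) cu fun c S h₁ h₂ h₃ e e' => by
    obtain ⟨a1, a2, a3, a4, a5⟩ := end0 c _ _ _ (by linarith [sq_nonneg S]) rfl rfl rfl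
    have eS : 1 - c ^ 2 = S ^ 2 := by linarith
    rw [eS] at a3 a4 a5
    rw [← mul_pow] at a4 a5
    rw [show uY P Φ G 0 (hs l 0 c) = ⟨0, P * (Φ / G * (hs l 0 c).f), -(P * (Φ / G * (hs l 0 c).c)),
        P * (Φ / G * (hs l 0 c).f), 0, -(P * (Φ / G * (hs l 0 c).cc))⟩ by
      simp only [uY, zero_mul, mul_zero, neg_zero, Real.exp_zero, J6.mk.injEq]
      refine ⟨trivial, ?_, ?_, ?_, ?_, ?_⟩ <;> ring]
    exact ⟨(lim0 P0 e' a2 a3 a4 a5).1, (lim0 P0 e' a2 a3 a4 a5).2, a1.trans_eq (by simp [co]; ring)⟩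
  have hT : ∀ τ x, Real.exp (τ - x) = Real.exp (-x) * (1 - sg 1 G τ) / (G * sg 1 G τ) := fun τ x => by
    have := Real.exp_pos τ
    rw [sub_eq_add_neg, Real.exp_add, sg, neg_mul, one_mul, Real.exp_neg τ]
    field_simp
    ring
  have hf : ∀ s c, (hs ([] :: l) s c).f = s * (hs l s c).f := fun s c => zero_add _
  have hj : ∀ τ c, jF P Φ 1 τ (sg 1 G τ) (hs ([] :: l) (sg 1 G τ) c) =
      (uY P Φ G (sg 1 G τ) (hs l (sg 1 G τ) c)).add
        ⟨Φ * Real.exp (τ - P * (hs ([] :: l) (sg 1 G τ) c).f),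
          Φ * Real.exp (τ - P * (hs ([] :: l) (sg 1 G τ) c).f), 0,
          Φ * Real.exp (τ - P * (hs ([] :: l) (sg 1 G τ) c).f), 0, 0⟩ := fun τ c => by
    have n := (sg_mem (μ := 1) G0 τ).1.ne'
    have n' := G0.ne'
    rw [jF, hT, hf]
    generalize sg 1 G τ = s at n
    rw [show hs ([] :: l) s c = (J6.cst 0).add ((J6.vx s).mul (hs l s c)) from rfl]
    simp only [jT, jE, uY, J6.add, J6.mul, J6.cst, J6.vx, J6.mk.injEq]
    refine ⟨?_, ?_, ?_, ?_, ?_, ?_⟩ <;> field_simp <;> ring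
  have tz : Tendsto (sg 1 G) atTop (𝓝 0) := by
    have a : Tendsto (fun τ => Real.exp (-1 * τ)) atTop (𝓝 0) := by
      simpa using Real.tendsto_exp_neg_atTop_nhds_zero
    exact zero_div (G + 0) ▸ a.div (a.const_add G) (by simpa using G0.ne')
  obtain ⟨β₀, hβ⟩ := eventually_atTop.1 ((tz.eventually ev).and ((eventually_ge_atTop 0).and
    (((Real.tendsto_exp_atTop.const_mul_atTop f0).eventually_ge_atTop
      (6 * (M + Φ * (2 * (P * D / G))))).and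
      ((tz.const_mul (P * D)).eventually_le_const (show P * D * 0 < 1 / 4 by norm_num)))))
  have ex : ∀ τ c, β₀ ≤ τ → c ^ 2 ≤ 1 →
      |Real.exp (-(P * (hs ([] :: l) (sg 1 G τ) c).f)) - 1| ≤ 2 * (P * D * sg 1 G τ) := by
    intro τ c h g
    obtain ⟨s0, s1⟩ := sg_mem (μ := 1) G0 τ
    have a : |-(P * (hs ([] :: l) (sg 1 G τ) c).f)| ≤ P * D * sg 1 G τ := by
      rw [hf, abs_neg, abs_mul, abs_mul, abs_of_pos P0, abs_of_pos s0, mul_assoc, mul_comm D]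
      exact mul_le_mul_of_nonneg_left (mul_le_mul_of_nonneg_left (hD _ c s0.le s1.le g) s0.le) P0.le
    exact (Real.abs_exp_sub_one_le (by linarith [(hβ τ h).2.2.2])).trans (by linarith)
  refine cusp (e := 1) (C := Φ * B) (η := η) (M := M + 4 * Φ + Φ * (2 * (P * D / G))) (c₀ := Φ / 4)
    (φ := Φ) (β₀ := β₀) (j := fun τ c => jF P Φ 1 τ (sg 1 G τ) (hs ([] :: l) (sg 1 G τ) c)) P0.le P1
    le_rfl q1 h0 (by positivity) (by positivity) f0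
    (fun τ c _ => jt_F G0 P Φ (jt_hs ([] :: l) (sg 1 G τ, c))) (fun τ c h => ?_)
    (fun _ => ⟨m / B, div_pos m0 B0, fun τ c S _ g s => ?_⟩) (fun τ c S h g _ => ?_)
    fun τ c h g => ?_
  · have := mul_le_mul_of_nonneg_left
      (hB τ _ c (sg_mem (μ := 1) G0 τ).1.le (sg_mem G0 τ).2.le h).1 f0.le
    simp only [jF, jT, jE]
    rw [abs_of_nonneg (by positivity)]
    linarith
  · obtain ⟨s0, s1⟩ := sg_mem (μ := 1) G0 τ
    rw [jF, one_pow, one_mul, one_mul]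
    refine key_mono (key _ _ c S s0 s1 (hT _ _) g s) (by positivity) ?_
    rw [one_mul, div_mul_eq_mul_div, div_le_iff₀ B0, mul_assoc, mul_comm _ B]
    exact mul_le_mul_of_nonneg_left (hB τ _ c s0.le s1.le (by linarith [sq_nonneg S])).2 m0.le
  · obtain ⟨k1, k2, k3, k4⟩ := hβ τ h
    obtain ⟨k5, k6, k7⟩ := k1 c S g
    have a := abs_le.1 (ex τ c h (by linarith [sq_nonneg S]))
    have fT := (mul_pos f0 (Real.exp_pos τ)).le
    have D1 : 0 ≤ Φ * (2 * (P * D / G)) := by positivity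
    rw [hj, show M + 4 * Φ + Φ * (2 * (P * D / G)) = M + Φ * (2 * (P * D / G)) + 4 * Φ by ring]
    have a1 := mul_le_mul_of_nonneg_left (show 1 / 2 ≤ Real.exp (-(P * (hs ([] :: l) (sg 1 G τ)
      c).f)) by linarith) fT
    have a2 := mul_le_mul_of_nonneg_left (show Real.exp (-(P * (hs ([] :: l) (sg 1 G τ) c).f)) ≤ 2 by
      linarith) fT
    refine zone_of g q1.le f0 (Real.one_le_exp k2) ?_ ?_ k3 k5 (by linarith) k7 <;>
      rw [sub_eq_add_neg τ, Real.exp_add] <;> linarith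
  · have a := mul_le_mul_of_nonneg_left (ex τ c h g) (mul_pos f0 (Real.exp_pos τ)).le
    have b : Real.exp τ * sg 1 G τ ≤ 1 / G := by
      have := Real.exp_pos τ
      rw [sg, neg_mul, one_mul, Real.exp_neg, ← mul_div_assoc, mul_inv_cancel₀ this.ne']
      exact one_div_le_one_div_of_le G0 (le_add_of_nonneg_right (by positivity))
    have b' := mul_le_mul_of_nonneg_left b (show 0 ≤ Φ * (2 * (P * D)) by positivity)
    simp only [jF, jT, jE]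
    rw [sub_eq_add_neg τ, Real.exp_add, show Real.exp τ * Real.exp (-(P * (hs ([] :: l) (sg 1 G τ)
      c).f)) * Φ - Φ * Real.exp τ = Φ * Real.exp τ * (Real.exp (-(P * (hs ([] :: l) (sg 1 G τ)
      c).f)) - 1) by ring, abs_mul, abs_of_pos (mul_pos f0 (Real.exp_pos τ))]
    have : Φ * (2 * (P * D)) * (1 / G) = Φ * (2 * (P * D / G)) := by ring
    linarith

/-- the jets of `T (φ + P s Ψ(s, c))` divided by `T = exp τ`; `k` are the jets of `Ψ` -/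
def jP (P φ s : ℝ) (k : J6) : J6 :=
  ⟨φ + P * (s * k.f), φ + P * (s ^ 2 * (k.f - (1 - s) * k.t)), P * (s * k.c),
    φ + P * (s ^ 2 * ((2 * s - 1) * (k.f - (1 - s) * k.t) - s * (1 - s) * (2 * k.t - (1 - s) * k.tt))),
    P * (s ^ 2 * (k.c - (1 - s) * k.tc)), P * (s * k.cc)⟩

/-- the same for `F = T (φ + P s Ψ(s, c))`, `T = exp τ`, `s = 1 / (1 + G T)`;
`B, B₁, B₂` are the value and the derivatives of `-Ψ(0, c) / G` -/
theorem certP {P q G φ m : ℝ} {Ψ : ℝ × ℝ → ℝ} {ψ : ℝ → ℝ → J6} (jt : ∀ s c, Jt2 Ψ (s, c) (ψ s c))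
    (ct : Ct ψ) (G0 : 0 < G) (q1 : 1 < q) (P0 : 0 < P) (P1 : P < 1) (f0 : 0 < φ) (m0 : 0 < m)
    (key : ∀ s T c S, 0 < s → s < 1 → T = (1 - s) / (G * s) → c ^ 2 + S ^ 2 = 1 → 0 ≤ S →
      Key P q c S (jT T (jP P φ s (ψ s c))) (m * T))
    (end0 : ∀ c B B₁ B₂ : ℝ, c ^ 2 ≤ 1 → B = -(ψ 0 c).f / G → B₁ = -(ψ 0 c).c / G →
      B₂ = -(ψ 0 c).cc / G → 0 < 1 - P * B₁ ∧ 0 < B - c * B₁ ∧
      0 < B - c * B₁ + (1 - c ^ 2) * B₂ ∧
      (1 - c ^ 2) * (1 - P * B₁) ^ 2 < ((1 + P) * (B - c * B₁ + (1 - c ^ 2) * B₂) + 2 * (c - P * B)) *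
        (B - c * B₁ + (1 - c ^ 2) * B₂) ∧
      (1 - c ^ 2) * (1 - P * B₁) ^ 2 < ((1 + P) * (B - c * B₁) + 2 * (c - P * B)) *
        (2 * (B - c * B₁) + (1 - c ^ 2) * B₂)) :
    ∃ F j κ τ₀ τ₁ C δ e, CertR P q F j κ τ₀ τ₁ C δ e := by
  obtain ⟨D, hD⟩ : ∃ D, ∀ s c : ℝ, 0 ≤ s → s ≤ 1 → c ^ 2 ≤ 1 → |(ψ s c).f| ≤ D := by
    obtain ⟨B, h⟩ := ((isCompact_Icc (a := (0 : ℝ)) (b := 1)).prod
      (isCompact_Icc (a := (-1 : ℝ)) (b := 1))).exists_bound_of_continuousOn ct.1.continuousOn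
    exact ⟨B, fun s c a b g => h (s, c) ⟨⟨a, b⟩, abs_le.1 ((sq_le_one_iff_abs_le_one c).1 g)⟩⟩
  have D0 : 0 ≤ D := (abs_nonneg _).trans (hD 0 0 le_rfl zero_le_one (by norm_num))
  obtain ⟨u, hu⟩ : ∃ u : ℝ → ℝ → J6, u = fun s c => jT (P * (1 - s) / G)
    ⟨0, s * ((ψ s c).f - (1 - s) * (ψ s c).t) - (ψ s c).f, (ψ s c).c,
      s * ((2 * s - 1) * ((ψ s c).f - (1 - s) * (ψ s c).t) -
        s * (1 - s) * (2 * (ψ s c).t - (1 - s) * (ψ s c).tt)) - (ψ s c).f,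
      s * ((ψ s c).c - (1 - s) * (ψ s c).tc), (ψ s c).cc⟩ := ⟨_, rfl⟩
  have cu : Ct u := by
    obtain ⟨h1, h2, h3, h4, h5, h6⟩ := ct
    simp only [Ct, hu, jT]
    refine ⟨?_, ?_, ?_, ?_, ?_, ?_⟩ <;> fun_prop
  obtain ⟨η, M, h0, M0, ev⟩ := near (P := P) (q := q) cu fun c S h₁ h₂ h₃ e e' => by
    obtain ⟨a1, a2, a3, a4, a5⟩ := end0 c _ _ _ (by linarith [sq_nonneg S]) rfl rfl rfl
    have eS : 1 - c ^ 2 = S ^ 2 := by linarith
    rw [eS] at a3 a4 a5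
    rw [← mul_pow] at a4 a5
    rw [show u 0 c = ⟨0, P * (-(ψ 0 c).f / G), -(P * (-(ψ 0 c).c / G)), P * (-(ψ 0 c).f / G), 0,
        -(P * (-(ψ 0 c).cc / G))⟩ by
      simp only [hu, jT, J6.mk.injEq]
      refine ⟨?_, ?_, ?_, ?_, ?_, ?_⟩ <;> ring]
    exact ⟨(lim0 P0 e' a2 a3 a4 a5).1, (lim0 P0 e' a2 a3 a4 a5).2, a1.trans_eq (by simp [co]; ring)⟩
  have hT : ∀ τ, Real.exp τ = (1 - sg 1 G τ) / (G * sg 1 G τ) := fun τ => by
    have := Real.exp_pos τ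
    rw [sg, neg_mul, one_mul, Real.exp_neg τ]
    field_simp
    ring
  have hj : ∀ τ c, jT (Real.exp τ) (jP P φ (sg 1 G τ) (ψ (sg 1 G τ) c)) = (u (sg 1 G τ) c).add
      ⟨Real.exp τ * (φ + P * (sg 1 G τ * (ψ (sg 1 G τ) c).f)),
        Real.exp τ * (φ + P * (sg 1 G τ * (ψ (sg 1 G τ) c).f)), 0,
        Real.exp τ * (φ + P * (sg 1 G τ * (ψ (sg 1 G τ) c).f)), 0, 0⟩ := fun τ c => by
    have n := (sg_mem (μ := 1) G0 τ).1.ne'
    have n' := G0.ne'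
    rw [hT]
    generalize sg 1 G τ = s at n
    simp only [hu, jT, jP, J6.add, J6.mk.injEq]
    refine ⟨?_, ?_, ?_, ?_, ?_, ?_⟩ <;> field_simp <;> ring
  have tz : Tendsto (sg 1 G) atTop (𝓝 0) := by
    have a : Tendsto (fun τ => Real.exp (-1 * τ)) atTop (𝓝 0) := by
      simpa using Real.tendsto_exp_neg_atTop_nhds_zero
    exact zero_div (G + 0) ▸ a.div (a.const_add G) (by simpa using G0.ne')
  obtain ⟨β₀, hβ⟩ := eventually_atTop.1 ((tz.eventually ev).and ((eventually_ge_atTop 0).and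
    ((Real.tendsto_exp_atTop.const_mul_atTop f0).eventually_ge_atTop (6 * (M + P * D / G)))))
  have ex : ∀ τ c, c ^ 2 ≤ 1 → |P * (sg 1 G τ * (ψ (sg 1 G τ) c).f)| ≤ P * D * sg 1 G τ := by
    intro τ c g
    obtain ⟨s0, s1⟩ := sg_mem (μ := 1) G0 τ
    rw [abs_mul, abs_mul, abs_of_pos P0, abs_of_pos s0, mul_assoc, mul_comm D]
    exact mul_le_mul_of_nonneg_left (mul_le_mul_of_nonneg_left (hD _ c s0.le s1.le g) s0.le) P0.le
  have ex' : ∀ τ c, c ^ 2 ≤ 1 →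
      |Real.exp τ * (φ + P * (sg 1 G τ * (ψ (sg 1 G τ) c).f)) - φ * Real.exp τ| ≤ P * D / G := by
    intro τ c g
    have a := mul_le_mul_of_nonneg_left (ex τ c g) (Real.exp_pos τ).le
    have b : Real.exp τ * sg 1 G τ ≤ 1 / G := by
      have := Real.exp_pos τ
      rw [sg, neg_mul, one_mul, Real.exp_neg, ← mul_div_assoc, mul_inv_cancel₀ this.ne']
      exact one_div_le_one_div_of_le G0 (le_add_of_nonneg_right (by positivity))
    have b' := mul_le_mul_of_nonneg_left b (mul_nonneg P0.le D0)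
    rw [mul_add, mul_comm φ, add_sub_cancel_left, abs_mul, abs_of_pos (Real.exp_pos τ)]
    rw [mul_one_div] at b'
    linarith
  have D1 : 0 ≤ P * D / G := by positivity
  refine cusp (e := 1) (C := φ + P * D) (η := η) (M := M + P * D / G + 4 * φ) (c₀ := φ / 4)
    (φ := φ) (β₀ := β₀) (F := fun y => Real.exp y.1 * (φ + P * (sg 1 G y.1 * Ψ (sg 1 G y.1, y.2))))
    (j := fun τ c => jT (Real.exp τ) (jP P φ (sg 1 G τ) (ψ (sg 1 G τ) c))) P0.le P1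
    le_rfl q1 h0 (by positivity) (by positivity) f0 (fun τ c _ => ?_) (fun τ c h => ?_)
    (fun _ => ⟨m, m0, fun τ c S _ g s => ?_⟩) (fun τ c S h g _ => ?_) fun τ c h g => ?_
  · have a := ((Jt2.cst _ φ).add ((Jt2.cst _ P).mul ((Jt2.vx _).mul (jt (sg 1 G τ) c)))).sub1
      (σ := sg 1 G) (ContDiffAt.div (by fun_prop) (by fun_prop) (by positivity))
      (Eventually.of_forall (d_sg G0)) (((d_sg G0 τ).fun_mul ((d_sg G0 τ).const_sub 1)).const_mul _)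
    refine (congrArg _ ?_).mp ((Jt2.vx _).exp.mul a)
    simp only [jP, jT, J6.add, J6.mul, J6.exp, J6.cmp, J6.cst, J6.vx, J6.mk.injEq]
    refine ⟨trivial, ?_, ?_, ?_, ?_, ?_⟩ <;> ring
  · have a := (ex τ c h).trans (mul_le_of_le_one_right (mul_nonneg P0.le D0) (sg_mem G0 τ).2.le)
    simp only [jT, jP]
    rw [abs_mul, abs_of_pos (Real.exp_pos τ), mul_comm]
    refine mul_le_mul_of_nonneg_right ((abs_add_le _ _).trans ?_) (Real.exp_pos τ).le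
    rw [abs_of_pos f0]
    linarith
  · rw [one_mul]
    exact key _ _ c S (sg_mem G0 τ).1 (sg_mem G0 τ).2 (hT τ) g s
  · obtain ⟨k1, k2, k3⟩ := hβ τ h
    obtain ⟨k5, k6, k7⟩ := k1 c S g
    have a := abs_le.1 (ex' τ c (by linarith [sq_nonneg S]))
    rw [hj]
    exact zone_of g q1.le f0 (Real.one_le_exp k2) (by linarith) (by linarith) k3 k5 (by linarith) k7
  · exact (ex' τ c g).trans (by linarith)

/-- polynomials in `(a s + b, c)` -/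
def hsA (l : List (List ℝ)) (a b s c : ℝ) : J6 :=
  ⟨(hs l (a * s + b) c).f, a * (hs l (a * s + b) c).t, (hs l (a * s + b) c).c,
    a ^ 2 * (hs l (a * s + b) c).tt, a * (hs l (a * s + b) c).tc, (hs l (a * s + b) c).cc⟩

theorem jt_hsA (l : List (List ℝ)) (a b s c : ℝ) :
    Jt2 (fun y => (hs l (a * y.1 + b) y.2).f) (s, c) (hsA l a b s c) := by
  refine (congrArg _ ?_).mp ((jt_hs l (a * s + b, c)).sub1 (σ := fun t => a * t + b)
    (σ' := fun _ => a) (by fun_prop) (Eventually.of_forall fun t =>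
      (((hasDerivAt_id' t).const_mul a).add_const b).congr_deriv (mul_one a)) (hasDerivAt_const _ _))
  simp [hsA]

theorem ct_hsA (l : List (List ℝ)) (a b : ℝ) : Ct (hsA l a b) := by
  obtain ⟨h1, h2, h3, h4, h5, h6⟩ := ct_hs l
  have e : Continuous fun x : ℝ × ℝ => (a * x.1 + b, x.2) := by fun_prop
  exact ⟨h1.comp e, continuous_const.mul (h2.comp e), h3.comp e, continuous_const.mul (h4.comp e),
    continuous_const.mul (h5.comp e), h6.comp e⟩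

end Pool.Agent.MP_815c6c_an.W
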