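import Pool.Agent.MP_815c6c_an.W.Defs

/-! The comparison with the certificate. -/

set_option autoImplicit false

noncomputable section

namespace Pool.Agent.MP_815c6c_an.W

open Set Metric Filter Topology
open scoped RealInnerProductSpace

namespace CmpA

theorem two_max {α : Type} [TopologicalSpace α] {K L : Set α} {f g : α → ℝ} {m : ℝ}
    (hK : IsCompact K) (hL : IsCompact L) (hf : ContinuousOn f K) (hg : ContinuousOn g L)
    (h : (∃ w ∈ K, m ≤ f w) ∨ ∃ w ∈ L, m ≤ g w) :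
    (∃ w ∈ K, m ≤ f w ∧ (∀ v ∈ K, f v ≤ f w) ∧ ∀ v ∈ L, g v ≤ f w) ∨
      ∃ w ∈ L, m ≤ g w ∧ (∀ v ∈ L, g v ≤ g w) ∧ ∀ v ∈ K, f v ≤ g w := by
  rcases K.eq_empty_or_nonempty with rfl | k
  · rcases h with ⟨w, hw, -⟩ | ⟨w, hw, hm⟩
    · exact hw.elim
    · obtain ⟨b, hb, mb⟩ := hL.exists_isMaxOn ⟨w, hw⟩ hg
      exact .inr ⟨b, hb, hm.trans (mb hw), fun v hv => mb hv, fun v hv => hv.elim⟩
  obtain ⟨a, ha, ma⟩ := hK.exists_isMaxOn k hf
  rcases L.eq_empty_or_nonempty with rfl | l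
  · rcases h with ⟨w, hw, hm⟩ | ⟨w, hw, -⟩
    · exact .inl ⟨a, ha, hm.trans (ma hw), fun v hv => ma hv, fun v hv => hv.elim⟩
    · exact hw.elim
  obtain ⟨b, hb, mb⟩ := hL.exists_isMaxOn l hg
  rcases le_total (g b) (f a) with e | e
  · refine .inl ⟨a, ha, ?_, fun v hv => ma hv, fun v hv => le_trans (mb hv) e⟩
    rcases h with ⟨w, hw, hm⟩ | ⟨w, hw, hm⟩
    · exact hm.trans (ma hw)
    · exact hm.trans (le_trans (mb hw) e)
  · refine .inr ⟨b, hb, ?_, fun v hv => mb hv, fun v hv => le_trans (ma hv) e⟩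
    rcases h with ⟨w, hw, hm⟩ | ⟨w, hw, hm⟩
    · exact hm.trans (le_trans (ma hw) e)
    · exact hm.trans (mb hw)

variable {d : ℕ}

theorem grad {u : X d → ℝ} {x : X d} (h : DifferentiableAt ℝ u x) :
    HasFDerivAt u (innerSL ℝ (gradient u x)) x := h.hasGradientAt.hasFDerivAt

theorem cgrad {u : X d → ℝ} {U : Set (X d)} (hU : IsOpen U) (h : ContDiffOn ℝ 1 u U) :
    ContinuousOn (gradient u) U :=
  (InnerProductSpace.toDual ℝ (X d)).symm.continuous.comp_continuousOn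
    (h.continuousOn_fderiv_of_isOpen hU le_rfl)

theorem lip {u : X d → ℝ} {R : ℝ} (h : ContDiffOn ℝ 1 u (ball 0 R))
    (b : ∀ y ∈ ball (0 : X d) R, ‖gradient u y‖ ≤ 1) {x y : X d} (hx : x ∈ ball (0 : X d) R)
    (hy : y ∈ ball (0 : X d) R) : u x - u y ≤ ‖x - y‖ := by
  have := (convex_ball (0 : X d) R).norm_image_sub_le_of_norm_hasFDerivWithin_le (𝕜 := ℝ) (C := 1)
    (f := u) (f' := fun y => innerSL ℝ (gradient u y))
    (fun z hz => (grad ((h.contDiffAt (isOpen_ball.mem_nhds hz)).differentiableAt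
      one_ne_zero)).hasFDerivWithinAt)
    (fun z hz => by rw [innerSL_apply_norm]; exact b z hz) hy hx
  rw [one_mul] at this
  exact (le_abs_self _).trans this

/-- the first order conditions on the plateau -/
theorem plat {u φ : X d → ℝ} {x y : X d} {κ b : ℝ} (hx : DifferentiableAt ℝ u x)
    (hy : DifferentiableAt ℝ u y) (hφ : DifferentiableAt ℝ φ y) (h0 : x - y ≠ 0)
    (h : IsLocalMax (fun w : X d × X d => u w.1 - (u w.2 + κ * ‖w.1 - w.2‖ ^ (1 + b) + φ w.2))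
      (x, y)) : κ * (1 + b) * ‖x - y‖ ^ b ≤ ‖gradient u y‖ + ‖gradient φ y‖ := by
  have r0 : 0 < ‖x - y‖ := norm_pos_iff.2 h0
  have e1 : gradient u x = gradient u y + gradient φ y := by
    have c : ContinuousAt (fun v : X d => (x + v, y + v)) 0 := by fun_prop
    have m := IsLocalMax.comp_continuous (g := fun v : X d => (x + v, y + v)) (b := 0)
      (by simpa using h) c
    have a1 : HasFDerivAt (fun v => u (x + v)) (innerSL ℝ (gradient u x)) 0 :=
      (hasFDerivAt_comp_add_left x).2 (by simpa using grad hx)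
    have a2 : HasFDerivAt (fun v => u (y + v)) (innerSL ℝ (gradient u y)) 0 :=
      (hasFDerivAt_comp_add_left y).2 (by simpa using grad hy)
    have a3 : HasFDerivAt (fun v => φ (y + v)) (innerSL ℝ (gradient φ y)) 0 :=
      (hasFDerivAt_comp_add_left y).2 (by simpa using grad hφ)
    have a4 := a1.sub ((a2.add_const (κ * ‖x - y‖ ^ (1 + b))).add a3)
    have a5 := m.hasFDerivAt_eq_zero (a4.congr_of_eventuallyEq (Eventually.of_forall fun v => by
      simp))
    refine ext_inner_right ℝ fun v => ?_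
    have := congrArg (fun T : X d →L[ℝ] ℝ => T v) a5
    simp only [sub_apply, add_apply, innerSL_apply_apply, zero_apply] at this
    rw [inner_add_left]
    linarith
  have c : ContinuousAt (fun s : ℝ => (x + s • (x - y), y)) 0 := by fun_prop
  have m := IsLocalMax.comp_continuous (g := fun s : ℝ => (x + s • (x - y), y)) (b := 0)
    (by simpa using h) c
  have a1 : HasDerivAt (fun s : ℝ => x + s • (x - y)) (x - y) 0 := by
    simpa using ((hasDerivAt_id (0 : ℝ)).smul_const (x - y)).const_add x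
  have a2 : HasDerivAt (fun s : ℝ => u (x + s • (x - y))) ⟪gradient u x, x - y⟫ 0 :=
    HasFDerivAt.comp_hasDerivAt (l := u) (l' := innerSL ℝ (gradient u x)) 0
      (by simpa using grad hx) a1
  have a3 : HasDerivAt (fun s : ℝ => ((1 + s) * ‖x - y‖) ^ (1 + b))
      (‖x - y‖ * (1 + b) * ‖x - y‖ ^ b) 0 := by
    have := (((hasDerivAt_id (0 : ℝ)).const_add 1).mul_const ‖x - y‖).rpow_const (p := 1 + b)
      (.inl (by simpa using h0))
    simpa using this
  have a4 := a2.sub (((a3.const_mul κ).const_add (u y)).add_const (φ y))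
  have a5 := m.hasDerivAt_eq_zero (a4.congr_of_eventuallyEq (by
    filter_upwards [lt_mem_nhds (show (-1 : ℝ) < 0 by norm_num)] with s hs
    have : x + s • (x - y) - y = (1 + s) • (x - y) := by module
    simp only [Function.comp, this, norm_smul, Real.norm_of_nonneg (show 0 ≤ 1 + s by linarith),
      Pi.sub_apply]))
  have a6 := real_inner_le_norm (gradient u x) (x - y)
  have a7 := norm_add_le (gradient u y) (gradient φ y)
  rw [← e1] at a7
  refine le_trans (le_of_mul_le_mul_right ?_ r0) a7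
  linarith

theorem ta_le {P ε : ℝ} (hP : 0 ≤ P) {ν : X d} (hν : ‖ν‖ = 1) {f : X d → ℝ}
    (h : ∀ v, f v ≤ ε * ‖v‖ ^ 2) : ta P ν f ≤ ε * (d + P) := by
  have a : ∑ i, f (ei i) ≤ ∑ _i : Fin d, ε := Finset.sum_le_sum fun i _ => by simpa using h (ei i)
  have b := mul_le_mul_of_nonneg_left (h ν) hP
  rw [hν] at b
  simp only [Finset.sum_const, Finset.card_univ, Fintype.card_fin, nsmul_eq_mul] at a
  rw [ta]
  linarith

end CmpA

open CmpA in
theorem cmp : TwoS → PenS → CmpS := by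
  intro two pen d P q G κ t₀ t₁ C δ θ hP k
  have q0 : 0 < q := by linarith [k.q1]
  have b0 : 0 < 1 / q := by positivity
  have t0 := k.t0
  have t1 := k.t1
  have tk := k.tk
  have c0 := k.c0
  have d0 := k.d0
  have κ0 : 0 < κ := by linarith
  have θ0 : 0 < θ := b0.trans_le k.h0
  obtain ⟨ρ, ρ0, hρ⟩ : ∃ ρ : ℝ, 0 < ρ ∧ ∀ r : ℝ, 0 ≤ r → t₀ * r ^ (1 / q) ≤ 1 → r ≤ ρ :=
    ⟨(1 / t₀) ^ q, by positivity, fun r r0 h => by
      rw [mul_comm, ← le_div_iff₀ t0] at h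
      have := Real.rpow_le_rpow (by positivity) h q0.le
      rwa [← Real.rpow_mul r0, one_div_mul_cancel q0.ne', Real.rpow_one] at this⟩
  obtain ⟨A, hA⟩ : ∃ A : ℝ, A = 2 + C / t₀ := ⟨_, rfl⟩
  have A2 : 2 ≤ A := by rw [hA]; exact le_add_of_nonneg_right (by positivity)
  have A0 : 0 < A := by linarith
  obtain ⟨ε, ε0, e1, e2, e3⟩ : ∃ ε : ℝ, 0 < ε ∧ ε * A ^ θ ≤ δ ∧
      ε * (A ^ θ * ρ ^ (θ - 1 / q)) ≤ κ / q / 2 ∧ ε * (d + P + 1) ≤ δ / 2 := by
    refine ⟨min (δ / A ^ θ) (min (κ / q / 2 / (A ^ θ * ρ ^ (θ - 1 / q))) (δ / 2 / (d + P + 1))),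
      by positivity, ?_, ?_, ?_⟩
    · exact (le_div_iff₀ (by positivity)).1 (min_le_left _ _)
    · exact (le_div_iff₀ (by positivity)).1 ((min_le_right _ _).trans (min_le_left _ _))
    · exact (le_div_iff₀ (by positivity)).1 ((min_le_right _ _).trans (min_le_right _ _))
  obtain ⟨φ, R, R1, φ2, φz, φ0, φR, φb⟩ := pen d θ ε (A * ρ + 1) θ0 k.h1 ε0 (by positivity)
  refine ⟨R + ρ + 2, C + κ + t₁, by linarith, by linarith, fun u hu hb x hx => ?_⟩
  have pw : ∀ r : ℝ, 0 < r → r ^ (1 + 1 / q) = r ^ (1 / q) * r := fun r h => by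
    rw [add_comm, Real.rpow_add_one h.ne']
  have cg := cgrad hu.op hu.c1
  have du : ∀ y ∈ ball (0 : X d) (R + ρ + 2), DifferentiableAt ℝ u y := fun y hy =>
    (hu.c1.contDiffAt (isOpen_ball.mem_nhds hy)).differentiableAt one_ne_zero
  obtain ⟨f, hf⟩ : ∃ f : X d × X d → ℝ,
    f = fun w => u w.1 - (u w.2 + G (gradient u w.2, w.1 - w.2) + φ w.2) := ⟨_, rfl⟩
  obtain ⟨g, hg⟩ : ∃ g : X d × X d → ℝ,
    g = fun w => u w.1 - (u w.2 + κ * ‖w.1 - w.2‖ ^ (1 + 1 / q) + φ w.2) := ⟨_, rfl⟩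
  -- upper bounds
  have uf : ∀ w : X d × X d, w.1 ∈ ball (0 : X d) (R + ρ + 2) → w.2 ∈ ball (0 : X d) (R + ρ + 2) →
      w.1 - w.2 ≠ 0 → t₀ * ‖w.1 - w.2‖ ^ (1 / q) ≤ ‖gradient u w.2‖ →
      f w + φ w.2 ≤ A * ‖w.1 - w.2‖ ∧ ‖w.1 - w.2‖ ≤ ρ := fun w h1 h2 h0 h => by
    have r0 := norm_pos_iff.2 h0
    have a1 := (abs_le.1 (k.bd _ _ h0 h)).1
    have a2 := (abs_le.1 (abs_real_inner_le_norm (gradient u w.2) (w.1 - w.2))).1
    have a3 := hb _ h2
    have a4 := lip hu.c1 hb h1 h2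
    have a5 := mul_le_of_le_one_left r0.le a3
    have a6 : ‖w.1 - w.2‖ ^ (1 / q) ≤ 1 / t₀ := by rw [le_div_iff₀ t0]; linarith
    have a7 := mul_le_mul_of_nonneg_left (mul_le_mul_of_nonneg_right a6 r0.le) c0
    rw [pw _ r0] at a1
    refine ⟨?_, hρ _ r0.le (h.trans a3)⟩
    have a8 : A * ‖w.1 - w.2‖ = 2 * ‖w.1 - w.2‖ + C * (1 / t₀ * ‖w.1 - w.2‖) := by rw [hA]; ring
    simp only [hf]
    linarith
  have ug : ∀ w : X d × X d, w.1 ∈ ball (0 : X d) (R + ρ + 2) → w.2 ∈ ball (0 : X d) (R + ρ + 2) →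
      w.1 - w.2 ≠ 0 → 0 < g w → g w + φ w.2 ≤ A * ‖w.1 - w.2‖ ∧ ‖w.1 - w.2‖ ≤ ρ :=
    fun w h1 h2 h0 h => by
    have r0 := norm_pos_iff.2 h0
    have a4 := lip hu.c1 hb h1 h2
    have a1 := φ0 w.2
    have a2 : 0 < ‖w.1 - w.2‖ ^ (1 / q) := by positivity
    simp only [hg, pw _ r0] at h ⊢
    refine ⟨by nlinarith [mul_pos κ0 (mul_pos a2 r0)], hρ _ r0.le ?_⟩
    have a3 : κ * ‖w.1 - w.2‖ ^ (1 / q) * ‖w.1 - w.2‖ ≤ 1 * ‖w.1 - w.2‖ := by linarith
    have a5 := le_of_mul_le_mul_right a3 r0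
    nlinarith
  have main : ∀ m : ℝ, 0 < m → x ≠ 0 → ¬((t₀ * ‖x‖ ^ (1 / q) ≤ ‖gradient u 0‖ ∧ m ≤ f (x, 0)) ∨
      (‖gradient u 0‖ ≤ t₁ * ‖x‖ ^ (1 / q) ∧ m ≤ g (x, 0))) := by
    intro m m0 x0 hm
    obtain ⟨D, hD⟩ : ∃ D : Set (X d × X d), D = {w | ‖w.2‖ ≤ R ∧ m / (2 * A) ≤ ‖w.1 - w.2‖ ∧
      ‖w.1 - w.2‖ ≤ ρ + 1} := ⟨_, rfl⟩
    have r0 : 0 < m / (2 * A) := by positivity
    have mD : ∀ w ∈ D, w.1 ∈ ball (0 : X d) (R + ρ + 2) ∧ w.2 ∈ ball (0 : X d) (R + ρ + 2) ∧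
        w.1 - w.2 ≠ 0 := fun w hw => by
      rw [hD] at hw
      obtain ⟨a, b, c⟩ := hw
      refine ⟨mem_ball_zero_iff.2 ?_, mem_ball_zero_iff.2 (by linarith),
        norm_pos_iff.1 (r0.trans_le b)⟩
      linarith [norm_le_norm_sub_add w.1 w.2]
    have cD : IsCompact D := by
      refine ((isCompact_closedBall (0 : X d) (R + ρ + 2)).prod
        (isCompact_closedBall (0 : X d) (R + ρ + 2))).of_isClosed_subset ?_ fun w hw =>
          ⟨ball_subset_closedBall (mD w hw).1, ball_subset_closedBall (mD w hw).2.1⟩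
      rw [hD]
      exact (isClosed_le (by fun_prop) continuous_const).and
        ((isClosed_le continuous_const (by fun_prop)).and
          (isClosed_le (by fun_prop) continuous_const))
    have c1 : ∀ w ∈ D, ContinuousAt (fun w : X d × X d => gradient u w.2) w := fun w hw =>
      ContinuousAt.comp (f := Prod.snd) (cg.continuousAt (isOpen_ball.mem_nhds (mD w hw).2.1))
        continuousAt_snd
    have c2 : ∀ b : ℝ, 0 ≤ b → Continuous fun w : X d × X d => ‖w.1 - w.2‖ ^ b := fun b hb =>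
      Continuous.rpow_const (by fun_prop) fun _ => .inr hb
    have c3 : ∀ w ∈ D, ContinuousAt (fun w : X d × X d => u w.1) w ∧
        ContinuousAt (fun w : X d × X d => u w.2) w := fun w hw =>
      ⟨ContinuousAt.comp (f := Prod.fst) (du _ (mD w hw).1).continuousAt continuousAt_fst,
        ContinuousAt.comp (f := Prod.snd) (du _ (mD w hw).2.1).continuousAt continuousAt_snd⟩
    have c4 : Continuous fun w : X d × X d => φ w.2 := φ2.continuous.comp continuous_snd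
    have c5 : ∀ t : ℝ, ContinuousOn
        (fun w : X d × X d => ‖gradient u w.2‖ - t * ‖w.1 - w.2‖ ^ (1 / q)) D := fun t w hw =>
      ((c1 w hw).norm.sub (continuous_const.mul (c2 _ b0.le)).continuousAt).continuousWithinAt
    have nD : ∀ w ∈ D, m / A ≤ ‖w.1 - w.2‖ → ‖w.1 - w.2‖ ≤ ρ → φ w.2 ≤ A * ‖w.1 - w.2‖ →
        D ∈ 𝓝 w ∧ ‖w.2‖ ≤ R := fun w hw h1 h2 h3 => by
      rw [hD] at hw ⊢
      have a1 : ‖w.2‖ < R := lt_of_le_of_ne hw.1 fun e => by
        have := φR _ e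
        have := mul_le_mul_of_nonneg_left h2 A0.le
        linarith
      have a2 : m / (2 * A) < ‖w.1 - w.2‖ := by
        refine lt_of_lt_of_le ?_ h1
        rw [div_lt_div_iff₀ (by positivity) A0]
        nlinarith [mul_pos m0 A0]
      have n1 : ContinuousAt (fun w : X d × X d => ‖w.2‖) w := by fun_prop
      have n2 : ContinuousAt (fun w : X d × X d => ‖w.1 - w.2‖) w := by fun_prop
      refine ⟨?_, hw.1⟩
      filter_upwards [n1.eventually (gt_mem_nhds a1), n2.eventually (lt_mem_nhds a2),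
        n2.eventually (gt_mem_nhds (show ‖w.1 - w.2‖ < ρ + 1 by linarith))] with v v1 v2 v3
      exact ⟨v1.le, v2.le, v3.le⟩
    have x1 : x ∈ ball (0 : X d) (R + ρ + 2) := mem_ball_zero_iff.2 (by linarith)
    have x2 : (0 : X d) ∈ ball (0 : X d) (R + ρ + 2) := mem_ball_self (by linarith)
    have xD : m ≤ A * ‖x - 0‖ → ‖x - 0‖ ≤ ρ → (x, (0 : X d)) ∈ D := fun h1 h2 => by
      rw [hD]
      refine ⟨by simpa using (by linarith : 0 ≤ R), ?_, h2.trans (by linarith)⟩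
      rw [div_le_iff₀ (by positivity)]
      nlinarith [mul_nonneg A0.le (norm_nonneg (x - 0))]
    rcases two_max (m := m) (f := f) (g := g)
      (K := D ∩ (fun w => ‖gradient u w.2‖ - t₀ * ‖w.1 - w.2‖ ^ (1 / q)) ⁻¹' Ici 0)
      (L := D ∩ (fun w => ‖gradient u w.2‖ - t₁ * ‖w.1 - w.2‖ ^ (1 / q)) ⁻¹' Iic 0)
      (cD.of_isClosed_subset ((c5 t₀).preimage_isClosed_of_isClosed cD.isClosed isClosed_Ici)
        inter_subset_left)
      (cD.of_isClosed_subset ((c5 t₁).preimage_isClosed_of_isClosed cD.isClosed isClosed_Iic)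
        inter_subset_left)
      (fun w hw => by
        rw [hf]
        refine ((c3 w hw.1).1.sub (((c3 w hw.1).2.add ?_).add c4.continuousAt)).continuousWithinAt
        exact ContinuousAt.comp (f := fun w : X d × X d => (gradient u w.2, w.1 - w.2))
          (k.c2 _ _ (mD w hw.1).2.2 (sub_nonneg.1 hw.2)).continuousAt
          ((c1 w hw.1).prodMk (by fun_prop)))
      (fun w hw => by
        rw [hg]
        exact ((c3 w hw.1).1.sub (((c3 w hw.1).2.add
          (continuous_const.mul (c2 _ (by positivity))).continuousAt).add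
            c4.continuousAt)).continuousWithinAt)
      (by
        rcases hm with ⟨h1, h2⟩ | ⟨h1, h2⟩
        · obtain ⟨a, b⟩ := uf (x, 0) x1 x2 (by simpa using x0) (by simpa using h1)
          exact .inl ⟨_, ⟨xD (by linarith [φ0 ((x, (0 : X d)).2)]) b, by simpa using h1⟩, h2⟩
        · obtain ⟨a, b⟩ := ug (x, 0) x1 x2 (by simpa using x0) (m0.trans_le h2)
          exact .inr ⟨_, ⟨xD (by linarith [φ0 ((x, (0 : X d)).2)]) b, by simpa using h1⟩, h2⟩)
      with ⟨w, ⟨wD, wK⟩, h1, h2, h3⟩ | ⟨w, ⟨wD, wK⟩, h1, h2, h3⟩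
    · obtain ⟨w1, w2, w0⟩ := mD w wD
      replace wK : t₀ * ‖w.1 - w.2‖ ^ (1 / q) ≤ ‖gradient u w.2‖ := sub_nonneg.1 wK
      have r1 := norm_pos_iff.2 w0
      have r2 : 0 < ‖w.1 - w.2‖ ^ (1 / q) := by positivity
      obtain ⟨a, b⟩ := uf w w1 w2 w0 wK
      have p1 : φ w.2 ≤ A * ‖w.1 - w.2‖ := by linarith
      obtain ⟨n1, n2⟩ := nD w wD (by rw [div_le_iff₀ A0]; linarith [φ0 w.2]) b p1
      have s1 : ‖gradient u w.2‖ ≤ t₁ * ‖w.1 - w.2‖ ^ (1 / q) →
          G (gradient u w.2, w.1 - w.2) ≤ κ * ‖w.1 - w.2‖ ^ (1 + 1 / q) := fun h => by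
        have := h3 w ⟨wD, sub_nonpos.2 h⟩
        simp only [hf, hg] at this
        linarith
      have s2 : 0 < ‖gradient u w.2‖ - t₀ * ‖w.1 - w.2‖ ^ (1 / q) :=
        sub_pos.2 (lt_of_le_of_ne wK fun e => (k.lo _ _ w0 e).not_ge (s1 (by nlinarith)))
      have g0 : gradient u w.2 ≠ 0 := norm_pos_iff.1 ((mul_pos t0 r2).trans_le wK)
      have lm : IsLocalMax f w := by
        filter_upwards [n1, ((c5 t₀).continuousAt n1).eventually (lt_mem_nhds s2)] with v v1 v2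
        exact h2 v ⟨v1, v2.le⟩
      rw [hf] at lm
      obtain ⟨k1, k2⟩ := two d P _ u φ G w.1 w.2 hP hu w1 w2 g0 (k.c2 _ _ w0 wK) φ2.contDiffAt lm
      obtain ⟨ν, t, ν1, t2, k3, k4⟩ := k2 (δ / 4) (by positivity)
      obtain ⟨s, n, l, a', b', cp, hv⟩ := k.key _ _ w0 wK (hb _ w2)
        ((le_total _ _).imp id s1) _ _ ν t (hu.c3 _ w2 g0).2 (by
          refine ((φb _ n2).2 _ p1 (by nlinarith)).trans ?_
          rw [Real.mul_rpow A0.le r1.le, ← mul_assoc]
          exact mul_le_mul_of_nonneg_right e1 (by positivity)) k1 ν1 t2 k3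
      have k5 := k4 s n l a' b' cp
      have k6 := ta_le hP (ν := nu (gradient u w.2)) (by
        rw [nu, norm_smul, norm_inv, norm_norm, inv_mul_cancel₀ (norm_ne_zero_iff.2 g0)])
        (φb _ n2).1
      nlinarith
    · obtain ⟨w1, w2, w0⟩ := mD w wD
      replace wK : ‖gradient u w.2‖ ≤ t₁ * ‖w.1 - w.2‖ ^ (1 / q) := sub_nonpos.1 wK
      have r1 := norm_pos_iff.2 w0
      have r2 : 0 < ‖w.1 - w.2‖ ^ (1 / q) := by positivity
      obtain ⟨a, b⟩ := ug w w1 w2 w0 (m0.trans_le h1)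
      have p1 : φ w.2 ≤ A * ‖w.1 - w.2‖ := by linarith
      obtain ⟨n1, n2⟩ := nD w wD (by rw [div_le_iff₀ A0]; linarith [φ0 w.2]) b p1
      have s2 : ‖gradient u w.2‖ - t₁ * ‖w.1 - w.2‖ ^ (1 / q) < 0 :=
        sub_neg.2 (lt_of_le_of_ne wK fun e => by
          have a1 := k.hi _ _ w0 e.symm
          have := h3 w ⟨wD, sub_nonneg.2
            ((mul_le_mul_of_nonneg_right t1.le r2.le).trans e.ge)⟩
          simp only [hf, hg] at this
          linarith)
      have lm : IsLocalMax g w := by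
        filter_upwards [n1, ((c5 t₁).continuousAt n1).eventually (gt_mem_nhds s2)] with v v1 v2
        exact h2 v ⟨v1, v2.le⟩
      rw [hg] at lm
      have k1 := plat (du _ w1) (du _ w2) (φ2.differentiable two_ne_zero _) w0 lm
      have k2 := (φb _ n2).2 _ p1 (by nlinarith)
      have k3 : ‖w.1 - w.2‖ ^ θ ≤ ρ ^ (θ - 1 / q) * ‖w.1 - w.2‖ ^ (1 / q) := by
        rw [show θ = θ - 1 / q + 1 / q by ring, Real.rpow_add r1, add_sub_cancel_right]
        exact mul_le_mul_of_nonneg_right (Real.rpow_le_rpow r1.le b (sub_nonneg.2 k.h0)) r2.le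
      rw [Real.mul_rpow A0.le r1.le] at k2
      have k4 := mul_le_mul_of_nonneg_left k3 (show 0 ≤ ε * A ^ θ by positivity)
      have k5 := mul_le_mul_of_nonneg_right e2 r2.le
      have k6 := mul_le_mul_of_nonneg_right tk r2.le
      have k7 : κ * (1 + 1 / q) * ‖w.1 - w.2‖ ^ (1 / q) =
          κ * ‖w.1 - w.2‖ ^ (1 / q) + κ / q * ‖w.1 - w.2‖ ^ (1 / q) := by ring
      have k8 : 0 < κ / q * ‖w.1 - w.2‖ ^ (1 / q) := by positivity
      linarith
  rcases eq_or_ne x 0 with rfl | x0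
  · simp only [sub_self, inner_zero_right]
    exact mul_nonneg (by linarith) (by positivity)
  have r1 := norm_pos_iff.2 x0
  have r2 : 0 < ‖x‖ ^ (1 + 1 / q) := by positivity
  have z1 := mul_nonneg c0 r2.le
  have z2 := mul_pos κ0 r2
  have z3 := mul_pos (t0.trans t1) r2
  rcases le_total (t₁ * ‖x‖ ^ (1 / q)) ‖gradient u 0‖ with h | h
  · have h' : t₀ * ‖x‖ ^ (1 / q) ≤ ‖gradient u 0‖ :=
      (mul_le_mul_of_nonneg_right t1.le (by positivity)).trans h
    have a1 : f (x, 0) ≤ 0 := not_lt.1 fun e => main _ e x0 (.inl ⟨h', le_rfl⟩)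
    have a2 := (abs_le.1 (k.bd _ _ x0 h')).2
    simp only [hf, sub_zero, φz] at a1
    linarith
  · have a1 : g (x, 0) ≤ 0 := not_lt.1 fun e => main _ e x0 (.inr ⟨h, le_rfl⟩)
    have a2 := (abs_le.1 (abs_real_inner_le_norm (gradient u 0) x)).1
    have a3 := mul_le_mul_of_nonneg_right h r1.le
    simp only [hg, sub_zero, φz] at a1
    rw [mul_assoc, ← pw _ r1] at a3
    linarith

end Pool.Agent.MP_815c6c_an.W
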