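import Pool.Agent.MP_815c6c_an.W.Glue
import Mathlib.Analysis.Complex.ExponentialBounds

/-! The plateau for small `P`: a small cusp term is added to a function with a linear cusp. -/

set_option autoImplicit false

noncomputable section

namespace Pool.Agent.MP_815c6c_an.W

open Set Filter Topology KR

/-- the conditions at a state with `T = exp τ` large -/
structure Zone (k : Co) (P η M c₀ T : ℝ) : Prop where
  fb : ∀ h₁₁ h₁₂ h₂₂ h₃₃ : ℝ, (1 + P) * h₁₁ + h₂₂ + h₃₃ = 0 →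
    (1 + P) * k.yy h₁₁ h₁₂ + k.yy h₁₂ h₂₂ + k.y3 * h₃₃ ^ 2 -
      2 * P * h₁₂ * (k.g1 * h₁₂ + k.g2 * h₂₂) ≤ -(η * (h₁₁ ^ 2 + h₁₂ ^ 2 + h₂₂ ^ 2 + h₃₃ ^ 2))
  fo : ∀ a b : ℝ, (1 + P) * k.y3 * a ^ 2 + k.y3 * b ^ 2 + k.yy a b -
    2 * P * a * (k.g1 * a + k.g2 * b) ≤ -(η * a ^ 2)
  g1 : |k.g1| ≤ M
  g2 : |k.g2| ≤ M
  c11 : |k.c11| ≤ M
  c12 : |k.c12| ≤ M
  c21 : |k.c21| ≤ M
  c22 : |k.c22| ≤ M
  c3 : |k.c3| ≤ M
  z11 : |k.z11| ≤ M * T
  z12 : |k.z12| ≤ M * T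
  z22 : |k.z22| ≤ M * T
  z3 : |k.z3| ≤ M * T
  ee : (c₀ * T) ^ 2 ≤ k.e1 ^ 2 + k.e2 ^ 2
  cp : 0 < k.c3

namespace CuspA

theorem mul_le {a b A B : ℝ} (ha : |a| ≤ A) (hb : |b| ≤ B) : |a * b| ≤ A * B := by
  rw [abs_mul]
  exact mul_le_mul ha hb (abs_nonneg _) ((abs_nonneg _).trans ha)

theorem lin_le {a b x y M N : ℝ} (ha : |a| ≤ M) (hb : |b| ≤ M) (hx : |x| ≤ N) (hy : |y| ≤ N) :
    |a * x + b * y| ≤ 2 * (M * N) :=
  (abs_add_le _ _).trans (by linarith [mul_le ha hx, mul_le hb hy])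

theorem cc_le {k : Co} {P η M c₀ T x₁ x₂ y₁ y₂ N : ℝ} (h : Zone k P η M c₀ T) (a1 : |x₁| ≤ N)
    (a2 : |x₂| ≤ N) (b1 : |y₁| ≤ 1) (b2 : |y₂| ≤ 1) : k.cc x₁ x₂ y₁ y₂ ≤ 4 * (M * N) := by
  have p1 := le_of_abs_le (mul_le b1 (lin_le h.c11 h.c12 a1 a2))
  have p2 := le_of_abs_le (mul_le b2 (lin_le h.c21 h.c22 a1 a2))
  simp only [Co.cc]
  linarith

theorem zz_le {k : Co} {P η M c₀ T y₁ y₂ : ℝ} (h : Zone k P η M c₀ T) (b1 : |y₁| ≤ 1)
    (b2 : |y₂| ≤ 1) : k.zz y₁ y₂ ≤ 4 * (M * T) := by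
  have p1 := le_of_abs_le (mul_le h.z11 (mul_le b1 b1))
  have p2 := le_of_abs_le (mul_le h.z12 (mul_le b1 b2))
  have p3 := le_of_abs_le (mul_le h.z22 (mul_le b2 b2))
  simp only [Co.zz]
  linarith

end CuspA

open CuspA

/-- the trivial coupling wins for large `T` -/
theorem Zone.key {P q c S μ η M c₀ T : ℝ} {j : J6} (z : Zone (co q c S j) P η M c₀ T)
    (h : c ^ 2 + S ^ 2 = 1) (P0 : 0 ≤ P) (P1 : P ≤ 1) (h0 : 0 ≤ η) (M0 : 0 < M) (c0 : 0 < c₀)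
    (T0 : 0 < T) (m1 : 4 * μ ≤ c₀ * T) (m0 : 0 ≤ μ)
    (hT : 5 * M * (28 * M * c₀ + 65 * M ^ 2) ≤ η * c₀ ^ 2 * T) : Key P q c S j μ := by
  refine key_of_blk P q c S μ 0 j h z.cp ?_ fun a b w _ e => ?_
  swap
  · have := z.fo a b
    have e1 := mul_nonneg h0 (sq_nonneg a)
    simp only [Co.vout]
    rw [show w = -((co q c S j).g1 * a + (co q c S j).g2 * b) by linarith]
    linarith
  generalize co q c S j = k at z
  intro h₁₁ h₁₂ h₂₂ h₃₃ w₁ w₂ N₁ N₂ t tr a1 a2 e1 e2 _ _ _ _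
  refine ⟨0, 0, 0, 0, 0, 0, by norm_num, fun _ _ => by norm_num, ?_⟩
  obtain ⟨N, N0, hN⟩ : ∃ N : ℝ, 0 ≤ N ∧ N ^ 2 = h₁₁ ^ 2 + h₁₂ ^ 2 + h₂₂ ^ 2 + h₃₃ ^ 2 :=
    ⟨_, Real.sqrt_nonneg _, Real.sq_sqrt (by positivity)⟩
  have s1 := sq_nonneg h₁₁
  have s2 := sq_nonneg h₁₂
  have s3 := sq_nonneg h₂₂
  have s4 := sq_nonneg h₃₃
  have b1 : |h₁₁| ≤ N := abs_le_of_sq_le_sq (by linarith) N0
  have b2 : |h₁₂| ≤ N := abs_le_of_sq_le_sq (by linarith) N0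
  have b3 : |h₂₂| ≤ N := abs_le_of_sq_le_sq (by linarith) N0
  have b4 : |h₃₃| ≤ N := abs_le_of_sq_le_sq (by linarith) N0
  have hc : |c| ≤ 1 := abs_le_of_sq_le_sq (by linarith [sq_nonneg S]) zero_le_one
  have hS : |S| ≤ 1 := abs_le_of_sq_le_sq (by linarith [sq_nonneg c]) zero_le_one
  have hc' : |0 - c| ≤ 1 := by rwa [zero_sub, abs_neg]
  have hS' : |0 - S| ≤ 1 := by rwa [zero_sub, abs_neg]
  have hS'' : |0 + S| ≤ 1 := by rwa [zero_add]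
  have MN : 0 ≤ M * N := mul_nonneg M0.le N0
  have MT : 0 ≤ M * T := mul_nonneg M0.le T0.le
  have l1 := pow_le_pow_left₀ (abs_nonneg _) (lin_le z.g1 z.g2 b1 b2) 2
  have l2 := pow_le_pow_left₀ (abs_nonneg _) (lin_le z.g1 z.g2 b2 b3) 2
  rw [sq_abs, e1] at l1
  rw [sq_abs, e2] at l2
  have l3 := pow_le_pow_left₀ (by linarith) m1 2
  have low : c₀ * T ≤ 5 * (M * N) := by
    refine le_of_abs_le (abs_le_of_sq_le_sq ?_ (by linarith))
    linarith [z.ee, sq_nonneg (k.e1 - 2 * w₁), sq_nonneg (k.e2 - 2 * w₂), sq_nonneg (M * N),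
      sq_nonneg (c₀ * T)]
  have f := z.fb h₁₁ h₁₂ h₂₂ h₃₃ tr
  have u1 := cc_le z b1 b2 hc' hS''
  have u2 := cc_le z b2 b3 hS' hc'
  have u3 := neg_le_of_abs_le (mul_le z.c3 b4)
  have v1 := zz_le z hc' hS''
  have v2 := zz_le z hS' hc'
  have v3 := le_of_abs_le z.z3
  have Q0 : 0 ≤ 1 + P := by linarith
  have u1' := mul_le_mul_of_nonneg_left u1 Q0
  have v1' := mul_le_mul_of_nonneg_left v1 Q0
  have u1'' := mul_le_mul_of_nonneg_right P1 MN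
  have v1'' := mul_le_mul_of_nonneg_right P1 MT
  have big : 28 * M * c₀ + 65 * M ^ 2 ≤ η * c₀ * N := by
    refine le_of_mul_le_mul_left (hT.trans ?_) (show 0 < 5 * M by positivity)
    have := mul_le_mul_of_nonneg_left low (mul_nonneg h0 c0.le)
    linarith
  have fin : 28 * (M * N) + 13 * (M * T) ≤ η * N ^ 2 := by
    refine le_of_mul_le_mul_left ?_ c0
    have p1 := mul_le_mul_of_nonneg_right big N0
    have p2 := mul_le_mul_of_nonneg_left low M0.le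
    linarith
  rw [← hN] at f
  have z0 : k.zz 0 0 = 0 := by simp [Co.zz]
  simp only [Co.vin, Co.xt, Co.dd, z0, ← e2]
  linarith

/-- a radial term `(f, t, tt)` with `t - f = ω ≥ 0`, `tt - t = (1 - m) ω + ξ` -/
theorem Zone.pert {P q c S η M c₀ T f ω ξ m W : ℝ} {j : J6} (z : Zone (co q c S j) P η M c₀ T)
    (h : c ^ 2 + S ^ 2 = 1) (P0 : 0 ≤ P) (P1 : P ≤ 1) (q1 : 1 ≤ q) (mP : P ≤ m) (m1 : 1 / 2 ≤ m)
    (m2 : m ≤ 1) (T1 : 1 ≤ T) (w0 : 0 ≤ ω) (w1 : ω ≤ W) (x0 : 0 ≤ ξ) (x1 : 4 * ξ ≤ η) (f0 : 0 ≤ f)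
    (f1 : 4 * (2 * f + ω) ≤ c₀ * T) :
    Zone (co q c S (j.add ⟨f, f + ω, 0, f + ω + ((1 - m) * ω + ξ), 0, 0⟩)) P (η / 2)
      (M + 2 * W + η + c₀) (c₀ / 2) T := by
  have q0 : 0 < q := by linarith
  have u0 : 0 < q⁻¹ := inv_pos.2 q0
  have u1 : q⁻¹ ≤ 1 := inv_le_one_of_one_le₀ q1
  have y0 : 0 ≤ (1 - m) * ω := mul_nonneg (by linarith) w0
  have y1 : (1 - m) * ω ≤ ω := mul_le_of_le_one_left w0 (by linarith)
  have c0 : 0 ≤ c₀ := nonneg_of_mul_nonneg_left (show 0 ≤ c₀ * T by linarith) (by linarith)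
  have ad : ∀ {a b B : ℝ}, |a| ≤ B → ∀ B', |b| + B ≤ B' → |a + b| ≤ B' := fun ha _ hb =>
    (abs_add_le _ _).trans (by linarith)
  have le : M ≤ M + 2 * W + η + c₀ := by linarith
  have r0 : 0 ≤ f + (f + ω) * q⁻¹ := by positivity
  have p1 : (f + ω) * q⁻¹ ≤ f + ω := mul_le_of_le_one_right (by linarith) u1
  have r1 : f + (f + ω) * q⁻¹ ≤ 2 * f + ω := by linarith
  have WT : 2 * W + η ≤ (2 * W + η) * T := le_mul_of_one_le_right (by linarith) T1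
  set k := co q c S j with hk
  have E : co q c S (j.add ⟨f, f + ω, 0, f + ω + ((1 - m) * ω + ξ), 0, 0⟩) =
      ⟨k.g1 + -ω, k.g2, k.r + (f + (f + ω) * q⁻¹), k.e1 + c * (f + (f + ω) * q⁻¹),
        k.e2 + S * (f + (f + ω) * q⁻¹), k.y11 + ((1 - m) * ω + ξ), k.y12, k.y22 + -ω,
        k.c11 + -(ω + ((1 - m) * ω + ξ) * q⁻¹), k.c12, k.c21, k.c22,
        k.z11 + ((f + ω) * q⁻¹ + (f + ω + ((1 - m) * ω + ξ)) * q⁻¹ ^ 2), k.z12,
        k.z22 + (f + (f + ω) * q⁻¹), k.y3 + -ω, k.c3, k.z3 + (f + (f + ω) * q⁻¹)⟩ := by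
    simp only [hk, co, J6.add, Co.mk.injEq, div_eq_mul_inv, ← inv_pow]
    refine ⟨?_, ?_, ?_, ?_, ?_, ?_, ?_, ?_, ?_, ?_, ?_, ?_, ?_, ?_, ?_, ?_, ?_, ?_⟩ <;> ring
  rw [E]
  have zr : |f + (f + ω) * q⁻¹| + M * T ≤ (M + 2 * W + η + c₀) * T := by
    rw [abs_of_nonneg r0]; linarith
  refine ⟨fun h₁₁ h₁₂ h₂₂ h₃₃ tr => ?_, fun a b => ?_, ad z.g1 _ ?_, z.g2.trans le, ad z.c11 _ ?_,
    z.c12.trans le, z.c21.trans le, z.c22.trans le, z.c3.trans le, ad z.z11 _ ?_,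
    z.z12.trans (mul_le_mul_of_nonneg_right le (by linarith)), ad z.z22 _ zr, ad z.z3 _ zr, ?_, z.cp⟩
  · have a := z.fb h₁₁ h₁₂ h₂₂ h₃₃ tr
    have s1 := sq_nonneg h₁₁
    have s2 := sq_nonneg h₁₂
    have a1 : (1 + P) * (1 - m) * h₁₁ ^ 2 ≤ h₂₂ ^ 2 + h₃₃ ^ 2 := by
      have e : ((1 + P) * h₁₁) ^ 2 = (h₂₂ + h₃₃) ^ 2 := by
        rw [show (1 + P) * h₁₁ = -(h₂₂ + h₃₃) by linarith, neg_sq]
      have := mul_nonneg (mul_nonneg (show 0 ≤ 1 + P by linarith)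
        (show 0 ≤ (1 + P) / 2 - (1 - m) by linarith)) s1
      linarith [sq_nonneg (h₂₂ - h₃₃)]
    have a2 := mul_le_mul_of_nonneg_left a1 w0
    have a3 := mul_nonneg (mul_nonneg w0 (sub_nonneg.2 mP)) s2
    have a4 := mul_nonneg (mul_nonneg x0 (sub_nonneg.2 P1)) s1
    have a5 := mul_nonneg (sub_nonneg.2 x1) s1
    have a6 := mul_nonneg (sub_nonneg.2 x1) s2
    have a7 := mul_nonneg x0 s2
    have a8 := mul_nonneg (show 0 ≤ η by linarith) (add_nonneg (sq_nonneg h₂₂) (sq_nonneg h₃₃))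
    simp only [Co.yy] at a ⊢
    linarith
  · have a0 := z.fo a b
    have s1 := sq_nonneg a
    have a3 := mul_nonneg (mul_nonneg w0 (sub_nonneg.2 mP)) s1
    have a4 := mul_nonneg w0 (sq_nonneg b)
    have a5 := mul_nonneg (sub_nonneg.2 x1) s1
    have a7 := mul_nonneg x0 s1
    simp only [Co.yy] at a0 ⊢
    linarith
  · rw [abs_neg, abs_of_nonneg w0]; linarith
  · have := mul_le_of_le_one_right (show 0 ≤ (1 - m) * ω + ξ by linarith) u1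
    rw [abs_neg, abs_of_nonneg (by positivity)]
    linarith
  · have p2 : q⁻¹ ^ 2 ≤ 1 := pow_le_one₀ u0.le u1
    have p3 := mul_le_mul_of_nonneg_left p2 (show 0 ≤ f + ω + ((1 - m) * ω + ξ) by positivity)
    rw [abs_of_nonneg (by positivity)]
    linarith
  · have a := z.ee
    have p := pow_le_pow_left₀ (by positivity) (show 4 * (f + (f + ω) * q⁻¹) ≤ c₀ * T by linarith) 2
    generalize f + (f + ω) * q⁻¹ = d at p
    have e : (c * d) ^ 2 + (S * d) ^ 2 = d ^ 2 := by linear_combination d ^ 2 * h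
    show _ ≤ (k.e1 + c * d) ^ 2 + (k.e2 + S * d) ^ 2
    linarith [sq_nonneg (k.e1 + 2 * (c * d)), sq_nonneg (k.e2 + 2 * (S * d)), sq_nonneg (c₀ * T)]

namespace CuspA

theorem d_pos (n : ℕ) (u : ℝ) :
    HasDerivAt (fun t : ℝ => max t 0 ^ (n + 2)) ((n + 2 : ℕ) * max u 0 ^ (n + 1)) u := by
  have p : ∀ s : Set ℝ, HasDerivWithinAt (fun t : ℝ => t ^ (n + 2)) ((n + 2 : ℕ) * u ^ (n + 1)) s u :=
    fun s => (hasDerivAt_pow (n + 2) u).hasDerivWithinAt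
  rcases lt_trichotomy u 0 with h | h | h
  · rw [max_eq_right h.le, zero_pow (by omega), mul_zero]
    refine (hasDerivAt_const u (0 : ℝ)).congr_of_eventuallyEq ((eventually_lt_nhds h).mono ?_)
    exact fun t a => by simp [max_eq_right a.le]
  · subst h
    rw [← hasDerivWithinAt_univ, ← Iic_union_Ici (a := (0 : ℝ)), max_self]
    refine HasDerivWithinAt.union ?_ ((p _).congr (fun t a => by rw [max_eq_left a]) (by simp))
    rw [zero_pow (by omega), mul_zero]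
    exact (hasDerivWithinAt_const _ _ (0 : ℝ)).congr (fun t (a : t ≤ 0) => by simp [a]) (by simp)
  · rw [max_eq_left h.le]
    refine (hasDerivAt_pow (n + 2) u).congr_of_eventuallyEq ((eventually_gt_nhds h).mono ?_)
    exact fun t a => by simp [max_eq_left a.le]

theorem c2_pos : ContDiff ℝ 2 fun t : ℝ => max t 0 ^ 3 := by
  have a : ContDiff ℝ 1 fun t : ℝ => max t 0 ^ 2 := by
    rw [contDiff_one_iff_deriv, show deriv (fun t : ℝ => max t 0 ^ 2) = _ from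
      funext fun u => (d_pos 0 u).deriv]
    exact ⟨fun u => (d_pos 0 u).differentiableAt, by fun_prop⟩
  rw [show (2 : WithTop ℕ∞) = 1 + 1 from rfl, contDiff_succ_iff_deriv,
    show deriv (fun t : ℝ => max t 0 ^ 3) = _ from funext fun u => (d_pos 1 u).deriv]
  exact ⟨fun u => (d_pos 1 u).differentiableAt, by simp, contDiff_const.mul a⟩

/-- the jets of the cusp term; `a = max (1 - x) 0` -/
def jk (ε m T x a : ℝ) : J6 :=
  ⟨ε * T * a ^ 3, ε * T * a ^ 3 + 3 * m * (ε * x * T) * a ^ 2, 0,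
    ε * T * a ^ 3 + 3 * m * (ε * x * T) * a ^ 2 +
      ((1 - m) * (3 * m * (ε * x * T) * a ^ 2) + 6 * m ^ 2 * (ε * x ^ 2 * T) * a), 0, 0⟩

theorem jt_k (ε m β τ c : ℝ) :
    Jt2 (fun y => ε * Real.exp y.1 * max (1 + -1 * Real.exp (m * β + -m * y.1)) 0 ^ 3) (τ, c)
      (jk ε m (Real.exp τ) (Real.exp (m * β + -m * τ))
        (max (1 + -1 * Real.exp (m * β + -m * τ)) 0)) := by
  have a := (Jt2.cst (τ, c) 1).add ((Jt2.cst _ (-1)).mul ((Jt2.cst _ (m * β)).add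
    ((Jt2.cst _ (-m)).mul (Jt2.vx _))).exp)
  have b := ((Jt2.cst _ ε).mul (Jt2.vx _).exp).mul (a.cmp (β := fun t => max t 0 ^ 3)
    c2_pos.contDiffAt (Eventually.of_forall (d_pos 1)) ((d_pos 0 _).const_mul _))
  refine (congrArg _ ?_).mp b
  simp only [jk, J6.add, J6.mul, J6.exp, J6.cmp, J6.cst, J6.vx, J6.mk.injEq]
  refine ⟨trivial, ?_, ?_, ?_, ?_, ?_⟩ <;> push_cast <;> ring

end CuspA

/-- the certificate from a function with a linear cusp -/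
theorem cusp {P q e C η M c₀ φ β₀ : ℝ} {F : ℝ × ℝ → ℝ} {j : ℝ → ℝ → J6} (P0 : 0 ≤ P) (P1 : P < 1)
    (e1 : 1 ≤ e) (eq : e < q) (h0 : 0 < η) (M0 : 0 < M) (c0 : 0 < c₀) (f0 : 0 < φ)
    (jet : ∀ τ c, c ^ 2 ≤ 1 → Jt2 F (τ, c) (j τ c))
    (bd : ∀ τ c, c ^ 2 ≤ 1 → |(j τ c).f| ≤ C * Real.exp τ)
    (key : ∀ β, ∃ δ, 0 < δ ∧ ∀ τ c S, τ ≤ β → c ^ 2 + S ^ 2 = 1 → 0 ≤ S →
      Key P q c S (j τ c) (δ * Real.exp (e * τ)))
    (zone : ∀ τ c S, β₀ ≤ τ → c ^ 2 + S ^ 2 = 1 → 0 ≤ S →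
      Zone (co q c S (j τ c)) P η M c₀ (Real.exp τ))
    (lim : ∀ τ c, β₀ ≤ τ → c ^ 2 ≤ 1 → |(j τ c).f - φ * Real.exp τ| ≤ M) :
    ∃ F j κ τ₀ τ₁ C δ e, CertR P q F j κ τ₀ τ₁ C δ e := by
  obtain ⟨m, hm⟩ : ∃ m : ℝ, m = (1 + P) / 2 := ⟨_, rfl⟩
  have m1 : 1 / 2 ≤ m := by linarith
  have m2 : m < 1 := by linarith
  obtain ⟨M', hM⟩ : ∃ M', M' = M + 2 * (54 * (M + 1)) + η + c₀ := ⟨_, rfl⟩
  have M1 : 0 < M' := by linarith
  obtain ⟨β, b0, b1, b2⟩ := ((eventually_ge_atTop β₀).and ((eventually_ge_atTop 0).and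
    ((Real.tendsto_exp_atTop.const_mul_atTop (show 0 < η / 2 * (c₀ / 2) ^ 2 by
      positivity)).eventually_ge_atTop (5 * M' * (28 * M' * (c₀ / 2) + 65 * M' ^ 2))))).exists
  have tz : Tendsto (fun τ => 6 * (M + 1) * Real.exp (-(m * β) + -((1 - m) * τ))) atTop (𝓝 0) := by
    rw [← mul_zero (6 * (M + 1))]
    exact (Real.tendsto_exp_atBot.comp (tendsto_atBot_add_const_left _ _
      (tendsto_neg_atTop_atBot.comp (tendsto_id.const_mul_atTop (by linarith))))).const_mul _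
  obtain ⟨τ₁, t1, t2, t3, t4⟩ := ((eventually_ge_atTop (β + 2)).and
    (((Real.tendsto_exp_atTop.const_mul_atTop f0).eventually_ge_atTop 1).and
      ((tz.eventually_le_const (show 0 < η / (24 * Real.exp β) by positivity)).and
        (tz.eventually_le_const (show 0 < c₀ / 20 by positivity))))).exists
  obtain ⟨ε, hε⟩ : ∃ ε, ε = 6 * (M + 1) * Real.exp (-(m * β) + -((1 - m) * τ₁)) := ⟨_, rfl⟩
  rw [← hε] at t3 t4
  have ε0 : 0 < ε := by rw [hε]; positivity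
  rw [le_div_iff₀ (by positivity)] at t3 t4
  obtain ⟨δ, d0, hk⟩ := key β
  let x : ℝ → ℝ := fun τ => Real.exp (m * β + -m * τ)
  have x0 : ∀ τ, 0 < x τ := fun τ => Real.exp_pos _
  have xT : ∀ τ, ε * x τ * Real.exp τ = 6 * (M + 1) * Real.exp ((1 - m) * (τ - τ₁)) := fun τ => by
    rw [hε, mul_assoc, mul_assoc, ← Real.exp_add, ← Real.exp_add]
    congr 2
    ring
  have eh : Real.exp (-1) ≤ 1 / 2 := Real.exp_neg_one_lt_half.le
  have m0 : 0 ≤ m := by linarith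
  have x1 : x τ₁ ≤ 1 / 2 := (Real.exp_le_exp.2 (by
    linarith [mul_nonneg m0 (sub_nonneg.2 t1)])).trans eh
  have x2 : x (τ₁ + 2) ≤ x τ₁ * (1 / 2) := by
    refine le_trans ?_ (mul_le_mul_of_nonneg_left eh (x0 τ₁).le)
    rw [← Real.exp_add]
    exact Real.exp_le_exp.2 (by linarith)
  have T1 := Real.exp_pos τ₁
  have a1 : max (1 + -1 * x τ₁) 0 = 1 - x τ₁ := by rw [max_eq_left (by linarith)]; ring
  have a2 : max (1 + -1 * x (τ₁ + 2)) 0 = 1 - x (τ₁ + 2) := by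
    rw [max_eq_left (by linarith)]; ring
  have al : ∀ τ, 0 ≤ max (1 + -1 * x τ) 0 ∧ max (1 + -1 * x τ) 0 ≤ 1 := fun τ =>
    ⟨le_max_right _ _, max_le (by linarith [x0 τ]) zero_le_one⟩
  have cl : ∀ c : ℝ, c ^ 2 ≤ 1 → -1 ≤ c ∧ c ≤ 1 := fun c h =>
    abs_le.1 ((sq_le_one_iff_abs_le_one c).1 h)
  have k0 : 0 ≤ ε * (1 - x τ₁) ^ 3 := mul_nonneg ε0.le (pow_nonneg (by linarith) 3)
  have k1 : 11 / 10 * (M + 1) / Real.exp τ₁ * Real.exp τ₁ = 11 / 10 * (M + 1) :=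
    div_mul_cancel₀ _ T1.ne'
  refine ⟨fun y => F y + ε * Real.exp y.1 * max (1 + -1 * x y.1) 0 ^ 3,
    fun τ c => (j τ c).add (jk ε m (Real.exp τ) (x τ) (max (1 + -1 * x τ) 0)),
    φ + ε * (1 - x τ₁) ^ 3 + 11 / 10 * (M + 1) / Real.exp τ₁, τ₁ + 2, τ₁, C + ε,
    min δ (c₀ / 8 * Real.exp (-((e - 1) * (τ₁ + 2)))), e, by linarith, ?_,
    lt_min d0 (by positivity), e1, eq, fun τ c _ h => (jet τ c h).add (jt_k ε m β τ c),
    fun c h => ?_, fun c h => ?_, fun τ c _ h => ?_, fun τ c S h g s _ => ?_⟩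
  · have := mul_nonneg k0 T1.le
    rw [add_mul, add_mul, k1]
    linarith
  · have l := neg_le_of_abs_le (lim (τ₁ + 2) c (by linarith) h)
    have g1 : 3 / 8 * x τ₁ ≤ (1 - x (τ₁ + 2)) ^ 3 - (1 - x τ₁) ^ 3 := by
      have p := pow_le_pow_left₀ (by linarith)
        (show 1 - x τ₁ * (1 / 2) ≤ 1 - x (τ₁ + 2) by linarith) 3
      have p1 := mul_nonneg (x0 τ₁).le (sub_nonneg.2 x1)
      have p2 := pow_nonneg (x0 τ₁).le 3
      linarith
    have g2 := mul_le_mul_of_nonneg_left g1 (mul_pos ε0 (Real.exp_pos (τ₁ + 2))).le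
    have g3 := xT τ₁
    rw [sub_self, mul_zero, Real.exp_zero] at g3
    have g4 : 1 ≤ Real.exp 2 := Real.one_le_exp (by norm_num)
    have g5 := congrArg (· * Real.exp 2) g3
    have g6 := congrArg (· * Real.exp 2) k1
    have g7 := mul_le_mul_of_nonneg_left g4 (show 0 ≤ M + 1 by linarith)
    simp only [J6.add, jk, a2]
    rw [Real.exp_add] at l g2 ⊢
    linarith [(cl c h).1]
  · have l := le_of_abs_le (lim τ₁ c (by linarith) h)
    simp only [J6.add, jk, a1]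
    rw [add_mul, add_mul, k1]
    linarith [(cl c h).2]
  · have p := mul_le_mul_of_nonneg_left (pow_le_one₀ (n := 3) (al τ).1 (al τ).2)
      (mul_pos ε0 (Real.exp_pos τ)).le
    refine (abs_add_le _ _).trans ?_
    rw [show (jk ε m (Real.exp τ) (x τ) (max (1 + -1 * x τ) 0)).f =
      ε * Real.exp τ * max (1 + -1 * x τ) 0 ^ 3 from rfl,
      abs_of_nonneg (a := ε * _ * _) (by have := (al τ).1; positivity)]
    linarith [bd τ c h]
  have d1 : 0 ≤ min δ (c₀ / 8 * Real.exp (-((e - 1) * (τ₁ + 2)))) * Real.exp (e * τ) :=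
    mul_nonneg (lt_min d0 (by positivity)).le (Real.exp_pos _).le
  rcases le_total τ β with b | b
  · have : 1 ≤ x τ := Real.one_le_exp (by linarith [mul_nonneg m0 (sub_nonneg.2 b)])
    rw [max_eq_right (by linarith), show (j τ c).add (jk ε m (Real.exp τ) (x τ) 0) = j τ c by
      simp [J6.add, jk]]
    exact key_mono (hk τ c S b g s) d1
      (mul_le_mul_of_nonneg_right (min_le_left _ _) (Real.exp_pos _).le)
  obtain ⟨a0, a3⟩ := al τ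
  have y0 := x0 τ
  have y1 : x τ ≤ 1 := Real.exp_le_one_iff.2 (by linarith [mul_nonneg m0 (sub_nonneg.2 b)])
  have y2 : ε * x τ * Real.exp τ ≤ 18 * (M + 1) := by
    have : Real.exp ((1 - m) * (τ - τ₁)) ≤ 3 :=
      (Real.exp_le_exp.2 (by
        linarith [mul_nonneg (sub_nonneg.2 m2.le) (sub_nonneg.2 h)])).trans Real.exp_one_lt_three.le
    rw [xT]
    linarith [mul_le_mul_of_nonneg_left this (show 0 ≤ M + 1 by linarith)]
  have y3 : x τ ^ 2 * Real.exp τ ≤ Real.exp β := by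
    rw [sq, ← Real.exp_add, ← Real.exp_add]
    exact Real.exp_le_exp.2 (by linarith [mul_nonneg (sub_nonneg.2 m1) (sub_nonneg.2 b)])
  have T0 := Real.exp_pos τ
  have TB := Real.exp_le_exp.2 b
  generalize max (1 + -1 * x τ) 0 = a at a0 a3
  generalize x τ = y at y0 y1 y2 y3
  have s2 : m * a ^ 2 ≤ 1 := mul_le_one₀ m2.le (sq_nonneg a) (pow_le_one₀ a0 a3)
  have s3 : m ^ 2 * a ≤ 1 := mul_le_one₀ (pow_le_one₀ (by linarith) m2.le) a0 a3
  have s4 := mul_le_mul_of_nonneg_left s2 (show 0 ≤ ε * y * Real.exp τ by positivity)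
  have s5 := mul_le_mul_of_nonneg_left s3 (show 0 ≤ ε * y ^ 2 * Real.exp τ by positivity)
  have s6 := mul_le_mul_of_nonneg_left y3 ε0.le
  have s7 := mul_le_mul_of_nonneg_left (pow_le_one₀ (n := 3) a0 a3) (mul_pos ε0 T0).le
  have s8 := mul_le_mul_of_nonneg_left y1 (mul_pos ε0 T0).le
  have s9 := mul_le_mul_of_nonneg_right t4 T0.le
  refine ((zone τ c S (b0.trans b) g s).pert (W := 54 * (M + 1)) g P0 P1.le (e1.trans eq.le)
    (by linarith) m1 m2.le (Real.one_le_exp (b1.trans b)) (by positivity) (by linarith)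
    (by positivity) (by linarith) (by positivity) (by linarith)).key g P0 P1.le (by linarith)
    (hM ▸ M1) (by linarith) T0 ?_ d1 ?_
  · have p := mul_le_mul_of_nonneg_right (min_le_right δ
      (c₀ / 8 * Real.exp (-((e - 1) * (τ₁ + 2))))) (Real.exp_pos (e * τ)).le
    have p1 : Real.exp (-((e - 1) * (τ₁ + 2))) * Real.exp (e * τ) ≤ Real.exp τ := by
      rw [← Real.exp_add]
      exact Real.exp_le_exp.2 (by linarith [mul_nonneg (sub_nonneg.2 e1) (sub_nonneg.2 h)])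
    have p2 := mul_le_mul_of_nonneg_left p1 c0.le
    linarith
  · rw [← hM]
    exact b2.trans (mul_le_mul_of_nonneg_left TB (by positivity))

end Pool.Agent.MP_815c6c_an.W
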