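import Pool.Agent.MP_815c6c_an.W.Spec

/-! Rows DER and PDE: divergence free fields of class `C^1`, and the pointwise equation. -/

set_option autoImplicit false

noncomputable section

namespace Pool.Agent.MP_815c6c_an.W

open Set Metric MeasureTheory Filter Topology
open scoped RealInnerProductSpace
open S (Cs Hol Dv Tc Ap)

namespace DerA

variable {d : ℕ}

theorem intg {K : Set (X d)} (hK : IsCompact K) {f : X d → ℝ} (hf : ContinuousOn f K)
    (h0 : ∀ x, x ∉ K → f x = 0) : Integrable f :=
  (hf.integrableOn_compact hK).integrable_of_forall_notMem_eq_zero h0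

theorem expand (A : X d →L[ℝ] ℝ) (w : X d) : A w = ∑ i, A (ei i) * w i := by
  conv_lhs => rw [← (EuclideanSpace.basisFun (Fin d) ℝ).sum_repr w]
  simp [mul_comm]

theorem dz {φ : X d → ℝ} {x : X d} (h : x ∉ tsupport φ) : fderiv ℝ φ x = 0 := by
  by_contra hc
  exact h (support_fderiv_subset ℝ (f := φ) hc)

theorem div0 {U : Set (X d)} {F : X d → X d} (hU : IsOpen U) (hF : ContDiffOn ℝ 1 F U)
    (h : Dv U F) : ∀ x ∈ U, ∑ i, fderiv ℝ F x (ei i) i = 0 := by
  have c1 : ContinuousOn (fderiv ℝ F) U := hF.continuousOn_fderiv_of_isOpen hU le_rfl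
  have c2 : ∀ i, ContinuousOn (fun x => fderiv ℝ F x (ei i) i) U := fun i =>
    (EuclideanSpace.proj i).continuous.comp_continuousOn (c1.clm_apply continuousOn_const)
  have c3 : ∀ i, ContinuousOn (fun x => F x i) U := fun i =>
    (EuclideanSpace.proj i).continuous.comp_continuousOn hF.continuousOn
  have c4 : ContinuousOn (fun x => ∑ i, fderiv ℝ F x (ei i) i) U :=
    continuousOn_finsetSum _ fun i _ => c2 i
  have ae := hU.ae_eq_zero_of_integral_contDiff_smul_eq_zero (μ := volume)
    (c4.locallyIntegrableOn hU.measurableSet) fun g g1 g2 g3 => by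
      have g4 : ContDiff ℝ 1 g := g1.of_le (by exact_mod_cast le_top)
      have g5 : Continuous (fderiv ℝ g) := g4.continuous_fderiv one_ne_zero
      have i1 : ∀ i, Integrable fun x => fderiv ℝ g x (ei i) * F x i := fun i =>
        intg g2 ((g5.clm_apply continuous_const).continuousOn.mul ((c3 i).mono g3))
          fun x hx => by simp [dz hx]
      have i2 : ∀ i, Integrable fun x => g x * fderiv ℝ F x (ei i) i := fun i =>
        intg g2 (g4.continuous.continuousOn.mul ((c2 i).mono g3))
          fun x hx => by simp [image_eq_zero_of_notMem_tsupport hx]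
      have i3 : ∀ i, Integrable fun x => g x * F x i := fun i =>
        intg g2 (g4.continuous.continuousOn.mul ((c3 i).mono g3))
          fun x hx => by simp [image_eq_zero_of_notMem_tsupport hx]
      have e : ∀ i, ∫ x, g x * fderiv ℝ F x (ei i) i = -∫ x, fderiv ℝ g x (ei i) * F x i := fun i =>
        integral_bilinear_hasFDerivAt_right_eq_neg_left_of_integrable (μ := volume) (f := g)
          (g := F) (f' := fderiv ℝ g) (g' := fderiv ℝ F) (v := ei i)
          (B := (ContinuousLinearMap.id ℝ ℝ).smulRight (EuclideanSpace.proj i : X d →L[ℝ] ℝ))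
          (i1 i) (i2 i) (i3 i) (fun x _ => (g4.differentiable one_ne_zero x).hasFDerivAt)
          fun x hx => ((hF.contDiffAt (hU.mem_nhds (g3 hx))).differentiableAt
            one_ne_zero).hasFDerivAt
      have h0 := h g ⟨g4, g2, g3⟩
      simp only [expand (fderiv ℝ g _) (F _)] at h0
      simp only [smul_eq_mul, Finset.mul_sum]
      rw [integral_finsetSum _ fun i _ => i1 i] at h0
      rw [integral_finsetSum _ fun i _ => i2 i]
      simp only [e, Finset.sum_neg_distrib, h0, neg_zero]
  exact Measure.eqOn_open_of_ae_eq (μ := volume) (g := fun _ => 0)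
    ((ae_restrict_iff' hU.measurableSet).2 ae) hU c4 continuousOn_const

theorem dir {U : Set (X d)} {F : X d → X d} (hU : IsOpen U) (hF : ContDiffOn ℝ 1 F U)
    (h : Dv U F) (v : X d) : Dv U fun x => fderiv ℝ F x v := by
  intro φ ⟨g4, g2, g3⟩
  have c1 : ContinuousOn (fderiv ℝ F) U := hF.continuousOn_fderiv_of_isOpen hU le_rfl
  have g5 : Continuous (fderiv ℝ φ) := g4.continuous_fderiv one_ne_zero
  obtain ⟨δ, d0, hδ⟩ := g2.isCompact.exists_cthickening_subset_open hU g3
  obtain ⟨M, hM⟩ := (g2.isCompact.cthickening (r := δ)).exists_bound_of_continuousOn (c1.mono hδ)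
  set ε := δ / (‖v‖ + 1) with hε
  have e0 : 0 < ε := by positivity
  have hin : ∀ t ∈ ball (0 : ℝ) ε, ∀ x ∈ tsupport φ, x + t • v ∈ cthickening δ (tsupport φ) := by
    intro t ht x hx
    refine mem_cthickening_of_dist_le _ x _ _ hx ?_
    rw [mem_ball_zero_iff, hε, lt_div_iff₀ (by positivity)] at ht
    rw [dist_eq_norm, add_sub_cancel_left, norm_smul]
    nlinarith [norm_nonneg t]
  have i1 : ∀ t ∈ ball (0 : ℝ) ε, Integrable fun x => fderiv ℝ φ x (F (x + t • v)) := fun t ht =>
    intg g2 (g5.continuousOn.clm_apply (hF.continuousOn.comp (by fun_prop)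
      fun x hx => hδ (hin t ht x hx))) fun x hx => by simp [dz hx]
  have i2 : Integrable fun x => fderiv ℝ φ x (fderiv ℝ F (x + (0 : ℝ) • v) v) :=
    intg g2 (g5.continuousOn.clm_apply ((c1.comp (by fun_prop)
      fun x hx => hδ (hin 0 (mem_ball_self e0) x hx)).clm_apply continuousOn_const))
      fun x hx => by simp [dz hx]
  have i3 : Integrable fun x => ‖fderiv ℝ φ x‖ * (M * ‖v‖) :=
    intg g2 (by fun_prop) fun x hx => by simp [dz hx]
  have key := (hasDerivAt_integral_of_dominated_loc_of_deriv_le (μ := volume) (x₀ := (0 : ℝ))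
    (F := fun t x => fderiv ℝ φ x (F (x + t • v)))
    (F' := fun t x => fderiv ℝ φ x (fderiv ℝ F (x + t • v) v)) (ball_mem_nhds 0 e0)
    (by filter_upwards [ball_mem_nhds (0 : ℝ) e0] with t ht using (i1 t ht).1)
    (i1 0 (mem_ball_self e0)) i2.1 (bound := fun x => ‖fderiv ℝ φ x‖ * (M * ‖v‖))
    (Eventually.of_forall fun x t ht => by
      by_cases hx : x ∈ tsupport φ
      · refine (ContinuousLinearMap.le_opNorm _ _).trans ?_
        gcongr
        exact ContinuousLinearMap.le_of_opNorm_le _ (hM _ (hin t ht x hx)) v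
      · simp [dz hx]) i3
    (Eventually.of_forall fun x t ht => by
      by_cases hx : x ∈ tsupport φ
      · have hl : HasDerivAt (fun s : ℝ => x + s • v) v t := by
          simpa using ((hasDerivAt_id t).smul_const v).const_add x
        exact (fderiv ℝ φ x).hasFDerivAt.comp_hasDerivAt t
          (((hF.contDiffAt (hU.mem_nhds (hδ (hin t ht x hx)))).differentiableAt
            one_ne_zero).hasFDerivAt.comp_hasDerivAt t hl)
      · simpa [dz hx] using hasDerivAt_const t (0 : ℝ))).2
  have z : (fun t : ℝ => ∫ x, fderiv ℝ φ x (F (x + t • v))) =ᶠ[𝓝 0] fun _ => 0 := by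
    filter_upwards [ball_mem_nhds (0 : ℝ) e0] with t ht
    exact (sk.dv d).tra U (tsupport φ) F (t • v) (fun y hy => hδ (hin t ht y hy)) h φ
      ⟨g4, g2, Subset.rfl⟩
  simpa using key.unique ((hasDerivAt_const (0 : ℝ) (0 : ℝ)).congr_of_eventuallyEq z)

end DerA

theorem der : DerS := fun _ _ _ hU hF h => ⟨DerA.div0 hU hF h, DerA.dir hU hF h⟩

theorem pde : DerS → PdeS := by
  intro der d p ρ u x hp hρ hu hg h1
  have al := sk.alg (X d) p hp
  have hx : ball x ρ ∈ 𝓝 x := ball_mem_nhds x hρ
  have hH : HasFDerivAt (gradient u) (fderiv ℝ (gradient u) x) x :=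
    ((h1.contDiffAt hx).differentiableAt one_ne_zero).hasFDerivAt
  set H := fderiv ℝ (gradient u) x with hHd
  have sym : ∀ v w, ⟪H v, w⟫ = ⟪v, H w⟫ := by
    intro v w
    have a1 : ∀ᶠ y in 𝓝 x, HasFDerivAt u (innerSL ℝ (gradient u y)) y := by
      filter_upwards [hx] with y hy
      exact ((hu.c1.contDiffAt (isOpen_ball.mem_nhds hy)).differentiableAt
        one_ne_zero).hasGradientAt.hasFDerivAt
    have a2 := second_derivative_symmetric_of_eventually_of_real a1
      ((innerSL ℝ : X d →L[ℝ] X d →L[ℝ] ℝ).hasFDerivAt.comp x hH) v w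
    exact (show ⟪H v, w⟫ = ⟪H w, v⟫ from a2).trans (real_inner_comm _ _)
  refine ⟨sym, ?_⟩
  have h2 := (der d _ _ isOpen_ball (al.cA.1.comp_contDiffOn h1) hu.dv).1 x (mem_ball_self hρ)
  set g := gradient u x with hgd
  have h3 : fderiv ℝ (Ap p ∘ gradient u) x = (fderiv ℝ (Ap p) g).comp H :=
    ((al.cA.1.differentiable one_ne_zero g).hasFDerivAt.comp x hH).fderiv
  have n0 : 0 < ‖g‖ := norm_pos_iff.2 hg
  have h4 : ∀ i, fderiv ℝ (Ap p ∘ gradient u) x (ei i) i =
      ‖g‖ ^ (p - 2) * (⟪H (ei i), ei i⟫ + (p - 2) / ‖g‖ ^ 2 * (⟪g, H (ei i)⟫ * g i)) := by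
    intro i
    rw [h3, ContinuousLinearMap.comp_apply, (al.cA.2 g hg).2]
    simp only [PiLp.smul_apply, PiLp.add_apply, smul_eq_mul, EuclideanSpace.inner_single_right,
      conj_trivial]
    ring
  have h5 : ∑ i, ⟪g, H (ei i)⟫ * g i = ⟪g, H g⟫ :=
    (DerA.expand ((innerSL ℝ g).comp H) g).symm
  simp only [h4, ← Finset.mul_sum, Finset.sum_add_distrib, h5] at h2
  have h6 := (mul_eq_zero.1 h2).resolve_left (Real.rpow_pos_of_pos n0 _).ne'
  unfold ta nu
  simp only [map_smul, inner_smul_left, inner_smul_right, conj_trivial]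
  rw [real_inner_comm (H g) g] at *
  rw [← h6]
  field_simp

end Pool.Agent.MP_815c6c_an.W
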