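import Pool.Agent.MP_815c6c_an.W.Kp

/-! The Hölder representative of the gradient, and the regularity for every `p > 2`. -/

set_option autoImplicit false

noncomputable section

namespace Pool.Agent.MP_815c6c_an.W

open Set Metric MeasureTheory Filter Topology
open N (Gr)
open S (vo jj Wk)
open H (St VS Bd ER)

variable {d : ℕ}

/-- a representative with the Hölder estimate -/
def Hld (α c : ℝ) (U : Set (X d)) (G : X d → Gr d 1) : Prop :=
  ∃ W : X d → Gr d 1, ContinuousOn W U ∧ W =ᵐ[volume.restrict U] G ∧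
    ∀ (x : X d) (r M : ℝ), 0 < r → ball x r ⊆ U → (∀ y ∈ ball x r, ‖W y‖ ≤ M) →
      ∀ y ∈ ball x (r / 64), ∀ z ∈ ball x (r / 64), ‖W y - W z‖ ≤ c * M * (‖y - z‖ / r) ^ α

theorem glue {U : Set (X d)} {f : X d → Gr d 1} (hU : IsOpen U)
    (h : ∀ x ∈ U, ∃ r, 0 < r ∧ ∃ g : X d → Gr d 1, ContinuousOn g (ball x r) ∧
      g =ᵐ[volume.restrict (ball x r)] f) :
    ∃ W : X d → Gr d 1, ContinuousOn W U ∧ W =ᵐ[volume.restrict U] f := by
  choose! r hr g c hg using h
  have e : ∀ x ∈ U, ∀ y ∈ U, y ∈ ball x (r x) → g y y = g x y := by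
    intro x hx y hy hxy
    refine Measure.eqOn_open_of_ae_eq (μ := volume) (U := ball x (r x) ∩ ball y (r y)) ?_
      (isOpen_ball.inter isOpen_ball) ((c y hy).mono inter_subset_right)
      ((c x hx).mono inter_subset_left) ⟨hxy, mem_ball_self (hr y hy)⟩
    filter_upwards [ae_restrict_of_ae_restrict_of_subset inter_subset_left (hg x hx),
      ae_restrict_of_ae_restrict_of_subset inter_subset_right (hg y hy)] with z a b
    rw [a, b]
  refine ⟨fun x => g x x, fun x hx => ContinuousAt.continuousWithinAt ?_, ?_⟩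
  · refine ((c x hx).continuousAt (ball_mem_nhds x (hr x hx))).congr ?_
    filter_upwards [hU.mem_nhds hx, ball_mem_nhds x (hr x hx)] with y a b
    exact (e x hx y a b).symm
  · refine (ae_restrict_iff' hU.measurableSet).2 (ae_iff.2 (measure_null_of_locally_null _ ?_))
    intro x hx
    have hx' : x ∈ U := (Classical.not_imp.1 hx).1
    refine ⟨_, inter_mem_nhdsWithin _ (ball_mem_nhds x (hr x hx')), ?_⟩
    refine measure_mono_null (fun y hy => ?_)
      (ae_iff.1 ((ae_restrict_iff' measurableSet_ball).1 (hg x hx')))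
    exact fun a => hy.1 fun b => (e x hx' y b hy.2).trans (a hy.2)

theorem fin {p α C : ℝ} (hp : 2 < p) (rg : S.Reg d p α C) {U : Set (X d)} {h : X d → X 1}
    {G : X d → Gr d 1} (hU : IsOpen U) (hh : N.Harm p U h G) : Hld α (C * 16 ^ α) U G := by
  have loc : ∀ (x : X d) (r : ℝ), 0 < r → closedBall x r ⊆ U → ∃ v, S.Cs p (ball x (r / 8)) v ∧
      ContinuousOn (fun z => jj d (gradient v z)) (ball x (r / 8)) ∧
      (fun z => jj d (gradient v z)) =ᵐ[volume.restrict (ball x (r / 8))] G := fun x r r0 hr => by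
    obtain ⟨v, a, b⟩ := rg.rep _ _ x r r0 (S.en S.sob d p U h G x r hp hU hr hh)
    exact ⟨v, a, (jj d).continuous.comp_continuousOn (S.cont_grad isOpen_ball a.c1),
      b.mono fun z hz => by simp only [hz, LinearIsometryEquiv.apply_symm_apply]⟩
  obtain ⟨W, c, e⟩ := glue (f := G) hU fun x hx => by
    obtain ⟨r, r0, hr⟩ := nhds_basis_closedBall.mem_iff.1 (hU.mem_nhds hx)
    obtain ⟨v, -, a, b⟩ := loc x r r0 hr
    exact ⟨r / 8, by positivity, _, a, b⟩
  refine ⟨W, c, e, fun x r M r0 hr hM y hy z hz => ?_⟩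
  obtain ⟨v, a, b, k⟩ := loc x (r / 2) (half_pos r0)
    ((closedBall_subset_ball (half_lt_self r0)).trans hr)
  have s1 : ball x (r / 2 / 8) ⊆ ball x r := ball_subset_ball (by linarith)
  have q : EqOn W (fun z => jj d (gradient v z)) (ball x (r / 2 / 8)) :=
    Measure.eqOn_open_of_ae_eq (μ := volume)
      (EventuallyEq.trans (ae_restrict_of_ae_restrict_of_subset (s1.trans hr) e) k.symm)
      isOpen_ball (c.mono (s1.trans hr)) b
  have s2 : ball x (r / 64) ⊆ ball x (r / 2 / 8 / 4) := ball_subset_ball (by linarith)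
  have s3 : ball x (r / 64) ⊆ ball x (r / 2 / 8) := ball_subset_ball (by linarith)
  have := rg.hol v x (r / 2 / 8) M (by positivity) a (fun w hw => by
    rw [← (jj d).norm_map]
    exact (congrArg norm (q hw)).symm.le.trans (hM w (s1 hw))) y (s2 hy) z (s2 hz)
  rw [q (s3 hy), q (s3 hz), ← map_sub, (jj d).norm_map]
  refine this.trans_eq ?_
  rw [show r / 2 / 8 = r / 16 by ring, Real.div_rpow r0.le (by norm_num),
    Real.div_rpow (norm_nonneg _) r0.le]
  have : r ^ α ≠ 0 := by positivity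
  field_simp

/-- slow growth excludes small gradients -/
def Nw (d : ℕ) (P : ℝ) : Prop := ∃ Λ c : ℝ, 1 ≤ Λ ∧ 0 < c ∧
  ∀ (U : Set (X d)) (u : X d → ℝ) (T : Set (St d)), VS P U u T → closedBall 0 Λ ⊆ U →
    Bd T 0 Λ 2 → (∃ z ∈ T, ‖z.1‖ ≤ 1 ∧ 1 ≤ ‖z.2.2‖) → ∀ z ∈ T, ‖z.1‖ ≤ 1 → c ≤ ‖z.2.2‖

theorem gvs {p R M : ℝ} {u : X d → ℝ} {G : X d → X d} (hp : 2 < p) (hl : S.LipS d p)
    (h : Wk p (ball 0 R) u G) (b : ∀ᵐ y ∂vo (ball 0 R), ‖G y‖ ≤ M) :
    ∃ u', VS (p - 2) (ball 0 R) u' (ER (ball 0 R) u' G) ∧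
      ∀ᵐ y ∂vo (ball 0 R), (y, u' y, G y) ∈ ER (ball 0 R) u' G := by
  obtain ⟨u', e, k⟩ := (S.ll S.sob d _ 0 R (max M 0) u _ 0 (ENNReal.one_le_ofReal.2 (by linarith))
    h.sb (b.mono fun y hy => by
      rw [sub_zero, innerSL_apply_norm]; exact hy.trans (le_max_left _ _))).1
  have c : ContinuousOn u' (ball 0 R) :=
    (LipschitzOnWith.of_dist_le_mul (K := ⟨max M 0, le_max_right _ _⟩) fun y hy z hz => by
      rw [Real.dist_eq, dist_eq_norm]
      exact le_of_eq_of_le (by simp) (k y hy z hz)).continuousOn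
  exact ⟨u', H.K.vsp d p R 0 u' G hp hl ((S.ws S.sob d p _ (ball 0 R) u G hp isOpen_ball
    isOpen_ball isBounded_ball h).2 u' G e EventuallyEq.rfl) c,
    (H.ess d _ u' G isOpen_ball c).1⟩

open H in
theorem rgL {p : ℝ} (hp : 2 < p) (hl : S.LipS d p) (nw : Nw d (p - 2)) : S.RegS d p := by
  have on : S.OnS d p := fun m hm => by
    obtain ⟨l, l0, l1, hl'⟩ := K.osc d (p - 2) (2 / m) (by linarith) (by positivity)
    refine ⟨1 / 32, l, by norm_num, by norm_num, l0, l1, fun u G B hB h hb hD => ?_⟩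
    obtain ⟨u', V, a⟩ := gvs hp hl h (hb.mono fun _ e => e.2)
    have b1 := glue_cl (u := u') (C := {ξ | m ≤ ‖ξ‖ ∧ ‖ξ‖ ≤ 1})
      ((isClosed_le continuous_const continuous_norm).inter
        (isClosed_le continuous_norm continuous_const)) hb
    have b2 := glue_cl (u := u') (C := ⋂ z ∈ ER (ball 0 1) u' G, closedBall z.2.2 B)
      (isClosed_biInter fun _ _ => isClosed_closedBall) (hD.mono fun y hy => mem_iInter₂.2
        fun z hz => mem_closedBall_comm.1 (glue_cl (u := u') (C := closedBall (G y) B)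
          isClosed_closedBall (hy.mono fun _ e => mem_closedBall_iff_norm'.2 e) z hz))
    have k := hl' _ u' _ 0 (1 / 32) (min B 2) V (closedBall_subset_ball (by norm_num))
      (by norm_num) (fun z hz z' hz' _ _ => le_min
        (mem_closedBall_iff_norm.1 (mem_iInter₂.1 (b2 z hz) z' hz'))
        ((norm_sub_le _ _).trans (by linarith [(b1 z hz).2, (b1 z' hz').2])))
      fun z hz _ => (min_le_right _ _).trans (by
        rw [div_mul_eq_mul_div, le_div_iff₀ hm]; linarith [(b1 z hz).1])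
    have a' : ∀ᵐ y ∂vo (ball (0 : X d) (1 / 32)), (y, u' y, G y) ∈ ER (ball 0 1) u' G ∧
        ‖y - 0‖ ≤ 1 / 32 :=
      (ae_restrict_of_ae_restrict_of_subset (ball_subset_ball (by norm_num)) a).and
        ((ae_restrict_mem measurableSet_ball).mono fun y hy => (mem_ball_iff_norm.1 hy).le)
    exact a'.mono fun y hy => a'.mono fun y' hy' => (k _ hy.1 _ hy'.1 hy.2 hy'.2).trans
      (mul_le_mul_of_nonneg_left (min_le_left _ _) l0.le)
  obtain ⟨Λ, c, l1, c0, hn⟩ := nw
  obtain ⟨n, h2⟩ := pow_unbounded_of_one_lt (2 * Λ) (one_lt_two (α := ℝ))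
  have now : S.NowS d p (2 * n) := by
    refine ⟨2 * Λ, c, by linarith, ?_, c0, fun u G h hb hn1 => ?_⟩
    · rwa [mul_div_cancel_left₀ _ two_ne_zero, Real.rpow_natCast]
    obtain ⟨u', V, a⟩ := gvs hp hl h hb
    have a' : ∀ᵐ y ∂vo (ball (0 : X d) 1),
        (y, u' y, G y) ∈ ER (ball 0 (2 * Λ)) u' G ∧ ‖y‖ ≤ 1 :=
      (ae_restrict_of_ae_restrict_of_subset (ball_subset_ball (by linarith)) a).and
        ((ae_restrict_mem measurableSet_ball).mono fun y hy => (mem_ball_zero_iff.1 hy).le)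
    have b1 := glue_cl (u := u') (C := {ξ | ‖ξ‖ ≤ 2})
      (isClosed_le continuous_norm continuous_const) hb
    have k := hn _ u' _ V (closedBall_subset_ball (by linarith)) (fun z hz _ => b1 z hz) ?_
    · exact a'.mono fun y hy => k (y, u' y, G y) hy.1 hy.2
    · by_contra q'
      exact hn1 (a'.mono fun y hy => le_of_not_ge fun e => q' ⟨_, hy.1, hy.2, e⟩)
  exact S.lreg sk (S.ll S.sob) S.lrep d p hp hl (S.lhli sk d p _ hp now (S.lndi sk d p hp on))

end Pool.Agent.MP_815c6c_an.W
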