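import Pool.Agent.MP_815c6c_an.W.Spec

/-! Scalar p-harmonic functions: flatness near an almost maximal gradient. -/

set_option autoImplicit false

noncomputable section

namespace Pool.Agent.MP_815c6c_an.W

open Set Metric MeasureTheory Filter Topology
open scoped RealInnerProductSpace
open H (St VS Bd)

namespace FlatA

/-- the barrier -/
def psi {d : ℕ} (q M b s o : ℝ) (x : X d) (z₁ y : St d) : ℝ :=
  (1 / (b * s) ^ 2 * ‖y.1 - x‖ ^ 2) ^ (-q / 2) -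
    1 / (b * o * s) ^ 2 * (y.2.1 - ⟪y.2.2, y.1 - z₁.1⟫ + -z₁.2.1) ^ 2 +
    M / o ^ 2 * (2 * ‖y.2.2 - 0‖ ^ 2 - ‖y.2.2 - z₁.2.2‖ ^ 2 + -(2 * ‖z₁.2.2‖ ^ 2))

theorem one_le {b s r : ℝ} (hb : 0 < b) (hs : 0 < s) (h : b * s ≤ r) :
    1 ≤ 1 / (b * s) ^ 2 * r ^ 2 := by
  have h0 : 0 < b * s := by positivity
  rw [div_mul_eq_mul_div, le_div_iff₀ (by positivity)]
  nlinarith

theorem sub {d : ℕ} {P b s o : ℝ} (hP : 1 ≤ P) (hb : 0 < b) (hs : 0 < s) (ho : 0 < o)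
    (T : Set (St d)) (x : X d) (z₁ z : St d) (hz : b * s ≤ ‖z.1 - x‖)
    (h3 : ‖z.1 - z₁.1‖ ≤ 3 * s) (hN : o / 2 ≤ ‖z.2.2‖) :
    H.Sub P T z (psi (d + 2 * P) (2 * (d + 2 * P) + 9 / b ^ 2 + 1) b s o x z₁) := by
  have hξ : z.2.2 ≠ 0 := norm_pos_iff.1 (by linarith)
  refine ⟨_, 2 / o ^ 2, by positivity, Eventually.of_forall fun _ => le_rfl, rfl, fun A hA => ?_⟩
  have j := hk.jet d P z A
  have k := hk.bas d P z A hP hξ
  have bs : 0 < b * s := by positivity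
  have r0 : 0 < ‖z.1 - x‖ := by linarith
  have k0 : 0 < 1 / (b * s) ^ 2 := by positivity
  have g1 := one_le hb hs hz
  have j1 := j.rpow (-(d + 2 * P) / 2) (j.cmul (1 / (b * s) ^ 2) (k.xx x)) (by positivity)
  have j2 := j.cmul (1 / (b * o * s) ^ 2) (j.sq (j.addc (-z₁.2.1) (k.pl hA z₁.1)))
  have j3 := j.cmul ((2 * (d + 2 * P) + 9 / b ^ 2 + 1) / o ^ 2)
    (j.addc (-(2 * ‖z₁.2.2‖ ^ 2)) (j.sub (j.cmul 2 (k.ww 0)) (k.ww z₁.2.2)))
  refine ⟨_, _, j.add (j.sub j1 j2) j3, ?_⟩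
  have d0 : (0 : ℝ) ≤ d := Nat.cast_nonneg d
  have hV : P⁻¹ * (4 * ‖z.1 - x‖ ^ 2) ≤ ‖H.vx P z.2.2 ((2 : ℝ) • (z.1 - x))‖ ^ 2 := by
    have := (k.nx ((2 : ℝ) • (z.1 - x))).1
    rw [norm_smul, Real.norm_ofNat, mul_pow] at this
    convert this using 3
    norm_num
  have h1 := H.bar_rad d P (1 / (b * s) ^ 2) ‖z.1 - x‖ ⟪z.1 - x, H.dr z.2.2 A⟫ ‖H.dr z.2.2 A‖ _
    d0 hP k0 r0 g1 (real_inner_le_norm _ _) hV
  rw [norm_smul, Real.norm_of_nonneg k0.le, mul_pow (1 / (b * s) ^ 2), norm_neg]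
  have s0 := k.sg0
  have h2 : ‖H.dr z.2.2 A‖ ^ 2 * o ^ 2 ≤ 4 * (4 * H.sg P z.2.2 A) := by
    have h : (o / 2) ^ 2 ≤ ‖z.2.2‖ ^ 2 := pow_le_pow_left₀ (by positivity) hN 2
    have h' := mul_le_mul_of_nonneg_left h (sq_nonneg ‖H.dr z.2.2 A‖)
    have h'' := k.nd
    nlinarith
  have h3' : (d + 2 * P) * ‖H.dr z.2.2 A‖ ^ 2 / 4 ≤ (d + 2 * P) * 4 * H.sg P z.2.2 A / o ^ 2 := by
    rw [le_div_iff₀ (by positivity)]
    have := mul_le_mul_of_nonneg_left h2 (show 0 ≤ d + 2 * P by linarith)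
    linarith
  have h4 : ‖H.vh P z.2.2 A (z.1 - z₁.1)‖ ^ 2 ≤ 9 * s ^ 2 * H.sg P z.2.2 A := by
    refine (k.nh _).trans (mul_le_mul_of_nonneg_right ?_ s0)
    have := pow_le_pow_left₀ (norm_nonneg _) h3 2
    linarith
  have h5 : 1 / (b * o * s) ^ 2 * (2 * ‖H.vh P z.2.2 A (z.1 - z₁.1)‖ ^ 2) ≤
      18 / b ^ 2 * H.sg P z.2.2 A / o ^ 2 := by
    have e : 18 / b ^ 2 * H.sg P z.2.2 A / o ^ 2 =
        1 / (b * o * s) ^ 2 * (2 * (9 * s ^ 2 * H.sg P z.2.2 A)) := by field_simp; ring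
    rw [e]
    exact mul_le_mul_of_nonneg_left (by linarith) (by positivity)
  have h6 : (2 * (d + 2 * P) + 9 / b ^ 2 + 1) / o ^ 2 *
      (2 * (2 * H.sg P z.2.2 A) - 2 * H.sg P z.2.2 A) =
      (d + 2 * P) * 4 * H.sg P z.2.2 A / o ^ 2 + 18 / b ^ 2 * H.sg P z.2.2 A / o ^ 2 +
        2 / o ^ 2 * H.sg P z.2.2 A := by field_simp; ring
  rw [h6, mul_zero, zero_add]
  linarith

theorem cont {d : ℕ} (q M b s o : ℝ) (hb : 0 < b) (hs : 0 < s) (x : X d) (z₁ : St d) :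
    ContinuousOn (psi q M b s o x z₁) {z | b * s ≤ ‖z.1 - x‖} := by
  unfold psi
  refine ContinuousOn.add (ContinuousOn.sub ?_ (by fun_prop)) (by fun_prop)
  refine ContinuousOn.rpow_const (by fun_prop) fun z hz => Or.inl ?_
  have := one_le hb hs (show b * s ≤ ‖z.1 - x‖ from hz)
  linarith

/-- the last estimate -/
theorem fin (b s o M w e r I : ℝ) (hb : 0 < b) (hs : 0 < s) (ho : 0 < o) (hM : 9 / b ^ 2 ≤ M)
    (he : 0 ≤ e) (hr : r ≤ 3 * s) (hI : |I| ≤ e * r)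
    (h : 1 / (b * o * s) ^ 2 * w ^ 2 + M / o ^ 2 * e ^ 2 ≤ 1) : |w + I| ≤ 2 * (b * o * s) := by
  have M0 : 0 < 9 / b ^ 2 := by positivity
  have p1 : 0 ≤ 1 / (b * o * s) ^ 2 * w ^ 2 := by positivity
  have p2 : 0 ≤ M / o ^ 2 * e ^ 2 := by
    have : 0 ≤ M := by linarith
    positivity
  have h1 : 1 * w ^ 2 ≤ (b * o * s) ^ 2 := by
    have : 1 / (b * o * s) ^ 2 * w ^ 2 ≤ 1 := by linarith
    rwa [div_mul_eq_mul_div, div_le_one (by positivity)] at this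
  have h2 : M * e ^ 2 ≤ o ^ 2 := by
    have : M / o ^ 2 * e ^ 2 ≤ 1 := by linarith
    rwa [div_mul_eq_mul_div, div_le_one (by positivity)] at this
  have os : 0 < b * o * s := by positivity
  have h3 : |w| ≤ b * o * s := abs_le_of_sq_le_sq' (by linarith) os.le |> abs_le.2
  have h4 : 3 * e ≤ b * o := by
    have a1 := (mul_le_mul_of_nonneg_right hM (sq_nonneg e)).trans h2
    rw [div_mul_eq_mul_div, div_le_iff₀ (by positivity)] at a1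
    exact (abs_le_of_sq_le_sq' (by linarith) (by positivity)).2
  have h5 : e * r ≤ e * (3 * s) := mul_le_mul_of_nonneg_left hr he
  have h6 := mul_le_mul_of_nonneg_right h4 hs.le
  have := abs_add_le w I
  linarith

end FlatA

open FlatA in
theorem flat : FlatS := by
  intro d P β₀ hP hβ₀
  have d0 : (0 : ℝ) ≤ d := Nat.cast_nonneg d
  obtain ⟨b, hb, rfl⟩ : ∃ b : ℝ, 0 < b ∧ β₀ = 4 * b := ⟨β₀ / 4, by positivity, by ring⟩
  set q : ℝ := d + 2 * P with hq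
  have q0 : 2 ≤ q := by rw [hq]; linarith
  set M : ℝ := 2 * q + 9 / b ^ 2 + 1 with hM
  have b9 : 0 < 9 / b ^ 2 := by positivity
  have M0 : 9 / b ^ 2 ≤ M := by rw [hM]; linarith
  have M5 : 5 ≤ M := by rw [hM]; linarith
  set α : ℝ := (1 / b ^ 2) ^ (-q / 2) with hα
  set β : ℝ := (4 / b ^ 2) ^ (-q / 2) with hβ
  have β0 : 0 < β := Real.rpow_pos_of_pos (by positivity) _
  have βα : β < α := Real.rpow_lt_rpow_of_neg (by positivity)
    (div_lt_div_of_pos_right (by norm_num) (by positivity)) (by linarith)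
  refine ⟨min (1 / 4) ((α - β) / (8 * M)),
    lt_min (by norm_num) (div_pos (by linarith) (by linarith)), ?_⟩
  intro U u T s o z₁ vs hs ho h1 hU hT hc x hx
  set c := min (1 / 4) ((α - β) / (8 * M)) with hcd
  have c1 : c ≤ 1 / 4 := min_le_left _ _
  have c2 : 8 * M * c ≤ α - β := by
    have : c ≤ (α - β) / (8 * M) := min_le_right _ _
    rw [le_div_iff₀ (by linarith)] at this
    linarith
  have n1 : ‖z₁.2.2‖ ≤ o := hT z₁ h1 (by rw [sub_self, norm_zero]; positivity)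
  have c3 : 3 / 4 * o ≤ ‖z₁.2.2‖ := (mul_le_mul_of_nonneg_right (by linarith) ho.le).trans hc
  have lip := vs.lip z₁.1 z₁.2.2 (3 * s) (2 * o) hU fun z hz h =>
    (norm_sub_le _ _).trans (by linarith [hT z hz h])
  have xm : x ∈ closedBall z₁.1 (3 * s) := mem_closedBall_iff_norm.2 (by linarith)
  have bos : 0 < b * o * s := by positivity
  rcases le_total ‖x - z₁.1‖ (b * s) with hx' | hx'
  · have := lip x xm z₁.1 (mem_closedBall_self (by positivity))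
    have h2 := mul_le_mul_of_nonneg_left hx' (show 0 ≤ 2 * o by positivity)
    linarith
  have tri : ∀ y : X d, ‖y - x‖ ≤ 2 * s → ‖y - z₁.1‖ ≤ 3 * s := fun y hy => by
    have := norm_sub_le_norm_sub_add_norm_sub y x z₁.1
    linarith
  have kU : {y : X d | b * s ≤ ‖y - x‖ ∧ ‖y - x‖ ≤ 2 * s} ⊆ closedBall z₁.1 (3 * s) :=
    fun y hy => mem_closedBall_iff_norm.2 (tri y hy.2)
  have kc : IsCompact {y : X d | b * s ≤ ‖y - x‖ ∧ ‖y - x‖ ≤ 2 * s} :=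
    (isCompact_closedBall z₁.1 (3 * s)).of_isClosed_subset
      (IsClosed.and (isClosed_le continuous_const (by fun_prop))
        (isClosed_le (by fun_prop) continuous_const)) kU
  have cw : Continuous fun z : St d => ‖z.2.2‖ := by fun_prop
  obtain ⟨z, ⟨⟨zT, z1, z2⟩, z3⟩, zB, hz⟩ := hk.mp d P U u T _
    {z | ‖z.1 - x‖ = b * s ∨ ‖z.1 - x‖ = 2 * s ∨ ‖z.2.2‖ = o / 2} (psi q M b s o x z₁) hP vs
    ((vs.cpt _ (kU.trans hU) kc).inter_right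
      (isClosed_le (continuous_const (y := o / 2)) cw)) (fun z hz => hz.1.1)
    ((cont q M b s o hb hs x z₁).mono fun z hz => hz.1.2.1)
    (by
      rintro z ⟨⟨zT, z1, z2⟩, z3⟩ zB
      have z3 : o / 2 ≤ ‖z.2.2‖ := z3
      have m1 : ‖z.1 - x‖ ≠ b * s := fun h => zB (Or.inl h)
      have m2 : ‖z.1 - x‖ ≠ 2 * s := fun h => zB (Or.inr (Or.inl h))
      have m3 : ‖z.2.2‖ ≠ o / 2 := fun h => zB (Or.inr (Or.inr h))
      refine ⟨norm_pos_iff.1 (by linarith), ?_, sub hP hb hs ho T x z₁ z z1 (tri _ z2) z3⟩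
      have cn : ContinuousAt (fun y : St d => ‖y.1 - x‖) z := by fun_prop
      have e1 := cn.eventually (lt_mem_nhds (lt_of_le_of_ne z1 m1.symm))
      have e2 := cn.eventually (gt_mem_nhds (lt_of_le_of_ne z2 m2))
      have e3 := cw.continuousAt.eventually (lt_mem_nhds (lt_of_le_of_ne z3 m3.symm))
      filter_upwards [self_mem_nhdsWithin, mem_nhdsWithin_of_mem_nhds e1,
        mem_nhdsWithin_of_mem_nhds e2, mem_nhdsWithin_of_mem_nhds e3] with y hy a1 a2 a3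
      exact ⟨⟨hy, a1.le, a2.le⟩, a3.le⟩)
    z₁ ⟨⟨h1, by rwa [norm_sub_rev], by rw [norm_sub_rev]; linarith⟩,
      show o / 2 ≤ ‖z₁.2.2‖ by linarith⟩ ((α - β) / 4) (by linarith)
  have v1 : α ≤ psi q M b s o x z₁ z₁ := by
    have r0 : b * s ≤ ‖z₁.1 - x‖ := by rwa [norm_sub_rev]
    have g0 := one_le hb hs r0
    have g : 1 / (b * s) ^ 2 * ‖z₁.1 - x‖ ^ 2 ≤ 1 / b ^ 2 := by
      have e : 1 / b ^ 2 = 1 / (b * s) ^ 2 * s ^ 2 := by field_simp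
      rw [e, norm_sub_rev]
      exact mul_le_mul_of_nonneg_left (pow_le_pow_left₀ (norm_nonneg _) hx 2) (by positivity)
    have := Real.rpow_le_rpow_of_nonpos (by linarith) g (show -q / 2 ≤ 0 by linarith)
    refine this.trans (le_of_eq ?_)
    unfold psi
    rw [sub_self z₁.1, sub_self z₁.2.2, sub_zero z₁.2.2, inner_zero_right, norm_zero]
    ring
  have Mo : 0 ≤ M / o ^ 2 := by
    have : 0 ≤ M := by linarith
    positivity
  have br : M / o ^ 2 * (2 * ‖z.2.2 - 0‖ ^ 2 - ‖z.2.2 - z₁.2.2‖ ^ 2 + -(2 * ‖z₁.2.2‖ ^ 2)) ≤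
      (α - β) / 2 - M / o ^ 2 * ‖z.2.2 - z₁.2.2‖ ^ 2 := by
    rw [sub_zero]
    have a1 := pow_le_pow_left₀ (norm_nonneg _) (hT z zT (tri _ z2)) 2
    have a2 := pow_le_pow_left₀ (mul_nonneg (by linarith) ho.le) hc 2
    have a3 : 2 * ‖z.2.2‖ ^ 2 - 2 * ‖z₁.2.2‖ ^ 2 ≤ 4 * c * o ^ 2 := by
      nlinarith [sq_nonneg (c * o)]
    have a4 := mul_le_mul_of_nonneg_left a3 Mo
    have a5 : M / o ^ 2 * (4 * c * o ^ 2) = 4 * M * c := by field_simp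
    linarith
  unfold psi at hz
  have p1 : 0 ≤ 1 / (b * o * s) ^ 2 * (z.2.1 - ⟪z.2.2, z.1 - z₁.1⟫ + -z₁.2.1) ^ 2 := by positivity
  have p2 : 0 ≤ M / o ^ 2 * ‖z.2.2 - z₁.2.2‖ ^ 2 := by positivity
  unfold psi at v1
  have g1 : (1 / (b * s) ^ 2 * ‖z.1 - x‖ ^ 2) ^ (-q / 2) ≤ 1 :=
    Real.rpow_le_one_of_one_le_of_nonpos (one_le hb hs z1) (by linarith)
  rcases zB with zB | zB | zB
  · have a1 := fin b s o M (z.2.1 - ⟪z.2.2, z.1 - z₁.1⟫ + -z₁.2.1) ‖z.2.2 - z₁.2.2‖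
      ‖z.1 - z₁.1‖ ⟪z.2.2 - z₁.2.2, z.1 - z₁.1⟫ hb hs ho M0 (norm_nonneg _) (tri _ z2)
      (abs_real_inner_le_norm _ _) (by linarith)
    have a2 := lip x xm z.1 (kU ⟨z1, z2⟩)
    rw [norm_sub_rev x, zB] at a2
    rw [(vs.gr z zT).2, (vs.gr z₁ h1).2] at a1
    have e : u x - u z₁.1 - ⟪z₁.2.2, x - z₁.1⟫ = (u x - u z.1 - ⟪z₁.2.2, x - z.1⟫) +
        (u z.1 - ⟪z.2.2, z.1 - z₁.1⟫ + -u z₁.1 + ⟪z.2.2 - z₁.2.2, z.1 - z₁.1⟫) := by
      simp only [inner_sub_left, inner_sub_right]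
      ring
    rw [e]
    refine (abs_add_le _ _).trans ?_
    linarith
  · have g : 1 / (b * s) ^ 2 * ‖z.1 - x‖ ^ 2 = 4 / b ^ 2 := by rw [zB]; field_simp; norm_num
    rw [g] at hz
    exfalso
    linarith
  · have a2 := pow_le_pow_left₀ (by positivity) c3 2
    have a3 : 2 * ‖z.2.2 - 0‖ ^ 2 - ‖z.2.2 - z₁.2.2‖ ^ 2 + -(2 * ‖z₁.2.2‖ ^ 2) ≤
        -(1 / 2 * o ^ 2) := by
      rw [sub_zero, zB]
      nlinarith [sq_nonneg ‖z.2.2 - z₁.2.2‖, sq_nonneg o]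
    have a4 := mul_le_mul_of_nonneg_left a3 Mo
    have a5 : M / o ^ 2 * -(1 / 2 * o ^ 2) = -(M / 2) := by field_simp
    exfalso
    linarith

end Pool.Agent.MP_815c6c_an.W
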