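import Pool.Agent.MP_815c6c_an.W.Defs

/-! The jets of `GF`. -/

set_option autoImplicit false

noncomputable section

namespace Pool.Agent.MP_815c6c_an.W

open Set Metric Filter Topology
open scoped RealInnerProductSpace

namespace GjA

section
variable {E : Type} [NormedAddCommGroup E] [NormedSpace ℝ E]

/-- value, first and second derivative of `f` at `s` along `W` -/
structure J (s W : E) (f : E → ℝ) (f0 f1 f2 : ℝ) : Prop where
  sm : ContDiffAt ℝ 2 f s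
  e0 : f s = f0
  e1 : fderiv ℝ f s W = f1
  e2 : d2 f s W = f2

variable {s W : E} {f g : E → ℝ} {f0 f1 f2 g0 g1 g2 : ℝ}

theorem ev1 {F : Type} [NormedAddCommGroup F] [NormedSpace ℝ F] {f : E → F}
    (h : ContDiffAt ℝ 2 f s) : ∀ᶠ y in 𝓝 s, HasFDerivAt f (fderiv ℝ f y) y :=
  (h.eventually (by simp)).mono fun _ a => (a.differentiableAt (by simp)).hasFDerivAt

theorem ev2 {F : Type} [NormedAddCommGroup F] [NormedSpace ℝ F] {f : E → F}
    (h : ContDiffAt ℝ 2 f s) : HasFDerivAt (fderiv ℝ f) (fderiv ℝ (fderiv ℝ f) s) s :=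
  ((h.fderiv_right (m := 1) (by norm_num)).differentiableAt one_ne_zero).hasFDerivAt

theorem J.congr (h : J s W f f0 f1 f2) (e : g =ᶠ[𝓝 s] f) : J s W g f0 f1 f2 :=
  ⟨h.sm.congr_of_eventuallyEq e, e.eq_of_nhds.trans h.e0, by rw [e.fderiv_eq, h.e1], by
    rw [d2, e.fderiv.fderiv_eq]; exact h.e2⟩

theorem J.cast (h : J s W f f0 f1 f2) (e0 : f0 = g0) (e1 : f1 = g1) (e2 : f2 = g2) :
    J s W f g0 g1 g2 :=
  ⟨h.sm, h.e0.trans e0, h.e1.trans e1, h.e2.trans e2⟩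

theorem J.const (c : ℝ) : J s W (fun _ => c) c 0 0 :=
  ⟨contDiffAt_const, rfl, by simp, by simp [d2]⟩

theorem J.add (hf : J s W f f0 f1 f2) (hg : J s W g g0 g1 g2) :
    J s W (fun y => f y + g y) (f0 + g0) (f1 + g1) (f2 + g2) := by
  have e : fderiv ℝ (fun y => f y + g y) =ᶠ[𝓝 s] fun y => fderiv ℝ f y + fderiv ℝ g y := by
    filter_upwards [ev1 hf.sm, ev1 hg.sm] with y a b using (a.add b).fderiv
  have e2 : fderiv ℝ (fun y => fderiv ℝ f y + fderiv ℝ g y) s = _ :=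
    ((ev2 hf.sm).add (ev2 hg.sm)).fderiv
  refine ⟨hf.sm.add hg.sm, by rw [hf.e0, hg.e0], by rw [e.eq_of_nhds, ← hf.e1, ← hg.e1]; rfl, ?_⟩
  rw [d2, e.fderiv_eq, e2, ← hf.e2, ← hg.e2]
  rfl

theorem J.mul (hf : J s W f f0 f1 f2) (hg : J s W g g0 g1 g2) :
    J s W (fun y => f y * g y) (f0 * g0) (f0 * g1 + g0 * f1)
      (f0 * g2 + g0 * f2 + 2 * (f1 * g1)) := by
  have e : fderiv ℝ (fun y => f y * g y) =ᶠ[𝓝 s]
      fun y => f y • fderiv ℝ g y + g y • fderiv ℝ f y := by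
    filter_upwards [ev1 hf.sm, ev1 hg.sm] with y a b using (a.mul b).fderiv
  have e2 : fderiv ℝ (fun y => f y • fderiv ℝ g y + g y • fderiv ℝ f y) s = _ :=
    (((ev1 hf.sm).self_of_nhds.smul (ev2 hg.sm)).add
      ((ev1 hg.sm).self_of_nhds.smul (ev2 hf.sm))).fderiv
  refine ⟨hf.sm.mul hg.sm, by rw [hf.e0, hg.e0],
    by rw [e.eq_of_nhds, ← hf.e1, ← hg.e1, ← hf.e0, ← hg.e0]; rfl, ?_⟩
  rw [d2, e.fderiv_eq, e2, ← hf.e2, ← hg.e2]
  simp only [add_apply, smul_apply,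
    ContinuousLinearMap.smulRight_apply, smul_eq_mul, hf.e1, hg.e1, hf.e0, hg.e0, d2]
  ring

theorem J.smul (hf : J s W f f0 f1 f2) (c : ℝ) :
    J s W (fun y => c * f y) (c * f0) (c * f1) (c * f2) :=
  ((J.const c).mul hf).cast rfl (by simp) (by simp)

theorem J.comp (hf : J s W f f0 f1 f2) {β β' : ℝ → ℝ} {b2 : ℝ} (hβ : ContDiffAt ℝ 2 β f0)
    (h1 : ∀ᶠ t in 𝓝 f0, HasDerivAt β (β' t) t) (h2 : HasDerivAt β' b2 f0) :
    J s W (fun y => β (f y)) (β f0) (β' f0 * f1) (β' f0 * f2 + b2 * f1 ^ 2) := by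
  rw [← hf.e0] at hβ h1 h2 ⊢
  have e : fderiv ℝ (fun y => β (f y)) =ᶠ[𝓝 s] fun y => β' (f y) • fderiv ℝ f y := by
    filter_upwards [ev1 hf.sm, hf.sm.continuousAt.eventually h1] with y a b
    exact (b.comp_hasFDerivAt y a).fderiv
  have e2 : fderiv ℝ (fun y => β' (f y) • fderiv ℝ f y) s = _ :=
    ((h2.comp_hasFDerivAt s (ev1 hf.sm).self_of_nhds).smul (ev2 hf.sm)).fderiv
  refine ⟨hβ.comp s hf.sm, rfl, by rw [e.eq_of_nhds, ← hf.e1]; rfl, ?_⟩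
  rw [d2, e.fderiv_eq, e2, ← hf.e2]
  simp only [add_apply, smul_apply,
    ContinuousLinearMap.smulRight_apply, smul_eq_mul, hf.e1, Function.comp, d2]
  ring

theorem J.exp (hf : J s W f f0 f1 f2) : J s W (fun y => Real.exp (f y)) (Real.exp f0)
    (Real.exp f0 * f1) (Real.exp f0 * f2 + Real.exp f0 * f1 ^ 2) :=
  hf.comp Real.contDiff_exp.contDiffAt (Eventually.of_forall Real.hasDerivAt_exp)
    (Real.hasDerivAt_exp f0)

theorem J.log (hf : J s W f f0 f1 f2) (h : f0 ≠ 0) : J s W (fun y => Real.log (f y)) (Real.log f0)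
    (f0⁻¹ * f1) (f0⁻¹ * f2 + -(f0 ^ 2)⁻¹ * f1 ^ 2) :=
  hf.comp (β' := fun t => t⁻¹) (Real.contDiffAt_log.2 h)
    ((eventually_ne_nhds h).mono fun _ a => Real.hasDerivAt_log a) (hasDerivAt_inv h)

theorem J.inn {V : Type} [NormedAddCommGroup V] [InnerProductSpace ℝ V] (A B : E →L[ℝ] V) :
    J s W (fun y => ⟪A y, B y⟫) ⟪A s, B s⟫ (⟪A s, B W⟫ + ⟪A W, B s⟫) (2 * ⟪A W, B W⟫) := by
  have e : fderiv ℝ (fun y => ⟪A y, B y⟫) =
      ((ContinuousLinearMap.compL ℝ E V ℝ).flip B ∘L innerSL ℝ ∘L A +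
        (ContinuousLinearMap.compL ℝ E V ℝ).flip A ∘L innerSL ℝ ∘L B : E →L[ℝ] E →L[ℝ] ℝ) := by
    funext y
    ext v
    rw [fderiv_inner_apply ℝ A.differentiableAt B.differentiableAt, A.fderiv, B.fderiv,
      real_inner_comm (B y)]
    rfl
  refine ⟨A.contDiff.contDiffAt.inner ℝ B.contDiff.contDiffAt, rfl, ?_, ?_⟩
  · rw [e, real_inner_comm (B s)]; rfl
  · rw [d2, e, ContinuousLinearMap.fderiv, two_mul]
    nth_rewrite 2 [real_inner_comm]
    rfl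

theorem chain {V : Type} [NormedAddCommGroup V] [NormedSpace ℝ V] {φ : E → V} {F : V → ℝ}
    (hφ : ContDiffAt ℝ 2 φ s) (hF : ContDiffAt ℝ 2 F (φ s)) :
    J s W (fun y => F (φ y)) (F (φ s)) (fderiv ℝ F (φ s) (fderiv ℝ φ s W))
      (d2 F (φ s) (fderiv ℝ φ s W) + fderiv ℝ F (φ s) (fderiv ℝ (fderiv ℝ φ) s W W)) := by
  have e : fderiv ℝ (fun y => F (φ y)) =ᶠ[𝓝 s]
      fun y => (fderiv ℝ F (φ y)).comp (fderiv ℝ φ y) := by
    filter_upwards [ev1 hφ, hφ.continuousAt.eventually (ev1 hF)] with y a b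
    exact (b.comp y a).fderiv
  have e2 : fderiv ℝ (fun y => (fderiv ℝ F (φ y)).comp (fderiv ℝ φ y)) s = _ :=
    (((ev2 hF).comp s (ev1 hφ).self_of_nhds).clm_comp (ev2 hφ)).fderiv
  refine ⟨hF.comp s hφ, rfl, by rw [e.eq_of_nhds]; rfl, ?_⟩
  rw [d2, e.fderiv_eq, e2, add_comm (d2 _ _ _)]
  rfl

theorem lin {V : Type} [NormedAddCommGroup V] [NormedSpace ℝ V] {φ : E → V} (L : V →L[ℝ] ℝ)
    (hφ : ContDiffAt ℝ 2 φ s) (h : J s W (fun y => L (φ y)) f0 f1 f2) :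
    L (fderiv ℝ φ s W) = f1 ∧ L (fderiv ℝ (fderiv ℝ φ) s W W) = f2 := by
  have k := chain (W := W) hφ (F := L) L.contDiff.contDiffAt
  have a := k.e1.symm.trans h.e1
  have b := k.e2.symm.trans h.e2
  rw [d2, show fderiv ℝ L = fun _ => L from funext fun _ => L.fderiv] at b
  rw [L.fderiv] at a
  exact ⟨a, by simpa using b⟩

theorem J.pair (hf : J s W f f0 f1 f2) (hg : J s W g g0 g1 g2) {F : ℝ × ℝ → ℝ} {j : J6}
    (h : Jt2 F (f0, g0) j) : J s W (fun y => F (f y, g y)) j.f (j.t * f1 + j.c * g1)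
      (j.tt * f1 ^ 2 + 2 * j.tc * f1 * g1 + j.cc * g1 ^ 2 + (j.t * f2 + j.c * g2)) := by
  rw [← hf.e0, ← hg.e0] at h
  have hφ : ContDiffAt ℝ 2 (fun y => (f y, g y)) s := hf.sm.prodMk hg.sm
  obtain ⟨a1, a2⟩ := lin (ContinuousLinearMap.fst ℝ ℝ ℝ) hφ hf
  obtain ⟨b1, b2⟩ := lin (ContinuousLinearMap.snd ℝ ℝ ℝ) hφ hg
  have c1 : fderiv ℝ (fun y => (f y, g y)) s W = (f1, g1) := Prod.ext a1 b1
  have c2 : fderiv ℝ (fderiv ℝ (fun y => (f y, g y))) s W W = (f2, g2) := Prod.ext a2 b2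
  refine (chain (W := W) hφ h.1).cast h.2.1 ?_ ?_
  · rw [c1]; exact (h.2.2 _ _).1
  · rw [c1, c2, (h.2.2 _ _).1, (h.2.2 _ _).2]

/-- the logarithm of the norm of a linear image -/
theorem lnorm {V : Type} [NormedAddCommGroup V] [InnerProductSpace ℝ V] (A : E →L[ℝ] V) {c : ℝ}
    {n h : V} (hc : 0 < c) (hn : ‖n‖ = 1) (e0 : A s = c • n) (e1 : A W = c • h) :
    J s W (fun y => Real.log ‖A y‖) (Real.log c) ⟪n, h⟫ (‖h‖ ^ 2 - 2 * ⟪n, h⟫ ^ 2) := by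
  have k : J s W (fun y => ⟪A y, A y⟫) (c ^ 2) (2 * c ^ 2 * ⟪n, h⟫) (2 * c ^ 2 * ‖h‖ ^ 2) := by
    refine (J.inn A A).cast ?_ ?_ ?_
    · rw [e0, real_inner_smul_left, real_inner_smul_right, real_inner_self_eq_norm_sq, hn]; ring
    · rw [e0, e1, real_inner_smul_left, real_inner_smul_right, real_inner_smul_left,
        real_inner_smul_right, real_inner_comm n h]; ring
    · rw [e1, real_inner_smul_left, real_inner_smul_right, real_inner_self_eq_norm_sq]; ring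
  have c0 := hc.ne'
  refine (((k.log (pow_ne_zero 2 c0)).smul (1 / 2)).congr (Eventually.of_forall fun y => ?_)).cast
    ?_ ?_ ?_
  · simp only [real_inner_self_eq_norm_sq, Real.log_pow]; push_cast; ring
  · rw [Real.log_pow]; push_cast; ring
  · field_simp
  · field_simp; ring
end

end GjA

open GjA in
theorem gj : GjS := by
  intro d q g r F j n e hg hr hn he hj
  have main : ∀ h k : X d, J ((g • n, r • e) : X d × X d) (g • h, r • k) (GF q F)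
      (g * r * (⟪n, e⟫ + j.f)) (g * r * E1 q ⟪n, e⟫ j ⟪n, h⟫ ⟪e, k⟫ (⟪e, h⟫ + ⟪n, k⟫))
      (g * r * E2 q ⟪n, e⟫ j ⟪n, h⟫ ⟪e, k⟫ (⟪e, h⟫ + ⟪n, k⟫) (‖h‖ ^ 2) (‖k‖ ^ 2) ⟪h, k⟫) := by
    intro h k
    have a := lnorm (s := ((g • n, r • e) : X d × X d)) (W := (g • h, r • k))
      (ContinuousLinearMap.fst ℝ (X d) (X d)) hg hn rfl rfl
    have b := lnorm (s := ((g • n, r • e) : X d × X d)) (W := (g • h, r • k))
      (ContinuousLinearMap.snd ℝ (X d) (X d)) hr he rfl rfl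
    have i : J ((g • n, r • e) : X d × X d) (g • h, r • k) (fun w => ⟪w.1, w.2⟫) (g * r * ⟪n, e⟫)
        (g * r * (⟪e, h⟫ + ⟪n, k⟫)) (g * r * (2 * ⟪h, k⟫)) := by
      refine (J.inn (ContinuousLinearMap.fst ℝ (X d) (X d))
        (ContinuousLinearMap.snd ℝ (X d) (X d))).cast ?_ ?_ ?_ <;>
      simp only [ContinuousLinearMap.coe_fst', ContinuousLinearMap.coe_snd', real_inner_smul_left,
        real_inner_smul_right, real_inner_comm e h] <;> ring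
    have x1 : Real.exp (Real.log g + Real.log r) = g * r := by
      rw [Real.exp_add, Real.exp_log hg, Real.exp_log hr]
    have x2 : Real.exp (-1 * (Real.log g + Real.log r)) = (g * r)⁻¹ := by
      rw [neg_one_mul, Real.exp_neg, x1]
    have g0 := hg.ne'
    have r0 := hr.ne'
    have ρ := (a.add b).exp
    have c := i.mul ((a.add b).smul (-1)).exp
    have τ := (b.smul q⁻¹).add (a.smul (-1))
    rw [x1] at ρ
    rw [x2] at c
    have c' := c.cast (g0 := ⟪n, e⟫) (g1 := ⟪e, h⟫ + ⟪n, k⟫ - ⟪n, e⟫ * (⟪n, h⟫ + ⟪e, k⟫))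
      (g2 := 2 * ⟪h, k⟫ - 2 * (⟪e, h⟫ + ⟪n, k⟫) * (⟪n, h⟫ + ⟪e, k⟫) + ⟪n, e⟫ *
        ((⟪n, h⟫ + ⟪e, k⟫) ^ 2 - (‖h‖ ^ 2 - 2 * ⟪n, h⟫ ^ 2) - (‖k‖ ^ 2 - 2 * ⟪e, k⟫ ^ 2)))
      (by field_simp) (by field_simp; ring) (by field_simp; ring)
    have τ' := τ.cast (g0 := Real.log r / q - Real.log g) (by ring) rfl rfl
    have n1 : (g • n : X d) ≠ 0 := smul_ne_zero g0 (by rw [← norm_ne_zero_iff, hn]; norm_num)
    have n2 : (r • e : X d) ≠ 0 := smul_ne_zero r0 (by rw [← norm_ne_zero_iff, he]; norm_num)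
    refine ((i.add (ρ.mul (τ'.pair c' hj))).congr ?_).cast (by ring) ?_ ?_
    · filter_upwards [continuous_fst.continuousAt.eventually_ne
          (show ((g • n, r • e) : X d × X d).1 ≠ 0 from n1),
        continuous_snd.continuousAt.eventually_ne
          (show ((g • n, r • e) : X d × X d).2 ≠ 0 from n2)] with w w1 w2
      have y1 : Real.exp (Real.log ‖w.1‖ + Real.log ‖w.2‖) = ‖w.1‖ * ‖w.2‖ := by
        rw [Real.exp_add, Real.exp_log (norm_pos_iff.2 w1), Real.exp_log (norm_pos_iff.2 w2)]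
      simp only [GF, ContinuousLinearMap.coe_fst', ContinuousLinearMap.coe_snd', neg_one_mul,
        Real.exp_neg, y1, div_eq_mul_inv, mul_comm q⁻¹, sub_eq_add_neg]
    · simp only [E1]; ring
    · simp only [E2]; ring
  exact ⟨(main 0 0).sm, (main 0 0).e0, fun h k => ⟨(main h k).e1, (main h k).e2⟩⟩

end Pool.Agent.MP_815c6c_an.W
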