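import Pool.Agent.MP_815c6c_an.W.Defs

/-! Reduction of the inequality `Key` at one state to scalar inequalities in the jets. -/

set_option autoImplicit false

noncomputable section

namespace Pool.Agent.MP_815c6c_an.W.KR

/-- the coefficients of the first and second derivatives of `G` at the state `(c, S)`:
`η` in the frame `(ν, τ)`, `z` in the frame `(ẑ, n)` -/
structure Co : Type where
  g1 : ℝ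
  g2 : ℝ
  r : ℝ
  e1 : ℝ
  e2 : ℝ
  y11 : ℝ
  y12 : ℝ
  y22 : ℝ
  c11 : ℝ
  c12 : ℝ
  c21 : ℝ
  c22 : ℝ
  z11 : ℝ
  z12 : ℝ
  z22 : ℝ
  y3 : ℝ
  c3 : ℝ
  z3 : ℝ

def co (q c S : ℝ) (j : J6) : Co where
  g1 := c + j.f - j.t
  g2 := S * (1 + j.c)
  r := c + j.f + j.t / q
  e1 := c * (j.f + j.t / q) + S ^ 2 * j.c
  e2 := S * (j.f + j.t / q - c * j.c)
  y11 := j.tt - j.t
  y12 := -(S * j.tc)
  y22 := j.f - j.t + (S ^ 2 * j.cc - c * j.c)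
  c11 := c + j.f + j.t / q - j.t - j.tt / q
  c12 := S * (1 + j.c + j.tc / q)
  c21 := S * (j.tc - 1 - j.c)
  c22 := c - (S ^ 2 * j.cc - c * j.c)
  z11 := j.t / q + j.tt / q ^ 2
  z12 := -(S * j.tc / q)
  z22 := j.f + j.t / q + (S ^ 2 * j.cc - c * j.c)
  y3 := j.f - j.t - c * j.c
  c3 := 1 + j.c
  z3 := j.f + j.t / q - c * j.c

def Co.yy (k : Co) (x₁ x₂ : ℝ) : ℝ := k.y11 * x₁ ^ 2 + 2 * k.y12 * x₁ * x₂ + k.y22 * x₂ ^ 2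
def Co.zz (k : Co) (y₁ y₂ : ℝ) : ℝ := k.z11 * y₁ ^ 2 + 2 * k.z12 * y₁ * y₂ + k.z22 * y₂ ^ 2
def Co.cc (k : Co) (x₁ x₂ y₁ y₂ : ℝ) : ℝ :=
  y₁ * (k.c11 * x₁ + k.c12 * x₂) + y₂ * (k.c21 * x₁ + k.c22 * x₂)

theorem d2_eq (q c S : ℝ) (j : J6) (h : c ^ 2 + S ^ 2 = 1) (h₁ h₂ h₃ y₁ y₂ k₃ : ℝ) :
    D2 q c S j h₁ h₂ h₃ (c * y₁ - S * y₂) (S * y₁ + c * y₂) k₃ =
      (co q c S j).yy h₁ h₂ + 2 * (co q c S j).cc h₁ h₂ y₁ y₂ + (co q c S j).zz y₁ y₂ +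
        ((co q c S j).y3 * h₃ ^ 2 + 2 * (co q c S j).c3 * h₃ * k₃ + (co q c S j).z3 * k₃ ^ 2) := by
  have a1 : c * (c * y₁ - S * y₂) + S * (S * y₁ + c * y₂) = y₁ := by
    linear_combination y₁ * h
  have a2 : (c * y₁ - S * y₂) ^ 2 + (S * y₁ + c * y₂) ^ 2 + k₃ ^ 2 = y₁ ^ 2 + y₂ ^ 2 + k₃ ^ 2 := by
    linear_combination (y₁ ^ 2 + y₂ ^ 2) * h
  unfold D2
  rw [a1, a2]
  simp only [E2, co, Co.yy, Co.zz, Co.cc, div_eq_mul_inv, ← inv_pow]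
  ring

theorem d1_eq (q c S : ℝ) (j : J6) (h : c ^ 2 + S ^ 2 = 1) (h₁ h₂ k₁ k₂ : ℝ) :
    D1 q c S j h₁ h₂ k₁ k₂ = (co q c S j).g1 * h₁ + (co q c S j).g2 * h₂ +
      (1 + (co q c S j).e1) * k₁ + (co q c S j).e2 * k₂ := by
  simp only [D1, E1, co, div_eq_mul_inv]
  linear_combination (-(j.c * k₁)) * h

/-- the in-plane second derivative -/
def Co.dd (k : Co) (x₁ x₂ y₁ y₂ : ℝ) : ℝ := k.yy x₁ x₂ + 2 * k.cc x₁ x₂ y₁ y₂ + k.zz y₁ y₂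

/-- the block part of the value; `a, b` are the columns of the coupling in the frame `(ẑ, n)` -/
def Co.vin (k : Co) (P c S h₁₁ h₁₂ h₂₂ h₃₃ w₂ a₁ a₂ b₁ b₂ e s : ℝ) : ℝ :=
  (1 + P) * k.dd h₁₁ h₁₂ (a₁ - c) (a₂ + S) + k.dd h₁₂ h₂₂ (b₁ - S) (b₂ - c) +
    (k.y3 * h₃₃ ^ 2 + 2 * k.c3 * h₃₃ * (e - 1) + k.z3 * (s - 2 * e + 1)) -
    2 * P * h₁₂ * (k.e2 - w₂)
/-- the cost of the independent noise in the plane -/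
def Co.xt (k : Co) (P a₁ a₂ b₁ b₂ s N₁ N₂ : ℝ) : ℝ :=
  s * (k.z11 + k.z22 + P * k.zz N₁ N₂) - (1 + P) * k.zz a₁ a₂ - k.zz b₁ b₂
/-- the part of the value that depends on `h₁₃, h₂₃` -/
def Co.vout (k : Co) (P h₁₃ h₂₃ w₃ : ℝ) : ℝ :=
  (1 + P) * k.y3 * h₁₃ ^ 2 + k.y3 * h₂₃ ^ 2 + k.yy h₁₃ h₂₃ + 2 * P * h₁₃ * w₃

/-- the block game at one state, perturbation `μ`, margin `μ₁` -/
def Blk (k : Co) (P c S μ μ₁ : ℝ) : Prop :=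
  ∀ h₁₁ h₁₂ h₂₂ h₃₃ w₁ w₂ N₁ N₂ t : ℝ, (1 + P) * h₁₁ + h₂₂ + h₃₃ = 0 → w₁ ^ 2 ≤ μ ^ 2 →
    w₂ ^ 2 ≤ μ ^ 2 → k.g1 * h₁₁ + k.g2 * h₁₂ = k.e1 - w₁ → k.g1 * h₁₂ + k.g2 * h₂₂ = k.e2 - w₂ →
    N₁ ^ 2 + N₂ ^ 2 = 1 → 0 ≤ t → t * N₁ = k.r → t * N₂ = -k.g2 →
    ∃ s a₁ a₂ b₁ b₂ e : ℝ, e ^ 2 ≤ s ∧
      (∀ v₁ v₂ : ℝ, (1 + P) * (v₁ * a₁ + v₂ * a₂) ^ 2 + (v₁ * b₁ + v₂ * b₂) ^ 2 ≤
        s * (v₁ ^ 2 + v₂ ^ 2 + P * (v₁ * N₁ + v₂ * N₂) ^ 2)) ∧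
      k.vin P c S h₁₁ h₁₂ h₂₂ h₃₃ w₂ a₁ a₂ b₁ b₂ e s + k.xt P a₁ a₂ b₁ b₂ s N₁ N₂ ≤ -μ₁

/-- the entries outside the blocks cost at most `μ₂` -/
def Out (k : Co) (P μ μ₂ : ℝ) : Prop :=
  ∀ h₁₃ h₂₃ w₃ : ℝ, w₃ ^ 2 ≤ μ ^ 2 → k.g1 * h₁₃ + k.g2 * h₂₃ = -w₃ → k.vout P h₁₃ h₂₃ w₃ ≤ μ₂

theorem key_of_blk (P q c S μ μ₂ : ℝ) (j : J6) (h : c ^ 2 + S ^ 2 = 1) (h3 : 0 < 1 + j.c)
    (hb : Blk (co q c S j) P c S μ (μ + μ₂)) (ho : Out (co q c S j) P μ μ₂) :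
    Key P q c S j μ := by
  intro h₁₁ h₁₂ h₁₃ h₂₂ h₂₃ h₃₃ w₁ w₂ w₃ n₁ n₂ n₃ t htr hw c1 c2 c3 hn ht x1 x2 x3 x4
  rw [d1_eq q c S j h] at c1 c2 c3 x1 x2
  have hr : c * (1 + (co q c S j).e1) + S * (co q c S j).e2 = (co q c S j).r := by
    simp only [co]
    linear_combination (j.f + j.t / q) * h
  have hg : -S * (1 + (co q c S j).e1) + c * (co q c S j).e2 = -(co q c S j).g2 := by
    simp only [co]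
    linear_combination (-(S * j.c)) * h
  have n3 : n₃ = 0 := by
    rcases mul_eq_zero.1 x3 with h0 | h0
    · apply x4
      have : (co q c S j).g2 = 0 := by
        rw [h0] at x1 x2
        linear_combination -hg - S * x1 + c * x2 + hg + hg - hg + 2 * S * x1 - 2 * c * x2 + hg
      simp only [co] at this
      rcases mul_eq_zero.1 this with h1 | h1
      · exact h1
      · exact absurd h1 h3.ne'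
    · exact h0
  subst n3
  obtain ⟨s, a₁, a₂, b₁, b₂, e, he, hp, hv⟩ := hb h₁₁ h₁₂ h₂₂ h₃₃ w₁ w₂ (c * n₁ + S * n₂)
    (-S * n₁ + c * n₂) t htr (by nlinarith [sq_nonneg w₂, sq_nonneg w₃])
    (by nlinarith [sq_nonneg w₁, sq_nonneg w₃]) (by linear_combination c1)
    (by linear_combination c2) (by linear_combination (n₁ ^ 2 + n₂ ^ 2) * h + hn) ht
    (by linear_combination hr - c * x1 - S * x2) (by linear_combination hg + S * x1 - c * x2)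
  have ho' := ho h₁₃ h₂₃ w₃ (by nlinarith [sq_nonneg w₁, sq_nonneg w₂]) (by linear_combination c3)
  refine ⟨s, c * a₁ - S * a₂, S * a₁ + c * a₂, 0, c * b₁ - S * b₂, S * b₁ + c * b₂, 0, 0, 0, e,
    le_trans (sq_nonneg e) he, ?_, ?_⟩
  · intro v₁ v₂ v₃
    have := hp (c * v₁ + S * v₂) (-S * v₁ + c * v₂)
    have e1 : (c * v₁ + S * v₂) ^ 2 + (-S * v₁ + c * v₂) ^ 2 = v₁ ^ 2 + v₂ ^ 2 := by
      linear_combination (v₁ ^ 2 + v₂ ^ 2) * h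
    have e2 : (c * v₁ + S * v₂) * (c * n₁ + S * n₂) + (-S * v₁ + c * v₂) * (-S * n₁ + c * n₂) =
        v₁ * n₁ + v₂ * n₂ := by linear_combination (v₁ * n₁ + v₂ * n₂) * h
    rw [e1, e2] at this
    have e3 := mul_le_mul_of_nonneg_left he (sq_nonneg v₃)
    calc _ = ((1 + P) * ((c * v₁ + S * v₂) * a₁ + (-S * v₁ + c * v₂) * a₂) ^ 2 +
          ((c * v₁ + S * v₂) * b₁ + (-S * v₁ + c * v₂) * b₂) ^ 2) + v₃ ^ 2 * e ^ 2 := by ring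
      _ ≤ s * (v₁ ^ 2 + v₂ ^ 2 + P * (v₁ * n₁ + v₂ * n₂) ^ 2) + v₃ ^ 2 * s := add_le_add this e3
      _ = _ := by ring
  · have f1 := d2_eq q c S j h h₁₁ h₁₂ h₁₃ (a₁ - c) (a₂ + S) 0
    have f2 := d2_eq q c S j h 0 0 0 a₁ a₂ 0
    have f3 := d2_eq q c S j h h₁₂ h₂₂ h₂₃ (b₁ - S) (b₂ - c) 0
    have f4 := d2_eq q c S j h 0 0 0 b₁ b₂ 0
    have f5 := d2_eq q c S j h h₁₃ h₂₃ h₃₃ 0 0 (e - 1)
    have f6 := d2_eq q c S j h 0 0 0 0 0 e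
    have f7 := d2_eq q c S j h 0 0 0 c (-S) 0
    have f8 := d2_eq q c S j h 0 0 0 S c 0
    have f9 := d2_eq q c S j h 0 0 0 0 0 1
    have f10 := d2_eq q c S j h 0 0 0 (c * n₁ + S * n₂) (-S * n₁ + c * n₂) 0
    rw [show c * (a₁ - c) - S * (a₂ + S) = c * a₁ - S * a₂ - 1 by linear_combination -h,
      show S * (a₁ - c) + c * (a₂ + S) = S * a₁ + c * a₂ by ring] at f1
    rw [show c * (b₁ - S) - S * (b₂ - c) = c * b₁ - S * b₂ by ring,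
      show S * (b₁ - S) + c * (b₂ - c) = S * b₁ + c * b₂ - 1 by linear_combination -h] at f3
    rw [show c * (0 : ℝ) - S * 0 = 0 by ring, show S * (0 : ℝ) + c * 0 = 0 by ring] at f5 f6 f9
    rw [show c * c - S * -S = 1 by linear_combination h, show S * c + c * -S = 0 by ring] at f7
    rw [show c * S - S * c = 0 by ring, show S * S + c * c = 1 by linear_combination h] at f8
    rw [show c * (c * n₁ + S * n₂) - S * (-S * n₁ + c * n₂) = n₁ by linear_combination n₁ * h,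
      show S * (c * n₁ + S * n₂) + c * (-S * n₁ + c * n₂) = n₂ by linear_combination n₂ * h] at f10
    rw [f1, f2, f3, f4, f5, f6, f7, f8, f9, f10, d1_eq q c S j h]
    generalize co q c S j = k at *
    simp only [Co.vin, Co.xt, Co.vout, Co.dd, Co.yy, Co.zz, Co.cc] at hv ho' ⊢
    have g1 : s * (k.z11 + k.z22) * (c ^ 2 + S ^ 2 - 1) = 0 := by rw [h]; ring
    have g2 : 2 * P * h₁₂ * (k.g1 * h₁₂ + k.g2 * h₂₂ - (k.e2 - w₂)) = 0 := by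
      rw [show k.g1 * h₁₂ + k.g2 * h₂₂ - (k.e2 - w₂) = 0 by linear_combination c2]; ring
    have g3 : 2 * P * h₁₃ * (k.g1 * h₁₃ + k.g2 * h₂₃ + w₃) = 0 := by
      rw [show k.g1 * h₁₃ + k.g2 * h₂₃ + w₃ = 0 by linear_combination c3]; ring
    linear_combination hv + ho' + g1 - g2 - g3

/-- `k` is `n` with the jets multiplied by `T` and `G_η` multiplied by `ρ` -/
structure Sc (k n : Co) (T ρ : ℝ) : Prop where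
  g1 : k.g1 = ρ * n.g1
  g2 : k.g2 = ρ * n.g2
  r : k.r = n.r
  e1 : k.e1 = T * n.e1
  e2 : k.e2 = T * n.e2
  y11 : k.y11 = T * n.y11
  y12 : k.y12 = T * n.y12
  y22 : k.y22 = T * n.y22
  c11 : k.c11 = n.c11
  c12 : k.c12 = n.c12
  c21 : k.c21 = n.c21
  c22 : k.c22 = n.c22
  z11 : k.z11 = T * n.z11
  z12 : k.z12 = T * n.z12
  z22 : k.z22 = T * n.z22
  y3 : k.y3 = T * n.y3
  c3 : k.c3 = n.c3
  z3 : k.z3 = T * n.z3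

def Co.dl (n : Co) (P : ℝ) : ℝ := (1 + P) * n.g2 ^ 2 + n.g1 ^ 2
def Co.dt (n : Co) (T x₁ x₂ y₁ y₂ : ℝ) : ℝ :=
  T ^ 2 * n.yy x₁ x₂ + 2 * n.cc x₁ x₂ y₁ y₂ + n.zz y₁ y₂

/-- the normalised value `ρ² Δ val / T`; `γ` is the image of `g`, `ω` the image of `A m`,
`σ = ρ² s Δ`, `β = ρ h₃₃ / T` -/
def Co.vt (n : Co) (P c S T ρ E₁ E₂ γ₁ γ₂ ω₁ ω₂ σ β e : ℝ) : ℝ :=
  n.dt T (E₂ + β * n.g2) (-((1 + P) * E₁ + β * n.g1))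
      (ω₁ - ρ * (S * n.g1 - (1 + P) * c * n.g2)) (ω₂ - ρ * (c * n.g1 + (1 + P) * S * n.g2)) +
    (1 + P) * n.dt T E₁ E₂ (γ₁ - ρ * (c * n.g1 + S * n.g2)) (γ₂ - ρ * (c * n.g2 - S * n.g1)) +
    n.dl P * (T ^ 2 * n.y3 * β ^ 2 + 2 * n.c3 * β * (e - ρ) + n.z3 * (ρ ^ 2 - 2 * e * ρ)) +
    n.z3 * σ - 2 * P * ρ * T * E₂ * ((1 + P) * n.g2 * E₁ + n.g1 * E₂ + β * n.g1 * n.g2)

theorem vin_eq {k n : Co} {T ρ : ℝ} (h : Sc k n T ρ) (hρ : ρ ≠ 0)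
    (P c S x₁₁ x₁₂ x₂₂ w₂ a₁ a₂ b₁ b₂ e s : ℝ)
    (hw : k.e2 - w₂ = T * (n.g1 * x₁₂ + n.g2 * x₂₂)) :
    ρ ^ 2 * n.dl P * k.vin P c S (T * x₁₁ / ρ) (T * x₁₂ / ρ) (T * x₂₂ / ρ)
      (T * -((1 + P) * x₁₁ + x₂₂) / ρ) w₂ (a₁ / ρ) (a₂ / ρ) (b₁ / ρ) (b₂ / ρ) (e / ρ) (s / ρ ^ 2) =
    T * n.vt P c S T ρ (n.g1 * x₁₁ + n.g2 * x₁₂) (n.g1 * x₁₂ + n.g2 * x₂₂)
      (n.g1 * a₁ + n.g2 * b₁) (n.g1 * a₂ + n.g2 * b₂) (n.g1 * b₁ - (1 + P) * n.g2 * a₁)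
      (n.g1 * b₂ - (1 + P) * n.g2 * a₂) (s * n.dl P) (-((1 + P) * x₁₁ + x₂₂)) e := by
  simp only [Co.vin, Co.vt, Co.dd, Co.dt, Co.dl, Co.yy, Co.zz, Co.cc, hw, h.y11, h.y12, h.y22,
    h.c11, h.c12, h.c21, h.c22, h.z11, h.z12, h.z22, h.y3, h.c3, h.z3]
  field_simp
  ring

/-- the value for the exact coupling `N g = U ξ + V ξ'`, `N A m = (1+P) V ξ - U ξ'` -/
def Co.va (n : Co) (P c S T ρ E₁ E₂ U V β e : ℝ) : ℝ :=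
  n.vt P c S T ρ E₁ E₂ (U * n.r + V * (ρ * n.g2)) (V * n.r - U * (ρ * n.g2))
    ((1 + P) * V * n.r - U * (ρ * n.g2)) (-((1 + P) * V * (ρ * n.g2)) - U * n.r)
    ((U ^ 2 + (1 + P) * V ^ 2) * (n.r ^ 2 + (ρ * n.g2) ^ 2)) β e

/-- the data common to both couplings -/
theorem blk_of {k n : Co} {T ρ : ℝ} (h : Sc k n T ρ) (hT : 0 < T) (hρ : 0 < ρ) (P c S δ δ₁ : ℝ)
    (hd : 0 < n.dl P)
    (H : ∀ E₁ E₂ β N₁ N₂ t : ℝ, (E₁ - n.e1) ^ 2 ≤ δ ^ 2 → (E₂ - n.e2) ^ 2 ≤ δ ^ 2 →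
      N₁ ^ 2 + N₂ ^ 2 = 1 → t * N₁ = n.r → t * N₂ = -(ρ * n.g2) →
      ∃ s a₁ a₂ b₁ b₂ e : ℝ, e ^ 2 ≤ s ∧
      (∀ v₁ v₂ : ℝ, (1 + P) * (v₁ * a₁ + v₂ * a₂) ^ 2 + (v₁ * b₁ + v₂ * b₂) ^ 2 ≤
        s * (v₁ ^ 2 + v₂ ^ 2 + P * (v₁ * N₁ + v₂ * N₂) ^ 2)) ∧
      n.vt P c S T ρ E₁ E₂ (n.g1 * a₁ + n.g2 * b₁) (n.g1 * a₂ + n.g2 * b₂)
        (n.g1 * b₁ - (1 + P) * n.g2 * a₁) (n.g1 * b₂ - (1 + P) * n.g2 * a₂) (s * n.dl P) β e +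
        n.dl P * n.xt P a₁ a₂ b₁ b₂ s N₁ N₂ + δ₁ * ρ ^ 2 * n.dl P ≤ 0) :
    Blk k P c S (δ * T) (δ₁ * T) := by
  intro h₁₁ h₁₂ h₂₂ h₃₃ w₁ w₂ N₁ N₂ t htr hw1 hw2 c1 c2 hN ht x1 x2
  obtain ⟨x₁₁, rfl⟩ : ∃ x, h₁₁ = T * x / ρ := ⟨ρ * h₁₁ / T, by field_simp⟩
  obtain ⟨x₁₂, rfl⟩ : ∃ x, h₁₂ = T * x / ρ := ⟨ρ * h₁₂ / T, by field_simp⟩
  obtain ⟨x₂₂, rfl⟩ : ∃ x, h₂₂ = T * x / ρ := ⟨ρ * h₂₂ / T, by field_simp⟩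
  obtain rfl : h₃₃ = T * -((1 + P) * x₁₁ + x₂₂) / ρ := by
    have : T * -((1 + P) * x₁₁ + x₂₂) / ρ = -((1 + P) * (T * x₁₁ / ρ) + T * x₂₂ / ρ) := by ring
    rw [this]; linear_combination htr
  have d1 : k.e1 - w₁ = T * (n.g1 * x₁₁ + n.g2 * x₁₂) := by
    rw [← c1, h.g1, h.g2]; field_simp
  have d2 : k.e2 - w₂ = T * (n.g1 * x₁₂ + n.g2 * x₂₂) := by
    rw [← c2, h.g1, h.g2]; field_simp
  have hT2 : 0 < T ^ 2 := by positivity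
  obtain ⟨s, a₁, a₂, b₁, b₂, e, he, hp, hv⟩ := H (n.g1 * x₁₁ + n.g2 * x₁₂)
    (n.g1 * x₁₂ + n.g2 * x₂₂) (-((1 + P) * x₁₁ + x₂₂)) N₁ N₂ t
    (by
      refine le_of_mul_le_mul_left ?_ hT2
      have : w₁ = -(T * (n.g1 * x₁₁ + n.g2 * x₁₂ - n.e1)) := by
        rw [h.e1] at d1; linear_combination -d1
      rw [this] at hw1
      linear_combination hw1)
    (by
      refine le_of_mul_le_mul_left ?_ hT2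
      have : w₂ = -(T * (n.g1 * x₁₂ + n.g2 * x₂₂ - n.e2)) := by
        rw [h.e2] at d2; linear_combination -d2
      rw [this] at hw2
      linear_combination hw2)
    hN (by rw [x1, h.r]) (by rw [x2, h.g2])
  have hρ2 : 0 < ρ ^ 2 := by positivity
  refine ⟨s / ρ ^ 2, a₁ / ρ, a₂ / ρ, b₁ / ρ, b₂ / ρ, e / ρ, ?_, ?_, ?_⟩
  · rw [div_pow]; exact div_le_div_of_nonneg_right he hρ2.le
  · intro v₁ v₂
    have := div_le_div_of_nonneg_right (hp v₁ v₂) hρ2.le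
    calc _ = ((1 + P) * (v₁ * a₁ + v₂ * a₂) ^ 2 + (v₁ * b₁ + v₂ * b₂) ^ 2) / ρ ^ 2 := by
          field_simp
      _ ≤ _ := this
      _ = _ := by ring
  · have e1 := vin_eq h hρ.ne' P c S x₁₁ x₁₂ x₂₂ w₂ a₁ a₂ b₁ b₂ e s d2
    have e2 : ρ ^ 2 * k.xt P (a₁ / ρ) (a₂ / ρ) (b₁ / ρ) (b₂ / ρ) (s / ρ ^ 2) N₁ N₂ =
        T * n.xt P a₁ a₂ b₁ b₂ s N₁ N₂ := by
      simp only [Co.xt, Co.zz, h.z11, h.z12, h.z22]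
      field_simp
    refine le_of_mul_le_mul_left ?_ (mul_pos hρ2 hd)
    have e3 := mul_le_mul_of_nonneg_left hv hT.le
    linear_combination e3 + e1 + n.dl P * e2

/-- coupling A -/
theorem blk_A {k n : Co} {T ρ : ℝ} (h : Sc k n T ρ) (hT : 0 < T) (hρ : 0 < ρ) (P c S δ δ₁ : ℝ)
    (hd : 0 < n.dl P)
    (H : ∀ E₁ E₂ β : ℝ, (E₁ - n.e1) ^ 2 ≤ δ ^ 2 → (E₂ - n.e2) ^ 2 ≤ δ ^ 2 → ∃ U V e : ℝ,
      e ^ 2 * n.dl P ≤ (U ^ 2 + (1 + P) * V ^ 2) * (n.r ^ 2 + (ρ * n.g2) ^ 2) ∧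
      n.va P c S T ρ E₁ E₂ U V β e + δ₁ * ρ ^ 2 * n.dl P ≤ 0) :
    Blk k P c S (δ * T) (δ₁ * T) := by
  refine blk_of h hT hρ P c S δ δ₁ hd ?_
  intro E₁ E₂ β N₁ N₂ t h1 h2 hN x1 x2
  obtain ⟨U, V, e, he, hv⟩ := H E₁ E₂ β h1 h2
  obtain ⟨u, v, rfl, rfl⟩ : ∃ u v, U = u * n.g1 + (1 + P) * v * n.g2 ∧ V = v * n.g1 - u * n.g2 := by
    refine ⟨(U * n.g1 - (1 + P) * V * n.g2) / n.dl P, (V * n.g1 + U * n.g2) / n.dl P, ?_, ?_⟩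
    · field_simp; simp only [Co.dl]; ring
    · field_simp; simp only [Co.dl]; ring
  obtain ⟨D, hD⟩ : ∃ D, D = ρ * n.g2 := ⟨_, rfl⟩
  simp only [Co.va] at hv
  rw [← hD] at he hv x2
  have hs : ((u * n.g1 + (1 + P) * v * n.g2) ^ 2 + (1 + P) * (v * n.g1 - u * n.g2) ^ 2) *
      (n.r ^ 2 + D ^ 2) = (u ^ 2 + (1 + P) * v ^ 2) * (n.r ^ 2 + D ^ 2) * n.dl P := by
    simp only [Co.dl]; ring
  rw [hs] at he hv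
  have hD' : D = -(t * N₂) := by rw [x2]; ring
  refine ⟨(u ^ 2 + (1 + P) * v ^ 2) * (n.r ^ 2 + D ^ 2), u * n.r + v * D, v * n.r - u * D,
    (1 + P) * v * n.r - u * D, -((1 + P) * v * D) - u * n.r, e, le_of_mul_le_mul_right he hd,
    ?_, ?_⟩
  · intro v₁ v₂
    rw [← x1, hD']
    apply le_of_eq
    linear_combination (-((u ^ 2 + (1 + P) * v ^ 2) * t ^ 2 * P * (v₁ * N₁ + v₂ * N₂) ^ 2)) * hN
  · have e0 : n.xt P (u * n.r + v * D) (v * n.r - u * D) ((1 + P) * v * n.r - u * D)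
        (-((1 + P) * v * D) - u * n.r) ((u ^ 2 + (1 + P) * v ^ 2) * (n.r ^ 2 + D ^ 2)) N₁ N₂ = 0 := by
      simp only [Co.xt, Co.zz]
      rw [← x1, hD']
      linear_combination ((u ^ 2 + (1 + P) * v ^ 2) * t ^ 2 * P *
        (n.z11 * N₁ ^ 2 + 2 * n.z12 * N₁ * N₂ + n.z22 * N₂ ^ 2)) * hN
    rw [e0, show n.g1 * (u * n.r + v * D) + n.g2 * ((1 + P) * v * n.r - u * D) =
        (u * n.g1 + (1 + P) * v * n.g2) * n.r + (v * n.g1 - u * n.g2) * D by ring,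
      show n.g1 * (v * n.r - u * D) + n.g2 * (-((1 + P) * v * D) - u * n.r) =
        (v * n.g1 - u * n.g2) * n.r - (u * n.g1 + (1 + P) * v * n.g2) * D by ring,
      show n.g1 * ((1 + P) * v * n.r - u * D) - (1 + P) * n.g2 * (u * n.r + v * D) =
        (1 + P) * (v * n.g1 - u * n.g2) * n.r - (u * n.g1 + (1 + P) * v * n.g2) * D by ring,
      show n.g1 * (-((1 + P) * v * D) - u * n.r) - (1 + P) * n.g2 * (v * n.r - u * D) =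
        -((1 + P) * (v * n.g1 - u * n.g2) * D) - (u * n.g1 + (1 + P) * v * n.g2) * n.r by ring]
    linear_combination hv

/-- coupling B: no use of the direction of `ξ` -/
theorem blk_B {k n : Co} {T ρ : ℝ} (h : Sc k n T ρ) (hT : 0 < T) (hρ : 0 < ρ) (P c S δ δ₁ : ℝ)
    (hP : 0 ≤ P) (hd : 0 < n.dl P) (ζ : ℝ) (z1 : n.z11 ≤ ζ) (z2 : n.z22 ≤ ζ)
    (z3 : n.z12 ^ 2 ≤ (ζ - n.z11) * (ζ - n.z22))
    (H : ∀ E₁ E₂ β : ℝ, (E₁ - n.e1) ^ 2 ≤ δ ^ 2 → (E₂ - n.e2) ^ 2 ≤ δ ^ 2 →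
      ∃ s a₁ a₂ b₁ b₂ e : ℝ, e ^ 2 ≤ s ∧ (1 + P) * a₁ ^ 2 + b₁ ^ 2 ≤ s ∧
      (1 + P) * a₂ ^ 2 + b₂ ^ 2 ≤ s ∧ ((1 + P) * a₁ * a₂ + b₁ * b₂) ^ 2 ≤
        (s - ((1 + P) * a₁ ^ 2 + b₁ ^ 2)) * (s - ((1 + P) * a₂ ^ 2 + b₂ ^ 2)) ∧
      n.vt P c S T ρ E₁ E₂ (n.g1 * a₁ + n.g2 * b₁) (n.g1 * a₂ + n.g2 * b₂)
        (n.g1 * b₁ - (1 + P) * n.g2 * a₁) (n.g1 * b₂ - (1 + P) * n.g2 * a₂) (s * n.dl P) β e +
        n.dl P * (s * (n.z11 + n.z22 + P * ζ) - (1 + P) * n.zz a₁ a₂ - n.zz b₁ b₂) +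
        δ₁ * ρ ^ 2 * n.dl P ≤ 0) :
    Blk k P c S (δ * T) (δ₁ * T) := by
  have psd : ∀ A B C x y : ℝ, 0 ≤ A → 0 ≤ C → B ^ 2 ≤ A * C →
      0 ≤ A * x ^ 2 + 2 * B * x * y + C * y ^ 2 := by
    intro A B C x y hA hC hB
    rcases hA.eq_or_lt with h0 | h0
    · subst h0
      have : B = 0 := by nlinarith [sq_nonneg B]
      subst this
      nlinarith [mul_nonneg hC (sq_nonneg y)]
    · refine le_of_mul_le_mul_left ?_ h0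
      nlinarith [sq_nonneg (A * x + B * y), mul_nonneg (sub_nonneg.2 hB) (sq_nonneg y)]
  refine blk_of h hT hρ P c S δ δ₁ hd ?_
  intro E₁ E₂ β N₁ N₂ t h1 h2 hN _ _
  obtain ⟨s, a₁, a₂, b₁, b₂, e, he, p1, p2, p3, hv⟩ := H E₁ E₂ β h1 h2
  have hs : 0 ≤ s := le_trans (sq_nonneg e) he
  refine ⟨s, a₁, a₂, b₁, b₂, e, he, ?_, ?_⟩
  · intro v₁ v₂
    have := psd _ (-((1 + P) * a₁ * a₂ + b₁ * b₂)) _ v₁ v₂ (sub_nonneg.2 p1) (sub_nonneg.2 p2)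
      (by rw [neg_sq]; exact p3)
    have e1 := mul_nonneg hs (mul_nonneg hP (sq_nonneg (v₁ * N₁ + v₂ * N₂)))
    linear_combination this + e1
  · have := psd _ (-n.z12) _ N₁ N₂ (sub_nonneg.2 z1) (sub_nonneg.2 z2) (by rw [neg_sq]; exact z3)
    have e1 : n.zz N₁ N₂ ≤ ζ := by
      simp only [Co.zz]
      linear_combination this + ζ * hN
    have e2 := mul_le_mul_of_nonneg_left e1 (mul_nonneg hd.le (mul_nonneg hs hP))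
    simp only [Co.xt]
    linear_combination hv + e2

theorem psd (A B C x y : ℝ) (hA : 0 ≤ A) (hC : 0 ≤ C) (hB : B ^ 2 ≤ A * C) :
    0 ≤ A * x ^ 2 + 2 * B * x * y + C * y ^ 2 := by
  rcases hA.eq_or_lt with h0 | h0
  · subst h0
    have : B = 0 := by nlinarith [sq_nonneg B]
    subst this
    nlinarith [mul_nonneg hC (sq_nonneg y)]
  · refine le_of_mul_le_mul_left ?_ h0
    nlinarith [sq_nonneg (A * x + B * y), mul_nonneg (sub_nonneg.2 hB) (sq_nonneg y)]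

/-- the convexity number: `- T² n2` is the coefficient of `β²` in `vt` -/
def Co.n2 (n : Co) (P : ℝ) : ℝ := -(n.yy n.g2 (-n.g1) + n.dl P * n.y3)

/-- the derivative of `vt` in `β` -/
def Co.v1 (n : Co) (P c S T ρ E₁ E₂ ω₁ ω₂ β e : ℝ) : ℝ :=
  2 * T ^ 2 * ((n.y11 * n.g2 - n.y12 * n.g1) * (E₂ + β * n.g2) -
      (n.y12 * n.g2 - n.y22 * n.g1) * ((1 + P) * E₁ + β * n.g1)) +
    2 * n.cc n.g2 (-n.g1) (ω₁ - ρ * (S * n.g1 - (1 + P) * c * n.g2))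
      (ω₂ - ρ * (c * n.g1 + (1 + P) * S * n.g2)) +
    n.dl P * (2 * T ^ 2 * n.y3 * β + 2 * n.c3 * (e - ρ)) - 2 * P * ρ * T * E₂ * (n.g1 * n.g2)

theorem vt_add (n : Co) (P c S T ρ E₁ E₂ γ₁ γ₂ ω₁ ω₂ σ β e t : ℝ) :
    n.vt P c S T ρ E₁ E₂ γ₁ γ₂ ω₁ ω₂ σ (β + t) e = n.vt P c S T ρ E₁ E₂ γ₁ γ₂ ω₁ ω₂ σ β e +
      n.v1 P c S T ρ E₁ E₂ ω₁ ω₂ β e * t - T ^ 2 * n.n2 P * t ^ 2 := by
  simp only [Co.vt, Co.v1, Co.n2, Co.dt, Co.yy, Co.cc, Co.zz]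
  ring

theorem quad_half (W B A t : ℝ) (hW : 0 ≤ W) (hA : 0 ≤ A) (ht : 0 ≤ t)
    (h : B ≤ 0 ∨ B ^ 2 ≤ 4 * W * A) : B * t ≤ W + A * t ^ 2 := by
  rcases h with h | h
  · nlinarith [mul_nonneg hA (sq_nonneg t), mul_nonneg (neg_nonneg.2 h) ht]
  · have := psd W (-B / 2) A 1 t hW hA (by nlinarith)
    linarith

/-- all `β` from one point `β₀` and two values of `e`; `x` is any additive term -/
theorem sides (n : Co) (P c S T ρ E₁ E₂ γ₁ γ₂ ω₁ ω₂ σ β₀ e₁ e₂ x : ℝ) (h2 : 0 ≤ n.n2 P)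
    (a1 : n.vt P c S T ρ E₁ E₂ γ₁ γ₂ ω₁ ω₂ σ β₀ e₁ + x ≤ 0)
    (a2 : n.vt P c S T ρ E₁ E₂ γ₁ γ₂ ω₁ ω₂ σ β₀ e₂ + x ≤ 0)
    (b1 : n.v1 P c S T ρ E₁ E₂ ω₁ ω₂ β₀ e₁ ≤ 0 ∨ n.v1 P c S T ρ E₁ E₂ ω₁ ω₂ β₀ e₁ ^ 2 ≤
      4 * -(n.vt P c S T ρ E₁ E₂ γ₁ γ₂ ω₁ ω₂ σ β₀ e₁ + x) * (T ^ 2 * n.n2 P))
    (b2 : 0 ≤ n.v1 P c S T ρ E₁ E₂ ω₁ ω₂ β₀ e₂ ∨ n.v1 P c S T ρ E₁ E₂ ω₁ ω₂ β₀ e₂ ^ 2 ≤
      4 * -(n.vt P c S T ρ E₁ E₂ γ₁ γ₂ ω₁ ω₂ σ β₀ e₂ + x) * (T ^ 2 * n.n2 P)) (β : ℝ) :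
    n.vt P c S T ρ E₁ E₂ γ₁ γ₂ ω₁ ω₂ σ β e₁ + x ≤ 0 ∨
      n.vt P c S T ρ E₁ E₂ γ₁ γ₂ ω₁ ω₂ σ β e₂ + x ≤ 0 := by
  have hA : 0 ≤ T ^ 2 * n.n2 P := mul_nonneg (sq_nonneg T) h2
  obtain ⟨t, rfl⟩ : ∃ t, β = β₀ + t := ⟨β - β₀, by ring⟩
  rw [vt_add, vt_add]
  rcases le_total 0 t with ht | ht
  · left
    have := quad_half _ _ _ t (neg_nonneg.2 a1) hA ht b1
    linarith
  · right
    have := quad_half _ (-n.v1 P c S T ρ E₁ E₂ ω₁ ω₂ β₀ e₂) _ (-t) (neg_nonneg.2 a2) hA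
      (neg_nonneg.2 ht) (b2.imp (fun h => neg_nonpos.2 h) (fun h => by rw [neg_sq]; exact h))
    linarith

/-- the entries outside the blocks -/
theorem out_of {k n : Co} {T ρ : ℝ} (h : Sc k n T ρ) (hT : 0 < T) (hρ : 0 < ρ) (P δ δ₂ K ε : ℝ)
    (hε : 0 < ε) (hK : 0 ≤ K)
    (a1 : 0 ≤ K * n.g1 ^ 2 - (n.y11 + (1 + P) * n.y3) - ε)
    (a2 : 0 ≤ K * n.g2 ^ 2 - (n.y22 + n.y3))
    (a3 : 0 ≤ K * (n.n2 P - ε * n.g2 ^ 2) +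
      ((n.y11 + (1 + P) * n.y3 + ε) * (n.y22 + n.y3) - n.y12 ^ 2))
    (a4 : (K * T ^ 2 * ε + P ^ 2 * ρ ^ 2) * δ ^ 2 ≤ δ₂ * ε * ρ ^ 2) :
    Out k P (δ * T) (δ₂ * T) := by
  intro h₁ h₂ w hw c3
  have p := psd _ (K * n.g1 * n.g2 - n.y12) _ h₁ h₂ a1 a2 (by
    simp only [Co.n2, Co.dl, Co.yy] at a3
    linear_combination a3)
  rw [h.g1, h.g2] at c3
  have hρ2 : 0 < ρ ^ 2 := by positivity
  have c4 : ρ ^ 2 * (n.g1 * h₁ + n.g2 * h₂) ^ 2 = w ^ 2 := by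
    have : w = -(ρ * (n.g1 * h₁ + n.g2 * h₂)) := by linear_combination c3
    rw [this]; ring
  simp only [Co.vout, Co.yy, h.y11, h.y12, h.y22, h.y3]
  refine le_of_mul_le_mul_left ?_ (show 0 < ε * ρ ^ 2 * T by positivity)
  have p1 := mul_le_mul_of_nonneg_left p (show 0 ≤ ε * ρ ^ 2 * T ^ 2 by positivity)
  have p2 := mul_le_mul_of_nonneg_left hw
    (show 0 ≤ K * T ^ 2 * ε + P ^ 2 * ρ ^ 2 by positivity)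
  have p3 := mul_le_mul_of_nonneg_left a4 (sq_nonneg T)
  have p4 := mul_nonneg hρ2.le (sq_nonneg (ε * T * h₁ - P * w))
  linear_combination p1 + p2 + p3 + p4 + (K * T ^ 2 * ε) * c4

/-- jets multiplied by `T` -/
def jT (T : ℝ) (j : J6) : J6 := ⟨T * j.f, T * j.t, T * j.c, T * j.tt, T * j.tc, T * j.cc⟩

/-- the normalised coefficients: `j` are the jets divided by `T`, `(g₁, g₂) = G_η / ρ` -/
def nco (q c S T : ℝ) (j : J6) (g₁ g₂ : ℝ) : Co where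
  g1 := g₁
  g2 := g₂
  r := c + T * (j.f + j.t / q)
  e1 := c * (j.f + j.t / q) + S ^ 2 * j.c
  e2 := S * (j.f + j.t / q - c * j.c)
  y11 := j.tt - j.t
  y12 := -(S * j.tc)
  y22 := j.f - j.t + (S ^ 2 * j.cc - c * j.c)
  c11 := c + T * (j.f + j.t / q - j.t - j.tt / q)
  c12 := S * (1 + T * (j.c + j.tc / q))
  c21 := S * (T * (j.tc - j.c) - 1)
  c22 := c - T * (S ^ 2 * j.cc - c * j.c)
  z11 := j.t / q + j.tt / q ^ 2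
  z12 := -(S * j.tc / q)
  z22 := j.f + j.t / q + (S ^ 2 * j.cc - c * j.c)
  y3 := j.f - j.t - c * j.c
  c3 := 1 + T * j.c
  z3 := j.f + j.t / q - c * j.c

theorem sc_nco (q c S T ρ g₁ g₂ : ℝ) (j : J6) (h1 : c + T * (j.f - j.t) = ρ * g₁)
    (h2 : S * (1 + T * j.c) = ρ * g₂) : Sc (co q c S (jT T j)) (nco q c S T j g₁ g₂) T ρ := by
  constructor <;> simp only [co, nco, jT]
  · linear_combination h1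
  · linear_combination h2
  all_goals ring

/-- the conditions of `out_of`, with `m = δ₂ ρ²` -/
structure OutC (n : Co) (P T ρ δ m K ε : ℝ) : Prop where
  he : 0 < ε
  hK : 0 ≤ K
  a1 : 0 ≤ K * n.g1 ^ 2 - (n.y11 + (1 + P) * n.y3) - ε
  a2 : 0 ≤ K * n.g2 ^ 2 - (n.y22 + n.y3)
  a3 : 0 ≤ K * (n.n2 P - ε * n.g2 ^ 2) +
    ((n.y11 + (1 + P) * n.y3 + ε) * (n.y22 + n.y3) - n.y12 ^ 2)
  a4 : (K * T ^ 2 * ε + P ^ 2 * ρ ^ 2) * δ ^ 2 ≤ m * ε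

theorem key_of_sc {P q c S T ρ δ m K ε : ℝ} {j : J6} {n : Co} (h : c ^ 2 + S ^ 2 = 1)
    (hs : Sc (co q c S j) n T ρ) (hT : 0 < T) (hρ : 0 < ρ) (h3 : 0 < n.c3)
    (ho : OutC n P T ρ δ m K ε) (hb : Blk (co q c S j) P c S (δ * T) ((δ + m / ρ ^ 2) * T)) :
    Key P q c S j (δ * T) := by
  refine key_of_blk P q c S (δ * T) (m / ρ ^ 2 * T) j h (by rw [← hs.c3] at h3; exact h3)
    (by rw [← add_mul]; exact hb)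
    (out_of hs hT hρ P δ (m / ρ ^ 2) K ε ho.he ho.hK ho.a1 ho.a2 ho.a3 ?_)
  rw [show m / ρ ^ 2 * ε * ρ ^ 2 = m * ε by field_simp]
  exact ho.a4

/-- coupling A; `U, V, e` may depend on `E₁, E₂, β` -/
theorem keyA {P q c S T ρ δ m K ε : ℝ} {j : J6} {n : Co} (h : c ^ 2 + S ^ 2 = 1)
    (hs : Sc (co q c S j) n T ρ) (hT : 0 < T) (hρ : 0 < ρ) (h3 : 0 < n.c3) (hd : 0 < n.dl P)
    (ho : OutC n P T ρ δ m K ε)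
    (H : ∀ E₁ E₂ β : ℝ, (E₁ - n.e1) ^ 2 ≤ δ ^ 2 → (E₂ - n.e2) ^ 2 ≤ δ ^ 2 → ∃ U V e : ℝ,
      e ^ 2 * n.dl P ≤ (U ^ 2 + (1 + P) * V ^ 2) * (n.r ^ 2 + (ρ * n.g2) ^ 2) ∧
      n.va P c S T ρ E₁ E₂ U V β e + (δ * ρ ^ 2 + m) * n.dl P ≤ 0) : Key P q c S j (δ * T) := by
  refine key_of_sc h hs hT hρ h3 ho (blk_A hs hT hρ P c S δ _ hd ?_)
  rw [show (δ + m / ρ ^ 2) * ρ ^ 2 = δ * ρ ^ 2 + m by field_simp]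
  exact H

/-- coupling B -/
theorem keyB {P q c S T ρ δ m K ε : ℝ} {j : J6} {n : Co} (h : c ^ 2 + S ^ 2 = 1)
    (hs : Sc (co q c S j) n T ρ) (hT : 0 < T) (hρ : 0 < ρ) (h3 : 0 < n.c3) (hd : 0 < n.dl P)
    (ho : OutC n P T ρ δ m K ε) (hP : 0 ≤ P) (ζ : ℝ) (z1 : n.z11 ≤ ζ) (z2 : n.z22 ≤ ζ)
    (z3 : n.z12 ^ 2 ≤ (ζ - n.z11) * (ζ - n.z22))
    (H : ∀ E₁ E₂ β : ℝ, (E₁ - n.e1) ^ 2 ≤ δ ^ 2 → (E₂ - n.e2) ^ 2 ≤ δ ^ 2 →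
      ∃ s a₁ a₂ b₁ b₂ e : ℝ, e ^ 2 ≤ s ∧ (1 + P) * a₁ ^ 2 + b₁ ^ 2 ≤ s ∧
      (1 + P) * a₂ ^ 2 + b₂ ^ 2 ≤ s ∧ ((1 + P) * a₁ * a₂ + b₁ * b₂) ^ 2 ≤
        (s - ((1 + P) * a₁ ^ 2 + b₁ ^ 2)) * (s - ((1 + P) * a₂ ^ 2 + b₂ ^ 2)) ∧
      n.vt P c S T ρ E₁ E₂ (n.g1 * a₁ + n.g2 * b₁) (n.g1 * a₂ + n.g2 * b₂)
        (n.g1 * b₁ - (1 + P) * n.g2 * a₁) (n.g1 * b₂ - (1 + P) * n.g2 * a₂) (s * n.dl P) β e +
        n.dl P * (s * (n.z11 + n.z22 + P * ζ) - (1 + P) * n.zz a₁ a₂ - n.zz b₁ b₂) +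
        (δ * ρ ^ 2 + m) * n.dl P ≤ 0) : Key P q c S j (δ * T) := by
  refine key_of_sc h hs hT hρ h3 ho (blk_B hs hT hρ P c S δ _ hP hd ζ z1 z2 z3 ?_)
  rw [show (δ + m / ρ ^ 2) * ρ ^ 2 = δ * ρ ^ 2 + m by field_simp]
  exact H

/-- coupling A with constants: one point `β₀`, `e₁` for `β ≥ β₀`, `e₂` for `β ≤ β₀` -/
theorem keyA_box {P q c S T ρ δ m K ε : ℝ} {j : J6} {n : Co} (h : c ^ 2 + S ^ 2 = 1)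
    (hs : Sc (co q c S j) n T ρ) (hT : 0 < T) (hρ : 0 < ρ) (h3 : 0 < n.c3) (hd : 0 < n.dl P)
    (ho : OutC n P T ρ δ m K ε) (h2 : 0 ≤ n.n2 P) (U V β₀ e₁ e₂ : ℝ)
    (s1 : e₁ ^ 2 * n.dl P ≤ (U ^ 2 + (1 + P) * V ^ 2) * (n.r ^ 2 + (ρ * n.g2) ^ 2))
    (s2 : e₂ ^ 2 * n.dl P ≤ (U ^ 2 + (1 + P) * V ^ 2) * (n.r ^ 2 + (ρ * n.g2) ^ 2))
    (H : ∀ E₁ E₂ W₁ W₂ B₁ B₂ : ℝ, (E₁ - n.e1) ^ 2 ≤ δ ^ 2 → (E₂ - n.e2) ^ 2 ≤ δ ^ 2 →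
      W₁ = -(n.va P c S T ρ E₁ E₂ U V β₀ e₁ + (δ * ρ ^ 2 + m) * n.dl P) →
      W₂ = -(n.va P c S T ρ E₁ E₂ U V β₀ e₂ + (δ * ρ ^ 2 + m) * n.dl P) →
      B₁ = n.v1 P c S T ρ E₁ E₂ ((1 + P) * V * n.r - U * (ρ * n.g2))
        (-((1 + P) * V * (ρ * n.g2)) - U * n.r) β₀ e₁ →
      B₂ = n.v1 P c S T ρ E₁ E₂ ((1 + P) * V * n.r - U * (ρ * n.g2))
        (-((1 + P) * V * (ρ * n.g2)) - U * n.r) β₀ e₂ →
      0 ≤ W₁ ∧ 0 ≤ W₂ ∧ (B₁ ≤ 0 ∨ B₁ ^ 2 ≤ 4 * W₁ * (T ^ 2 * n.n2 P)) ∧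
        (0 ≤ B₂ ∨ B₂ ^ 2 ≤ 4 * W₂ * (T ^ 2 * n.n2 P))) : Key P q c S j (δ * T) := by
  refine keyA h hs hT hρ h3 hd ho fun E₁ E₂ β h1 h2' => ?_
  obtain ⟨a1, a2, b1, b2⟩ := H E₁ E₂ _ _ _ _ h1 h2' rfl rfl rfl rfl
  rcases sides n P c S T ρ E₁ E₂ _ _ _ _ _ β₀ e₁ e₂ _ h2 (neg_nonneg.1 a1) (neg_nonneg.1 a2) b1 b2 β
    with h0 | h0
  · exact ⟨U, V, e₁, s1, h0⟩
  · exact ⟨U, V, e₂, s2, h0⟩

/-- at the critical point `G_η = 0` the constraint has no solution -/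
theorem key_zero {P q c S μ : ℝ} {j : J6} (h : c ^ 2 + S ^ 2 = 1) (h1 : (co q c S j).g1 = 0)
    (h2 : (co q c S j).g2 = 0) (he : μ ^ 2 < (co q c S j).e1 ^ 2) : Key P q c S j μ := by
  intro h₁₁ h₁₂ h₁₃ h₂₂ h₂₃ h₃₃ w₁ w₂ w₃ n₁ n₂ n₃ t _ hw c1
  rw [d1_eq q c S j h, h1, h2] at c1
  have : (co q c S j).e1 = w₁ := by linear_combination -c1
  rw [this] at he
  exfalso
  nlinarith [sq_nonneg w₂, sq_nonneg w₃]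

/-- polar coordinates around the critical point -/
theorem chart (G₁ G₂ B : ℝ) (h0 : 0 ≤ G₂) (h1 : |G₁| ≤ B) (h2 : G₂ ≤ B) :
    (G₁ = 0 ∧ G₂ = 0) ∨ ∃ ρ x : ℝ, 0 < ρ ∧ ρ ≤ B ∧ -1 ≤ x ∧ x ≤ 1 ∧
      ((G₁ = ρ * x ∧ G₂ = ρ * 1) ∨ (0 ≤ x ∧ G₁ = ρ * 1 ∧ G₂ = ρ * x) ∨
        (0 ≤ x ∧ G₁ = ρ * -1 ∧ G₂ = ρ * x)) := by
  rcases le_total |G₁| G₂ with h | h
  · rcases h0.eq_or_lt with e | e
    · left
      exact ⟨abs_nonpos_iff.1 (e ▸ h), e.symm⟩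
    · right
      have := abs_le.1 h
      refine ⟨G₂, G₁ / G₂, e, h2, ?_, ?_, Or.inl ⟨by field_simp, by ring⟩⟩
      · rw [le_div_iff₀ e]; linarith
      · rw [div_le_iff₀ e]; linarith
  · rcases lt_trichotomy G₁ 0 with e | e | e
    · right
      rw [abs_of_neg e] at h h1
      have e' : 0 < -G₁ := neg_pos.2 e
      have x0 : 0 ≤ G₂ / -G₁ := div_nonneg h0 e'.le
      refine ⟨-G₁, G₂ / -G₁, e', h1, by linarith, (div_le_one e').2 h,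
        Or.inr (Or.inr ⟨x0, by ring, ?_⟩)⟩
      rw [mul_div_cancel₀ _ e'.ne']
    · left
      rw [e, abs_zero] at h
      exact ⟨e, le_antisymm h h0⟩
    · right
      rw [abs_of_pos e] at h h1
      have x0 : 0 ≤ G₂ / G₁ := div_nonneg h0 e.le
      refine ⟨G₁, G₂ / G₁, e, h1, by linarith, (div_le_one e).2 h,
        Or.inr (Or.inl ⟨x0, by ring, ?_⟩)⟩
      rw [mul_div_cancel₀ _ e.ne']

end Pool.Agent.MP_815c6c_an.W.KR
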