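import Pool.Agent.MP_815c6c_an.W.Inv
import Pool.Agent.MP_815c6c_an.W.KeyRed
import Mathlib.Analysis.Convex.SpecificFunctions.Basic
import Mathlib.Analysis.MeanInequalitiesPow

/-! The certificate `CertR` for `F = T Φ(s, c)`, `T = exp (b τ)`: algebra of jets, plateau. -/

set_option autoImplicit false

noncomputable section

namespace Pool.Agent.MP_815c6c_an.W

open Set Filter Topology GjA

def J6.cst (a : ℝ) : J6 := ⟨a, 0, 0, 0, 0, 0⟩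
def J6.vx (a : ℝ) : J6 := ⟨a, 1, 0, 0, 0, 0⟩
def J6.vy (a : ℝ) : J6 := ⟨a, 0, 1, 0, 0, 0⟩
def J6.add (a b : J6) : J6 :=
  ⟨a.f + b.f, a.t + b.t, a.c + b.c, a.tt + b.tt, a.tc + b.tc, a.cc + b.cc⟩
def J6.mul (a b : J6) : J6 :=
  ⟨a.f * b.f, a.f * b.t + a.t * b.f, a.f * b.c + a.c * b.f, a.f * b.tt + 2 * a.t * b.t + a.tt * b.f,
    a.f * b.tc + a.t * b.c + a.c * b.t + a.tc * b.f, a.f * b.cc + 2 * a.c * b.c + a.cc * b.f⟩
/-- composition with a function of one variable with value and derivatives `u₀, u₁, u₂` -/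
def J6.cmp (a : J6) (u₀ u₁ u₂ : ℝ) : J6 :=
  ⟨u₀, u₁ * a.t, u₁ * a.c, u₁ * a.tt + u₂ * a.t ^ 2, u₁ * a.tc + u₂ * a.t * a.c,
    u₁ * a.cc + u₂ * a.c ^ 2⟩
def J6.inv (a : J6) : J6 := a.cmp a.f⁻¹ (-a.f⁻¹ ^ 2) (2 * a.f⁻¹ ^ 3)
def J6.exp (a : J6) : J6 := a.cmp (Real.exp a.f) (Real.exp a.f) (Real.exp a.f)

namespace Jt2

variable {F G : ℝ × ℝ → ℝ} {x : ℝ × ℝ} {j k : J6}

theorem toJ (h : Jt2 F x j) (a b : ℝ) : J x (a, b) F j.f (j.t * a + j.c * b)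
    (j.tt * a ^ 2 + 2 * j.tc * a * b + j.cc * b ^ 2) :=
  ⟨h.1, h.2.1, (h.2.2 a b).1, (h.2.2 a b).2⟩

theorem cst (x : ℝ × ℝ) (a : ℝ) : Jt2 (fun _ => a) x (.cst a) :=
  jt2_of fun _ _ => (J.const a).cast rfl (by simp [J6.cst]) (by simp [J6.cst])

theorem vx (x : ℝ × ℝ) : Jt2 (fun y => y.1) x (.vx x.1) :=
  jt2_of fun a b => (j_fst x a b).cast rfl (by simp [J6.vx]) (by simp [J6.vx])

theorem vy (x : ℝ × ℝ) : Jt2 (fun y => y.2) x (.vy x.2) :=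
  jt2_of fun a b => (j_snd x a b).cast rfl (by simp [J6.vy]) (by simp [J6.vy])

theorem add (h : Jt2 F x j) (g : Jt2 G x k) : Jt2 (fun y => F y + G y) x (j.add k) :=
  jt2_of fun a b => ((h.toJ a b).add (g.toJ a b)).cast rfl (by simp only [J6.add]; ring)
    (by simp only [J6.add]; ring)

theorem mul (h : Jt2 F x j) (g : Jt2 G x k) : Jt2 (fun y => F y * G y) x (j.mul k) :=
  jt2_of fun a b => ((h.toJ a b).mul (g.toJ a b)).cast rfl (by simp only [J6.mul]; ring)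
    (by simp only [J6.mul]; ring)

theorem cmp (h : Jt2 F x j) {β β' : ℝ → ℝ} {u : ℝ} (hβ : ContDiffAt ℝ 2 β j.f)
    (h1 : ∀ᶠ t in 𝓝 j.f, HasDerivAt β (β' t) t) (h2 : HasDerivAt β' u j.f) :
    Jt2 (fun y => β (F y)) x (j.cmp (β j.f) (β' j.f) u) :=
  jt2_of fun a b => ((h.toJ a b).comp hβ h1 h2).cast rfl (by simp only [J6.cmp]; ring)
    (by simp only [J6.cmp]; ring)

theorem exp (h : Jt2 F x j) : Jt2 (fun y => Real.exp (F y)) x j.exp :=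
  h.cmp Real.contDiff_exp.contDiffAt (Eventually.of_forall Real.hasDerivAt_exp)
    (Real.hasDerivAt_exp _)

theorem inv (h : Jt2 F x j) (h0 : j.f ≠ 0) : Jt2 (fun y => (F y)⁻¹) x j.inv := by
  have d : HasDerivAt (fun t : ℝ => -t⁻¹ ^ 2) (2 * j.f⁻¹ ^ 3) j.f := by
    refine (((hasDerivAt_inv h0).fun_pow 2).fun_neg).congr_deriv ?_
    simp only [Nat.cast_ofNat, Nat.add_one_sub_one, pow_one, ← inv_pow]
    ring
  exact h.cmp (β := fun t => t⁻¹) (β' := fun t => -t⁻¹ ^ 2) (contDiffAt_inv ℝ h0)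
    ((eventually_ne_nhds h0).mono fun t a => (hasDerivAt_inv a).congr_deriv (by rw [inv_pow])) d

/-- substitution `(s, c) = (σ(τ), c)` -/
theorem sub1 {Φ : ℝ × ℝ → ℝ} {σ σ' : ℝ → ℝ} {u τ c : ℝ} (h : Jt2 Φ (σ τ, c) j)
    (hσ : ContDiffAt ℝ 2 σ τ) (h1 : ∀ᶠ t in 𝓝 τ, HasDerivAt σ (σ' t) t) (h2 : HasDerivAt σ' u τ) :
    Jt2 (fun y => Φ (σ y.1, y.2)) (τ, c)
      ⟨j.f, σ' τ * j.t, j.c, u * j.t + σ' τ ^ 2 * j.tt, σ' τ * j.tc, j.cc⟩ :=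
  jt2_of fun a b => (((j_fst (τ, c) a b).comp hσ h1 h2).pair (j_snd (τ, c) a b) h).cast rfl
    (by ring) (by ring)

end Jt2

/-- Horner's scheme in `c` -/
def hc (l : List ℝ) (c : ℝ) : J6 := l.foldr (fun a r => (J6.cst a).add ((J6.vy c).mul r)) (.cst 0)
/-- Horner's scheme in `(s, c)`: the rows are the coefficients of the powers of `s` -/
def hs (l : List (List ℝ)) (s c : ℝ) : J6 :=
  l.foldr (fun a r => (hc a c).add ((J6.vx s).mul r)) (.cst 0)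

theorem jt_hc (l : List ℝ) (x : ℝ × ℝ) : Jt2 (fun y => (hc l y.2).f) x (hc l x.2) := by
  induction l with
  | nil => exact Jt2.cst x 0
  | cons a l ih => exact (Jt2.cst x a).add ((Jt2.vy x).mul ih)

theorem jt_hs (l : List (List ℝ)) (x : ℝ × ℝ) : Jt2 (fun y => (hs l y.1 y.2).f) x (hs l x.1 x.2) := by
  induction l with
  | nil => exact Jt2.cst x 0
  | cons a l ih => exact (jt_hc a x).add ((Jt2.vx x).mul ih)

/-- the jets of `T Φ(σ(T), c)` in `(τ, c)` divided by `T = exp (b τ)`; `k` are the jets of `Φ`,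
`u = T σ'(T)`, `v = (T d/dT)² σ` -/
def J6.th (k : J6) (b u v : ℝ) : J6 :=
  ⟨k.f, b * (k.f + u * k.t), k.c, b ^ 2 * (k.f + (2 * u + v) * k.t + u ^ 2 * k.tt),
    b * (k.c + u * k.tc), k.cc⟩

theorem key_mono {P q c S μ ν : ℝ} {j : J6} (h : Key P q c S j μ) (h0 : 0 ≤ ν) (h1 : ν ≤ μ) :
    Key P q c S j ν := by
  intro h₁₁ h₁₂ h₁₃ h₂₂ h₂₃ h₃₃ w₁ w₂ w₃ n₁ n₂ n₃ t a1 a2 a3 a4 a5 a6 a7 a8 a9 a10 a11
  obtain ⟨s, a₁, a₂, a₃, b₁, b₂, b₃, e₁, e₂, e₃, b1, b2, b3⟩ := h h₁₁ h₁₂ h₁₃ h₂₂ h₂₃ h₃₃ w₁ w₂ w₃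
    n₁ n₂ n₃ t a1 (a2.trans (pow_le_pow_left₀ h0 h1 2)) a3 a4 a5 a6 a7 a8 a9 a10 a11
  exact ⟨s, a₁, a₂, a₃, b₁, b₂, b₃, e₁, e₂, e₃, b1, b2, b3.trans (neg_le_neg h1)⟩

/-- the certificate from jets `T k(T, c)`; the plateau is `K₁ (T / T₁) ^ (1 / b)` -/
theorem certR_of {P q b T₀ T₁ K₁ M δ : ℝ} {F : ℝ × ℝ → ℝ} {k : ℝ → ℝ → J6} (b1 : 1 ≤ b)
    (bq : b < q) (t1 : 0 < T₁) (t0 : T₁ < T₀) (k1 : 1 ≤ K₁) (d0 : 0 < δ)
    (jet : ∀ τ c, Real.exp (b * τ) ≤ T₀ → c ^ 2 ≤ 1 →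
      Jt2 F (τ, c) (KR.jT (Real.exp (b * τ)) (k (Real.exp (b * τ)) c)))
    (lo : ∀ c, c ^ 2 ≤ 1 → K₁ * (T₀ / T₁) ^ b⁻¹ < c + T₀ * (k T₀ c).f)
    (hi : ∀ c, c ^ 2 ≤ 1 → c + T₁ * (k T₁ c).f < K₁)
    (bd : ∀ T c, 0 < T → T ≤ T₀ → c ^ 2 ≤ 1 → |(k T c).f| ≤ M)
    (key : ∀ T c S, 0 < T → T ≤ T₀ → c ^ 2 + S ^ 2 = 1 → 0 ≤ S →
      (T ≤ T₁ ∨ c + T * (k T c).f ≤ K₁ * (T / T₁) ^ b⁻¹) →
      Key P q c S (KR.jT T (k T c)) (δ * T)) :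
    ∃ F j κ τ₀ τ₁ C δ e, CertR P q F j κ τ₀ τ₁ C δ e := by
  have b0 : 0 < b := by linarith
  have t0' : 0 < T₀ := t1.trans t0
  have e0 : ∀ T, 0 < T → Real.exp (b * (Real.log T / b)) = T := fun T h => by
    rw [mul_div_cancel₀ _ b0.ne', Real.exp_log h]
  have e1 : ∀ τ, K₁ * Real.exp (-(Real.log T₁ / b)) * Real.exp τ =
      K₁ * (Real.exp (b * τ) / T₁) ^ b⁻¹ := fun τ => by
    rw [Real.rpow_def_of_pos (div_pos (Real.exp_pos _) t1), Real.log_div (Real.exp_pos _).ne' t1.ne',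
      Real.log_exp, mul_assoc, ← Real.exp_add]
    congr 2
    field_simp
    ring
  have le : ∀ τ T, 0 < T → τ ≤ Real.log T / b → Real.exp (b * τ) ≤ T := fun τ T h g =>
    (Real.exp_le_exp.2 (mul_le_mul_of_nonneg_left g b0.le)).trans (e0 T h).le
  refine ⟨F, fun τ c => KR.jT (Real.exp (b * τ)) (k (Real.exp (b * τ)) c),
    K₁ * Real.exp (-(Real.log T₁ / b)), Real.log T₀ / b, Real.log T₁ / b,
    M * Real.exp ((b - 1) * (Real.log T₀ / b)), δ, b,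
    div_lt_div_of_pos_right (Real.log_lt_log t1 t0) b0, ?_, d0, b1, bq,
    fun τ c h g => jet τ c (le τ _ t0' h) g, fun c h => ?_, fun c h => ?_, fun τ c h g => ?_,
    fun τ c S h g s r => key _ c S (Real.exp_pos _) (le τ _ t0' h) g s ?_⟩
  · rw [e1, e0 _ t1, div_self t1.ne', Real.one_rpow, mul_one]
    exact k1
  · rw [e1, e0 _ t0']
    exact lo c h
  · rw [e1, e0 _ t1, div_self t1.ne', Real.one_rpow, mul_one]
    exact hi c h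
  · have m := bd _ c (Real.exp_pos _) (le τ _ t0' h) g
    have x : Real.exp (b * τ) ≤ Real.exp ((b - 1) * (Real.log T₀ / b)) * Real.exp τ := by
      rw [← Real.exp_add]
      exact Real.exp_le_exp.2 (by nlinarith)
    simp only [KR.jT]
    rw [abs_mul, abs_of_pos (Real.exp_pos _), mul_comm, mul_assoc]
    exact mul_le_mul m x (Real.exp_pos _).le ((abs_nonneg _).trans m)
  · rcases r with r | r
    · exact Or.inl (le τ _ t1 r)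
    · rw [e1] at r
      exact Or.inr r

/-- tangent lines of the plateau: `x ^ (1 / b) ≤ y (1 + (x / x₀ - 1) / b)` if `x₀ ≤ y ^ b` -/
theorem plat_le {b x x₀ y : ℝ} (b1 : 1 ≤ b) (hx : 0 ≤ x) (h0 : 0 < x₀) (hy : 0 ≤ y)
    (h : x₀ ≤ y ^ b) : x ^ b⁻¹ ≤ y * (1 + (x / x₀ - 1) / b) := by
  have b0 : 0 < b := by linarith
  have a1 : x₀ ^ b⁻¹ ≤ y := by
    rw [← Real.rpow_rpow_inv hy b0.ne']
    exact Real.rpow_le_rpow h0.le h (inv_nonneg.2 b0.le)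
  have a2 := rpow_one_add_le_one_add_mul_self (s := x / x₀ - 1)
    (by linarith [div_nonneg hx h0.le]) (inv_nonneg.2 b0.le) (inv_le_one_of_one_le₀ b1)
  rw [add_sub_cancel] at a2
  calc x ^ b⁻¹ = x₀ ^ b⁻¹ * (x / x₀) ^ b⁻¹ := by
        rw [← Real.mul_rpow h0.le (div_nonneg hx h0.le), mul_div_cancel₀ _ h0.ne']
    _ ≤ y * (1 + b⁻¹ * (x / x₀ - 1)) :=
        mul_le_mul a1 a2 (Real.rpow_nonneg (div_nonneg hx h0.le) _) hy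
    _ = _ := by rw [div_eq_mul_inv _ b, mul_comm b⁻¹]

/-- rational exponents: `x₀ ≤ y ^ b` if `1 ≤ y`, `n ≤ m b` and `x₀ ^ m ≤ y ^ n` -/
theorem le_rpow_of {b x₀ y : ℝ} {m n : ℕ} (m0 : m ≠ 0) (hy : 1 ≤ y) (hb : (n : ℝ) ≤ b * m)
    (h : x₀ ^ m ≤ y ^ n) : x₀ ≤ y ^ b := by
  have y0 : 0 ≤ y := by linarith
  refine le_of_pow_le_pow_left₀ m0 (Real.rpow_nonneg y0 _) (h.trans ?_)
  rw [← Real.rpow_natCast, ← Real.rpow_natCast, ← Real.rpow_mul y0]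
  exact Real.rpow_le_rpow_of_exponent_le hy hb

theorem d_exp (b τ : ℝ) : HasDerivAt (fun t => Real.exp (b * t)) (b * Real.exp (b * τ)) τ :=
  ((hasDerivAt_id' τ).const_mul b).exp.congr_deriv (by ring)

theorem jt_exp (b τ c : ℝ) : Jt2 (fun y => Real.exp (b * y.1)) (τ, c)
    (((J6.cst b).mul (.vx τ)).exp) := ((Jt2.cst _ b).mul (Jt2.vx (τ, c))).exp

/-- `F = T Φ(T, c)` -/
theorem jt_T {Φ : ℝ × ℝ → ℝ} {b τ c : ℝ} {k : J6} (h : Jt2 Φ (Real.exp (b * τ), c) k) :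
    Jt2 (fun y => Real.exp (b * y.1) * Φ (Real.exp (b * y.1), y.2)) (τ, c)
      (KR.jT (Real.exp (b * τ)) (k.th b (Real.exp (b * τ)) (Real.exp (b * τ)))) := by
  have a := (jt_exp b τ c).mul (h.sub1 (σ := fun t => Real.exp (b * t)) (by fun_prop)
    (Eventually.of_forall (d_exp b)) ((d_exp b τ).const_mul b))
  convert a using 1
  simp only [KR.jT, J6.th, J6.mul, J6.exp, J6.cmp, J6.cst, J6.vx, J6.mk.injEq]
  refine ⟨trivial, ?_, ?_, ?_, ?_, ?_⟩ <;> ring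

/-- `F = T Φ(s, c)`, `s = T / (1 + T)` -/
theorem jt_s {Φ : ℝ × ℝ → ℝ} {b τ c s : ℝ} {k : J6}
    (e : s = Real.exp (b * τ) / (1 + Real.exp (b * τ))) (h : Jt2 Φ (s, c) k) :
    Jt2 (fun y => Real.exp (b * y.1) * Φ (Real.exp (b * y.1) / (1 + Real.exp (b * y.1)), y.2)) (τ, c)
      (KR.jT (Real.exp (b * τ)) (k.th b (s * (1 - s)) (s * (1 - s) * (1 - 2 * s)))) := by
  have n : ∀ t, 1 + Real.exp (b * t) ≠ 0 := fun t => by positivity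
  have d : ∀ t, HasDerivAt (fun t => Real.exp (b * t) / (1 + Real.exp (b * t)))
      (b * (Real.exp (b * t) / (1 + Real.exp (b * t)) *
        (1 - Real.exp (b * t) / (1 + Real.exp (b * t))))) t := fun t => by
    refine ((d_exp b t).fun_div ((d_exp b t).const_add 1) (n t)).congr_deriv ?_
    have := n t
    field_simp
  subst e
  have a := (jt_exp b τ c).mul
    (h.sub1 (σ := fun t => Real.exp (b * t) / (1 + Real.exp (b * t)))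
      (ContDiffAt.div (by fun_prop) (by fun_prop) (n τ)) (Eventually.of_forall d)
      (((d τ).fun_mul ((d τ).const_sub 1)).const_mul b))
  convert a using 1
  simp only [KR.jT, J6.th, J6.mul, J6.exp, J6.cmp, J6.cst, J6.vx, J6.mk.injEq]
  refine ⟨trivial, ?_, ?_, ?_, ?_, ?_⟩ <;> ring

/-- the certificate for `F = T Φ(s, c)`, everything in terms of `s = T / (1 + T)`;
`φ s c` are the jets of `Φ` -/
theorem certR_s {P q b T₀ T₁ K₁ M δ : ℝ} {Φ : ℝ × ℝ → ℝ} {φ : ℝ → ℝ → J6} (b1 : 1 ≤ b)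
    (bq : b < q) (t1 : 0 < T₁) (t0 : T₁ < T₀) (k1 : 1 ≤ K₁) (d0 : 0 < δ)
    (jet : ∀ s c, 0 < s → s ≤ T₀ / (1 + T₀) → c ^ 2 ≤ 1 → Jt2 Φ (s, c) (φ s c) ∧ |(φ s c).f| ≤ M)
    (lo : ∀ c, c ^ 2 ≤ 1 → K₁ * (T₀ / T₁) ^ b⁻¹ < c + T₀ * (φ (T₀ / (1 + T₀)) c).f)
    (hi : ∀ c, c ^ 2 ≤ 1 → c + T₁ * (φ (T₁ / (1 + T₁)) c).f < K₁)
    (key : ∀ T s c S, 0 < T → T ≤ T₀ → s = T / (1 + T) → c ^ 2 + S ^ 2 = 1 → 0 ≤ S →
      (T ≤ T₁ ∨ c + T * (φ s c).f ≤ K₁ * (T / T₁) ^ b⁻¹) →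
      Key P q c S (KR.jT T ((φ s c).th b (s * (1 - s)) (s * (1 - s) * (1 - 2 * s)))) (δ * T)) :
    ∃ F j κ τ₀ τ₁ C δ e, CertR P q F j κ τ₀ τ₁ C δ e := by
  have m : ∀ T, 0 < T → T ≤ T₀ → 0 < T / (1 + T) ∧ T / (1 + T) ≤ T₀ / (1 + T₀) := fun T h g =>
    ⟨by positivity, by rw [div_le_div_iff₀ (by linarith) (by linarith)]; linarith⟩
  exact certR_of (M := M) (k := fun T c => (φ (T / (1 + T)) c).th b
      (T / (1 + T) * (1 - T / (1 + T))) (T / (1 + T) * (1 - T / (1 + T)) * (1 - 2 * (T / (1 + T)))))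
    b1 bq t1 t0 k1 d0
    (fun τ c h g => jt_s rfl (jet _ c (m _ (Real.exp_pos _) h).1 (m _ (Real.exp_pos _) h).2 g).1)
    lo hi (fun T c h g r => (jet _ c (m T h g).1 (m T h g).2 r).2)
    fun T c S h g r => key T _ c S h g rfl r

/-- the certificate for `F = T Φ(T, c)`; pure powers are `Φ = ψ(c)` -/
theorem certR_T {P q b T₀ T₁ K₁ M δ : ℝ} {Φ : ℝ × ℝ → ℝ} {φ : ℝ → ℝ → J6} (b1 : 1 ≤ b)
    (bq : b < q) (t1 : 0 < T₁) (t0 : T₁ < T₀) (k1 : 1 ≤ K₁) (d0 : 0 < δ)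
    (jet : ∀ T c, 0 < T → T ≤ T₀ → c ^ 2 ≤ 1 → Jt2 Φ (T, c) (φ T c) ∧ |(φ T c).f| ≤ M)
    (lo : ∀ c, c ^ 2 ≤ 1 → K₁ * (T₀ / T₁) ^ b⁻¹ < c + T₀ * (φ T₀ c).f)
    (hi : ∀ c, c ^ 2 ≤ 1 → c + T₁ * (φ T₁ c).f < K₁)
    (key : ∀ T c S, 0 < T → T ≤ T₀ → c ^ 2 + S ^ 2 = 1 → 0 ≤ S →
      (T ≤ T₁ ∨ c + T * (φ T c).f ≤ K₁ * (T / T₁) ^ b⁻¹) →
      Key P q c S (KR.jT T ((φ T c).th b T T)) (δ * T)) :
    ∃ F j κ τ₀ τ₁ C δ e, CertR P q F j κ τ₀ τ₁ C δ e :=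
  certR_of (M := M) (k := fun T c => (φ T c).th b T T) b1 bq t1 t0 k1 d0
    (fun _ c h g => jt_T (jet _ c (Real.exp_pos _) h g).1) lo hi
    (fun T c h g r => (jet T c h g r).2) key

end Pool.Agent.MP_815c6c_an.W
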