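import Pool.Agent.MP_815c6c_an.W.Top
import Pool.Agent.MP_815c6c_an.W.Flat0

/-! From the certificate to the regularity, for every `p > 2`. -/

set_option autoImplicit false

namespace Pool.Agent.MP_815c6c_an.W

theorem goal {p q : ℝ} (hp : 2 < p) {F : ℝ × ℝ → ℝ} {j : ℝ → ℝ → J6} {κ τ₀ τ₁ C δ e : ℝ}
    (h : CertR (p - 2) q F j κ τ₀ τ₁ C δ e) : 1 < q ∧ Goal p q :=
  goal_of hp (rg3 flat0 hp) h

end Pool.Agent.MP_815c6c_an.W
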