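import Pool.Agent.MP_815c6c_an.W.Spec

/-! From the one-sided Taylor estimate to the Hölder exponent `1 / q` of the gradient. -/

set_option autoImplicit false

noncomputable section

namespace Pool.Agent.MP_815c6c_an.W

open Set Metric Filter Topology
open scoped RealInnerProductSpace
open S (Cs Hol Dv)

namespace HolA

variable {d : ℕ}

theorem near {u : X d → ℝ} {g : X d → X d} {α K s : ℝ} {A : Set (X d)} (ha : 0 < α) (h1 : α ≤ 1)
    (hK : 0 ≤ K) (H : ∀ y ∈ A, ∀ h : X d, ‖h‖ ≤ s →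
      |u (y + h) - u y - ⟪g y, h⟫| ≤ K * ‖h‖ ^ (1 + α))
    {y z : X d} (hy : y ∈ A) (hz : z ∈ A) (hs : 2 * ‖y - z‖ ≤ s) :
    ‖g y - g z‖ ≤ 6 * K * ‖y - z‖ ^ α := by
  obtain ⟨ρ, hρ⟩ : ∃ ρ, ρ = ‖y - z‖ := ⟨_, rfl⟩
  have r0 : 0 ≤ ρ := hρ ▸ norm_nonneg _
  rw [← hρ] at hs ⊢
  have p0 : 0 ≤ ρ ^ α := Real.rpow_nonneg r0 _
  by_cases hg : g y - g z = 0
  · rw [hg, norm_zero]; positivity
  have hyz : 0 < ρ := by
    refine r0.lt_of_ne fun h => hg ?_
    rw [sub_eq_zero.1 (norm_eq_zero.1 (hρ.symm.trans h.symm)), sub_self]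
  have g0 : 0 < ‖g y - g z‖ := norm_pos_iff.2 hg
  obtain ⟨h, hh⟩ : ∃ h, h = (ρ / ‖g y - g z‖) • (g y - g z) := ⟨_, rfl⟩
  have n1 : ‖h‖ = ρ := by
    rw [hh, norm_smul, Real.norm_of_nonneg (by positivity), div_mul_cancel₀ _ g0.ne']
  have n2 : ‖h + (y - z)‖ ≤ 2 * ρ := by
    have := norm_add_le h (y - z)
    linarith
  have i1 : ⟪g y - g z, h⟫ = ρ * ‖g y - g z‖ := by
    rw [hh, real_inner_smul_right, real_inner_self_eq_norm_sq]
    field_simp
  have a1 := H y hy h (by linarith)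
  have a2 := H z hz (h + (y - z)) (by linarith)
  have a3 := H z hz (y - z) (by linarith)
  have e2 : z + (h + (y - z)) = y + h := by abel
  have e3 : z + (y - z) = y := by abel
  rw [e2, inner_add_right] at a2
  rw [e3, ← hρ] at a3
  rw [n1] at a1
  rw [inner_sub_left] at i1
  have b1 : ρ ^ (1 + α) = ρ * ρ ^ α := by rw [Real.rpow_add hyz, Real.rpow_one]
  have b2 : ‖h + (y - z)‖ ^ (1 + α) ≤ 4 * (ρ * ρ ^ α) := by
    refine (Real.rpow_le_rpow (norm_nonneg _) n2 (by linarith)).trans ?_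
    rw [Real.mul_rpow zero_le_two r0, b1]
    refine mul_le_mul_of_nonneg_right ?_ (by positivity)
    calc (2 : ℝ) ^ (1 + α) ≤ 2 ^ (2 : ℝ) :=
          Real.rpow_le_rpow_of_exponent_le one_le_two (by linarith)
      _ = 4 := by norm_num
  have b3 := mul_le_mul_of_nonneg_left b2 hK
  rw [b1] at a1 a3
  have c1 := abs_le.1 a1
  have c2 := abs_le.1 a2
  have c3 := abs_le.1 a3
  have k : ρ * ‖g y - g z‖ ≤ ρ * (6 * K * ρ ^ α) := by nlinarith
  exact le_of_mul_le_mul_left k hyz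

theorem gneg (u : X d → ℝ) (x : X d) : gradient (fun y => -u y) x = -gradient u x := by
  unfold gradient
  rw [fderiv_fun_neg, map_neg]

theorem cneg {p : ℝ} {U : Set (X d)} {u : X d → ℝ} (h : Cs p U u) : Cs p U fun y => -u y := by
  refine ⟨h.c1.neg, ?_⟩
  have k := (sk.dv d).smul U _ (-1) h.dv
  refine (congrArg (Dv U) (funext fun x => ?_)).mp k
  rw [gneg]
  simp [S.Ap, Q.pw]

/-- the one-sided estimate at every centre and scale -/
theorem side {p α R C : ℝ} (hp : 2 < p) (sm : SmS d p) (hR : 1 ≤ R)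
    (ht : ∀ u : X d → ℝ, Sm (p - 2) (ball 0 R) u → (∀ y ∈ ball (0 : X d) R, ‖gradient u y‖ ≤ 1) →
      ∀ x : X d, ‖x‖ ≤ 1 → u x - u 0 - ⟪gradient u 0, x⟫ ≤ C * ‖x‖ ^ (1 + α))
    {u : X d → ℝ} {x y h : X d} {r M : ℝ} (hr : 0 < r) (hM : 0 < M) (hu : Cs p (ball x r) u)
    (hb : ∀ y ∈ ball x r, ‖gradient u y‖ ≤ M) (hy : y ∈ ball x (r / 2)) (hh : ‖h‖ ≤ r / (2 * R)) :
    u (y + h) - u y - ⟪gradient u y, h⟫ ≤ C * M / (r / (2 * R)) ^ α * ‖h‖ ^ (1 + α) := by
  obtain ⟨s, hs⟩ : ∃ s, s = r / (2 * R) := ⟨_, rfl⟩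
  rw [← hs] at hh ⊢
  have R0 : 0 < R := by linarith
  have s0 : 0 < s := by rw [hs]; positivity
  have sR : s * R = r / 2 := by rw [hs]; field_simp
  have sc := sk.sca d p hp
  have mem : ∀ z ∈ ball (0 : X d) R, y + s • z ∈ ball x r := by
    intro z hz
    rw [mem_ball_zero_iff] at hz
    rw [mem_ball, dist_eq_norm] at hy ⊢
    have a := norm_add_le (y - x) (s • z)
    rw [norm_smul, Real.norm_of_nonneg s0.le] at a
    have b := mul_lt_mul_of_pos_left hz s0
    have e : y + s • z - x = y - x + s • z := by abel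
    rw [e]
    linarith
  have M0 : 0 < M⁻¹ := inv_pos.2 hM
  have cv := sc.cs (ball x r) (ball 0 R) u y s M⁻¹ s0 M0 mem hu
  have gv := sc.gr u y s M⁻¹ s0
  have k := ht _ (sm _ _ isOpen_ball cv) (fun z hz => by
    rw [gv, norm_smul, Real.norm_of_nonneg M0.le]
    exact (mul_le_mul_of_nonneg_left (hb _ (mem z hz)) M0.le).trans_eq (inv_mul_cancel₀ hM.ne'))
    (s⁻¹ • h) (by
      rw [norm_smul, norm_inv, Real.norm_of_nonneg s0.le]
      exact (mul_le_mul_of_nonneg_left hh (inv_pos.2 s0).le).trans_eq (inv_mul_cancel₀ s0.ne'))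
  rw [gv, smul_inv_smul₀ s0.ne', smul_zero, add_zero, real_inner_smul_left, real_inner_smul_right,
    norm_smul, norm_inv, Real.norm_of_nonneg s0.le,
    Real.mul_rpow (inv_pos.2 s0).le (norm_nonneg _), Real.inv_rpow s0.le, Real.rpow_add s0,
    Real.rpow_one] at k
  have a0 : 0 < s ^ α := Real.rpow_pos_of_pos s0 _
  have k2 := mul_le_mul_of_nonneg_left k (mul_pos hM s0).le
  refine le_trans (le_of_eq ?_) (k2.trans_eq ?_)
  · field_simp
  · field_simp

end HolA

open HolA in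
theorem hol : HolS := by
  intro d p q hp hq rg sm ht
  obtain ⟨R, C, hR, hC, ht⟩ := ht
  obtain ⟨α', C', rg⟩ := rg
  have q0 : 0 < q := by linarith
  have a0 : 0 < 1 / q := by positivity
  have a1 : 1 / q < 1 := (div_lt_one q0).2 hq
  obtain ⟨α, hα⟩ : ∃ α, α = 1 / q := ⟨_, rfl⟩
  rw [← hα] at a0 a1 ht ⊢
  have R0 : 0 < R := by linarith
  refine ⟨12 * C * R + 8 * R, a0, a1, by positivity, rg.rep, ?_⟩
  intro u x r M hr hu hb y hy z hz
  have s4 : ball x (r / 4) ⊆ ball x r := ball_subset_ball (by linarith)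
  have s2 : ball x (r / 4) ⊆ ball x (r / 2) := ball_subset_ball (by linarith)
  have b1 := hb y (s4 hy)
  have b2 := hb z (s4 hz)
  have b3 : ‖gradient u y - gradient u z‖ ≤ 2 * M := by
    have := norm_sub_le (gradient u y) (gradient u z)
    linarith
  have M0 : 0 ≤ M := (norm_nonneg _).trans b1
  rcases M0.eq_or_lt with h0 | hM
  · subst h0
    simpa using b3
  have r0 : 0 < r ^ α := Real.rpow_pos_of_pos hr _
  have n0 : 0 ≤ ‖y - z‖ ^ α := Real.rpow_nonneg (norm_nonneg _) _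
  have pw : ∀ t : ℝ, 1 ≤ t → t ^ α ≤ t := fun t h => by
    simpa using Real.rpow_le_rpow_of_exponent_le h a1.le
  have t0 : 0 ≤ M / r ^ α * ‖y - z‖ ^ α := by positivity
  have e : (12 * C * R + 8 * R) * M / r ^ α * ‖y - z‖ ^ α =
      (12 * C * R + 8 * R) * (M / r ^ α * ‖y - z‖ ^ α) := by ring
  rw [e]
  by_cases hs : 2 * ‖y - z‖ ≤ r / (2 * R)
  · have s0 : 0 < (r / (2 * R)) ^ α := Real.rpow_pos_of_pos (by positivity) _
    have k := near (u := u) (g := gradient u) (K := C * M / (r / (2 * R)) ^ α)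
      (A := ball x (r / 2)) a0 a1.le (by positivity) (fun w hw h hh => ?_) (s2 hy) (s2 hz) hs
    · rw [Real.div_rpow hr.le (by positivity)] at k
      have w0 : 0 < (2 * R) ^ α := Real.rpow_pos_of_pos (by positivity) _
      have e2 : 6 * (C * M / (r ^ α / (2 * R) ^ α)) * ‖y - z‖ ^ α =
          6 * C * (2 * R) ^ α * (M / r ^ α * ‖y - z‖ ^ α) := by field_simp
      rw [e2] at k
      refine k.trans (mul_le_mul_of_nonneg_right ?_ t0)
      have := mul_le_mul_of_nonneg_left (pw (2 * R) (by linarith)) hC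
      linarith
    · have k1 := side hp sm hR ht hr hM hu hb hw hh
      have k2 := side hp sm hR ht hr hM (cneg hu)
        (fun y hy => by rw [gneg, norm_neg]; exact hb y hy) hw hh
      rw [gneg, inner_neg_left] at k2
      exact abs_le.2 ⟨by linarith, k1⟩
  · have h1 : r ≤ 4 * R * ‖y - z‖ := by
      have := (div_lt_iff₀ (by positivity : 0 < 2 * R)).1 (not_le.1 hs)
      linarith
    have h2 : r ^ α ≤ 4 * R * ‖y - z‖ ^ α := by
      refine (Real.rpow_le_rpow hr.le h1 a0.le).trans ?_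
      rw [Real.mul_rpow (by positivity) (norm_nonneg _)]
      exact mul_le_mul_of_nonneg_right (pw _ (by linarith)) n0
    have h3 : M ≤ 4 * R * (M / r ^ α * ‖y - z‖ ^ α) := by
      have := mul_le_mul_of_nonneg_left h2 (by positivity : 0 ≤ M / r ^ α)
      rw [div_mul_cancel₀ _ r0.ne'] at this
      linarith
    have h4 : 0 ≤ 12 * C * R * (M / r ^ α * ‖y - z‖ ^ α) := by positivity
    linarith

end Pool.Agent.MP_815c6c_an.W
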