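import Pool.Agent.MP_815c6c_an.W.Gj
import Mathlib.Analysis.Calculus.Deriv.MeanValue
import Mathlib.Analysis.Calculus.Deriv.Inverse
import Mathlib.Analysis.Calculus.ContDiff.Operations

/-! Change of the variable `τ = T(L)` in the certificate. -/

set_option autoImplicit false

noncomputable section

namespace Pool.Agent.MP_815c6c_an.W

open Set Filter Topology GjA

/-- the jet in the variable `τ = T(L)`, where `a = T'(L)`, `b = T''(L)` -/
def J6.cv (k : J6) (a b : ℝ) : J6 :=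
  ⟨k.f, k.t / a, k.c, (k.tt - k.t * b / a) / a ^ 2, k.tc / a, k.cc⟩

theorem jt2_of {F : ℝ × ℝ → ℝ} {x : ℝ × ℝ} {j : J6} (h : ∀ a b : ℝ, J x (a, b) F j.f
    (j.t * a + j.c * b) (j.tt * a ^ 2 + 2 * j.tc * a * b + j.cc * b ^ 2)) : Jt2 F x j :=
  ⟨(h 0 0).sm, (h 0 0).e0, fun a b => ⟨(h a b).e1, (h a b).e2⟩⟩

theorem j_fst (x : ℝ × ℝ) (a b : ℝ) : J x (a, b) (fun y => y.1) x.1 a 0 :=
  ⟨contDiffAt_fst, rfl, by rw [fderiv_fst]; rfl, by
    rw [d2, show fderiv ℝ (fun y : ℝ × ℝ => y.1) = fun _ => ContinuousLinearMap.fst ℝ ℝ ℝ from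
      funext fun _ => fderiv_fst]
    simp⟩

theorem j_snd (x : ℝ × ℝ) (a b : ℝ) : J x (a, b) (fun y => y.2) x.2 b 0 :=
  ⟨contDiffAt_snd, rfl, by rw [fderiv_snd]; rfl, by
    rw [d2, show fderiv ℝ (fun y : ℝ × ℝ => y.2) = fun _ => ContinuousLinearMap.snd ℝ ℝ ℝ from
      funext fun _ => fderiv_snd]
    simp⟩

theorem inv_var {T T₁ T₂ : ℝ → ℝ} {m : ℝ} (m0 : 0 < m) (hT : ContDiff ℝ 2 T)
    (h1 : ∀ L, HasDerivAt T (T₁ L) L) (h2 : ∀ L, HasDerivAt T₁ (T₂ L) L) (hm : ∀ L, m ≤ T₁ L) :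
    ∃ I : ℝ → ℝ, (∀ τ, T (I τ) = τ) ∧ (∀ L, I (T L) = L) ∧ StrictMono T ∧
      (∀ L L', L ≤ L' → m * (L' - L) ≤ T L' - T L) ∧
      ∀ (Φ : ℝ × ℝ → ℝ) (L c : ℝ) (k : J6), Jt2 Φ (L, c) k →
        Jt2 (fun x => Φ (I x.1, x.2)) (T L, c) (k.cv (T₁ L) (T₂ L)) := by
  have p : ∀ L, 0 < T₁ L := fun L => m0.trans_le (hm L)
  have sm : StrictMono T := strictMono_of_deriv_pos fun L => (h1 L).deriv ▸ p L
  have lb : ∀ L L', L ≤ L' → m * (L' - L) ≤ T L' - T L := fun L L' h =>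
    mul_sub_le_image_sub_of_le_deriv (fun x => (h1 x).differentiableAt)
      (fun x => (h1 x).deriv ▸ hm x) h
  have su : Function.Surjective T := by
    refine hT.continuous.surjective ?_ ?_
    · refine tendsto_atTop_mono' _ ((eventually_ge_atTop 0).mono fun L h => ?_)
        (tendsto_atTop_add_const_right _ (T 0) (tendsto_id.const_mul_atTop m0))
      have := lb 0 L h
      simp only [id]
      linarith
    · refine tendsto_atBot_mono' _ ((eventually_le_atBot 0).mono fun L h => ?_)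
        (tendsto_atBot_add_const_right _ (T 0) (tendsto_id.const_mul_atBot m0))
      have := lb L 0 h
      simp only [id]
      linarith
  let e := (sm.orderIsoOfSurjective T su).toHomeomorph
  have c : ContDiff ℝ 2 e.symm := e.contDiff_symm_deriv (fun L => (p L).ne') h1 hT
  have r1 : ∀ τ, T (e.symm τ) = τ := e.apply_symm_apply
  have r2 : ∀ L, e.symm (T L) = L := e.symm_apply_apply
  have d1 : ∀ τ, HasDerivAt e.symm (T₁ (e.symm τ))⁻¹ τ := fun τ =>
    HasDerivAt.of_local_left_inverse e.symm.continuous.continuousAt (h1 _) (p _).ne'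
      (Eventually.of_forall r1)
  refine ⟨e.symm, r1, r2, sm, lb, fun Φ L c' k h => jt2_of fun a b => ?_⟩
  have d2 := ((h2 _).comp (T L) (d1 (T L))).inv (p _).ne'
  have j1 := (j_fst (T L, c') a b).comp (β := e.symm) (β' := fun τ => (T₁ (e.symm τ))⁻¹)
    c.contDiffAt (Eventually.of_forall d1) d2
  simp only [Function.comp, r2] at j1
  have n := (p L).ne'
  refine (j1.pair (j_snd (T L, c') a b) h).cast rfl ?_ ?_
  · simp only [J6.cv]
    ring
  · simp only [J6.cv]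
    field_simp
    ring

end Pool.Agent.MP_815c6c_an.W
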