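import Pool.Agent.MP_815c6c_an.W.KeyRed

/-! The inequality `Key` from scalar inequalities that are divided by the small parameter. -/

set_option autoImplicit false
set_option linter.dupNamespace false

noncomputable section

namespace Pool.Agent.MP_815c6c_an.W.KE

open KR

/-- the coefficients, divided by `η`; `σ = S ^ 2`, `P = η ς`, `W = w T` -/
structure Hc : Type where
  c : ℝ
  σ : ℝ
  η : ℝ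
  ς : ℝ
  w : ℝ
  W : ℝ
  g : ℝ
  ch : ℝ
  r : ℝ
  e : ℝ
  n11 : ℝ
  n12 : ℝ
  n22 : ℝ
  n3 : ℝ
  c11 : ℝ
  c12 : ℝ
  c21 : ℝ
  c22 : ℝ
  z11 : ℝ
  z12 : ℝ
  z22 : ℝ
  z3 : ℝ

structure Rel (k : Co) (n : Hc) (P c S T : ℝ) : Prop where
  hc : n.c = c
  hσ : n.σ = S ^ 2
  hP : P = n.η * n.ς
  hW : n.W = n.w * T
  g1 : k.g1 = c + n.η * n.g
  g2 : k.g2 = S * (1 + n.η * n.ch)
  r : n.r = n.w * k.r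
  e1 : k.e1 = T * (c + n.η * n.e)
  e2 : k.e2 = T * S * (1 + n.η * n.z3)
  y11 : n.W * k.y11 = n.η * n.n11
  y12 : n.W * k.y12 = n.η * S * n.n12
  y22 : n.W * k.y22 = n.η * n.n22
  y3 : n.W * k.y3 = n.η * n.n3
  c11 : k.c11 = c + n.η * n.c11
  c12 : k.c12 = S * (1 + n.η * n.c12)
  c21 : k.c21 = S * (-1 + n.η * n.c21)
  c22 : k.c22 = c + n.η * n.c22
  c3 : k.c3 = 1 + n.η * n.ch
  z11 : k.z11 = T * (1 + n.η * n.z11)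
  z12 : k.z12 = T * S * n.η * n.z12
  z22 : k.z22 = T * (1 + n.η * n.z22)
  z3 : k.z3 = T * (1 + n.η * n.z3)

/-- the parameters of the coupling -/
structure Pa : Type where
  γ1 : ℝ
  γ2 : ℝ
  θ : ℝ
  e : ℝ
  β : ℝ
  k : ℝ
  ϱ : ℝ
  χ : ℝ
  ζ : ℝ

namespace Hc

variable (n : Hc) (a : Pa) (o₁ o₂ o₃ β : ℝ)

def Q : ℝ := 1 + n.η * n.ς
def p : ℝ := 1 + n.η * n.ch
def G : ℝ := n.c + n.η * n.g
def dh : ℝ := n.σ * (n.ς * n.p ^ 2 + n.ch * (1 + n.p)) + n.g * (n.c + n.G)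
def dl : ℝ := 1 + n.η * n.dh
def p1 : ℝ := n.c * n.g + n.σ * n.ch
def p2 : ℝ := n.c * n.ch - n.g
def am1 : ℝ := -(n.p2 + n.ς * n.c * n.p)
def am2 : ℝ := n.p1 + n.ς * n.σ * n.p
def D : ℝ := n.w * n.p
def X : ℝ := n.r ^ 2 + n.σ * n.D ^ 2
def Z11 : ℝ := 1 + n.η * n.z11
def Z22 : ℝ := 1 + n.η * n.z22
def Z3 : ℝ := 1 + n.η * n.z3
def Z12 : ℝ := n.η * n.z12
def C11 : ℝ := n.c + n.η * n.c11
def C12 : ℝ := 1 + n.η * n.c12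
def C21 : ℝ := -1 + n.η * n.c21
def C22 : ℝ := n.c + n.η * n.c22
def m1 : ℝ := n.n11 * n.p - n.n12 * n.G
def m2 : ℝ := n.σ * n.n12 * n.p - n.n22 * n.G
def ga : ℝ := -1 + n.η * a.γ1
def V : ℝ := n.ga a * n.D + n.η * a.γ2 * n.r
def rV : ℝ := n.ς * a.ϱ * n.V a
def o1 : ℝ := a.γ2 + n.rV a * n.r
def o2 : ℝ := -a.γ1 - n.σ * n.rV a * n.D
def sh : ℝ := a.γ1 * (n.ga a - 1) + n.σ * (n.η * a.γ2 ^ 2 + n.rV a * n.V a)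
def sc : ℝ := 1 + n.η * n.sh a
def d1 : ℝ := n.o1 a - n.am1
def d2 : ℝ := n.o2 a - n.am2
def D1 : ℝ := n.d1 a - n.η * a.θ * n.o1 a
def D2 : ℝ := n.d2 a - a.θ * (1 + n.η * n.o2 a)
def f1 : ℝ := a.γ1 - a.χ * n.ga a - n.p1
def u1 : ℝ := -2 + n.η * n.f1 a
def u2 : ℝ := (1 - n.η * a.χ) * a.γ2 - n.p2
def sl : ℝ := n.sh a - n.dh - a.e * (2 + n.η * a.e) * n.dl
def lam : ℝ := 1 - a.ϱ * n.X
def qh : ℝ := n.Q * a.χ * (2 - n.η * a.χ) - n.ς * n.lam a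
def Zt : ℝ := n.Z11 + n.Z22 + n.Z3 + n.η * n.ς * a.ζ
def Γ : ℝ := n.n3 + n.w * a.k * ((1 / 3 + n.η * a.k) * n.Zt a - 2 * n.p)
def zd : ℝ := n.σ * n.d1 a * (n.Z11 * n.d1 a + 2 * n.Z12 * n.d2 a) + n.Z22 * n.d2 a ^ 2
def zo : ℝ := n.η * n.σ * (n.o1 a * (n.η * n.Z11 * n.am1 + n.Z12 * (1 + n.η * n.am2)) +
  n.Z12 * n.am1 * (1 + n.η * n.o2 a)) + n.Z22 * (1 + n.η * n.o2 a) * (1 + n.η * n.am2)
def zg : ℝ := n.Z11 * n.ga a ^ 2 + n.η * n.σ * a.γ2 * (2 * n.Z12 * n.ga a + n.η * n.Z22 * a.γ2)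
def Eh : ℝ := n.e + o₁
def E : ℝ := n.c + n.η * n.Eh o₁
def Sh : ℝ := n.σ * n.z3 + o₂
def SE : ℝ := n.σ + n.η * n.Sh o₂
def EE : ℝ := n.Z3 * (n.SE o₂ + n.η * o₂) + n.η ^ 2 * o₃
def CE1 : ℝ := n.c * n.Eh o₁ + n.c11 * n.E o₁ + n.Sh o₂ + n.c12 * n.SE o₂
def CE2 : ℝ := n.σ * (n.c21 * n.E o₁ - n.Eh o₁) + n.c * n.Sh o₂ + n.c22 * n.SE o₂
def Tg : ℝ := n.u1 a * (2 * n.CE1 o₁ o₂ + n.f1 a + n.z11 * n.u1 a + n.σ * n.Z12 * n.u2 a) +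
  n.η * n.u2 a * (2 * n.CE2 o₁ o₂ + n.σ * (n.Z22 * n.u2 a + n.z12 * n.u1 a))
def x1 : ℝ := n.SE o₂ + β * n.σ * n.p
def x2 : ℝ := -(n.Q * n.E o₁ + β * n.G)
def XX : ℝ := n.EE o₂ o₃ + β * n.p * (n.SE o₂ + n.x1 o₂ β)
/-- `w Δ val / (T η)` -/
def J0 : ℝ := n.n11 * (n.XX o₂ o₃ β + n.Q * n.E o₁ ^ 2) +
  2 * n.n12 * (n.x1 o₂ β * n.x2 o₁ β + n.Q * n.E o₁ * n.SE o₂) +
  n.n22 * (n.x2 o₁ β ^ 2 + n.Q * n.EE o₂ o₃) + n.dl * n.Γ a * β ^ 2 +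
  n.w * (2 * (n.D1 a * (n.C11 * n.x1 o₂ β + n.σ * n.C12 * n.x2 o₁ β) +
      n.D2 a * (n.C21 * n.x1 o₂ β + n.C22 * n.x2 o₁ β)) + n.η * n.zd a + 2 * a.θ * n.zo a +
    n.Q * n.Tg a o₁ o₂ + 2 * n.dl * β * (n.p * a.e + a.k * n.Z3) +
    n.Z3 * (n.η * a.e ^ 2 * n.dl + n.sl a) + n.qh a * n.zg a +
    n.sc a * (n.ς * n.lam a * a.ζ + 3 * a.k * n.Zt a)) -
  2 * n.ς * n.W * (n.p * n.SE o₂ * (n.Q * n.E o₁ + β * n.G) + n.G * n.EE o₂ o₃)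
def J1 : ℝ := 2 * (n.x1 o₂ β * n.m1 + n.x2 o₁ β * n.m2 + n.dl * n.Γ a * β +
  n.w * (n.D1 a * n.σ * (n.C11 * n.p - n.C12 * n.G) + n.D2 a * (n.σ * n.C21 * n.p - n.C22 * n.G) +
    n.dl * (n.p * a.e + a.k * n.Z3)) - n.ς * n.W * n.G * n.p * n.SE o₂)
def J2 : ℝ := n.σ * n.p * n.m1 - n.G * n.m2 + n.dl * n.Γ a

end Hc

/-- the inequalities that do not involve the perturbation -/
structure Ok (n : Hc) (a : Pa) : Prop where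
  η0 : 0 < n.η
  η1 : n.η ≤ 64
  ς0 : 0 ≤ n.ς
  P1 : n.η * n.ς ≤ 3
  w0 : 0 < n.w
  w1 : n.w ≤ 1
  W1 : n.ς * n.W ≤ 64
  p0 : 0 < n.p
  p1 : n.p ≤ 64
  G1 : |n.G| ≤ 64
  dl : 1 / 2 ^ 10 ≤ n.dl
  n11 : |n.n11| ≤ 64
  n12 : |n.n12| ≤ 64
  n22 : |n.n22| ≤ 64
  Γ1 : n.Γ a ≤ 64
  θ0 : 0 ≤ a.θ
  θ1 : n.η * a.θ ≤ 2
  k0 : 0 ≤ a.k
  ϱ0 : 0 ≤ a.ϱ
  lam : 0 ≤ n.lam a
  qh : 0 ≤ n.qh a
  sl : 0 ≤ n.sl a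
  z1 : n.Z11 + |n.Z12| ≤ a.ζ
  z2 : n.Z22 + |n.Z12| ≤ a.ζ
  J2 : n.J2 a ≤ -(1 / 2 ^ 14)

/-- the game with a coupling whose third row is full -/
def Blk3 (k : Co) (P c S μ : ℝ) : Prop :=
  ∀ h₁₁ h₁₂ h₁₃ h₂₂ h₂₃ h₃₃ w₁ w₂ w₃ N₁ N₂ t : ℝ, (1 + P) * h₁₁ + h₂₂ + h₃₃ = 0 → w₁ ^ 2 ≤ μ ^ 2 →
    w₂ ^ 2 ≤ μ ^ 2 → w₃ ^ 2 ≤ μ ^ 2 → k.g1 * h₁₁ + k.g2 * h₁₂ = k.e1 - w₁ →
    k.g1 * h₁₂ + k.g2 * h₂₂ = k.e2 - w₂ → k.g1 * h₁₃ + k.g2 * h₂₃ = -w₃ →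
    N₁ ^ 2 + N₂ ^ 2 = 1 → t * N₁ = k.r → t * N₂ = -k.g2 →
    ∃ s a₁ a₂ a₃ b₁ b₂ b₃ e : ℝ, 0 ≤ s ∧
      (∀ v₁ v₂ v₃ : ℝ, (1 + P) * (v₁ * a₁ + v₂ * a₂ + v₃ * a₃) ^ 2 +
        (v₁ * b₁ + v₂ * b₂ + v₃ * b₃) ^ 2 + (v₃ * e) ^ 2 ≤
        s * (v₁ ^ 2 + v₂ ^ 2 + v₃ ^ 2 + P * (v₁ * N₁ + v₂ * N₂) ^ 2)) ∧
      k.vin P c S h₁₁ h₁₂ h₂₂ h₃₃ w₂ a₁ a₂ b₁ b₂ e s + k.xt P a₁ a₂ b₁ b₂ s N₁ N₂ +
        k.vout P h₁₃ h₂₃ w₃ + 2 * k.c3 * ((1 + P) * h₁₃ * a₃ + h₂₃ * b₃) ≤ -μ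

theorem key3 (P q c S μ : ℝ) (j : J6) (h : c ^ 2 + S ^ 2 = 1) (h3 : 0 < 1 + j.c)
    (hb : Blk3 (co q c S j) P c S μ) : Key P q c S j μ := by
  intro h₁₁ h₁₂ h₁₃ h₂₂ h₂₃ h₃₃ w₁ w₂ w₃ n₁ n₂ n₃ t htr hw c1 c2 c3 hn ht x1 x2 x3 x4
  rw [d1_eq q c S j h] at c1 c2 c3 x1 x2
  have hr : c * (1 + (co q c S j).e1) + S * (co q c S j).e2 = (co q c S j).r := by
    simp only [co]
    linear_combination (j.f + j.t / q) * h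
  have hg : -S * (1 + (co q c S j).e1) + c * (co q c S j).e2 = -(co q c S j).g2 := by
    simp only [co]
    linear_combination (-(S * j.c)) * h
  have n3 : n₃ = 0 := by
    rcases mul_eq_zero.1 x3 with h0 | h0
    · apply x4
      have : (co q c S j).g2 = 0 := by
        rw [h0] at x1 x2
        linear_combination -hg - S * x1 + c * x2 + hg + hg - hg + 2 * S * x1 - 2 * c * x2 + hg
      simp only [co] at this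
      rcases mul_eq_zero.1 this with h1 | h1
      · exact h1
      · exact absurd h1 h3.ne'
    · exact h0
  subst n3
  obtain ⟨s, a₁, a₂, a₃, b₁, b₂, b₃, e, he, hp, hv⟩ := hb h₁₁ h₁₂ h₁₃ h₂₂ h₂₃ h₃₃ w₁ w₂ w₃
    (c * n₁ + S * n₂) (-S * n₁ + c * n₂) t htr (by nlinarith [sq_nonneg w₂, sq_nonneg w₃])
    (by nlinarith [sq_nonneg w₁, sq_nonneg w₃]) (by nlinarith [sq_nonneg w₁, sq_nonneg w₂])
    (by linear_combination c1) (by linear_combination c2) (by linear_combination c3)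
    (by linear_combination (n₁ ^ 2 + n₂ ^ 2) * h + hn)
    (by linear_combination hr - c * x1 - S * x2) (by linear_combination hg + S * x1 - c * x2)
  refine ⟨s, c * a₁ - S * a₂, S * a₁ + c * a₂, a₃, c * b₁ - S * b₂, S * b₁ + c * b₂, b₃, 0, 0, e,
    he, ?_, ?_⟩
  · intro v₁ v₂ v₃
    have := hp (c * v₁ + S * v₂) (-S * v₁ + c * v₂) v₃
    have e1 : (c * v₁ + S * v₂) ^ 2 + (-S * v₁ + c * v₂) ^ 2 = v₁ ^ 2 + v₂ ^ 2 := by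
      linear_combination (v₁ ^ 2 + v₂ ^ 2) * h
    have e2 : (c * v₁ + S * v₂) * (c * n₁ + S * n₂) + (-S * v₁ + c * v₂) * (-S * n₁ + c * n₂) =
        v₁ * n₁ + v₂ * n₂ := by linear_combination (v₁ * n₁ + v₂ * n₂) * h
    rw [e1, e2] at this
    linear_combination this
  · have f1 := d2_eq q c S j h h₁₁ h₁₂ h₁₃ (a₁ - c) (a₂ + S) a₃
    have f2 := d2_eq q c S j h 0 0 0 a₁ a₂ a₃
    have f3 := d2_eq q c S j h h₁₂ h₂₂ h₂₃ (b₁ - S) (b₂ - c) b₃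
    have f4 := d2_eq q c S j h 0 0 0 b₁ b₂ b₃
    have f5 := d2_eq q c S j h h₁₃ h₂₃ h₃₃ 0 0 (e - 1)
    have f6 := d2_eq q c S j h 0 0 0 0 0 e
    have f7 := d2_eq q c S j h 0 0 0 c (-S) 0
    have f8 := d2_eq q c S j h 0 0 0 S c 0
    have f9 := d2_eq q c S j h 0 0 0 0 0 1
    have f10 := d2_eq q c S j h 0 0 0 (c * n₁ + S * n₂) (-S * n₁ + c * n₂) 0
    rw [show c * (a₁ - c) - S * (a₂ + S) = c * a₁ - S * a₂ - 1 by linear_combination -h,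
      show S * (a₁ - c) + c * (a₂ + S) = S * a₁ + c * a₂ by ring] at f1
    rw [show c * (b₁ - S) - S * (b₂ - c) = c * b₁ - S * b₂ by ring,
      show S * (b₁ - S) + c * (b₂ - c) = S * b₁ + c * b₂ - 1 by linear_combination -h] at f3
    rw [show c * (0 : ℝ) - S * 0 = 0 by ring, show S * (0 : ℝ) + c * 0 = 0 by ring] at f5 f6 f9
    rw [show c * c - S * -S = 1 by linear_combination h, show S * c + c * -S = 0 by ring] at f7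
    rw [show c * S - S * c = 0 by ring, show S * S + c * c = 1 by linear_combination h] at f8
    rw [show c * (c * n₁ + S * n₂) - S * (-S * n₁ + c * n₂) = n₁ by linear_combination n₁ * h,
      show S * (c * n₁ + S * n₂) + c * (-S * n₁ + c * n₂) = n₂ by linear_combination n₂ * h] at f10
    rw [f1, f2, f3, f4, f5, f6, f7, f8, f9, f10, d1_eq q c S j h]
    generalize co q c S j = k at *
    simp only [Co.vin, Co.xt, Co.vout, Co.dd, Co.yy, Co.zz, Co.cc] at hv ⊢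
    have g1 : s * (k.z11 + k.z22) * (c ^ 2 + S ^ 2 - 1) = 0 := by rw [h]; ring
    have g2 : 2 * P * h₁₂ * (k.g1 * h₁₂ + k.g2 * h₂₂ - (k.e2 - w₂)) = 0 := by
      rw [show k.g1 * h₁₂ + k.g2 * h₂₂ - (k.e2 - w₂) = 0 by linear_combination c2]; ring
    have g3 : 2 * P * h₁₃ * (k.g1 * h₁₃ + k.g2 * h₂₃ + w₃) = 0 := by
      rw [show k.g1 * h₁₃ + k.g2 * h₂₃ + w₃ = 0 by linear_combination c3]; ring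
    linear_combination hv + g1 - g2 - g3


def zq (A B C y₁ y₂ : ℝ) : ℝ := A * y₁ ^ 2 + 2 * B * y₁ * y₂ + C * y₂ ^ 2

theorem ident (k : Co) (P c S T x₁₁ x₁₂ x₂₂ x₁₃ x₂₃ w₂ o a₁ a₂ b₁ b₂ e s κ N₁ N₂ A B C D E₁ E₂ β
    γ₁ γ₂ ω₁ ω₂ Δ : ℝ) (z11 : k.z11 = T * A) (z12 : k.z12 = T * B) (z22 : k.z22 = T * C)
    (z3 : k.z3 = T * D) (hw : k.e2 - w₂ = T * E₂) (h1 : E₁ = k.g1 * x₁₁ + k.g2 * x₁₂)
    (h2 : E₂ = k.g1 * x₁₂ + k.g2 * x₂₂) (h3 : β = -((1 + P) * x₁₁ + x₂₂))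
    (h4 : γ₁ = k.g1 * a₁ + k.g2 * b₁) (h5 : γ₂ = k.g1 * a₂ + k.g2 * b₂)
    (h6 : ω₁ = k.g1 * b₁ - (1 + P) * k.g2 * a₁) (h7 : ω₂ = k.g1 * b₂ - (1 + P) * k.g2 * a₂)
    (h8 : Δ = (1 + P) * k.g2 ^ 2 + k.g1 ^ 2) :
    Δ * (k.vin P c S (T * x₁₁) (T * x₁₂) (T * x₂₂) (T * β) w₂ a₁ a₂ b₁ b₂ e s +
      k.xt P a₁ a₂ b₁ b₂ s N₁ N₂ + k.vout P (T * x₁₃) (T * x₂₃) (T * o) +
      2 * k.c3 * ((1 + P) * (T * x₁₃) * -(κ * x₁₃) + T * x₂₃ * -(κ * x₂₃))) =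
    T * (T * (k.yy (E₂ + β * k.g2) (-((1 + P) * E₁ + β * k.g1)) + (1 + P) * k.yy E₁ E₂ +
        Δ * (k.y3 * β ^ 2 + k.y3 * ((1 + P) * x₁₃ ^ 2 + x₂₃ ^ 2) + k.yy x₁₃ x₂₃)) +
      (2 * k.cc (E₂ + β * k.g2) (-((1 + P) * E₁ + β * k.g1))
          (ω₁ - (S * k.g1 - (1 + P) * c * k.g2)) (ω₂ - (c * k.g1 + (1 + P) * S * k.g2)) +
        zq A B C (ω₁ - (S * k.g1 - (1 + P) * c * k.g2)) (ω₂ - (c * k.g1 + (1 + P) * S * k.g2)) -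
        zq A B C ω₁ ω₂) +
      (1 + P) * (2 * k.cc E₁ E₂ (γ₁ - (c * k.g1 + S * k.g2)) (γ₂ - (c * k.g2 - S * k.g1)) +
        zq A B C (γ₁ - (c * k.g1 + S * k.g2)) (γ₂ - (c * k.g2 - S * k.g1)) - zq A B C γ₁ γ₂) +
      Δ * (2 * k.c3 * β * (e - 1) + D * (1 - 2 * e)) +
      s * Δ * (A + C + D + P * zq A B C N₁ N₂) -
      2 * P * T * E₂ * ((1 + P) * k.g2 * E₁ + k.g1 * E₂ + β * k.g1 * k.g2) +
      Δ * (2 * P * T * x₁₃ * o - 2 * κ * k.c3 * ((1 + P) * x₁₃ ^ 2 + x₂₃ ^ 2))) := by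
  simp only [Co.vin, Co.xt, Co.vout, Co.dd, Co.yy, Co.zz, Co.cc, zq, hw, z11, z12, z22, z3]
  subst h1 h2 h3 h4 h5 h6 h7 h8
  ring

/-- the constraint on the coupling -/
theorem cons {P Δ σ g₁ g₂ χ θ ϱ γ₁ γ₂ ξ₁ ξ₂ t N₁ N₂ e κ x y β a₁ a₂ b₁ b₂ ω₁ ω₂ : ℝ} (P0 : 0 ≤ P)
    (d0 : 0 < Δ) (hd : Δ = (1 + P) * g₂ ^ 2 + g₁ ^ 2) (k0 : 0 ≤ κ) (hθ : θ ^ 2 ≤ 1)
    (hχ : (1 + P) * χ ^ 2 ≤ 1 + P * ϱ * (ξ₁ ^ 2 + ξ₂ ^ 2)) (hl : ϱ * (ξ₁ ^ 2 + ξ₂ ^ 2) ≤ 1)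
    (hN : N₁ ^ 2 + N₂ ^ 2 = 1) (x1 : ξ₁ = t * N₁) (x2 : ξ₂ = t * N₂)
    (hσ : σ = γ₁ ^ 2 + γ₂ ^ 2 + P * ϱ * (γ₂ * ξ₁ - γ₁ * ξ₂) ^ 2) (he : e ^ 2 * Δ ≤ σ)
    (o1 : ω₁ = γ₂ + P * ϱ * (γ₂ * ξ₁ - γ₁ * ξ₂) * ξ₁)
    (o2 : ω₂ = -γ₁ + P * ϱ * (γ₂ * ξ₁ - γ₁ * ξ₂) * ξ₂)
    (a1 : Δ * a₁ = g₁ * (χ * γ₁) - g₂ * (θ * ω₁)) (a2 : Δ * a₂ = g₁ * (χ * γ₂) - g₂ * (θ * ω₂))
    (b1 : Δ * b₁ = (1 + P) * g₂ * (χ * γ₁) + g₁ * (θ * ω₁))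
    (b2 : Δ * b₂ = (1 + P) * g₂ * (χ * γ₂) + g₁ * (θ * ω₂)) (v₁ v₂ v₃ : ℝ) :
    (1 + P) * (v₁ * a₁ + v₂ * a₂ + v₃ * -(κ * x)) ^ 2 + (v₁ * b₁ + v₂ * b₂ + v₃ * -(κ * y)) ^ 2 +
      (v₃ * (e - κ * β)) ^ 2 ≤
      ((1 + 3 * κ) * (σ / Δ) + (κ / 3 + κ ^ 2) * (β ^ 2 + ((1 + P) * x ^ 2 + y ^ 2))) *
        (v₁ ^ 2 + v₂ ^ 2 + v₃ ^ 2 + P * (v₁ * N₁ + v₂ * N₂) ^ 2) := by
  have s0 : 0 ≤ σ := le_trans (by positivity) he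
  obtain ⟨s, hs⟩ : ∃ s, s = σ / Δ := ⟨_, rfl⟩
  have hs' : σ = Δ * s := by rw [hs]; field_simp
  have s1 : 0 ≤ s := hs ▸ div_nonneg s0 d0.le
  have e1 : e ^ 2 ≤ s := by rw [hs, le_div_iff₀ d0]; exact he
  rw [← hs]
  obtain ⟨A, hA⟩ : ∃ A, A = v₁ * a₁ + v₂ * a₂ := ⟨_, rfl⟩
  obtain ⟨B, hB⟩ : ∃ B, B = v₁ * b₁ + v₂ * b₂ := ⟨_, rfl⟩
  obtain ⟨M, hM⟩ : ∃ M, M = (v₁ * N₁ + v₂ * N₂) ^ 2 := ⟨_, rfl⟩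
  have M0 : 0 ≤ M := hM ▸ sq_nonneg _
  have i1 : Δ * ((1 + P) * A ^ 2 + B ^ 2) =
      (1 + P) * χ ^ 2 * (v₁ * γ₁ + v₂ * γ₂) ^ 2 + θ ^ 2 * (v₁ * ω₁ + v₂ * ω₂) ^ 2 := by
    apply mul_left_cancel₀ d0.ne'
    have f1 : Δ * A = g₁ * (χ * (v₁ * γ₁ + v₂ * γ₂)) - g₂ * (θ * (v₁ * ω₁ + v₂ * ω₂)) := by
      rw [hA]; linear_combination v₁ * a1 + v₂ * a2
    have f2 : Δ * B = (1 + P) * g₂ * (χ * (v₁ * γ₁ + v₂ * γ₂)) + g₁ * (θ * (v₁ * ω₁ + v₂ * ω₂)) := by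
      rw [hB]; linear_combination v₁ * b1 + v₂ * b2
    calc _ = (1 + P) * (Δ * A) ^ 2 + (Δ * B) ^ 2 := by ring
      _ = _ := by rw [f1, f2, hd]; ring
  have i2 : (1 + P * ϱ * (ξ₁ ^ 2 + ξ₂ ^ 2)) * (v₁ * γ₁ + v₂ * γ₂) ^ 2 + (v₁ * ω₁ + v₂ * ω₂) ^ 2 =
      σ * (v₁ ^ 2 + v₂ ^ 2 + P * (ϱ * (v₁ * ξ₁ + v₂ * ξ₂) ^ 2)) := by
    rw [hσ, o1, o2]; ring
  have i3 : ϱ * (v₁ * ξ₁ + v₂ * ξ₂) ^ 2 ≤ M := by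
    have : ϱ * (v₁ * ξ₁ + v₂ * ξ₂) ^ 2 = ϱ * (ξ₁ ^ 2 + ξ₂ ^ 2) * M := by
      rw [x1, x2, hM]; linear_combination (-(ϱ * t ^ 2 * (v₁ * N₁ + v₂ * N₂) ^ 2)) * hN
    rw [this]
    exact mul_le_of_le_one_left M0 hl
  have i4 : (1 + P) * A ^ 2 + B ^ 2 ≤ s * (v₁ ^ 2 + v₂ ^ 2 + P * M) := by
    refine le_of_mul_le_mul_left ?_ d0
    have p1 := mul_le_mul_of_nonneg_right hχ (sq_nonneg (v₁ * γ₁ + v₂ * γ₂))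
    have p2 := mul_le_mul_of_nonneg_right hθ (sq_nonneg (v₁ * ω₁ + v₂ * ω₂))
    have p3 := mul_le_mul_of_nonneg_left (mul_le_mul_of_nonneg_left i3 P0) s0
    rw [i1, ← mul_assoc, ← hs']
    linear_combination p1 + p2 + p3 + i2
  rw [← hA, ← hB, ← hM]
  have q1 := mul_le_mul_of_nonneg_left i4 (show 0 ≤ 1 + 3 * κ by positivity)
  have q2 := mul_le_mul_of_nonneg_left e1 (show 0 ≤ (1 + 3 * κ) * v₃ ^ 2 by positivity)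
  have q3 : 0 ≤ (κ / 3 + κ ^ 2) * (β ^ 2 + ((1 + P) * x ^ 2 + y ^ 2)) * (v₁ ^ 2 + v₂ ^ 2 + P * M) := by
    positivity
  have q4 : 0 ≤ 3 * κ * ((1 + P) * (A + v₃ * x / 3) ^ 2 + (B + v₃ * y / 3) ^ 2 +
      (v₃ * (e + β / 3)) ^ 2) := by positivity
  linear_combination q1 + q2 + q3 + q4

theorem zid (P ϱ γ₁ γ₂ ξ₁ ξ₂ A B C : ℝ) :
    (γ₁ ^ 2 + γ₂ ^ 2 + P * ϱ * (γ₂ * ξ₁ - γ₁ * ξ₂) ^ 2) * (A + C + P * (ϱ * zq A B C ξ₁ ξ₂)) =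
      (1 + P * ϱ * (ξ₁ ^ 2 + ξ₂ ^ 2)) * zq A B C γ₁ γ₂ +
        zq A B C (γ₂ + P * ϱ * (γ₂ * ξ₁ - γ₁ * ξ₂) * ξ₁) (-γ₁ + P * ϱ * (γ₂ * ξ₁ - γ₁ * ξ₂) * ξ₂) := by
  simp only [zq]; ring

theorem zq_le {A B C S ζ N₁ N₂ : ℝ} (hN : N₁ ^ 2 + N₂ ^ 2 = 1) (hS : |S| ≤ 1) (h1 : A + |B| ≤ ζ)
    (h2 : C + |B| ≤ ζ) : zq A (S * B) C N₁ N₂ ≤ ζ := by
  have b : |S * B| ≤ |B| := by rw [abs_mul]; exact mul_le_of_le_one_left (abs_nonneg _) hS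
  have b' := abs_le.1 b
  have p1 := mul_nonneg (sub_nonneg.2 h1) (sq_nonneg N₁)
  have p2 := mul_nonneg (sub_nonneg.2 h2) (sq_nonneg N₂)
  have p3 := mul_nonneg (sub_nonneg.2 b'.2) (sq_nonneg (N₁ + N₂))
  have p4 := mul_nonneg (sub_nonneg.2 b'.1) (sq_nonneg (N₁ - N₂))
  simp only [zq]
  linear_combination p1 + p2 + p3 / 2 + p4 / 2 + ζ * hN

theorem ml {a b A B : ℝ} (ha : |a| ≤ A) (hb : |b| ≤ B) : |a * b| ≤ A * B := by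
  rw [abs_mul]
  exact mul_le_mul ha hb (abs_nonneg _) ((abs_nonneg _).trans ha)

/-- the entries outside the blocks -/
theorem out_le {Q Δ g₁ g₂ Γ A B C U o x y : ℝ} (Q1 : 1 ≤ Q) (Q4 : Q ≤ 4) (hd : Δ = Q * g₂ ^ 2 + g₁ ^ 2)
    (d0 : 1 / 2 ^ 10 ≤ Δ) (g1 : |g₁| ≤ 64) (g2 : |g₂| ≤ 64) (hΓ : Γ ≤ 64) (hA : |A| ≤ 64)
    (hB : |B| ≤ 64) (hC : |C| ≤ 64) (hU : |U| ≤ 64) (ho : |o| ≤ 1 / 2 ^ 94)
    (hc : g₁ * x + g₂ * y = -o) (hJ : zq A B C g₂ (-g₁) + Δ * Γ ≤ -(1 / 2 ^ 14)) :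
    Δ * (Γ * (Q * x ^ 2 + y ^ 2) + zq A B C x y + 2 * U * x * o) ≤ 1 / 2 ^ 30 := by
  have dp : 0 < Δ := lt_of_lt_of_le (by positivity) d0
  have Qa : |Q| ≤ 4 := abs_le.2 ⟨by linarith, Q4⟩
  have d1 : |Δ| ≤ 2 ^ 15 := by
    have := ml (ml Qa g2) g2
    have := ml g1 g1
    rw [show Δ = Q * g₂ * g₂ + g₁ * g₁ by rw [hd]; ring]
    exact (abs_add_le _ _).trans (by linarith)
  obtain ⟨b, hb⟩ : ∃ b, b = (g₁ * y - Q * g₂ * x) / Δ := ⟨_, rfl⟩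
  obtain ⟨u, hu⟩ : ∃ u, u = -o / Δ := ⟨_, rfl⟩
  have u1 : |u| ≤ 1 / 2 ^ 84 := by
    rw [hu, abs_div, abs_neg, abs_of_pos dp, div_le_iff₀ dp]
    linarith
  have eo : o = -(u * Δ) := by rw [hu]; field_simp
  have ex : x = -(b * g₂) + u * g₁ := by
    rw [hb, hu, ← neg_eq_iff_eq_neg.2 hc]; field_simp; rw [hd]; ring
  have ey : y = b * g₁ + u * Q * g₂ := by
    rw [hb, hu, ← neg_eq_iff_eq_neg.2 hc]; field_simp; rw [hd]; ring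
  obtain ⟨L, hL⟩ : ∃ L, L = u * (-(A * (g₁ * g₂)) + B * (g₁ * g₁) - B * (Q * g₂ * g₂) +
    C * (Q * g₂ * g₁) + U * (Δ * g₂)) := ⟨_, rfl⟩
  obtain ⟨K, hK⟩ : ∃ K, K = A * (g₁ * g₁) + 2 * (B * (Q * g₂ * g₁)) + C * (Q * g₂ * (Q * g₂)) -
    2 * (U * (Δ * g₁)) := ⟨_, rfl⟩
  have id : Γ * (Q * x ^ 2 + y ^ 2) + zq A B C x y + 2 * U * x * o =
      (zq A B C g₂ (-g₁) + Δ * Γ) * b ^ 2 + 2 * L * b + u ^ 2 * (Γ * (Q * Δ) + K) := by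
    rw [hL, hK, eo, ex, ey, hd]; simp only [zq]; ring
  have l1 : |L| ≤ 1 / 2 ^ 84 * 2 ^ 28 := by
    rw [hL]
    refine ml u1 (abs_le.2 ?_)
    have a1 := abs_le.1 (ml hA (ml g1 g2))
    have a2 := abs_le.1 (ml hB (ml g1 g1))
    have a3 := abs_le.1 (ml hB (ml (ml Qa g2) g2))
    have a4 := abs_le.1 (ml hC (ml (ml Qa g2) g1))
    have a5 := abs_le.1 (ml hU (ml d1 g2))
    constructor <;> linarith [a1.1, a1.2, a2.1, a2.2, a3.1, a3.2, a4.1, a4.2, a5.1, a5.2]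
  have k1 : Γ * (Q * Δ) + K ≤ 2 ^ 30 := by
    have a1 := abs_le.1 (ml hA (ml g1 g1))
    have a2 := abs_le.1 (ml hB (ml (ml Qa g2) g1))
    have a3 := abs_le.1 (ml hC (ml (ml Qa g2) (ml Qa g2)))
    have a4 := abs_le.1 (ml hU (ml d1 g1))
    have a5 := (abs_le.1 (ml Qa d1)).2
    have a6 := mul_le_mul_of_nonneg_right hΓ (show 0 ≤ Q * Δ by positivity)
    rw [hK]
    linarith [a1.2, a2.2, a3.2, a4.1]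
  have u2 : u ^ 2 ≤ 1 / 2 ^ 84 * (1 / 2 ^ 84) := by
    have := ml u1 u1
    rw [sq]; exact le_of_abs_le this
  have l2 : L ^ 2 ≤ 1 / 2 ^ 84 * 2 ^ 28 * (1 / 2 ^ 84 * 2 ^ 28) := by
    rw [sq]; exact le_of_abs_le (ml l1 l1)
  have r1 := mul_le_mul_of_nonneg_right hJ (sq_nonneg b)
  have r2 := mul_le_mul_of_nonneg_left k1 (sq_nonneg u)
  have r3 := sq_nonneg (b / 2 ^ 7 - L * 2 ^ 7)
  have r4 : Γ * (Q * x ^ 2 + y ^ 2) + zq A B C x y + 2 * U * x * o ≤ 1 / 2 ^ 50 := by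
    rw [id]; nlinarith
  have r5 := mul_le_mul_of_nonneg_left r4 dp.le
  linarith [(abs_le.1 d1).2]

section

variable {n : Hc} {S : ℝ} (a : Pa)

theorem dl_eq (hσ : n.σ = S ^ 2) (h : n.c ^ 2 + S ^ 2 = 1) :
    n.dl = n.Q * (S * n.p) ^ 2 + n.G ^ 2 := by
  simp only [Hc.dl, Hc.dh, Hc.Q, Hc.p, Hc.G, hσ]
  linear_combination -h

theorem sc_eq (hσ : n.σ = S ^ 2) : n.sc a = n.ga a ^ 2 + (n.η * S * a.γ2) ^ 2 +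
    n.η * n.ς * a.ϱ * (n.η * S * a.γ2 * n.r - n.ga a * -(S * n.D)) ^ 2 := by
  simp only [Hc.sc, Hc.sh, Hc.rV, Hc.V, Hc.ga, hσ]
  ring

theorem pc_g (hσ : n.σ = S ^ 2) (h : n.c ^ 2 + S ^ 2 = 1) (o₁ ω y₁ y₂ : ℝ)
    (h1 : y₁ = (1 - n.η * a.χ) * n.ga a - (n.c * n.G + S * (S * n.p)))
    (h2 : y₂ = (1 - n.η * a.χ) * (n.η * S * a.γ2) - (n.c * (S * n.p) - S * n.G)) :
    2 * (y₁ * (n.C11 * n.E o₁ + S * n.C12 * (S * n.Z3 + n.η * ω)) +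
      y₂ * (S * n.C21 * n.E o₁ + n.C22 * (S * n.Z3 + n.η * ω))) +
      zq n.Z11 (S * n.Z12) n.Z22 y₁ y₂ = n.η * n.Tg a o₁ (S * ω) := by
  have e1 : y₁ = n.u1 a := by
    simp only [h1, Hc.u1, Hc.f1, Hc.ga, Hc.p1, Hc.p, Hc.G, hσ]
    linear_combination -h
  have e2 : y₂ = n.η * S * n.u2 a := by
    simp only [h2, Hc.u2, Hc.p2, Hc.p, Hc.G]
    ring
  have e3 : n.C11 * n.E o₁ + S * n.C12 * (S * n.Z3 + n.η * ω) = 1 + n.η * n.CE1 o₁ (S * ω) := by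
    simp only [Hc.CE1, Hc.C11, Hc.C12, Hc.E, Hc.SE, Hc.Sh, Hc.Z3, hσ]
    linear_combination h
  have e4 : S * (S * n.C21 * n.E o₁ + n.C22 * (S * n.Z3 + n.η * ω)) =
      n.η * n.CE2 o₁ (S * ω) := by
    simp only [Hc.CE2, Hc.C21, Hc.C22, Hc.E, Hc.SE, Hc.Sh, Hc.Z3, hσ]
    ring
  have e5 : n.u1 a = -2 + n.η * n.f1 a := rfl
  rw [e1, e2, e3]
  simp only [Hc.Tg, zq, Hc.Z11, Hc.Z12, hσ]
  linear_combination (2 * n.η * n.u2 a) * e4 + n.u1 a * e5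

theorem pc_o (hσ : n.σ = S ^ 2) (h : n.c ^ 2 + S ^ 2 = 1) (x₁ x₂ y₁ y₂ : ℝ)
    (h1 : y₁ = (1 - n.η * a.θ) * (n.η * S * n.o1 a))
    (h2 : y₂ = (1 - n.η * a.θ) * (1 + n.η * n.o2 a)) :
    2 * ((y₁ - (S * n.G - n.Q * n.c * (S * n.p))) * (n.C11 * x₁ + S * n.C12 * x₂) +
      (y₂ - (n.c * n.G + n.Q * S * (S * n.p))) * (S * n.C21 * x₁ + n.C22 * x₂)) +
      zq n.Z11 (S * n.Z12) n.Z22 (y₁ - (S * n.G - n.Q * n.c * (S * n.p)))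
        (y₂ - (n.c * n.G + n.Q * S * (S * n.p))) - zq n.Z11 (S * n.Z12) n.Z22 y₁ y₂ =
    n.η * (2 * (n.D1 a * (n.C11 * (S * x₁) + n.σ * n.C12 * x₂) +
      n.D2 a * (n.C21 * (S * x₁) + n.C22 * x₂)) + n.η * n.zd a + 2 * a.θ * n.zo a) -
      zq n.Z11 (S * n.Z12) n.Z22 (n.η * S * n.o1 a) (1 + n.η * n.o2 a) := by
  have e1 : S * n.G - n.Q * n.c * (S * n.p) = n.η * S * n.am1 := by
    simp only [Hc.am1, Hc.p2, Hc.p, Hc.G, Hc.Q]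
    ring
  have e2 : n.c * n.G + n.Q * S * (S * n.p) = 1 + n.η * n.am2 := by
    simp only [Hc.am2, Hc.p1, Hc.p, Hc.G, Hc.Q, hσ]
    linear_combination h
  rw [e1, e2, h1, h2]
  simp only [zq, Hc.D1, Hc.D2, Hc.zd, Hc.zo, Hc.d1, Hc.d2, hσ]
  ring

theorem j_add (n : Hc) (o₁ o₂ o₃ β b : ℝ) : n.J0 a o₁ o₂ o₃ (β + b) =
    n.J0 a o₁ o₂ o₃ β + n.J1 a o₁ o₂ β * b + n.J2 a * b ^ 2 := by
  simp only [Hc.J0, Hc.J1, Hc.J2, Hc.XX, Hc.x1, Hc.x2, Hc.m1, Hc.m2]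
  ring

end

theorem keyR {P q c S T : ℝ} {j : J6} {n : Hc} (h : c ^ 2 + S ^ 2 = 1) (hT : 0 < T)
    (R : Rel (co q c S j) n P c S T)
    (H : ∀ o₁ o₂ o₃ : ℝ, |o₁| ≤ 1 / 2 ^ 100 → |o₂| ≤ 1 / 2 ^ 100 → |o₃| ≤ 1 / 2 ^ 100 →
      ∃ a : Pa, Ok n a ∧ n.J0 a o₁ o₂ o₃ a.β + 1 / 2 ^ 20 ≤ 0 ∧
        n.J1 a o₁ o₂ a.β ^ 2 ≤ 4 * (n.J0 a o₁ o₂ o₃ a.β + 1 / 2 ^ 20) * n.J2 a) :
    Key P q c S j (1 / 2 ^ 100 * n.η * T) := by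
  obtain ⟨a₀, k₀, -⟩ := H 0 0 0 (by simp) (by simp) (by simp)
  have η0 := k₀.η0
  refine key3 P q c S _ j h (lt_of_lt_of_eq k₀.p0 R.c3.symm) ?_
  generalize co q c S j = k at R
  intro h₁₁ h₁₂ h₁₃ h₂₂ h₂₃ h₃₃ w₁ w₂ w₃ N₁ N₂ t htr hw1 hw2 hw3 c1 c2 c3 hN x1 x2
  have hc := R.hc
  have hσ := R.hσ
  subst hc
  have S1 : |S| ≤ 1 := (sq_le_one_iff_abs_le_one S).1 (by linarith [sq_nonneg n.c])
  have tη : 0 < n.η * T := mul_pos η0 hT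
  have sm : ∀ w : ℝ, w ^ 2 ≤ (1 / 2 ^ 100 * n.η * T) ^ 2 → ∃ o, w = -(n.η * T * o) ∧
      |o| ≤ 1 / 2 ^ 100 := fun w hw => by
    refine ⟨-w / (n.η * T), by field_simp, ?_⟩
    rw [abs_div, abs_neg, abs_of_pos tη, div_le_iff₀ tη, ← mul_assoc]
    exact abs_le_of_sq_le_sq' hw (by positivity) |> abs_le.2
  obtain ⟨o₁, rfl, b1⟩ := sm w₁ hw1
  obtain ⟨ω, rfl, b2⟩ := sm w₂ hw2
  obtain ⟨o₃, rfl, b3⟩ := sm w₃ hw3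
  obtain ⟨x₁₁, rfl⟩ : ∃ x, h₁₁ = T * x := ⟨h₁₁ / T, by field_simp⟩
  obtain ⟨x₁₂, rfl⟩ : ∃ x, h₁₂ = T * x := ⟨h₁₂ / T, by field_simp⟩
  obtain ⟨x₂₂, rfl⟩ : ∃ x, h₂₂ = T * x := ⟨h₂₂ / T, by field_simp⟩
  obtain ⟨x, rfl⟩ : ∃ x, h₁₃ = T * x := ⟨h₁₃ / T, by field_simp⟩
  obtain ⟨y, rfl⟩ : ∃ x, h₂₃ = T * x := ⟨h₂₃ / T, by field_simp⟩
  obtain ⟨β, hβ⟩ : ∃ β, β = -((1 + P) * x₁₁ + x₂₂) := ⟨_, rfl⟩
  obtain rfl : h₃₃ = T * β := by rw [hβ]; linear_combination htr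
  obtain ⟨a, ok, j0, j1⟩ := H o₁ (S * ω) (ω ^ 2) b1 ((ml S1 b2).trans_eq (one_mul _))
    (by rw [sq]; exact (ml b2 b2).trans (by norm_num))
  have g1 : k.g1 = n.G := R.g1
  have g2 : k.g2 = S * n.p := R.g2
  have hQ : 1 + P = n.Q := by rw [R.hP]; rfl
  have P0 : 0 ≤ P := R.hP ▸ mul_nonneg η0.le ok.ς0
  have dp : 0 < n.dl := lt_of_lt_of_le (by positivity) ok.dl
  have hd : n.dl = (1 + P) * k.g2 ^ 2 + k.g1 ^ 2 := by rw [g1, g2, hQ]; exact dl_eq hσ h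
  have e1 : n.E o₁ = k.g1 * x₁₁ + k.g2 * x₁₂ := by
    apply mul_left_cancel₀ hT.ne'
    simp only [Hc.E, Hc.Eh]
    linear_combination -c1 - R.e1
  have e2 : S * n.Z3 + n.η * ω = k.g1 * x₁₂ + k.g2 * x₂₂ := by
    apply mul_left_cancel₀ hT.ne'
    simp only [Hc.Z3]
    linear_combination -c2 - R.e2
  have e3 : k.g1 * x + k.g2 * y = - -(n.η * o₃) := by
    apply mul_left_cancel₀ hT.ne'
    linear_combination c3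
  have hX : n.r ^ 2 + (-(S * n.D)) ^ 2 = n.X := by simp only [Hc.X, hσ]; ring
  have ξ1 : n.r = n.w * t * N₁ := by rw [R.r, ← x1]; ring
  have ξ2 : -(S * n.D) = n.w * t * N₂ := by
    rw [mul_assoc, x2, g2, Hc.D]; ring
  have κ0 : 0 ≤ n.η * a.k := mul_nonneg η0.le ok.k0
  have hq : (1 + P * a.ϱ * n.X) - (1 + P) * (1 - n.η * a.χ) ^ 2 = n.η * n.qh a := by
    simp only [Hc.qh, Hc.lam, Hc.Q, R.hP]; ring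
  have hs : n.sc a - (1 + n.η * a.e) ^ 2 * n.dl = n.η * n.sl a := by
    simp only [Hc.sl, Hc.sc, Hc.dl]; ring
  have he : (1 + n.η * a.e) ^ 2 * n.dl ≤ n.sc a := by linarith [mul_nonneg η0.le ok.sl]
  have s0 : 0 ≤ n.sc a := le_trans (by positivity) he
  have hσ' := sc_eq a hσ
  rw [← R.hP] at hσ'
  have o1 : n.η * S * n.o1 a = n.η * S * a.γ2 +
      P * a.ϱ * (n.η * S * a.γ2 * n.r - n.ga a * -(S * n.D)) * n.r := by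
    simp only [Hc.o1, Hc.rV, Hc.V, R.hP]; ring
  have o2 : 1 + n.η * n.o2 a = -n.ga a +
      P * a.ϱ * (n.η * S * a.γ2 * n.r - n.ga a * -(S * n.D)) * -(S * n.D) := by
    simp only [Hc.o2, Hc.rV, Hc.V, Hc.ga, R.hP, hσ]; ring
  obtain ⟨γ₁, r1⟩ : ∃ z, z = (1 - n.η * a.χ) * n.ga a := ⟨_, rfl⟩
  obtain ⟨γ₂, r2⟩ : ∃ z, z = (1 - n.η * a.χ) * (n.η * S * a.γ2) := ⟨_, rfl⟩
  obtain ⟨ω₁, r3⟩ : ∃ z, z = (1 - n.η * a.θ) * (n.η * S * n.o1 a) := ⟨_, rfl⟩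
  obtain ⟨ω₂, r4⟩ : ∃ z, z = (1 - n.η * a.θ) * (1 + n.η * n.o2 a) := ⟨_, rfl⟩
  obtain ⟨X, hx⟩ : ∃ z, z = (1 + P) * x ^ 2 + y ^ 2 := ⟨_, rfl⟩
  have X0 : 0 ≤ X := by rw [hx]; positivity
  have sol : ∀ u v : ℝ, ∃ p r : ℝ, n.dl * p = k.g1 * u - k.g2 * v ∧
      n.dl * r = (1 + P) * k.g2 * u + k.g1 * v ∧ u = k.g1 * p + k.g2 * r ∧
      v = k.g1 * r - (1 + P) * k.g2 * p := fun u v =>
    ⟨(k.g1 * u - k.g2 * v) / n.dl, ((1 + P) * k.g2 * u + k.g1 * v) / n.dl, by field_simp,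
      by field_simp, by field_simp; rw [hd]; ring, by field_simp; rw [hd]; ring⟩
  obtain ⟨a₁, b₁, s1, s2, s3, s4⟩ := sol γ₁ ω₁
  obtain ⟨a₂, b₂, t1, t2, t3, t4⟩ := sol γ₂ ω₂
  refine ⟨(1 + 3 * (n.η * a.k)) * (n.sc a / n.dl) + (n.η * a.k / 3 + (n.η * a.k) ^ 2) * (β ^ 2 + X),
    a₁, a₂, -(n.η * a.k * x), b₁, b₂, -(n.η * a.k * y), 1 + n.η * a.e - n.η * a.k * β,
    by positivity, hx ▸ cons P0 dp hd κ0 (θ := 1 - n.η * a.θ)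
      (by linarith only [mul_nonneg (mul_nonneg η0.le ok.θ0) (sub_nonneg.2 ok.θ1)]) (χ := 1 - n.η * a.χ)
      (by rw [hX]; linarith [mul_nonneg η0.le ok.qh]) (by rw [hX]; exact sub_nonneg.1 ok.lam)
      hN ξ1 ξ2 hσ' he o1 o2 (r1 ▸ r3 ▸ s1) (r2 ▸ r4 ▸ t1) (r1 ▸ r3 ▸ s2) (r2 ▸ r4 ▸ t2), ?_⟩
  have id := ident k P n.c S T x₁₁ x₁₂ x₂₂ x y (-(n.η * T * ω)) (-(n.η * o₃)) a₁ a₂ b₁ b₂
    (1 + n.η * a.e - n.η * a.k * β) ((1 + 3 * (n.η * a.k)) * (n.sc a / n.dl) +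
      (n.η * a.k / 3 + (n.η * a.k) ^ 2) * (β ^ 2 + X)) (n.η * a.k) N₁ N₂ n.Z11 (S * n.Z12) n.Z22
    n.Z3 _ _ β γ₁ γ₂ ω₁ ω₂ n.dl R.z11 (by rw [R.z12, Hc.Z12]; ring) R.z22 R.z3
    (by rw [R.e2, Hc.Z3]; ring) e1 e2 hβ s3 t3 s4 t4 hd
  rw [show T * -(n.η * o₃) = -(n.η * T * o₃) by ring, ← hx] at id
  have pg := pc_g a hσ h o₁ ω _ _ (congrArg (· - (n.c * n.G + S * (S * n.p))) r1)
    (congrArg (· - (n.c * (S * n.p) - S * n.G)) r2)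
  have po := pc_o a hσ h (S * n.Z3 + n.η * ω + β * (S * n.p)) (-(n.Q * n.E o₁ + β * n.G)) _ _ r3 r4
  have pz := zid P a.ϱ (n.ga a) (n.η * S * a.γ2) n.r (-(S * n.D)) n.Z11 (S * n.Z12) n.Z22
  rw [← hσ', ← o1, ← o2, hX] at pz
  have zg : zq n.Z11 (S * n.Z12) n.Z22 (n.ga a) (n.η * S * a.γ2) = n.zg a := by
    simp only [zq, Hc.zg, hσ]; ring
  have zc : zq n.Z11 (S * n.Z12) n.Z22 γ₁ γ₂ = (1 - n.η * a.χ) ^ 2 * n.zg a := by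
    rw [← zg, r1, r2]; simp only [zq]; ring
  have zx : zq n.Z11 (S * n.Z12) n.Z22 n.r (-(S * n.D)) = n.X * zq n.Z11 (S * n.Z12) n.Z22 N₁ N₂ := by
    rw [← hX, ξ2, ξ1]; simp only [zq]
    linear_combination (-((n.w * t) ^ 2 *
      (n.Z11 * N₁ ^ 2 + 2 * (S * n.Z12) * N₁ * N₂ + n.Z22 * N₂ ^ 2))) * hN
  rw [zg, zx] at pz
  have zN := sub_nonneg.2 (zq_le hN S1 ok.z1 ok.z2)
  generalize zq n.Z11 (S * n.Z12) n.Z22 N₁ N₂ = Y at id pz zN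
  have se : S * (S * n.Z3 + n.η * ω) = n.SE (S * ω) := by
    simp only [Hc.SE, Hc.Sh, Hc.Z3, hσ]; ring
  have ee : (S * n.Z3 + n.η * ω) ^ 2 = n.EE (S * ω) (ω ^ 2) := by
    simp only [Hc.EE, ← se]; ring
  have ou := out_le (Q := 1 + P) (U := n.ς * n.W) (by linarith) (by linarith [ok.P1, R.hP]) hd ok.dl
    (g1 ▸ ok.G1) (g2 ▸ (ml S1 (abs_le.2 ⟨by linarith [ok.p0], ok.p1⟩)).trans_eq (one_mul _)) ok.Γ1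
    ok.n11 ((ml S1 ok.n12).trans_eq (one_mul _)) ok.n22
    (abs_le.2 ⟨by linarith [mul_nonneg ok.ς0 (R.hW ▸ (mul_pos ok.w0 hT).le : 0 ≤ n.W)], ok.W1⟩)
    (o := -(n.η * o₃)) (by
      rw [abs_neg]
      exact (ml (abs_le.2 ⟨by linarith, ok.η1⟩) b3).trans (by norm_num)) e3 (by
      refine le_of_eq_of_le ?_ ok.J2
      simp only [zq, g1, g2, Hc.J2, Hc.m1, Hc.m2, hσ]; ring)
  rw [← hx] at ou
  have jβ : n.J0 a o₁ (S * ω) (ω ^ 2) β + 1 / 2 ^ 20 ≤ 0 := by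
    have := psd _ (-n.J1 a o₁ (S * ω) a.β / 2) (-n.J2 a) 1 (β - a.β) (neg_nonneg.2 j0)
      (by linarith [ok.J2]) (by linarith)
    rw [show β = a.β + (β - a.β) by ring, j_add]
    linarith
  have u1 := mul_nonneg ok.w0.le (mul_nonneg (mul_nonneg P0 zN) (show 0 ≤ n.sc a * n.lam a +
    3 * (n.η * a.k) * n.sc a + (n.η * a.k / 3 + (n.η * a.k) ^ 2) * (β ^ 2 + X) * n.dl by
      have := ok.lam; positivity))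
  have d1 : n.w * n.dl ≤ 2 ^ 15 := by
    have := ml (ml (abs_le.2 ⟨by linarith, by linarith [ok.P1, R.hP]⟩ : |1 + P| ≤ 4)
      (ml S1 (abs_le.2 ⟨by linarith [ok.p0], ok.p1⟩ : |n.p| ≤ 64)))
      (ml S1 (abs_le.2 ⟨by linarith [ok.p0], ok.p1⟩ : |n.p| ≤ 64))
    have h2 := ml ok.G1 ok.G1
    have h3 : n.dl ≤ 2 ^ 15 := by
      rw [hd, g1, g2]; linarith [le_of_abs_le this, le_of_abs_le h2]
    exact (mul_le_of_le_one_left dp.le ok.w1).trans h3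
  refine le_of_mul_le_mul_left ?_ (mul_pos ok.w0 dp)
  rw [mul_assoc n.w, id]
  have fin : n.η * (n.J0 a o₁ (S * ω) (ω ^ 2) β + n.dl * (n.Γ a * X +
      zq n.n11 (S * n.n12) n.n22 x y + 2 * (n.ς * n.W) * x * -(n.η * o₃))) ≤
      -(n.η * (1 / 2 ^ 100 * (n.w * n.dl))) := by
    rw [← mul_neg n.η (1 / 2 ^ 100 * _)]
    refine mul_le_mul_of_nonneg_left ?_ η0.le
    linarith only [jβ, ou, d1]
  have fin := mul_le_mul_of_nonneg_left fin hT.le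
  have u1 := mul_nonneg hT.le u1
  have sd : n.sc a / n.dl * n.dl = n.sc a := by field_simp
  have y11 := R.y11
  have y12 := R.y12
  have y22 := R.y22
  have y3 := R.y3
  have hW := R.hW
  have c11 : k.c11 = n.C11 := R.c11
  have c12 : k.c12 = S * n.C12 := R.c12
  have c21 : k.c21 = S * n.C21 := R.c21
  have c22 : k.c22 = n.C22 := R.c22
  have c33 : k.c3 = n.p := R.c3
  rw [hW] at y11 y12 y22 y3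
  simp only [Co.yy, Co.cc, g1, g2, c11, c12, c21, c22, c33, hQ, zc]
  simp only [Hc.J0, Hc.XX, Hc.x1, Hc.x2, Hc.Γ, Hc.Zt, ← se, ← ee, hW, hσ, zq] at fin
  rw [hQ] at hq
  rw [hσ] at po
  simp only [Hc.lam] at u1 fin
  have hP := R.hP
  generalize S * n.Z3 + n.η * ω = E₂ at *
  subst hP
  linear_combination fin + u1 + T * n.w * po + T * n.w * n.Q * pg + T * n.w * pz +
    T * n.w * n.zg a * hq + T * n.w * n.Z3 * hs +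
    T * n.w * (1 + 3 * (n.η * a.k)) * (n.Z11 + n.Z22 + n.Z3 + n.η * n.ς * Y) * sd +
    T * ((E₂ + β * (S * n.p)) ^ 2 + n.Q * n.E o₁ ^ 2 + n.dl * x ^ 2) * y11 +
    T * 2 * ((E₂ + β * (S * n.p)) * -(n.Q * n.E o₁ + β * n.G) + n.Q * n.E o₁ * E₂ +
      n.dl * x * y) * y12 +
    T * ((n.Q * n.E o₁ + β * n.G) ^ 2 + n.Q * E₂ ^ 2 + n.dl * y ^ 2) * y22 +
    T * n.dl * (β ^ 2 + X) * y3

end Pool.Agent.MP_815c6c_an.W.KE
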