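import Pool.Agent.MP_815c6c_an.W.AA
import Pool.Agent.MP_815c6c_an.W.KeyE

/-! The scalar inequalities of `keyR`, checked on a box by Taylor models. -/

set_option autoImplicit false
set_option exponentiation.threshold 4000

noncomputable section

namespace Pool.Agent.MP_815c6c_an.W.KB

open AA KE KR

/-- one more unit of remainder -/
def wN (p : N) : N := ⟨p.x, Nat.succ p.r, p.n1, p.n2, p.k, p.n, Nat.succ p.m⟩

theorem wN_ok {t : Pt} {p : N} {y o : ℝ} (h : RN t p y) (g : |o| * 2 ^ 48 ≤ 1) :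
    RN t (wN p) (y + o) := by
  refine ⟨Nat.le_add_left _ _, h.nr.trans (Nat.mul_le_mul_left _ (Nat.le_succ _)), h.hk,
    congrArg Nat.succ h.hm, fun k => ?_⟩
  obtain ⟨v, v1, v2, v3, v4, v5⟩ := h.ex k
  refine ⟨v, v1, v2, v3, v4, ?_⟩
  change _ ≤ ((p.r + 1 : ℕ) : ℝ)
  rw [Nat.cast_succ, abs_le] at *
  constructor <;> linarith [v5.1, v5.2, le_abs_self o, neg_abs_le o]

theorem wA_ok {t : Pt} {a : A} {y o : ℝ} (h : RA t a y) (g : |o| * 2 ^ 48 ≤ 1) :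
    RA t (wid 1 a) (y + o) := wid_ok 1 h (by rwa [add_sub_cancel_left, Nat.cast_one])

/-- a lower bound -/
def low (a : A) : ℕ := Nat.sub (lane a.x) (Nat.add (Nat.add ch (Nat.add (nrm a).k a.r))
  (Nat.shiftLeft (Nat.shiftRight a.r 58) 143))

theorem low_ok {t : Pt} {a : A} {y : ℝ} (h : RA t a y) (g : 0 < low a) : low a ≤ y * 2 ^ 48 := by
  have e : low a = lane a.x - (2 ^ 143 + ((nrm a).n1 + (nrm a).n2 + a.r) + a.r >>> 58 <<< 143) := rfl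
  have l : lane a.x < 2 ^ 144 := Nat.mod_lt _ (Nat.two_pow_pos _)
  rw [Nat.shiftLeft_eq, Nat.shiftRight_eq_div_pow] at e
  obtain ⟨v, v1, v2, v3⟩ := h.ex (by omega)
  obtain ⟨n0, -, n1, n2⟩ := norms v1 v2
  have a1 : |e1 t v| ≤ (nrm a).n1 := e1_le t n1
  have a2 : |e2 t v| ≤ (nrm a).n2 := e2_le t n2
  have a3 : ((low a + (nrm a).n1 + (nrm a).n2 + a.r : ℤ) : ℝ) ≤ v 0 := Int.cast_le.2 (by omega)
  push_cast at a3
  rw [ev] at v3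
  linarith [abs_le.1 a1, abs_le.1 a2, abs_le.1 v3]

theorem bd {t : Pt} {p : N} {y : ℝ} (h : RN t p y) (g : Nat.ble p.m 18014398509481984 = true) :
    |y| ≤ 64 := by
  have a := Nat.le_of_ble_eq_true g
  have b : (p.m : ℝ) ≤ 18014398509481984 := by exact_mod_cast a
  linarith [h.le (by omega)]

/-- the coefficients -/
structure HN : Type where
  c : N
  sg : N
  et : N
  vs : N
  w : N
  wT : N
  g : N
  ch : N
  r : N
  e : N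
  n11 : N
  n12 : N
  n22 : N
  n3 : N
  c11 : N
  c12 : N
  c21 : N
  c22 : N
  z11 : N
  z12 : N
  z22 : N
  z3 : N

structure RH (t : Pt) (x : HN) (n : Hc) : Prop where
  c : RN t x.c n.c
  sg : RN t x.sg n.σ
  et : RN t x.et n.η
  vs : RN t x.vs n.ς
  w : RN t x.w n.w
  wT : RN t x.wT n.W
  g : RN t x.g n.g
  ch : RN t x.ch n.ch
  r : RN t x.r n.r
  e : RN t x.e n.e
  n11 : RN t x.n11 n.n11
  n12 : RN t x.n12 n.n12
  n22 : RN t x.n22 n.n22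
  n3 : RN t x.n3 n.n3
  c11 : RN t x.c11 n.c11
  c12 : RN t x.c12 n.c12
  c21 : RN t x.c21 n.c21
  c22 : RN t x.c22 n.c22
  z11 : RN t x.z11 n.z11
  z12 : RN t x.z12 n.z12
  z22 : RN t x.z22 n.z22
  z3 : RN t x.z3 n.z3

/-- first block -/
structure AN : Type where
  P : N
  Q : N
  p : N
  G : N
  dh : N
  dl : N
  am1 : N
  am2 : N
  D : N
  sp : N
  sD : N
  Z11 : N
  Z22 : N
  Z3 : N
  Z12 : N
  sZ : N
  es : N
  m1 : N
  m2 : N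
  sW : N
  p1 : A
  p2 : A
  X : A

structure RAN (t : Pt) (x : AN) (n : Hc) : Prop where
  P : RN t x.P (n.η * n.ς)
  Q : RN t x.Q n.Q
  p : RN t x.p n.p
  G : RN t x.G n.G
  dh : RN t x.dh n.dh
  dl : RN t x.dl n.dl
  am1 : RN t x.am1 n.am1
  am2 : RN t x.am2 n.am2
  D : RN t x.D n.D
  sp : RN t x.sp (n.σ * n.p)
  sD : RN t x.sD (n.σ * n.D)
  Z11 : RN t x.Z11 n.Z11
  Z22 : RN t x.Z22 n.Z22
  Z3 : RN t x.Z3 n.Z3
  Z12 : RN t x.Z12 n.Z12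
  sZ : RN t x.sZ (n.σ * n.Z12)
  es : RN t x.es (n.η * n.σ)
  m1 : RN t x.m1 n.m1
  m2 : RN t x.m2 n.m2
  sW : RN t x.sW (n.ς * n.W)
  p1 : RA t x.p1 n.p1
  p2 : RA t x.p2 n.p2
  X : RA t x.X n.X

def bA (x : HN) : AN :=
  let P := nrm (rnd (mul x.et x.vs))
  let Q := nrm (add one P.toA)
  let p := nrm (add one (rnd (mul x.et x.ch)))
  let G := nrm (add x.c.toA (rnd (mul x.et x.g)))
  let vp := nrm (rnd (mul x.vs p))
  let t1 := nrm (add (rnd (add (mul vp p) (mul x.ch p))) x.ch.toA)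
  let cg := mul x.c x.g
  let dh := nrm (rnd (add (add (mul x.sg t1) cg) (mul x.g G)))
  let dl := nrm (add one (rnd (mul x.et dh)))
  let p1 := rnd (add cg (mul x.sg x.ch))
  let p2 := sub (rnd (mul x.c x.ch)) x.g.toA
  let am1 := nrm (neg (add p2 (rnd (mul x.c vp))))
  let am2 := nrm (add p1 (rnd (mul x.sg vp)))
  let D := nrm (rnd (mul x.w p))
  let sp := nrm (rnd (mul x.sg p))
  let sD := nrm (rnd (mul x.sg D))
  let X := rnd (add (mul x.r x.r) (mul sD D))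
  let Z11 := nrm (add one (rnd (mul x.et x.z11)))
  let Z22 := nrm (add one (rnd (mul x.et x.z22)))
  let Z3 := nrm (add one (rnd (mul x.et x.z3)))
  let Z12 := nrm (rnd (mul x.et x.z12))
  let sZ := nrm (rnd (mul x.sg Z12))
  let es := nrm (rnd (mul x.et x.sg))
  let m1 := nrm (rnd (sub (mul x.n11 p) (mul x.n12 G)))
  let m2 := nrm (rnd (sub (mul sp x.n12) (mul x.n22 G)))
  let sW := nrm (rnd (mul x.vs x.wT))
  ⟨P, Q, p, G, dh, dl, am1, am2, D, sp, sD, Z11, Z22, Z3, Z12, sZ, es, m1, m2, sW, p1, p2, X⟩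

theorem bA_ok {t : Pt} {n : Hc} {x : HN} (hx : RH t x n)  :
    RAN t (bA x) n := by
  unfold bA
  extract_lets P Q p G vp t1 cg dh dl p1 p2 am1 am2 D sp sD X Z11 Z22 Z3 Z12 sZ es m1 m2 sW
  have hP : RN t P (n.η * n.ς) := (nrm_ok (rnd_ok (mul_ok hx.et hx.vs))).cast (by ring)
  have hQ : RN t Q n.Q := (nrm_ok (add_ok one_ok hP.toA)).cast (rfl)
  have hp : RN t p n.p := (nrm_ok (add_ok one_ok (rnd_ok (mul_ok hx.et hx.ch)))).cast (rfl)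
  have hG : RN t G n.G := (nrm_ok (add_ok hx.c.toA (rnd_ok (mul_ok hx.et hx.g)))).cast (rfl)
  have hvp : RN t vp _ := nrm_ok (rnd_ok (mul_ok hx.vs hp))
  have ht1 : RN t t1 _ := nrm_ok (add_ok (rnd_ok (add_ok (mul_ok hvp hp) (mul_ok hx.ch hp)))
    hx.ch.toA)
  have hcg : RW t cg _ := mul_ok hx.c hx.g
  have hdh : RN t dh n.dh := (nrm_ok (rnd_ok (add_ok (add_ok (mul_ok hx.sg ht1) hcg) (mul_ok hx.g
    hG)))).cast (by simp only [Hc.dh]; ring)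
  have hdl : RN t dl n.dl := (nrm_ok (add_ok one_ok (rnd_ok (mul_ok hx.et hdh)))).cast (rfl)
  have hp1 : RA t p1 n.p1 := (rnd_ok (add_ok hcg (mul_ok hx.sg hx.ch))).cast (rfl)
  have hp2 : RA t p2 n.p2 := (sub_ok (rnd_ok (mul_ok hx.c hx.ch)) hx.g.toA).cast (rfl)
  have ham1 : RN t am1 n.am1 := (nrm_ok (neg_ok (add_ok hp2 (rnd_ok (mul_ok hx.c hvp))))).cast
    (by simp only [Hc.am1]; ring)
  have ham2 : RN t am2 n.am2 := (nrm_ok (add_ok hp1 (rnd_ok (mul_ok hx.sg hvp)))).cast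
    (by simp only [Hc.am2]; ring)
  have hD : RN t D n.D := (nrm_ok (rnd_ok (mul_ok hx.w hp))).cast (rfl)
  have hsp : RN t sp (n.σ * n.p) := (nrm_ok (rnd_ok (mul_ok hx.sg hp))).cast (rfl)
  have hsD : RN t sD (n.σ * n.D) := (nrm_ok (rnd_ok (mul_ok hx.sg hD))).cast (rfl)
  have hX : RA t X n.X := (rnd_ok (add_ok (mul_ok hx.r hx.r) (mul_ok hsD hD))).cast
    (by simp only [Hc.X]; ring)
  have hZ11 : RN t Z11 n.Z11 := (nrm_ok (add_ok one_ok (rnd_ok (mul_ok hx.et hx.z11)))).cast (rfl)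
  have hZ22 : RN t Z22 n.Z22 := (nrm_ok (add_ok one_ok (rnd_ok (mul_ok hx.et hx.z22)))).cast (rfl)
  have hZ3 : RN t Z3 n.Z3 := (nrm_ok (add_ok one_ok (rnd_ok (mul_ok hx.et hx.z3)))).cast (rfl)
  have hZ12 : RN t Z12 n.Z12 := (nrm_ok (rnd_ok (mul_ok hx.et hx.z12))).cast (rfl)
  have hsZ : RN t sZ (n.σ * n.Z12) := (nrm_ok (rnd_ok (mul_ok hx.sg hZ12))).cast (rfl)
  have hes : RN t es (n.η * n.σ) := (nrm_ok (rnd_ok (mul_ok hx.et hx.sg))).cast (rfl)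
  have hm1 : RN t m1 n.m1 := (nrm_ok (rnd_ok (sub_ok (mul_ok hx.n11 hp) (mul_ok hx.n12 hG)))).cast
    (rfl)
  have hm2 : RN t m2 n.m2 := (nrm_ok (rnd_ok (sub_ok (mul_ok hsp hx.n12) (mul_ok hx.n22 hG)))).cast
    (by simp only [Hc.m2]; ring)
  have hsW : RN t sW (n.ς * n.W) := (nrm_ok (rnd_ok (mul_ok hx.vs hx.wT))).cast (rfl)
  exact ⟨hP, hQ, hp, hG, hdh, hdl, ham1, ham2, hD, hsp, hsD, hZ11, hZ22, hZ3, hZ12, hsZ, hes, hm1,
    hm2, hsW, hp1, hp2, hX⟩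

/-- second block -/
structure DN : Type where
  C11 : N
  C21 : N
  C22 : N
  sC : N
  ya : N
  yb : N
  b1 : N
  b2 : N
  Eh : N
  E : N
  Sh : N
  SE : N
  EE : N
  QE : N
  pS : N
  b4 : N
  ce1 : A
  ce2 : A
  ce3 : A

structure RDN (t : Pt) (x : DN) (n : Hc) (o₁ o₂ o₃ : ℝ) : Prop where
  C11 : RN t x.C11 n.C11
  C21 : RN t x.C21 n.C21
  C22 : RN t x.C22 n.C22
  sC : RN t x.sC (n.σ * n.C12)
  ya : RN t x.ya (n.σ * (n.η * n.Z11 * n.am1 + n.Z12 * (1 + n.η * n.am2)))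
  yb : RN t x.yb (n.η * n.σ * n.Z12 * n.am1 + n.Z22 * (1 + n.η * n.am2))
  b1 : RN t x.b1 (n.σ * (n.C11 * n.p - n.C12 * n.G))
  b2 : RN t x.b2 (n.σ * n.C21 * n.p - n.C22 * n.G)
  Eh : RN t x.Eh (n.Eh o₁)
  E : RN t x.E (n.E o₁)
  Sh : RN t x.Sh (n.Sh o₂)
  SE : RN t x.SE (n.SE o₂)
  EE : RN t x.EE (n.EE o₂ o₃)
  QE : RN t x.QE (n.Q * n.E o₁)
  pS : RN t x.pS (n.p * n.SE o₂)
  b4 : RN t x.b4 (n.G * n.p * n.SE o₂)
  ce1 : RW t x.ce1 (n.CE1 o₁ o₂ - n.Sh o₂)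
  ce2 : RW t x.ce2 (n.c21 * n.E o₁)
  ce3 : RW t x.ce3 (n.c * n.Sh o₂ + n.c22 * n.SE o₂)

def bD (x : HN) (y : AN) : DN :=
  let C11 := nrm (add x.c.toA (rnd (mul x.et x.c11)))
  let C21 := nrm (sub (rnd (mul x.et x.c21)) one)
  let C22 := nrm (add x.c.toA (rnd (mul x.et x.c22)))
  let sC := nrm (add x.sg.toA (rnd (mul y.es x.c12)))
  let sea := nrm (rnd (mul y.es y.am1))
  let A2 := nrm (add one (rnd (mul x.et y.am2)))
  let ya := nrm (rnd (add (mul y.Z11 sea) (mul y.sZ A2)))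
  let yb := nrm (rnd (add (mul y.Z12 sea) (mul y.Z22 A2)))
  let b1 := nrm (rnd (sub (mul C11 y.sp) (mul sC y.G)))
  let b2 := nrm (rnd (sub (mul y.sp C21) (mul C22 y.G)))
  let Eh := wN x.e
  let E := nrm (add x.c.toA (rnd (mul x.et Eh)))
  let Sh := nrm (wid 1 (rnd (mul x.sg x.z3)))
  let SE := nrm (add x.sg.toA (rnd (mul x.et Sh)))
  let EE := nrm (wid 1 (rnd (mul y.Z3 (wN SE))))
  let QE := nrm (rnd (mul y.Q E))
  let pS := nrm (rnd (mul y.p SE))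
  let b4 := nrm (rnd (mul y.G pS))
  let ce1 := add (add (mul x.c Eh) (mul x.c11 E)) (mul x.c12 SE)
  let ce2 := mul x.c21 E
  let ce3 := add (mul x.c Sh) (mul x.c22 SE)
  ⟨C11, C21, C22, sC, ya, yb, b1, b2, Eh, E, Sh, SE, EE, QE, pS, b4, ce1, ce2, ce3⟩

theorem bD_ok {t : Pt} {n : Hc} {o₁ o₂ o₃ : ℝ} {x : HN} {y : AN} (hx : RH t x n) (hy : RAN t y n)
    (g1 : |o₁| * 2 ^ 48 ≤ 1) (g2 : |o₂| * 2 ^ 48 ≤ 1) (g3 : |n.η * o₂| * 2 ^ 48 ≤ 1) (g4 : |n.η ^ 2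
    * o₃| * 2 ^ 48 ≤ 1) :
    RDN t (bD x y) n o₁ o₂ o₃ := by
  unfold bD
  extract_lets C11 C21 C22 sC sea A2 ya yb b1 b2 Eh E Sh SE EE QE pS b4 ce1 ce2 ce3
  have hC11 : RN t C11 n.C11 := (nrm_ok (add_ok hx.c.toA (rnd_ok (mul_ok hx.et hx.c11)))).cast
    (rfl)
  have hC21 : RN t C21 n.C21 := (nrm_ok (sub_ok (rnd_ok (mul_ok hx.et hx.c21)) one_ok)).cast
    (by simp only [Hc.C21]; ring)
  have hC22 : RN t C22 n.C22 := (nrm_ok (add_ok hx.c.toA (rnd_ok (mul_ok hx.et hx.c22)))).cast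
    (rfl)
  have hsC : RN t sC (n.σ * n.C12) := (nrm_ok (add_ok hx.sg.toA (rnd_ok (mul_ok hy.es
    hx.c12)))).cast (by simp only [Hc.C12]; ring)
  have hsea : RN t sea _ := nrm_ok (rnd_ok (mul_ok hy.es hy.am1))
  have hA2 : RN t A2 _ := nrm_ok (add_ok one_ok (rnd_ok (mul_ok hx.et hy.am2)))
  have hya : RN t ya (n.σ * (n.η * n.Z11 * n.am1 + n.Z12 * (1 + n.η * n.am2))) := (nrm_ok (rnd_ok
    (add_ok (mul_ok hy.Z11 hsea) (mul_ok hy.sZ hA2)))).cast (by ring)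
  have hyb : RN t yb (n.η * n.σ * n.Z12 * n.am1 + n.Z22 * (1 + n.η * n.am2)) := (nrm_ok (rnd_ok
    (add_ok (mul_ok hy.Z12 hsea) (mul_ok hy.Z22 hA2)))).cast (by ring)
  have hb1 : RN t b1 (n.σ * (n.C11 * n.p - n.C12 * n.G)) := (nrm_ok (rnd_ok (sub_ok (mul_ok hC11
    hy.sp) (mul_ok hsC hy.G)))).cast (by ring)
  have hb2 : RN t b2 (n.σ * n.C21 * n.p - n.C22 * n.G) := (nrm_ok (rnd_ok (sub_ok (mul_ok hy.sp
    hC21) (mul_ok hC22 hy.G)))).cast (by ring)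
  have hEh : RN t Eh (n.Eh o₁) := (wN_ok hx.e g1).cast (rfl)
  have hE : RN t E (n.E o₁) := (nrm_ok (add_ok hx.c.toA (rnd_ok (mul_ok hx.et hEh)))).cast (rfl)
  have hSh : RN t Sh (n.Sh o₂) := (nrm_ok (wA_ok (rnd_ok (mul_ok hx.sg hx.z3)) g2)).cast (rfl)
  have hSE : RN t SE (n.SE o₂) := (nrm_ok (add_ok hx.sg.toA (rnd_ok (mul_ok hx.et hSh)))).cast
    (rfl)
  have hEE : RN t EE (n.EE o₂ o₃) := (nrm_ok (wA_ok (rnd_ok (mul_ok hy.Z3 (wN_ok hSE g3)))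
    g4)).cast (rfl)
  have hQE : RN t QE (n.Q * n.E o₁) := (nrm_ok (rnd_ok (mul_ok hy.Q hE))).cast (rfl)
  have hpS : RN t pS (n.p * n.SE o₂) := (nrm_ok (rnd_ok (mul_ok hy.p hSE))).cast (rfl)
  have hb4 : RN t b4 (n.G * n.p * n.SE o₂) := (nrm_ok (rnd_ok (mul_ok hy.G hpS))).cast (by ring)
  have hce1 : RW t ce1 (n.CE1 o₁ o₂ - n.Sh o₂) := (add_ok (add_ok (mul_ok hx.c hEh) (mul_ok hx.c11
    hE)) (mul_ok hx.c12 hSE)).cast (by simp only [Hc.CE1]; ring)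
  have hce2 : RW t ce2 (n.c21 * n.E o₁) := (mul_ok hx.c21 hE).cast (rfl)
  have hce3 : RW t ce3 (n.c * n.Sh o₂ + n.c22 * n.SE o₂) := (add_ok (mul_ok hx.c hSh) (mul_ok
    hx.c22 hSE)).cast (rfl)
  exact ⟨hC11, hC21, hC22, hsC, hya, hyb, hb1, hb2, hEh, hE, hSh, hSE, hEE, hQE, hpS, hb4, hce1,
    hce2, hce3⟩

/-- the parameters of the coupling -/
structure PN : Type where
  g1 : N
  g2 : N
  th : N
  e : N
  be : N
  k : N
  ze : N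
  chi : N
  sr : N
  sla : N
  qh : N
  br : A

structure RP (t : Pt) (x : PN) (n : Hc) (b : Pa) : Prop where
  g1 : RN t x.g1 b.γ1
  g2 : RN t x.g2 b.γ2
  th : RN t x.th b.θ
  e : RN t x.e b.e
  be : RN t x.be b.β
  k : RN t x.k b.k
  ze : RN t x.ze b.ζ
  chi : RN t x.chi b.χ
  sr : RN t x.sr (n.ς * b.ϱ)
  sla : RN t x.sla (n.ς * n.lam b)
  qh : RN t x.qh (n.qh b)
  k0 : 0 ≤ b.k
  r0 : 0 ≤ b.ϱ
  l0 : 0 ≤ n.lam b
  q0 : pos x.br = true → 0 ≤ n.qh b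

def cS2 : ℕ := 2 ^ 2016 + 2 ^ 2144 + 2 ^ 2272 + 2 ^ 2400 + 2 ^ 2528 + 2 ^ 2800
def cL2 : ℕ := 2 ^ 2016 + 2 ^ 2160 + 2 ^ 2304 + 2 ^ 2448 + 2 ^ 2592 + 2 ^ 2880
def cF2 : ℕ := (2 ^ 16 - 1) * cL2
def cG2 : ℕ := 2 ^ 15 * cL2
/-- the quadratic hint with coefficients `(a_i - 2 ^ 15) 2 ^ (s - 48)`, `d = Σ a_i 2 ^ (16 i)` -/
def qd (s d : ℕ) : A :=
  hint (Nat.sub (Nat.add cZ (Nat.shiftLeft (Nat.land (Nat.mul d cS2) cF2) s)) (Nat.shiftLeft cG2 s))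

/-- blocks `0 .. 6`: affine `γ1, γ2, θ, e, β, χ₀, ζ`; `7`: quadratic part of `e`;
`8`: `k` (24 bits), the regularisation (24), the two scales (6 and 6) -/
def mkP (x : HN) (y : AN) (d : ℕ) : PN :=
  let dd := fld d 8
  let s := Nat.mod (Nat.shiftRight dd 48) 64
  let c0 := nrm (aff s (fld d 5))
  let tt := cN (Nat.shiftLeft (Nat.succ (Nat.mod (Nat.shiftRight dd 24) 16777216)) s)
  let ro := nrm (inv (nrm (add y.X tt.toA)))
  let sr := nrm (rnd (mul x.vs ro))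
  let sla := nrm (rnd (mul tt sr))
  let chi := nrm (rnd (mul sla c0))
  let br := sub (rnd (mul (nrm (rnd (mul y.Q c0))) (nrm (sub (smul 2 one) (rnd (mul x.et chi)))))) one
  ⟨nrm (aff s (fld d 0)), nrm (aff s (fld d 1)), nrm (aff s (fld d 2)),
    nrm (add (aff s (fld d 3)) (qd (Nat.mod (Nat.shiftRight dd 54) 64) (fld d 7))),
    nrm (aff s (fld d 4)), cN (Nat.shiftLeft (Nat.mod dd 16777216) s), nrm (aff s (fld d 6)), chi, sr,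
    sla, nrm (rnd (mul sla (nrm br))), br⟩

theorem mkP_ok {t : Pt} {n : Hc} {x : HN} {y : AN} (d : ℕ) (hx : RH t x n) (hy : RAN t y n)
    (s0 : 0 ≤ n.σ) (v0 : 0 ≤ n.ς) : ∃ b, RP t (mkP x y d) n b := by
  unfold mkP
  extract_lets dd s c0 tt ro sr sla chi br
  obtain ⟨γ1, h0⟩ := aff_ok t s (fld d 0)
  obtain ⟨γ2, h1⟩ := aff_ok t s (fld d 1)
  obtain ⟨θ, h2⟩ := aff_ok t s (fld d 2)
  obtain ⟨e, h3⟩ := aff_ok t s (fld d 3)
  obtain ⟨β, h4⟩ := aff_ok t s (fld d 4)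
  obtain ⟨χ, h5⟩ := aff_ok t s (fld d 5)
  obtain ⟨ζ, h6⟩ := aff_ok t s (fld d 6)
  obtain ⟨e', h7⟩ : ∃ z, RA t (qd (Nat.mod (Nat.shiftRight dd 54) 64) (fld d 7)) z := hint_ok t _
  obtain ⟨τ, t0, htt⟩ : ∃ τ : ℝ, 0 < τ ∧ RN t tt τ :=
    ⟨(Nat.shiftLeft (Nat.succ (Nat.mod (Nat.shiftRight dd 24) 16777216)) s : ℕ) / 2 ^ 48,
      div_pos (Nat.cast_pos.2 (by
        rw [Nat.shiftLeft_eq', Nat.shiftLeft_eq]
        exact Nat.mul_pos (Nat.succ_pos _) (Nat.two_pow_pos _))) (by norm_num), cN_ok _ (by simp)⟩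
  have X0 : 0 < n.X + τ := by
    rw [Hc.X]
    positivity
  have hc0 : RN t c0 χ := nrm_ok h5
  have hro : RN t ro _ := nrm_ok (inv_ok (nrm_ok (add_ok hy.X htt.toA)))
  have hsr : RN t sr _ := nrm_ok (rnd_ok (mul_ok hx.vs hro))
  have hsla : RN t sla _ := nrm_ok (rnd_ok (mul_ok htt hsr))
  have hchi : RN t chi _ := nrm_ok (rnd_ok (mul_ok hsla hc0))
  have hbr : RA t br _ := sub_ok (rnd_ok (mul_ok (nrm_ok (rnd_ok (mul_ok hy.Q hc0)))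
    (nrm_ok (sub_ok (smul_ok 2 one_ok) (rnd_ok (mul_ok hx.et hchi)))))) one_ok
  have i0 := inv_pos.2 X0
  have el : 1 - (n.X + τ)⁻¹ * n.X = τ * (n.X + τ)⁻¹ := by
    field_simp
    ring
  obtain ⟨b, hb⟩ : ∃ b : Pa, b = ⟨γ1, γ2, θ, e + e', β,
    (Nat.shiftLeft (Nat.mod dd 16777216) s : ℕ) / 2 ^ 48, (n.X + τ)⁻¹,
    τ * (n.ς * (n.X + τ)⁻¹) * χ, ζ⟩ := ⟨_, rfl⟩
  have e1 : n.lam b = τ * (n.X + τ)⁻¹ := by rw [hb]; exact el
  have e2 : τ * (n.ς * (n.X + τ)⁻¹) * (n.Q * χ * ((2 : ℕ) * 1 - n.η * (τ * (n.ς * (n.X + τ)⁻¹) * χ))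
      - 1) = n.qh b := by
    rw [Hc.qh, e1, hb]
    push_cast
    ring
  refine ⟨b, hb ▸ nrm_ok h0, hb ▸ nrm_ok h1, hb ▸ nrm_ok h2, hb ▸ nrm_ok (add_ok h3 h7),
    hb ▸ nrm_ok h4, cN_ok _ (by simp [hb]), hb ▸ nrm_ok h6, hb ▸ hchi, hb ▸ hsr,
    hsla.cast (by rw [e1]; ring), (nrm_ok (rnd_ok (mul_ok hsla (nrm_ok hbr)))).cast e2,
    by rw [hb]; positivity, by rw [hb]; exact i0.le, by rw [e1]; positivity, fun h => ?_⟩
  rw [← e2]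
  exact mul_nonneg (by positivity) (pos_ok hbr h).le

/-- third block -/
structure BN : Type where
  ga : N
  eg : N
  sc : N
  d1 : N
  d2 : N
  EO : N
  O2 : N
  D1 : N
  D2 : N
  f1 : N
  u1 : N
  u2 : N
  a7 : N
  kZ : N
  Ga : N
  da : N
  a8 : N
  sl : A

structure RBN (t : Pt) (x : BN) (n : Hc) (b : Pa) : Prop where
  ga : RN t x.ga (n.ga b)
  eg : RN t x.eg (n.η * b.γ2)
  sc : RN t x.sc (n.sc b)
  d1 : RN t x.d1 (n.d1 b)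
  d2 : RN t x.d2 (n.d2 b)
  EO : RN t x.EO (n.η * n.o1 b)
  O2 : RN t x.O2 (1 + n.η * n.o2 b)
  D1 : RN t x.D1 (n.D1 b)
  D2 : RN t x.D2 (n.D2 b)
  f1 : RN t x.f1 (n.f1 b)
  u1 : RN t x.u1 (n.u1 b)
  u2 : RN t x.u2 (n.u2 b)
  a7 : RN t x.a7 (n.η * b.e ^ 2 * n.dl + n.sl b)
  kZ : RN t x.kZ (b.k * n.Zt b)
  Ga : RN t x.Ga (n.Γ b)
  da : RN t x.da (n.dl * (n.p * b.e + b.k * n.Z3))
  a8 : RN t x.a8 (n.ς * n.lam b * b.ζ + 3 * b.k * n.Zt b)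
  sl : RA t x.sl (n.sl b)

def bB (x : HN) (y : AN) (a : PN) : BN :=
  let ga := nrm (sub (rnd (mul x.et a.g1)) one)
  let eg := nrm (rnd (mul x.et a.g2))
  let V := nrm (rnd (add (mul ga y.D) (mul eg x.r)))
  let rV := nrm (rnd (mul a.sr V))
  let o1 := nrm (add a.g2.toA (rnd (mul rV x.r)))
  let o2 := nrm (neg (add a.g1.toA (rnd (mul rV y.sD))))
  let t2 := nrm (rnd (add (mul eg a.g2) (mul rV V)))
  let sh := nrm (sub (rnd (add (mul a.g1 ga) (mul x.sg t2))) a.g1.toA)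
  let sc := nrm (add one (rnd (mul x.et sh)))
  let d1 := nrm (sub o1.toA y.am1.toA)
  let d2 := nrm (sub o2.toA y.am2.toA)
  let EO := nrm (rnd (mul x.et o1))
  let O2 := nrm (add one (rnd (mul x.et o2)))
  let D1 := nrm (sub d1.toA (rnd (mul a.th EO)))
  let D2 := nrm (sub d2.toA (rnd (mul a.th O2)))
  let f1 := nrm (sub (sub a.g1.toA (rnd (mul a.chi ga))) y.p1)
  let u1 := nrm (sub (rnd (mul x.et f1)) (smul 2 one))
  let u2 := nrm (sub (sub a.g2.toA (rnd (mul a.chi eg))) y.p2)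
  let edl := nrm (rnd (mul a.e y.dl))
  let ee := nrm (rnd (mul x.et a.e))
  let s7 := sub (sub sh.toA y.dh.toA) (smul 2 edl.toA)
  let sl := sub s7 (rnd (mul ee edl))
  let a7 := nrm s7
  let Zt := nrm (add (add (add y.Z11.toA y.Z22.toA) y.Z3.toA) (rnd (mul y.P a.ze)))
  let kZ := nrm (rnd (mul a.k Zt))
  let ek := nrm (add (cst 93824992236885) (rnd (mul x.et a.k)))
  let t3 := nrm (rnd (sub (mul ek kZ) (smul 2 (mul a.k y.p))))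
  let Ga := nrm (add x.n3.toA (rnd (mul x.w t3)))
  let a6 := nrm (rnd (add (mul y.p a.e) (mul a.k y.Z3)))
  let da := nrm (rnd (mul y.dl a6))
  let a8 := nrm (add (rnd (mul a.sla a.ze)) (smul 3 kZ.toA))
  ⟨ga, eg, sc, d1, d2, EO, O2, D1, D2, f1, u1, u2, a7, kZ, Ga, da, a8, sl⟩

theorem bB_ok {t : Pt} {n : Hc} {b : Pa} {x : HN} {y : AN} {a : PN} (hx : RH t x n) (hy : RAN t y
    n) (ha : RP t a n b)  :
    RBN t (bB x y a) n b := by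
  unfold bB
  extract_lets ga eg V rV o1 o2 t2 sh sc d1 d2 EO O2 D1 D2 f1 u1 u2 edl ee s7 sl a7 Zt kZ ek t3 Ga
    a6 da a8
  have hga : RN t ga (n.ga b) := (nrm_ok (sub_ok (rnd_ok (mul_ok hx.et ha.g1)) one_ok)).cast
    (by simp only [Hc.ga]; ring)
  have heg : RN t eg (n.η * b.γ2) := (nrm_ok (rnd_ok (mul_ok hx.et ha.g2))).cast (rfl)
  have hV : RN t V (n.V b) := (nrm_ok (rnd_ok (add_ok (mul_ok hga hy.D) (mul_ok heg hx.r)))).cast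
    (rfl)
  have hrV : RN t rV (n.rV b) := (nrm_ok (rnd_ok (mul_ok ha.sr hV))).cast (rfl)
  have ho1 : RN t o1 (n.o1 b) := (nrm_ok (add_ok ha.g2.toA (rnd_ok (mul_ok hrV hx.r)))).cast (rfl)
  have ho2 : RN t o2 (n.o2 b) := (nrm_ok (neg_ok (add_ok ha.g1.toA (rnd_ok (mul_ok hrV
    hy.sD))))).cast (by simp only [Hc.o2]; ring)
  have ht2 : RN t t2 _ := nrm_ok (rnd_ok (add_ok (mul_ok heg ha.g2) (mul_ok hrV hV)))
  have hsh : RN t sh (n.sh b) := (nrm_ok (sub_ok (rnd_ok (add_ok (mul_ok ha.g1 hga) (mul_ok hx.sg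
    ht2))) ha.g1.toA)).cast (by simp only [Hc.sh]; ring)
  have hsc : RN t sc (n.sc b) := (nrm_ok (add_ok one_ok (rnd_ok (mul_ok hx.et hsh)))).cast (rfl)
  have hd1 : RN t d1 (n.d1 b) := (nrm_ok (sub_ok ho1.toA hy.am1.toA)).cast (rfl)
  have hd2 : RN t d2 (n.d2 b) := (nrm_ok (sub_ok ho2.toA hy.am2.toA)).cast (rfl)
  have hEO : RN t EO (n.η * n.o1 b) := (nrm_ok (rnd_ok (mul_ok hx.et ho1))).cast (rfl)
  have hO2 : RN t O2 (1 + n.η * n.o2 b) := (nrm_ok (add_ok one_ok (rnd_ok (mul_ok hx.et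
    ho2)))).cast (rfl)
  have hD1 : RN t D1 (n.D1 b) := (nrm_ok (sub_ok hd1.toA (rnd_ok (mul_ok ha.th hEO)))).cast
    (by simp only [Hc.D1]; ring)
  have hD2 : RN t D2 (n.D2 b) := (nrm_ok (sub_ok hd2.toA (rnd_ok (mul_ok ha.th hO2)))).cast (rfl)
  have hf1 : RN t f1 (n.f1 b) := (nrm_ok (sub_ok (sub_ok ha.g1.toA (rnd_ok (mul_ok ha.chi hga)))
    hy.p1)).cast (rfl)
  have hu1 : RN t u1 (n.u1 b) := (nrm_ok (sub_ok (rnd_ok (mul_ok hx.et hf1)) (smul_ok 2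
    one_ok))).cast (by simp only [Hc.u1]; push_cast; ring)
  have hu2 : RN t u2 (n.u2 b) := (nrm_ok (sub_ok (sub_ok ha.g2.toA (rnd_ok (mul_ok ha.chi heg)))
    hy.p2)).cast (by simp only [Hc.u2]; ring)
  have hedl : RN t edl _ := nrm_ok (rnd_ok (mul_ok ha.e hy.dl))
  have hee : RN t ee _ := nrm_ok (rnd_ok (mul_ok hx.et ha.e))
  have hs7 : RA t s7 _ := sub_ok (sub_ok hsh.toA hy.dh.toA) (smul_ok 2 hedl.toA)
  have hsl : RA t sl (n.sl b) := (sub_ok hs7 (rnd_ok (mul_ok hee hedl))).cast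
    (by simp only [Hc.sl]; push_cast; ring)
  have ha7 : RN t a7 (n.η * b.e ^ 2 * n.dl + n.sl b) := (nrm_ok hs7).cast
    (by simp only [Hc.sl]; push_cast; ring)
  have hZt : RN t Zt (n.Zt b) := (nrm_ok (add_ok (add_ok (add_ok hy.Z11.toA hy.Z22.toA) hy.Z3.toA)
    (rnd_ok (mul_ok hy.P ha.ze)))).cast (rfl)
  have hkZ : RN t kZ (b.k * n.Zt b) := (nrm_ok (rnd_ok (mul_ok ha.k hZt))).cast (rfl)
  have hek : RN t ek _ := nrm_ok (add_ok (cst_ok (z := 1 / 3) 93824992236885 (by norm_num) (by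
    norm_num [abs_le])) (rnd_ok (mul_ok hx.et ha.k)))
  have ht3 : RN t t3 _ := nrm_ok (rnd_ok (sub_ok (mul_ok hek hkZ) (smul_ok 2 (mul_ok ha.k hy.p))))
  have hGa : RN t Ga (n.Γ b) := (nrm_ok (add_ok hx.n3.toA (rnd_ok (mul_ok hx.w ht3)))).cast
    (by simp only [Hc.Γ]; push_cast; ring)
  have ha6 : RN t a6 _ := nrm_ok (rnd_ok (add_ok (mul_ok hy.p ha.e) (mul_ok ha.k hy.Z3)))
  have hda : RN t da (n.dl * (n.p * b.e + b.k * n.Z3)) := (nrm_ok (rnd_ok (mul_ok hy.dl ha6))).cast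
    (rfl)
  have ha8 : RN t a8 (n.ς * n.lam b * b.ζ + 3 * b.k * n.Zt b) := (nrm_ok (add_ok (rnd_ok (mul_ok
    ha.sla ha.ze)) (smul_ok 3 hkZ.toA))).cast (by push_cast; ring)
  exact ⟨hga, heg, hsc, hd1, hd2, hEO, hO2, hD1, hD2, hf1, hu1, hu2, ha7, hkZ, hGa, hda, ha8, hsl⟩

/-- fourth block -/
structure CN : Type where
  zd : N
  zo : N
  zg : N
  Tg : N
  x1 : N
  y2 : N
  a1 : N
  a2 : N
  a3 : N

structure RCN (t : Pt) (x : CN) (n : Hc) (b : Pa) (o₁ o₂ o₃ : ℝ) : Prop where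
  zd : RN t x.zd (n.zd b)
  zo : RN t x.zo (n.zo b)
  zg : RN t x.zg (n.zg b)
  Tg : RN t x.Tg (n.Tg b o₁ o₂)
  x1 : RN t x.x1 (n.x1 o₂ b.β)
  y2 : RN t x.y2 (-n.x2 o₁ b.β)
  a1 : RN t x.a1 (n.XX o₂ o₃ b.β + n.Q * n.E o₁ ^ 2)
  a2 : RN t x.a2 (n.x1 o₂ b.β * n.x2 o₁ b.β + n.Q * n.E o₁ * n.SE o₂)
  a3 : RN t x.a3 (n.x2 o₁ b.β ^ 2 + n.Q * n.EE o₂ o₃)

def bC (x : HN) (y : AN) (z : DN) (a : PN) (u : BN) : CN :=
  let sd := nrm (rnd (mul x.sg u.d1))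
  let t4 := nrm (rnd (add (mul y.Z11 sd) (smul 2 (mul y.sZ u.d2))))
  let t5 := nrm (rnd (mul y.Z22 u.d2))
  let zd := nrm (rnd (add (mul u.d1 t4) (mul u.d2 t5)))
  let zo := nrm (rnd (add (mul u.EO z.ya) (mul u.O2 z.yb)))
  let t6 := nrm (rnd (add (mul y.Z11 u.ga) (smul 2 (mul y.sZ u.eg))))
  let seg := nrm (rnd (mul x.sg u.eg))
  let t7 := nrm (rnd (mul y.Z22 seg))
  let zg := nrm (rnd (add (mul u.ga t6) (mul u.eg t7)))
  let t8 := nrm (add (add (rnd (add (add (smul 2 z.ce1) (mul x.z11 u.u1)) (mul y.sZ u.u2))) (smul 2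
    z.Sh.toA)) u.f1.toA)
  let t9 := nrm (sub (rnd (add (add (mul y.Z22 u.u2) (mul x.z12 u.u1)) (smul 2 z.ce2))) (smul 2
    z.Eh.toA))
  let t10 := nrm (rnd (add (mul x.sg t9) (smul 2 z.ce3)))
  let eu := nrm (rnd (mul x.et u.u2))
  let Tg := nrm (rnd (add (mul u.u1 t8) (mul eu t10)))
  let x1 := nrm (add z.SE.toA (rnd (mul a.be y.sp)))
  let y2 := nrm (add z.QE.toA (rnd (mul a.be y.G)))
  let bp := nrm (rnd (mul a.be y.p))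
  let a1 := nrm (add z.EE.toA (rnd (add (add (mul bp z.SE) (mul bp x1)) (mul z.QE z.E))))
  let a2 := nrm (rnd (sub (mul z.QE z.SE) (mul x1 y2)))
  let a3 := nrm (rnd (add (mul y2 y2) (mul y.Q z.EE)))
  ⟨zd, zo, zg, Tg, x1, y2, a1, a2, a3⟩

theorem bC_ok {t : Pt} {n : Hc} {b : Pa} {o₁ o₂ o₃ : ℝ} {x : HN} {y : AN} {z : DN} {a : PN} {u :
    BN} (hx : RH t x n) (hy : RAN t y n) (hz : RDN t z n o₁ o₂ o₃) (ha : RP t a n b) (hu : RBN t u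
    n b)  :
    RCN t (bC x y z a u) n b o₁ o₂ o₃ := by
  unfold bC
  extract_lets sd t4 t5 zd zo t6 seg t7 zg t8 t9 t10 eu Tg x1 y2 bp a1 a2 a3
  have hsd : RN t sd _ := nrm_ok (rnd_ok (mul_ok hx.sg hu.d1))
  have ht4 : RN t t4 _ := nrm_ok (rnd_ok (add_ok (mul_ok hy.Z11 hsd) (smul_ok 2 (mul_ok hy.sZ
    hu.d2))))
  have ht5 : RN t t5 _ := nrm_ok (rnd_ok (mul_ok hy.Z22 hu.d2))
  have hzd : RN t zd (n.zd b) := (nrm_ok (rnd_ok (add_ok (mul_ok hu.d1 ht4) (mul_ok hu.d2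
    ht5)))).cast (by simp only [Hc.zd]; push_cast; ring)
  have hzo : RN t zo (n.zo b) := (nrm_ok (rnd_ok (add_ok (mul_ok hu.EO hz.ya) (mul_ok hu.O2
    hz.yb)))).cast (by simp only [Hc.zo]; ring)
  have ht6 : RN t t6 _ := nrm_ok (rnd_ok (add_ok (mul_ok hy.Z11 hu.ga) (smul_ok 2 (mul_ok hy.sZ
    hu.eg))))
  have hseg : RN t seg _ := nrm_ok (rnd_ok (mul_ok hx.sg hu.eg))
  have ht7 : RN t t7 _ := nrm_ok (rnd_ok (mul_ok hy.Z22 hseg))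
  have hzg : RN t zg (n.zg b) := (nrm_ok (rnd_ok (add_ok (mul_ok hu.ga ht6) (mul_ok hu.eg
    ht7)))).cast (by simp only [Hc.zg]; push_cast; ring)
  have ht8 : RN t t8 _ := nrm_ok (add_ok (add_ok (rnd_ok (add_ok (add_ok (smul_ok 2 hz.ce1) (mul_ok
    hx.z11 hu.u1)) (mul_ok hy.sZ hu.u2))) (smul_ok 2 hz.Sh.toA)) hu.f1.toA)
  have ht9 : RN t t9 _ := nrm_ok (sub_ok (rnd_ok (add_ok (add_ok (mul_ok hy.Z22 hu.u2) (mul_ok
    hx.z12 hu.u1)) (smul_ok 2 hz.ce2))) (smul_ok 2 hz.Eh.toA))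
  have ht10 : RN t t10 _ := nrm_ok (rnd_ok (add_ok (mul_ok hx.sg ht9) (smul_ok 2 hz.ce3)))
  have heu : RN t eu _ := nrm_ok (rnd_ok (mul_ok hx.et hu.u2))
  have hTg : RN t Tg (n.Tg b o₁ o₂) := (nrm_ok (rnd_ok (add_ok (mul_ok hu.u1 ht8) (mul_ok heu
    ht10)))).cast (by simp only [Hc.Tg, Hc.CE2]; push_cast; ring)
  have hx1 : RN t x1 (n.x1 o₂ b.β) := (nrm_ok (add_ok hz.SE.toA (rnd_ok (mul_ok ha.be
    hy.sp)))).cast (by simp only [Hc.x1]; ring)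
  have hy2 : RN t y2 (-n.x2 o₁ b.β) := (nrm_ok (add_ok hz.QE.toA (rnd_ok (mul_ok ha.be
    hy.G)))).cast (by simp only [Hc.x2]; ring)
  have hbp : RN t bp _ := nrm_ok (rnd_ok (mul_ok ha.be hy.p))
  have ha1 : RN t a1 (n.XX o₂ o₃ b.β + n.Q * n.E o₁ ^ 2) := (nrm_ok (add_ok hz.EE.toA (rnd_ok
    (add_ok (add_ok (mul_ok hbp hz.SE) (mul_ok hbp hx1)) (mul_ok hz.QE hz.E))))).cast
    (by simp only [Hc.XX]; ring)
  have ha2 : RN t a2 (n.x1 o₂ b.β * n.x2 o₁ b.β + n.Q * n.E o₁ * n.SE o₂) := (nrm_ok (rnd_ok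
    (sub_ok (mul_ok hz.QE hz.SE) (mul_ok hx1 hy2)))).cast (by ring)
  have ha3 : RN t a3 (n.x2 o₁ b.β ^ 2 + n.Q * n.EE o₂ o₃) := (nrm_ok (rnd_ok (add_ok (mul_ok hy2
    hy2) (mul_ok hy.Q hz.EE)))).cast (by ring)
  exact ⟨hzd, hzo, hzg, hTg, hx1, hy2, ha1, ha2, ha3⟩

/-- the three quantities -/
structure JN : Type where
  j0 : A
  j2 : A
  h1 : N

structure RJN (t : Pt) (x : JN) (n : Hc) (b : Pa) (o₁ o₂ o₃ : ℝ) : Prop where
  j0 : RA t x.j0 (-(n.J0 b o₁ o₂ o₃ b.β + 1 / 2 ^ 20))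
  j2 : RA t x.j2 (-n.J2 b)
  h1 : RN t x.h1 (n.J1 b o₁ o₂ b.β / 2)

def bE (x : HN) (y : AN) (z : DN) (a : PN) (u : BN) (v : CN) : JN :=
  let dG := nrm (rnd (mul y.dl u.Ga))
  let dGb := nrm (rnd (mul dG a.be))
  let a4 := nrm (rnd (sub (mul z.C11 v.x1) (mul z.sC v.y2)))
  let a5 := nrm (rnd (sub (mul z.C21 v.x1) (mul z.C22 v.y2)))
  let inn := nrm (rnd (add (add (add (add (add (smul 2 (add (add (add (mul u.D1 a4) (mul u.D2 a5))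
    (mul a.th v.zo)) (mul a.be u.da))) (mul x.et v.zd)) (mul y.Q v.Tg)) (mul y.Z3 u.a7)) (mul a.qh
    v.zg)) (mul u.sc u.a8)))
  let a9 := nrm (rnd (add (mul z.pS v.y2) (mul y.G z.EE)))
  let j0 := sub (rnd (sub (smul 2 (sub (mul y.sW a9) (mul x.n12 v.a2))) (add (add (add (mul x.n11
    v.a1) (mul x.n22 v.a3)) (mul dGb a.be)) (mul x.w inn)))) (cst 268435456)
  let b3 := nrm (add u.da.toA (rnd (add (mul u.D1 z.b1) (mul u.D2 z.b2))))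
  let h1 := nrm (add dGb.toA (rnd (sub (add (sub (mul v.x1 y.m1) (mul v.y2 y.m2)) (mul x.w b3))
    (mul y.sW z.b4))))
  let j2 := sub (rnd (sub (mul y.G y.m2) (mul y.sp y.m1))) dG.toA
  ⟨j0, j2, h1⟩

theorem bE_ok {t : Pt} {n : Hc} {b : Pa} {o₁ o₂ o₃ : ℝ} {x : HN} {y : AN} {z : DN} {a : PN} {u :
    BN} {v : CN} (hx : RH t x n) (hy : RAN t y n) (hz : RDN t z n o₁ o₂ o₃) (ha : RP t a n b) (hu :
    RBN t u n b) (hv : RCN t v n b o₁ o₂ o₃)  :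
    RJN t (bE x y z a u v) n b o₁ o₂ o₃ := by
  unfold bE
  extract_lets dG dGb a4 a5 inn a9 j0 b3 h1 j2
  have hdG : RN t dG _ := nrm_ok (rnd_ok (mul_ok hy.dl hu.Ga))
  have hdGb : RN t dGb _ := nrm_ok (rnd_ok (mul_ok hdG ha.be))
  have ha4 : RN t a4 _ := nrm_ok (rnd_ok (sub_ok (mul_ok hz.C11 hv.x1) (mul_ok hz.sC hv.y2)))
  have ha5 : RN t a5 _ := nrm_ok (rnd_ok (sub_ok (mul_ok hz.C21 hv.x1) (mul_ok hz.C22 hv.y2)))
  have hinn : RN t inn _ := nrm_ok (rnd_ok (add_ok (add_ok (add_ok (add_ok (add_ok (smul_ok 2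
    (add_ok (add_ok (add_ok (mul_ok hu.D1 ha4) (mul_ok hu.D2 ha5)) (mul_ok ha.th hv.zo)) (mul_ok
    ha.be hu.da))) (mul_ok hx.et hv.zd)) (mul_ok hy.Q hv.Tg)) (mul_ok hy.Z3 hu.a7)) (mul_ok ha.qh
    hv.zg)) (mul_ok hu.sc hu.a8)))
  have ha9 : RN t a9 _ := nrm_ok (rnd_ok (add_ok (mul_ok hz.pS hv.y2) (mul_ok hy.G hz.EE)))
  have hj0 : RA t j0 (-(n.J0 b o₁ o₂ o₃ b.β + 1 / 2 ^ 20)) := (sub_ok (rnd_ok (sub_ok (smul_ok 2
    (sub_ok (mul_ok hy.sW ha9) (mul_ok hx.n12 hv.a2))) (add_ok (add_ok (add_ok (mul_ok hx.n11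
    hv.a1) (mul_ok hx.n22 hv.a3)) (mul_ok hdGb ha.be)) (mul_ok hx.w hinn)))) (cst_ok (z := 1 / 2 ^
    20) 268435456 (by norm_num) (by norm_num [abs_le]))).cast
    (by simp only [Hc.J0, Hc.x2]; push_cast; ring)
  have hb3 : RN t b3 _ := nrm_ok (add_ok hu.da.toA (rnd_ok (add_ok (mul_ok hu.D1 hz.b1) (mul_ok
    hu.D2 hz.b2))))
  have hh1 : RN t h1 (n.J1 b o₁ o₂ b.β / 2) := (nrm_ok (add_ok hdGb.toA (rnd_ok (sub_ok (add_ok
    (sub_ok (mul_ok hv.x1 hy.m1) (mul_ok hv.y2 hy.m2)) (mul_ok hx.w hb3)) (mul_ok hy.sW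
    hz.b4))))).cast (by simp only [Hc.J1]; ring)
  have hj2 : RA t j2 (-n.J2 b) := (sub_ok (rnd_ok (sub_ok (mul_ok hy.G hy.m2) (mul_ok hy.sp
    hy.m1))) hdG.toA).cast (by simp only [Hc.J2]; ring)
  exact ⟨hj0, hj2, hh1⟩

def bl (p : N) : Bool := Nat.ble p.m 18014398509481984

theorem fin_ok {t : Pt} {a b : A} {p : N} {x y z : ℝ} (ha : RA t a x) (hb : RA t b y) (hp : RN t p z)
    (c1 : Nat.blt (Nat.mul p.m p.m) (Nat.mul (low a) (low b)) = true)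
    (c2 : Nat.ble 17179869184 (low b) = true) (c0 : bl p = true) :
    0 ≤ x ∧ 1 / 2 ^ 14 ≤ y ∧ z ^ 2 ≤ x * y := by
  have i1 : p.m * p.m < low a * low b := Nat.blt_eq.mp c1
  have i2 := Nat.le_of_ble_eq_true c2
  have k1 := low_ok ha (Nat.pos_of_mul_pos_right (Nat.zero_lt_of_lt i1))
  have k2 := low_ok hb (by omega)
  have k3 := hp.le (by have := Nat.le_of_ble_eq_true c0; omega)
  have r1 : (p.m : ℝ) * p.m ≤ low a * low b := by exact_mod_cast i1.le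
  have r2 : (17179869184 : ℝ) ≤ low b := by exact_mod_cast i2
  have r3 := Nat.cast_nonneg (α := ℝ) (low a)
  have r4 := mul_le_mul k1 k2 (Nat.cast_nonneg _) (r3.trans k1)
  have r5 := mul_le_mul k3 k3 (by positivity) (Nat.cast_nonneg _)
  exact ⟨by linarith, by linarith, by linarith [abs_mul_abs_self z]⟩

theorem et_ok {t : Pt} {p q : N} {x y : ℝ} (hp : RN t p x) (hq : RN t q y) (x0 : 0 < x) (y0 : 0 < y)
    (c1 : bl p = true) (c2 : Nat.ble (Nat.mul p.m q.m) 158456325028528675187087900672 = true) :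
    x * y ≤ 2 := by
  have m : p.m * q.m ≤ 158456325028528675187087900672 := Nat.le_of_ble_eq_true c2
  have n : (p.m : ℝ) * q.m ≤ 158456325028528675187087900672 := by exact_mod_cast m
  have p1 : 1 ≤ p.m := hp.hm ▸ hp.r1.trans (Nat.le_add_left _ _)
  have p2 := mul_le_mul (hp.le (by have := Nat.le_of_ble_eq_true c1; omega))
    (hq.le ((Nat.le_mul_of_pos_left _ p1).trans_lt (by omega))) (by positivity) (Nat.cast_nonneg _)
  rw [abs_of_pos x0, abs_of_pos y0] at p2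
  linarith

/-- the check of one box -/
def chk (x : HN) (d : ℕ) : Bool :=
  let y := bA x
  let z := bD x y
  let a := mkP x y d
  let u := bB x y a
  let j := bE x y z a u (bC x y z a u)
  let zz := wid y.Z12.m a.ze.toA
  and (and (and (Nat.blt (Nat.mul j.h1.m j.h1.m) (Nat.mul (low j.j0) (low j.j2)))
      (and (Nat.ble 17179869184 (low j.j2)) (bl j.h1))) (and (pos u.sl) (pos a.br)))
    (and (and (and (pos a.th.toA) (pos y.p.toA)) (and (pos (sub y.dl.toA (cst 274877906944)))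
      (and (pos (sub zz y.Z11.toA)) (pos (sub zz y.Z22.toA)))))
    (and (and (and (bl x.et) (bl y.sW)) (and (bl y.p) (bl y.G))) (and (and (bl x.n11) (bl x.n12))
      (and (and (bl x.n22) (bl u.Ga)) (and (Nat.ble y.P.m 844424930131968)
        (Nat.ble (Nat.mul x.et.m a.th.m) 158456325028528675187087900672))))))

theorem chk_ok {t : Pt} {n : Hc} {x : HN} {d : ℕ} (hx : RH t x n) (e0 : 0 < n.η) (s0 : 0 ≤ n.σ)
    (v0 : 0 ≤ n.ς) (w0 : 0 < n.w) (w1 : n.w ≤ 1) (H : chk x d = true) (o₁ o₂ o₃ : ℝ)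
    (g1 : |o₁| ≤ 1 / 2 ^ 100) (g2 : |o₂| ≤ 1 / 2 ^ 100) (g3 : |o₃| ≤ 1 / 2 ^ 100) :
    ∃ a : Pa, Ok n a ∧ n.J0 a o₁ o₂ o₃ a.β + 1 / 2 ^ 20 ≤ 0 ∧
      n.J1 a o₁ o₂ a.β ^ 2 ≤ 4 * (n.J0 a o₁ o₂ o₃ a.β + 1 / 2 ^ 20) * n.J2 a := by
  unfold chk at H
  extract_lets y z a u j zz at H
  simp only [Bool.and_eq_true] at H
  obtain ⟨⟨⟨c1, c2, c0⟩, c3, c4⟩, ⟨⟨c5, c6⟩, c7, c8, c9⟩, ⟨⟨d1, d2⟩, d3, d4⟩, ⟨d5, d6⟩, ⟨d7, d8⟩, d9, d10⟩ := H
  have f1 := bd hx.et d1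
  have hy : RAN t y n := bA_ok hx
  have hz : RDN t z n o₁ o₂ o₃ := bD_ok hx hy (by linarith) (by linarith) (by
    rw [abs_mul]
    linarith [mul_le_mul f1 g2 (abs_nonneg _) (by norm_num)]) (by
    rw [abs_mul, abs_pow]
    linarith [mul_le_mul (pow_le_pow_left₀ (abs_nonneg _) f1 2) g3 (abs_nonneg _) (by norm_num)])
  obtain ⟨b, ha⟩ : ∃ b, RP t a n b := mkP_ok d hx hy s0 v0
  have hu : RBN t u n b := bB_ok hx hy ha
  have hj : RJN t j n b o₁ o₂ o₃ := bE_ok hx hy hz ha hu (bC_ok hx hy hz ha hu)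
  have hzz : RA t zz (b.ζ - |n.Z12|) := wid_of _ ha.ze.toA fun k => by
    rw [sub_sub_cancel_left, abs_neg, abs_abs]
    exact hy.Z12.le (by omega)
  obtain ⟨k1, k2, k3⟩ := fin_ok hj.j0 hj.j2 hj.h1 c1 c2 c0
  have k5 := pos_ok ha.th.toA c5
  have k7 := pos_ok (sub_ok hy.dl.toA (cst_ok (z := 1 / 2 ^ 10) _ (by norm_num) (by norm_num))) c7
  have k8 := pos_ok (sub_ok hzz hy.Z11.toA) c8
  have k9 := pos_ok (sub_ok hzz hy.Z22.toA) c9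
  have m9 := Nat.le_of_ble_eq_true d9
  have n9 : (y.P.m : ℝ) ≤ 844424930131968 := by exact_mod_cast m9
  refine ⟨b, ⟨e0, le_of_abs_le f1, v0, by linarith [hy.P.le (by omega), le_abs_self (n.η * n.ς)], w0, w1,
    le_of_abs_le (bd hy.sW d2), pos_ok hy.p.toA c6, le_of_abs_le (bd hy.p d3), bd hy.G d4, by linarith,
    bd hx.n11 d5, bd hx.n12 d6, bd hx.n22 d7, le_of_abs_le (bd hu.Ga d8), k5.le,
    et_ok hx.et ha.th e0 k5 d1 d10, ha.k0,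
    ha.r0, ha.l0, ha.q0 c4, (pos_ok hu.sl c3).le, by linarith, by linarith, by linarith⟩,
    by linarith, by linarith⟩

theorem key_of {P q c S T : ℝ} {j : J6} {t : Pt} {n : Hc} {x : HN} {d : ℕ} (h : c ^ 2 + S ^ 2 = 1)
    (hT : 0 < T) (R : Rel (co q c S j) n P c S T) (hx : RH t x n) (e0 : 0 < n.η) (v0 : 0 ≤ n.ς)
    (w0 : 0 < n.w) (w1 : n.w ≤ 1) (H : chk x d = true) : Key P q c S j (1 / 2 ^ 100 * n.η * T) :=
  keyR h hT R (chk_ok hx e0 (R.hσ ▸ sq_nonneg S) v0 w0 w1 H)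

end Pool.Agent.MP_815c6c_an.W.KB
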