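import Pool.Agent.MP_815c6c_an.W.Spec

/-! The kits of the set of states for every `P > 0`. -/

set_option autoImplicit false

noncomputable section

namespace Pool.Agent.MP_815c6c_an.H.K

open Set Metric MeasureTheory Filter Topology
open scoped ENNReal RealInnerProductSpace
open N (X)
open S (ei vo Wk Sb Vp hs)
open S.IdA (lo dw)

variable {d : ℕ}

/-- elementary jets -/
structure Bap {d : ℕ} (P : ℝ) (z : St d) (H : En d) : Prop where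
  sg0 : 0 ≤ sg P z.2.2 H
  sge : sg P z.2.2 H = ‖H (nu z.2.2)‖ ^ 2 + P⁻¹ * ∑ k, ‖H (ei k)‖ ^ 2
  nu1 : ‖nu z.2.2‖ = 1
  ix : ∀ a b : X d, ⟪vx P z.2.2 a, vx P z.2.2 b⟫ =
    ⟪a, nu z.2.2⟫ * ⟪b, nu z.2.2⟫ + P⁻¹ * ⟪a, b⟫
  nx : ∀ a : X d, P⁻¹ * ‖a‖ ^ 2 ≤ ‖vx P z.2.2 a‖ ^ 2 ∧ ‖vx P z.2.2 a‖ ^ 2 ≤ (1 + P⁻¹) * ‖a‖ ^ 2
  nt : ‖z.2.2‖ ^ 2 ≤ ‖vx P z.2.2 z.2.2‖ ^ 2
  nh : ∀ a : X d, ‖vh P z.2.2 H a‖ ^ 2 ≤ ‖a‖ ^ 2 * sg P z.2.2 H
  nd : ‖dr z.2.2 H‖ ^ 2 * ‖z.2.2‖ ^ 2 ≤ 4 * sg P z.2.2 H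
  xx : ∀ a : X d, J P z H (fun y => ‖y.1 - a‖ ^ 2) (vx P z.2.2 ((2 : ℝ) • (z.1 - a)))
    (2 * ⟪z.1 - a, dr z.2.2 H⟫ + 2 * (1 + d / P))
  ww : ∀ a : X d, J P z H (fun y => ‖y.2.2 - a‖ ^ 2) (vh P z.2.2 H ((2 : ℝ) • (z.2.2 - a)))
    (2 * sg P z.2.2 H)
  pl : Adm P z.2.2 H → ∀ a : X d,
    J P z H (fun y => y.2.1 - ⟪y.2.2, y.1 - a⟫) (-vh P z.2.2 H (z.1 - a)) 0

lemma bas_sq {P : ℝ} (h : 0 < P) : (√P)⁻¹ * (√P)⁻¹ = P⁻¹ := by
  rw [← mul_inv, Real.mul_self_sqrt h.le]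

lemma bas_sge {P : ℝ} (h : 0 < P) (ξ : X d) (H : En d) :
    sg P ξ H = ‖H (nu ξ)‖ ^ 2 + P⁻¹ * ∑ k, ‖H (ei k)‖ ^ 2 := by
  rw [sg, Fintype.sum_option, Finset.mul_sum]
  congr 1
  refine Finset.sum_congr rfl fun k _ => ?_
  rw [dir, map_smul, norm_smul, mul_pow, Real.norm_eq_abs, sq_abs, sq (√P)⁻¹, bas_sq h]

lemma bas_ix {P : ℝ} (h : 0 < P) (ξ a b : X d) :
    ⟪vx P ξ a, vx P ξ b⟫ = ⟪a, nu ξ⟫ * ⟪b, nu ξ⟫ + P⁻¹ * ⟪a, b⟫ := by
  rw [bas_vinner, Fintype.sum_option, bas_inner a b, Finset.mul_sum]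
  congr 1
  refine Finset.sum_congr rfl fun k _ => ?_
  simp only [vx, dir, real_inner_smul_right, bas_ie]
  rw [← bas_sq h]
  ring

lemma bas_xx {P : ℝ} {z : St d} {H : En d} (j : Jet P z H) (h : 0 < P) (h0 : z.2.2 ≠ 0) (a : X d) :
    J P z H (fun y => ‖y.1 - a‖ ^ 2) (vx P z.2.2 ((2 : ℝ) • (z.1 - a)))
      (2 * ⟪z.1 - a, dr z.2.2 H⟫ + 2 * (1 + d / P)) := by
  refine bas_cast (j.sum Finset.univ fun i _ => j.sq (j.addc (-a i) (j.jx (ei i))))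
    (fun y => ?_) ?_ ?_
  · simp only [bas_norm, bas_ei, PiLp.sub_apply, ← sub_eq_add_neg]
  · rw [← bas_vx]
    simp only [bas_ei, PiLp.smul_apply, PiLp.sub_apply, smul_eq_mul, ← sub_eq_add_neg]
  · have e1 : ∀ i : Fin d, ‖vx P z.2.2 (ei i)‖ ^ 2 = nu z.2.2 i ^ 2 + P⁻¹ := fun i => by
      rw [← real_inner_self_eq_norm_sq, bas_ix h, bas_ei, bas_ei]
      simp [sq]
    have e2 := bas_norm (nu z.2.2)
    rw [bas_nu1 h0] at e2
    simp only [e1, bas_ei, Finset.sum_add_distrib, mul_add, ← Finset.mul_sum, ← e2,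
      bas_inner (z.1 - a), PiLp.sub_apply, Finset.sum_const, Finset.card_univ, Fintype.card_fin,
      nsmul_eq_mul]
    rw [Finset.mul_sum]
    congr 1
    · exact Finset.sum_congr rfl fun i _ => by ring
    · rw [div_eq_mul_inv]
      ring

theorem bas (d : ℕ) (P : ℝ) (z : St d) (H : En d) (h : 0 < P) (h0 : z.2.2 ≠ 0) : Bap P z H := by
  have j := jet d P z H
  have hP : 0 < P := by linarith
  have hs : 0 ≤ sg P z.2.2 H := Finset.sum_nonneg fun _ _ => sq_nonneg _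
  have hn := bas_nu1 h0
  have e1 : ∀ a : X d, ‖vx P z.2.2 a‖ ^ 2 = ⟪a, nu z.2.2⟫ ^ 2 + P⁻¹ * ‖a‖ ^ 2 := fun a => by
    rw [← real_inner_self_eq_norm_sq, bas_ix h, real_inner_self_eq_norm_sq, sq ⟪a, _⟫]
  refine ⟨hs, bas_sge h _ H, hn,
    bas_ix h _, fun a => ?_, ?_, fun a => ?_, ?_, bas_xx j h h0, bas_ww j, bas_pl j h0⟩
  · have k1 := abs_real_inner_le_norm a (nu z.2.2)
    rw [hn, mul_one] at k1
    have k2 : ⟪a, nu z.2.2⟫ ^ 2 ≤ ‖a‖ ^ 2 := by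
      rw [← sq_abs]
      exact pow_le_pow_left₀ (abs_nonneg _) k1 2
    rw [e1]
    constructor
    · nlinarith [sq_nonneg ⟪a, nu z.2.2⟫]
    · nlinarith [sq_nonneg ‖a‖]
  · have k1 : ⟪z.2.2, nu z.2.2⟫ = ‖z.2.2‖ := by
      conv_lhs => enter [2]; rw [bas_xi h0]
      rw [real_inner_smul_left, real_inner_self_eq_norm_sq, hn]
      ring
    rw [e1, k1]
    have : 0 ≤ P⁻¹ * ‖z.2.2‖ ^ 2 := by positivity
    linarith
  · rw [bas_vnorm, sg, Finset.mul_sum]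
    refine Finset.sum_le_sum fun k _ => ?_
    rw [← mul_pow, ← sq_abs]
    exact pow_le_pow_left₀ (abs_nonneg _) (abs_real_inner_le_norm _ _) 2
  · have hg := norm_pos_iff.2 h0
    have k1 : ‖H (nu z.2.2) - ⟪H (nu z.2.2), nu z.2.2⟫ • nu z.2.2‖ ^ 2 ≤ ‖H (nu z.2.2)‖ ^ 2 := by
      rw [norm_sub_sq_real, real_inner_smul_right, norm_smul, hn, mul_one, Real.norm_eq_abs, sq_abs]
      nlinarith [sq_nonneg ⟪H (nu z.2.2), nu z.2.2⟫]
    have k2 : ‖H (nu z.2.2)‖ ^ 2 ≤ sg P z.2.2 H := by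
      rw [bas_sge h]
      have : 0 ≤ P⁻¹ * ∑ k, ‖H (ei k)‖ ^ 2 :=
        mul_nonneg (inv_nonneg.2 hP.le) (Finset.sum_nonneg fun _ _ => sq_nonneg _)
      linarith
    rw [dr, norm_smul, mul_pow, Real.norm_eq_abs, sq_abs]
    have k3 : (2 / ‖z.2.2‖) ^ 2 * ‖z.2.2‖ ^ 2 = 4 := by
      field_simp
      norm_num
    calc _ = (2 / ‖z.2.2‖) ^ 2 * ‖z.2.2‖ ^ 2 *
          ‖H (nu z.2.2) - ⟪H (nu z.2.2), nu z.2.2⟫ • nu z.2.2‖ ^ 2 := by ring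
      _ ≤ _ := by rw [k3]; linarith

/-- the maximum principle on compact sets of states -/
def MpS : Prop := ∀ (d : ℕ) (P : ℝ) (U : Set (X d)) (u : X d → ℝ) (T K B : Set (St d))
  (Ψ : St d → ℝ), 0 < P → VS P U u T → IsCompact K → K ⊆ T → ContinuousOn Ψ K →
  (∀ z ∈ K, z ∉ B → z.2.2 ≠ 0 ∧ K ∈ 𝓝[T] z ∧ Sub P T z Ψ) →
  ∀ z₀ ∈ K, ∀ δ : ℝ, 0 < δ → ∃ z ∈ K, z ∈ B ∧ Ψ z₀ - δ ≤ Ψ z

theorem mp : MpS := by
  intro d P U u T K B Ψ hP vs hK hKT hΨ h z₀ hz₀ δ hδ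
  have ct : Continuous fun y : St d => y.2.1 ^ 2 := by fun_prop
  obtain ⟨C, hC⟩ := hK.exists_bound_of_continuousOn ct.continuousOn
  have C0 : 0 ≤ C := (norm_nonneg _).trans (hC z₀ hz₀)
  obtain ⟨e, e0, he⟩ : ∃ e : ℝ, 0 < e ∧ e * C ≤ δ := ⟨δ / (C + 1), by positivity, by
    rw [div_mul_eq_mul_div, div_le_iff₀ (by positivity)]
    nlinarith⟩
  obtain ⟨z, hz, hm⟩ := hK.exists_isMaxOn (f := fun y => Ψ y + e * y.2.1 ^ 2) ⟨z₀, hz₀⟩
    (hΨ.add (continuous_const.mul ct).continuousOn)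
  refine ⟨z, hz, by_contra fun hB => ?_, ?_⟩
  · obtain ⟨hξ, hn, f, c, c0, hf, fz, hH⟩ := h z hz hB
    have g0 : 0 < ‖z.2.2‖ ^ 2 := pow_pos (norm_pos_iff.2 hξ) 2
    obtain ⟨_, _, j0, -⟩ := hH 0 ⟨fun v w => by simp, by simp⟩
    obtain ⟨H, a, b⟩ := vs.mx z (hKT hz) hξ (fun y => f y + e * y.2.1 ^ 2)
      (j0.c2.add (by fun_prop)) (by
        filter_upwards [hf, hn] with y k1 k2
        have : Ψ y + e * y.2.1 ^ 2 ≤ Ψ z + e * z.2.1 ^ 2 := hm k2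
        linarith) (min c (2 * e * ‖z.2.2‖ ^ 2)) (lt_min c0 (by positivity))
    obtain ⟨v, L, j, k⟩ := hH H a
    have J := jet d P z H
    have D := bas d P z H hP hξ
    rw [(J.add j (J.cmul e (J.sq J.jt))).lo] at b
    have k1 := mul_le_mul_of_nonneg_right (min_le_left c (2 * e * ‖z.2.2‖ ^ 2)) D.sg0
    have k2 := min_le_right c (2 * e * ‖z.2.2‖ ^ 2)
    have k3 := mul_le_mul_of_nonneg_left D.nt e0.le
    linarith
  · have k1 : Ψ z₀ + e * z₀.2.1 ^ 2 ≤ Ψ z + e * z.2.1 ^ 2 := hm hz₀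
    have k2 := mul_le_mul_of_nonneg_left ((le_abs_self _).trans (hC z hz)) e0.le
    have k3 : 0 ≤ e * z₀.2.1 ^ 2 := by positivity
    linarith

def MxS : Prop := ∀ (d : ℕ) (p R : ℝ) (x : X d) (u : X d → ℝ) (G : X d → X d) (D : X d → En d),
  2 < p → Wk p (ball x R) u G → ContinuousOn u (ball x R) →
  Sb 2 (ball x R) (fun y => Vp p (G y)) D → ∀ z ∈ ER (ball x R) u G, z.2.2 ≠ 0 →
  ∀ f : St d → ℝ, ContDiffAt ℝ 2 f z → IsLocalMaxOn f (ER (ball x R) u G) z →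
  ∀ c : ℝ, 0 < c → ∃ H, Adm (p - 2) z.2.2 H ∧ Lo (p - 2) f z H < c * (1 + sg (p - 2) z.2.2 H)

def VsS : Prop := ∀ (d : ℕ) (p R : ℝ) (x : X d) (u : X d → ℝ) (G : X d → X d), 2 < p →
  S.LipS d p → Wk p (ball x R) u G → ContinuousOn u (ball x R) →
  VS (p - 2) (ball x R) u (ER (ball x R) u G)

theorem mx : MxS := by
  intro d p R x u G D hp hW hu hV z hz h0 f hf hm c hc
  by_contra hn
  simp only [not_exists, not_and, not_lt] at hn
  have hP : 0 < p - 2 := by linarith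
  obtain ⟨C, hC⟩ : ∃ C : ℝ, C = 2 * (1 + d / (p - 2)) + 2 * ((1 + (p - 2)⁻¹) * ‖z.2.2‖ ^ 2) + 2 := ⟨_, rfl⟩
  have C2 : 2 ≤ C := by rw [hC]; exact le_add_of_nonneg_left (by positivity)
  obtain ⟨δ, hδ, eδ⟩ : ∃ δ : ℝ, 0 < δ ∧ δ * C = c / 2 :=
    ⟨c / 2 / C, by positivity, div_mul_cancel₀ _ (by positivity)⟩
  obtain ⟨q, hq⟩ : ∃ q : St d → ℝ, q = fun y =>
    ‖y.1 - z.1‖ ^ 2 + (y.2.1 + -z.2.1) ^ 2 + ‖y.2.2 - z.2.2‖ ^ 2 := ⟨_, rfl⟩
  have cq : ContDiff ℝ 2 q := by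
    rw [hq]
    exact (((contDiff_fst.sub contDiff_const).norm_sq ℝ).add
      ((contDiff_snd.fst.add contDiff_const).pow 2)).add
      ((contDiff_snd.snd.sub contDiff_const).norm_sq ℝ)
  have c2 : ContDiffAt ℝ 2 (fun y => f y - δ * q y) z :=
    hf.sub (contDiffAt_const.mul cq.contDiffAt)
  have e1 := per d (p - 2) (c / 2) _ z (by linarith) (by positivity) h0 c2 fun H hH => by
    have j := jet d (p - 2) z H
    have b := bas d (p - 2) z H hP h0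
    obtain ⟨v, jf⟩ := j.ex f hf
    have := (j.sub jf (j.cmul δ (j.add (j.add (b.xx z.1) (j.sq (j.addc (-z.2.1) j.jt)))
      (b.ww z.2.2)))).lo
    rw [hq, this, sub_self, inner_zero_left]
    have h2 := (b.nx z.2.2).2
    have h3 := b.sg0
    have h4 : 2 * 0 + 2 * (1 + d / (p - 2)) + (2 * (z.2.1 + -z.2.1) * 0 +
        2 * ‖vx (p - 2) z.2.2 z.2.2‖ ^ 2) + 2 * sg (p - 2) z.2.2 H ≤
        C * (1 + sg (p - 2) z.2.2 H) := by nlinarith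
    have h5 := mul_le_mul_of_nonneg_left h4 hδ.le
    rw [← mul_assoc, eδ] at h5
    linarith [hn H hH]
  have e2 := c2.eventually (by simp)
  have e3 : ∀ᶠ y : St d in 𝓝 z, y.1 ∈ ball x R ∧ y.2.2 ≠ 0 :=
    ((isOpen_ball.preimage continuous_fst).inter
      (isOpen_ne.preimage continuous_snd.snd)).mem_nhds ⟨hz.1, h0⟩
  obtain ⟨ε, hε, e⟩ := Metric.eventually_nhds_iff_ball.1
    (e1.and (e2.and (e3.and (eventually_nhdsWithin_iff.1 hm))))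
  obtain ⟨a1, -, a3, -⟩ := ess d (ball x R) u G isOpen_ball hu
  have hp' : 2 < p := by linarith
  have w := S.IdA.wmp (Ψ := fun y => f y - δ * q y) (O := ball z ε) (K := closedBall z (ε / 2))
    (m := f z - δ * (ε / 2) ^ 2) hp' isOpen_ball isBounded_ball hW hV isOpen_ball
    (isCompact_closedBall _ _) (closedBall_subset_ball (half_lt_self hε))
    (fun s hs => (e s hs).2.2.1) (fun s hs => (e s hs).2.1) (by
      filter_upwards [a1, S.sym S.sob (S.jac S.sob) d p _ u G D hp' isOpen_ball isBounded_ball hW hV,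
        S.pe S.sob d p _ u G D hp' isOpen_ball isBounded_ball hW hV] with y b1 b2 b3 b4 b5
      obtain ⟨f1, -, ⟨-, f3⟩, f4⟩ := e _ b4
      have ad := mx_adm (by linarith) f3 (b2 f3) (b3 f3)
      refine ⟨?_, ?_⟩
      · have g1 : q (y, u y, G y) < (ε / 2) ^ 2 :=
          lt_of_mul_lt_mul_left (by linarith [f4 b1]) hδ.le
        rw [hq] at g1
        have g2 : ∀ t : ℝ, t ^ 2 ≤ (ε / 2) ^ 2 → |t| ≤ ε / 2 := fun t ht =>
          abs_le_of_sq_le_sq' ht (by positivity) |> abs_le.2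
        rw [mem_closedBall_iff_norm]
        refine max_le ((le_abs_self _).trans (g2 _ ?_)) (max_le (g2 (u y + -z.2.1) ?_)
          ((le_abs_self _).trans (g2 _ ?_))) <;>
          simp only [Prod.fst_sub, Prod.snd_sub] at g1 ⊢ <;>
          nlinarith [sq_nonneg ‖y - z.1‖, sq_nonneg (u y + -z.2.1), sq_nonneg ‖G y - z.2.2‖]
      · rw [mx_lo (by linarith) _ f3]
        have := (bas d (p - 2) (y, u y, G y) (hs p (G y) (D y)) hP f3).sg0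
        exact mul_pos (by linarith) (lt_of_lt_of_le (by positivity) (f1 _ ad)))
  refine a3 z hz (ball z ε ∩ {y | f z - δ * (ε / 2) ^ 2 < f y - δ * q y})
    (inter_mem (ball_mem_nhds z hε) (c2.continuousAt.eventually (lt_mem_nhds ?_)))
    (measure_eq_zero_iff_ae_notMem.2 (w.mono fun y a b => (a b.1).not_gt b.2))
  have : q z = 0 := by simp [hq]
  simp only [this]
  nlinarith [mul_pos hδ (pow_pos (half_pos hε) 2)]

theorem vs : S.SobS → S.WsS → S.LlS → S.GapS → NatS → VsS := by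
  intro sob ws ll gap nat d p R x u G hp lip h hu
  have hp2 : 2 < p := by linarith
  obtain ⟨e1, e2, e3, e4⟩ := ess d (ball x R) u G isOpen_ball hu
  obtain ⟨e5, e6⟩ := e4 (vs_bd ws hp2 isOpen_ball lip h)
  refine ⟨isOpen_ball, hu, fun z hz => ⟨hz.1, hz.2.1⟩, e5, e6, ?_, ?_, ?_⟩
  · intro z hz z0 f hf hm c hc
    obtain ⟨r, r1, r2⟩ := exists_between (mem_ball.1 hz.1)
    have s : ball x r ⊆ ball x R := ball_subset_ball r2.le
    obtain ⟨D, hD⟩ := nat d p r R x u G hp2 r2 h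
    exact mx d p r x u G D hp (vs_mono sob h s) (hu.mono s) hD z
      ((e2 _ s isOpen_ball z).2 ⟨hz, r1⟩) z0 f hf
      (hm.on_subset fun y hy => ((e2 _ s isOpen_ball y).1 hy).1) c hc
  · intro y₀ a r o s hb y hy y' hy'
    rcases (dist_nonneg.trans (mem_closedBall.1 hy)).eq_or_lt with r0 | r0
    · subst r0
      rw [closedBall_zero, mem_singleton_iff] at hy hy'
      simp [hy, hy']
    have s' : ball y₀ r ⊆ ball x R := ball_subset_closedBall.trans s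
    have k0 : ∀ᵐ w ∂vo (ball y₀ r), ‖G w - a‖ ≤ o := by
      filter_upwards [ae_restrict_of_ae_restrict_of_subset s' e1,
        ae_restrict_mem measurableSet_ball] with w hw hm
      exact hb (w, u w, G w) hw (mem_ball_iff_norm.1 hm).le
    have k := vs_ll ll (by linarith) (vs_mono sob h s') k0 (hu.mono s')
    have cu : ContinuousOn u (closure (ball y₀ r)) := by
      rw [closure_ball _ r0.ne']
      exact hu.mono s
    rw [← closure_ball _ r0.ne'] at hy hy'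
    have k1 : ∀ w ∈ ball y₀ r, |u w - u y' - ⟪a, w - y'⟫| ≤ o * ‖w - y'‖ := fun w hw =>
      le_on_closure (f := fun t => |u w - u t - ⟪a, w - t⟫|) (g := fun t => o * ‖w - t‖)
        (k w hw) ((continuousOn_const.sub cu).sub (by fun_prop)).abs (by fun_prop) hy'
    exact le_on_closure (f := fun t => |u t - u y' - ⟪a, t - y'⟫|) (g := fun t => o * ‖t - y'‖)
      k1 ((cu.sub continuousOn_const).sub (by fun_prop)).abs (by fun_prop) hy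
  · rintro y₀ r a s a0 ⟨z₁, t1, n1, b1⟩ ⟨z₂, t2, n2, b2⟩
    by_contra hn
    push Not at hn
    have b1' : ‖z₁.2.2‖ < a := b1.lt_of_ne (hn z₁ t1 n1.le)
    have b2' : a < ‖z₂.2.2‖ := b2.lt_of_ne (hn z₂ t2 n2.le).symm
    have cl : IsClosed ((fun z : St d => ‖z.2.2‖) ''
        {z | z ∈ ER (ball x R) u G ∧ z.1 ∈ closedBall y₀ r}) :=
      ((e5 _ s (isCompact_closedBall y₀ r)).image (by fun_prop)).isClosed
    obtain ⟨ε, ε0, hε⟩ := Metric.isOpen_iff.1 cl.isOpen_compl a (by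
      rintro ⟨z, ⟨hz, hb⟩, e⟩
      exact hn z hz (mem_closedBall_iff_norm.1 hb) e)
    obtain ⟨δ, δ0, δ1, δ2⟩ : ∃ δ : ℝ, 0 < δ ∧ δ ≤ ε ∧ δ ≤ a :=
      ⟨min ε a, lt_min ε0 a0, min_le_left _ _, min_le_right _ _⟩
    obtain ⟨r', r1, r2⟩ := exists_lt_subset_ball isClosed_closedBall s
    obtain ⟨D, hD⟩ := nat d p r' R x u G hp2 r1 h
    have s' : ball y₀ r ⊆ ball x R := ball_subset_closedBall.trans s
    have p0 : 0 < p / 2 := by linarith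
    have d0 : 0 ≤ a - δ := by linarith
    have g := gap d y₀ r ((a - δ) ^ (p / 2)) ((a + δ) ^ (p / 2)) _ D (Real.rpow_nonneg d0 _)
      (Real.rpow_lt_rpow d0 (by linarith) p0)
      ((sob d (X d)).mono _ _ _ _ _ (ball_subset_closedBall.trans r2) hD) (by
        filter_upwards [ae_restrict_of_ae_restrict_of_subset s' e1,
          ae_restrict_mem measurableSet_ball] with w hw hm
        rw [vs_nv hp2, Real.rpow_le_rpow_iff (norm_nonneg _) d0 p0,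
          Real.rpow_le_rpow_iff (by linarith) (norm_nonneg _) p0]
        by_contra hc
        push Not at hc
        exact hε (a := ‖G w‖) (by rw [mem_ball, Real.dist_eq, abs_lt]; constructor <;> linarith)
          ⟨(w, u w, G w), ⟨hw, ball_subset_closedBall hm⟩, rfl⟩)
    rcases g with g | g
    · refine e3 z₂ t2 _ (vs_nh isOpen_Ioi n2 b2') (vs_null ?_)
      filter_upwards [g] with w hw hm
      rw [vs_nv hp2, Real.rpow_le_rpow_iff (norm_nonneg _) d0 p0] at hw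
      have : a < ‖G w‖ := hm
      linarith
    · refine e3 z₁ t1 _ (vs_nh isOpen_Iio n1 b1') (vs_null ?_)
      filter_upwards [g] with w hw hm
      rw [vs_nv hp2, Real.rpow_le_rpow_iff (by linarith) (norm_nonneg _) p0] at hw
      have : ‖G w‖ < a := hm
      linarith

theorem vsp : VsS :=
  have w := S.ws S.sob
  have l := S.ll S.sob
  vs S.sob w l (S.gap S.sob l) (nat S.sob w (S.dq S.sob w (S.ts S.sob) S.tr S.mon) S.wk)

def BarS : Prop := ∀ (d : ℕ) (P N : ℝ), 0 < P → 0 < N → ∃ c : ℝ, 0 < c ∧ ∀ (U : Set (X d))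
  (u : X d → ℝ) (T : Set (St d)) (x a : X d) (s o : ℝ) (z₁ : St d), VS P U u T → 0 < s → 0 < o →
  closedBall x (8 * s) ⊆ U →
  (∀ z ∈ T, ‖z.1 - x‖ ≤ 8 * s → o ≤ N * ‖z.2.2‖ ∧ ‖z.2.2 - a‖ ≤ o) → z₁ ∈ T →
  2 * s ≤ ‖z₁.1 - x‖ → ‖z₁.1 - x‖ ≤ 6 * s → (1 - c) * o ≤ ‖z₁.2.2 - a‖ →
  ∃ y, ‖y - x‖ = s / 2 ∧ |u y - u z₁.1 - ⟪z₁.2.2, y - z₁.1⟫| ≤ o * s / 4

def OscS : Prop := ∀ (d : ℕ) (P N : ℝ), 0 < P → 0 < N → ∃ l : ℝ, 0 < l ∧ l < 1 ∧
  ∀ (U : Set (X d)) (u : X d → ℝ) (T : Set (St d)) (x : X d) (s o : ℝ), VS P U u T →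
    closedBall x (16 * s) ⊆ U → 0 < s → Di T x (16 * s) o →
    (∀ z ∈ T, ‖z.1 - x‖ ≤ 16 * s → o ≤ N * ‖z.2.2‖) → Di T x s (l * o)

theorem bar_rad (d P k r I D V : ℝ) (hd : 0 ≤ d) (hP : 0 < P) (hk : 0 < k) (hr : 0 < r)
    (hg : 1 ≤ k * r ^ 2) (hI : I ≤ r * D) (hV : P⁻¹ * (4 * r ^ 2) ≤ V) :
    -((d + 2 * P) * D ^ 2 / 4) ≤
      -(d + 2 * P) / 2 * (k * r ^ 2) ^ (-(d + 2 * P) / 2 - 1) * (k * (2 * I + 2 * (1 + d / P))) +
      -(d + 2 * P) / 2 * (-(d + 2 * P) / 2 - 1) * (k * r ^ 2) ^ (-(d + 2 * P) / 2 - 2) *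
        (k ^ 2 * V) := by
  set q := d + 2 * P with hq
  have q0 : 0 < q := by rw [hq]; linarith
  have g0 : 0 < k * r ^ 2 := by positivity
  have P0 : 0 < P := by linarith
  set φ := (k * r ^ 2) ^ (-q / 2) with hφ
  have φ0 : 0 < φ := Real.rpow_pos_of_pos g0 _
  have φ1 : φ ≤ 1 := Real.rpow_le_one_of_one_le_of_nonpos hg (by linarith)
  have e1 : (k * r ^ 2) ^ (-q / 2 - 1) = φ / (k * r ^ 2) := Real.rpow_sub_one g0.ne' _
  have e2 : (k * r ^ 2) ^ (-q / 2 - 2) = φ / (k * r ^ 2) ^ 2 := by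
    rw [Real.rpow_sub g0, Real.rpow_two]
  rw [e1, e2]
  have h1 : -q / 2 * (φ / (k * r ^ 2)) * (k * (2 * I + 2 * (1 + d / P))) =
      q * φ / r ^ 2 * (-I - 1 - d / P) := by field_simp; ring
  have h2 : -q / 2 * (-q / 2 - 1) * (φ / (k * r ^ 2) ^ 2) * (k ^ 2 * V) =
      q * φ / r ^ 2 * ((q + 2) / (4 * r ^ 2) * V) := by field_simp; ring
  have h3 : (q + 2) / P ≤ (q + 2) / (4 * r ^ 2) * V := by
    have : (q + 2) / P = (q + 2) / (4 * r ^ 2) * (P⁻¹ * (4 * r ^ 2)) := by field_simp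
    rw [this]
    exact mul_le_mul_of_nonneg_left hV (by positivity)
  have h4 : (q + 2) / P = d / P + 2 + 2 / P := by rw [hq]; field_simp
  have h5 : 0 < 2 / P := by positivity
  have h6 : -(r ^ 2 * D ^ 2 / 4) ≤ -I - 1 - d / P + (q + 2) / (4 * r ^ 2) * V := by
    nlinarith [sq_nonneg (1 - r * D / 2)]
  rw [h1, h2, ← mul_add]
  have h7 : q * φ / r ^ 2 * -(r ^ 2 * D ^ 2 / 4) = -(φ * (q * D ^ 2 / 4)) := by field_simp
  have h8 := mul_le_mul_of_nonneg_left h6 (show 0 ≤ q * φ / r ^ 2 by positivity)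
  have h9 : φ * (q * D ^ 2 / 4) ≤ 1 * (q * D ^ 2 / 4) :=
    mul_le_mul_of_nonneg_right φ1 (by positivity)
  linarith

theorem bar_sub {d : ℕ} {P N s o : ℝ} (hP : 0 < P) (hs : 0 < s) (ho : 0 < o)
    (T : Set (St d)) (x a : X d) (z₁ z : St d) (hz : s / 2 ≤ ‖z.1 - x‖)
    (h14 : ‖z.1 - z₁.1‖ ≤ 14 * s) (hN : o ≤ N * ‖z.2.2‖) :
    Sub P T z (barPsi (d + 2 * P) (N ^ 2 * (d + 2 * P) / 2 + 196 * 128 + 1) s o x a z₁) := by
  have hξ : z.2.2 ≠ 0 := by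
    intro h
    rw [h, norm_zero, mul_zero] at hN
    linarith
  refine ⟨_, 2 / o ^ 2, by positivity, Eventually.of_forall fun _ => le_rfl, rfl, fun H hH => ?_⟩
  have j := jet d P z H
  have b := bas d P z H hP hξ
  have r0 : 0 < ‖z.1 - x‖ := by linarith
  have k0 : 0 < 4 / s ^ 2 := by positivity
  have g1 : 1 ≤ 4 / s ^ 2 * ‖z.1 - x‖ ^ 2 := by
    rw [div_mul_eq_mul_div, le_div_iff₀ (by positivity)]
    nlinarith
  have j1 := j.rpow (-(d + 2 * P) / 2) (j.cmul (4 / s ^ 2) (b.xx x)) (by positivity)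
  have j2 := j.cmul (128 / (o * s) ^ 2) (j.sq (j.addc (-z₁.2.1) (b.pl hH z₁.1)))
  have j3 := j.cmul ((N ^ 2 * (d + 2 * P) / 2 + 196 * 128 + 1) / o ^ 2)
    (j.addc (-(2 * ‖z₁.2.2 - a‖ ^ 2)) (j.sub (j.cmul 2 (b.ww a)) (b.ww z₁.2.2)))
  refine ⟨_, _, j.add (j.sub j1 j2) j3, ?_⟩
  have d0 : (0 : ℝ) ≤ d := Nat.cast_nonneg d
  have hV : P⁻¹ * (4 * ‖z.1 - x‖ ^ 2) ≤ ‖vx P z.2.2 ((2 : ℝ) • (z.1 - x))‖ ^ 2 := by
    have := (b.nx ((2 : ℝ) • (z.1 - x))).1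
    rw [norm_smul, Real.norm_ofNat, mul_pow] at this
    convert this using 3
    norm_num
  have h1 := bar_rad d P (4 / s ^ 2) ‖z.1 - x‖ ⟪z.1 - x, dr z.2.2 H⟫ ‖dr z.2.2 H‖ _ d0 hP k0 r0 g1
    (real_inner_le_norm _ _) hV
  rw [norm_smul, Real.norm_of_nonneg k0.le, mul_pow, norm_neg]
  have s0 := b.sg0
  have h2 : ‖dr z.2.2 H‖ ^ 2 * o ^ 2 ≤ N ^ 2 * (4 * sg P z.2.2 H) := by
    have h : o ^ 2 ≤ (N * ‖z.2.2‖) ^ 2 := pow_le_pow_left₀ ho.le hN 2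
    have h' := mul_le_mul_of_nonneg_left h (sq_nonneg ‖dr z.2.2 H‖)
    have h'' := mul_le_mul_of_nonneg_left b.nd (sq_nonneg N)
    nlinarith
  have h3 : (d + 2 * P) * ‖dr z.2.2 H‖ ^ 2 / 4 ≤ (d + 2 * P) * N ^ 2 * sg P z.2.2 H / o ^ 2 := by
    rw [le_div_iff₀ (by positivity)]
    have := mul_le_mul_of_nonneg_left h2 (show 0 ≤ d + 2 * P by linarith)
    linarith
  have h4 : ‖vh P z.2.2 H (z.1 - z₁.1)‖ ^ 2 ≤ 196 * s ^ 2 * sg P z.2.2 H := by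
    refine (b.nh _).trans (mul_le_mul_of_nonneg_right ?_ s0)
    have := pow_le_pow_left₀ (norm_nonneg _) h14 2
    linarith
  have h5 : 128 / (o * s) ^ 2 * (2 * ‖vh P z.2.2 H (z.1 - z₁.1)‖ ^ 2) ≤
      128 * 392 * sg P z.2.2 H / o ^ 2 := by
    have e : 128 * 392 * sg P z.2.2 H / o ^ 2 =
        128 / (o * s) ^ 2 * (2 * (196 * s ^ 2 * sg P z.2.2 H)) := by field_simp; ring
    rw [e]
    exact mul_le_mul_of_nonneg_left (by linarith) (by positivity)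
  have h6 : (N ^ 2 * (d + 2 * P) / 2 + 196 * 128 + 1) / o ^ 2 *
      (2 * (2 * sg P z.2.2 H) - 2 * sg P z.2.2 H) =
      (d + 2 * P) * N ^ 2 * sg P z.2.2 H / o ^ 2 + 128 * 392 * sg P z.2.2 H / o ^ 2 +
        2 / o ^ 2 * sg P z.2.2 H := by field_simp; ring
  rw [h6, mul_zero, zero_add]
  linarith

theorem bar : BarS := by
  intro d P N hP hN
  have d0 : (0 : ℝ) ≤ d := Nat.cast_nonneg d
  set q : ℝ := d + 2 * P with hq
  have q0 : 0 < q := by rw [hq]; linarith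
  set M : ℝ := N ^ 2 * q / 2 + 196 * 128 + 1 with hM
  have M0 : 196 * 128 ≤ M := by
    have : 0 ≤ N ^ 2 * q / 2 := by positivity
    rw [hM]; linarith
  set α : ℝ := (144 : ℝ) ^ (-q / 2) with hα
  set β : ℝ := (256 : ℝ) ^ (-q / 2) with hβ
  have β0 : 0 < β := Real.rpow_pos_of_pos (by norm_num) _
  have βα : β < α := Real.rpow_lt_rpow_of_neg (by norm_num) (by norm_num) (by linarith)
  have M1 : 0 < M := by linarith
  refine ⟨min 1 ((α - β) / (8 * M)), lt_min one_pos (div_pos (by linarith) (by linarith)), ?_⟩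
  intro U u T x a s o z₁ vs hs ho hU hT h1 r1 r2 hc
  set c := min 1 ((α - β) / (8 * M)) with hcd
  have c1 : c ≤ 1 := min_le_left _ _
  have c2 : 8 * M * c ≤ α - β := by
    have : c ≤ (α - β) / (8 * M) := min_le_right _ _
    rw [le_div_iff₀ (by linarith)] at this
    linarith
  have kU : {y : X d | s / 2 ≤ ‖y - x‖ ∧ ‖y - x‖ ≤ 8 * s} ⊆ closedBall x (8 * s) :=
    fun y hy => mem_closedBall_iff_norm.2 hy.2
  have kc : IsCompact {y : X d | s / 2 ≤ ‖y - x‖ ∧ ‖y - x‖ ≤ 8 * s} :=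
    (isCompact_closedBall x (8 * s)).of_isClosed_subset
      (IsClosed.and (isClosed_le continuous_const (by fun_prop))
        (isClosed_le (by fun_prop) continuous_const)) kU
  obtain ⟨z, ⟨zT, z1, z2⟩, zB, hz⟩ := mp d P U u T _
    {z | ‖z.1 - x‖ = s / 2 ∨ ‖z.1 - x‖ = 8 * s} (barPsi q M s o x a z₁) hP vs
    (vs.cpt _ (kU.trans hU) kc) (fun z hz => hz.1)
    ((bar_cont q M s o hs x a z₁).mono fun z hz => hz.2.1)
    (by
      rintro z ⟨zT, z1, z2⟩ zB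
      have n1 : ‖z.1 - x‖ ≠ s / 2 := fun h => zB (Or.inl h)
      have n2 : ‖z.1 - x‖ ≠ 8 * s := fun h => zB (Or.inr h)
      have hN' := (hT z zT z2).1
      refine ⟨fun h => ?_, ?_, bar_sub hP hs ho T x a z₁ z z1 ?_ hN'⟩
      · rw [h, norm_zero, mul_zero] at hN'
        linarith
      · have cn : ContinuousAt (fun y : St d => ‖y.1 - x‖) z := by fun_prop
        have e1 := cn.eventually (lt_mem_nhds (lt_of_le_of_ne z1 n1.symm))
        have e2 := cn.eventually (gt_mem_nhds (lt_of_le_of_ne z2 n2))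
        filter_upwards [self_mem_nhdsWithin, mem_nhdsWithin_of_mem_nhds e1,
          mem_nhdsWithin_of_mem_nhds e2] with y hy a1 a2
        exact ⟨hy, a1.le, a2.le⟩
      · have := norm_sub_le_norm_sub_add_norm_sub z.1 x z₁.1
        rw [norm_sub_rev x] at this
        linarith)
    z₁ ⟨h1, by linarith, by linarith⟩ ((α - β) / 4) (by linarith)
  have v1 : α ≤ barPsi q M s o x a z₁ z₁ := by
    have r0 : 0 < ‖z₁.1 - x‖ := by linarith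
    have g : 4 / s ^ 2 * ‖z₁.1 - x‖ ^ 2 ≤ 144 := by
      rw [div_mul_eq_mul_div, div_le_iff₀ (by positivity)]
      nlinarith
    have := Real.rpow_le_rpow_of_nonpos (by positivity) g (show -q / 2 ≤ 0 by linarith)
    simpa [barPsi] using this
  have br : M / o ^ 2 * (2 * ‖z.2.2 - a‖ ^ 2 - ‖z.2.2 - z₁.2.2‖ ^ 2 + -(2 * ‖z₁.2.2 - a‖ ^ 2)) ≤
      (α - β) / 2 - M / o ^ 2 * ‖z.2.2 - z₁.2.2‖ ^ 2 := by
    have a1 := pow_le_pow_left₀ (norm_nonneg _) (hT z zT z2).2 2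
    have a2 := pow_le_pow_left₀ (mul_nonneg (by linarith) ho.le) hc 2
    have a3 : 2 * ‖z.2.2 - a‖ ^ 2 - 2 * ‖z₁.2.2 - a‖ ^ 2 ≤ 4 * c * o ^ 2 := by
      nlinarith [sq_nonneg (c * o)]
    have a4 := mul_le_mul_of_nonneg_left a3 (show 0 ≤ M / o ^ 2 by positivity)
    have a5 : M / o ^ 2 * (4 * c * o ^ 2) = 4 * M * c := by field_simp
    linarith
  unfold barPsi at hz
  have p1 : 0 ≤ 128 / (o * s) ^ 2 * (z.2.1 - ⟪z.2.2, z.1 - z₁.1⟫ + -z₁.2.1) ^ 2 := by positivity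
  have p2 : 0 ≤ M / o ^ 2 * ‖z.2.2 - z₁.2.2‖ ^ 2 := by positivity
  unfold barPsi at v1
  rcases zB with zB | zB
  · refine ⟨z.1, zB, ?_⟩
    have g : 4 / s ^ 2 * ‖z.1 - x‖ ^ 2 = 1 := by rw [zB]; field_simp; norm_num
    rw [g, Real.one_rpow] at hz
    have r7 : ‖z.1 - z₁.1‖ ≤ 7 * s := by
      have := norm_sub_le_norm_sub_add_norm_sub z.1 x z₁.1
      rw [norm_sub_rev x] at this
      linarith
    have := bar_end s o M (z.2.1 - ⟪z.2.2, z.1 - z₁.1⟫ + -z₁.2.1) ‖z.2.2 - z₁.2.2‖ ‖z.1 - z₁.1‖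
      ⟪z.2.2 - z₁.2.2, z.1 - z₁.1⟫ hs ho M0 (norm_nonneg _) r7 (abs_real_inner_le_norm _ _)
      (by linarith)
    rw [← (vs.gr z zT).2, ← (vs.gr z₁ h1).2]
    convert this using 2
    rw [inner_sub_left]
    ring
  · have g : 4 / s ^ 2 * ‖z.1 - x‖ ^ 2 = 256 := by rw [zB]; field_simp; norm_num
    rw [g] at hz
    exfalso
    linarith

theorem osc : OscS := by
  intro d P N P1 N0
  obtain ⟨c, c0, bar⟩ := bar d P N P1 N0
  have m0 : 0 < min c (1 / 16) := lt_min c0 (by norm_num)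
  have m1 := min_le_left c (1 / 16)
  have m2 := min_le_right c (1 / 16)
  generalize min c (1 / 16) = m at m0 m1 m2
  refine ⟨1 - m, by linarith, by linarith, fun U u T x s o hV hU s0 hD hN z₁ a1 z₂ a2 b1 b2 => ?_⟩
  by_contra hn
  replace hn := not_le.1 hn
  have o1 := hD z₁ a1 z₂ a2 (by linarith) (by linarith)
  have o0 : 0 < o := by nlinarith
  have n0 : 0 < ‖z₁.2.2 - z₂.2.2‖ := lt_trans (by nlinarith) hn
  obtain ⟨e, he, he'⟩ : ∃ e : X d, ‖e‖ = 4 * s ∧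
      ⟪z₁.2.2 - z₂.2.2, e⟫ = 4 * s * ‖z₁.2.2 - z₂.2.2‖ := by
    refine ⟨(4 * s / ‖z₁.2.2 - z₂.2.2‖) • (z₁.2.2 - z₂.2.2), ?_, ?_⟩
    · rw [norm_smul, Real.norm_of_nonneg (by positivity), div_mul_cancel₀ _ n0.ne']
    · rw [real_inner_smul_right, real_inner_self_eq_norm_sq]
      field_simp
  have y0 : ‖z₁.1 + e - x‖ ≤ 5 * s := by
    rw [add_sub_right_comm]
    linarith [norm_add_le (z₁.1 - x) e]
  have tr : ∀ y : X d, ‖y - (z₁.1 + e)‖ ≤ 8 * s → ‖y - x‖ ≤ 16 * s := fun y hy => by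
    linarith [norm_sub_le_norm_sub_add_norm_sub y (z₁.1 + e) x]
  have lip : ∀ z ∈ T, ‖z.1 - x‖ ≤ s → ∀ y y' : X d, ‖y - x‖ ≤ 16 * s → ‖y' - x‖ ≤ 16 * s →
      |u y - u y' - ⟪z.2.2, y - y'⟫| ≤ o * ‖y - y'‖ := fun z hz h y y' hy hy' =>
    hV.lip x z.2.2 (16 * s) o hU (fun w hw k => hD w hw z hz k (by linarith)) y
      (mem_closedBall_iff_norm.2 hy) y' (mem_closedBall_iff_norm.2 hy')
  have key : ∀ z ∈ T, ∀ z' ∈ T, ‖z.1 - x‖ ≤ s → ‖z'.1 - x‖ ≤ s → 2 * s ≤ ‖z.1 - (z₁.1 + e)‖ →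
      ‖z.1 - (z₁.1 + e)‖ ≤ 6 * s → (1 - m) * o < ‖z.2.2 - z'.2.2‖ →
      |u (z₁.1 + e) - u z.1 - ⟪z.2.2, z₁.1 + e - z.1⟫| ≤ 3 * (o * s) / 4 := by
    intro z hz z' hz' h h' k1 k2 k3
    obtain ⟨y, c1, c2⟩ := bar U u T (z₁.1 + e) z'.2.2 s o z hV s0 o0
      (fun y hy => hU (mem_closedBall_iff_norm.2 (tr y (mem_closedBall_iff_norm.1 hy))))
      (fun w hw k => ⟨hN w hw (tr _ k), hD w hw z' hz' (tr _ k) (by linarith)⟩) hz k1 k2
      (by nlinarith)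
    have c3 := lip z hz h (z₁.1 + e) y (by linarith) (tr y (by linarith))
    rw [norm_sub_rev, c1] at c3
    have c4 : ⟪z.2.2, z₁.1 + e - z.1⟫ = ⟪z.2.2, z₁.1 + e - y⟫ + ⟪z.2.2, y - z.1⟫ := by
      rw [← inner_add_right, sub_add_sub_cancel]
    rw [abs_le] at c2 c3 ⊢
    constructor <;> linarith [c2.1, c2.2, c3.1, c3.2]
  have d1 : ‖z₁.1 - (z₁.1 + e)‖ = 4 * s := by rw [sub_add_cancel_left, norm_neg, he]
  have d2 : ‖z₁.1 - z₂.1‖ ≤ 2 * s := by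
    linarith [norm_sub_le_norm_sub_add_norm_sub z₁.1 x z₂.1, norm_sub_rev x z₂.1]
  have k1 := key z₁ a1 z₂ a2 b1 b2 (by linarith) (by linarith) hn
  have k2 := key z₂ a2 z₁ a1 b2 b1
    (by linarith [norm_sub_le_norm_sub_add_norm_sub z₁.1 z₂.1 (z₁.1 + e)])
    (by linarith [norm_sub_le_norm_sub_add_norm_sub z₂.1 z₁.1 (z₁.1 + e),
      norm_sub_rev z₂.1 z₁.1]) (by rwa [norm_sub_rev])
  have k3 := lip z₂ a2 b2 z₁.1 z₂.1 (by linarith) (by linarith)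
  have k4 : ⟪z₂.2.2, z₁.1 + e - z₂.1⟫ = ⟪z₂.2.2, z₁.1 - z₂.1⟫ + ⟪z₂.2.2, e⟫ := by
    rw [← inner_add_right, add_sub_right_comm]
  rw [add_sub_cancel_left] at k1
  rw [inner_sub_left] at he'
  have k5 : o * ‖z₁.1 - z₂.1‖ ≤ o * (2 * s) := mul_le_mul_of_nonneg_left d2 o0.le
  have k6 : s * ((1 - m) * o) < s * ‖z₁.2.2 - z₂.2.2‖ := mul_lt_mul_of_pos_left hn s0
  have k7 : m * (o * s) ≤ 1 / 16 * (o * s) := mul_le_mul_of_nonneg_right m2 (by positivity)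
  have k8 : 0 < o * s := by positivity
  rw [abs_le] at k1 k2 k3
  nlinarith [k1.1, k1.2, k2.1, k2.2, k3.1, k3.2]

end Pool.Agent.MP_815c6c_an.H.K
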