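import Pool.Agent.MP_815c6c_an.W.KeyRed

/-! The inequality `Key` from an explicit coupling, two Lagrange multipliers and a Schur
complement. -/

set_option autoImplicit false

noncomputable section

namespace Pool.Agent.MP_815c6c_an.W.Lg

open KR

theorem key_of_blk' (P q c S μ μ₂ : ℝ) (j : J6) (h : c ^ 2 + S ^ 2 = 1)
    (h3 : 0 < 1 + j.c ∨ 0 < (co q c S j).r)
    (hb : Blk (co q c S j) P c S μ (μ + μ₂)) (ho : Out (co q c S j) P μ μ₂) :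
    Key P q c S j μ := by
  rcases h3 with h3 | h3
  · exact key_of_blk P q c S μ μ₂ j h h3 hb ho
  intro h₁₁ h₁₂ h₁₃ h₂₂ h₂₃ h₃₃ w₁ w₂ w₃ n₁ n₂ n₃ t htr hw c1 c2 c3 hn ht x1 x2 x3 x4
  rw [d1_eq q c S j h] at c1 c2 c3 x1 x2
  have hr : c * (1 + (co q c S j).e1) + S * (co q c S j).e2 = (co q c S j).r := by
    simp only [co]
    linear_combination (j.f + j.t / q) * h
  have hg : -S * (1 + (co q c S j).e1) + c * (co q c S j).e2 = -(co q c S j).g2 := by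
    simp only [co]
    linear_combination (-(S * j.c)) * h
  have n3 : n₃ = 0 := by
    rcases mul_eq_zero.1 x3 with h0 | h0
    · exfalso
      apply h3.ne'
      rw [h0] at x1 x2
      linear_combination -hr + c * x1 + S * x2
    · exact h0
  subst n3
  obtain ⟨s, a₁, a₂, b₁, b₂, e, he, hp, hv⟩ := hb h₁₁ h₁₂ h₂₂ h₃₃ w₁ w₂ (c * n₁ + S * n₂)
    (-S * n₁ + c * n₂) t htr (by nlinarith [sq_nonneg w₂, sq_nonneg w₃])
    (by nlinarith [sq_nonneg w₁, sq_nonneg w₃]) (by linear_combination c1)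
    (by linear_combination c2) (by linear_combination (n₁ ^ 2 + n₂ ^ 2) * h + hn) ht
    (by linear_combination hr - c * x1 - S * x2) (by linear_combination hg + S * x1 - c * x2)
  have ho' := ho h₁₃ h₂₃ w₃ (by nlinarith [sq_nonneg w₁, sq_nonneg w₂]) (by linear_combination c3)
  refine ⟨s, c * a₁ - S * a₂, S * a₁ + c * a₂, 0, c * b₁ - S * b₂, S * b₁ + c * b₂, 0, 0, 0, e,
    le_trans (sq_nonneg e) he, ?_, ?_⟩
  · intro v₁ v₂ v₃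
    have := hp (c * v₁ + S * v₂) (-S * v₁ + c * v₂)
    have e1 : (c * v₁ + S * v₂) ^ 2 + (-S * v₁ + c * v₂) ^ 2 = v₁ ^ 2 + v₂ ^ 2 := by
      linear_combination (v₁ ^ 2 + v₂ ^ 2) * h
    have e2 : (c * v₁ + S * v₂) * (c * n₁ + S * n₂) + (-S * v₁ + c * v₂) * (-S * n₁ + c * n₂) =
        v₁ * n₁ + v₂ * n₂ := by linear_combination (v₁ * n₁ + v₂ * n₂) * h
    rw [e1, e2] at this
    have e3 := mul_le_mul_of_nonneg_left he (sq_nonneg v₃)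
    calc _ = ((1 + P) * ((c * v₁ + S * v₂) * a₁ + (-S * v₁ + c * v₂) * a₂) ^ 2 +
          ((c * v₁ + S * v₂) * b₁ + (-S * v₁ + c * v₂) * b₂) ^ 2) + v₃ ^ 2 * e ^ 2 := by ring
      _ ≤ s * (v₁ ^ 2 + v₂ ^ 2 + P * (v₁ * n₁ + v₂ * n₂) ^ 2) + v₃ ^ 2 * s := add_le_add this e3
      _ = _ := by ring
  · have f1 := d2_eq q c S j h h₁₁ h₁₂ h₁₃ (a₁ - c) (a₂ + S) 0
    have f2 := d2_eq q c S j h 0 0 0 a₁ a₂ 0
    have f3 := d2_eq q c S j h h₁₂ h₂₂ h₂₃ (b₁ - S) (b₂ - c) 0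
    have f4 := d2_eq q c S j h 0 0 0 b₁ b₂ 0
    have f5 := d2_eq q c S j h h₁₃ h₂₃ h₃₃ 0 0 (e - 1)
    have f6 := d2_eq q c S j h 0 0 0 0 0 e
    have f7 := d2_eq q c S j h 0 0 0 c (-S) 0
    have f8 := d2_eq q c S j h 0 0 0 S c 0
    have f9 := d2_eq q c S j h 0 0 0 0 0 1
    have f10 := d2_eq q c S j h 0 0 0 (c * n₁ + S * n₂) (-S * n₁ + c * n₂) 0
    rw [show c * (a₁ - c) - S * (a₂ + S) = c * a₁ - S * a₂ - 1 by linear_combination -h,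
      show S * (a₁ - c) + c * (a₂ + S) = S * a₁ + c * a₂ by ring] at f1
    rw [show c * (b₁ - S) - S * (b₂ - c) = c * b₁ - S * b₂ by ring,
      show S * (b₁ - S) + c * (b₂ - c) = S * b₁ + c * b₂ - 1 by linear_combination -h] at f3
    rw [show c * (0 : ℝ) - S * 0 = 0 by ring, show S * (0 : ℝ) + c * 0 = 0 by ring] at f5 f6 f9
    rw [show c * c - S * -S = 1 by linear_combination h, show S * c + c * -S = 0 by ring] at f7
    rw [show c * S - S * c = 0 by ring, show S * S + c * c = 1 by linear_combination h] at f8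
    rw [show c * (c * n₁ + S * n₂) - S * (-S * n₁ + c * n₂) = n₁ by linear_combination n₁ * h,
      show S * (c * n₁ + S * n₂) + c * (-S * n₁ + c * n₂) = n₂ by linear_combination n₂ * h] at f10
    rw [f1, f2, f3, f4, f5, f6, f7, f8, f9, f10, d1_eq q c S j h]
    generalize co q c S j = k at *
    simp only [Co.vin, Co.xt, Co.vout, Co.dd, Co.yy, Co.zz, Co.cc] at hv ho' ⊢
    have g1 : s * (k.z11 + k.z22) * (c ^ 2 + S ^ 2 - 1) = 0 := by rw [h]; ring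
    have g2 : 2 * P * h₁₂ * (k.g1 * h₁₂ + k.g2 * h₂₂ - (k.e2 - w₂)) = 0 := by
      rw [show k.g1 * h₁₂ + k.g2 * h₂₂ - (k.e2 - w₂) = 0 by linear_combination c2]; ring
    have g3 : 2 * P * h₁₃ * (k.g1 * h₁₃ + k.g2 * h₂₃ + w₃) = 0 := by
      rw [show k.g1 * h₁₃ + k.g2 * h₂₃ + w₃ = 0 by linear_combination c3]; ring
    linear_combination hv + ho' + g1 - g2 - g3

/-- the coefficients in terms of few quantities -/
def kk (T c S u d y m Y tc Y₂ e₁ : ℝ) : Co where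
  g1 := c * d + T * y
  g2 := S * d
  r := c * d + T * y + T * m
  e1 := T * e₁
  e2 := T * (S * (m + y))
  y11 := T * Y
  y12 := -(T * (S * tc))
  y22 := T * Y₂
  c11 := c * d + T * y - u * (T * Y)
  c12 := S * d + u * (T * (S * tc))
  c21 := -(S * d) + T * (S * tc)
  c22 := c * d + T * y - T * Y₂
  z11 := T * (u * m + u ^ 2 * Y)
  z12 := -(u * (T * (S * tc)))
  z22 := T * (m + Y₂)
  y3 := T * y
  c3 := d
  z3 := T * (m + y)

theorem co_eq (q c S T : ℝ) (j : J6) : co q c S (jT T j) = kk T c S q⁻¹ (1 + T * j.c)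
    (j.f - j.t - c * j.c) (j.t * (1 + q⁻¹)) (j.tt - j.t) j.tc
    (j.f - j.t - c * j.c + S ^ 2 * j.cc) (c * (j.f + j.t * q⁻¹) + S ^ 2 * j.c) := by
  simp only [co, jT, kk, Co.mk.injEq, div_eq_mul_inv, ← inv_pow]
  refine ⟨?_, ?_, ?_, ?_, ?_, ?_, ?_, ?_, ?_, ?_, ?_, ?_, ?_, ?_, ?_, ?_, ?_, ?_⟩ <;>
    first | trivial | ring

theorem schur {Q κ a B α S tc Y p₁ p₂ p₃ c₀ Λ C : ℝ} (hκ : κ * Q = 1) (κ0 : 0 < κ) (ha : 0 < a)
    (hB : 0 < B) (eB : B = -(a * α) - κ * (S ^ 2 * tc ^ 2) - (κ * Y) ^ 2)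
    (eΛ : Λ = a * p₁ - κ * (S ^ 2 * tc * p₂ + Y * p₃))
    (eC : C = -(a * c₀ + κ * (S ^ 2 * p₂ ^ 2) + p₃ ^ 2)) (h : Λ ^ 2 ≤ B * C) (X v x : ℝ) :
    -(a * Q * v ^ 2) - a * x ^ 2 + α * X ^ 2 - 2 * S * tc * v * X - 2 * κ * Y * X * x +
      2 * p₁ * X + 2 * S * p₂ * v + 2 * p₃ * x + c₀ ≤ 0 := by
  have h1 : -(B * X ^ 2) + 2 * Λ * X - C ≤ 0 := by
    refine le_of_mul_le_mul_left ?_ hB
    have := sq_nonneg (B * X - Λ)
    linear_combination this + h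
  refine le_of_mul_le_mul_left ?_ ha
  have h2 := mul_nonneg κ0.le (sq_nonneg (a * Q * v - S * (p₂ - tc * X)))
  have h3 := sq_nonneg (a * x - (p₃ - κ * Y * X))
  rw [eB, eΛ, eC] at h1
  linear_combination h1 + h2 + h3 +
    (a ^ 2 * Q * v ^ 2 - 2 * a * v * S * (p₂ - tc * X)) * hκ

theorem out {P κ ε δ a B T c S u d y m Y tc Y₂ e₁ : ℝ} (hT : 0 < T) (hκ : κ * (1 + P) = 1)
    (P0 : 0 ≤ P) (ε0 : 0 < ε) (δ0 : 0 ≤ δ) (hδ : δ ≤ ε * κ) (ha : 0 < a) (hB : 0 < B) (Y0 : 0 ≤ Y)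
    (ea : a = -(Y₂ + κ * Y + ε))
    (eB : B = -(a * (y + κ * Y + ε)) - κ * (S ^ 2 * tc ^ 2) - (κ * Y) ^ 2) :
    Out (kk T c S u d y m Y tc Y₂ e₁) P (δ * T) (δ * T) := by
  intro h₁ h₂ w hw _
  obtain ⟨o, rfl⟩ : ∃ o, w = T * o := ⟨w / T, by field_simp⟩
  have T2 : 0 < T ^ 2 := by positivity
  have ho : o ^ 2 ≤ δ ^ 2 := le_of_mul_le_mul_left (by linear_combination hw) T2
  have Q0 : 0 < 1 + P := by linarith
  have κ0 : 0 < κ := by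
    by_contra hn
    have := mul_nonpos_of_nonpos_of_nonneg (not_lt.1 hn) Q0.le
    linarith
  obtain ⟨A, hA⟩ : ∃ A, A = -(y + κ * Y + ε) := ⟨_, rfl⟩
  have b1 : κ * (S * tc) ^ 2 < a * A := by
    have := sq_nonneg (κ * Y)
    rw [hA]
    linear_combination hB + eB + this
  have A0 : 0 < A := by
    have := mul_nonneg κ0.le (sq_nonneg (S * tc))
    exact (pos_iff_pos_of_mul_pos (show 0 < a * A by linarith)).1 ha
  have p := psd ((1 + P) * A) (S * tc) a h₁ h₂ (by positivity) ha.le (by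
    have := mul_le_mul_of_nonneg_left b1.le Q0.le
    linear_combination this - (S * tc) ^ 2 * hκ)
  have κY := mul_nonneg κ0.le Y0
  have p2 := mul_nonneg (show 0 ≤ A + 2 * ε + 2 * (κ * Y) by positivity) (sq_nonneg h₂)
  have p3 : 2 * P * h₁ * o - (1 + P) * ε * h₁ ^ 2 ≤ δ := by
    refine le_of_mul_le_mul_left ?_ (show 0 < (1 + P) * ε by positivity)
    have a1 := sq_nonneg ((1 + P) * ε * h₁ - P * o)
    have a2 := mul_le_mul_of_nonneg_left ho (sq_nonneg P)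
    have a3 : P ^ 2 * δ ^ 2 ≤ (1 + P) ^ 2 * δ ^ 2 :=
      mul_le_mul_of_nonneg_right (pow_le_pow_left₀ P0 (by linarith) 2) (sq_nonneg δ)
    have a4 := mul_le_mul_of_nonneg_left hδ (show 0 ≤ (1 + P) ^ 2 * δ by positivity)
    linear_combination a1 + a2 + a3 + a4 + (1 + P) * ε * δ * hκ
  simp only [Co.vout, Co.yy, kk]
  have e : (1 + P) * (T * y) * h₁ ^ 2 + T * y * h₂ ^ 2 +
      (T * Y * h₁ ^ 2 + 2 * -(T * (S * tc)) * h₁ * h₂ + T * Y₂ * h₂ ^ 2) + 2 * P * h₁ * (T * o) =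
      T * ((1 + P) * y * h₁ ^ 2 + y * h₂ ^ 2 + Y * h₁ ^ 2 - 2 * (S * tc) * h₁ * h₂ +
        Y₂ * h₂ ^ 2 + 2 * P * h₁ * o) := by ring
  rw [e, mul_comm δ]
  refine mul_le_mul_of_nonneg_left ?_ hT.le
  rw [hA, ea] at p
  rw [hA] at p2
  linear_combination p + p2 + p3 - Y * h₁ ^ 2 * hκ

/-- the value of the block game for the explicit coupling; `V = Q V₁`, `W = Q W₁` -/
theorem val_eq {P T c S u d y m Y tc Y₂ e₁ U V₁ W₁ η h₁ h₂ h₃ o N₁ N₂ t g r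
    β ub vd kn kv A₁ B₁ B₂ X s sl : ℝ}
    (hS : c ^ 2 + S ^ 2 = 1) (hg : g = c * d + T * y) (hr : r = g + T * m)
    (hN : N₁ ^ 2 + N₂ ^ 2 = 1) (x1 : t * N₁ = r) (x2 : t * N₂ = -(S * d))
    (hβ : β = U * d - 1) (hub : ub = U * r - c) (hvd : vd = S ^ 2 * ((1 + P) * V₁) * d)
    (hkn : kn = β + V₁ * r) (hkv : kv = (1 + P) * S ^ 2 * V₁ ^ 2) (hB₂ : B₂ = ub - vd)
    (hA₁ : A₁ = ub - S ^ 2 * V₁ * d - W₁ * (c + B₂))
    (hB₁ : B₁ = β + (1 + P) * V₁ * r - (1 + P) * W₁ * (1 + kn)) (hX : X = r ^ 2 + S ^ 2 * d ^ 2)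
    (hs : s = (U ^ 2 + kv) * X)
    (hsl : sl = (1 + P) * W₁ * (2 * s - W₁ * ((c + B₂) ^ 2 + (1 + P) * S ^ 2 * (1 + kn) ^ 2))) :
    (∀ v₁ v₂ : ℝ, (1 + P) * (v₁ * (c + A₁) + v₂ * -(S * (1 + kn))) ^ 2 +
      (v₁ * (S * (1 + B₁)) + v₂ * (c + B₂)) ^ 2 + v₁ ^ 2 * sl =
        s * (v₁ ^ 2 + v₂ ^ 2 + P * (v₁ * N₁ + v₂ * N₂) ^ 2)) ∧
    (kk T c S u d y m Y tc Y₂ e₁).vin P c S h₁ h₂ h₃ (-((1 + P) * h₁ + h₃)) (T * o)
      (c + A₁) (-(S * (1 + kn))) (S * (1 + B₁)) (c + B₂) (U * (c * r + S ^ 2 * d) - T * η) s +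
    (kk T c S u d y m Y tc Y₂ e₁).xt P (c + A₁) (-(S * (1 + kn))) (S * (1 + B₁)) (c + B₂) s N₁ N₂ =
    T * ((1 + P) * (Y * (h₁ - A₁ * u) ^ 2 - 2 * S * tc * (h₁ - A₁ * u) * (h₂ + S * kn) +
        Y₂ * (h₂ + S * kn) ^ 2) +
      (Y * (h₂ - S * B₁ * u) ^ 2 - 2 * S * tc * (h₂ - S * B₁ * u) * (h₃ - B₂) +
        Y₂ * (h₃ - B₂) ^ 2) +
      y * (((1 + P) * h₁ + h₃) ^ 2 + 2 * ub * ((1 + P) * h₁ + h₃)) +
      2 * vd * m * (h₁ + h₃) + 2 * P * (S * β * m + o) * h₂ +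
      m * (((1 + P) * A₁ ^ 2 + S ^ 2 * B₁ ^ 2) * u + (1 + P) * S ^ 2 * kn ^ 2 + B₂ ^ 2) +
      (m + y) * (ub ^ 2 + S ^ 2 * β ^ 2 + kv * X) + (u * m + u ^ 2 * Y) * sl +
      2 * η * (d * ((1 + P) * h₁ + h₃) + T * (m + y))) -
      2 * ((1 + P) * W₁) * ((c + B₂) * (g * h₁ + S * d * h₂) +
        S * (1 + kn) * (g * h₂ + S * d * h₃)) := by
  have ht : r ^ 2 + S ^ 2 * d ^ 2 = t ^ 2 := by
    have a : S ^ 2 * d ^ 2 = (t * N₂) ^ 2 := by rw [x2]; ring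
    rw [← x1, a]
    linear_combination t ^ 2 * hN
  have a1 : (r ^ 2 + S ^ 2 * d ^ 2) * N₁ ^ 2 = r ^ 2 := by rw [ht, ← x1]; ring
  have a2 : (r ^ 2 + S ^ 2 * d ^ 2) * (N₁ * N₂) = -(r * (S * d)) := by
    rw [ht, show -(r * (S * d)) = r * -(S * d) by ring, ← x2, ← x1]; ring
  have a3 : (r ^ 2 + S ^ 2 * d ^ 2) * N₂ ^ 2 = S ^ 2 * d ^ 2 := by
    rw [ht, show S ^ 2 * d ^ 2 = (-(S * d)) ^ 2 by ring, ← x2]; ring
  have e0 : (kk T c S u d y m Y tc Y₂ e₁).xt P (c + A₁) (-(S * (1 + kn))) (S * (1 + B₁)) (c + B₂)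
      s N₁ N₂ = T * (u * m + u ^ 2 * Y) * sl := by
    simp only [Co.xt, Co.zz, kk]
    subst hsl hs hX hB₁ hA₁ hB₂ hkv hkn hvd hub hβ
    linear_combination (U ^ 2 + (1 + P) * S ^ 2 * V₁ ^ 2) * P * (T * (u * m + u ^ 2 * Y) * a1 -
      2 * (u * (T * (S * tc))) * a2 + T * (m + Y₂) * a3)
  refine ⟨fun v₁ v₂ => ?_, ?_⟩
  · subst hsl hs hX hB₁ hA₁ hB₂ hkv hkn hvd hub hβ
    linear_combination -((U ^ 2 + (1 + P) * S ^ 2 * V₁ ^ 2) * P) *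
      (v₁ ^ 2 * a1 + 2 * v₁ * v₂ * a2 + v₂ ^ 2 * a3)
  · rw [e0]
    simp only [Co.vin, Co.dd, Co.yy, Co.cc, Co.zz, kk]
    clear e0 hsl
    subst hs hX hB₁ hA₁ hB₂ hkv hkn hvd hub hβ hr hg
    linear_combination (-(2 * d * ((1 + P) * h₁ + h₃)) - T * (m + y)) * hS

/-- The inequality at one state. Hints: `U, l` with `κ l = U d - 1`, and `V, W, η, la, mu`. -/
theorem keyL {P q c S T δ ε κ θ u σ d y m z z₁ Y tc Y₂ e₁ g r U l V W η la mu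
    ub vd n kn kv A₁ B₁ B₂ ga D X s sl a α B p₁ p₂ p₃ Λ : ℝ} {j : J6}
    (hS : c ^ 2 + S ^ 2 = 1) (hT : 0 < T) (P0 : 0 ≤ P) (hκ : κ * (1 + P) = 1) (ε0 : 0 < ε)
    (δ0 : 0 ≤ δ) (hδ : δ ≤ ε * κ) (hq : q⁻¹ = u) (hu : u = θ * κ) (hσ : σ = 1 - c ^ 2)
    (hd : d = 1 + T * j.c) (hy : y = j.f - j.t - c * j.c) (hm : m = j.t * (1 + u))
    (hz : z = m + y) (hY : Y = j.tt - j.t) (hz₁ : z₁ = u * (m + u * Y)) (htc : tc = j.tc)
    (hY₂ : Y₂ = y + σ * j.cc) (he₁ : e₁ = c * z + j.c) (hg : g = c + T * (j.f - j.t))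
    (hr : r = g + T * m) (hl : κ * l = U * d - 1) (hub : ub = U * r - c) (hvd : vd = σ * V * d)
    (hn : n = l + V * r) (hkn : kn = κ * n) (hkv : kv = κ * (σ * V * V)) (hB₂ : B₂ = ub - vd)
    (hA₁ : A₁ = ub - κ * (vd + W * (c + B₂))) (hB₁ : B₁ = κ * l + V * r - W * (1 + kn))
    (hga : ga = kn + u * B₁) (hD : D = θ * A₁ + B₂) (hX : X = r ^ 2 + σ * d ^ 2)
    (hs : s = (U ^ 2 + kv) * X)
    (hsl : sl = W * (2 * s - W * (κ * (c + B₂) ^ 2 + σ * (1 + kn) ^ 2)))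
    (ha : a = -(Y₂ + κ * Y + ε)) (hα : α = y + κ * Y + ε)
    (hB : B = -(a * α) - κ * (σ * tc ^ 2) - (κ * Y) ^ 2)
    (hp₁ : p₁ = y * (D + ub) + κ * (vd * m + la * g) + η * d)
    (hp₂ : p₂ = (1 - κ) * l * m + la * d + mu * g - Y * ga)
    (hp₃ : p₃ = σ * (tc * ga + mu * d) + vd * m - κ * (vd * m + la * g))
    (hΛ : Λ = a * p₁ - κ * (σ * tc * p₂ + Y * p₃))
    (h3 : 0 < d ∨ 0 < r) (Y0 : 0 ≤ Y) (a0 : 0 < a) (B0 : 0 < B) (sl0 : 0 ≤ sl)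
    (hη : η = 0 ∨ (U * (c * r + σ * d) - T * η) ^ 2 ≤ s)
    (H : ∀ E₁ E₂ ω c₀ : ℝ, |E₁ - e₁| ≤ δ → |E₂ - σ * z| ≤ δ → |ω| ≤ δ →
      c₀ = Y * σ * ga ^ 2 + y * (D * (D + 2 * ub)) + 2 * vd * m * (u * A₁ + B₂) +
        σ * m * kn * (n - 2 * (1 - κ) * l) + 2 * n * ω - 2 * W * ((c + B₂) * E₁ + (1 + kn) * E₂) +
        m * (θ * A₁ ^ 2 + u * σ * B₁ ^ 2 + B₂ ^ 2) + z * (ub ^ 2 + σ * (κ * l) ^ 2 + kv * X) +
        z₁ * sl + 2 * la * (g * u * A₁ - σ * d * kn - T * E₁) +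
        2 * mu * (σ * (d * B₂ - g * kn) - T * E₂) + 2 * η * (d * D + T * z) + 3 * δ →
      Λ ^ 2 ≤ B * -(a * c₀ + κ * (σ * p₂ ^ 2) + p₃ ^ 2)) :
    Key P q c S (jT T j) (δ * T) := by
  have Q0 : 0 < 1 + P := add_pos_of_pos_of_nonneg one_pos P0
  have κ0 : 0 < κ := (pos_iff_pos_of_mul_pos (hκ.symm ▸ one_pos : 0 < κ * (1 + P))).2 Q0
  obtain rfl : σ = S ^ 2 := by rw [hσ]; linear_combination -hS
  have eco : co q c S (jT T j) = kk T c S u d y m Y tc Y₂ e₁ := by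
    have e : e₁ = c * (j.f + j.t * u) + S ^ 2 * j.c := by
      rw [he₁, hz, hm, hy]
      linear_combination (-j.c) * hS
    rw [co_eq, hq, hd, hm, hY, htc, hY₂, hy, e]
  have hg' : g = c * d + T * y := by rw [hg, hd, hy]; ring
  refine key_of_blk' P q c S _ (δ * T) _ hS ?_ ?_ ?_
  · rw [eco]
    refine h3.imp (fun h => ?_) (fun h => ?_)
    · rw [hd] at h
      exact h
    · rw [hr, hg'] at h
      exact h
  · rw [eco]
    intro h₁ h₂ h₃ h₄ w₁ w₂ N₁ N₂ t tr hw1 hw2 c1 c2 hN _ x1 x2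
    obtain ⟨o₁, rfl⟩ : ∃ o, w₁ = T * o := ⟨w₁ / T, by field_simp⟩
    obtain ⟨o, rfl⟩ : ∃ o, w₂ = T * o := ⟨w₂ / T, by field_simp⟩
    have T2 : 0 < T ^ 2 := by positivity
    have m1 : |o₁| ≤ δ :=
      abs_le_of_sq_le_sq (le_of_mul_le_mul_left (by linear_combination hw1) T2) δ0
    have m2 : o ^ 2 ≤ δ ^ 2 := le_of_mul_le_mul_left (by linear_combination hw2) T2
    have m3 : |S * o| ≤ δ := by
      refine abs_le_of_sq_le_sq ?_ δ0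
      have := mul_nonneg (sq_nonneg c) (sq_nonneg o)
      linear_combination m2 + this + o ^ 2 * hS
    have κ1 : 0 ≤ 1 - κ := by linear_combination mul_nonneg κ0.le P0 + hκ
    have m4 : |-((1 - κ) * (S * o))| ≤ δ := by
      rw [abs_neg, abs_mul, abs_of_nonneg κ1]
      linear_combination m3 + mul_nonneg κ0.le (abs_nonneg (S * o))
    obtain rfl : h₄ = -((1 + P) * h₁ + h₃) := by linear_combination tr
    simp only [kk] at c1 c2 x1 x2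
    rw [← hg'] at c1 c2 x1
    rw [← hr] at x1
    obtain ⟨V₁, rfl⟩ : ∃ V₁, V = (1 + P) * V₁ := ⟨κ * V, by linear_combination -V * hκ⟩
    obtain ⟨W₁, rfl⟩ : ∃ W₁, W = (1 + P) * W₁ := ⟨κ * W, by linear_combination -W * hκ⟩
    obtain ⟨β, hβ⟩ : ∃ β, β = U * d - 1 := ⟨_, rfl⟩
    rw [← hβ] at hl
    have el : l = (1 + P) * β := by linear_combination (1 + P) * hl - l * hκ
    have eθ : θ = (1 + P) * u := by rw [hu]; linear_combination -θ * hκ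
    have ekn : kn = β + V₁ * r := by rw [hkn, hn]; linear_combination hl + V₁ * r * hκ
    have en : n = (1 + P) * kn := by rw [hkn]; linear_combination -n * hκ
    obtain ⟨v1, v2⟩ := val_eq (u := u) (Y := Y) (tc := tc) (Y₂ := Y₂) (e₁ := e₁) (η := η)
      (h₁ := h₁) (h₂ := h₂) (h₃ := h₃) (o := o) (V₁ := V₁) (W₁ := W₁) (kv := kv) (A₁ := A₁)
      (B₁ := B₁) (sl := sl) hS hg' hr hN x1 x2 hβ hub hvd ekn
      (by rw [hkv]; linear_combination (1 + P) * S ^ 2 * V₁ ^ 2 * hκ) hB₂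
      (by rw [hA₁, hvd]; linear_combination -(S ^ 2 * V₁ * d + W₁ * (c + B₂)) * hκ)
      (by rw [hB₁, hl]) hX hs
      (by rw [hsl]; linear_combination -((1 + P) * W₁ * W₁ * (c + B₂) ^ 2) * hκ)
    refine ⟨s, c + A₁, -(S * (1 + kn)), S * (1 + B₁), c + B₂, U * (c * r + S ^ 2 * d) - T * η,
      ?_, fun v₁ v₂ => ?_, ?_⟩
    · rcases hη with h0 | h0
      · have X0 : 0 ≤ X := by rw [hX]; positivity
        have k0 : 0 ≤ kv * X := mul_nonneg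
          (by rw [hkv, mul_assoc, ← sq]; positivity) X0
        have k1 := mul_nonneg (sq_nonneg U) (sq_nonneg (S * (r - c * d)))
        rw [h0, hs]
        rw [hX] at k0 ⊢
        linear_combination k0 + k1 + U ^ 2 * (r ^ 2 + S ^ 2 * d ^ 2) * hS
      · exact h0
    · rw [← v1 v₁ v₂]
      exact le_add_of_nonneg_right (mul_nonneg (sq_nonneg _) sl0)
    · obtain ⟨c₀, hc₀⟩ : ∃ c₀, c₀ = _ := ⟨_, rfl⟩
      have h0 := H (e₁ - o₁) (S ^ 2 * z - S * o) (-((1 - κ) * (S * o))) c₀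
        (by rw [sub_sub_cancel_left, abs_neg]; exact m1)
        (by rw [sub_sub_cancel_left, abs_neg]; exact m3) m4 hc₀
      have h1 := schur hκ κ0 a0 B0 hB hΛ rfl h0 ((1 + P) * (h₁ - A₁ * u) + (h₃ - B₂))
        (h₂ + S * kn) (h₃ - B₂)
      have h2 : 2 * P * o * (h₂ + S * kn) - (1 + P) * ε * (h₂ + S * kn) ^ 2 ≤ δ := by
        refine le_of_mul_le_mul_left ?_ (show 0 < (1 + P) * ε by positivity)
        have a1 := sq_nonneg ((1 + P) * ε * (h₂ + S * kn) - P * o)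
        have a2 := mul_le_mul_of_nonneg_left m2 (sq_nonneg P)
        have a3 : P ^ 2 * δ ^ 2 ≤ (1 + P) ^ 2 * δ ^ 2 :=
          mul_le_mul_of_nonneg_right (pow_le_pow_left₀ P0 (le_add_of_nonneg_left one_pos.le) 2)
            (sq_nonneg δ)
        have a4 := mul_le_mul_of_nonneg_left hδ (show 0 ≤ (1 + P) ^ 2 * δ by positivity)
        linear_combination a1 + a2 + a3 + a4 + (1 + P) * ε * δ * hκ
      have h4 := mul_nonneg ε0.le (sq_nonneg (h₃ - B₂))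
      have h5 := mul_nonneg ε0.le (sq_nonneg ((1 + P) * (h₁ - A₁ * u) + (h₃ - B₂)))
      rw [v2, c1, c2]
      rw [hc₀, ha, hα, hp₁, hp₂, hp₃, hga, hD, hl, el, eθ, en, hz, hz₁] at h1
      have h6 := mul_le_mul_of_nonneg_left (add_le_add (add_le_add h1 h2) (add_le_add h4 h5)) hT.le
      linear_combination h6 - T * 2 * la * c1 - T * 2 * mu * S * c2 -
        T * (Y * (h₂ + S * kn) ^ 2 + Y * (1 + P) * (h₁ - A₁ * u) ^ 2 +
          2 * (vd * m + la * g) * (h₁ - A₁ * u) - 2 * S * (h₂ + S * kn) * β * m +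
          2 * S ^ 2 * m * kn * β + 2 * kn * S * o) * hκ
  · rw [eco]
    exact out hT hκ P0 ε0 δ0 hδ a0 B0 Y0 ha (by rw [hB, hα])

end Pool.Agent.MP_815c6c_an.W.Lg
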