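import Pool.Agent.MP_815c6c_an.W.Glue

/-! Pure powers `F = T ψ(c)`, `T = exp (b τ)`, `ψ` a polynomial: all rows of the certificate
except `key` follow from one Boolean test. -/

set_option autoImplicit false

namespace Pool.Agent.MP_815c6c_an.W.Pw

/-- Horner evaluation -/
noncomputable def ev (l : List ℚ) (c : ℝ) : ℝ := l.foldr (fun a r => a + c * r) 0

@[simp] theorem ev_nil (c : ℝ) : ev [] c = 0 := rfl
@[simp] theorem ev_cons (a : ℚ) (l : List ℚ) (c : ℝ) : ev (a :: l) c = a + c * ev l c := rfl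

def ad : List ℚ → List ℚ → List ℚ
  | [], r => r
  | l, [] => l
  | a :: l, b :: r => (a + b) :: ad l r

theorem ev_ad (c : ℝ) : ∀ l r : List ℚ, ev (ad l r) c = ev l c + ev r c
  | [], r => by simp [ad]
  | a :: l, [] => by simp [ad]
  | a :: l, b :: r => by
    simp only [ad, ev_cons, ev_ad c l r]
    push_cast
    ring

def sm (x : ℚ) (l : List ℚ) : List ℚ := l.map (x * ·)

theorem ev_sm (x : ℚ) (c : ℝ) : ∀ l : List ℚ, ev (sm x l) c = x * ev l c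
  | [] => by simp [sm]
  | a :: l => by
    have := ev_sm x c l
    simp only [sm, List.map_cons, ev_cons] at this ⊢
    rw [this]
    push_cast
    ring

/-- the derivative -/
def dv : List ℚ → List ℚ
  | [] => []
  | _ :: l => ad l (0 :: dv l)

theorem ev_dv (a : ℚ) (l : List ℚ) (c : ℝ) : ev (dv (a :: l)) c = ev l c + c * ev (dv l) c := by
  simp [dv, ev_ad]

theorem dv_ad (c : ℝ) : ∀ l r : List ℚ, ev (dv (ad l r)) c = ev (dv l) c + ev (dv r) c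
  | [], r => by simp [ad, dv]
  | a :: l, [] => by simp [ad, dv]
  | a :: l, b :: r => by
    simp only [ad, ev_dv, ev_ad, dv_ad c l r]
    ring

theorem hc_eq (c : ℝ) : ∀ l : List ℚ,
    hc (l.map (↑)) c = ⟨ev l c, 0, ev (dv l) c, 0, 0, ev (dv (dv l)) c⟩
  | [] => by simp [hc, J6.cst, dv]
  | a :: l => by
    have h := hc_eq c l
    have e : hc ((a :: l).map (↑)) c = (J6.cst a).add ((J6.vy c).mul (hc (l.map (↑)) c)) := rfl
    have e2 : ev (dv (dv (a :: l))) c = 2 * ev (dv l) c + c * ev (dv (dv l)) c := by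
      have : dv (a :: l) = ad l (0 :: dv l) := rfl
      rw [this, dv_ad, ev_dv]
      ring
    rw [e, h, e2, ev_dv]
    simp only [J6.add, J6.mul, J6.cst, J6.vy, J6.mk.injEq, ev_cons]
    refine ⟨trivial, ?_, ?_, ?_, ?_, ?_⟩ <;> ring

/-- the Taylor shift -/
def sh (x : ℚ) : List ℚ → List ℚ
  | [] => []
  | a :: l => ad (a :: sh x l) (sm x (sh x l))

theorem ev_sh (x : ℚ) (t : ℝ) : ∀ l : List ℚ, ev (sh x l) t = ev l (x + t)
  | [] => rfl
  | a :: l => by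
    simp only [sh, ev_ad, ev_sm, ev_cons, ev_sh x t l]
    ring

def ab (h : ℚ) (l : List ℚ) : ℚ := l.foldr (fun a r => |a| + h * r) 0

theorem ev_ab (h : ℚ) (t : ℝ) (ht : |t| ≤ h) : ∀ l : List ℚ, |ev l t| ≤ ab h l
  | [] => by simp [ab]
  | a :: l => by
    have i := ev_ab h t ht l
    have e : ab h (a :: l) = |a| + h * ab h l := rfl
    rw [e, ev_cons]
    push_cast
    refine (abs_add_le _ _).trans (add_le_add le_rfl ?_)
    rw [abs_mul]
    exact mul_le_mul ht i (abs_nonneg _) ((abs_nonneg _).trans ht)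

/-- positivity on `[x - h, x + h]` -/
def p1 (l : List ℚ) (x h : ℚ) : Bool :=
  match sh x l with
  | [] => false
  | a :: r => decide (h * ab h r < a)

theorem p1_ok {l : List ℚ} {x h : ℚ} (H : p1 l x h = true) {c : ℝ} (hc : |c - x| ≤ h) :
    0 < ev l c := by
  have e := ev_sh x (c - x) l
  rw [add_sub_cancel] at e
  rw [← e]
  unfold p1 at H
  split at H
  · cases H
  · rename_i a r hr
    rw [hr, ev_cons]
    have a1 : ((h * ab h r : ℚ) : ℝ) < a := by exact_mod_cast of_decide_eq_true H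
    have a2 : |(c - x) * ev r (c - x)| ≤ h * ab h r := by
      rw [abs_mul]
      exact mul_le_mul hc (ev_ab h _ hc r) (abs_nonneg _) ((abs_nonneg _).trans hc)
    push_cast at a1
    linarith [neg_abs_le ((c - x) * ev r (c - x))]

/-- positivity on `[x - h, x + h]` by bisection of depth at most `n` -/
def pb (l : List ℚ) : ℕ → ℚ → ℚ → Bool
  | 0, x, h => p1 l x h
  | n + 1, x, h => p1 l x h || (pb l n (x - h / 2) (h / 2) && pb l n (x + h / 2) (h / 2))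

theorem pb_ok {l : List ℚ} {c : ℝ} : ∀ (n : ℕ) (x h : ℚ), pb l n x h = true → |c - x| ≤ h →
    0 < ev l c
  | 0, _, _, H, hc => p1_ok H hc
  | n + 1, x, h, H, hc => by
    simp only [pb, Bool.or_eq_true, Bool.and_eq_true] at H
    rcases H with H | H
    · exact p1_ok H hc
    · obtain ⟨u, v⟩ := abs_le.1 hc
      rcases le_total c x with w | w
      · refine pb_ok n _ _ H.1 ?_
        push_cast
        exact abs_le.2 ⟨by linarith, by linarith⟩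
      · refine pb_ok n _ _ H.2 ?_
        push_cast
        exact abs_le.2 ⟨by linarith, by linarith⟩

theorem pos_ok {l : List ℚ} {n : ℕ} (H : pb l n 0 1 = true) {c : ℝ} (hc : c ^ 2 ≤ 1) :
    0 < ev l c :=
  pb_ok n 0 1 H (by simpa using (sq_le_one_iff_abs_le_one c).1 hc)

/-- the data: `ψ = ev l`, the plateau is `K (T / T₁) ^ (1 / b)`; each `(x, y)` in `tg` has
`x ≤ y ^ (n / m) ≤ y ^ b` and gives a tangent line; the first one is used at `T₀` -/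
structure D where
  l : List ℚ
  b : ℚ
  T₀ : ℚ
  T₁ : ℚ
  K : ℚ
  m : ℕ
  n : ℕ
  tg : List (ℚ × ℚ)

/-- the line `α + β T` above the plateau -/
def D.al (d : D) (z : ℚ × ℚ) : ℚ := d.K * z.2 * (1 - 1 / d.b)
def D.be (d : D) (z : ℚ × ℚ) : ℚ := d.K * z.2 / (d.b * z.1 * d.T₁)

def D.ok (d : D) : Bool :=
  decide (1 ≤ d.b ∧ 0 < d.T₁ ∧ d.T₁ < d.T₀ ∧ 1 ≤ d.K ∧ d.m ≠ 0 ∧ (d.n : ℚ) ≤ d.b * d.m) &&
  d.tg.all (fun z => decide (0 < z.1 ∧ 1 ≤ z.2 ∧ z.1 ^ d.m ≤ z.2 ^ d.n)) &&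
  pb (ad [d.K, -1] (sm (-d.T₁) d.l)) 12 0 1 &&
  match d.tg with
  | [] => false
  | z :: _ => pb (ad [-(d.al z + d.be z * d.T₀), 1] (sm d.T₀ d.l)) 12 0 1

/-- the jets divided by `T` -/
noncomputable def D.j (d : D) (c : ℝ) : J6 :=
  ⟨ev d.l c, d.b * ev d.l c, ev (dv d.l) c, (d.b : ℝ) ^ 2 * ev d.l c, d.b * ev (dv d.l) c,
    ev (dv (dv d.l)) c⟩

theorem D.line (d : D) (b1 : 1 ≤ d.b) (t1 : 0 < d.T₁) (k1 : 1 ≤ d.K) (m0 : d.m ≠ 0)
    (nm : (d.n : ℚ) ≤ d.b * d.m) (tg : ∀ z ∈ d.tg, 0 < z.1 ∧ 1 ≤ z.2 ∧ z.1 ^ d.m ≤ z.2 ^ d.n)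
    (z : ℚ × ℚ) (hz : z ∈ d.tg) (T : ℝ) (hT : 0 < T) :
    d.K * (T / d.T₁) ^ (d.b : ℝ)⁻¹ ≤ d.al z + d.be z * T := by
  have b1' : (1 : ℝ) ≤ d.b := by exact_mod_cast b1
  have t1' : (0 : ℝ) < d.T₁ := by exact_mod_cast t1
  have k1' : (1 : ℝ) ≤ d.K := by exact_mod_cast k1
  obtain ⟨z1, z2, z3⟩ := tg z hz
  have z1' : (0 : ℝ) < z.1 := by exact_mod_cast z1
  have z2' : (1 : ℝ) ≤ z.2 := by exact_mod_cast z2
  have a := plat_le (x := T / d.T₁) b1' (by positivity) z1' (by linarith)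
    (le_rpow_of m0 z2' (by exact_mod_cast nm) (by exact_mod_cast z3))
  refine (mul_le_mul_of_nonneg_left a (by linarith)).trans (le_of_eq ?_)
  have : (d.b : ℝ) ≠ 0 := by linarith
  simp only [D.al, D.be]
  push_cast
  field_simp
  ring

theorem D.cert (d : D) (H : d.ok = true) {P q δ : ℝ} (bq : (d.b : ℝ) < q) (d0 : 0 < δ)
    (key : ∀ T c S : ℝ, 0 < T → T ≤ d.T₀ → c ^ 2 + S ^ 2 = 1 → 0 ≤ S →
      (T ≤ d.T₁ ∨ ∀ z ∈ d.tg, c + T * ev d.l c ≤ d.al z + d.be z * T) →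
      Key P q c S (KR.jT T (d.j c)) (δ * T)) :
    ∃ F j κ τ₀ τ₁ C δ e, CertR P q F j κ τ₀ τ₁ C δ e := by
  simp only [D.ok, Bool.and_eq_true, decide_eq_true_eq, List.all_eq_true] at H
  obtain ⟨⟨⟨⟨b1, t1, t0, k1, m0, nm⟩, tg⟩, hi⟩, lo⟩ := H
  have b1' : (1 : ℝ) ≤ d.b := by exact_mod_cast b1
  have t1' : (0 : ℝ) < d.T₁ := by exact_mod_cast t1
  have t0' : (d.T₁ : ℝ) < d.T₀ := by exact_mod_cast t0
  have k1' : (1 : ℝ) ≤ d.K := by exact_mod_cast k1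
  have ln := d.line b1 t1 k1 m0 nm tg
  refine certR_T (M := (ab 1 d.l : ℚ)) (δ := δ) (Φ := fun y => (hc (d.l.map (↑)) y.2).f)
    (φ := fun _ c => hc (d.l.map (↑)) c) b1' bq t1' t0' k1' d0 (fun T c _ _ g => ⟨jt_hc _ (T, c), ?_⟩)
    (fun c g => ?_) (fun c g => ?_) fun T c S h0 h1 s s0 r => ?_
  · rw [hc_eq]
    exact ev_ab 1 c (by simpa using (sq_le_one_iff_abs_le_one c).1 g) _
  · split at lo
    · cases lo
    · rename_i z r hz
      have a := pos_ok lo g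
      have a2 := ln z (by rw [hz]; exact List.mem_cons_self) d.T₀ (t1'.trans t0')
      simp only [ev_ad, ev_sm, ev_cons, ev_nil] at a
      push_cast at a
      rw [hc_eq]
      linarith
  · have a := pos_ok hi g
    simp only [ev_ad, ev_sm, ev_cons, ev_nil] at a
    push_cast at a
    rw [hc_eq]
    linarith
  · have e : (hc (d.l.map (↑)) c).th d.b T T = d.j c := by
      rw [hc_eq]
      simp only [J6.th, D.j, J6.mk.injEq]
      refine ⟨trivial, ?_, trivial, ?_, ?_, trivial⟩ <;> ring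
    rw [e]
    refine key T c S h0 h1 s s0 (r.imp id fun r z hz => ?_)
    rw [hc_eq] at r
    exact r.trans (ln z hz T h0)

/-- explicit values for seven coefficients -/
theorem ev7 (a₀ a₁ a₂ a₃ a₄ a₅ a₆ : ℚ) (c : ℝ) :
    ev [a₀, a₁, a₂, a₃, a₄, a₅, a₆] c =
      a₀ + c * (a₁ + c * (a₂ + c * (a₃ + c * (a₄ + c * (a₅ + c * a₆))))) ∧
    ev (dv [a₀, a₁, a₂, a₃, a₄, a₅, a₆]) c =
      a₁ + c * (2 * a₂ + c * (3 * a₃ + c * (4 * a₄ + c * (5 * a₅ + c * (6 * a₆))))) ∧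
    ev (dv (dv [a₀, a₁, a₂, a₃, a₄, a₅, a₆])) c =
      2 * a₂ + c * (6 * a₃ + c * (12 * a₄ + c * (20 * a₅ + c * (30 * a₆)))) := by
  simp only [dv, ad, ev_cons, ev_nil]
  push_cast
  refine ⟨?_, ?_, ?_⟩ <;> ring

/-- the same data read as `ψ = 1 / ev l` -/
def D.okI (d : D) : Bool :=
  decide (1 ≤ d.b ∧ 0 < d.T₁ ∧ d.T₁ < d.T₀ ∧ 1 ≤ d.K ∧ d.m ≠ 0 ∧ (d.n : ℚ) ≤ d.b * d.m) &&
  d.tg.all (fun z => decide (0 < z.1 ∧ 1 ≤ z.2 ∧ z.1 ^ d.m ≤ z.2 ^ d.n)) &&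
  pb (ad [-1 / 10] d.l) 12 0 1 &&
  pb (ad [-d.T₁] (ad (sm d.K d.l) (0 :: sm (-1) d.l))) 12 0 1 &&
  match d.tg with
  | [] => false
  | z :: _ => pb (ad [d.T₀] (ad (sm (-(d.al z + d.be z * d.T₀)) d.l) (0 :: d.l))) 12 0 1

/-- the jets divided by `T`; `v = 1 / ev l c` -/
noncomputable def D.jI (d : D) (c v : ℝ) : J6 :=
  ⟨v, d.b * v, -v ^ 2 * ev (dv d.l) c, (d.b : ℝ) ^ 2 * v, d.b * (-v ^ 2 * ev (dv d.l) c),
    -v ^ 2 * ev (dv (dv d.l)) c + 2 * v ^ 3 * ev (dv d.l) c ^ 2⟩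

theorem D.certI (d : D) (H : d.okI = true) {P q δ : ℝ} (bq : (d.b : ℝ) < q) (d0 : 0 < δ)
    (key : ∀ T c S v : ℝ, 0 < T → T ≤ d.T₀ → c ^ 2 + S ^ 2 = 1 → 0 ≤ S → 1 / 10 < ev d.l c →
      v = (ev d.l c)⁻¹ → (T ≤ d.T₁ ∨ ∀ z ∈ d.tg, c + T * v ≤ d.al z + d.be z * T) →
      Key P q c S (KR.jT T (d.jI c v)) (δ * T)) :
    ∃ F j κ τ₀ τ₁ C δ e, CertR P q F j κ τ₀ τ₁ C δ e := by
  simp only [D.okI, Bool.and_eq_true, decide_eq_true_eq, List.all_eq_true] at H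
  obtain ⟨⟨⟨⟨⟨b1, t1, t0, k1, m0, nm⟩, tg⟩, ps⟩, hi⟩, lo⟩ := H
  have b1' : (1 : ℝ) ≤ d.b := by exact_mod_cast b1
  have t1' : (0 : ℝ) < d.T₁ := by exact_mod_cast t1
  have t0' : (d.T₁ : ℝ) < d.T₀ := by exact_mod_cast t0
  have k1' : (1 : ℝ) ≤ d.K := by exact_mod_cast k1
  have ln := d.line b1 t1 k1 m0 nm tg
  have ps' : ∀ c : ℝ, c ^ 2 ≤ 1 → 1 / 10 < ev d.l c := fun c g => by
    have a := pos_ok ps g
    simp only [ev_ad, ev_cons, ev_nil] at a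
    push_cast at a
    linarith
  have e0 : ∀ c : ℝ, (hc (d.l.map (↑)) c).inv.f = (ev d.l c)⁻¹ := fun c => by
    rw [hc_eq]
    rfl
  refine certR_T (M := 10) (δ := δ) (Φ := fun y => ((hc (d.l.map (↑)) y.2).f)⁻¹)
    (φ := fun _ c => (hc (d.l.map (↑)) c).inv) b1' bq t1' t0' k1' d0
    (fun T c _ _ g => ⟨(jt_hc _ (T, c)).inv ?_, ?_⟩)
    (fun c g => ?_) (fun c g => ?_) fun T c S h0 h1 s s0 r => ?_
  · rw [hc_eq]
    exact (lt_trans (by norm_num) (ps' c g)).ne'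
  · have a := ps' c g
    have a0 : 0 < ev d.l c := lt_trans (by norm_num) a
    rw [e0, abs_of_pos (inv_pos.2 a0), inv_le_comm₀ a0 (by norm_num)]
    linarith
  · split at lo
    · cases lo
    · rename_i z r hz
      have a := pos_ok lo g
      have a0 : 0 < ev d.l c := lt_trans (by norm_num) (ps' c g)
      have a2 := ln z (by rw [hz]; exact List.mem_cons_self) d.T₀ (t1'.trans t0')
      simp only [ev_ad, ev_sm, ev_cons, ev_nil] at a
      push_cast at a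
      rw [e0, ← div_eq_mul_inv, ← sub_lt_iff_lt_add', lt_div_iff₀ a0]
      linarith [mul_le_mul_of_nonneg_right a2 a0.le]
  · have a := pos_ok hi g
    have a0 : 0 < ev d.l c := lt_trans (by norm_num) (ps' c g)
    simp only [ev_ad, ev_sm, ev_cons, ev_nil] at a
    push_cast at a
    rw [e0, ← div_eq_mul_inv, ← lt_sub_iff_add_lt', div_lt_iff₀ a0]
    linarith
  · have e : (hc (d.l.map (↑)) c).inv.th d.b T T = d.jI c (ev d.l c)⁻¹ := by
      rw [hc_eq]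
      simp only [J6.th, D.jI, J6.inv, J6.cmp, J6.mk.injEq]
      refine ⟨trivial, ?_, trivial, ?_, ?_, trivial⟩ <;> ring
    rw [e]
    refine key T c S _ h0 h1 s s0 (ps' c (by nlinarith [sq_nonneg S])) rfl
      (r.imp id fun r z hz => ?_)
    rw [e0] at r
    exact r.trans (ln z hz T h0)

end Pool.Agent.MP_815c6c_an.W.Pw
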