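import Pool.Agent.MP_815c6c_an.W.AA
import Pool.Agent.MP_815c6c_an.W.Lag
import Pool.Agent.MP_815c6c_an.W.Pow

/-! The leaf check for pure powers `F = T ψ(c)` on boxes in `(T, 1 + c, κ)`, `κ = 1 / (1 + P)`. -/

set_option autoImplicit false
set_option exponentiation.threshold 4000

noncomputable section

namespace Pool.Agent.MP_815c6c_an.W.LA

open AA

def cQ : ℕ := cT - 2 ^ 60
/-- the constant `(n - 2 ^ 60) / 2 ^ 48` -/
def oc (n : ℕ) : A := ⟨Nat.add n cQ, Nat.succ (Nat.shiftRight n 83)⟩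
/-- Horner's scheme -/
def hn (x : N) (l : List ℕ) : ℕ → A :=
  List.rec (motive := fun _ => ℕ → A) oc (fun d _ r c => add (oc c) (rnd (mul x (nrm (r d))))) l
def nr (w : A) : N := nrm (rnd w)
def zero : N := cN 0
def thN : N := cN 281749854617600
def eps : A := cst 268435456

/-- the last block: multipliers and Schur complement -/
def bF (T k u ks sg d g r y m z z1 Y kY tc e1 a B be lb n ub vd B2 rp al sd kv X W Ws g2 kr vr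
    la mu et : N) : Bool :=
  let wa := mul W al
  let A1 := nrm (sub ub.toA (rnd (add (mul k vd) (mul W kr))))
  let B1 := nrm (sub (add be.toA vr.toA) (rnd wa))
  let tA := nr (mul thN A1)
  let uA := nr (mul u A1)
  let uB := nr (mul u B1)
  let sB := nr (mul sg B1)
  let sn := nr (mul ks n)
  let sa := nrm (add sn.toA (rnd (mul sg uB)))
  let ga := nrm (add (sub al.toA one) uB.toA)
  let D1 := nrm (add (add tA.toA B2.toA) ub.toA)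
  let yD := nr (mul y D1)
  let Yg := nr (mul Y ga)
  let vm := mul vd m
  let q1 := nr (add vm (mul la g))
  let kq := mul k q1
  let p1 := nrm (add yD.toA (rnd (add kq (mul et d))))
  let p2 := nrm (sub (rnd (add (add (mul lb m) (mul la d)) (mul mu g))) Yg.toA)
  let p3 := nr (sub (add (add (mul tc sa) (mul mu sd)) vm) kq)
  let kp := nr (mul ks p2)
  let La := nr (sub (mul a p1) (add (mul kp tc) (mul kY p3)))
  let n2 := nrm (sub n.toA (smul 2 lb.toA))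
  let aB := nrm (add uA.toA B2.toA)
  let M := nr (add (add (add (mul tA A1) (mul uB sB)) (add (mul B2 B2) (mul ub ub)))
    (add (mul sn n2) (smul 2 (mul vd aB))))
  let sb := nr (mul sg be)
  let Z := nr (add (mul sb be) (mul kv X))
  let zw := nr (mul z1 Ws)
  let E1 := nrm (wid 1 e1.toA)
  let E2 := nrm (wid 1 (rnd (mul sg z)))
  let om := nrm (wid 1 zero.toA)
  let x1 := nr (add (mul W rp) (mul la T))
  let x2 := nr (add wa (mul mu T))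
  let y1 := nr (sub (mul g uA) (mul d sn))
  let y2 := nr (sub (mul sd B2) (mul g sn))
  let y3 := nr (sub (mul d D1) (mul be r))
  let c0 := nrm (wid 3 (rnd (add (add (add (mul Yg sa) (mul yD D1)) (add (mul m M) (add (mul z Z)
    (mul zw g2)))) (smul 2 (sub (add (add (mul n om) (mul la y1)) (add (mul mu y2) (mul et y3)))
    (add (mul x1 E1) (mul x2 E2)))))))
  let C := nr (neg (add (mul a c0) (add (mul kp p2) (mul p3 p3))))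
  pos (rnd (sub (mul B C) (mul La La)))

/-- the coupling -/
def bC (f : Bool) (T c k u ks sg d g r y m z z1 Y kY tc e1 a B l V om la mu et : N) : Bool :=
  let be := nr (mul k l)
  let id := nrm (inv d)
  let U := nrm (add id.toA (rnd (mul be id)))
  let ub := nrm (sub (rnd (mul U r)) c.toA)
  let sd := nr (mul sg d)
  let vd := nr (mul V sd)
  let vr := nr (mul V r)
  let n := nrm (add l.toA vr.toA)
  let al := nrm (add one (rnd (mul k n)))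
  let lb := nrm (sub l.toA be.toA)
  let kw := nr (mul ks V)
  let kv := nr (mul kw V)
  let B2 := nrm (sub ub.toA vd.toA)
  let rp := nrm (add c.toA B2.toA)
  let X := nr (add (mul r r) (mul sd d))
  let sU := nrm (add (rnd (mul U U)) kv.toA)
  let s := nr (mul sU X)
  let W := nr (mul om s)
  let kr := nr (mul k rp)
  let sl := nr (mul sg al)
  let gm := nr (add (mul kr rp) (mul sl al))
  let g2 := nrm (sub (smul 2 one) (rnd (mul om gm)))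
  let Ws := nr (mul W s)
  let Uz := nr (mul U z)
  let tz := nr (mul T Uz)
  let sz := nr (mul sg Uz)
  let e2 := nrm (add one (rnd (mul T e1)))
  let e3 := nr (sub (smul 2 (mul U e2)) (mul T et))
  and (and (pos om.toA) (pos g2.toA)) (and (or f (pos (rnd (add (mul tz sz) (mul et e3)))))
    (bF T k u ks sg d g r y m z z1 Y kY tc e1 a B be lb n ub vd B2 rp al sd kv X W Ws g2 kr vr
      la mu et))

/-- the data of a slab; `b`, `T1` and the lines are multiples of `2 ^ (-48)` -/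
structure Pc : Type where
  c0 : ℕ
  l0 : List ℕ
  c1 : ℕ
  l1 : List ℕ
  c2 : ℕ
  l2 : List ℕ
  b : ℕ
  bb : ℕ
  T1 : ℕ
  ln : List (ℕ × ℕ)
  s0 : ℕ
  s1 : ℕ
  s2 : ℕ
  s3 : ℕ
  s4 : ℕ
  s5 : ℕ

/-- the jets -/
def bJ (p : Pc) (fl : Bool) (D : ℕ) (T c k f : N) : Bool :=
  let f1 := nrm (hn c p.l1 p.c1)
  let f2 := nrm (hn c p.l2 p.c2)
  let sg := nrm (sub one (rnd (mul c c)))
  let u := nr (mul thN k)
  let ks := nr (mul k sg)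
  let tb := nr (mul (cN p.b) f)
  let ft := nrm (sub f.toA tb.toA)
  let y := nrm (sub ft.toA (rnd (mul c f1)))
  let Y := nr (mul (cN p.bb) f)
  let m := nrm (add tb.toA (rnd (mul tb u)))
  let z := nrm (add m.toA y.toA)
  let tc := nr (mul (cN p.b) f1)
  let e1 := nrm (add (rnd (mul c z)) f1.toA)
  let d := nrm (add one (rnd (mul T f1)))
  let g := nrm (add c.toA (rnd (mul T ft)))
  let r := nrm (add g.toA (rnd (mul T m)))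
  let kY := nr (mul k Y)
  let w := nrm (add m.toA (rnd (mul thN kY)))
  let z1 := nr (mul u w)
  let ap := nrm (add (add y.toA kY.toA) eps)
  let a := nrm (neg (add ap.toA (rnd (mul sg f2))))
  let kt := nr (mul ks tc)
  let B := nr (neg (add (mul a ap) (add (mul kt tc) (mul kY kY))))
  and (and (and (pos d.toA) (pos Y.toA)) (and (pos a.toA) (pos B.toA)))
    (bC fl T c k u ks sg d g r y m z z1 Y kY tc e1 a B (nrm (aff p.s0 (fld D 0)))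
      (nrm (aff p.s1 (fld D 1))) (nrm (aff p.s2 (fld D 2))) (nrm (aff p.s3 (fld D 3)))
      (nrm (aff p.s4 (fld D 4))) (cond fl zero (nrm (aff p.s5 (fld D 5)))))

/-- exclusion by one of the lines -/
def bX (p : Pc) (T c f : N) : Bool :=
  and (pos (sub T.toA (oc p.T1))) (List.rec (motive := fun _ => Bool) false
    (fun y _ r => or (pos (sub (add c.toA (rnd (sub (mul T f) (mul T (cN y.2))))) (oc y.1))) r) p.ln)

/-- `d % 4 = 0`: `η = 0`; `d % 4 = 1`: `η` from the data; otherwise exclusion -/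
def leaf (p : Pc) (d l h m i n j : ℕ) : Bool :=
  let T := nrm (var 1008 l h)
  let c := nrm (sub (var 1152 m i) one)
  let k := nrm (var 1440 n j)
  let f := nrm (hn c p.l0 p.c0)
  cond (Nat.blt (Nat.mod d 4) 2) (bJ p (Nat.beq (Nat.mod d 4) 0) (Nat.shiftRight d 2) T c k f)
    (bX p T c f)

variable {t : Pt}

def dl : ℝ := 1 / 2 ^ 48
def th : ℝ := 1 + 1 / 1024
def ep : ℝ := 1 / 2 ^ 20

theorem gen {p : N} {y : ℝ} (h : RN t p y) : ∃ z, RN t p z ∧ z = y := ⟨y, h, rfl⟩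
theorem nr_ok {w : A} {y : ℝ} (h : RW t w y) : RN t (nr w) y := nrm_ok (rnd_ok h)
theorem zero_ok : RN t zero 0 := cN_ok 0 (by simp)
theorem th_ok : RN t thN th := cN_ok _ (by norm_num [th])
theorem eps_ok : RA t eps ep := cst_ok _ (by norm_num) (by norm_num [ep])
theorem w1 {a : A} {y z : ℝ} (h : RA t a y) (e : |z - y| ≤ dl) : RN t (nrm (wid 1 a)) z :=
  nrm_ok (wid_ok 1 h (by
    rw [dl, le_div_iff₀ (by positivity)] at e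
    simpa using e))
theorem w3 {a : A} {y : ℝ} (h : RA t a y) : RA t (wid 3 a) (y + 3 * dl) :=
  wid_ok 3 h (by rw [add_sub_cancel_left, abs_of_pos (by norm_num [dl])]; norm_num [dl])

theorem bF_ok {T k u ks sg d g r y m z z1 Y kY tc e1 a B be lb n ub vd B2 rp al sd kv X W Ws g2 kr vr la mu et : N}
    {T' k' u' ks' sg' d' g' r' y' m' z' z1' Y' kY' tc' e1' a' B' be' lb' n' ub' vd' B2' rp' al'
    sd' kv' X' W' Ws' g2' kr' vr' la' mu' et' c l V kn sl A₁ B₁ γ D p₁ p₂ p₃ Λ E₁ E₂ ω c₀ : ℝ}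
    (hT : RN t T T') (hk : RN t k k') (hu : RN t u u') (hks : RN t ks ks') (hsg : RN t sg sg')
    (hd : RN t d d') (hg : RN t g g') (hr : RN t r r') (hy : RN t y y') (hm : RN t m m')
    (hz : RN t z z') (hz1 : RN t z1 z1') (hY : RN t Y Y') (hkY : RN t kY kY') (htc : RN t tc tc')
    (he1 : RN t e1 e1') (ha : RN t a a') (hB : RN t B B') (hbe : RN t be be') (hlb : RN t lb lb')
    (hn : RN t n n') (hub : RN t ub ub') (hvd : RN t vd vd') (hB2 : RN t B2 B2')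
    (hrp : RN t rp rp') (hal : RN t al al') (hsd : RN t sd sd') (hkv : RN t kv kv')
    (hX : RN t X X') (hW : RN t W W') (hWs : RN t Ws Ws') (hg2 : RN t g2 g2') (hkr : RN t kr kr')
    (hvr : RN t vr vr') (hla : RN t la la') (hmu : RN t mu mu') (het : RN t et et')
    (rks : ks' = k' * sg') (rbe : be' = k' * l) (rlb : lb' = l - be') (rsd : sd' = sg' * d')
    (rrp : rp' = c + B2') (ral : al' = 1 + kn) (rkn : kn = k' * n') (rkr : kr' = k' * rp')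
    (rvr : vr' = V * r') (rkY : kY' = k' * Y') (rz : z' = m' + y') (rsl : sl = Ws' * g2')
    (rbr : be' * r' = d' * ub' - T' * z')
    (hA₁ : A₁ = ub' - k' * (vd' + W' * (c + B2'))) (hB₁ : B₁ = k' * l + V * r' - W' * (1 + kn))
    (hγ : γ = kn + u' * B₁) (hD : D = th * A₁ + B2')
    (hp₁ : p₁ = y' * (D + ub') + k' * (vd' * m' + la' * g') + et' * d')
    (hp₂ : p₂ = (1 - k') * l * m' + la' * d' + mu' * g' - Y' * γ)
    (hp₃ : p₃ = sg' * (tc' * γ + mu' * d') + vd' * m' - k' * (vd' * m' + la' * g'))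
    (hΛ : Λ = a' * p₁ - k' * (sg' * tc' * p₂ + Y' * p₃))
    (b1 : |E₁ - e1'| ≤ dl) (b2 : |E₂ - sg' * z'| ≤ dl) (b3 : |ω| ≤ dl)
    (hc₀ : c₀ = Y' * sg' * γ ^ 2 + y' * (D * (D + 2 * ub')) + 2 * vd' * m' * (u' * A₁ + B2') +
        sg' * m' * kn * (n' - 2 * (1 - k') * l) + 2 * n' * ω -
        2 * W' * ((c + B2') * E₁ + (1 + kn) * E₂) +
        m' * (th * A₁ ^ 2 + u' * sg' * B₁ ^ 2 + B2' ^ 2) +
        z' * (ub' ^ 2 + sg' * (k' * l) ^ 2 + kv' * X') +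
        z1' * sl + 2 * la' * (g' * u' * A₁ - sg' * d' * kn - T' * E₁) +
        2 * mu' * (sg' * (d' * B2' - g' * kn) - T' * E₂) + 2 * et' * (d' * D + T' * z') + 3 * dl) :
    bF T k u ks sg d g r y m z z1 Y kY tc e1 a B be lb n ub vd B2 rp al sd kv X W Ws g2 kr vr la
    mu et = true →
    Λ ^ 2 ≤ B' * -(a' * c₀ + k' * (sg' * p₂ ^ 2) + p₃ ^ 2) := by
  unfold bF
  extract_lets wa A1 B1 tA uA uB sB sn sa ga D1 yD Yg vm q1 kq p1 p2 p3 kp La n2 aB M sb Z zw E1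
    E2 om x1 x2 y1 y2 y3 c0 C
  intro H
  have hwa : RW t wa _ := mul_ok hW hal
  obtain ⟨A1', hA1, qA1⟩ : ∃ ξ, RN t A1 ξ ∧ ξ = _ := gen (nrm_ok (sub_ok hub.toA (rnd_ok (add_ok
    (mul_ok hk hvd) (mul_ok hW hkr)))))
  obtain ⟨B1', hB1, qB1⟩ : ∃ ξ, RN t B1 ξ ∧ ξ = _ := gen (nrm_ok (sub_ok (add_ok hbe.toA hvr.toA)
    (rnd_ok hwa)))
  obtain ⟨tA', htA, qtA⟩ : ∃ ξ, RN t tA ξ ∧ ξ = _ := gen (nr_ok (mul_ok th_ok hA1))
  obtain ⟨uA', huA, quA⟩ : ∃ ξ, RN t uA ξ ∧ ξ = _ := gen (nr_ok (mul_ok hu hA1))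
  obtain ⟨uB', huB, quB⟩ : ∃ ξ, RN t uB ξ ∧ ξ = _ := gen (nr_ok (mul_ok hu hB1))
  obtain ⟨sB', hsB, qsB⟩ : ∃ ξ, RN t sB ξ ∧ ξ = _ := gen (nr_ok (mul_ok hsg hB1))
  obtain ⟨sn', hsn, qsn⟩ : ∃ ξ, RN t sn ξ ∧ ξ = _ := gen (nr_ok (mul_ok hks hn))
  obtain ⟨sa', hsa, qsa⟩ : ∃ ξ, RN t sa ξ ∧ ξ = _ := gen (nrm_ok (add_ok hsn.toA (rnd_ok (mul_ok
    hsg huB))))
  obtain ⟨ga', hga, qga⟩ : ∃ ξ, RN t ga ξ ∧ ξ = _ := gen (nrm_ok (add_ok (sub_ok hal.toA one_ok)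
    huB.toA))
  obtain ⟨D1', hD1, qD1⟩ : ∃ ξ, RN t D1 ξ ∧ ξ = _ := gen (nrm_ok (add_ok (add_ok htA.toA hB2.toA)
    hub.toA))
  obtain ⟨yD', hyD, qyD⟩ : ∃ ξ, RN t yD ξ ∧ ξ = _ := gen (nr_ok (mul_ok hy hD1))
  obtain ⟨Yg', hYg, qYg⟩ : ∃ ξ, RN t Yg ξ ∧ ξ = _ := gen (nr_ok (mul_ok hY hga))
  have hvm : RW t vm _ := mul_ok hvd hm
  obtain ⟨q1', hq1, qq1⟩ : ∃ ξ, RN t q1 ξ ∧ ξ = _ := gen (nr_ok (add_ok hvm (mul_ok hla hg)))
  have hkq : RW t kq _ := mul_ok hk hq1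
  obtain ⟨p1', hp1, qp1⟩ : ∃ ξ, RN t p1 ξ ∧ ξ = _ := gen (nrm_ok (add_ok hyD.toA (rnd_ok (add_ok
    hkq (mul_ok het hd)))))
  obtain ⟨p2', hp2, qp2⟩ : ∃ ξ, RN t p2 ξ ∧ ξ = _ := gen (nrm_ok (sub_ok (rnd_ok (add_ok (add_ok
    (mul_ok hlb hm) (mul_ok hla hd)) (mul_ok hmu hg))) hYg.toA))
  obtain ⟨p3', hp3, qp3⟩ : ∃ ξ, RN t p3 ξ ∧ ξ = _ := gen (nr_ok (sub_ok (add_ok (add_ok (mul_ok
    htc hsa) (mul_ok hmu hsd)) hvm) hkq))
  obtain ⟨kp', hkp, qkp⟩ : ∃ ξ, RN t kp ξ ∧ ξ = _ := gen (nr_ok (mul_ok hks hp2))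
  obtain ⟨La', hLa, qLa⟩ : ∃ ξ, RN t La ξ ∧ ξ = _ := gen (nr_ok (sub_ok (mul_ok ha hp1) (add_ok
    (mul_ok hkp htc) (mul_ok hkY hp3))))
  obtain ⟨n2', hn2, qn2⟩ : ∃ ξ, RN t n2 ξ ∧ ξ = _ := gen (nrm_ok (sub_ok hn.toA (smul_ok 2
    hlb.toA)))
  obtain ⟨aB', haB, qaB⟩ : ∃ ξ, RN t aB ξ ∧ ξ = _ := gen (nrm_ok (add_ok huA.toA hB2.toA))
  obtain ⟨M', hM, qM⟩ : ∃ ξ, RN t M ξ ∧ ξ = _ := gen (nr_ok (add_ok (add_ok (add_ok (mul_ok htA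
    hA1) (mul_ok huB hsB)) (add_ok (mul_ok hB2 hB2) (mul_ok hub hub))) (add_ok (mul_ok hsn hn2)
    (smul_ok 2 (mul_ok hvd haB)))))
  obtain ⟨sb', hsb, qsb⟩ : ∃ ξ, RN t sb ξ ∧ ξ = _ := gen (nr_ok (mul_ok hsg hbe))
  obtain ⟨Z', hZ, qZ⟩ : ∃ ξ, RN t Z ξ ∧ ξ = _ := gen (nr_ok (add_ok (mul_ok hsb hbe) (mul_ok hkv
    hX)))
  obtain ⟨zw', hzw, qzw⟩ : ∃ ξ, RN t zw ξ ∧ ξ = _ := gen (nr_ok (mul_ok hz1 hWs))
  have hE1 : RN t E1 E₁ := w1 he1.toA b1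
  have hE2 : RN t E2 E₂ := w1 (rnd_ok (mul_ok hsg hz)) b2
  have hom : RN t om ω := w1 zero_ok.toA (by rw [sub_zero]; exact b3)
  obtain ⟨x1', hx1, qx1⟩ : ∃ ξ, RN t x1 ξ ∧ ξ = _ := gen (nr_ok (add_ok (mul_ok hW hrp) (mul_ok
    hla hT)))
  obtain ⟨x2', hx2, qx2⟩ : ∃ ξ, RN t x2 ξ ∧ ξ = _ := gen (nr_ok (add_ok hwa (mul_ok hmu hT)))
  obtain ⟨y1', hy1, qy1⟩ : ∃ ξ, RN t y1 ξ ∧ ξ = _ := gen (nr_ok (sub_ok (mul_ok hg huA) (mul_ok hd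
    hsn)))
  obtain ⟨y2', hy2, qy2⟩ : ∃ ξ, RN t y2 ξ ∧ ξ = _ := gen (nr_ok (sub_ok (mul_ok hsd hB2) (mul_ok
    hg hsn)))
  obtain ⟨y3', hy3, qy3⟩ : ∃ ξ, RN t y3 ξ ∧ ξ = _ := gen (nr_ok (sub_ok (mul_ok hd hD1) (mul_ok
    hbe hr)))
  obtain ⟨c0', hc0, qc0⟩ : ∃ ξ, RN t c0 ξ ∧ ξ = _ := gen (nrm_ok (w3 (rnd_ok (add_ok (add_ok
    (add_ok (mul_ok hYg hsa) (mul_ok hyD hD1)) (add_ok (mul_ok hm hM) (add_ok (mul_ok hz hZ)
    (mul_ok hzw hg2)))) (smul_ok 2 (sub_ok (add_ok (add_ok (mul_ok hn hom) (mul_ok hla hy1))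
    (add_ok (mul_ok hmu hy2) (mul_ok het hy3))) (add_ok (mul_ok hx1 hE1) (mul_ok hx2 hE2))))))))
  obtain ⟨C', hC, qC⟩ : ∃ ξ, RN t C ξ ∧ ξ = _ := gen (nr_ok (neg_ok (add_ok (mul_ok ha hc0)
    (add_ok (mul_ok hkp hp2) (mul_ok hp3 hp3)))))
  have h0 := pos_ok (rnd_ok (sub_ok (mul_ok hB hC) (mul_ok hLa hLa))) H
  have r1 : A1' = A₁ := by rw [qA1, hA₁, rkr, rrp]; ring
  have r2 : B1' = B₁ := by rw [qB1, hB₁, rbe, rvr, ral]
  subst r1 r2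
  have r3 : ga' = γ := by rw [qga, hγ, quB, ral]; ring
  subst r3
  have r4 : D1' = D + ub' := by rw [qD1, qtA, hD]
  have r5 : sn' = sg' * kn := by rw [qsn, rks, rkn]; ring
  have r6 : sa' = sg' * ga' := by rw [qsa, r5, hγ, quB]; ring
  have r7 : lb' = (1 - k') * l := by rw [rlb, rbe]; ring
  have r8 : p1' = p₁ := by rw [qp1, hp₁, qyD, qq1, r4]; ring
  have r9 : p2' = p₂ := by rw [qp2, hp₂, qYg, r7]
  have r10 : p3' = p₃ := by rw [qp3, hp₃, qq1, r6, rsd]; ring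
  subst r8 r9 r10
  have r11 : La' = Λ := by rw [qLa, hΛ, qkp, rks, rkY]; ring
  have r12 : c0' = c₀ := by
    rw [qc0, hc₀, qYg, qyD, qM, qZ, qzw, qx1, qx2, qy1, qy2, qy3, qn2, qaB, qsb, qsB, qtA, quA, quB,
      r4, r5, r6, r7, rsl, rbr, rbe, rsd, rrp, ral, rz]
    push_cast
    ring
  rw [r11, qC, r12, qkp, rks] at h0
  linear_combination h0

theorem bC_ok {f : Bool} {T c k u ks sg d g r y m z z1 Y kY tc e1 a B l V om la mu et : N}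
    {T' c' k' u' ks' sg' d' g' r' y' m' z' z1' Y' kY' tc' e1' a' B' l' V' om' la' mu' et' P q S Y₂
    α : ℝ} {j : J6}
    (hT : RN t T T') (hc : RN t c c') (hk : RN t k k') (hu : RN t u u') (hks : RN t ks ks')
    (hsg : RN t sg sg') (hd : RN t d d') (hg : RN t g g') (hr : RN t r r') (hy : RN t y y')
    (hm : RN t m m') (hz : RN t z z') (hz1 : RN t z1 z1') (hY : RN t Y Y') (hkY : RN t kY kY')
    (htc : RN t tc tc') (he1 : RN t e1 e1') (ha : RN t a a') (hB : RN t B B') (hl : RN t l l')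
    (hV : RN t V V') (hom : RN t om om') (hla : RN t la la') (hmu : RN t mu mu')
    (het : RN t et et')
    (hS : c' ^ 2 + S ^ 2 = 1) (T0 : 0 < T') (P0 : 0 ≤ P) (hκ : k' * (1 + P) = 1)
    (hδ : dl ≤ ep * k') (hq : q⁻¹ = u') (ru : u' = th * k') (rσ : sg' = 1 - c' ^ 2)
    (rd : d' = 1 + T' * j.c) (ry : y' = j.f - j.t - c' * j.c) (rm : m' = j.t * (1 + u'))
    (rz : z' = m' + y') (rY : Y' = j.tt - j.t) (rz1 : z1' = u' * (m' + u' * Y')) (rtc : tc' = j.tc)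
    (rY₂ : Y₂ = y' + sg' * j.cc) (re1 : e1' = c' * z' + j.c) (rg : g' = c' + T' * (j.f - j.t))
    (rr : r' = g' + T' * m') (ra : a' = -(Y₂ + k' * Y' + ep)) (rα : α = y' + k' * Y' + ep)
    (rB : B' = -(a' * α) - k' * (sg' * tc' ^ 2) - (k' * Y') ^ 2) (rks : ks' = k' * sg')
    (rkY : kY' = k' * Y') (d0 : 0 < d') (Y0 : 0 ≤ Y') (a0 : 0 < a') (B0 : 0 < B')
    (hf : f = true → et' = 0) :
    bC f T c k u ks sg d g r y m z z1 Y kY tc e1 a B l V om la mu et = true →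
    Key P q c' S (KR.jT T' j) (dl * T') := by
  unfold bC
  extract_lets be id U ub sd vd vr n al lb kw kv B2 rp X sU s W kr sl gm g2 Ws Uz tz sz e2 e3
  intro H
  obtain ⟨be', hbe, qbe⟩ : ∃ ξ, RN t be ξ ∧ ξ = _ := gen (nr_ok (mul_ok hk hl))
  obtain ⟨id', hid, qid⟩ : ∃ ξ, RN t id ξ ∧ ξ = _ := gen (nrm_ok (inv_ok hd))
  obtain ⟨U', hU, qU⟩ : ∃ ξ, RN t U ξ ∧ ξ = _ := gen (nrm_ok (add_ok hid.toA (rnd_ok (mul_ok hbe
    hid))))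
  obtain ⟨ub', hub, qub⟩ : ∃ ξ, RN t ub ξ ∧ ξ = _ := gen (nrm_ok (sub_ok (rnd_ok (mul_ok hU hr))
    hc.toA))
  obtain ⟨sd', hsd, qsd⟩ : ∃ ξ, RN t sd ξ ∧ ξ = _ := gen (nr_ok (mul_ok hsg hd))
  obtain ⟨vd', hvd, qvd⟩ : ∃ ξ, RN t vd ξ ∧ ξ = _ := gen (nr_ok (mul_ok hV hsd))
  obtain ⟨vr', hvr, qvr⟩ : ∃ ξ, RN t vr ξ ∧ ξ = _ := gen (nr_ok (mul_ok hV hr))
  obtain ⟨n', hn, qn⟩ : ∃ ξ, RN t n ξ ∧ ξ = _ := gen (nrm_ok (add_ok hl.toA hvr.toA))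
  obtain ⟨al', hal, qal⟩ : ∃ ξ, RN t al ξ ∧ ξ = _ := gen (nrm_ok (add_ok one_ok (rnd_ok (mul_ok hk
    hn))))
  obtain ⟨lb', hlb, qlb⟩ : ∃ ξ, RN t lb ξ ∧ ξ = _ := gen (nrm_ok (sub_ok hl.toA hbe.toA))
  obtain ⟨kw', hkw, qkw⟩ : ∃ ξ, RN t kw ξ ∧ ξ = _ := gen (nr_ok (mul_ok hks hV))
  obtain ⟨kv', hkv, qkv⟩ : ∃ ξ, RN t kv ξ ∧ ξ = _ := gen (nr_ok (mul_ok hkw hV))
  obtain ⟨B2', hB2, qB2⟩ : ∃ ξ, RN t B2 ξ ∧ ξ = _ := gen (nrm_ok (sub_ok hub.toA hvd.toA))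
  obtain ⟨rp', hrp, qrp⟩ : ∃ ξ, RN t rp ξ ∧ ξ = _ := gen (nrm_ok (add_ok hc.toA hB2.toA))
  obtain ⟨X', hX, qX⟩ : ∃ ξ, RN t X ξ ∧ ξ = _ := gen (nr_ok (add_ok (mul_ok hr hr) (mul_ok hsd
    hd)))
  obtain ⟨sU', hsU, qsU⟩ : ∃ ξ, RN t sU ξ ∧ ξ = _ := gen (nrm_ok (add_ok (rnd_ok (mul_ok hU hU))
    hkv.toA))
  obtain ⟨s', hs, qs⟩ : ∃ ξ, RN t s ξ ∧ ξ = _ := gen (nr_ok (mul_ok hsU hX))
  obtain ⟨W', hW, qW⟩ : ∃ ξ, RN t W ξ ∧ ξ = _ := gen (nr_ok (mul_ok hom hs))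
  obtain ⟨kr', hkr, qkr⟩ : ∃ ξ, RN t kr ξ ∧ ξ = _ := gen (nr_ok (mul_ok hk hrp))
  obtain ⟨sl', hsl, qsl⟩ : ∃ ξ, RN t sl ξ ∧ ξ = _ := gen (nr_ok (mul_ok hsg hal))
  obtain ⟨gm', hgm, qgm⟩ : ∃ ξ, RN t gm ξ ∧ ξ = _ := gen (nr_ok (add_ok (mul_ok hkr hrp) (mul_ok
    hsl hal)))
  obtain ⟨g2', hg2, qg2⟩ : ∃ ξ, RN t g2 ξ ∧ ξ = _ := gen (nrm_ok (sub_ok (smul_ok 2 one_ok)
    (rnd_ok (mul_ok hom hgm))))
  obtain ⟨Ws', hWs, qWs⟩ : ∃ ξ, RN t Ws ξ ∧ ξ = _ := gen (nr_ok (mul_ok hW hs))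
  obtain ⟨Uz', hUz, qUz⟩ : ∃ ξ, RN t Uz ξ ∧ ξ = _ := gen (nr_ok (mul_ok hU hz))
  obtain ⟨tz', htz, qtz⟩ : ∃ ξ, RN t tz ξ ∧ ξ = _ := gen (nr_ok (mul_ok hT hUz))
  obtain ⟨sz', hsz, qsz⟩ : ∃ ξ, RN t sz ξ ∧ ξ = _ := gen (nr_ok (mul_ok hsg hUz))
  obtain ⟨e2', he2, qe2⟩ : ∃ ξ, RN t e2 ξ ∧ ξ = _ := gen (nrm_ok (add_ok one_ok (rnd_ok (mul_ok hT
    he1))))
  obtain ⟨e3', he3, qe3⟩ : ∃ ξ, RN t e3 ξ ∧ ξ = _ := gen (nr_ok (sub_ok (smul_ok 2 (mul_ok hU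
    he2)) (mul_ok hT het)))
  simp only [Bool.and_eq_true, Bool.or_eq_true] at H
  obtain ⟨⟨H1, H2⟩, H3, H4⟩ := H
  have o0 := pos_ok hom.toA H1
  have g0 := pos_ok hg2.toA H2
  have k0 : 0 < k' :=
    (pos_iff_pos_of_mul_pos (hκ.symm ▸ one_pos : 0 < k' * (1 + P))).2 (by linarith only [P0])
  have σ0 : 0 ≤ sg' := by rw [rσ]; linear_combination sq_nonneg S + hS
  have r1 : k' * l' = U' * d' - 1 := by
    rw [qU, qid, qbe]
    linear_combination -(1 + k' * l') * inv_mul_cancel₀ d0.ne'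
  have r2 : r' - c' * d' = T' * z' := by rw [rr, rg, rd, rz, ry]; ring
  have r3 : c' * r' + sg' * d' = 1 + T' * e1' := by
    rw [re1, rσ]
    linear_combination c' * r2 + rd
  have r4 : kv' = k' * (sg' * V' * V') := by rw [qkv, qkw, rks]; ring
  have r5 : X' = r' ^ 2 + sg' * d' ^ 2 := by rw [qX, qsd]; ring
  have r6 : s' = (U' ^ 2 + kv') * X' := by rw [qs, qsU]; ring
  have X0 : 0 ≤ X' := by rw [r5]; positivity
  have v0 : 0 ≤ kv' := by rw [r4, mul_assoc, ← sq]; positivity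
  refine Lg.keyL (U := U') (l := l') (V := V') (W := W') (η := et') (la := la') (mu := mu')
    (vd := vd') (sl := Ws' * g2') hS T0 P0 hκ (by norm_num [ep]) (by norm_num [dl]) hδ hq ru rσ rd ry
    rm rz rY rz1 rtc rY₂ re1 rg rr r1 qub (by rw [qvd, qsd]; ring) (by rw [qn, qvr]) rfl r4 qB2 rfl
    rfl rfl rfl r5 r6 ?_ ra rα rB rfl rfl rfl rfl (Or.inl d0) Y0 a0 B0 ?_ ?_
    fun E₁ E₂ ω c₀ b1 b2 b3 hc => bF_ok hT hk hu hks hsg hd hg hr hy hm hz hz1 hY hkY htc he1 ha hB hbe hlb hn hub hvd hB2 hrp hal hsd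
    hkv hX hW hWs hg2 hkr hvr hla hmu het
      rks qbe qlb qsd qrp qal rfl qkr qvr rkY rz rfl ?_ rfl rfl rfl rfl rfl rfl rfl rfl b1 b2 b3 hc H4
  · rw [qWs, qg2, qgm, qkr, qsl, qrp, qal, qW]
    push_cast
    ring
  · rw [qWs, qW, mul_assoc om', ← sq]
    positivity
  · rcases H3 with H3 | H3
    · exact Or.inl (hf H3)
    · right
      have e := pos_ok (rnd_ok (add_ok (mul_ok htz hsz) (mul_ok het he3))) H3
      rw [qtz, qsz, qUz, qe3, qe2, ← mul_pos_iff_of_pos_left T0] at e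
      push_cast at e
      have e' : X' = (1 + T' * e1') ^ 2 + sg' * (T' * z') ^ 2 := by
        rw [← r3, ← r2, r5, rσ]
        ring
      have e'' := mul_nonneg v0 X0
      rw [r3, r6, add_mul, e']
      rw [e'] at e''
      linear_combination e + e''
  · rw [qbe, r1, qub]
    linear_combination -r2

open Pw

/-- the value of a coded constant -/
def qv (n : ℕ) : ℚ := (n - 2 ^ 60) / 2 ^ 48

theorem oc_ok (n : ℕ) : RA t (oc n) (qv n) := by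
  refine cs (d := n - 2 ^ 60) ?_ ?_ ?_
  · have h := (ngc (d := 2 ^ 60) (by norm_num)).add_left n
    rw [← Nat.cast_add, Nat.cast_pow, Nat.cast_ofNat, ← sub_eq_add_neg] at h
    exact h
  · change _ ≤ ((2 ^ 83 * (n >>> 83 + 1) : ℕ) : ℤ)
    rw [Nat.shiftRight_eq_div_pow, abs_le]
    omega
  · refine le_trans (le_of_eq (abs_eq_zero.2 ?_)) (Nat.cast_nonneg _)
    rw [qv]
    push_cast
    ring

theorem hn_ok {x : N} {y : ℝ} (h : RN t x y) (l : List ℕ) :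
    ∀ c, RA t (hn x l c) (Pw.ev ((c :: l).map qv) y) := by
  induction l with
  | nil => exact fun c => (oc_ok c).cast (by simp)
  | cons d l ih => exact fun c => add_ok (oc_ok c) (rnd_ok (mul_ok h (nrm_ok (ih d))))

theorem ev_zero (c : ℝ) : ∀ l : List ℚ, l.all (· = 0) = true → Pw.ev l c = 0
  | [], _ => rfl
  | a :: l, h => by
    simp only [List.all_cons, Bool.and_eq_true, decide_eq_true_eq] at h
    rw [ev_cons, ev_zero c l h.2, h.1]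
    simp

theorem ev_eq {l r : List ℚ} (h : (ad l (sm (-1) r)).all (· = 0) = true) (c : ℝ) :
    Pw.ev l c = Pw.ev r c := by
  have := ev_zero c _ h
  rw [ev_ad, ev_sm] at this
  push_cast at this
  linarith

/-- the slab data agree with the rational data -/
structure Ok (p : Pc) (d : D) : Prop where
  l0 : (ad ((p.c0 :: p.l0).map qv) (sm (-1) d.l)).all (· = 0) = true
  l1 : (ad ((p.c1 :: p.l1).map qv) (sm (-1) (dv d.l))).all (· = 0) = true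
  l2 : (ad ((p.c2 :: p.l2).map qv) (sm (-1) (dv (dv d.l)))).all (· = 0) = true
  b : |d.b * 2 ^ 48 - p.b| ≤ 1
  bb : |d.b * (d.b - 1) * 2 ^ 48 - p.bb| ≤ 1
  t1 : d.T₁ ≤ qv p.T1
  ln : p.ln.all (fun y => d.tg.any fun z => d.al z ≤ qv y.1 ∧ d.be z * 2 ^ 48 ≤ y.2) = true

theorem bJ_ok {p : Pc} {e : D} (o : Ok p e) {fl : Bool} {D : ℕ} {T c k f : N} {T' c' k' P S : ℝ}
    (hT : RN t T T') (hc : RN t c c') (hk : RN t k k') (hf : RN t f (Pw.ev e.l c'))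
    (hS : c' ^ 2 + S ^ 2 = 1) (T0 : 0 < T') (P0 : 0 ≤ P) (hκ : k' * (1 + P) = 1)
    (hδ : dl ≤ ep * k') : bJ p fl D T c k f = true →
    Key P (th * k')⁻¹ c' S (KR.jT T' (e.j c')) (dl * T') := by
  unfold bJ
  extract_lets f1 f2 sg u ks tb ft y Y m z tc e1 d g r kY w z1 ap a kt B
  intro H
  have hb : RN t (cN p.b) e.b := cN_ok _ (by exact_mod_cast o.b)
  have hbb : RN t (cN p.bb) (e.b * (e.b - 1)) := cN_ok _ (by exact_mod_cast o.bb)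
  have hf1 : RN t f1 _ := nrm_ok ((hn_ok hc p.l1 p.c1).cast (ev_eq o.l1 c'))
  have hf2 : RN t f2 _ := nrm_ok ((hn_ok hc p.l2 p.c2).cast (ev_eq o.l2 c'))
  obtain ⟨sg', hsg, qsg⟩ : ∃ ξ, RN t sg ξ ∧ ξ = _ := gen (nrm_ok (sub_ok one_ok (rnd_ok (mul_ok hc
    hc))))
  obtain ⟨u', hu, qu⟩ : ∃ ξ, RN t u ξ ∧ ξ = _ := gen (nr_ok (mul_ok th_ok hk))
  obtain ⟨ks', hks, qks⟩ : ∃ ξ, RN t ks ξ ∧ ξ = _ := gen (nr_ok (mul_ok hk hsg))
  obtain ⟨tb', htb, qtb⟩ : ∃ ξ, RN t tb ξ ∧ ξ = _ := gen (nr_ok (mul_ok hb hf))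
  obtain ⟨ft', hft, qft⟩ : ∃ ξ, RN t ft ξ ∧ ξ = _ := gen (nrm_ok (sub_ok hf.toA htb.toA))
  obtain ⟨y', hy, qy⟩ : ∃ ξ, RN t y ξ ∧ ξ = _ := gen (nrm_ok (sub_ok hft.toA (rnd_ok (mul_ok hc
    hf1))))
  obtain ⟨Y', hY, qY⟩ : ∃ ξ, RN t Y ξ ∧ ξ = _ := gen (nr_ok (mul_ok hbb hf))
  obtain ⟨m', hm, qm⟩ : ∃ ξ, RN t m ξ ∧ ξ = _ := gen (nrm_ok (add_ok htb.toA (rnd_ok (mul_ok htb
    hu))))
  obtain ⟨z', hz, qz⟩ : ∃ ξ, RN t z ξ ∧ ξ = _ := gen (nrm_ok (add_ok hm.toA hy.toA))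
  obtain ⟨tc', htc, qtc⟩ : ∃ ξ, RN t tc ξ ∧ ξ = _ := gen (nr_ok (mul_ok hb hf1))
  obtain ⟨e1', he1, qe1⟩ : ∃ ξ, RN t e1 ξ ∧ ξ = _ := gen (nrm_ok (add_ok (rnd_ok (mul_ok hc hz))
    hf1.toA))
  obtain ⟨d', hd, qd⟩ : ∃ ξ, RN t d ξ ∧ ξ = _ := gen (nrm_ok (add_ok one_ok (rnd_ok (mul_ok hT
    hf1))))
  obtain ⟨g', hg, qg⟩ : ∃ ξ, RN t g ξ ∧ ξ = _ := gen (nrm_ok (add_ok hc.toA (rnd_ok (mul_ok hT
    hft))))
  obtain ⟨r', hr, qr⟩ : ∃ ξ, RN t r ξ ∧ ξ = _ := gen (nrm_ok (add_ok hg.toA (rnd_ok (mul_ok hT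
    hm))))
  obtain ⟨kY', hkY, qkY⟩ : ∃ ξ, RN t kY ξ ∧ ξ = _ := gen (nr_ok (mul_ok hk hY))
  obtain ⟨w', hw, qw⟩ : ∃ ξ, RN t w ξ ∧ ξ = _ := gen (nrm_ok (add_ok hm.toA (rnd_ok (mul_ok th_ok
    hkY))))
  obtain ⟨z1', hz1, qz1⟩ : ∃ ξ, RN t z1 ξ ∧ ξ = _ := gen (nr_ok (mul_ok hu hw))
  obtain ⟨ap', hap, qap⟩ : ∃ ξ, RN t ap ξ ∧ ξ = _ := gen (nrm_ok (add_ok (add_ok hy.toA hkY.toA)
    eps_ok))
  obtain ⟨a', ha, qa⟩ : ∃ ξ, RN t a ξ ∧ ξ = _ := gen (nrm_ok (neg_ok (add_ok hap.toA (rnd_ok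
    (mul_ok hsg hf2)))))
  obtain ⟨kt', hkt, qkt⟩ : ∃ ξ, RN t kt ξ ∧ ξ = _ := gen (nr_ok (mul_ok hks htc))
  obtain ⟨B', hB, qB⟩ : ∃ ξ, RN t B ξ ∧ ξ = _ := gen (nr_ok (neg_ok (add_ok (mul_ok ha hap)
    (add_ok (mul_ok hkt htc) (mul_ok hkY hkY)))))
  simp only [Bool.and_eq_true] at H
  obtain ⟨⟨⟨H1, H2⟩, H3, H4⟩, H5⟩ := H
  obtain ⟨l', hl⟩ := aff_ok t p.s0 (fld D 0)
  obtain ⟨V', hV⟩ := aff_ok t p.s1 (fld D 1)
  obtain ⟨om', hom⟩ := aff_ok t p.s2 (fld D 2)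
  obtain ⟨la', hla⟩ := aff_ok t p.s3 (fld D 3)
  obtain ⟨mu', hmu⟩ := aff_ok t p.s4 (fld D 4)
  obtain ⟨et', het, q0⟩ : ∃ z, RN t (cond fl zero (nrm (aff p.s5 (fld D 5)))) z ∧
      (fl = true → z = 0) := by
    cases fl
    · obtain ⟨z, hz⟩ := aff_ok t p.s5 (fld D 5)
      exact ⟨z, nrm_ok hz, fun h => absurd h Bool.false_ne_true⟩
    · exact ⟨0, zero_ok, fun _ => rfl⟩
  refine bC_ok (α := ap') (Y₂ := y' + sg' * (e.j c').cc) hT hc hk hu hks hsg hd hg hr hy hm hz hz1 hY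
    hkY htc he1 ha hB (nrm_ok hl) (nrm_ok hV) (nrm_ok hom) (nrm_ok hla) (nrm_ok hmu) het hS T0 P0 hκ
    hδ (by rw [inv_inv, qu]) qu (by rw [qsg, sq]) qd (by rw [qy, qft, qtb]; rfl)
    (by rw [qm, qtb, mul_add, mul_one]; rfl) qz ?_ ?_ qtc rfl qe1 (by rw [qg, qft, qtb]; rfl) qr ?_
    (by rw [qap, qkY]) ?_ qks qkY (pos_ok hd.toA H1) (pos_ok hY.toA H2).le (pos_ok ha.toA H3)
    (pos_ok hB.toA H4) q0 H5
  · rw [qY]
    simp only [Pw.D.j]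
    ring
  · rw [qz1, qw, qkY, qu]
    ring
  · rw [qa, qap, qkY]
    simp only [Pw.D.j]
    ring
  · rw [qB, qkt, qks, qkY]
    ring

theorem bX_ok {p : Pc} {e : D} (o : Ok p e) {T c f : N} {T' c' f' : ℝ} (hT : RN t T T')
    (hc : RN t c c') (hf : RN t f f') (T0 : 0 < T') (H : bX p T c f = true) :
    ¬(T' ≤ e.T₁ ∨ ∀ z ∈ e.tg, c' + T' * f' ≤ e.al z + e.be z * T') := by
  obtain ⟨H1, H2⟩ := Bool.and_eq_true_iff.1 H
  have h1 := pos_ok (sub_ok hT.toA (oc_ok p.T1)) H1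
  have h2 : (e.T₁ : ℝ) ≤ qv p.T1 := by exact_mod_cast o.t1
  rintro (r | r)
  · linarith
  have h3 := List.all_eq_true.1 o.ln
  generalize p.ln = L at H2 h3
  induction L with
  | nil => cases H2
  | cons y L ih =>
    rcases Bool.or_eq_true_iff.1 H2 with H2 | H2
    · obtain ⟨z, hz, h4⟩ := List.any_eq_true.1 (h3 y List.mem_cons_self)
      obtain ⟨h4, h5⟩ := of_decide_eq_true h4
      have h6 := pos_ok (sub_ok (add_ok hc.toA (rnd_ok (sub_ok (mul_ok hT hf)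
        (mul_ok hT (cN_ok (z := y.2 / 2 ^ 48) y.2 (by simp)))))) (oc_ok y.1)) H2
      have h7 : (e.al z : ℝ) ≤ qv y.1 := by exact_mod_cast h4
      have h8 : (e.be z : ℝ) ≤ y.2 / 2 ^ 48 := by
        rw [le_div_iff₀ (by positivity)]
        exact_mod_cast h5
      have h9 := mul_le_mul_of_nonneg_right h8 T0.le
      linarith [r z hz]
    · exact ih H2 fun x hx => h3 x (List.mem_cons_of_mem _ hx)

/-- the property checked on the boxes -/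
def G (e : D) (T x κ : ℝ) : Prop := ∀ P S : ℝ, κ * (1 + P) = 1 → 0 ≤ P → dl ≤ ep * κ →
  (x - 1) ^ 2 + S ^ 2 = 1 → 0 < T →
  (T ≤ e.T₁ ∨ ∀ z ∈ e.tg, x - 1 + T * Pw.ev e.l (x - 1) ≤ e.al z + e.be z * T) →
  Key P (th * κ)⁻¹ (x - 1) S (KR.jT T (e.j (x - 1))) (dl * T)

theorem leaf_ok {p : Pc} {e : D} (o : Ok p e) (d l h m i n j : ℕ) :
    leaf p d l h m i n j = true → Cov (G e) l h m i n j := by
  unfold leaf
  extract_lets T c k f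
  intro H T' x k' a1 a2 a3 P S hκ P0 hδ hS T0 r
  obtain ⟨t, b1, b2, b3⟩ := box_ok a1 a2 a3
  have hT : RN t T T' := nrm_ok b1
  have hc : RN t c (x - 1) := nrm_ok (sub_ok b2 one_ok)
  have hk : RN t k k' := nrm_ok b3
  have hf : RN t f _ := nrm_ok ((hn_ok hc p.l0 p.c0).cast (ev_eq o.l0 _))
  cases g : Nat.blt (Nat.mod d 4) 2
  · rw [g, cond_false] at H
    exact absurd r (bX_ok o hT hc hf T0 H)
  · rw [g, cond_true] at H
    exact bJ_ok o hT hc hk hf hS T0 P0 hκ hδ H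

/-- all tests of a slab `a ≤ p ≤ b` other than the boxes -/
def okB (p : Pc) (d : D) (a b : ℚ) (h n j : ℕ) : Bool :=
  d.ok && (ad ((p.c0 :: p.l0).map qv) (sm (-1) d.l)).all (· = 0) &&
  (ad ((p.c1 :: p.l1).map qv) (sm (-1) (dv d.l))).all (· = 0) &&
  (ad ((p.c2 :: p.l2).map qv) (sm (-1) (dv (dv d.l)))).all (· = 0) &&
  p.ln.all (fun y => d.tg.any fun z => d.al z ≤ qv y.1 ∧ d.be z * 2 ^ 48 ≤ y.2) &&
  decide (|d.b * 2 ^ 48 - p.b| ≤ 1 ∧ |d.b * (d.b - 1) * 2 ^ 48 - p.bb| ≤ 1 ∧ d.T₁ ≤ qv p.T1 ∧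
    2 ≤ a ∧ n * (b - 1) ≤ 2 ^ 48 ∧ 2 ^ 48 ≤ (n + 2 * j) * (a - 1) ∧
    d.b * (1 + 1 / 1024) < a - 1 ∧ 2 ^ 20 ≤ n ∧ d.T₀ * 2 ^ 48 ≤ 2 * h)

theorem ok_of {p : Pc} {d : D} {a b : ℚ} {h n j : ℕ} (H : okB p d a b h n j = true) : Ok p d := by
  simp only [okB, Bool.and_eq_true, decide_eq_true_eq] at H
  obtain ⟨⟨⟨⟨⟨-, h0⟩, h1⟩, h2⟩, h3⟩, h4, h5, h6, -⟩ := H
  exact ⟨h0, h1, h2, h4, h5, h6, h3⟩

/-- subtrees -/
theorem cov {p : Pc} {d : D} {a b : ℚ} {h₀ n₀ j₀ : ℕ} (H : okB p d a b h₀ n₀ j₀ = true) (T : Tr)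
    {l h m i n j : ℕ} (e : run (leaf p) T l h m i n j = true) : Cov (G d) l h m i n j :=
  run_ok (leaf_ok (ok_of H)) T l h m i n j e

/-- the certificate on a slab -/
theorem piece {p : Pc} {d : D} {a b : ℚ} {h n j : ℕ} (H : okB p d a b h n j = true)
    (C : Cov (G d) 0 h 0 281474976710656 n j) (x : ℝ) (xa : a ≤ x) (xb : x ≤ b) :
    ∃ (q : ℝ) (F : ℝ × ℝ → ℝ) (j : ℝ → ℝ → J6) (κ τ₀ τ₁ C δ e : ℝ),
      q < x - 1 ∧ CertR (x - 2) q F j κ τ₀ τ₁ C δ e := by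
  simp only [okB, Bool.and_eq_true, decide_eq_true_eq] at H
  obtain ⟨⟨⟨⟨⟨h0, -⟩, -⟩, -⟩, -⟩, -, -, -, h1, h2, h3, h4, h5, h6⟩ := H
  have h1' : (2 : ℝ) ≤ a := by exact_mod_cast h1
  have h2' : (n : ℝ) * (b - 1) ≤ 2 ^ 48 := by exact_mod_cast h2
  have h3' : (2 : ℝ) ^ 48 ≤ (n + 2 * j) * (a - 1) := by exact_mod_cast h3
  have h4' : (d.b : ℝ) * (1 + 1 / 1024) < a - 1 := by
    have := (Rat.cast_lt (K := ℝ)).2 h4
    push_cast at this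
    exact this
  have h5' : (2 : ℝ) ^ 20 ≤ n := by exact_mod_cast h5
  have h6' : (d.T₀ : ℝ) * 2 ^ 48 ≤ 2 * h := by exact_mod_cast h6
  have x1 : 0 < x - 1 := by linarith
  have e : (th * (x - 1)⁻¹)⁻¹ = (x - 1) / (1 + 1 / 1024) := by
    rw [th, mul_inv, inv_inv, mul_comm, div_eq_mul_inv (x - 1)]
  have k1 : (n : ℝ) ≤ (x - 1)⁻¹ * 2 ^ 48 := by
    rw [← div_eq_inv_mul, le_div_iff₀ x1]
    exact (mul_le_mul_of_nonneg_left (by linarith) n.cast_nonneg).trans h2'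
  have k2 : (x - 1)⁻¹ * 2 ^ 48 ≤ n + 2 * j := by
    rw [← div_eq_inv_mul, div_le_iff₀ x1]
    exact h3'.trans (mul_le_mul_of_nonneg_left (by linarith) (by positivity))
  obtain ⟨F, J, κ, τ₀, τ₁, C', δ, e', hc⟩ := d.cert h0 (P := x - 2) (q := (th * (x - 1)⁻¹)⁻¹)
    (δ := dl) (by rw [e, lt_div_iff₀ (by norm_num)]; linarith) (by norm_num [dl])
    fun T c S T0 T1 hS _ r => by
      obtain ⟨c1, c2⟩ : -1 ≤ c ∧ c ≤ 1 :=
        abs_le_of_sq_le_sq' (by linarith [sq_nonneg S]) (by norm_num)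
      have := C T (c + 1) (x - 1)⁻¹ ⟨by push_cast; positivity, by push_cast; linarith⟩
        ⟨by push_cast; linarith, by push_cast; linarith⟩ ⟨k1, k2⟩ (x - 2) S
        (by rw [show 1 + (x - 2) = x - 1 by ring, inv_mul_cancel₀ x1.ne']) (by linarith)
        (by rw [dl, ep]; linarith)
      rw [add_sub_cancel_right] at this
      exact this hS T0 r
  exact ⟨_, F, J, κ, τ₀, τ₁, C', δ, e', by rw [e, div_lt_iff₀ (by norm_num)]; linarith, hc⟩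
end Pool.Agent.MP_815c6c_an.W.LA
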