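import Mathlib.Analysis.InnerProductSpace.Spectrum
import Mathlib.Analysis.Calculus.LineDeriv.Basic
import Pool.Agent.MP_815c6c_an.W.Defs

/-! Traces of bilinear forms along families of vectors, and the differentiated equation. -/

set_option autoImplicit false

noncomputable section

namespace Pool.Agent.MP_815c6c_an.W

open Set Metric Filter Topology
open scoped RealInnerProductSpace

namespace LinA

variable {d : ℕ}

theorem expand {ι : Type} [Fintype ι] (b : OrthonormalBasis ι ℝ (X d))
    (B : X d →L[ℝ] X d →L[ℝ] ℝ) (a : X d) : B a a = ∑ i, ⟪b i, a⟫ * B (b i) a := by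
  conv_lhs => enter [1, 2]; rw [← b.sum_repr' a]
  simp

theorem zero_of_ev {f : ℝ → ℝ} {c : ℝ} (h : HasDerivAt f c 0) (h0 : ∀ᶠ t in 𝓝 (0 : ℝ), f t = 0) :
    c = 0 :=
  h.unique ((hasDerivAt_const (0 : ℝ) (0 : ℝ)).congr_of_eventuallyEq h0)

end LinA

theorem cp : CpS := by
  intro d m P s ν l a B _ hl
  let T : X d →L[ℝ] X d := InnerProductSpace.continuousLinearMapOfBilin (𝕜 := ℝ) B
  have hT : ∀ v w, B v w = ⟪T v, w⟫ := fun v w =>
    (InnerProductSpace.continuousLinearMapOfBilin_apply B v w).symm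
  have he : ∀ i, EuclideanSpace.basisFun (Fin d) ℝ i = ei i := fun i => by simp
  constructor
  · intro h
    have pol : ∀ v w, ∑ j, l j * (⟪v, a j⟫ * ⟪w, a j⟫) =
        s * (⟪v, w⟫ + P * (⟪v, ν⟫ * ⟪w, ν⟫)) := fun v w => by
      have h1 := h (v + w)
      have e : ∑ j, l j * ⟪v + w, a j⟫ ^ 2 = ∑ j, l j * ⟪v, a j⟫ ^ 2 + ∑ j, l j * ⟪w, a j⟫ ^ 2 +
          2 * ∑ j, l j * (⟪v, a j⟫ * ⟪w, a j⟫) := by
        rw [Finset.mul_sum, ← Finset.sum_add_distrib, ← Finset.sum_add_distrib]
        exact Finset.sum_congr rfl fun j _ => by rw [inner_add_left]; ring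
      rw [e, h v, h w] at h1
      simp only [qa, norm_add_sq_real, inner_add_left] at h1
      linarith
    have ex := LinA.expand (EuclideanSpace.basisFun (Fin d) ℝ) B
    simp only [he] at ex
    simp only [ta]
    rw [ex ν]
    simp only [fun j => ex (a j), Finset.mul_sum]
    rw [Finset.sum_comm, ← Finset.sum_add_distrib, Finset.mul_sum]
    refine Finset.sum_congr rfl fun i _ => ?_
    simp only [hT]
    rw [pol, real_inner_comm]
  · intro h hs h0
    have sy : (T : X d →ₗ[ℝ] X d).IsSymmetric := fun v w => by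
      simp only [ContinuousLinearMap.coe_coe]
      rw [← hT, hs, hT, real_inner_comm]
    have hn : Module.finrank ℝ (X d) = d := finrank_euclideanSpace_fin
    let v := sy.eigenvectorBasis hn
    let μ := sy.eigenvalues hn
    have hv : ∀ i w, B (v i) w = μ i * ⟪v i, w⟫ := fun i w => by
      have := sy.apply_eigenvectorBasis hn i
      simp only [ContinuousLinearMap.coe_coe] at this
      rw [hT, this, real_inner_smul_left]
      rfl
    have n1 : ∀ i, ‖v i‖ = 1 := v.orthonormal.1
    have hμ : ∀ i, 0 ≤ μ i := fun i => by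
      have := h0 (v i)
      rwa [hv, real_inner_self_eq_norm_sq, n1, one_pow, mul_one] at this
    have ex : ∀ w, B w w = ∑ i, μ i * ⟪v i, w⟫ ^ 2 := fun w => by
      rw [LinA.expand v B w]
      exact Finset.sum_congr rfl fun i _ => by rw [hv]; ring
    have tr : ∑ k, B (ei k) (ei k) = ∑ i, μ i := by
      simp only [ex]
      rw [Finset.sum_comm]
      refine Finset.sum_congr rfl fun i _ => ?_
      have := (EuclideanSpace.basisFun (Fin d) ℝ).sum_sq_inner_left (v i)
      simp only [he] at this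
      rw [← Finset.mul_sum, this, n1, one_pow, mul_one]
    simp only [ta]
    rw [tr, ex ν]
    simp only [ex, Finset.mul_sum]
    rw [Finset.sum_comm, ← Finset.sum_add_distrib, Finset.mul_sum]
    refine Finset.sum_le_sum fun i _ => ?_
    have := mul_le_mul_of_nonneg_left (h (v i)) (hμ i)
    simp only [qa, n1, Finset.mul_sum] at this
    refine le_trans (Finset.sum_congr rfl fun j _ => by ring).le (this.trans_eq (by ring))

theorem lin : LinS := by
  intro d P U u x a hu hx h0
  set g := gradient u with hg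
  have c2 : ContDiffAt ℝ 2 g x :=
    (InnerProductSpace.toDual ℝ (X d)).symm.contDiff.contDiffAt.comp x
      ((hu.c3 x hx h0).1.fderiv_right (m := 2) (by norm_num))
  set H := fderiv ℝ g x with hH
  set K := fderiv ℝ (fderiv ℝ g) x with hK
  have ks : ∀ v w, K v w = K w v := (c2.isSymmSndFDerivAt (by simp)).eq
  have d1 : HasFDerivAt g H x := (c2.differentiableAt (by simp)).hasFDerivAt
  have d2 : HasFDerivAt (fderiv ℝ g) K x :=
    ((c2.fderiv_right (m := 1) (by norm_num)).differentiableAt one_ne_zero).hasFDerivAt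
  have ev : ∀ b : X d, ∀ᶠ t in 𝓝 (0 : ℝ), g (x + t • b) ≠ 0 ∧
      Ad P (g (x + t • b)) (fderiv ℝ g (x + t • b)) := fun b => by
    have ht : Tendsto (fun t : ℝ => x + t • b) (𝓝 0) (𝓝 x) :=
      Continuous.tendsto' (by fun_prop) _ _ (by simp)
    filter_upwards [ht.eventually (hu.op.mem_nhds hx),
      ht.eventually (c2.continuousAt.eventually_ne h0)] with t h1 h2 using ⟨h2, (hu.c3 _ h1 h2).2⟩
  have l1 : HasDerivAt (fun t : ℝ => g (x + t • a)) (H a) 0 := d1.hasLineDerivAt a
  have l2 : ∀ b : X d, HasDerivAt (fun t : ℝ => fderiv ℝ g (x + t • b)) (K b) 0 :=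
    fun b => d2.hasLineDerivAt b
  have l3 : ∀ b v w : X d, HasDerivAt (fun t : ℝ => ⟪fderiv ℝ g (x + t • b) v, w⟫)
      ⟪K b v, w⟫ 0 := fun b v w => by
    simpa using ((l2 b).clm_apply (hasDerivAt_const _ v)).inner ℝ (hasDerivAt_const _ w)
  have kt : ∀ b v w : X d, ⟪K b v, w⟫ = ⟪v, K b w⟫ := fun b v w => by
    have := LinA.zero_of_ev ((l3 b v w).sub (l3 b w v)) ((ev b).mono fun t ht => by
      simp only [Pi.sub_apply]
      rw [ht.2.1, real_inner_comm, sub_self])
    rw [real_inner_comm (K b w)]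
    linarith
  have k3 : ∀ v, ⟪K a v, v⟫ = ⟪a, K v v⟫ := fun v => by rw [ks, kt]
  have key := LinA.zero_of_ev (((l1.inner ℝ l1).mul
    (HasDerivAt.fun_sum fun i (_ : i ∈ Finset.univ) => l3 a (ei i) (ei i))).add
    ((((l2 a).clm_apply l1).inner ℝ l1).const_mul P)) ((ev a).mono fun t ht => by
      have h1 := ht.2.2
      have h2 := norm_ne_zero_iff.2 ht.1
      simp only [ta, nu, map_smul, real_inner_smul_left, real_inner_smul_right] at h1
      simp only [Pi.add_apply, Pi.mul_apply, real_inner_self_eq_norm_sq]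
      field_simp at h1
      linarith)
  obtain ⟨hs, ht⟩ := (hu.c3 x hx h0).2
  have hr := norm_ne_zero_iff.2 h0
  simp only [zero_smul, add_zero, ← hH, k3, inner_add_left, real_inner_self_eq_norm_sq] at key
  rw [← hg, ← hH] at hs ht
  simp only [ta, nu, map_smul, real_inner_smul_left, real_inner_smul_right] at ht
  simp only [ta, nu, dr, map_smul, map_sub, smul_apply, real_inner_smul_left,
    real_inner_smul_right, inner_sub_right]
  have e1 : ⟪H (H a), g x⟫ = ⟪a, H (H (g x))⟫ := by rw [hs, hs]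
  have e2 : ⟪H (g x), H a⟫ = ⟪a, H (H (g x))⟫ := by rw [real_inner_comm, hs]
  have e3 : ⟪g x, H a⟫ = ⟪a, H (g x)⟫ := by rw [real_inner_comm, hs]
  have e4 : ⟪H a, g x⟫ = ⟪a, H (g x)⟫ := hs _ _
  rw [e1, e2, e3, e4, eq_neg_of_add_eq_zero_left ht] at key
  field_simp at key ⊢
  linarith

end Pool.Agent.MP_815c6c_an.W
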