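import Pool.Agent.MP_815c6c_an.W.Spec
import Mathlib.Analysis.FunctionalSpaces.SobolevInequality
import Mathlib.Analysis.Calculus.BumpFunction.InnerProduct

/-! The gradient is locally bounded in dimension three, for every `p > 2`. -/

set_option autoImplicit false

noncomputable section

namespace Pool.Agent.MP_815c6c_an.H

open Set Metric MeasureTheory Filter Topology
open scoped RealInnerProductSpace
open N (X)
open S (ei vo hs Vp Ip)
open S.IdA (lo dw ww Jt)

open LipA in
/-- bounded solutions have a locally bounded gradient -/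
theorem lip3_bdd {d : ℕ} {p B : ℝ} {u : X d → ℝ} {G : X d → X d} (hp : 2 < p)
    (h2 : S.Wk p (ball 0 2) u G) (hB : ∀ᵐ x ∂vo (ball 0 1), |u x| ≤ B) :
    ∃ M : ℝ, ∀ᵐ z ∂vo (ball 0 (1 / 2)), ‖G z‖ ≤ M := by
  have ws := S.ws S.sob
  obtain ⟨D, hV⟩ := nat S.sob ws (S.dq S.sob ws (S.ts S.sob) S.tr S.mon) S.wk d p 1 2 0 u G hp
    one_lt_two h2
  have h : S.Wk p (ball 0 1) u G := h2.mono (ball_subset_ball one_le_two)
  have hP : 0 ≤ p - 2 := by linarith
  obtain ⟨C, b, m, Φ, c, C0, m1, c0, hΦ⟩ := pt (d := d) hP B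
  have k1 : ∀ k : ℕ, (1 : ℝ) ≤ k + 1 := fun k => le_add_of_nonneg_left k.cast_nonneg
  have cp : ∀ K, IsCompact (ks b K : Set (St d)) := fun K => (isCompact_closedBall ..).prod
    (isCompact_Icc.prod ((isCompact_closedBall ..).inter_right
      (isClosed_le continuous_const continuous_norm)))
  have id := fun k => S.IdA.ident hp isOpen_ball isBounded_ball h hV (hΦ _ (k1 k)).1 (cp _)
    (fun s hs => ⟨closedBall_subset_ball (by norm_num) hs.1,
      norm_pos_iff.1 (one_pos.trans_le hs.2.2.2)⟩) (hΦ _ (k1 k)).2.1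
  obtain ⟨mV, mD⟩ := (S.sob d (X d)).mem _ _ _ _ hV
  have mG := (S.dq_mem ((S.sob d ℝ).mem _ _ _ _ h.sb).2).1
  obtain ⟨w, hw⟩ : ∃ w : X d → ℝ, w = fun x =>
    C * ((p - 2 + d) * (4 * ‖D x‖ ^ 2) + ‖Vp p (G x)‖ ^ 2) := ⟨_, rfl⟩
  have w0 : ∀ x, 0 ≤ w x := fun x => by rw [hw]; positivity
  have wi : Integrable w (vo (ball 0 1)) := hw ▸
    ((((memLp_two_iff_integrable_sq_norm mD.1).1 mD).const_mul 4).const_mul _ |>.add
      ((memLp_two_iff_integrable_sq_norm mV.1).1 mV)).const_mul C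
  have a0 : ∀ (k : ℕ) x, 0 ≤ min 1 (‖G x‖ ^ 2 * (k + 1 : ℝ)⁻¹) := fun k x => by positivity
  have am : ∀ k : ℕ, AEStronglyMeasurable (fun x => min 1 (‖G x‖ ^ 2 * (k + 1 : ℝ)⁻¹) * w x)
      (vo (ball 0 1)) := fun k => (Continuous.comp_aestronglyMeasurable
        (g := fun ξ : X d => min 1 (‖ξ‖ ^ 2 * (k + 1 : ℝ)⁻¹)) (by fun_prop) mG).mul wi.1
  have ab : ∀ k : ℕ, ∀ᵐ x ∂vo (ball 0 1), ‖min 1 (‖G x‖ ^ 2 * (k + 1 : ℝ)⁻¹) * w x‖ ≤ w x :=
    fun k => ae_of_all _ fun x => by
      rw [Real.norm_of_nonneg (mul_nonneg (a0 k x) (w0 x))]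
      exact mul_le_of_le_one_left (w0 x) (min_le_left ..)
  have t := tendsto_integral_of_dominated_convergence (f := fun _ => 0) w am wi ab
    (ae_of_all _ fun x => by
      have := ((tendsto_one_div_add_atTop_nhds_zero_nat (𝕜 := ℝ)).const_mul (‖G x‖ ^ 2)
        |> (tendsto_const_nhds (x := (1 : ℝ))).min).mul_const (w x)
      simpa only [one_div, mul_zero, min_eq_right zero_le_one, zero_mul] using this)
  have L := lim0 (fun k => (id k).1.add (wi.mono' (am k) (ab k))) (fun k => by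
    filter_upwards [hB, ae_restrict_mem measurableSet_ball] with x a b'
    simp only [Pi.add_apply, Pi.zero_apply]
    by_cases n : 1 ≤ ‖G x‖ ^ 2
    · have h0 : G x ≠ 0 := fun e => by simp [e] at n; linarith
      have g := norm_pos_iff.2 h0
      have := mul_le_mul_of_nonneg_left ((hΦ _ (k1 k)).2.2 (x, u x, G x) (hs p (G x) (D x))
        (mem_ball_zero_iff.1 b').le a n).1 (Real.rpow_nonneg g.le (p - 2))
      have e : ‖Vp p (G x)‖ ^ 2 = ‖G x‖ ^ (p - 2) * ‖G x‖ ^ 2 := by
        rw [Vp, Q.PowA.norm_pw _ _ (by linarith), ← Real.rpow_natCast, ← Real.rpow_natCast,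
          ← Real.rpow_mul g.le, ← Real.rpow_add g]
        refine congrArg _ ?_
        push_cast
        ring
      have f := mul_le_mul_of_nonneg_left (hsb hp h0 (D x))
        (show 0 ≤ min 1 (‖G x‖ ^ 2 * (k + 1 : ℝ)⁻¹) * C * (p - 2 + d) by positivity)
      simp only [hw, e]
      nlinarith
    · have z : lo (p - 2) (Φ (k + 1)) (x, u x, G x) (hs p (G x) (D x)) = 0 :=
        Jt.lo_eq hP ((Jt.const 0).congr (S.IdA.ev0 (cp _) (hΦ _ (k1 k)).2.1 fun a =>
          n (one_le_pow₀ (show 1 ≤ ‖G x‖ from a.2.2.2))))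
      rw [z, mul_zero, zero_add]
      exact mul_nonneg (a0 k x) (w0 x)) (by
    rw [integral_zero] at t
    refine t.congr fun k => ?_
    rw [← zero_add (∫ _ in _, _), ← (id k).2]
    exact (integral_add (id k).1 (wi.mono' (am k) (ab k))).symm)
  have sub : ball (0 : X d) (1 / 2) ⊆ ball 0 1 := ball_subset_ball (by norm_num)
  refine ⟨m, ?_⟩
  filter_upwards [ae_restrict_of_ae_restrict_of_subset sub L,
    ae_restrict_of_ae_restrict_of_subset sub hB, ae_restrict_mem measurableSet_ball] with x a a' b'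
  refine not_lt.1 fun g => a _ (mul_pos (Real.rpow_pos_of_pos (by linarith : 0 < ‖G x‖) (p - 2))
    (c0 (x, u x, G x) (mem_ball_zero_iff.1 b').le g)) ?_
  filter_upwards [tendsto_natCast_atTop_atTop.eventually_gt_atTop (‖G x‖ ^ 2)] with k hk
  exact le_add_of_le_of_nonneg (mul_le_mul_of_nonneg_left (((hΦ _ (k1 k)).2.2 (x, u x, G x) _
    (mem_ball_zero_iff.1 (sub b')).le a' (one_le_pow₀ (by linarith))).2 (hk.trans (lt_add_one _)))
    (by positivity)) (mul_nonneg (a0 k x) (w0 x))

end Pool.Agent.MP_815c6c_an.H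

namespace Pool.Agent.MP_815c6c_an.W

open Set Metric MeasureTheory Filter Topology
open scoped ENNReal RealInnerProductSpace
open S (vo Sb Vp)

namespace Lip3A

/-- the Sobolev embedding in dimension three -/
theorem six {E : Type} [NormedAddCommGroup E] [NormedSpace ℝ E] [FiniteDimensional ℝ E]
    {r R : ℝ} {f : X 3 → E} {D : X 3 → S.L 3 E} (h0 : 0 < r) (hr : r < R)
    (h : Sb 2 (ball 0 R) f D) : MemLp f 6 (vo (ball 0 r)) := by
  obtain ⟨v, hv, g, hg, h⟩ := h
  let η : ContDiffBump (0 : X 3) := ⟨r, (r + R) / 2, h0, by linarith⟩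
  have c1 : ContDiff ℝ 1 η := η.contDiff
  have cs : HasCompactSupport η := η.hasCompactSupport
  obtain ⟨B, hB⟩ := (c1.continuous_fderiv one_ne_zero).bounded_above_of_compact_support
    (cs.fderiv ℝ)
  have B0 : 0 ≤ B := (norm_nonneg _).trans (hB 0)
  have ts : tsupport η ⊆ ball 0 R := by
    rw [η.tsupport_eq]
    exact closedBall_subset_ball (by show (r + R) / 2 < R; linarith)
  have sub : ball (0 : X 3) r ⊆ ball 0 R := ball_subset_ball hr.le
  have lim : ∀ᵐ z ∂vo (ball (0 : X 3) r), Tendsto (fun n => v n z) atTop (𝓝 (f z)) :=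
    ae_restrict_of_ae_restrict_of_subset sub (h.mono fun z a => a.2.1)
  have vm : ∀ n, AEStronglyMeasurable (v n) (vo (ball (0 : X 3) r)) := fun n =>
    (hv n).continuous.aestronglyMeasurable
  obtain ⟨K, hK⟩ : ∃ K : ℝ≥0∞, K = (SNormLESNormFDerivOfEqConst E (volume : Measure (X 3))
    ((2 : NNReal) : ℝ) : ℝ≥0∞) * eLpNorm (fun z => (1 + B) * g z) 2 (vo (ball 0 R)) := ⟨_, rfl⟩
  have K0 : K < ⊤ := hK ▸ ENNReal.mul_lt_top ENNReal.coe_lt_top (hg.const_mul _).2
  have key : ∀ n, eLpNorm (v n) 6 (vo (ball 0 r)) ≤ K := fun n => by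
    have w1 : ContDiff ℝ 1 fun z => η z • v n z := c1.smul (hv n)
    have w2 : HasCompactSupport fun z => η z • v n z := cs.smul_right
    have a := eLpNorm_le_eLpNorm_fderiv_of_eq (volume : Measure (X 3)) w1 w2 (p := 2) (p' := 6)
      one_le_two (by simp) (by simp; norm_num)
    have b : eLpNorm (v n) 6 (vo (ball 0 r)) ≤ eLpNorm (fun z => η z • v n z) 6 volume := by
      refine le_trans (eLpNorm_congr_ae ?_).le (eLpNorm_mono_measure _ Measure.restrict_le_self)
      filter_upwards [ae_restrict_mem measurableSet_ball] with z hz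
      rw [η.one_of_mem_closedBall (ball_subset_closedBall hz), one_smul]
    have c : eLpNorm (fderiv ℝ fun z => η z • v n z) 2 volume ≤
        eLpNorm (fun z => (1 + B) * g z) 2 (vo (ball 0 R)) := by
      rw [← eLpNorm_restrict_eq_of_support_subset (s := ball 0 R)
        (f := fderiv ℝ fun z => η z • v n z) ((support_fderiv_subset ℝ).trans
          ((tsupport_smul_subset_left _ _).trans ts))]
      refine eLpNorm_mono_ae (h.mono fun z a => ?_)
      have g0 : 0 ≤ g z := (norm_nonneg _).trans (a.1 0).1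
      have e : fderiv ℝ (fun z => η z • v n z) z =
          η z • fderiv ℝ (v n) z + (fderiv ℝ η z).smulRight (v n z) :=
        (((c1.differentiable one_ne_zero z).hasFDerivAt).smul
          ((hv n).differentiable one_ne_zero z).hasFDerivAt).fderiv
      rw [e, Real.norm_of_nonneg (by positivity)]
      refine (norm_add_le _ _).trans ?_
      rw [norm_smul, ContinuousLinearMap.norm_smulRight_apply, Real.norm_of_nonneg η.nonneg]
      nlinarith [mul_le_mul (η.le_one (x := z)) (a.1 n).2 (norm_nonneg _) zero_le_one,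
        mul_le_mul (hB z) (a.1 n).1 (norm_nonneg _) B0]
    refine b.trans (le_trans (by simpa using a) ?_)
    rw [hK]
    exact mul_le_mul_right c _
  refine ⟨aestronglyMeasurable_of_tendsto_ae atTop vm lim,
    ((Lp.eLpNorm_lim_le_liminf_eLpNorm vm f lim).trans ?_).trans_lt K0⟩
  exact liminf_le_of_frequently_le' (Frequently.of_forall key)

end Lip3A

open Lip3A in
theorem lip3 : ∀ p : ℝ, 2 < p → S.LipS 3 p := by
  intro p hp u G h2
  have ws := S.ws S.sob
  obtain ⟨D, hV⟩ := H.nat S.sob ws (S.dq S.sob ws (S.ts S.sob) S.tr S.mon) S.wk 3 p (7 / 4) 2 0 u G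
    hp (by norm_num) h2
  have p2 : (2 : ℝ≥0∞) ≤ ENNReal.ofReal p := by
    rw [← ENNReal.ofReal_ofNat]
    exact ENNReal.ofReal_le_ofReal hp.le
  have sub : ball (0 : X 3) (3 / 2) ⊆ ball 0 2 := ball_subset_ball (by norm_num)
  have fin := S.SobA.fin (isBounded_ball (x := (0 : X 3)) (r := 3 / 2))
  have mV := six (r := 3 / 2) (by norm_num) (by norm_num) hV
  have mu := six (r := 3 / 2) (by norm_num) (by norm_num) (h2.sb.down isBounded_ball p2)
  have mG : MemLp G 6 (vo (ball 0 (3 / 2))) := by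
    refine ((memLp_const (1 : ℝ)).add mV.norm).mono' (h2.sb.mono sub).memG.1
      (ae_of_all _ fun x => ?_)
    show ‖G x‖ ≤ 1 + ‖Vp p (G x)‖
    rw [((sk.alg (X 3) p hp).nV (G x)).1]
    rcases le_total ‖G x‖ 1 with k | k
    · exact le_add_of_le_of_nonneg k (Real.rpow_nonneg (norm_nonneg _) _)
    · have := Real.rpow_le_rpow_of_exponent_le k (show 1 ≤ p / 2 by linarith)
      rw [Real.rpow_one] at this
      linarith
  have hs : Sb 6 (ball 0 1) u fun y => innerSL ℝ (G y) := by
    refine S.en_sb (K := ball 0 (3 / 2)) (δ := 1 / 4) (by norm_num) (by norm_num)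
      measurableSet_ball measurableSet_ball (by norm_num) (fun z hz y hy => ?_) mu mG
      fun φ a b c i => ?_
    · rw [mem_ball_zero_iff] at hz ⊢
      have := norm_add_le (y - z) z
      rw [sub_add_cancel] at this
      linarith [mem_closedBall_iff_norm.1 hy]
    · have k := (h2.sb.ibp (one_le_two.trans p2) isBounded_ball
        ⟨a.of_le (by simp), b, c.trans sub⟩ (S.ei i)).2.2
      simpa only [smul_eq_mul, mul_comm, innerSL_apply_apply, EuclideanSpace.inner_single_right,
        one_mul, conj_trivial, mul_one] using k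
  obtain ⟨C', -, hm⟩ := S.mor 3 6 (by norm_num) (by norm_num)
  obtain ⟨u', -, e', hu⟩ := hm 0 1 u _ one_pos (by rwa [ENNReal.ofReal_ofNat])
  exact H.lip3_bdd hp h2 (by
    filter_upwards [e', ae_restrict_mem measurableSet_ball] with x a b
    rw [← a, ← sub_add_cancel (u' x) (u' 0)]
    exact (abs_add_le _ _).trans (add_le_add (hu x b 0 (mem_ball_self one_pos)) le_rfl))

end Pool.Agent.MP_815c6c_an.W
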