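import Pool.Agent.MP_815c6c_an.W.Spec

/-! Scalar p-harmonic functions, fixed `p`: slow growth excludes small gradients, and some Hölder
exponent. -/

set_option autoImplicit false

noncomputable section

namespace Pool.Agent.MP_815c6c_an.W

namespace NwA

section lipschitz

open Set Metric MeasureTheory Filter Topology
open scoped RealInnerProductSpace
open S (vo hs Vp Ip)
open S.IdA (lo dw ww Jt)
open H H.LipA

theorem lipS (d : ℕ) (p : ℝ) (hp : 2 < p) (hd : d < p) : S.LipS d p := by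
  intro u G h2
  have ws := S.ws S.sob
  obtain ⟨D, hV⟩ := nat S.sob ws (S.dq S.sob ws (S.ts S.sob) S.tr S.mon) S.wk d p 1 2 0 u G hp
    one_lt_two h2
  have h : S.Wk p (ball 0 1) u G := by
    simpa only [one_smul, one_mul, add_zero, zero_add, mul_one] using
      (ws d p _ (ball 0 1) u G hp isOpen_ball isOpen_ball isBounded_ball h2).1 0 1 1 0 one_ne_zero
        fun z hz => by rw [one_smul, zero_add]; exact ball_subset_ball one_le_two hz
  obtain ⟨C', -, hm⟩ := S.mor d p (by linarith) hd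
  obtain ⟨u', -, e', hu⟩ := hm 0 1 u _ one_pos h.sb
  obtain ⟨B, hB⟩ : ∃ B, ∀ᵐ x ∂vo (ball 0 1), |u x| ≤ B := ⟨_, by
    filter_upwards [e', ae_restrict_mem measurableSet_ball] with x a b
    rw [← a, ← sub_add_cancel (u' x) (u' 0)]
    exact (abs_add_le _ _).trans (add_le_add (hu x b 0 (mem_ball_self one_pos)) le_rfl)⟩
  have hP : 0 ≤ p - 2 := by linarith
  obtain ⟨C, b, m, Φ, c, C0, m1, c0, hΦ⟩ := pt (d := d) hP B
  have k1 : ∀ k : ℕ, (1 : ℝ) ≤ k + 1 := fun k => le_add_of_nonneg_left k.cast_nonneg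
  have cp : ∀ K, IsCompact (ks b K : Set (St d)) := fun K => (isCompact_closedBall ..).prod
    (isCompact_Icc.prod ((isCompact_closedBall ..).inter_right
      (isClosed_le continuous_const continuous_norm)))
  have id := fun k => S.IdA.ident hp isOpen_ball isBounded_ball h hV (hΦ _ (k1 k)).1 (cp _)
    (fun s hs => ⟨closedBall_subset_ball (by norm_num) hs.1,
      norm_pos_iff.1 (one_pos.trans_le hs.2.2.2)⟩) (hΦ _ (k1 k)).2.1
  obtain ⟨mV, mD⟩ := (S.sob d (X d)).mem _ _ _ _ hV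
  have mG := (S.dq_mem ((S.sob d ℝ).mem _ _ _ _ h.sb).2).1
  obtain ⟨w, hw⟩ : ∃ w : X d → ℝ, w = fun x =>
    C * ((p - 2 + d) * (4 * ‖D x‖ ^ 2) + ‖Vp p (G x)‖ ^ 2) := ⟨_, rfl⟩
  have w0 : ∀ x, 0 ≤ w x := fun x => by rw [hw]; positivity
  have wi : Integrable w (vo (ball 0 1)) := hw ▸
    ((((memLp_two_iff_integrable_sq_norm mD.1).1 mD).const_mul 4).const_mul _ |>.add
      ((memLp_two_iff_integrable_sq_norm mV.1).1 mV)).const_mul C
  have a0 : ∀ (k : ℕ) x, 0 ≤ min 1 (‖G x‖ ^ 2 * (k + 1 : ℝ)⁻¹) := fun k x => by positivity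
  have am : ∀ k : ℕ, AEStronglyMeasurable (fun x => min 1 (‖G x‖ ^ 2 * (k + 1 : ℝ)⁻¹) * w x)
      (vo (ball 0 1)) := fun k => (Continuous.comp_aestronglyMeasurable
        (g := fun ξ : X d => min 1 (‖ξ‖ ^ 2 * (k + 1 : ℝ)⁻¹)) (by fun_prop) mG).mul wi.1
  have ab : ∀ k : ℕ, ∀ᵐ x ∂vo (ball 0 1), ‖min 1 (‖G x‖ ^ 2 * (k + 1 : ℝ)⁻¹) * w x‖ ≤ w x :=
    fun k => ae_of_all _ fun x => by
      rw [Real.norm_of_nonneg (mul_nonneg (a0 k x) (w0 x))]
      exact mul_le_of_le_one_left (w0 x) (min_le_left ..)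
  have t := tendsto_integral_of_dominated_convergence (f := fun _ => 0) w am wi ab
    (ae_of_all _ fun x => by
      have := ((tendsto_one_div_add_atTop_nhds_zero_nat (𝕜 := ℝ)).const_mul (‖G x‖ ^ 2)
        |> (tendsto_const_nhds (x := (1 : ℝ))).min).mul_const (w x)
      simpa only [one_div, mul_zero, min_eq_right zero_le_one, zero_mul] using this)
  have L := lim0 (fun k => (id k).1.add (wi.mono' (am k) (ab k))) (fun k => by
    filter_upwards [hB, ae_restrict_mem measurableSet_ball] with x a b'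
    simp only [Pi.add_apply, Pi.zero_apply]
    by_cases n : 1 ≤ ‖G x‖ ^ 2
    · have h0 : G x ≠ 0 := fun e => by simp [e] at n; linarith
      have g := norm_pos_iff.2 h0
      have := mul_le_mul_of_nonneg_left ((hΦ _ (k1 k)).2.2 (x, u x, G x) (hs p (G x) (D x))
        (mem_ball_zero_iff.1 b').le a n).1 (Real.rpow_nonneg g.le (p - 2))
      have e : ‖Vp p (G x)‖ ^ 2 = ‖G x‖ ^ (p - 2) * ‖G x‖ ^ 2 := by
        rw [Vp, Q.PowA.norm_pw _ _ (by linarith), ← Real.rpow_natCast, ← Real.rpow_natCast,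
          ← Real.rpow_mul g.le, ← Real.rpow_add g]
        refine congrArg _ ?_
        push_cast
        ring
      have f := mul_le_mul_of_nonneg_left (hsb hp h0 (D x))
        (show 0 ≤ min 1 (‖G x‖ ^ 2 * (k + 1 : ℝ)⁻¹) * C * (p - 2 + d) by positivity)
      simp only [hw, e]
      nlinarith
    · have z : lo (p - 2) (Φ (k + 1)) (x, u x, G x) (hs p (G x) (D x)) = 0 :=
        Jt.lo_eq hP ((Jt.const 0).congr (S.IdA.ev0 (cp _) (hΦ _ (k1 k)).2.1 fun a =>
          n (one_le_pow₀ (show 1 ≤ ‖G x‖ from a.2.2.2))))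
      rw [z, mul_zero, zero_add]
      exact mul_nonneg (a0 k x) (w0 x)) (by
    rw [integral_zero] at t
    refine t.congr fun k => ?_
    rw [← zero_add (∫ _ in _, _), ← (id k).2]
    exact (integral_add (id k).1 (wi.mono' (am k) (ab k))).symm)
  have sub : ball (0 : X d) (1 / 2) ⊆ ball 0 1 := ball_subset_ball (by norm_num)
  refine ⟨m, ?_⟩
  filter_upwards [ae_restrict_of_ae_restrict_of_subset sub L,
    ae_restrict_of_ae_restrict_of_subset sub hB, ae_restrict_mem measurableSet_ball] with x a a' b'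
  refine not_lt.1 fun g => a _ (mul_pos (Real.rpow_pos_of_pos (by linarith : 0 < ‖G x‖) (p - 2))
    (c0 (x, u x, G x) (mem_ball_zero_iff.1 b').le g)) ?_
  filter_upwards [tendsto_natCast_atTop_atTop.eventually_gt_atTop (‖G x‖ ^ 2)] with k hk
  exact le_add_of_le_of_nonneg (mul_le_mul_of_nonneg_left (((hΦ _ (k1 k)).2.2 (x, u x, G x) _
    (mem_ball_zero_iff.1 (sub b')).le a' (one_le_pow₀ (by linarith))).2 (hk.trans (lt_add_one _)))
    (by positivity)) (mul_nonneg (a0 k x) (w0 x))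

end lipschitz

open Set Metric MeasureTheory Filter Topology
open scoped RealInnerProductSpace
open S (vo Wk)
open H (St VS Bd ER af glue_cl glue_vs)

theorem vsS : H.VsS :=
  have w := S.ws S.sob
  have l := S.ll S.sob
  H.vs S.sob w l (S.gap S.sob l)
    (H.nat S.sob w (S.dq S.sob w (S.ts S.sob) S.tr S.mon) S.wk) H.ess (H.mx hk H.per H.ess)

theorem onS (d : ℕ) (p : ℝ) (h3 : 3 ≤ p) (hd : d < p) : S.OnS d p := by
  intro m hm
  have hl := lipS d p (by linarith) hd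
  obtain ⟨l, l0, l1, hl'⟩ := H.osc (H.bar hk) d (p - 2) (2 / m) (by linarith) (by positivity)
  refine ⟨1 / 32, l, by norm_num, by norm_num, l0, l1, fun u G B hB h hb hD => ?_⟩
  obtain ⟨u', V, a⟩ := glue_vs (S.ws S.sob) S.mor H.ess vsS h3 hd hl one_pos h
  have b1 := glue_cl (u := u') (C := {ξ | m ≤ ‖ξ‖ ∧ ‖ξ‖ ≤ 1})
    ((isClosed_le continuous_const continuous_norm).inter
      (isClosed_le continuous_norm continuous_const)) hb
  have b2 := glue_cl (u := u') (C := ⋂ z ∈ ER (ball 0 1) u' G, closedBall z.2.2 B)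
    (isClosed_biInter fun _ _ => isClosed_closedBall) (hD.mono fun y hy => mem_iInter₂.2
      fun z hz => mem_closedBall_comm.1 (glue_cl (u := u') (C := closedBall (G y) B)
        isClosed_closedBall (hy.mono fun _ e => mem_closedBall_iff_norm'.2 e) z hz))
  have k := hl' _ u' _ 0 (1 / 32) (min B 2) V (closedBall_subset_ball (by norm_num))
    (by norm_num) (fun z hz z' hz' _ _ => le_min
      (mem_closedBall_iff_norm.1 (mem_iInter₂.1 (b2 z hz) z' hz'))
      ((norm_sub_le _ _).trans (by linarith [(b1 z hz).2, (b1 z' hz').2])))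
    fun z hz _ => (min_le_right _ _).trans (by
      rw [div_mul_eq_mul_div, le_div_iff₀ hm]; linarith [(b1 z hz).1])
  have a' : ∀ᵐ y ∂vo (ball (0 : X d) (1 / 32)), (y, u' y, G y) ∈ ER (ball 0 1) u' G ∧
      ‖y - 0‖ ≤ 1 / 32 :=
    (ae_restrict_of_ae_restrict_of_subset (ball_subset_ball (by norm_num)) a).and
      ((ae_restrict_mem measurableSet_ball).mono fun y hy => (mem_ball_iff_norm.1 hy).le)
  exact a'.mono fun y hy => a'.mono fun y' hy' => (k _ hy.1 _ hy'.1 hy.2 hy'.2).trans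
    (mul_le_mul_of_nonneg_left (min_le_left _ _) l0.le)

theorem nowS (nw : NwS) (d : ℕ) (p : ℝ) (h3 : 3 ≤ p) (hd : d < p) : ∃ q, S.NowS d p q := by
  have hl := lipS d p (by linarith) hd
  obtain ⟨Λ, c, L1, c0, hn⟩ := nw d (p - 2) (by linarith) (by linarith)
  obtain ⟨n, hn'⟩ := pow_unbounded_of_one_lt (Λ + 1) (one_lt_two (α := ℝ))
  refine ⟨2 * n, Λ + 1, c, by linarith, ?_, c0, fun u G h hb hn1 => ?_⟩
  · rwa [mul_div_cancel_left₀ _ two_ne_zero, Real.rpow_natCast]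
  obtain ⟨u', V, a⟩ := glue_vs (S.ws S.sob) S.mor H.ess vsS h3 hd hl (by linarith) h
  have a' : ∀ᵐ y ∂vo (ball (0 : X d) 1), (y, u' y, G y) ∈ ER (ball 0 (Λ + 1)) u' G ∧ ‖y‖ ≤ 1 :=
    (ae_restrict_of_ae_restrict_of_subset (ball_subset_ball (by linarith)) a).and
      ((ae_restrict_mem measurableSet_ball).mono fun y hy => (mem_ball_zero_iff.1 hy).le)
  have b1 := glue_cl (u := u') (C := {ξ | ‖ξ‖ ≤ 2})
    (isClosed_le continuous_norm continuous_const) hb
  have k := hn _ u' _ V (closedBall_subset_ball (by linarith)) (fun z hz _ => b1 z hz) ?_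
  · exact a'.mono fun y hy => k (y, u' y, G y) hy.1 hy.2
  · by_contra q'
    exact hn1 (a'.mono fun y hy => le_of_not_ge fun e => q' ⟨_, hy.1, hy.2, e⟩)

theorem slow {m : ℕ → ℝ} {a : ℝ} {n : ℕ} (ha : 0 ≤ a) (h0 : 1 ≤ m 0) (hn : m n < a ^ n) :
    ∃ k < n, m (k + 1) ≤ a * m k := by
  by_contra h
  push Not at h
  have : ∀ k ≤ n, a ^ k ≤ m k := fun k => by
    induction k with
    | zero => intro _; simpa using h0
    | succ k ih =>
      intro hk
      have := mul_le_mul_of_nonneg_left (ih (by omega)) ha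
      rw [pow_succ']
      linarith [h k (by omega)]
  linarith [this n le_rfl]

end NwA

open Set Metric Filter Topology
open scoped RealInnerProductSpace
open H (St VS Bd af)
open NwA

theorem nw : FlatS → BerS → NwS := by
  intro fl be d P hP hd
  obtain ⟨c, τ, c0, c1, t0, hb⟩ := be d P hP hd
  obtain ⟨c', c0', hf⟩ := fl d P (τ / 8) hP (by positivity)
  obtain ⟨η, e0, e1, e2, e3⟩ : ∃ η : ℝ, 0 < η ∧ η ≤ c' ∧ η ≤ τ / 2 ∧ η ≤ 1 :=
    ⟨min c' (min (τ / 2) 1), by positivity, min_le_left _ _,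
      (min_le_right _ _).trans (min_le_left _ _), (min_le_right _ _).trans (min_le_right _ _)⟩
  obtain ⟨n, hn⟩ := pow_unbounded_of_one_lt (2 : ℝ) (show 1 < 1 + η by linarith)
  have p1 : ∀ k : ℕ, (1 : ℝ) ≤ 16 ^ k := fun k => one_le_pow₀ (by norm_num)
  refine ⟨16 ^ n, c, p1 n, c0, fun U u T V hU hB ⟨z₀, a0, a1, a2⟩ z hz hz1 => ?_⟩
  have tp : ∀ k : ℕ, ∃ w : St d, k ≤ n → w ∈ T ∧ ‖w.1 - 0‖ ≤ 16 ^ k ∧ Bd T 0 (16 ^ k) ‖w.2.2‖ :=
    fun k => by
      by_cases h : k ≤ n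
      · obtain ⟨w, hw⟩ := hk.top d P U u T 0 (16 ^ k) V ((closedBall_subset_closedBall
          (pow_le_pow_right₀ (by norm_num) h)).trans hU) (by positivity)
        exact ⟨w, fun _ => hw⟩
      · exact ⟨z, fun h' => absurd h' h⟩
  choose w hw using tp
  have m1 : ∀ k ≤ n, 1 ≤ ‖(w k).2.2‖ := fun k h =>
    a2.trans ((hw k h).2.2 z₀ a0 (by rw [sub_zero]; exact a1.trans (p1 k)))
  obtain ⟨k, k1, k2⟩ := slow (m := fun k => ‖(w k).2.2‖) (a := 1 + η) (n := n) (by linarith)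
    (m1 0 (Nat.zero_le _)) ((hB _ (hw n le_rfl).1 (hw n le_rfl).2.1).trans_lt hn)
  obtain ⟨b0, b1, -⟩ := hw k k1.le
  have b2 := m1 k k1.le
  have b3 := (hw (k + 1) k1).2.2
  have b4 : (16 : ℝ) ^ (k + 1) ≤ 16 ^ n := pow_le_pow_right₀ (by norm_num) k1
  have s1 := p1 k
  rw [pow_succ'] at b3 b4
  rw [sub_zero] at b1
  beta_reduce at k2
  generalize w (k + 1) = w' at b3 k2
  generalize w k = z₁ at b0 b1 b2 k2
  generalize (16 : ℝ) ^ k = s at b1 b3 b4 s1
  obtain ⟨o, ho⟩ : ∃ o, o = (1 + η) * ‖z₁.2.2‖ := ⟨_, rfl⟩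
  have o1 : ‖z₁.2.2‖ ≤ o := by rw [ho]; nlinarith
  have o0 : 0 < o := by linarith
  have s0 : 0 < s := by linarith
  have B : ∀ y ∈ T, ‖y.1‖ ≤ 16 * s → ‖y.2.2‖ ≤ o := fun y hy h => by
    rw [ho]
    exact (b3 y hy (by rwa [sub_zero])).trans k2
  have U' : ∀ y : X d, ‖y‖ ≤ 16 * s → y ∈ U := fun y h => hU (mem_closedBall_zero_iff.2 (h.trans b4))
  have tri : ∀ y : X d, ‖y‖ ≤ ‖y - z₁.1‖ + ‖z₁.1‖ := fun y => by
    simpa using norm_add_le (y - z₁.1) z₁.1
  have F := hf U u T (4 * s) o z₁ V (by positivity) o0 b0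
    (fun y hy => U' y (by linarith [tri y, mem_closedBall_iff_norm.1 hy]))
    (fun y hy h => B y hy (by linarith [tri y.1])) (by
      have : (1 - c') * (1 + η) ≤ 1 := by nlinarith
      rw [ho, ← mul_assoc]
      exact mul_le_of_le_one_left (norm_nonneg _) this)
  have om : ∀ y ∈ T, ‖y.1‖ ≤ 2 * s → ‖y.2.2‖ ≠ c * o := fun y hy h => by
    have n3 : ∀ v : X d, ‖v‖ ≤ 1 → ‖s • v‖ ≤ s := fun v hv => by
      rw [norm_smul, Real.norm_of_nonneg s0.le]
      exact mul_le_of_le_one_right s0.le hv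
    have n4 : ∀ v : X d, ‖v‖ ≤ 1 → ‖y.1 + s • v‖ ≤ 3 * s := fun v hv => by
      linarith [norm_add_le y.1 (s • v), n3 v hv]
    have g0 : ‖z₁.2.2‖ ≠ 0 := by linarith
    have R := hb _ _ _ (‖z₁.2.2‖⁻¹ • z₁.2.2)
      (hk.inv d P U u T y.1 (u z₁.1 + ⟪z₁.2.2, y.1 - z₁.1⟫) s o s0.ne' o0 V)
      (fun v hv => U' _ (by linarith [n4 v (mem_closedBall_zero_iff.1 hv)]))
      (by rw [norm_smul, norm_inv, norm_norm, inv_mul_cancel₀ g0])
      (fun v hv h' => by
        have := B _ hv (by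
          rw [sub_zero] at h'
          exact (n4 _ h').trans (by linarith))
        simp only [af, norm_smul, Real.norm_of_nonneg o0.le] at this
        exact (mul_le_iff_le_one_right o0).1 this)
      (fun v hv => by
        have f := F (y.1 + s • v) (by linarith [norm_sub_le (y.1 + s • v) z₁.1, n4 v hv])
        have i1 : |⟪z₁.2.2, v⟫| ≤ ‖z₁.2.2‖ :=
          (abs_real_inner_le_norm _ _).trans (mul_le_of_le_one_right (norm_nonneg _) hv)
        rw [add_sub_right_comm, inner_add_right, real_inner_smul_right] at f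
        rw [real_inner_smul_left]
        have e : (u (y.1 + s • v) - (u z₁.1 + ⟪z₁.2.2, y.1 - z₁.1⟫)) / (s * o) -
            ‖z₁.2.2‖⁻¹ * ⟪z₁.2.2, v⟫ =
            (u (y.1 + s • v) - u z₁.1 - (⟪z₁.2.2, y.1 - z₁.1⟫ + s * ⟪z₁.2.2, v⟫) -
              η * s * ⟪z₁.2.2, v⟫) / (s * o) := by
          rw [ho]
          field_simp
          ring
        rw [e, abs_div, abs_of_pos (mul_pos s0 o0), div_le_iff₀ (mul_pos s0 o0)]
        refine (abs_sub _ _).trans ?_
        have i2 : |η * s * ⟪z₁.2.2, v⟫| ≤ τ / 2 * s * o := by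
          rw [abs_mul, abs_of_pos (mul_pos e0 s0)]
          exact mul_le_mul (mul_le_mul_of_nonneg_right e2 s0.le) (i1.trans o1) (abs_nonneg _)
            (by positivity)
        linarith)
      (0, (y.2.1 - (u z₁.1 + ⟪z₁.2.2, y.1 - z₁.1⟫)) / (s * o), o⁻¹ • y.2.2) (by
        have : af y.1 (u z₁.1 + ⟪z₁.2.2, y.1 - z₁.1⟫) s o
            (0, (y.2.1 - (u z₁.1 + ⟪z₁.2.2, y.1 - z₁.1⟫)) / (s * o), o⁻¹ • y.2.2) = y := by
          simp only [af, smul_zero, add_zero, smul_inv_smul₀ o0.ne',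
            mul_div_cancel₀ _ (mul_pos s0 o0).ne', add_sub_cancel]
        rw [mem_preimage, this]
        exact hy) rfl
    intro e
    refine R ?_
    simp only [norm_smul, norm_inv, Real.norm_of_nonneg o0.le, e]
    field_simp
  by_contra hlt
  push Not at hlt
  obtain ⟨y, hy, h1, h2⟩ := V.ivt 0 (2 * s) (c * o)
    (fun v hv => U' v (by linarith [mem_closedBall_zero_iff.1 hv])) (by positivity)
    ⟨z, hz, by rw [sub_zero]; linarith, by nlinarith⟩
    ⟨z₁, b0, by rw [sub_zero]; linarith, by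
      have : c * (1 + η) ≤ 1 := by nlinarith
      rw [ho, ← mul_assoc]
      exact mul_le_of_le_one_left (norm_nonneg _) this⟩
  exact om y hy (by rwa [sub_zero] at h1) h2

theorem rg : NwS → RgS := by
  intro nw d p h3 hd
  have hp : 2 < p := by linarith
  obtain ⟨q, hq⟩ := nowS nw d p h3 hd
  exact S.lreg sk (S.ll S.sob) S.lrep d p hp (lipS d p hp hd)
    (S.lhli sk d p q hp hq (S.lndi sk d p hp (onS d p h3 hd)))

end Pool.Agent.MP_815c6c_an.W
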