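import Pool.Agent.MP_815c6c_an.W.Fin

/-! Slow growth excludes small gradients, for every `P > 0`. -/

set_option autoImplicit false

noncomputable section

namespace Pool.Agent.MP_815c6c_an.W

open Set Metric Filter Topology
open scoped RealInnerProductSpace
open H (St VS Bd af)

def Flat0 : Prop := ∀ (d : ℕ) (P β : ℝ), 0 < P → 0 < β → ∃ c : ℝ, 0 < c ∧ ∀ (U : Set (X d))
  (u : X d → ℝ) (T : Set (St d)) (s o : ℝ) (z₁ : St d), VS P U u T → 0 < s → 0 < o → z₁ ∈ T →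
  closedBall z₁.1 (3 * s) ⊆ U → Bd T z₁.1 (3 * s) o → (1 - c) * o ≤ ‖z₁.2.2‖ →
  ∀ x, ‖x - z₁.1‖ ≤ s → |u x - u z₁.1 - ⟪z₁.2.2, x - z₁.1⟫| ≤ β * o * s

def Ber0 : Prop := ∀ (d : ℕ) (P : ℝ), 0 < P → d < 2 * P + 3 → ∃ c τ : ℝ, 0 < c ∧ c ≤ 1 / 8 ∧
  0 < τ ∧ ∀ (U : Set (X d)) (u : X d → ℝ) (T : Set (St d)) (e : X d), VS P U u T →
    closedBall 0 1 ⊆ U → ‖e‖ = 1 → Bd T 0 1 1 → (∀ x, ‖x‖ ≤ 1 → |u x - ⟪e, x⟫| ≤ τ) →
    ∀ z ∈ T, z.1 = 0 → ‖z.2.2‖ ≠ c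

theorem slow0 {m : ℕ → ℝ} {a : ℝ} {n : ℕ} (ha : 0 ≤ a) (h0 : 1 ≤ m 0) (hn : m n < a ^ n) :
    ∃ k < n, m (k + 1) ≤ a * m k := by
  by_contra h
  push Not at h
  have : ∀ k ≤ n, a ^ k ≤ m k := fun k => by
    induction k with
    | zero => intro _; simpa using h0
    | succ k ih =>
      intro hk
      have := mul_le_mul_of_nonneg_left (ih (by omega)) ha
      rw [pow_succ']
      linarith [h k (by omega)]
  linarith [this n le_rfl]

theorem nwL (fl : Flat0) (be : Ber0) (d : ℕ) (P : ℝ) (hP : 0 < P) (hd : d < 2 * P + 3) :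
    Nw d P := by
  obtain ⟨c, τ, c0, c1, t0, hb⟩ := be d P hP hd
  obtain ⟨c', c0', hf⟩ := fl d P (τ / 8) hP (by positivity)
  obtain ⟨η, e0, e1, e2, e3⟩ : ∃ η : ℝ, 0 < η ∧ η ≤ c' ∧ η ≤ τ / 2 ∧ η ≤ 1 :=
    ⟨min c' (min (τ / 2) 1), by positivity, min_le_left _ _,
      (min_le_right _ _).trans (min_le_left _ _), (min_le_right _ _).trans (min_le_right _ _)⟩
  obtain ⟨n, hn⟩ := pow_unbounded_of_one_lt (2 : ℝ) (show 1 < 1 + η by linarith)
  have p1 : ∀ k : ℕ, (1 : ℝ) ≤ 16 ^ k := fun k => one_le_pow₀ (by norm_num)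
  refine ⟨16 ^ n, c, p1 n, c0, fun U u T V hU hB ⟨z₀, a0, a1, a2⟩ z hz hz1 => ?_⟩
  have tp : ∀ k : ℕ, ∃ w : St d, k ≤ n → w ∈ T ∧ ‖w.1 - 0‖ ≤ 16 ^ k ∧ Bd T 0 (16 ^ k) ‖w.2.2‖ :=
    fun k => by
      by_cases h : k ≤ n
      · obtain ⟨w, hw⟩ := hk.top d P U u T 0 (16 ^ k) V ((closedBall_subset_closedBall
          (pow_le_pow_right₀ (by norm_num) h)).trans hU) (by positivity)
        exact ⟨w, fun _ => hw⟩
      · exact ⟨z, fun h' => absurd h' h⟩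
  choose w hw using tp
  have m1 : ∀ k ≤ n, 1 ≤ ‖(w k).2.2‖ := fun k h =>
    a2.trans ((hw k h).2.2 z₀ a0 (by rw [sub_zero]; exact a1.trans (p1 k)))
  obtain ⟨k, k1, k2⟩ := slow0 (m := fun k => ‖(w k).2.2‖) (a := 1 + η) (n := n) (by linarith)
    (m1 0 (Nat.zero_le _)) ((hB _ (hw n le_rfl).1 (hw n le_rfl).2.1).trans_lt hn)
  obtain ⟨b0, b1, -⟩ := hw k k1.le
  have b2 := m1 k k1.le
  have b3 := (hw (k + 1) k1).2.2
  have b4 : (16 : ℝ) ^ (k + 1) ≤ 16 ^ n := pow_le_pow_right₀ (by norm_num) k1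
  have s1 := p1 k
  rw [pow_succ'] at b3 b4
  rw [sub_zero] at b1
  beta_reduce at k2
  generalize w (k + 1) = w' at b3 k2
  generalize w k = z₁ at b0 b1 b2 k2
  generalize (16 : ℝ) ^ k = s at b1 b3 b4 s1
  obtain ⟨o, ho⟩ : ∃ o, o = (1 + η) * ‖z₁.2.2‖ := ⟨_, rfl⟩
  have o1 : ‖z₁.2.2‖ ≤ o := by rw [ho]; nlinarith
  have o0 : 0 < o := by linarith
  have s0 : 0 < s := by linarith
  have B : ∀ y ∈ T, ‖y.1‖ ≤ 16 * s → ‖y.2.2‖ ≤ o := fun y hy h => by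
    rw [ho]
    exact (b3 y hy (by rwa [sub_zero])).trans k2
  have U' : ∀ y : X d, ‖y‖ ≤ 16 * s → y ∈ U := fun y h => hU (mem_closedBall_zero_iff.2 (h.trans b4))
  have tri : ∀ y : X d, ‖y‖ ≤ ‖y - z₁.1‖ + ‖z₁.1‖ := fun y => by
    simpa using norm_add_le (y - z₁.1) z₁.1
  have F := hf U u T (4 * s) o z₁ V (by positivity) o0 b0
    (fun y hy => U' y (by linarith [tri y, mem_closedBall_iff_norm.1 hy]))
    (fun y hy h => B y hy (by linarith [tri y.1])) (by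
      have : (1 - c') * (1 + η) ≤ 1 := by nlinarith
      rw [ho, ← mul_assoc]
      exact mul_le_of_le_one_left (norm_nonneg _) this)
  have om : ∀ y ∈ T, ‖y.1‖ ≤ 2 * s → ‖y.2.2‖ ≠ c * o := fun y hy h => by
    have n3 : ∀ v : X d, ‖v‖ ≤ 1 → ‖s • v‖ ≤ s := fun v hv => by
      rw [norm_smul, Real.norm_of_nonneg s0.le]
      exact mul_le_of_le_one_right s0.le hv
    have n4 : ∀ v : X d, ‖v‖ ≤ 1 → ‖y.1 + s • v‖ ≤ 3 * s := fun v hv => by
      linarith [norm_add_le y.1 (s • v), n3 v hv]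
    have g0 : ‖z₁.2.2‖ ≠ 0 := by linarith
    have R := hb _ _ _ (‖z₁.2.2‖⁻¹ • z₁.2.2)
      (hk.inv d P U u T y.1 (u z₁.1 + ⟪z₁.2.2, y.1 - z₁.1⟫) s o s0.ne' o0 V)
      (fun v hv => U' _ (by linarith [n4 v (mem_closedBall_zero_iff.1 hv)]))
      (by rw [norm_smul, norm_inv, norm_norm, inv_mul_cancel₀ g0])
      (fun v hv h' => by
        have := B _ hv (by
          rw [sub_zero] at h'
          exact (n4 _ h').trans (by linarith))
        simp only [af, norm_smul, Real.norm_of_nonneg o0.le] at this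
        exact (mul_le_iff_le_one_right o0).1 this)
      (fun v hv => by
        have f := F (y.1 + s • v) (by linarith [norm_sub_le (y.1 + s • v) z₁.1, n4 v hv])
        have i1 : |⟪z₁.2.2, v⟫| ≤ ‖z₁.2.2‖ :=
          (abs_real_inner_le_norm _ _).trans (mul_le_of_le_one_right (norm_nonneg _) hv)
        rw [add_sub_right_comm, inner_add_right, real_inner_smul_right] at f
        rw [real_inner_smul_left]
        have e : (u (y.1 + s • v) - (u z₁.1 + ⟪z₁.2.2, y.1 - z₁.1⟫)) / (s * o) -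
            ‖z₁.2.2‖⁻¹ * ⟪z₁.2.2, v⟫ =
            (u (y.1 + s • v) - u z₁.1 - (⟪z₁.2.2, y.1 - z₁.1⟫ + s * ⟪z₁.2.2, v⟫) -
              η * s * ⟪z₁.2.2, v⟫) / (s * o) := by
          rw [ho]
          field_simp
          ring
        rw [e, abs_div, abs_of_pos (mul_pos s0 o0), div_le_iff₀ (mul_pos s0 o0)]
        refine (abs_sub _ _).trans ?_
        have i2 : |η * s * ⟪z₁.2.2, v⟫| ≤ τ / 2 * s * o := by
          rw [abs_mul, abs_of_pos (mul_pos e0 s0)]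
          exact mul_le_mul (mul_le_mul_of_nonneg_right e2 s0.le) (i1.trans o1) (abs_nonneg _)
            (by positivity)
        linarith)
      (0, (y.2.1 - (u z₁.1 + ⟪z₁.2.2, y.1 - z₁.1⟫)) / (s * o), o⁻¹ • y.2.2) (by
        have : af y.1 (u z₁.1 + ⟪z₁.2.2, y.1 - z₁.1⟫) s o
            (0, (y.2.1 - (u z₁.1 + ⟪z₁.2.2, y.1 - z₁.1⟫)) / (s * o), o⁻¹ • y.2.2) = y := by
          simp only [af, smul_zero, add_zero, smul_inv_smul₀ o0.ne',
            mul_div_cancel₀ _ (mul_pos s0 o0).ne', add_sub_cancel]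
        rw [mem_preimage, this]
        exact hy) rfl
    intro e
    refine R ?_
    simp only [norm_smul, norm_inv, Real.norm_of_nonneg o0.le, e]
    field_simp
  by_contra hlt
  push Not at hlt
  obtain ⟨y, hy, h1, h2⟩ := V.ivt 0 (2 * s) (c * o)
    (fun v hv => U' v (by linarith [mem_closedBall_zero_iff.1 hv])) (by positivity)
    ⟨z, hz, by rw [sub_zero]; linarith, by nlinarith⟩
    ⟨z₁, b0, by rw [sub_zero]; linarith, by
      have : c * (1 + η) ≤ 1 := by nlinarith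
      rw [ho, ← mul_assoc]
      exact mul_le_of_le_one_left (norm_nonneg _) this⟩
  exact om y hy (by rwa [sub_zero] at h1) h2

end Pool.Agent.MP_815c6c_an.W
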