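import Mathlib.Analysis.Calculus.DerivativeTest
import Mathlib.Analysis.InnerProductSpace.Dual
import Pool.Agent.MP_815c6c_an.W.Defs

/-! Row ONE: quadratic functions that touch from above. -/

set_option autoImplicit false

noncomputable section

namespace Pool.Agent.MP_815c6c_an.W

open Set Metric Filter Topology
open scoped RealInnerProductSpace

namespace OneA

theorem sec {f f' : ℝ → ℝ} {c : ℝ} (h1 : ∀ᶠ s in 𝓝 (0 : ℝ), HasDerivAt f (f' s) s)
    (h2 : HasDerivAt f' c 0) (hm : IsLocalMax f 0) : c ≤ 0 := by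
  by_contra hc
  have e1 : deriv f =ᶠ[𝓝 0] f' := h1.mono fun s hs => hs.deriv
  have e2 : deriv (deriv f) 0 = c := by rw [e1.deriv_eq, h2.deriv]
  have hmin : IsLocalMin f 0 := isLocalMin_of_deriv_deriv_pos (by rw [e2]; exact not_le.1 hc)
    hm.deriv_eq_zero h1.self_of_nhds.continuousAt
  have e3 : f =ᶠ[𝓝 0] fun _ => f 0 := by
    filter_upwards [hm, hmin] with s a b using le_antisymm a b
  have e4 : deriv (deriv f) 0 = 0 := by
    rw [e3.deriv.deriv_eq]; simp
  exact hc (by rw [← e2, e4])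

variable {d : ℕ}

theorem ta_ge {P c : ℝ} (hP : 0 ≤ P) {ν : X d} (hν : ‖ν‖ = 1) {f g : X d → ℝ}
    (h : ∀ v, f v ≤ g v + c * ‖v‖ ^ 2) : ta P ν f - c * (d + P) ≤ ta P ν g := by
  have h1 : ∑ i : Fin d, f (ei i) ≤ ∑ i : Fin d, (g (ei i) + c) :=
    Finset.sum_le_sum fun i _ => by simpa using h (ei i)
  have h2 := h ν
  rw [hν] at h2
  rw [Finset.sum_add_distrib] at h1
  simp only [Finset.sum_const, Finset.card_univ, Fintype.card_fin, nsmul_eq_mul] at h1
  unfold ta
  nlinarith [mul_le_mul_of_nonneg_left h2 hP]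

theorem nu_norm {ξ : X d} (h : ξ ≠ 0) : ‖nu ξ‖ = 1 := by
  unfold nu
  rw [norm_smul, norm_inv, norm_norm, inv_mul_cancel₀ (norm_ne_zero_iff.2 h)]

theorem touch {P : ℝ} (hP : 0 ≤ P) {U : Set (X d)} {u : X d → ℝ} (hu : Sm P U u) {x : X d}
    (hx : x ∈ U) (B : X d →L[ℝ] X d →L[ℝ] ℝ) (w : X d) (δ : ℝ)
    (h : ∀ᶠ k in 𝓝 (0 : X d), u (x + k) ≤ u x + ⟪w, k⟫ + B k k / 2 + δ * ‖k‖ ^ 2) :
    gradient u x = w ∧
      (gradient u x ≠ 0 → -(2 * δ * (d + P)) ≤ ta P (nu (gradient u x)) fun v => B v v) := by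
  have key : ∀ v : X d, ⟪gradient u x, v⟫ = ⟪w, v⟫ ∧ (gradient u x ≠ 0 →
      ⟪fderiv ℝ (gradient u) x v, v⟫ ≤ B v v + 2 * δ * ‖v‖ ^ 2) := by
    intro v
    have hl : ∀ s : ℝ, HasDerivAt (fun s : ℝ => x + s • v) v s := fun s => by
      simpa using ((hasDerivAt_id s).smul_const v).const_add x
    have ht : Tendsto (fun s : ℝ => s • v) (𝓝 0) (𝓝 0) := by
      have : Continuous fun s : ℝ => s • v := by fun_prop
      simpa using this.tendsto 0
    have hU : ∀ᶠ s : ℝ in 𝓝 0, x + s • v ∈ U :=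
      (hl 0).continuousAt.preimage_mem_nhds (by simpa using hu.op.mem_nhds hx)
    set c := B v v / 2 + δ * ‖v‖ ^ 2 with hc
    have h1 : ∀ᶠ s : ℝ in 𝓝 0, HasDerivAt (fun s : ℝ => u (x + s • v) - s * ⟪w, v⟫ - s ^ 2 * c)
        (⟪gradient u (x + s • v), v⟫ - ⟪w, v⟫ - 2 * s * c) s := by
      filter_upwards [hU] with s hs
      have a1 : DifferentiableAt ℝ u (x + s • v) :=
        (hu.c1.contDiffAt (hu.op.mem_nhds hs)).differentiableAt one_ne_zero
      have a2 := a1.hasGradientAt.hasFDerivAt.comp_hasDerivAt s (hl s)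
      rw [InnerProductSpace.toDual_apply_apply] at a2
      have a3 := (a2.sub ((hasDerivAt_id s).mul_const ⟪w, v⟫)).sub
        ((hasDerivAt_pow 2 s).mul_const c)
      exact a3.congr_deriv (by simp)
    have hm : IsLocalMax (fun s : ℝ => u (x + s • v) - s * ⟪w, v⟫ - s ^ 2 * c) 0 := by
      filter_upwards [ht.eventually h] with s hs
      simp only [map_smul, smul_apply, smul_eq_mul, inner_smul_right,
        norm_smul, mul_pow, Real.norm_eq_abs, sq_abs] at hs
      simp only [zero_smul, add_zero, hc]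
      nlinarith
    refine ⟨?_, fun hg => ?_⟩
    · have := hm.hasDerivAt_eq_zero h1.self_of_nhds
      simp only [zero_smul, add_zero] at this
      linarith
    · have b1 : DifferentiableAt ℝ (gradient u) x := by
        have b0 : ContDiffAt ℝ 1 (fderiv ℝ u) x :=
          (hu.c3 x hx hg).1.fderiv_right (by norm_num)
        exact (InnerProductSpace.toDual ℝ (X d)).symm.toContinuousLinearEquiv.differentiableAt.comp
          x (b0.differentiableAt one_ne_zero)
      have b2 : HasDerivAt (fun s : ℝ => gradient u (x + s • v)) (fderiv ℝ (gradient u) x v) 0 :=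
        HasFDerivAt.comp_hasDerivAt_of_eq 0 b1.hasFDerivAt (hl 0) (by simp)
      have b3 : HasDerivAt (fun s : ℝ => ⟪gradient u (x + s • v), v⟫ - ⟪w, v⟫ - 2 * s * c)
          (⟪fderiv ℝ (gradient u) x v, v⟫ - 2 * c) 0 := by
        have := ((b2.inner ℝ (hasDerivAt_const (0 : ℝ) v)).sub_const ⟪w, v⟫).sub
          (((hasDerivAt_id (0 : ℝ)).const_mul 2).mul_const c)
        exact this.congr_deriv (by simp)
      have := sec h1 b3 hm
      rw [hc] at this
      linarith
  refine ⟨ext_inner_right ℝ fun v => (key v).1, fun hg => ?_⟩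
  have := ta_ge hP (nu_norm hg) fun v => (key v).2 hg
  rw [(hu.c3 x hx hg).2.2] at this
  linarith

theorem flat {P : ℝ} (hd : 0 < d) (hP : 0 ≤ P) {U : Set (X d)} {u : X d → ℝ} (hu : Sm P U u)
    {x : X d} (hx : x ∈ U) (B : X d →L[ℝ] X d →L[ℝ] ℝ) (hB : ∀ v w, B v w = B w v) {δ : ℝ}
    (hδ : 0 < δ) (h : ∀ᶠ k in 𝓝 (0 : X d), u (x + k) ≤ u x + B k k / 2 + δ * ‖k‖ ^ 2) :
    ∃ ν : X d, ‖ν‖ = 1 ∧ -(4 * δ * (d + P)) ≤ ta P ν fun v => B v v := by
  have hU : ∀ᶠ k in 𝓝 (0 : X d), x + k ∈ U :=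
    (continuous_const.add continuous_id).continuousAt.preimage_mem_nhds
      (by simpa using hu.op.mem_nhds hx)
  obtain ⟨ρ, hρ, hb⟩ := Metric.nhds_basis_closedBall.eventually_iff.1 (h.and hU)
  set T : X d →L[ℝ] X d := InnerProductSpace.continuousLinearMapOfBilin B with hT
  have hTB : ∀ v w, ⟪T v, w⟫ = B v w := InnerProductSpace.continuousLinearMapOfBilin_apply B
  set S : X d →ₗ[ℝ] X d := (T : X d →ₗ[ℝ] X d) + (4 * δ) • LinearMap.id with hS
  have hSB : ∀ v w, ⟪S v, w⟫ = B v w + 4 * δ * ⟪v, w⟫ := fun v w => by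
    simp [hS, inner_add_left, inner_smul_left, hTB]
  have main : ∀ a : X d, ‖a‖ < δ * ρ → ∃ k : X d, x + k ∈ U ∧ 0 ≤ ⟪a, k⟫ ∧
      gradient u (x + k) = S k - a ∧ (gradient u (x + k) ≠ 0 →
        -(2 * (2 * δ) * (d + P)) ≤ ta P (nu (gradient u (x + k))) fun v => B v v) := by
    intro a ha
    have hc : ContinuousOn (fun k : X d => u (x + k) - B k k / 2 - 2 * δ * ‖k‖ ^ 2 + ⟪a, k⟫)
        (closedBall 0 ρ) := by
      refine (((hu.c1.continuousOn.comp (continuous_const.add continuous_id).continuousOn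
        fun k hk => (hb hk).2).sub ?_).sub ?_).add ?_ <;> fun_prop
    obtain ⟨k, hk, hmax⟩ := (isCompact_closedBall (0 : X d) ρ).exists_isMaxOn
      ⟨0, mem_closedBall_self hρ.le⟩ hc
    have h0 := hmax (mem_closedBall_self hρ.le)
    simp only [mem_ofPred_eq, add_zero, map_zero, norm_zero, inner_zero_right] at h0
    have h1 := (hb hk).1
    have h2 : δ * ‖k‖ ^ 2 ≤ ⟪a, k⟫ := by linarith
    have h3 : ‖k‖ < ρ := by
      by_contra hc
      have h4 := real_inner_le_norm a k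
      have h5 : δ * ρ ≤ δ * ‖k‖ := by gcongr; exact not_lt.1 hc
      have h6 : 0 < ‖k‖ := hρ.trans_le (not_lt.1 hc)
      nlinarith
    have h7 : ∀ᶠ j in 𝓝 (0 : X d), k + j ∈ closedBall (0 : X d) ρ :=
      (continuous_const.add continuous_id).continuousAt.preimage_mem_nhds
        (by simpa using closedBall_mem_nhds_of_mem (mem_ball_zero_iff.2 h3))
    have h8 := touch hP hu (hb hk).2 B (S k - a) (2 * δ) (by
      filter_upwards [h7] with j hj
      have h9 := hmax hj
      simp only [mem_ofPred_eq, map_add, add_apply, inner_add_right,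
        norm_add_sq_real] at h9
      rw [inner_sub_left, hSB, add_assoc x]
      linarith [hB j k])
    exact ⟨k, (hb hk).2, le_trans (by positivity) h2, h8⟩
  by_cases hc : ∃ y : X d, gradient u y ≠ 0 ∧
      -(2 * (2 * δ) * (d + P)) ≤ ta P (nu (gradient u y)) fun v => B v v
  · obtain ⟨y, h1, h2⟩ := hc
    exact ⟨_, nu_norm h1, by linarith⟩
  have sol : ∀ a : X d, ∃ c : ℝ, 0 < c ∧ ∃ k : X d, S k = c • a ∧ 0 ≤ ⟪c • a, k⟫ := by
    intro a
    have hc0 : 0 < δ * ρ / (‖a‖ + 1) := by positivity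
    obtain ⟨k, -, k2, k3, k4⟩ := main ((δ * ρ / (‖a‖ + 1)) • a) (by
      rw [norm_smul, Real.norm_of_nonneg hc0.le, div_mul_eq_mul_div, div_lt_iff₀ (by positivity)]
      nlinarith [mul_pos hδ hρ])
    refine ⟨_, hc0, k, ?_, k2⟩
    by_contra hne
    have : gradient u (x + k) ≠ 0 := by rw [k3]; exact sub_ne_zero.2 hne
    exact hc ⟨_, this, k4 this⟩
  have hinj : Function.Injective S := LinearMap.injective_iff_surjective.2 fun a => by
    obtain ⟨c, c0, k, k1, -⟩ := sol a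
    exact ⟨c⁻¹ • k, by rw [map_smul, k1, smul_smul, inv_mul_cancel₀ c0.ne', one_smul]⟩
  have hpos : ∀ v : X d, (0 : ℝ) ≤ B v v + 4 * δ * ‖v‖ ^ 2 := by
    intro v
    obtain ⟨c, c0, k, k1, k2⟩ := sol (S v)
    rw [← map_smul] at k1
    rw [hinj k1, inner_smul_left, inner_smul_right, hSB, real_inner_self_eq_norm_sq] at k2
    simp only [conj_trivial] at k2
    exact nonneg_of_mul_nonneg_right (nonneg_of_mul_nonneg_right k2 c0) c0
  refine ⟨ei ⟨0, hd⟩, by simp, ?_⟩
  have := ta_ge hP (ν := ei ⟨0, hd⟩) (by simp) (f := fun _ => 0) hpos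
  simpa [ta] using this

end OneA

theorem one : OneS := by
  intro d P U u x B hd hP hu hx hB h
  have hdP : (0 : ℝ) < d + P := by positivity
  by_cases hg : gradient u x = 0
  · have hc : Continuous fun ν : X d => ta P ν fun v => B v v := by
      unfold ta; fun_prop
    obtain ⟨ν, hν, hmax⟩ := (isCompact_sphere (0 : X d) 1).exists_isMaxOn
      ⟨ei ⟨0, hd⟩, by simp⟩ hc.continuousOn
    refine ⟨ν, 0, by simpa using hν, le_rfl, by simp [hg], le_of_forall_pos_le_add fun ε hε => ?_⟩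
    obtain ⟨ν', n1, n2⟩ := OneA.flat hd hP hu hx B hB (δ := ε / (4 * (d + P))) (by positivity)
      (by simpa [hg] using h (ε / (4 * (d + P))) (by positivity))
    have e : 4 * (ε / (4 * (d + P))) * (d + P) = ε := by field_simp
    have := hmax (show ν' ∈ sphere (0 : X d) 1 by simpa using n1)
    simp only [mem_ofPred_eq] at this
    linarith
  · refine ⟨nu (gradient u x), ‖gradient u x‖, OneA.nu_norm hg, norm_nonneg _, ?_,
      le_of_forall_pos_le_add fun ε hε => ?_⟩
    · unfold nu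
      rw [smul_smul, mul_inv_cancel₀ (norm_ne_zero_iff.2 hg), one_smul]
    · have := (OneA.touch hP hu hx B _ _ (h (ε / (2 * (d + P))) (by positivity))).2 hg
      have e : 2 * (ε / (2 * (d + P))) * (d + P) = ε := by field_simp
      linarith

end Pool.Agent.MP_815c6c_an.W
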