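import Pool.Agent.MP_815c6c_an.W.Spec

/-! Scalar p-harmonic functions: powers of the gradient above the inverse Hölder exponent. -/

set_option autoImplicit false

namespace Pool.Agent.MP_815c6c_an.W

open Set Metric MeasureTheory Filter Topology
open scoped ENNReal RealInnerProductSpace

namespace OutA

open S

/-- the gradient drops by a factor, or the oscillation is small -/
def NsN (d : ℕ) (p q : ℝ) : Prop := ∃ ν Λ : ℝ, 0 < ν ∧ 1 < Λ ∧ Λ < ν ^ (q / 2) ∧ ∀ δ : ℝ, 0 < δ →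
  ∃ t : ℝ, 0 < t ∧ t * Λ ≤ 1 ∧ ∀ (u : N.X d → ℝ) (x : N.X d) (R M : ℝ), 0 < R → 0 < M →
    Cs p (ball x R) u → (∀ y ∈ ball x R, ‖gradient u y‖ ≤ M) →
    (∀ y ∈ ball x (R / Λ), ‖gradient u y‖ ≤ M / ν) ∨
      osc (fun y => Vp q (gradient u y)) x (t * R) <
        δ * ‖av (fun y => Vp q (gradient u y)) x (t * R)‖

theorem expo {Λ B : ℝ} (h1 : 1 < Λ) (h2 : Λ < B) : ∃ ε : ℝ, 0 < ε ∧ Λ ^ (1 + ε) = B := by
  have l0 : 0 < Real.log Λ := Real.log_pos h1
  have l1 : Real.log Λ < Real.log B := Real.log_lt_log (by linarith) h2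
  refine ⟨Real.log B / Real.log Λ - 1, ?_, ?_⟩
  · rw [sub_pos, one_lt_div l0]
    exact l1
  · rw [add_sub_cancel, Real.rpow_def_of_pos (by linarith), mul_div_cancel₀ _ l0.ne',
      Real.exp_log (by linarith)]

theorem pw_half {ν Λ b s B : ℝ} (hν : 0 < ν) (hb : 0 < b) (h1 : 0 < Λ) (h : Λ ^ s = ν ^ b)
    (hB : 0 < B) (j : ℕ) : (B ^ b⁻¹ / ν ^ j) ^ b = B * ((Λ ^ j)⁻¹) ^ s := by
  rw [Real.div_rpow (by positivity) (by positivity), Real.rpow_inv_rpow hB.le hb.ne',
    Real.inv_rpow (by positivity), ← Real.rpow_natCast, ← Real.rpow_natCast,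
    ← Real.rpow_mul hν.le, ← Real.rpow_mul h1.le, mul_comm (j : ℝ), mul_comm (j : ℝ),
    Real.rpow_mul hν.le, Real.rpow_mul h1.le, h, div_eq_mul_inv]

theorem consts {α C b : ℝ} (a0 : 0 < α) (a1 : α < 1) (c0 : 0 ≤ C) (h : 1 < α * b) :
    ∃ ν Λ : ℝ, 0 < ν ∧ 4 ≤ Λ ∧ Λ < ν ^ b ∧ 2 * ν * C ≤ Λ ^ α := by
  have e0 : 0 < α * b - 1 := by linarith
  obtain ⟨ν, n1, n2⟩ : ∃ ν : ℝ, 1 ≤ ν ∧ ν ^ (α * b - 1) = 2 * C + 5 :=
    ⟨(2 * C + 5) ^ (α * b - 1)⁻¹, Real.one_le_rpow (by linarith) (by positivity),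
      Real.rpow_inv_rpow (by linarith) e0.ne'⟩
  have n0 : 0 < ν := by linarith
  have w4 : 4 ≤ ν * (2 * C + 4) := by nlinarith
  have e1 : ((ν * (2 * C + 4)) ^ α⁻¹) ^ α = ν * (2 * C + 4) :=
    Real.rpow_inv_rpow (by linarith) a0.ne'
  refine ⟨ν, (ν * (2 * C + 4)) ^ α⁻¹, n0, ?_, ?_, ?_⟩
  · exact w4.trans (Real.self_le_rpow_of_one_le (by linarith) ((one_le_inv₀ a0).2 a1.le))
  · rw [← Real.rpow_lt_rpow_iff (by positivity) (by positivity) a0, e1, ← Real.rpow_mul n0.le,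
      show b * α = α * b - 1 + 1 by ring, Real.rpow_add_one n0.ne', n2]
    linarith
  · rw [e1]
    linarith

theorem deg (k : Kit) {d : ℕ} {p q : ℝ} (hq : 2 < q) : SupS d p q → NsN d p q → DegS d p q := by
  intro ⟨Cs, c0, hs⟩ ⟨ν, Λ, n0, l1, l2, hn⟩
  have O := k.osc d (N.X d)
  have A := k.alg (N.X d) q hq
  have b0 : 0 < q / 2 := by linarith
  have l0 : 0 < Λ := by linarith
  obtain ⟨ε, e0, he⟩ := expo l1 l2
  refine ⟨ε, e0, fun δ d0 => ?_⟩
  obtain ⟨t, t0, t1, hn⟩ := hn δ d0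
  have t2 : t ≤ 1 := by nlinarith
  have K0 : 0 < Cs * (1 + 1 / δ) + 1 := by positivity
  generalize hK : Cs * (1 + 1 / δ) + 1 = K at K0
  refine ⟨2 * (8 / t) ^ (1 + ε) * ((8 / t) ^ d + K), by positivity,
    fun F x r ρ p0 p1 hF m h => ?_⟩
  have r0 : 0 < r := by linarith
  have w0 := O.nn F x r
  have sub := (O.sub F x r x ρ p0 (ball_subset_ball p1) m).2
  rcases w0.eq_or_lt with w | w
  · rw [← w] at sub ⊢
    simpa using sub
  have hS := hs F x r r0 hF m
  obtain ⟨u, hu, hV⟩ := hF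
  generalize hw : osc F x r = ω at *
  have B0 : 0 < K * ω := by positivity
  have a0 : ‖av F x r‖ ≤ ω / δ := by
    rw [le_div_iff₀ d0, mul_comm, ← hw]
    exact h r ⟨p1, le_rfl⟩
  have sb : ∀ j : ℕ, r / 8 / Λ ^ j ≤ r := fun j =>
    (div_le_self (by positivity) (one_le_pow₀ l1.le)).trans (by linarith)
  have key : ∀ j : ℕ, (∀ i < j, ρ ≤ t * (r / 8 / Λ ^ i)) →
      ∀ y ∈ ball x (r / 8 / Λ ^ j), ‖gradient u y‖ ≤ (K * ω) ^ (q / 2)⁻¹ / ν ^ j := by
    intro j
    induction j with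
    | zero =>
      intro _ y hy
      rw [pow_zero, div_one] at *
      rw [Real.le_rpow_inv_iff_of_pos (norm_nonneg _) B0.le b0, ← (A.nV _).1,
        ← hV y (ball_subset_ball (by linarith) hy)]
      refine (hS y hy).trans ?_
      have : Cs * (ω + ‖av F x r‖) ≤ Cs * (ω + ω / δ) := by gcongr
      have e : K * ω = Cs * (ω + ω / δ) + ω := by rw [← hK]; ring
      linarith
    | succ j ih =>
      intro hj
      have R0 : 0 < r / 8 / Λ ^ j := by positivity
      have tr : t * (r / 8 / Λ ^ j) ≤ r := by nlinarith [sb j]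
      rcases hn u x _ _ R0 (by positivity) (hu.mono (ball_subset_ball (sb j)))
        (ih fun i hi => hj i (by omega)) with a | a
      · intro y hy
        rw [pow_succ, ← div_div] at hy ⊢
        exact a y hy
      · have c := O.congr F (fun y => Vp q (gradient u y)) x (t * (r / 8 / Λ ^ j))
          ((ae_restrict_mem measurableSet_ball).mono fun y hy => hV y (ball_subset_ball tr hy))
        rw [← c.1, ← c.2] at a
        exact absurd (h _ ⟨hj j (by omega), tr⟩) (not_le.2 a)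
  have ex : ∃ j : ℕ, t * (r / 8 / Λ ^ j) < ρ := by
    obtain ⟨j, hj⟩ := pow_unbounded_of_one_lt (t * (r / 8) / ρ) l1
    refine ⟨j, ?_⟩
    rw [div_lt_iff₀ p0] at hj
    rw [← mul_div_assoc, div_lt_iff₀ (by positivity)]
    linarith
  classical
  have hj := Nat.find_spec ex
  have hi : ∀ i < Nat.find ex, ρ ≤ t * (r / 8 / Λ ^ i) := fun i hi => not_lt.1 (Nat.find_min ex hi)
  generalize Nat.find ex = j at hj hi
  have s1 : ((Λ ^ j)⁻¹) ^ (1 + ε) ≤ (8 / t) ^ (1 + ε) * (ρ / r) ^ (1 + ε) := by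
    rw [← Real.mul_rpow (by positivity) (by positivity)]
    refine Real.rpow_le_rpow (by positivity) ?_ (by linarith)
    have e : (Λ ^ j)⁻¹ = 8 / t * (t * (r / 8 / Λ ^ j) / r) := by field_simp
    rw [e]
    gcongr
  have P0 : 0 < (8 / t) ^ (1 + ε) * (ρ / r) ^ (1 + ε) := by positivity
  have e : 2 * (8 / t) ^ (1 + ε) * ((8 / t) ^ d + K) * (ρ / r) ^ (1 + ε) * ω =
      2 * (8 / t) ^ d * ω * ((8 / t) ^ (1 + ε) * (ρ / r) ^ (1 + ε)) +
      2 * (K * ω * ((8 / t) ^ (1 + ε) * (ρ / r) ^ (1 + ε))) := by ring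
  rw [e]
  generalize (8 / t) ^ (1 + ε) * (ρ / r) ^ (1 + ε) = P at s1 P0
  cases j with
  | zero =>
    rw [pow_zero, inv_one, Real.one_rpow] at s1
    rw [pow_zero, div_one] at hj
    have a1 : r / ρ ≤ 8 / t := by
      rw [div_le_div_iff₀ p0 t0]
      linarith
    have a2 : 2 * (r / ρ) ^ d * ω ≤ 2 * (8 / t) ^ d * ω := by gcongr
    have a3 : 2 * (8 / t) ^ d * ω ≤ 2 * (8 / t) ^ d * ω * P :=
      le_mul_of_one_le_right (by positivity) s1
    have a4 : 0 ≤ 2 * (K * ω * P) := by positivity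
    linarith
  | succ j =>
    have a1 : ρ ≤ r / 8 / Λ ^ (j + 1) := by
      refine (hi j (by omega)).trans ?_
      have e : t * (r / 8 / Λ ^ j) = t * Λ * (r / 8 / Λ ^ (j + 1)) := by
        rw [pow_succ]
        field_simp
      rw [e]
      exact mul_le_of_le_one_left (by positivity) t1
    have a2 := (O.sup F x ρ 0 (K * ω * P) p0 (memLp_mono m (ball_subset_ball p1)).1 fun z hz => by
      rw [sub_zero, hV z (ball_subset_ball p1 hz), (A.nV _).1]
      refine (Real.rpow_le_rpow (norm_nonneg _) (key _ hi z (ball_subset_ball a1 hz))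
        b0.le).trans ?_
      rw [pw_half n0 b0 l0 he B0]
      gcongr).2.2
    have a3 : 0 ≤ 2 * (8 / t) ^ d * ω * P := by positivity
    linarith

theorem nsc (k : Kit) {d : ℕ} {p α C b : ℝ} (rg : Reg d p α C) (hab : 1 < α * b) :
    NsN d p (2 * b) := by
  obtain ⟨ν, Λ', n0, l4, l2, l3⟩ := consts rg.a0 rg.a1 rg.c0 hab
  have hq : 2 < 2 * b := by nlinarith [rg.a0, rg.a1]
  rw [show b = 2 * b / 2 by ring] at l2
  generalize 2 * b = q at l2 hq
  have l0 : 0 < Λ' := by linarith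
  obtain ⟨c, hc, hc'⟩ : ∃ c : ℝ, 0 < c ∧ c * ν = 1 := ⟨ν⁻¹, inv_pos.2 n0, inv_mul_cancel₀ n0.ne'⟩
  have al := k.alg (N.X d) q hq
  obtain ⟨C1, c1, lip⟩ := al.lip
  refine ⟨ν, Λ', n0, by linarith, l2, fun δ hδ => ?_⟩
  obtain ⟨t, t0, t1, t2⟩ := LNscA.small (α := α) (a := δ * (c / 2) ^ (q / 2))
    (b := (2 + δ) * (C1 * (2 ^ (q / 2 - 1) * C))) (s := min (1 / 4) (1 / Λ')) rg.a0
    (by positivity) (by positivity)
  rw [le_min_iff, le_div_iff₀ l0] at t1
  refine ⟨t, t0, t1.2, fun u x R M hR hM hu hb => or_iff_not_imp_left.2 fun hn => ?_⟩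
  push Not at hn
  obtain ⟨z, hz, hz'⟩ := hn
  have g0 : c * (M / 2) ≤ ‖gradient u x‖ := by
    have s4 : ball x (R / Λ') ⊆ ball x (R / 4) :=
      ball_subset_ball (div_le_div_of_nonneg_left hR.le (by norm_num) l4)
    have b1 := rg.hol u x R M hR hu hb z (s4 hz) x (mem_ball_self (by positivity))
    have b2 : ‖z - x‖ ^ α ≤ R ^ α / Λ' ^ α := by
      rw [← Real.div_rpow hR.le l0.le]
      exact Real.rpow_le_rpow (norm_nonneg _) (mem_ball_iff_norm.1 hz).le rg.a0.le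
    have c0 := rg.c0
    have b3 : ‖gradient u z - gradient u x‖ ≤ c * (M / 2) := by
      refine b1.trans ((mul_le_mul_of_nonneg_left b2 (by positivity)).trans ?_)
      have h1 : 0 < R ^ α := by positivity
      have h2 : 0 < Λ' ^ α := by positivity
      rw [show C * M / R ^ α * (R ^ α / Λ' ^ α) = C * M / Λ' ^ α by field_simp, div_le_iff₀ h2]
      have h3 := mul_le_mul_of_nonneg_left l3 (by positivity : 0 ≤ c * (M / 2))
      calc C * M = c * (M / 2) * (2 * ν * C) := by linear_combination (-(C * M)) * hc'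
        _ ≤ _ := h3
    have b4 := norm_sub_norm_le (gradient u z) (gradient u x)
    have b5 : M / ν = c * M := by rw [div_eq_iff n0.ne']; linear_combination (-M) * hc'
    linarith
  have s4 : ball x (t * R) ⊆ ball x (R / 4) := ball_subset_ball (by nlinarith)
  have s1 : ball x (t * R) ⊆ ball x R := ball_subset_ball (by nlinarith)
  have tR : 0 < t * R := mul_pos t0 hR
  have m0 : 0 < M ^ (q / 2) := by positivity
  have c0 := rg.c0
  obtain ⟨-, a1, a2⟩ := (k.osc d (N.X d)).sup (fun y => Vp q (gradient u y)) x (t * R)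
    (Vp q (gradient u x)) (C1 * (2 ^ (q / 2 - 1) * C) * t ^ α * M ^ (q / 2)) tR
    ((al.cV.1.continuous.comp_continuousOn ((cont_grad isOpen_ball hu.c1).mono s1)).aestronglyMeasurable
      measurableSet_ball) fun y hy => by
      have b1 := rg.hol u x R M hR hu hb y (s4 hy) x (s4 (mem_ball_self tR))
      have b2 : ‖y - x‖ ^ α ≤ t ^ α * R ^ α := by
        rw [← Real.mul_rpow t0.le hR.le]
        exact Real.rpow_le_rpow (norm_nonneg _) (mem_ball_iff_norm.1 hy).le rg.a0.le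
      have b3 : ‖gradient u y - gradient u x‖ ≤ C * M * t ^ α := by
        refine b1.trans ((mul_le_mul_of_nonneg_left b2 (by positivity)).trans_eq ?_)
        have : R ^ α ≠ 0 := by positivity
        field_simp
      have b4 : (‖gradient u y‖ + ‖gradient u x‖) ^ (q / 2 - 1) ≤
          2 ^ (q / 2 - 1) * M ^ (q / 2 - 1) := by
        rw [← Real.mul_rpow zero_le_two hM.le]
        exact Real.rpow_le_rpow (by positivity)
          (by linarith [hb y (s1 hy), hb x (mem_ball_self hR)]) (by linarith)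
      refine (lip _ _).trans ((mul_le_mul_of_nonneg_left
        (mul_le_mul b4 b3 (norm_nonneg _) (by positivity)) c1).trans_eq ?_)
      rw [Real.rpow_sub_one hM.ne']
      field_simp
  have b1 : (c / 2) ^ (q / 2) * M ^ (q / 2) ≤ ‖Vp q (gradient u x)‖ := by
    rw [(al.nV _).1, ← Real.mul_rpow (by positivity) hM.le]
    exact Real.rpow_le_rpow (by positivity) (by linarith) (by linarith)
  have b2 := norm_sub_norm_le (Vp q (gradient u x)) (av (fun y => Vp q (gradient u y)) x (t * R))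
  rw [norm_sub_rev] at b2
  have b3 := mul_lt_mul_of_pos_right t2 m0
  have b4 := mul_le_mul_of_nonneg_left (b2.trans a1) hδ.le
  have b5 := mul_le_mul_of_nonneg_left b1 hδ.le
  linarith

end OutA

theorem out : OutS := by
  intro d p α C b hp rg hab
  have hq : 2 < 2 * b := by nlinarith [rg.a0, rg.a1]
  have r : S.RegS d p := ⟨α, C, rg⟩
  have su := S.lsup sk d p _ hp hq r
  exact S.lfin sk N.glu (S.en S.sob) d p _ hp hq r (S.lcor sk d p _ hp hq su
    (S.lnd sk c2s d p _ hp hq r su) (OutA.deg sk hq su (OutA.nsc sk rg hab)))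

end Pool.Agent.MP_815c6c_an.W
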