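import Pool.Agent.MP_815c6c_an.W.Defs

/-! The penalty `φ(y) = c |y|^(2k)`. -/

set_option autoImplicit false

noncomputable section

namespace Pool.Agent.MP_815c6c_an.W

open Set Metric Filter Topology
open scoped RealInnerProductSpace

namespace PenA

variable {d : ℕ}

theorem hn (y : X d) : HasFDerivAt (fun x : X d => ‖x‖ ^ 2) ((2 : ℝ) • innerSL ℝ y) y := by
  have h := (hasStrictFDerivAt_norm_sq y).hasFDerivAt
  refine h.congr_fderiv ?_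
  ext v
  simp

theorem h1 (c : ℝ) (k : ℕ) (y : X d) : HasFDerivAt (fun x : X d => c * (‖x‖ ^ 2) ^ (k + 1))
    ((c * (2 * (k + 1)) * (‖y‖ ^ 2) ^ k) • innerSL ℝ y) y := by
  have h := ((hn y).pow (k + 1)).const_mul c
  refine h.congr_fderiv ?_
  ext v
  simp
  ring

theorem h2 (c : ℝ) (k : ℕ) (y v : X d) : d2 (fun x : X d => c * (‖x‖ ^ 2) ^ (k + 2)) y v =
    c * (2 * (k + 2)) * ((‖y‖ ^ 2) ^ (k + 1) * ‖v‖ ^ 2 +
      2 * (k + 1) * (‖y‖ ^ 2) ^ k * ⟪y, v⟫ ^ 2) := by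
  have e : fderiv ℝ (fun x : X d => c * (‖x‖ ^ 2) ^ (k + 2)) =
      fun z : X d => (c * (2 * ((k + 1 : ℕ) + 1)) * (‖z‖ ^ 2) ^ (k + 1)) • innerSL ℝ z := by
    funext z
    exact (h1 c (k + 1) z).fderiv
  have h := (h1 (c * (2 * ((k + 1 : ℕ) + 1))) k y).smul (innerSL ℝ : X d →L[ℝ] _).hasFDerivAt
  unfold d2
  rw [e]
  have h' := h.fderiv
  erw [h']
  have e1 : (innerSL ℝ : X d →L[ℝ] _) v v = ‖v‖ ^ 2 := real_inner_self_eq_norm_sq v
  have e2 : (innerSL ℝ : X d →L[ℝ] _) y v = ⟪y, v⟫ := rfl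
  simp only [add_apply, smul_apply,
    ContinuousLinearMap.smulRight_apply, smul_eq_mul]
  erw [e1, e2]
  push_cast
  ring

theorem hg (c : ℝ) (k : ℕ) (y : X d) : gradient (fun x : X d => c * (‖x‖ ^ 2) ^ (k + 1)) y =
    (c * (2 * (k + 1)) * (‖y‖ ^ 2) ^ k) • y := by
  apply HasGradientAt.gradient
  rw [hasGradientAt_iff_hasFDerivAt]
  refine (h1 c k y).congr_fderiv ?_
  ext v
  simp

end PenA

theorem pen : PenS := by
  intro d θ ε A h0 h1 hε hA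
  obtain ⟨k, hk⟩ := exists_nat_ge (1 / (1 - θ))
  have h1' : 0 < 1 - θ := by linarith
  have hk' : 1 ≤ k * (1 - θ) := by rwa [div_le_iff₀ h1'] at hk
  set n : ℝ := 2 * (k + 2) with hn
  have hk0 : (0 : ℝ) ≤ k := Nat.cast_nonneg k
  have hn0 : 0 < n := by rw [hn]; positivity
  have hAθ : 0 < A ^ θ := Real.rpow_pos_of_pos hA θ
  obtain ⟨R, hR1, hR2, hR3⟩ : ∃ R : ℝ, 1 ≤ R ∧ n * A / (ε * A ^ θ) ≤ R ∧ n ^ 2 * A / ε ≤ R :=
    ⟨max 1 (max (n * A / (ε * A ^ θ)) (n ^ 2 * A / ε)), le_max_left _ _,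
      (le_max_left _ _).trans (le_max_right _ _), (le_max_right _ _).trans (le_max_right _ _)⟩
  have hR : 0 < R := by linarith
  rw [div_le_iff₀ (by positivity)] at hR2 hR3
  set c : ℝ := A / (R ^ 2) ^ (k + 2) with hc
  have hc0 : 0 < c := by rw [hc]; positivity
  have hcA : c * (R ^ 2) ^ (k + 2) = A := by rw [hc]; field_simp
  refine ⟨fun x => c * (‖x‖ ^ 2) ^ (k + 2), R, hR1, ?_, by simp, fun y => by positivity, ?_, ?_⟩
  · exact contDiff_const.mul ((contDiff_norm_sq ℝ).pow _)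
  · intro y hy
    simp only [hy, hcA, le_refl]
  · intro y hy
    have hy2 : ‖y‖ ^ 2 ≤ R ^ 2 := by gcongr
    refine ⟨fun v => ?_, fun s hs _ => ?_⟩
    · rw [PenA.h2]
      have a1 : ⟪y, v⟫ ^ 2 ≤ ‖y‖ ^ 2 * ‖v‖ ^ 2 := by
        rw [← mul_pow, ← sq_abs]
        gcongr
        exact abs_real_inner_le_norm y v
      have a2 : (‖y‖ ^ 2) ^ (k + 1) ≤ (R ^ 2) ^ (k + 1) := by gcongr
      have a3 : (‖y‖ ^ 2) ^ (k + 1) * ‖v‖ ^ 2 + 2 * (k + 1) * (‖y‖ ^ 2) ^ k * ⟪y, v⟫ ^ 2 ≤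
          n * ((R ^ 2) ^ (k + 1) * ‖v‖ ^ 2) := by
        calc _ ≤ (‖y‖ ^ 2) ^ (k + 1) * ‖v‖ ^ 2 +
              2 * (k + 1) * (‖y‖ ^ 2) ^ k * (‖y‖ ^ 2 * ‖v‖ ^ 2) := by gcongr
          _ = (2 * k + 3) * ((‖y‖ ^ 2) ^ (k + 1) * ‖v‖ ^ 2) := by ring
          _ ≤ n * ((R ^ 2) ^ (k + 1) * ‖v‖ ^ 2) := by
            gcongr
            rw [hn]; linarith
      have a4 : n ^ 2 * (c * (R ^ 2) ^ (k + 1)) ≤ ε := by
        have b1 : n ^ 2 * (c * (R ^ 2) ^ (k + 1)) * R ^ 2 = n ^ 2 * A := by rw [← hcA]; ring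
        have b2 : R * ε ≤ ε * R ^ 2 := by nlinarith [mul_pos hε hR]
        have b3 : n ^ 2 * (c * (R ^ 2) ^ (k + 1)) * R ^ 2 ≤ ε * R ^ 2 := by linarith
        exact le_of_mul_le_mul_right b3 (by positivity)
      calc _ ≤ c * n * (n * ((R ^ 2) ^ (k + 1) * ‖v‖ ^ 2)) := by gcongr
        _ = n ^ 2 * (c * (R ^ 2) ^ (k + 1)) * ‖v‖ ^ 2 := by ring
        _ ≤ ε * ‖v‖ ^ 2 := by gcongr
    · have e := PenA.hg c (k + 1) y
      rw [e, norm_smul, Real.norm_of_nonneg (by positivity)]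
      set ρ : ℝ := ‖y‖ / R with hρ
      have hρ0 : 0 ≤ ρ := by rw [hρ]; positivity
      have hρ1 : ρ ≤ 1 := by rw [hρ, div_le_one hR]; exact hy
      have hyρ : ‖y‖ = ρ * R := by rw [hρ]; field_simp
      have b1 : A * ρ ^ (2 * (k + 2)) ≤ s := by
        have : c * (‖y‖ ^ 2) ^ (k + 2) = A * ρ ^ (2 * (k + 2)) := by
          rw [← hcA, hyρ]; ring
        rw [← this]; exact hs
      have b2 : ρ ^ (2 * k + 3) ≤ (ρ ^ (2 * (k + 2))) ^ θ := by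
        rw [← Real.rpow_natCast, ← Real.rpow_natCast, ← Real.rpow_mul hρ0]
        apply Real.rpow_le_rpow_of_exponent_ge' hρ0 hρ1 (by positivity)
        push_cast
        nlinarith
      have b3 : A ^ θ * ρ ^ (2 * k + 3) ≤ s ^ θ := by
        calc _ ≤ A ^ θ * (ρ ^ (2 * (k + 2))) ^ θ := by gcongr
          _ = (A * ρ ^ (2 * (k + 2))) ^ θ := (Real.mul_rpow hA.le (by positivity)).symm
          _ ≤ s ^ θ := by gcongr
      have b4 : c * (2 * ((k + 1 : ℕ) + 1)) * (‖y‖ ^ 2) ^ (k + 1) * ‖y‖ * R =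
          n * A * ρ ^ (2 * k + 3) := by
        rw [← hcA, hyρ, hn]; push_cast; ring
      have b5 : n * A * ρ ^ (2 * k + 3) ≤ ε * s ^ θ * R := by
        calc _ ≤ R * (ε * A ^ θ) * ρ ^ (2 * k + 3) := by gcongr
          _ = ε * (A ^ θ * ρ ^ (2 * k + 3)) * R := by ring
          _ ≤ ε * s ^ θ * R := by gcongr
      exact le_of_mul_le_mul_right (b4.le.trans b5) hR

end Pool.Agent.MP_815c6c_an.W
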