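import Pool.Agent.MP_815c6c_an.W.Defs
import Mathlib.Analysis.Normed.Operator.Bilinear

/-! The reduction of the certificate to coordinates in dimension three. -/

set_option autoImplicit false

noncomputable section

namespace Pool.Agent.MP_815c6c_an.W

open Set Metric Filter Topology
open scoped RealInnerProductSpace

namespace RedA

abbrev Fr : Type := OrthonormalBasis (Fin 3) ℝ (X 3)

theorem fr0 (n : X 3) (hn : ‖n‖ = 1) : ∃ f : Fr, f 0 = n := by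
  have h : Orthonormal ℝ (({0} : Set (Fin 3)).domRestrict fun _ => n) := by
    refine ⟨fun _ => hn, ?_⟩
    rintro ⟨i, hi⟩ ⟨k, hk⟩ hne
    exact absurd (Subtype.ext (hi.trans hk.symm)) hne
  obtain ⟨f, hf⟩ := h.exists_orthonormalBasis_extension_of_card_eq (by simp)
  exact ⟨f, hf 0 rfl⟩

theorem fr1 (n m : X 3) (hn : ‖n‖ = 1) (hm : ‖m‖ = 1) (h0 : ⟪n, m⟫ = 0) :
    ∃ f : Fr, f 0 = n ∧ f 1 = m := by
  have h : Orthonormal ℝ (({0, 1} : Set (Fin 3)).domRestrict ![n, m, n]) := by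
    refine ⟨?_, ?_⟩
    · rintro ⟨i, rfl | rfl⟩
      · exact hn
      · exact hm
    · rintro ⟨i, rfl | rfl⟩ ⟨k, rfl | rfl⟩ hne
      · exact absurd rfl hne
      · exact h0
      · exact (real_inner_comm _ _).trans h0
      · exact absurd rfl hne
  obtain ⟨f, hf⟩ := h.exists_orthonormalBasis_extension_of_card_eq (by simp)
  exact ⟨f, hf 0 (Or.inl rfl), hf 1 (Or.inr rfl)⟩

theorem fr2 (n u : X 3) (hn : ‖n‖ = 1) :
    ∃ (f : Fr) (S : ℝ), f 0 = n ∧ 0 ≤ S ∧ u = ⟪n, u⟫ • n + S • f 1 := by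
  by_cases h : u - ⟪n, u⟫ • n = 0
  · obtain ⟨f, hf⟩ := fr0 n hn
    exact ⟨f, 0, hf, le_rfl, by rw [zero_smul, add_zero]; exact sub_eq_zero.1 h⟩
  · have hp : 0 < ‖u - ⟪n, u⟫ • n‖ := norm_pos_iff.2 h
    obtain ⟨f, f0, f1⟩ := fr1 n (‖u - ⟪n, u⟫ • n‖⁻¹ • (u - ⟪n, u⟫ • n)) hn
      (by rw [norm_smul, norm_inv, norm_norm, inv_mul_cancel₀ hp.ne'])
      (by rw [inner_smul_right, inner_sub_right, inner_smul_right, real_inner_self_eq_norm_sq, hn]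
          ring)
    refine ⟨f, _, f0, hp.le, ?_⟩
    rw [f1, smul_smul, mul_inv_cancel₀ hp.ne', one_smul]
    abel

theorem f02 (f : Fr) : ⟪f 0, f 2⟫ = 0 := f.orthonormal.2 (by decide)
theorem f12 (f : Fr) : ⟪f 1, f 2⟫ = 0 := f.orthonormal.2 (by decide)
theorem f01 (f : Fr) : ⟪f 0, f 1⟫ = 0 := f.orthonormal.2 (by decide)
theorem f20 (f : Fr) : ⟪f 2, f 0⟫ = 0 := f.orthonormal.2 (by decide)
theorem f21 (f : Fr) : ⟪f 2, f 1⟫ = 0 := f.orthonormal.2 (by decide)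
theorem f10 (f : Fr) : ⟪f 1, f 0⟫ = 0 := f.orthonormal.2 (by decide)
theorem fii (f : Fr) (i : Fin 3) : ⟪f i, f i⟫ = 1 := by
  rw [real_inner_self_eq_norm_sq, f.orthonormal.1 i]; norm_num

/-- the frame -/
theorem fr3 (n e ν : X 3) (hn : ‖n‖ = 1) :
    ∃ (f : Fr) (S : ℝ), f 0 = n ∧ 0 ≤ S ∧ e = ⟪n, e⟫ • n + S • f 1 ∧ (S = 0 → ⟪f 2, ν⟫ = 0) := by
  by_cases h : e = ⟪n, e⟫ • n
  · obtain ⟨f, S, f0, -, hu⟩ := fr2 n ν hn
    refine ⟨f, 0, f0, le_rfl, by rw [zero_smul, add_zero]; exact h, fun _ => ?_⟩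
    rw [hu, inner_add_right, inner_smul_right, inner_smul_right, f21]
    nth_rewrite 2 [← f0]
    rw [f20]; ring
  · obtain ⟨f, S, f0, S0, hu⟩ := fr2 n e hn
    refine ⟨f, S, f0, S0, hu, fun hS => absurd ?_ h⟩
    rwa [hS, zero_smul, add_zero] at hu

theorem inn (f : Fr) (x y : X 3) :
    ⟪x, y⟫ = ⟪f 0, x⟫ * ⟪f 0, y⟫ + ⟪f 1, x⟫ * ⟪f 1, y⟫ + ⟪f 2, x⟫ * ⟪f 2, y⟫ := by
  rw [← f.sum_inner_mul_inner x y, Fin.sum_univ_three, real_inner_comm (f 0) x,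
    real_inner_comm (f 1) x, real_inner_comm (f 2) x]

theorem nsq (f : Fr) (x : X 3) : ‖x‖ ^ 2 = ⟪f 0, x⟫ ^ 2 + ⟪f 1, x⟫ ^ 2 + ⟪f 2, x⟫ ^ 2 := by
  rw [← real_inner_self_eq_norm_sq, inn f x x]; ring

/-- traces in the frame -/
theorem trf (cp : CpS) (f : Fr) (B : X 3 →L[ℝ] X 3 →L[ℝ] ℝ) (P : ℝ) (ν : X 3) :
    ta P ν (fun v => B v v) = B (f 0) (f 0) + B (f 1) (f 1) + B (f 2) (f 2) + P * B ν ν := by
  have h := (cp 3 3 0 1 ν (fun _ => 1) f B le_rfl (fun _ => zero_le_one)).1 (fun v => by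
    rw [Fin.sum_univ_three, qa, nsq f v, real_inner_comm (f 0), real_inner_comm (f 1),
      real_inner_comm (f 2)]
    ring)
  rw [Fin.sum_univ_three] at h
  simp only [ta] at h ⊢
  linarith

/-- the jets in the frame -/
theorem jf (gj : GjS) {q g r S : ℝ} {F : ℝ × ℝ → ℝ} {j : J6} {e : X 3} (f : Fr) (g0 : 0 < g)
    (r0 : 0 < r) (he : ‖e‖ = 1) (hS : e = ⟪f 0, e⟫ • f 0 + S • f 1)
    (hj : Jt2 F (Real.log r / q - Real.log g, ⟪f 0, e⟫) j) (h k : X 3) :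
    fderiv ℝ (GF q F) (g • f 0, r • e) ((g / r) • h, k) =
      g * D1 q ⟪f 0, e⟫ S j ⟪f 0, h⟫ ⟪f 1, h⟫ ⟪f 0, k⟫ ⟪f 1, k⟫ ∧
    d2 (GF q F) (g • f 0, r • e) ((g / r) • h, k) =
      g / r * D2 q ⟪f 0, e⟫ S j ⟪f 0, h⟫ ⟪f 1, h⟫ ⟪f 2, h⟫ ⟪f 0, k⟫ ⟪f 1, k⟫ ⟪f 2, k⟫ := by
  obtain ⟨-, -, H⟩ := gj 3 q g r F j (f 0) e g0 r0 (f.orthonormal.1 0) he hj
  obtain ⟨h1, h2⟩ := H (r⁻¹ • h) (r⁻¹ • k)
  have e1 : (g • r⁻¹ • h, r • r⁻¹ • k) = ((g / r) • h, k) := by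
    rw [smul_smul, smul_smul, mul_inv_cancel₀ r0.ne', one_smul, div_eq_mul_inv]
  have ee : ∀ v : X 3, ⟪e, v⟫ = ⟪f 0, e⟫ * ⟪f 0, v⟫ + S * ⟪f 1, v⟫ := fun v => by
    nth_rewrite 1 [hS]
    rw [inner_add_left, real_inner_smul_left, real_inner_smul_left]
  rw [e1, ee (r⁻¹ • h), ee (r⁻¹ • k)] at h1 h2
  rw [nsq f, nsq f (r⁻¹ • k), inn f (r⁻¹ • h)] at h2
  simp only [inner_smul_right] at h1 h2
  rw [h1, h2]
  generalize ⟪f 0, e⟫ = c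
  generalize ⟪f 0, h⟫ = h₁
  generalize ⟪f 1, h⟫ = h₂
  generalize ⟪f 2, h⟫ = h₃
  generalize ⟪f 0, k⟫ = k₁
  generalize ⟪f 1, k⟫ = k₂
  generalize ⟪f 2, k⟫ = k₃
  have r1 : r ≠ 0 := r0.ne'
  constructor
  · simp only [D1, E1, div_eq_mul_inv]
    generalize q⁻¹ = u
    field_simp
  · simp only [D2, E2, div_eq_mul_inv]
    generalize q⁻¹ = u
    field_simp

theorem d10 (q c S : ℝ) (j : J6) : D1 q c S j 0 0 0 0 = 0 := by simp [D1, E1]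

/-- the normalised inequality gives the value of the game -/
theorem core (cp : CpS) (gj : GjS) {P q g r S μ : ℝ} {F : ℝ × ℝ → ℝ} {j : J6} {e : X 3} (f : Fr)
    (g0 : 0 < g) (r0 : 0 < r) (he : ‖e‖ = 1) (hS : e = ⟪f 0, e⟫ • f 0 + S • f 1)
    (hj : Jt2 F (Real.log r / q - Real.log g, ⟪f 0, e⟫) j) (P0 : 0 ≤ P)
    (hk : Key P q ⟪f 0, e⟫ S j μ) (H : En 3) (w ν : X 3) (t : ℝ) (hA : Ad P (g • f 0) H)
    (hw : ‖w‖ ≤ g * μ)
    (h1 : ∀ v, fderiv ℝ (GF q F) (g • f 0, r • e) (H v, -v) + ⟪g • f 0 + w, v⟫ = 0)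
    (hν : ‖ν‖ = 1) (t0 : 0 ≤ t)
    (h2 : ∀ v, fderiv ℝ (GF q F) (g • f 0, r • e) (0, v) = t * ⟪ν, v⟫)
    (h3 : S = 0 → ⟪f 2, ν⟫ = 0) :
    ∃ (s : ℝ) (m : ℕ) (l : Fin m → ℝ) (a b : Fin m → X 3), Cp P (g • f 0) ν s l a b ∧
      val P (GF q F) (g • f 0) (r • e) ν H s l a b ≤ -(g / r * μ) := by
  have J := jf gj f g0 r0 he hS hj
  have g1 : g ≠ 0 := g0.ne'
  have r1 : r ≠ 0 := r0.ne'
  have ng : ‖g • f 0‖ = g := by
    rw [norm_smul, f.orthonormal.1 0, mul_one, Real.norm_of_nonneg g0.le]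
  have nn : nu (g • f 0) = f 0 := by rw [nu, ng, smul_smul, inv_mul_cancel₀ g1, one_smul]
  obtain ⟨K, hK⟩ : ∃ K : En 3, ∀ v, H v = (g / r) • K v :=
    ⟨(r / g) • H, fun v => by
      rw [smul_apply, smul_smul, div_mul_div_cancel₀ r1, div_self g1, one_smul]⟩
  have gr : g / r ≠ 0 := div_ne_zero g1 r1
  have sy : ∀ v u, ⟪v, K u⟫ = ⟪u, K v⟫ := fun v u => by
    have := hA.1 v u
    rw [hK, hK, real_inner_smul_left, inner_smul_right, real_inner_comm] at this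
    exact (mul_left_cancel₀ gr this).symm
  have tr : (1 + P) * ⟪f 0, K (f 0)⟫ + ⟪f 1, K (f 1)⟫ + ⟪f 2, K (f 2)⟫ = 0 := by
    have a1 := trf cp f ((innerSL ℝ).comp H) P (f 0)
    have a2 := hA.2
    rw [nn] at a2
    simp only [ContinuousLinearMap.comp_apply, innerSL_apply_apply] at a1
    rw [a2] at a1
    simp only [hK, real_inner_smul_left] at a1
    apply mul_left_cancel₀ gr
    rw [real_inner_comm (K (f 0)), real_inner_comm (K (f 1)), real_inner_comm (K (f 2))]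
    linarith
  have A1 : ∀ v, D1 q ⟪f 0, e⟫ S j ⟪f 0, K v⟫ ⟪f 1, K v⟫ (-⟪f 0, v⟫) (-⟪f 1, v⟫) + ⟪f 0, v⟫ +
      g⁻¹ * ⟪v, w⟫ = 0 := fun v => by
    have := h1 v
    rw [hK, (J _ _).1, inner_neg_right, inner_neg_right, inner_add_left, real_inner_smul_left,
      real_inner_comm v w] at this
    apply mul_left_cancel₀ g1
    rw [mul_add, mul_add, ← mul_assoc, mul_inv_cancel₀ g1]
    linarith
  have z0 : ∀ v : X 3, ((0 : X 3), v) = ((g / r) • (0 : X 3), v) := fun v => by rw [smul_zero]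
  have A2 : ∀ v, D1 q ⟪f 0, e⟫ S j 0 0 ⟪f 0, v⟫ ⟪f 1, v⟫ = g⁻¹ * t * ⟪v, ν⟫ := fun v => by
    have := h2 v
    rw [z0, (J _ _).1, inner_zero_right, inner_zero_right, real_inner_comm v ν] at this
    apply mul_left_cancel₀ g1
    rw [this, ← mul_assoc, ← mul_assoc, mul_inv_cancel₀ g1, one_mul]
  have A3 : ∀ v, d2 (GF q F) (g • f 0, r • e) (0, v) =
      g / r * D2 q ⟪f 0, e⟫ S j 0 0 0 ⟪f 0, v⟫ ⟪f 1, v⟫ ⟪f 2, v⟫ := fun v => by
    rw [z0, (J _ _).2, inner_zero_right, inner_zero_right, inner_zero_right]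
  have b0 := A1 (f 0)
  have b1 := A1 (f 1)
  have b2 := A1 (f 2)
  have c0 := A2 (f 0)
  have c1 := A2 (f 1)
  have c2 := A2 (f 2)
  rw [fii, f10, neg_zero, sy (f 1) (f 0)] at b0
  rw [fii, f01, neg_zero, add_zero] at b1
  rw [f02, f12, neg_zero, add_zero] at b2
  rw [fii, f10] at c0
  rw [fii, f01] at c1
  rw [f02, f12, d10] at c2
  have gi : 0 ≤ g⁻¹ := inv_nonneg.2 g0.le
  obtain ⟨s, a₁, a₂, a₃, b₁, b₂, b₃, e₁, e₂, e₃, s0, hc, hv⟩ := hk ⟪f 0, K (f 0)⟫ ⟪f 0, K (f 1)⟫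
    ⟪f 0, K (f 2)⟫ ⟪f 1, K (f 1)⟫ ⟪f 1, K (f 2)⟫ ⟪f 2, K (f 2)⟫ (g⁻¹ * ⟪f 0, w⟫) (g⁻¹ * ⟪f 1, w⟫)
    (g⁻¹ * ⟪f 2, w⟫) ⟪f 0, ν⟫ ⟪f 1, ν⟫ ⟪f 2, ν⟫ (g⁻¹ * t) tr
    (by
      have a1 : g⁻¹ * ‖w‖ ≤ μ := by rw [inv_mul_le_iff₀ g0]; exact hw
      have a2 := pow_le_pow_left₀ (mul_nonneg gi (norm_nonneg w)) a1 2
      rw [mul_pow, nsq f w] at a2
      linarith)
    b0 b1 b2 (by rw [← nsq f ν, hν]; norm_num) (mul_nonneg gi t0) c0 c1 c2.symm h3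
  have co : ∀ x y z : ℝ, ⟪f 0, x • f 0 + y • f 1 + z • f 2⟫ = x ∧
      ⟪f 1, x • f 0 + y • f 1 + z • f 2⟫ = y ∧ ⟪f 2, x • f 0 + y • f 1 + z • f 2⟫ = z := by
    intro x y z
    simp only [inner_add_right, inner_smul_right, fii, f01, f02, f10, f12, f20, f21]
    refine ⟨?_, ?_, ?_⟩ <;> ring
  refine ⟨s, 3, ![1 + P, 1, 1], ![a₁ • f 0 + a₂ • f 1 + a₃ • f 2, b₁ • f 0 + b₂ • f 1 + b₃ • f 2,
    e₁ • f 0 + e₂ • f 1 + e₃ • f 2], f, ⟨s0, ?_, fun v => ?_, fun v => ?_⟩, ?_⟩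
  · intro i
    fin_cases i
    · show 0 ≤ 1 + P
      linarith
    · exact zero_le_one
    · exact zero_le_one
  · rw [nn, qa, nsq f v, Fin.sum_univ_three, real_inner_comm (f 0), real_inner_comm (f 1),
      real_inner_comm (f 2)]
    simp only [Matrix.cons_val_zero, Matrix.cons_val_one, Matrix.cons_val]
    ring
  · have := hc ⟪f 0, v⟫ ⟪f 1, v⟫ ⟪f 2, v⟫
    rw [qa, nsq f v, Fin.sum_univ_three, inn f v ν]
    simp only [Matrix.cons_val_zero, Matrix.cons_val_one, Matrix.cons_val]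
    rw [inn f v, inn f v (b₁ • f 0 + b₂ • f 1 + b₃ • f 2), inn f v (e₁ • f 0 + e₂ • f 1 + e₃ • f 2)]
    simp only [co]
    linarith
  · have T := trf cp f ((fderiv ℝ (fderiv ℝ (GF q F)) (g • f 0, r • e)).bilinearComp
      (ContinuousLinearMap.inr ℝ (X 3) (X 3)) (ContinuousLinearMap.inr ℝ (X 3) (X 3))) P ν
    have T' : ta P ν (fun v => d2 (GF q F) (g • f 0, r • e) (0, v)) =
        d2 (GF q F) (g • f 0, r • e) (0, f 0) + d2 (GF q F) (g • f 0, r • e) (0, f 1) +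
        d2 (GF q F) (g • f 0, r • e) (0, f 2) + P * d2 (GF q F) (g • f 0, r • e) (0, ν) := T
    have hd : H (dr (g • f 0) H) = (g / r) • (2 / r) • K (K (f 0) - ⟪f 0, K (f 0)⟫ • f 0) := by
      rw [hK, dr, nn, ng, hK, real_inner_smul_left, real_inner_comm (f 0), mul_smul, ← smul_sub,
        smul_smul, map_smul, div_mul_div_cancel₀ g1]
    have hq : K (f 0) - ⟪f 0, K (f 0)⟫ • f 0 = ⟪f 0, K (f 1)⟫ • f 1 + ⟪f 0, K (f 2)⟫ • f 2 := by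
      have := f.sum_repr' (K (f 0))
      rw [Fin.sum_univ_three, sy (f 1) (f 0), sy (f 2) (f 0)] at this
      nth_rewrite 1 [← this]
      abel
    rw [val, T', hd, hq, (J _ _).1, Fin.sum_univ_three]
    simp only [Matrix.cons_val_zero, Matrix.cons_val_one, Matrix.cons_val]
    rw [hK (f 0), hK (f 1), hK (f 2), (J _ _).2, (J _ _).2, (J _ _).2]
    simp only [A3, inner_sub_right, co, fii, f01, f02, f10, f12, f20, f21, sub_zero, map_add,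
      map_smul, inner_add_right, inner_smul_right, inner_zero_right, sy (f 1) (f 0), sy (f 2) (f 0),
      sy (f 2) (f 1)]
    have gr0 : 0 < g / r := div_pos g0 r0
    have e5 : ∀ x y : ℝ, g * D1 q ⟪f 0, e⟫ S j (2 / r * x) (2 / r * y) 0 0 =
        g / r * D1 q ⟪f 0, e⟫ S j (2 * x) (2 * y) 0 0 := fun x y => by
      simp only [D1, E1, div_eq_mul_inv]
      ring
    rw [e5]
    have := mul_le_mul_of_nonneg_left hv gr0.le
    have e6 : ⟪f 0, K (f 1)⟫ * ⟪f 0, K (f 1)⟫ + ⟪f 0, K (f 2)⟫ * ⟪f 0, K (f 2)⟫ =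
      ⟪f 0, K (f 1)⟫ ^ 2 + ⟪f 0, K (f 2)⟫ ^ 2 := by ring
    have e7 : ⟪f 0, K (f 1)⟫ * ⟪f 1, K (f 1)⟫ + ⟪f 0, K (f 2)⟫ * ⟪f 1, K (f 2)⟫ =
      ⟪f 1, K (f 1)⟫ * ⟪f 0, K (f 1)⟫ + ⟪f 1, K (f 2)⟫ * ⟪f 0, K (f 2)⟫ := by ring
    rw [e6, e7]
    linarith

/-- polar form of a state -/
theorem pol {η z : X 3} {t₀ q : ℝ} (hz : z ≠ 0) (t0 : 0 < t₀) (h : t₀ * ‖z‖ ^ (1 / q) ≤ ‖η‖) :
    ∃ (g r : ℝ) (n e : X 3), 0 < g ∧ 0 < r ∧ ‖n‖ = 1 ∧ ‖e‖ = 1 ∧ η = g • n ∧ z = r • e ∧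
      ‖η‖ = g ∧ ‖z‖ = r := by
  have r0 : 0 < ‖z‖ := norm_pos_iff.2 hz
  have g0 : 0 < ‖η‖ := (mul_pos t0 (Real.rpow_pos_of_pos r0 _)).trans_le h
  refine ⟨‖η‖, ‖z‖, ‖η‖⁻¹ • η, ‖z‖⁻¹ • z, g0, r0, ?_, ?_, ?_, ?_, rfl, rfl⟩
  · rw [norm_smul, norm_inv, norm_norm, inv_mul_cancel₀ g0.ne']
  · rw [norm_smul, norm_inv, norm_norm, inv_mul_cancel₀ r0.ne']
  · rw [smul_smul, mul_inv_cancel₀ g0.ne', one_smul]
  · rw [smul_smul, mul_inv_cancel₀ r0.ne', one_smul]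

theorem ex1 {g r q : ℝ} (g0 : 0 < g) (r0 : 0 < r) :
    g * Real.exp (Real.log r / q - Real.log g) = r ^ (1 / q) := by
  rw [Real.exp_sub, Real.exp_log g0, Real.rpow_def_of_pos r0, mul_one_div,
    mul_div_cancel₀ _ g0.ne']

theorem ex2 {g r q : ℝ} (g0 : 0 < g) (r0 : 0 < r) :
    g * r * Real.exp (Real.log r / q - Real.log g) = r ^ (1 + 1 / q) := by
  rw [Real.rpow_add r0, Real.rpow_one, ← ex1 g0 r0]; ring

theorem ex3 {g r q τ : ℝ} (g0 : 0 < g) (r0 : 0 < r) (h : Real.exp (-τ) * r ^ (1 / q) ≤ g) :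
    Real.log r / q - Real.log g ≤ τ := by
  rw [← ex1 g0 r0, mul_left_comm, ← Real.exp_add, mul_le_iff_le_one_right g0,
    Real.exp_le_one_iff] at h
  linarith

theorem ex4 {g r q τ : ℝ} (g0 : 0 < g) (r0 : 0 < r) (h : Real.exp (-τ) * r ^ (1 / q) = g) :
    Real.log r / q - Real.log g = τ := by
  rw [← ex1 g0 r0, mul_left_comm, ← Real.exp_add, mul_eq_left₀ g0.ne', Real.exp_eq_one_iff] at h
  linarith

theorem cs {n e : X 3} (hn : ‖n‖ = 1) (he : ‖e‖ = 1) : ⟪n, e⟫ ^ 2 ≤ 1 := by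
  have := abs_real_inner_le_norm n e
  rw [hn, he, mul_one] at this
  exact (sq_le_one_iff_abs_le_one _).2 this

end RedA

open RedA in
theorem red : CpS → GjS → RedS := by
  intro cp gj P q F j κ τ₀ τ₁ C δ e P0 h
  have q1 : 1 < q := h.e1.trans_lt h.eq
  have q0 : 0 < q := by linarith
  have t0 := Real.exp_pos (-τ₀)
  refine ⟨Real.exp (-τ₀), Real.exp (-τ₁), C, min δ (δ * Real.exp ((e - q) * τ₀)), e / q,
    q1, t0, Real.exp_lt_exp.2 (by linarith [h.t1]), ?_, ?_,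
    lt_min h.d0 (mul_pos h.d0 (Real.exp_pos _)), div_le_div_of_nonneg_right h.e1 q0.le,
    (div_lt_one q0).2 h.eq, ?_, ?_, ?_, ?_, ?_⟩
  · rw [Real.exp_neg, inv_eq_one_div, div_le_iff₀ (Real.exp_pos _)]
    exact h.tk
  · exact nonneg_of_mul_nonneg_left
      ((abs_nonneg _).trans (h.bd τ₀ 0 le_rfl (by norm_num))) (Real.exp_pos τ₀)
  · intro η z hz ht
    obtain ⟨g, r, n, u, g0, r0, hn, hu, rfl, rfl, e1, e2⟩ := pol hz t0 ht
    rw [e1, e2] at ht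
    exact (gj 3 q g r F _ n u g0 r0 hn hu (h.jet _ _ (ex3 g0 r0 ht) (cs hn hu))).1
  · intro η z hz ht
    obtain ⟨g, r, n, u, g0, r0, hn, hu, rfl, rfl, e1, e2⟩ := pol hz t0 ht.le
    rw [e1, e2] at ht
    have e3 := ex4 g0 r0 ht
    rw [(gj 3 q g r F _ n u g0 r0 hn hu (h.jet _ _ e3.le (cs hn hu))).2.1, e2, ← ex2 g0 r0, e3]
    have := mul_lt_mul_of_pos_left (h.lo _ (cs hn hu)) (mul_pos g0 r0)
    linarith
  · intro η z hz ht
    obtain ⟨g, r, n, u, g0, r0, hn, hu, rfl, rfl, e1, e2⟩ := pol hz (Real.exp_pos _) ht.le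
    rw [e1, e2] at ht
    have e3 := ex4 g0 r0 ht
    rw [(gj 3 q g r F _ n u g0 r0 hn hu (h.jet _ _ (e3.le.trans h.t1.le) (cs hn hu))).2.1, e2,
      ← ex2 g0 r0, e3]
    have := mul_lt_mul_of_pos_left (h.hi _ (cs hn hu)) (mul_pos g0 r0)
    linarith
  · intro η z hz ht
    obtain ⟨g, r, n, u, g0, r0, hn, hu, rfl, rfl, e1, e2⟩ := pol hz t0 ht
    rw [e1, e2] at ht
    have e3 := ex3 g0 r0 ht
    have gr := mul_pos g0 r0
    rw [(gj 3 q g r F _ n u g0 r0 hn hu (h.jet _ _ e3 (cs hn hu))).2.1, e2, ← ex2 g0 r0,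
      real_inner_smul_left, inner_smul_right, mul_add, ← mul_assoc, add_sub_cancel_left, abs_mul,
      abs_of_pos gr]
    have := mul_le_mul_of_nonneg_left (h.bd _ _ e3 (cs hn hu)) gr.le
    linarith
  · intro η z hz ht g1 ho H w ν t hA hw h1 hν tn h2
    obtain ⟨g, r, n, u, g0, r0, hn, hu, rfl, rfl, e1, e2⟩ := pol hz t0 ht
    rw [e1, e2] at ht ho
    rw [e1] at g1
    rw [e2] at hw
    have e3 := ex3 g0 r0 ht
    have gr := mul_pos g0 r0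
    have hj := h.jet _ _ e3 (cs hn hu)
    obtain ⟨f, S, rfl, S0, hS, h3⟩ := fr3 n u ν hn
    have lg : Real.log g ≤ 0 := Real.log_nonpos g0.le g1
    have cS : ⟪f 0, u⟫ ^ 2 + S ^ 2 = 1 := by
      have a := nsq f u
      have a1 : ⟪f 1, u⟫ = S := by
        rw [hS, inner_add_right, inner_smul_right, inner_smul_right, f10, fii]; ring
      have a2 : ⟪f 2, u⟫ = 0 := by
        rw [hS, inner_add_right, inner_smul_right, inner_smul_right, f20, f21]; ring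
      rw [hu, a1, a2] at a
      linarith
    have hk := h.key _ _ S e3 cS S0 (ho.imp (ex3 g0 r0) fun a => by
      rw [(gj 3 q g r F _ _ u g0 r0 hn hu hj).2.1, ← ex2 g0 r0, mul_left_comm] at a
      exact le_of_mul_le_mul_left a gr)
    have m0 : 0 ≤ (e - 1) * -Real.log g := mul_nonneg (by linarith [h.e1]) (by linarith)
    obtain ⟨s, m, l, a, b, k1, k2⟩ := core cp gj f g0 r0 hu hS hj P0 hk H w ν t hA (by
      refine hw.trans ((mul_le_mul_of_nonneg_right (min_le_left _ _)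
        (Real.rpow_nonneg r0.le _)).trans ?_)
      rw [mul_left_comm, Real.rpow_def_of_pos r0]
      refine mul_le_mul_of_nonneg_left ?_ h.d0.le
      nth_rewrite 1 [← Real.exp_log g0]
      rw [← Real.exp_add]
      refine Real.exp_le_exp.2 ?_
      have : Real.log r * (e / q) = e * (Real.log r / q) := by ring
      linarith) h1 hν tn h2 h3
    refine ⟨s, m, l, a, b, k1, k2.trans (neg_le_neg ((min_le_right _ _).trans ?_))⟩
    rw [mul_left_comm]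
    refine mul_le_mul_of_nonneg_left ?_ h.d0.le
    nth_rewrite 1 [← Real.exp_log g0, ← Real.exp_log r0]
    rw [← Real.exp_sub, ← Real.exp_add]
    refine Real.exp_le_exp.2 ?_
    have m1 : 0 ≤ (q - e) * (τ₀ - Real.log r / q) :=
      mul_nonneg (by linarith [h.eq]) (by linarith)
    have m2 : q * (Real.log r / q) = Real.log r := mul_div_cancel₀ _ q0.ne'
    linarith

end Pool.Agent.MP_815c6c_an.W
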