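import Pool.Agent.MP_815c6c_an.W.Goal

/-! The representative of class `C^1` of the solution. -/

set_option autoImplicit false

noncomputable section

namespace Pool.Agent.MP_815c6c_an.W

open Set Metric MeasureTheory Filter Topology
open N (Gr)
open S (vo jj Wk)

variable {d : ℕ}

theorem glue1 {U : Set (X d)} {f : X d → ℝ} (hU : IsOpen U)
    (h : ∀ x ∈ U, ∃ r, 0 < r ∧ ∃ g : X d → ℝ, ContinuousOn g (ball x r) ∧
      g =ᵐ[volume.restrict (ball x r)] f) :
    ∃ u : X d → ℝ, ContinuousOn u U ∧ u =ᵐ[volume.restrict U] f := by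
  choose! r hr g c hg using h
  have e : ∀ x ∈ U, ∀ y ∈ U, y ∈ ball x (r x) → g y y = g x y := by
    intro x hx y hy hxy
    refine Measure.eqOn_open_of_ae_eq (μ := volume) (U := ball x (r x) ∩ ball y (r y)) ?_
      (isOpen_ball.inter isOpen_ball) ((c y hy).mono inter_subset_right)
      ((c x hx).mono inter_subset_left) ⟨hxy, mem_ball_self (hr y hy)⟩
    filter_upwards [ae_restrict_of_ae_restrict_of_subset inter_subset_left (hg x hx),
      ae_restrict_of_ae_restrict_of_subset inter_subset_right (hg y hy)] with z a b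
    rw [a, b]
  refine ⟨fun x => g x x, fun x hx => ContinuousAt.continuousWithinAt ?_, ?_⟩
  · refine ((c x hx).continuousAt (ball_mem_nhds x (hr x hx))).congr ?_
    filter_upwards [hU.mem_nhds hx, ball_mem_nhds x (hr x hx)] with y a b
    exact (e x hx y a b).symm
  · refine (ae_restrict_iff' hU.measurableSet).2 (ae_iff.2 (measure_null_of_locally_null _ ?_))
    intro x hx
    have hx' : x ∈ U := (Classical.not_imp.1 hx).1
    refine ⟨_, inter_mem_nhdsWithin _ (ball_mem_nhds x (hr x hx')), ?_⟩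
    refine measure_mono_null (fun y hy => ?_)
      (ae_iff.1 ((ae_restrict_iff' measurableSet_ball).1 (hg x hx')))
    exact fun a => hy.1 fun b => (e x hx' y b hy.2).trans (a hy.2)

/-- the solution is of class `C^1` with the Hölder estimate for its gradient -/
def Hl1 (α c : ℝ) (U : Set (X d)) (f : X d → ℝ) : Prop :=
  ∃ u : X d → ℝ, ContDiffOn ℝ 1 u U ∧ u =ᵐ[volume.restrict U] f ∧
    ∀ (x : X d) (r M : ℝ), 0 < r → ball x r ⊆ U → (∀ y ∈ ball x r, ‖gradient u y‖ ≤ M) →
      ∀ y ∈ ball x (r / 64), ∀ z ∈ ball x (r / 64),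
        ‖gradient u y - gradient u z‖ ≤ c * M * (‖y - z‖ / r) ^ α

theorem hl1 {p α c : ℝ} (hp : 2 < p) {U : Set (X d)} {h : X d → X 1} {G : X d → Gr d 1}
    (hU : IsOpen U) (hh : N.Harm p U h G) (k : Hld α c U G) : Hl1 α c U fun y => h y 0 := by
  obtain ⟨W, cW, eW, hW⟩ := k
  have cV : ContinuousOn (fun y => (jj d).symm (W y)) U :=
    (jj d).symm.continuous.comp_continuousOn cW
  have loc : ∀ x ∈ U, ∀ ε : ℝ, 0 < ε → ∃ r, 0 < r ∧ ball x r ⊆ U ∧ ∃ v : X d → ℝ,
      v =ᵐ[vo (ball x r)] (fun y => h y 0) ∧ ∀ y ∈ ball x r, ∀ z ∈ ball x r,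
        |v y - v z - innerSL ℝ ((jj d).symm (W x)) (y - z)| ≤ ε * ‖y - z‖ := fun x hx ε e0 => by
    obtain ⟨r, r0, hr⟩ := nhds_basis_closedBall.mem_iff.1 (inter_mem (hU.mem_nhds hx)
      ((cV.continuousAt (hU.mem_nhds hx)).preimage_mem_nhds (closedBall_mem_nhds _ e0)))
    have s : ball x r ⊆ U := fun y hy => (hr (ball_subset_closedBall hy)).1
    refine ⟨r, r0, s, (S.ll S.sob d _ x r ε _ _ _ (ENNReal.one_le_ofReal.2 (by linarith))
      (S.en S.sob d p U h G x r hp hU (fun y hy => (hr hy).1) hh).sb ?_).1⟩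
    filter_upwards [ae_restrict_of_ae_restrict_of_subset s eW, ae_restrict_mem measurableSet_ball]
      with y a b
    rw [← a, ← map_sub, innerSL_apply_norm]
    exact mem_closedBall_iff_norm.1 (hr (ball_subset_closedBall b)).2
  have ct : ∀ (x : X d) (r ε : ℝ) (v : X d → ℝ) (l : X d →L[ℝ] ℝ), 0 < ε →
      (∀ y ∈ ball x r, ∀ z ∈ ball x r, |v y - v z - l (y - z)| ≤ ε * ‖y - z‖) →
      ContinuousOn v (ball x r) := fun x r ε v l e0 k =>
    (LipschitzOnWith.of_dist_le_mul (K := ⟨ε + ‖l‖, by positivity⟩) fun y hy z hz => by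
      rw [Real.dist_eq, dist_eq_norm]
      have a := k y hy z hz
      have b := l.le_opNorm (y - z)
      have e := abs_add_le (v y - v z - l (y - z)) (l (y - z))
      rw [sub_add_cancel] at e
      rw [Real.norm_eq_abs] at b
      show _ ≤ (ε + ‖l‖) * _
      linarith).continuousOn
  obtain ⟨u, cu, eu⟩ := glue1 (f := fun y => h y 0) hU fun x hx => by
    obtain ⟨r, r0, -, v, a, b⟩ := loc x hx 1 one_pos
    exact ⟨r, r0, v, ct x r 1 v _ one_pos b, a⟩
  have D : ∀ x ∈ U, HasFDerivAt u (innerSL ℝ ((jj d).symm (W x))) x := fun x hx => by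
    refine hasFDerivAt_iff_isLittleO.2 (Asymptotics.isLittleO_iff.2 fun ε e0 => ?_)
    obtain ⟨r, r0, s, v, a, b⟩ := loc x hx ε e0
    have q : EqOn u v (ball x r) := Measure.eqOn_open_of_ae_eq (μ := volume)
      (EventuallyEq.trans (ae_restrict_of_ae_restrict_of_subset s eu) a.symm) isOpen_ball
      (cu.mono s) (ct x r ε v _ e0 b)
    filter_upwards [ball_mem_nhds x r0] with y hy
    rw [q hy, q (mem_ball_self r0)]
    exact b y hy x (mem_ball_self r0)
  have g : ∀ x ∈ U, gradient u x = (jj d).symm (W x) := fun x hx =>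
    (hasGradientAt_iff_hasFDerivAt.2 (D x hx)).gradient
  refine ⟨u, (contDiffOn_succ_iff_hasFDerivWithinAt_of_uniqueDiffOn (n := 0) hU.uniqueDiffOn).2
    ⟨by simp, _, contDiffOn_zero.2 ((innerSL ℝ).continuous.comp_continuousOn cV),
      fun x hx => (D x hx).hasFDerivWithinAt⟩, eu, fun x r M r0 hr hM y hy z hz => ?_⟩
  have s : ball x (r / 64) ⊆ U := (ball_subset_ball (by linarith)).trans hr
  rw [g y (s hy), g z (s hz), ← map_sub, (jj d).symm.norm_map]
  exact hW x r M r0 hr (fun w hw => by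
    rw [← (jj d).symm.norm_map, ← g w (hr hw)]
    exact hM w hw) y hy z hz

end Pool.Agent.MP_815c6c_an.W
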