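import Mathlib.Analysis.InnerProductSpace.LaxMilgram
import Mathlib.Analysis.Calculus.LocalExtr.Basic
import Mathlib.Analysis.Calculus.MeanValue
import Pool.Agent.MP_815c6c_an.W.Defs

/-! The second order condition at a maximum of `u(x) - Φ(x, y)`. -/

set_option autoImplicit false

noncomputable section

namespace Pool.Agent.MP_815c6c_an.W

open Set Metric Filter Topology
open scoped RealInnerProductSpace

namespace SchA

/-- Taylor's formula of order two. -/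
theorem taylor {E : Type} [NormedAddCommGroup E] [NormedSpace ℝ E] {Φ : E → ℝ} {p : E}
    (h : ContDiffAt ℝ 2 Φ p) {ε : ℝ} (hε : 0 < ε) : ∀ᶠ k in 𝓝 (0 : E),
    |Φ (p + k) - Φ p - fderiv ℝ Φ p k - fderiv ℝ (fderiv ℝ Φ) p k k / 2| ≤ ε * ‖k‖ ^ 2 := by
  set Q := fderiv ℝ (fderiv ℝ Φ) p with hQ
  have hs : ∀ v w, Q v w = Q w v := (h.isSymmSndFDerivAt (by simp)).eq
  have h1 : HasFDerivAt (fderiv ℝ Φ) Q p :=
    ((h.fderiv_right (m := 1) (by norm_num)).differentiableAt one_ne_zero).hasFDerivAt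
  have h2 := (hasFDerivAt_iff_isLittleO_nhds_zero.1 h1).def hε
  have h3 : ∀ᶠ k in 𝓝 (0 : E), DifferentiableAt ℝ Φ (p + k) := by
    have ht : Tendsto (fun k : E => p + k) (𝓝 0) (𝓝 p) :=
      Continuous.tendsto' (by fun_prop) _ _ (add_zero _)
    exact ht.eventually ((h.eventually (by simp)).mono fun _ hz =>
      hz.differentiableAt (by simp))
  obtain ⟨r, hr, hb⟩ := Metric.eventually_nhds_iff_ball.1 (h2.and h3)
  filter_upwards [ball_mem_nhds (0 : E) hr] with k hk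
  have hsub : closedBall (0 : E) ‖k‖ ⊆ ball 0 r := closedBall_subset_ball (mem_ball_zero_iff.1 hk)
  have key := (convex_closedBall (0 : E) ‖k‖).norm_image_sub_le_of_norm_hasFDerivWithin_le
    (f := fun z => Φ (p + z) - fderiv ℝ Φ p z - Q z z / 2)
    (f' := fun z => fderiv ℝ Φ (p + z) - fderiv ℝ Φ p - Q z) (C := ε * ‖k‖) (x := 0) (y := k)
    (fun z hz => ?_) (fun z hz => ?_) (by simp) (by simp)
  · simp only [add_zero, map_zero, sub_zero, zero_div, Real.norm_eq_abs] at key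
    rw [show Φ (p + k) - Φ p - fderiv ℝ Φ p k - Q k k / 2 =
      Φ (p + k) - fderiv ℝ Φ p k - Q k k / 2 - Φ p by ring]
    exact key.trans_eq (by ring)
  · have a1 : HasFDerivAt (fun z => Φ (p + z)) (fderiv ℝ Φ (p + z)) z :=
      (hb z (hsub hz)).2.hasFDerivAt.comp z ((hasFDerivAt_id z).const_add p)
    have a2 := (Q.hasFDerivAt (x := z)).clm_apply (hasFDerivAt_id z)
    refine (((a1.sub (fderiv ℝ Φ p).hasFDerivAt).sub (a2.mul_const (1 / 2 : ℝ))).congr_fderiv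
      ?_).hasFDerivWithinAt.congr (fun w _ => by simp [div_eq_mul_inv]) (by simp [div_eq_mul_inv])
    ext v
    simp [hs v z]
    ring
  · exact (hb z (hsub hz)).1.trans
      (mul_le_mul_of_nonneg_left (mem_closedBall_zero_iff.1 hz) hε.le)

theorem quad_nonneg {E : Type} [NormedAddCommGroup E] [NormedSpace ℝ E] {C : E →L[ℝ] E →L[ℝ] ℝ}
    (h : ∀ ε : ℝ, 0 < ε → ∀ᶠ k in 𝓝 (0 : E), 0 ≤ C k k / 2 + ε * ‖k‖ ^ 2) (b : E) :
    0 ≤ C b b := by
  refine le_of_forall_pos_le_add fun δ hδ => ?_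
  have hb : 0 < ‖b‖ ^ 2 + 1 := by positivity
  have ht : Tendsto (fun t : ℝ => t • b) (𝓝[>] 0) (𝓝 0) := by
    have : Continuous fun t : ℝ => t • b := by fun_prop
    simpa using (this.tendsto 0).mono_left (nhdsWithin_le_nhds (s := Ioi 0))
  obtain ⟨t, h1, h2⟩ := ((ht.eventually (h (δ / (2 * (‖b‖ ^ 2 + 1))) (by positivity))).and
    self_mem_nhdsWithin).exists
  have h2 : 0 < t := h2
  simp only [map_smul, smul_apply, smul_eq_mul, norm_smul, mul_pow,
    Real.norm_eq_abs, sq_abs] at h1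
  have h3 : 0 ≤ C b b / 2 + δ / (2 * (‖b‖ ^ 2 + 1)) * ‖b‖ ^ 2 :=
    (mul_nonneg_iff_of_pos_left (pow_pos h2 2)).1 (h1.trans_eq (by ring))
  have h4 : δ / (2 * (‖b‖ ^ 2 + 1)) * ‖b‖ ^ 2 ≤ δ / 2 := by
    rw [div_mul_eq_mul_div, div_le_div_iff₀ (by positivity) two_pos]
    nlinarith
  linarith

/-- The Schur complement. -/
theorem schur {d : ℕ} (Q : (X d × X d) →L[ℝ] (X d × X d) →L[ℝ] ℝ) (hs : ∀ v w, Q v w = Q w v)
    (h0 : ∀ b, 0 ≤ Q (0, b) (0, b)) {ε : ℝ} (hε : 0 < ε) :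
    ∃ (N : X d →L[ℝ] X d) (B : X d →L[ℝ] X d →L[ℝ] ℝ), (∀ v w, B v w = B w v) ∧
      (∀ a, Q (a, N a) (a, N a) ≤ B a a) ∧ ∀ a b, B a a ≤ Q (a, b) (a, b) + ε * ‖b‖ ^ 2 := by
  let I : X d →L[ℝ] X d →L[ℝ] ℝ := innerSL ℝ
  have hI : ∀ v w, I v w = ⟪v, w⟫ := fun _ _ => rfl
  let i₁ := ContinuousLinearMap.inl ℝ (X d) (X d)
  let i₂ := ContinuousLinearMap.inr ℝ (X d) (X d)
  let C : X d →L[ℝ] X d →L[ℝ] ℝ := Q.bilinearComp i₂ i₂ + ε • I
  have hC : ∀ v w, C v w = Q (0, v) (0, w) + ε * ⟪v, w⟫ := fun v w => by simp [C, i₂, hI]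
  have co : IsCoercive C := ⟨ε, hε, fun v => by
    rw [hC, real_inner_self_eq_norm_mul_norm]
    linarith [h0 v]⟩
  let N : X d →L[ℝ] X d := (co.continuousLinearEquivOfBilin.symm : X d →L[ℝ] X d) ∘L
    InnerProductSpace.continuousLinearMapOfBilin (𝕜 := ℝ) (-Q.bilinearComp i₁ i₂)
  have hN : ∀ a c, Q (0, N a) (0, c) + ε * ⟪N a, c⟫ = -Q (a, 0) (0, c) := fun a c => by
    rw [← hC, ← co.continuousLinearEquivOfBilin_apply]
    simp [N, i₁, i₂]
  let J : X d →L[ℝ] X d × X d := (ContinuousLinearMap.id ℝ _).prod N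
  refine ⟨N, Q.bilinearComp J J + ε • I.bilinearComp N N, fun v w => ?_, fun a => ?_,
    fun a b => ?_⟩
  · simp [J, hI, hs (v, N v), real_inner_comm (N v)]
  · have : 0 ≤ ε * ‖N a‖ ^ 2 := by positivity
    simpa [J, hI] using this
  · obtain ⟨c, rfl⟩ : ∃ c, b = N a + c := ⟨b - N a, by abel⟩
    have e1 : (a, N a + c) = (a, N a) + (0, c) := by simp
    have e2 : (a, N a) = (a, 0) + (0, N a) := by simp
    have e3 : Q (a, N a) (0, c) = Q (a, 0) (0, c) + Q (0, N a) (0, c) := by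
      rw [e2, map_add, add_apply]
    have e4 : 0 ≤ ε * ‖c‖ ^ 2 := by positivity
    have e5 : (Q.bilinearComp J J + ε • I.bilinearComp N N) a a =
        Q (a, N a) (a, N a) + ε * ‖N a‖ ^ 2 := by simp [J, hI]
    rw [e5, e1, norm_add_sq_real]
    simp only [map_add, add_apply, hs (0, c) (a, N a)]
    nlinarith [hN a c, h0 c]

end SchA

theorem sch : CpS → OneS → SchS := by
  intro cp one d P U u Φ x y hd hP hu hx hΦ hm
  have du : HasFDerivAt u (InnerProductSpace.toDual ℝ (X d) (gradient u x)) x :=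
    ((hu.c1.contDiffAt (hu.op.mem_nhds hx)).differentiableAt one_ne_zero).hasGradientAt.hasFDerivAt
  have dΦ := (hΦ.differentiableAt (by simp)).hasFDerivAt
  have z := hm.hasFDerivAt_eq_zero
    ((du.comp (x, y) (hasFDerivAt_fst (𝕜 := ℝ) (p := (x, y)))).sub dΦ)
  have z1 : ∀ a b, fderiv ℝ Φ (x, y) (a, b) = ⟪gradient u x, a⟫ := fun a b => by
    have := congrArg (fun L : (X d × X d) →L[ℝ] ℝ => L (a, b)) z
    simp only [sub_apply, ContinuousLinearMap.comp_apply,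
      ContinuousLinearMap.coe_fst', InnerProductSpace.toDual_apply_apply,
      zero_apply] at this
    linarith
  refine ⟨fun v => by simp [z1], fun v => z1 v 0, fun ε hε => ?_⟩
  set Q := fderiv ℝ (fderiv ℝ Φ) (x, y) with hQ
  have hs : ∀ v w, Q v w = Q w v := (hΦ.isSymmSndFDerivAt (by simp)).eq
  have loc : ∀ ε' : ℝ, 0 < ε' → ∀ᶠ k : X d × X d in 𝓝 0,
      u (x + k.1) ≤ u x + ⟪gradient u x, k.1⟫ + Q k k / 2 + ε' * ‖k‖ ^ 2 := fun ε' h' => by
    have ht : Tendsto (fun k : X d × X d => (x, y) + k) (𝓝 0) (𝓝 (x, y)) :=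
      Continuous.tendsto' (by fun_prop) _ _ (add_zero _)
    filter_upwards [SchA.taylor hΦ h', ht.eventually hm] with k h1 h2
    have h3 := z1 k.1 k.2
    simp only [Prod.fst_add, Prod.mk.eta] at h2 h3
    linarith [(abs_le.1 h1).2]
  have h0 : ∀ b, 0 ≤ Q (0, b) (0, b) := fun b => by
    let i₂ := ContinuousLinearMap.inr ℝ (X d) (X d)
    refine SchA.quad_nonneg (C := Q.bilinearComp i₂ i₂) (fun ε' h' => ?_) b
    have ht : Tendsto i₂ (𝓝 0) (𝓝 0) := by simpa using i₂.continuous.tendsto 0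
    filter_upwards [ht.eventually (loc ε' h')] with k hk
    simpa [i₂, add_assoc] using hk
  obtain ⟨N, B, b1, b2, b3⟩ := SchA.schur Q hs h0 hε
  obtain ⟨ν, t, n1, n2, n3, n4⟩ := one d P U u x B hd hP hu hx b1 fun ε' h' => by
    let J : X d →L[ℝ] X d × X d := (ContinuousLinearMap.id ℝ _).prod N
    have ht : Tendsto J (𝓝 0) (𝓝 0) := by simpa using J.continuous.tendsto 0
    filter_upwards [ht.eventually (loc (ε' / (‖J‖ ^ 2 + 1)) (by positivity))] with k hk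
    have e1 : ‖J k‖ ^ 2 ≤ (‖J‖ ^ 2 + 1) * ‖k‖ ^ 2 := by
      nlinarith [pow_le_pow_left₀ (norm_nonneg _) (J.le_opNorm k) 2, sq_nonneg ‖k‖]
    have e2 : ε' / (‖J‖ ^ 2 + 1) * ‖J k‖ ^ 2 ≤ ε' * ‖k‖ ^ 2 := by
      rw [div_mul_eq_mul_div, div_le_iff₀ (by positivity)]
      nlinarith [mul_le_mul_of_nonneg_left e1 h'.le]
    have e3 : Q (J k) (J k) ≤ B k k := b2 k
    have e4 : (J k).1 = k := rfl
    rw [e4] at hk
    linarith
  refine ⟨ν, t, n1, n2, n3, fun s m l a b hs0 hl ha => ?_⟩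
  let i₁ := ContinuousLinearMap.inl ℝ (X d) (X d)
  have hB : ∀ v w, (Q.bilinearComp i₁ i₁ - B) v w = Q (v, 0) (w, 0) - B v w := fun v w => by
    simp [i₁]
  have k1 := (cp d m P s ν l a (Q.bilinearComp i₁ i₁ - B) hP hl).2 ha
    (fun v w => by rw [hB, hB, hs, b1]) fun v => by
      have := b3 v 0
      rw [hB]
      simp only [norm_zero, ne_eq, OfNat.ofNat_ne_zero, not_false_eq_true, zero_pow, mul_zero,
        add_zero] at this
      linarith
  have k2 : ta P ν (fun v => (Q.bilinearComp i₁ i₁ - B) v v) =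
      ta P ν (fun v => d2 Φ (x, y) (v, 0)) - ta P ν fun v => B v v := by
    simp only [ta, hB, d2, ← hQ, Finset.sum_sub_distrib]
    ring
  have k3 : ∑ j, -(l j * (Q.bilinearComp i₁ i₁ - B) (a j) (a j)) ≤
      ∑ j, (l j * (d2 Φ (x, y) (a j, b j) - d2 Φ (x, y) (a j, 0)) + ε * (l j * ‖b j‖ ^ 2)) :=
    Finset.sum_le_sum fun j _ => by
      rw [hB]
      simp only [d2, ← hQ]
      nlinarith [mul_le_mul_of_nonneg_left (b3 (a j) (b j)) (hl j)]
  rw [Finset.sum_neg_distrib, Finset.sum_add_distrib, ← Finset.mul_sum] at k3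
  rw [k2] at k1
  nlinarith [mul_nonneg hs0 n4]

end Pool.Agent.MP_815c6c_an.W
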