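import Pool.Agent.MP_815c6c_an.W.Defs

/-! The two-point principle. -/

set_option autoImplicit false

noncomputable section

namespace Pool.Agent.MP_815c6c_an.W

open Set Metric Filter Topology
open scoped RealInnerProductSpace

namespace TwoA

section
variable {E F K : Type} [NormedAddCommGroup E] [NormedSpace ℝ E] [NormedAddCommGroup F]
  [NormedSpace ℝ F] [NormedAddCommGroup K] [NormedSpace ℝ K] {s : E}

theorem ev1 {f : E → F} (h : ContDiffAt ℝ 2 f s) : ∀ᶠ y in 𝓝 s, HasFDerivAt f (fderiv ℝ f y) y :=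
  (h.eventually (by simp)).mono fun _ a => (a.differentiableAt (by simp)).hasFDerivAt

theorem ev2 {f : E → F} (h : ContDiffAt ℝ 2 f s) :
    HasFDerivAt (fderiv ℝ f) (fderiv ℝ (fderiv ℝ f) s) s :=
  ((h.fderiv_right (m := 1) (by norm_num)).differentiableAt one_ne_zero).hasFDerivAt

theorem comp {ψ : E → F} {f : F → K} (hψ : ContDiffAt ℝ 2 ψ s) (hf : ContDiffAt ℝ 2 f (ψ s))
    (v : E) : fderiv ℝ (fun y => f (ψ y)) s v = fderiv ℝ f (ψ s) (fderiv ℝ ψ s v) ∧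
    fderiv ℝ (fderiv ℝ fun y => f (ψ y)) s v v =
      fderiv ℝ (fderiv ℝ f) (ψ s) (fderiv ℝ ψ s v) (fderiv ℝ ψ s v) +
        fderiv ℝ f (ψ s) (fderiv ℝ (fderiv ℝ ψ) s v v) := by
  have e : fderiv ℝ (fun y => f (ψ y)) =ᶠ[𝓝 s]
      fun y => (fderiv ℝ f (ψ y)).comp (fderiv ℝ ψ y) := by
    filter_upwards [ev1 hψ, hψ.continuousAt.eventually (ev1 hf)] with y a b
    exact (b.comp y a).fderiv
  have e2 : fderiv ℝ (fun y => (fderiv ℝ f (ψ y)).comp (fderiv ℝ ψ y)) s = _ :=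
    (((ev2 hf).comp s (ev1 hψ).self_of_nhds).clm_comp (ev2 hψ)).fderiv
  refine ⟨by rw [e.eq_of_nhds]; rfl, ?_⟩
  rw [e.fderiv_eq, e2]
  simp [add_comm]

theorem add {f g : E → F} (hf : ContDiffAt ℝ 2 f s) (hg : ContDiffAt ℝ 2 g s) (v : E) :
    fderiv ℝ (fun y => f y + g y) s v = fderiv ℝ f s v + fderiv ℝ g s v ∧
    fderiv ℝ (fderiv ℝ fun y => f y + g y) s v v =
      fderiv ℝ (fderiv ℝ f) s v v + fderiv ℝ (fderiv ℝ g) s v v := by
  have e : fderiv ℝ (fun y => f y + g y) =ᶠ[𝓝 s] fun y => fderiv ℝ f y + fderiv ℝ g y := by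
    filter_upwards [ev1 hf, ev1 hg] with y a b using (a.add b).fderiv
  have e2 : fderiv ℝ (fun y => fderiv ℝ f y + fderiv ℝ g y) s = _ :=
    ((ev2 hf).add (ev2 hg)).fderiv
  refine ⟨by rw [e.eq_of_nhds]; rfl, ?_⟩
  rw [e.fderiv_eq, e2]
  rfl

theorem clm (A : E →L[ℝ] F) (v : E) :
    fderiv ℝ A s v = A v ∧ fderiv ℝ (fderiv ℝ A) s v v = 0 := by
  rw [show fderiv ℝ A = fun _ => A from funext fun _ => A.fderiv]
  simp

theorem lin {f : F → K} (A : E →L[ℝ] F) (hf : ContDiffAt ℝ 2 f (A s)) (v : E) :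
    fderiv ℝ (fun y => f (A y)) s v = fderiv ℝ f (A s) (A v) ∧
    fderiv ℝ (fderiv ℝ fun y => f (A y)) s v v = fderiv ℝ (fderiv ℝ f) (A s) (A v) (A v) := by
  have := comp A.contDiff.contDiffAt hf v
  rwa [(clm A v).1, (clm A v).2, map_zero, add_zero] at this

theorem out {ψ : E → F} (A : F →L[ℝ] K) (hψ : ContDiffAt ℝ 2 ψ s) (v : E) :
    fderiv ℝ (fun y => A (ψ y)) s v = A (fderiv ℝ ψ s v) ∧
    fderiv ℝ (fderiv ℝ fun y => A (ψ y)) s v v = A (fderiv ℝ (fderiv ℝ ψ) s v v) := by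
  have := comp hψ A.contDiff.contDiffAt v
  rwa [(clm A _).1, (clm A _).2, zero_add, (clm A _).1] at this
end

variable {d : ℕ}

theorem fd (u : X d → ℝ) (y v : X d) : fderiv ℝ u y v = ⟪gradient u y, v⟫ := by
  rw [gradient, InnerProductSpace.toDual_symm_apply]

theorem cg {u : X d → ℝ} {y : X d} (h : ContDiffAt ℝ 3 u y) : ContDiffAt ℝ 2 (gradient u) y :=
  (InnerProductSpace.toDual ℝ (X d)).symm.contDiff.contDiffAt.comp y
    (h.fderiv_right (m := 2) (by norm_num))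

theorem hess {u : X d → ℝ} {y : X d} (h : ContDiffAt ℝ 3 u y) (v : X d) :
    fderiv ℝ (fderiv ℝ u) y v v = ⟪fderiv ℝ (gradient u) y v, v⟫ := by
  have e : fderiv ℝ u = fun y => (innerSL ℝ : X d →L[ℝ] X d →L[ℝ] ℝ) (gradient u y) :=
    funext fun y => ContinuousLinearMap.ext fun v => fd u y v
  rw [e, (out (innerSL ℝ : X d →L[ℝ] X d →L[ℝ] ℝ) (cg h) v).1]
  rfl

theorem jets {u φ : X d → ℝ} {G : X d × X d → ℝ} {x y : X d} (hu : ContDiffAt ℝ 3 u y)
    (hG : ContDiffAt ℝ 2 G (gradient u y, x - y)) (hφ : ContDiffAt ℝ 2 φ y) :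
    ContDiffAt ℝ 2 (fun w : X d × X d => u w.2 + G (gradient u w.2, w.1 - w.2) + φ w.2) (x, y) ∧
    ∀ a b, fderiv ℝ (fun w : X d × X d => u w.2 + G (gradient u w.2, w.1 - w.2) + φ w.2) (x, y)
        (a, b) = ⟪gradient u y, b⟫ +
          fderiv ℝ G (gradient u y, x - y) (fderiv ℝ (gradient u) y b, a - b) +
          ⟪gradient φ y, b⟫ ∧
      d2 (fun w : X d × X d => u w.2 + G (gradient u w.2, w.1 - w.2) + φ w.2) (x, y) (a, b) =
        ⟪fderiv ℝ (gradient u) y b, b⟫ +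
          (d2 G (gradient u y, x - y) (fderiv ℝ (gradient u) y b, a - b) +
            fderiv ℝ G (gradient u y, x - y) (fderiv ℝ (fderiv ℝ (gradient u)) y b b, 0)) +
          d2 φ y b := by
  have u2 : ContDiffAt ℝ 2 u y := hu.of_le (by norm_num)
  have c1 : ContDiffAt ℝ 2 (fun w : X d × X d => u w.2) (x, y) :=
    ContDiffAt.comp (f := Prod.snd) _ u2 contDiffAt_snd
  have c2 : ContDiffAt ℝ 2 (fun w : X d × X d => φ w.2) (x, y) :=
    ContDiffAt.comp (f := Prod.snd) _ hφ contDiffAt_snd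
  have c3 : ContDiffAt ℝ 2 (fun w : X d × X d => (gradient u w.2, w.1 - w.2)) (x, y) :=
    (ContDiffAt.comp (f := Prod.snd) _ (cg hu) contDiffAt_snd).prodMk
      (contDiffAt_fst.sub contDiffAt_snd)
  have c4 : ContDiffAt ℝ 2 (fun w : X d × X d => G (gradient u w.2, w.1 - w.2)) (x, y) :=
    ContDiffAt.comp (f := fun w : X d × X d => (gradient u w.2, w.1 - w.2)) _ hG c3
  refine ⟨(c1.add c4).add c2, fun a b => ?_⟩
  have a1 := lin (s := (x, y)) (ContinuousLinearMap.snd ℝ (X d) (X d)) u2 (a, b)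
  have a2 := lin (s := (x, y)) (ContinuousLinearMap.snd ℝ (X d) (X d)) hφ (a, b)
  have a3 := lin (s := (x, y)) (ContinuousLinearMap.snd ℝ (X d) (X d)) (cg hu) (a, b)
  have a4 := clm (s := (x, y))
    (ContinuousLinearMap.fst ℝ (X d) (X d) - ContinuousLinearMap.snd ℝ (X d) (X d)) (a, b)
  have a5 := out (ContinuousLinearMap.fst ℝ (X d) (X d)) c3 (a, b)
  have a6 := out (ContinuousLinearMap.snd ℝ (X d) (X d)) c3 (a, b)
  have a7 := comp c3 hG (a, b)
  have a8 := add c1 c4 (a, b)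
  have a9 := add (c1.add c4) c2 (a, b)
  have b1 : fderiv ℝ (fun w : X d × X d => (gradient u w.2, w.1 - w.2)) (x, y) (a, b) =
      (fderiv ℝ (gradient u) y b, a - b) :=
    Prod.ext (a5.1.symm.trans a3.1) (a6.1.symm.trans a4.1)
  have b2 : fderiv ℝ (fderiv ℝ fun w : X d × X d => (gradient u w.2, w.1 - w.2)) (x, y) (a, b)
      (a, b) = (fderiv ℝ (fderiv ℝ (gradient u)) y b b, 0) :=
    Prod.ext (a5.2.symm.trans a3.2) (a6.2.symm.trans a4.2)
  rw [b1, b2] at a7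
  refine ⟨?_, ?_⟩
  · rw [a9.1, a8.1, a7.1, ← fd, ← fd]
    exact congrArg₂ _ (congrArg₂ _ a1.1 rfl) a2.1
  · rw [d2, a9.2, a8.2, a7.2, ← hess hu]
    exact congrArg₂ _ (congrArg₂ _ a1.2 rfl) a2.2

end TwoA

open TwoA in
theorem two : CpS → LinS → SchS → TwoS := by
  intro cp lin sch d P U u φ G x y hP hu hx hy h0 hG hφ hm
  obtain ⟨u3, ad⟩ := hu.c3 y hy h0
  obtain ⟨c, jt⟩ := jets u3 hG hφ
  have d0 : 0 < d := Nat.pos_of_ne_zero fun e => h0 (by subst e; exact Subsingleton.elim _ _)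
  obtain ⟨k1, k2, k3⟩ := sch d P U u _ x y d0 hP hu hx c hm
  refine ⟨fun v => ?_, fun ε ε0 => ?_⟩
  · have := k1 v
    rw [(jt 0 v).1, zero_sub] at this
    rw [inner_add_left]
    linarith
  obtain ⟨ν, t, ν1, t0, e, k4⟩ := k3 (ε / (d + P + 1)) (by positivity)
  refine ⟨ν, t, ν1, t0, fun v => ?_, fun s m l a b h => ?_⟩
  · have := k2 v
    rw [(jt v 0).1, e, real_inner_smul_left] at this
    simpa using this
  have k5 := k4 s m l a b h.s0 h.l0 h.ha
  have tr : ∀ B : X d →L[ℝ] X d →L[ℝ] ℝ,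
      ∑ j, l j * B (b j) (b j) = ta P (nu (gradient u y)) fun v => B v v := fun B => by
    simpa using (cp d m P 1 _ l b B hP h.l0).1 fun v => by rw [one_mul, h.hb]
  have t1 := tr ((innerSL ℝ : X d →L[ℝ] X d →L[ℝ] ℝ).comp (fderiv ℝ (gradient u) y))
  have t2 := tr (fderiv ℝ (fderiv ℝ φ) y)
  have t3 := tr (innerSL ℝ : X d →L[ℝ] X d →L[ℝ] ℝ)
  obtain ⟨A, hA⟩ : ∃ A : X d, ∀ v, fderiv ℝ G (gradient u y, x - y) (v, 0) = ⟪A, v⟫ :=
    ⟨(InnerProductSpace.toDual ℝ (X d)).symm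
      ((fderiv ℝ G (gradient u y, x - y)).comp (ContinuousLinearMap.inl ℝ _ _)), fun v => by
        rw [InnerProductSpace.toDual_symm_apply]; rfl⟩
  have t4 := tr ((ContinuousLinearMap.compL ℝ (X d) (X d) ℝ (innerSL ℝ A)).comp
    (fderiv ℝ (fderiv ℝ (gradient u)) y))
  have t5 := lin d P U u y A hu hy h0
  have n1 : ‖nu (gradient u y)‖ = 1 := by
    rw [nu, norm_smul, norm_inv, norm_norm, inv_mul_cancel₀ (norm_ne_zero_iff.2 h0)]
  change ∑ j, l j * ⟪fderiv ℝ (gradient u) y (b j), b j⟫ =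
    ta P _ fun v => ⟪fderiv ℝ (gradient u) y v, v⟫ at t1
  change ∑ j, l j * d2 φ y (b j) = ta P _ (d2 φ y) at t2
  change ∑ j, l j * ⟪b j, b j⟫ = ta P _ fun v => ⟪v, v⟫ at t3
  change ∑ j, l j * ⟪A, fderiv ℝ (fderiv ℝ (gradient u)) y (b j) (b j)⟫ =
    ta P _ fun v => ⟪A, fderiv ℝ (fderiv ℝ (gradient u)) y v v⟫ at t4
  rw [ad.2] at t1
  rw [t5] at t4
  simp only [real_inner_self_eq_norm_sq, ta, n1] at t3
  simp only [(jt _ _).2, hA, map_zero, inner_zero_right, sub_zero, zero_add, add_zero,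
    show d2 φ y 0 = 0 by simp [d2]] at k5
  rw [t3] at k5
  simp only [PiLp.norm_single, norm_one, one_pow, Finset.sum_const, Finset.card_univ,
    Fintype.card_fin, nsmul_eq_mul, mul_one] at k5
  have k6 : ε / (d + P + 1) * (d + P) ≤ ε := by
    rw [div_mul_eq_mul_div, div_le_iff₀ (by positivity)]
    nlinarith
  rw [val, hA, ← t2]
  simp only [mul_add, mul_sub, Finset.sum_add_distrib, Finset.sum_sub_distrib] at k5 ⊢
  linarith

end Pool.Agent.MP_815c6c_an.W
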