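import Pool.Agent.MP_815c6c_an.W.C2l
import Pool.Agent.MP_815c6c_an.W.C3
import Pool.Agent.MP_815c6c_an.W.Der
import Pool.Agent.MP_815c6c_an.W.Hol
import Pool.Agent.MP_815c6c_an.W.Out
import Pool.Agent.MP_815c6c_an.W.Lip3
import Pool.Agent.MP_815c6c_an.W.Ber
import Pool.Agent.MP_815c6c_an.W.Nw0
import Pool.Agent.MP_815c6c_an.W.Cmp
import Pool.Agent.MP_815c6c_an.W.Two
import Pool.Agent.MP_815c6c_an.W.Sch
import Pool.Agent.MP_815c6c_an.W.One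
import Pool.Agent.MP_815c6c_an.W.Lin
import Pool.Agent.MP_815c6c_an.W.Pen
import Pool.Agent.MP_815c6c_an.W.Red
import Pool.Agent.MP_815c6c_an.W.Gj

/-! From the certificate to the regularity of scalar p-harmonic functions in dimension three. -/

set_option autoImplicit false

noncomputable section

namespace Pool.Agent.MP_815c6c_an.W

theorem cmp0 : CmpS := cmp (two cp lin (sch cp one)) pen

theorem rg3 (fl : Flat0) {p : ℝ} (hp : 2 < p) : S.RegS 3 p :=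
  rgL hp (lip3 p hp) (nwL fl ber0 3 (p - 2) (by linarith) (by push_cast; linarith))

/-- the conclusion for the exponent `1 / q` -/
def Goal (p q : ℝ) : Prop := (∀ b : ℝ, q < b → S.Out 3 p (2 * b)) ∧
  ∃ c : ℝ, ∀ (U : Set (X 3)) (h : X 3 → X 1) (G : X 3 → N.Gr 3 1), IsOpen U → N.Harm p U h G →
    Hld (1 / q) c U G

theorem goal_of {p q : ℝ} (hp : 2 < p) (r : S.RegS 3 p) {F : ℝ × ℝ → ℝ} {j : ℝ → ℝ → J6}
    {κ τ₀ τ₁ C δ e : ℝ} (h : CertR (p - 2) q F j κ τ₀ τ₁ C δ e) : 1 < q ∧ Goal p q := by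
  obtain ⟨α, a0, a1, hc⟩ := c2l 3 p hp r
  obtain ⟨t₀, t₁, C', δ', θ, k⟩ := red cp gj _ _ _ _ _ _ _ _ _ _ (by linarith) h
  obtain ⟨K, g⟩ : ∃ C, S.Reg 3 p (1 / q) C := by
    refine hol 3 p q hp k.q1 r (fun U u hU hu => ⟨hU, hu.c1, fun x hx h0 => ?_⟩)
      (cmp0 _ _ _ _ _ _ _ _ _ _ (by linarith) k)
    obtain ⟨ρ, K, r0, s, g1, g2⟩ := hc U u x hU hu hx h0
    exact ⟨c3 der 3 p α ρ K u x hp a0 a1 r0 (hu.mono s) h0 g1 g2,
      pde der 3 p ρ u x hp r0 (hu.mono s) h0 g1⟩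
  have q0 : 0 < q := by linarith [k.q1]
  refine ⟨k.q1, fun b hb => out 3 p _ K b hp g ?_, _, fun U h G hU hh => fin hp g hU hh⟩
  rwa [one_div, inv_mul_eq_div, one_lt_div q0]

end Pool.Agent.MP_815c6c_an.W
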