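import Pool.Agent.MP_815c6c_an.W.KEA
import Pool.Agent.MP_815c6c_an.W.CertY

/-! The certificate for small `P`: the check of one box for a polynomial law. -/

set_option autoImplicit false
set_option exponentiation.threshold 4000

noncomputable section

namespace Pool.Agent.MP_815c6c_an.W.KB

open AA KE KR CertYA

/-- six coefficients `(a_i - 2 ^ 15) / 2 ^ 12` -/
structure R6 : Type where
  a0 : ℕ
  a1 : ℕ
  a2 : ℕ
  a3 : ℕ
  a4 : ℕ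
  a5 : ℕ

def zr (a : ℕ) : ℝ := a - 32768
def R6.f (r : R6) (c : ℝ) : ℝ := (zr r.a0 + zr r.a1 * c + zr r.a2 * c ^ 2 + zr r.a3 * c ^ 3 +
  zr r.a4 * c ^ 4 + zr r.a5 * c ^ 5) / 4096
def R6.c (r : R6) (c : ℝ) : ℝ := (zr r.a1 + 2 * zr r.a2 * c + 3 * zr r.a3 * c ^ 2 +
  4 * zr r.a4 * c ^ 3 + 5 * zr r.a5 * c ^ 4) / 4096
def R6.cc (r : R6) (c : ℝ) : ℝ := (2 * zr r.a2 + 6 * zr r.a3 * c + 12 * zr r.a4 * c ^ 2 +
  20 * zr r.a5 * c ^ 3) / 4096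
def R6.l (r : R6) : List ℝ := [zr r.a0 / 4096, zr r.a1 / 4096, zr r.a2 / 4096, zr r.a3 / 4096,
  zr r.a4 / 4096, zr r.a5 / 4096]

theorem hc_eq (r : R6) (c : ℝ) : hc r.l c = ⟨r.f c, 0, r.c c, 0, 0, r.cc c⟩ := by
  simp only [hc, R6.l, R6.f, R6.c, R6.cc, List.foldr, J6.add, J6.mul, J6.cst, J6.vy, J6.mk.injEq]
  refine ⟨?_, ?_, ?_, ?_, ?_, ?_⟩ <;> ring

/-- the rows are the coefficients of the powers of `2 s - 1` -/
structure Law : Type where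
  r0 : R6
  r1 : R6
  r2 : R6
  r3 : R6
  r4 : R6
  r5 : R6

def Law.l (l : Law) : List (List ℝ) := [l.r0.l, l.r1.l, l.r2.l, l.r3.l, l.r4.l, l.r5.l]
def Law.ps (l : Law) : ℝ → ℝ → J6 := hsA l.l 2 (-1)
def s0 (u a b c d e f : ℝ) : ℝ := a + u * b + u ^ 2 * c + u ^ 3 * d + u ^ 4 * e + u ^ 5 * f
def s1 (u b c d e f : ℝ) : ℝ := 2 * (b + 2 * u * c + 3 * u ^ 2 * d + 4 * u ^ 3 * e + 5 * u ^ 4 * f)
def s2 (u c d e f : ℝ) : ℝ := 4 * (2 * c + 6 * u * d + 12 * u ^ 2 * e + 20 * u ^ 3 * f)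

theorem ps_eq (l : Law) (s c : ℝ) : l.ps s c =
    ⟨s0 (2 * s - 1) (l.r0.f c) (l.r1.f c) (l.r2.f c) (l.r3.f c) (l.r4.f c) (l.r5.f c),
      s1 (2 * s - 1) (l.r1.f c) (l.r2.f c) (l.r3.f c) (l.r4.f c) (l.r5.f c),
      s0 (2 * s - 1) (l.r0.c c) (l.r1.c c) (l.r2.c c) (l.r3.c c) (l.r4.c c) (l.r5.c c),
      s2 (2 * s - 1) (l.r2.f c) (l.r3.f c) (l.r4.f c) (l.r5.f c),
      s1 (2 * s - 1) (l.r1.c c) (l.r2.c c) (l.r3.c c) (l.r4.c c) (l.r5.c c),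
      s0 (2 * s - 1) (l.r0.cc c) (l.r1.cc c) (l.r2.cc c) (l.r3.cc c) (l.r4.cc c) (l.r5.cc c)⟩ := by
  simp only [Law.ps, hsA, hs, Law.l, List.foldr, hc_eq, J6.add, J6.mul, J6.cst, J6.vx, J6.mk.injEq,
    s0, s1, s2]
  refine ⟨?_, ?_, ?_, ?_, ?_, ?_⟩ <;> ring

def sm (a : ℕ) (b : A) : A :=
  cond (Nat.ble a 32768) (neg (smul (Nat.sub 32768 a) b)) (smul (Nat.sub a 32768) b)
def lc4 (r : R6) (b2 b3 b4 b5 : A) : A :=
  add (add (sm r.a2 b2) (sm r.a3 b3)) (add (sm r.a4 b4) (sm r.a5 b5))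
def lc5 (r : R6) (b1 b2 b3 b4 b5 : A) : A := add (sm r.a1 b1) (lc4 r b2 b3 b4 b5)
def lc6 (r : R6) (b0 b1 b2 b3 b4 b5 : A) : A := add (sm r.a0 b0) (lc5 r b1 b2 b3 b4 b5)

section
variable {t : Pt} {b0 b1 b2 b3 b4 b5 : A} {y0 y1 y2 y3 y4 y5 : ℝ}

theorem sm_ok (a : ℕ) (h : RA t b0 y0) : RA t (sm a b0) (zr a * y0) := by
  unfold sm
  cases e : Nat.ble a 32768
  · have := (Nat.not_le_of_not_ble_eq_true (by rw [e]; simp) : ¬a ≤ 32768)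
    exact (smul_ok (a - 32768) h).cast (by rw [Nat.cast_sub (by omega), zr]; norm_num)
  · exact (neg_ok (smul_ok (32768 - a) h)).cast (by
      rw [Nat.cast_sub (Nat.le_of_ble_eq_true e), zr]; push_cast; ring)

theorem lc4_ok (r : R6) (h2 : RA t b2 y2) (h3 : RA t b3 y3) (h4 : RA t b4 y4) (h5 : RA t b5 y5) :
    RA t (lc4 r b2 b3 b4 b5) (zr r.a2 * y2 + zr r.a3 * y3 + (zr r.a4 * y4 + zr r.a5 * y5)) :=
  add_ok (add_ok (sm_ok _ h2) (sm_ok _ h3)) (add_ok (sm_ok _ h4) (sm_ok _ h5))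

theorem lc5_ok (r : R6) (h1 : RA t b1 y1) (h2 : RA t b2 y2) (h3 : RA t b3 y3) (h4 : RA t b4 y4)
    (h5 : RA t b5 y5) : RA t (lc5 r b1 b2 b3 b4 b5)
      (zr r.a1 * y1 + (zr r.a2 * y2 + zr r.a3 * y3 + (zr r.a4 * y4 + zr r.a5 * y5))) :=
  add_ok (sm_ok _ h1) (lc4_ok r h2 h3 h4 h5)

theorem lc6_ok (r : R6) (h0 : RA t b0 y0) (h1 : RA t b1 y1) (h2 : RA t b2 y2) (h3 : RA t b3 y3)
    (h4 : RA t b4 y4) (h5 : RA t b5 y5) : RA t (lc6 r b0 b1 b2 b3 b4 b5) (zr r.a0 * y0 +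
      (zr r.a1 * y1 + (zr r.a2 * y2 + zr r.a3 * y3 + (zr r.a4 * y4 + zr r.a5 * y5)))) :=
  add_ok (sm_ok _ h0) (lc5_ok r h1 h2 h3 h4 h5)

end

/-- the coefficients for `q = 1 + 255 P / 256` and the weight `s`; `k` are the jets of `Ψ` -/
def hY (P s c : ℝ) (k : J6) : Hc :=
  let i := (1 + P * (255 / 256))⁻¹
  let W := 2 * (1 - s)
  let b := s * (k.f - (1 - s) * k.t)
  let d := s * W * (k.f - (1 - 2 * s) * k.t - s * (1 - s) / 2 * k.tt)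
  let f := s * (k.c - (1 - s) * k.tc)
  let m := (1 - c ^ 2) * k.cc - c * k.c
  let a := k.f + i * b
  ⟨c, 1 - c ^ 2, P, 1, s, W, W * (k.f - b), W * k.c, s * c + W * (1 + P * s * a),
    s * (c * a + (1 - c ^ 2) * k.c), -(W ^ 2 * d), -(W ^ 2 * f), W ^ 2 * (m + k.f - b),
    W ^ 2 * (k.f - b - c * k.c), W * (k.f - b + i * d), W * (k.c + i * f), W * (f - k.c), -(W * m),
    i * (s * (b + i * (b - d)) - 255 / 256), -(s * i * f), s * (a + m), s * (a - c * k.c)⟩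

/-- the exponent and the slope -/
def qY (P : ℝ) : ℝ := 1 + P * (255 / 256)
def fY (P : ℝ) : ℝ := qY P / (qY P + 1)

theorem rel_Y {P s c S : ℝ} (k : J6) (P0 : 0 < P) (s0 : 0 < s) (h : c ^ 2 + S ^ 2 = 1) :
    Rel (co (qY P) c S (jT ((1 - s) / (1 / 2 * s)) (jP P (fY P) s k))) (hY P s c k) P c S
      ((1 - s) / (1 / 2 * s)) := by
  have e : S ^ 2 = 1 - c ^ 2 := by linarith
  have n : 1 + P * (255 / 256) ≠ 0 := by positivity
  have n1 : 1 + P * (255 / 256) + 1 ≠ 0 := by positivity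
  have n' := s0.ne'
  constructor <;> simp only [co, jT, jP, hY, fY, qY, e]
  all_goals
    generalize hq : 1 + P * (255 / 256) = q at n n1
    obtain rfl : P = (q - 1) * (256 / 255) := by linarith
    field_simp
    try ring

/-- the variables -/
structure XN : Type where
  s : N
  c : N
  P : N

structure RX (t : Pt) (x : XN) (s c P : ℝ) : Prop where
  s : RN t x.s s
  c : RN t x.c c
  P : RN t x.P P

/-- the rows and their derivatives -/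
structure PC : Type where
  p0 : A
  p1 : N
  p2 : N
  p3 : N
  p4 : N
  p5 : N
  q0 : A
  q1 : N
  q2 : N
  q3 : N
  q4 : N
  q5 : N
  r0 : A
  r1 : N
  r2 : N
  r3 : N
  r4 : N
  r5 : N

structure RPC (t : Pt) (x : PC) (l : Law) (c : ℝ) : Prop where
  p0 : RA t x.p0 (l.r0.f c)
  p1 : RN t x.p1 (l.r1.f c)
  p2 : RN t x.p2 (l.r2.f c)
  p3 : RN t x.p3 (l.r3.f c)
  p4 : RN t x.p4 (l.r4.f c)
  p5 : RN t x.p5 (l.r5.f c)
  q0 : RA t x.q0 (l.r0.c c)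
  q1 : RN t x.q1 (l.r1.c c)
  q2 : RN t x.q2 (l.r2.c c)
  q3 : RN t x.q3 (l.r3.c c)
  q4 : RN t x.q4 (l.r4.c c)
  q5 : RN t x.q5 (l.r5.c c)
  r0 : RA t x.r0 (l.r0.cc c)
  r1 : RN t x.r1 (l.r1.cc c)
  r2 : RN t x.r2 (l.r2.cc c)
  r3 : RN t x.r3 (l.r3.cc c)
  r4 : RN t x.r4 (l.r4.cc c)
  r5 : RN t x.r5 (l.r5.cc c)

def bP (l : Law) (i : XN) : PC :=
  let k0 := cst 68719476736
  let k1 := nrm (rnd (mul i.c (cN 68719476736)))
  let k2 := nrm (rnd (mul i.c k1))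
  let k3 := nrm (rnd (mul i.c k2))
  let k4 := nrm (rnd (mul i.c k3))
  let k5 := rnd (mul i.c k4)
  let d2 := smul 2 k1.toA
  let d3 := smul 3 k2.toA
  let d4 := smul 4 k3.toA
  let d5 := smul 5 k4.toA
  let f2 := smul 2 k0
  let f3 := smul 6 k1.toA
  let f4 := smul 12 k2.toA
  let f5 := smul 20 k3.toA
  let p0 := lc6 l.r0 k0 k1.toA k2.toA k3.toA k4.toA k5
  let q0 := lc5 l.r0 k0 d2 d3 d4 d5
  let r0 := lc4 l.r0 f2 f3 f4 f5
  let p1 := nrm (lc6 l.r1 k0 k1.toA k2.toA k3.toA k4.toA k5)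
  let q1 := nrm (lc5 l.r1 k0 d2 d3 d4 d5)
  let r1 := nrm (lc4 l.r1 f2 f3 f4 f5)
  let p2 := nrm (lc6 l.r2 k0 k1.toA k2.toA k3.toA k4.toA k5)
  let q2 := nrm (lc5 l.r2 k0 d2 d3 d4 d5)
  let r2 := nrm (lc4 l.r2 f2 f3 f4 f5)
  let p3 := nrm (lc6 l.r3 k0 k1.toA k2.toA k3.toA k4.toA k5)
  let q3 := nrm (lc5 l.r3 k0 d2 d3 d4 d5)
  let r3 := nrm (lc4 l.r3 f2 f3 f4 f5)
  let p4 := nrm (lc6 l.r4 k0 k1.toA k2.toA k3.toA k4.toA k5)
  let q4 := nrm (lc5 l.r4 k0 d2 d3 d4 d5)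
  let r4 := nrm (lc4 l.r4 f2 f3 f4 f5)
  let p5 := nrm (lc6 l.r5 k0 k1.toA k2.toA k3.toA k4.toA k5)
  let q5 := nrm (lc5 l.r5 k0 d2 d3 d4 d5)
  let r5 := nrm (lc4 l.r5 f2 f3 f4 f5)
  ⟨p0, p1, p2, p3, p4, p5, q0, q1, q2, q3, q4, q5, r0, r1, r2, r3, r4, r5⟩

theorem bP_ok (l : Law) {t : Pt} {s c P : ℝ} {i : XN} (hi : RX t i s c P)  :
    RPC t (bP l i) l c := by
  unfold bP
  extract_lets k0 k1 k2 k3 k4 k5 d2 d3 d4 d5 f2 f3 f4 f5 p0 q0 r0 p1 q1 r1 p2 q2 r2 p3 q3 r3 p4 q4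
    r4 p5 q5 r5
  have hk0 : RA t k0 _ := cst_ok (z := 1 / 4096) 68719476736 (by norm_num) (by norm_num [abs_le])
  have hk1 : RN t k1 _ := nrm_ok (rnd_ok (mul_ok hi.c (cN_ok (z := 1 / 4096) 68719476736 (by
    norm_num [abs_le]))))
  have hk2 : RN t k2 _ := nrm_ok (rnd_ok (mul_ok hi.c hk1))
  have hk3 : RN t k3 _ := nrm_ok (rnd_ok (mul_ok hi.c hk2))
  have hk4 : RN t k4 _ := nrm_ok (rnd_ok (mul_ok hi.c hk3))
  have hk5 : RA t k5 _ := rnd_ok (mul_ok hi.c hk4)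
  have hd2 : RA t d2 _ := smul_ok 2 hk1.toA
  have hd3 : RA t d3 _ := smul_ok 3 hk2.toA
  have hd4 : RA t d4 _ := smul_ok 4 hk3.toA
  have hd5 : RA t d5 _ := smul_ok 5 hk4.toA
  have hf2 : RA t f2 _ := smul_ok 2 hk0
  have hf3 : RA t f3 _ := smul_ok 6 hk1.toA
  have hf4 : RA t f4 _ := smul_ok 12 hk2.toA
  have hf5 : RA t f5 _ := smul_ok 20 hk3.toA
  have hp0 : RA t p0 (l.r0.f c) := (lc6_ok l.r0 hk0 hk1.toA hk2.toA hk3.toA hk4.toA hk5).cast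
    (by simp only [R6.f]; ring)
  have hq0 : RA t q0 (l.r0.c c) := (lc5_ok l.r0 hk0 hd2 hd3 hd4 hd5).cast
    (by simp only [R6.c]; push_cast; ring)
  have hr0 : RA t r0 (l.r0.cc c) := (lc4_ok l.r0 hf2 hf3 hf4 hf5).cast
    (by simp only [R6.cc]; push_cast; ring)
  have hp1 : RN t p1 (l.r1.f c) := (nrm_ok (lc6_ok l.r1 hk0 hk1.toA hk2.toA hk3.toA hk4.toA
    hk5)).cast (by simp only [R6.f]; ring)
  have hq1 : RN t q1 (l.r1.c c) := (nrm_ok (lc5_ok l.r1 hk0 hd2 hd3 hd4 hd5)).cast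
    (by simp only [R6.c]; push_cast; ring)
  have hr1 : RN t r1 (l.r1.cc c) := (nrm_ok (lc4_ok l.r1 hf2 hf3 hf4 hf5)).cast
    (by simp only [R6.cc]; push_cast; ring)
  have hp2 : RN t p2 (l.r2.f c) := (nrm_ok (lc6_ok l.r2 hk0 hk1.toA hk2.toA hk3.toA hk4.toA
    hk5)).cast (by simp only [R6.f]; ring)
  have hq2 : RN t q2 (l.r2.c c) := (nrm_ok (lc5_ok l.r2 hk0 hd2 hd3 hd4 hd5)).cast
    (by simp only [R6.c]; push_cast; ring)
  have hr2 : RN t r2 (l.r2.cc c) := (nrm_ok (lc4_ok l.r2 hf2 hf3 hf4 hf5)).cast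
    (by simp only [R6.cc]; push_cast; ring)
  have hp3 : RN t p3 (l.r3.f c) := (nrm_ok (lc6_ok l.r3 hk0 hk1.toA hk2.toA hk3.toA hk4.toA
    hk5)).cast (by simp only [R6.f]; ring)
  have hq3 : RN t q3 (l.r3.c c) := (nrm_ok (lc5_ok l.r3 hk0 hd2 hd3 hd4 hd5)).cast
    (by simp only [R6.c]; push_cast; ring)
  have hr3 : RN t r3 (l.r3.cc c) := (nrm_ok (lc4_ok l.r3 hf2 hf3 hf4 hf5)).cast
    (by simp only [R6.cc]; push_cast; ring)
  have hp4 : RN t p4 (l.r4.f c) := (nrm_ok (lc6_ok l.r4 hk0 hk1.toA hk2.toA hk3.toA hk4.toA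
    hk5)).cast (by simp only [R6.f]; ring)
  have hq4 : RN t q4 (l.r4.c c) := (nrm_ok (lc5_ok l.r4 hk0 hd2 hd3 hd4 hd5)).cast
    (by simp only [R6.c]; push_cast; ring)
  have hr4 : RN t r4 (l.r4.cc c) := (nrm_ok (lc4_ok l.r4 hf2 hf3 hf4 hf5)).cast
    (by simp only [R6.cc]; push_cast; ring)
  have hp5 : RN t p5 (l.r5.f c) := (nrm_ok (lc6_ok l.r5 hk0 hk1.toA hk2.toA hk3.toA hk4.toA
    hk5)).cast (by simp only [R6.f]; ring)
  have hq5 : RN t q5 (l.r5.c c) := (nrm_ok (lc5_ok l.r5 hk0 hd2 hd3 hd4 hd5)).cast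
    (by simp only [R6.c]; push_cast; ring)
  have hr5 : RN t r5 (l.r5.cc c) := (nrm_ok (lc4_ok l.r5 hf2 hf3 hf4 hf5)).cast
    (by simp only [R6.cc]; push_cast; ring)
  exact ⟨hp0, hp1, hp2, hp3, hp4, hp5, hq0, hq1, hq2, hq3, hq4, hq5, hr0, hr1, hr2, hr3, hr4, hr5⟩

/-- six combinations of the jets -/
structure BB : Type where
  b0 : N
  b1 : N
  be : N
  b2 : N
  b4 : N
  b5 : N

structure RBB (t : Pt) (x : BB) (l : Law) (s c : ℝ) : Prop where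
  b0 : RN t x.b0 ((l.ps s c).f)
  b1 : RN t x.b1 ((l.ps s c).f - (1 - s) * (l.ps s c).t)
  be : RN t x.be ((l.ps s c).f - (1 - 2 * s) * (l.ps s c).t - s * (1 - s) / 2 * (l.ps s c).tt)
  b2 : RN t x.b2 ((l.ps s c).c)
  b4 : RN t x.b4 ((l.ps s c).c - (1 - s) * (l.ps s c).tc)
  b5 : RN t x.b5 ((l.ps s c).cc)

def bU (i : XN) (o : PC) : BB :=
  let u1 := nrm (sub (smul 2 i.s.toA) one)
  let u2 := nrm (rnd (mul u1 u1))
  let u3 := nrm (rnd (mul u1 u2))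
  let u4 := nrm (rnd (mul u2 u2))
  let u5 := nrm (rnd (mul u1 u4))
  let v1 := nrm (sub (smul 2 u1.toA) one)
  let v2 := nrm (sub (smul 3 u2.toA) (smul 2 u1.toA))
  let v3 := nrm (sub (smul 4 u3.toA) (smul 3 u2.toA))
  let v4 := nrm (sub (smul 5 u4.toA) (smul 4 u3.toA))
  let v5 := nrm (sub (smul 6 u5.toA) (smul 5 u4.toA))
  let w1 := nrm (smul 3 u1.toA)
  let w2 := nrm (sub (smul 6 u2.toA) one)
  let w3 := nrm (sub (smul 10 u3.toA) (smul 3 u1.toA))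
  let w4 := nrm (sub (smul 15 u4.toA) (smul 6 u2.toA))
  let w5 := nrm (sub (smul 21 u5.toA) (smul 10 u3.toA))
  let b0 := nrm (add o.p0 (rnd (add (add (add (add (mul u1 o.p1) (mul u2 o.p2)) (mul u3 o.p3)) (mul
    u4 o.p4)) (mul u5 o.p5))))
  let b1 := nrm (add o.p0 (rnd (add (add (add (add (mul v1 o.p1) (mul v2 o.p2)) (mul v3 o.p3)) (mul
    v4 o.p4)) (mul v5 o.p5))))
  let be := nrm (add o.p0 (rnd (add (add (add (add (mul w1 o.p1) (mul w2 o.p2)) (mul w3 o.p3)) (mul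
    w4 o.p4)) (mul w5 o.p5))))
  let b2 := nrm (add o.q0 (rnd (add (add (add (add (mul u1 o.q1) (mul u2 o.q2)) (mul u3 o.q3)) (mul
    u4 o.q4)) (mul u5 o.q5))))
  let b4 := nrm (add o.q0 (rnd (add (add (add (add (mul v1 o.q1) (mul v2 o.q2)) (mul v3 o.q3)) (mul
    v4 o.q4)) (mul v5 o.q5))))
  let b5 := nrm (add o.r0 (rnd (add (add (add (add (mul u1 o.r1) (mul u2 o.r2)) (mul u3 o.r3)) (mul
    u4 o.r4)) (mul u5 o.r5))))
  ⟨b0, b1, be, b2, b4, b5⟩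

theorem bU_ok {t : Pt} {l : Law} {s c P : ℝ} {i : XN} {o : PC} (hi : RX t i s c P) (ho : RPC t o l
    c)  :
    RBB t (bU i o) l s c := by
  unfold bU
  extract_lets u1 u2 u3 u4 u5 v1 v2 v3 v4 v5 w1 w2 w3 w4 w5 b0 b1 be b2 b4 b5
  have hu1 : RN t u1 (2 * s - 1) := (nrm_ok (sub_ok (smul_ok 2 hi.s.toA) one_ok)).cast
    (by push_cast; ring)
  have hu2 : RN t u2 _ := nrm_ok (rnd_ok (mul_ok hu1 hu1))
  have hu3 : RN t u3 _ := nrm_ok (rnd_ok (mul_ok hu1 hu2))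
  have hu4 : RN t u4 _ := nrm_ok (rnd_ok (mul_ok hu2 hu2))
  have hu5 : RN t u5 _ := nrm_ok (rnd_ok (mul_ok hu1 hu4))
  have hv1 : RN t v1 _ := nrm_ok (sub_ok (smul_ok 2 hu1.toA) one_ok)
  have hv2 : RN t v2 _ := nrm_ok (sub_ok (smul_ok 3 hu2.toA) (smul_ok 2 hu1.toA))
  have hv3 : RN t v3 _ := nrm_ok (sub_ok (smul_ok 4 hu3.toA) (smul_ok 3 hu2.toA))
  have hv4 : RN t v4 _ := nrm_ok (sub_ok (smul_ok 5 hu4.toA) (smul_ok 4 hu3.toA))
  have hv5 : RN t v5 _ := nrm_ok (sub_ok (smul_ok 6 hu5.toA) (smul_ok 5 hu4.toA))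
  have hw1 : RN t w1 _ := nrm_ok (smul_ok 3 hu1.toA)
  have hw2 : RN t w2 _ := nrm_ok (sub_ok (smul_ok 6 hu2.toA) one_ok)
  have hw3 : RN t w3 _ := nrm_ok (sub_ok (smul_ok 10 hu3.toA) (smul_ok 3 hu1.toA))
  have hw4 : RN t w4 _ := nrm_ok (sub_ok (smul_ok 15 hu4.toA) (smul_ok 6 hu2.toA))
  have hw5 : RN t w5 _ := nrm_ok (sub_ok (smul_ok 21 hu5.toA) (smul_ok 10 hu3.toA))
  have hb0 : RN t b0 ((l.ps s c).f) := (nrm_ok (add_ok ho.p0 (rnd_ok (add_ok (add_ok (add_ok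
    (add_ok (mul_ok hu1 ho.p1) (mul_ok hu2 ho.p2)) (mul_ok hu3 ho.p3)) (mul_ok hu4 ho.p4)) (mul_ok
    hu5 ho.p5))))).cast (by simp only [ps_eq, s0, s1, s2]; ring)
  have hb1 : RN t b1 ((l.ps s c).f - (1 - s) * (l.ps s c).t) := (nrm_ok (add_ok ho.p0 (rnd_ok
    (add_ok (add_ok (add_ok (add_ok (mul_ok hv1 ho.p1) (mul_ok hv2 ho.p2)) (mul_ok hv3 ho.p3))
    (mul_ok hv4 ho.p4)) (mul_ok hv5 ho.p5))))).cast (by simp only [ps_eq, s0, s1, s2]; push_cast; ring)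
  have hbe : RN t be ((l.ps s c).f - (1 - 2 * s) * (l.ps s c).t - s * (1 - s) / 2 * (l.ps s c).tt)
    := (nrm_ok (add_ok ho.p0 (rnd_ok (add_ok (add_ok (add_ok (add_ok (mul_ok hw1 ho.p1) (mul_ok hw2
    ho.p2)) (mul_ok hw3 ho.p3)) (mul_ok hw4 ho.p4)) (mul_ok hw5 ho.p5))))).cast
    (by simp only [ps_eq, s0, s1, s2]; push_cast; ring)
  have hb2 : RN t b2 ((l.ps s c).c) := (nrm_ok (add_ok ho.q0 (rnd_ok (add_ok (add_ok (add_ok
    (add_ok (mul_ok hu1 ho.q1) (mul_ok hu2 ho.q2)) (mul_ok hu3 ho.q3)) (mul_ok hu4 ho.q4)) (mul_ok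
    hu5 ho.q5))))).cast (by simp only [ps_eq, s0, s1, s2]; ring)
  have hb4 : RN t b4 ((l.ps s c).c - (1 - s) * (l.ps s c).tc) := (nrm_ok (add_ok ho.q0 (rnd_ok
    (add_ok (add_ok (add_ok (add_ok (mul_ok hv1 ho.q1) (mul_ok hv2 ho.q2)) (mul_ok hv3 ho.q3))
    (mul_ok hv4 ho.q4)) (mul_ok hv5 ho.q5))))).cast (by simp only [ps_eq, s0, s1, s2]; push_cast; ring)
  have hb5 : RN t b5 ((l.ps s c).cc) := (nrm_ok (add_ok ho.r0 (rnd_ok (add_ok (add_ok (add_ok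
    (add_ok (mul_ok hu1 ho.r1) (mul_ok hu2 ho.r2)) (mul_ok hu3 ho.r3)) (mul_ok hu4 ho.r4)) (mul_ok
    hu5 ho.r5))))).cast (by simp only [ps_eq, s0, s1, s2]; ring)
  exact ⟨hb0, hb1, hbe, hb2, hb4, hb5⟩

def bH (i : XN) (m : BB) : HN :=
  let c := i.c
  let et := i.P
  let w := i.s
  let vs := cN 281474976710656
  let sg := nrm (sub one (rnd (mul c c)))
  let wT := nrm (smul 2 (sub one i.s.toA))
  let W2 := nrm (rnd (mul wT wT))
  let io := nrm (inv (nrm (add one (rnd (mul i.P (cN 280375465082880))))))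
  let jt := nrm (rnd (mul i.s m.b1))
  let ft := nrm (sub m.b0.toA jt.toA)
  let g := nrm (rnd (mul wT ft))
  let ch := nrm (rnd (mul wT m.b2))
  let sW := nrm (rnd (mul i.s wT))
  let sd := nrm (rnd (mul sW m.be))
  let jtc := nrm (rnd (mul i.s m.b4))
  let ijt := nrm (rnd (mul io jt))
  let isd := nrm (rnd (mul io sd))
  let itc := nrm (rnd (mul io jtc))
  let it := nrm (add m.b0.toA ijt.toA)
  let cj := rnd (mul c m.b2)
  let aa := nrm (sub (rnd (mul sg m.b5)) cj)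
  let r := nrm (add wT.toA (rnd (add (mul i.s c) (mul sW (nrm (rnd (mul i.P it)))))))
  let e := nrm (rnd (mul i.s (nrm (rnd (add (mul c it) (mul sg m.b2))))))
  let z3 := nrm (rnd (mul i.s (nrm (sub it.toA cj))))
  let z22 := nrm (rnd (mul i.s (nrm (add it.toA aa.toA))))
  let z12 := nrm (neg (rnd (mul i.s itc)))
  let z11 := nrm (rnd (mul io (nrm (sub (rnd (mul i.s (nrm (sub (add jt.toA ijt.toA) isd.toA))))
    (cst 280375465082880)))))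
  let n11 := nrm (neg (rnd (mul W2 sd)))
  let n12 := nrm (neg (rnd (mul W2 jtc)))
  let n22 := nrm (rnd (mul W2 (nrm (add aa.toA ft.toA))))
  let n3 := nrm (rnd (mul W2 (nrm (sub ft.toA cj))))
  let c11 := nrm (add g.toA (rnd (mul wT isd)))
  let c12 := nrm (add ch.toA (rnd (mul wT itc)))
  let c21 := nrm (sub (rnd (mul wT jtc)) ch.toA)
  let c22 := nrm (neg (rnd (mul wT aa)))
  ⟨c, sg, et, vs, w, wT, g, ch, r, e, n11, n12, n22, n3, c11, c12, c21, c22, z11, z12, z22, z3⟩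

theorem bH_ok {t : Pt} {l : Law} {s y P : ℝ} {i : XN} {m : BB} (hi : RX t i s y P) (hm : RBB t m l
    s y)  :
    RH t (bH i m) (hY P s y (l.ps s y)) := by
  unfold bH
  extract_lets c et w vs sg wT W2 io jt ft g ch sW sd jtc ijt isd itc it cj aa r e z3 z22 z12 z11
    n11 n12 n22 n3 c11 c12 c21 c22
  have hc : RN t c y := hi.c.cast (rfl)
  have het : RN t et P := hi.P.cast (rfl)
  have hw : RN t w s := hi.s.cast (rfl)
  have hvs : RN t vs 1 := (cN_ok (z := 1) 281474976710656 (by norm_num [abs_le])).cast (rfl)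
  have hsg : RN t sg (1 - y ^ 2) := (nrm_ok (sub_ok one_ok (rnd_ok (mul_ok hc hc)))).cast (by ring)
  have hwT : RN t wT (2 * (1 - s)) := (nrm_ok (smul_ok 2 (sub_ok one_ok hi.s.toA))).cast
    (by push_cast; ring)
  have hW2 : RN t W2 _ := nrm_ok (rnd_ok (mul_ok hwT hwT))
  have hio : RN t io _ := nrm_ok (inv_ok (nrm_ok (add_ok one_ok (rnd_ok (mul_ok hi.P (cN_ok (z :=
    255 / 256) 280375465082880 (by norm_num [abs_le])))))))
  have hjt : RN t jt _ := nrm_ok (rnd_ok (mul_ok hi.s hm.b1))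
  have hft : RN t ft _ := nrm_ok (sub_ok hm.b0.toA hjt.toA)
  have hg : RN t g ((hY P s y (l.ps s y)).g) := (nrm_ok (rnd_ok (mul_ok hwT hft))).cast (rfl)
  have hch : RN t ch ((hY P s y (l.ps s y)).ch) := (nrm_ok (rnd_ok (mul_ok hwT hm.b2))).cast (rfl)
  have hsW : RN t sW _ := nrm_ok (rnd_ok (mul_ok hi.s hwT))
  have hsd : RN t sd _ := nrm_ok (rnd_ok (mul_ok hsW hm.be))
  have hjtc : RN t jtc _ := nrm_ok (rnd_ok (mul_ok hi.s hm.b4))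
  have hijt : RN t ijt _ := nrm_ok (rnd_ok (mul_ok hio hjt))
  have hisd : RN t isd _ := nrm_ok (rnd_ok (mul_ok hio hsd))
  have hitc : RN t itc _ := nrm_ok (rnd_ok (mul_ok hio hjtc))
  have hit : RN t it _ := nrm_ok (add_ok hm.b0.toA hijt.toA)
  have hcj : RA t cj _ := rnd_ok (mul_ok hc hm.b2)
  have haa : RN t aa _ := nrm_ok (sub_ok (rnd_ok (mul_ok hsg hm.b5)) hcj)
  have hr : RN t r ((hY P s y (l.ps s y)).r) := (nrm_ok (add_ok hwT.toA (rnd_ok (add_ok (mul_ok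
    hi.s hc) (mul_ok hsW (nrm_ok (rnd_ok (mul_ok hi.P hit)))))))).cast (by simp only [hY]; ring)
  have he : RN t e ((hY P s y (l.ps s y)).e) := (nrm_ok (rnd_ok (mul_ok hi.s (nrm_ok (rnd_ok
    (add_ok (mul_ok hc hit) (mul_ok hsg hm.b2))))))).cast (rfl)
  have hz3 : RN t z3 ((hY P s y (l.ps s y)).z3) := (nrm_ok (rnd_ok (mul_ok hi.s (nrm_ok (sub_ok
    hit.toA hcj))))).cast (rfl)
  have hz22 : RN t z22 ((hY P s y (l.ps s y)).z22) := (nrm_ok (rnd_ok (mul_ok hi.s (nrm_ok (add_ok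
    hit.toA haa.toA))))).cast (rfl)
  have hz12 : RN t z12 ((hY P s y (l.ps s y)).z12) := (nrm_ok (neg_ok (rnd_ok (mul_ok hi.s
    hitc)))).cast (by simp only [hY]; ring)
  have hz11 : RN t z11 ((hY P s y (l.ps s y)).z11) := (nrm_ok (rnd_ok (mul_ok hio (nrm_ok (sub_ok
    (rnd_ok (mul_ok hi.s (nrm_ok (sub_ok (add_ok hjt.toA hijt.toA) hisd.toA)))) (cst_ok (z := 255 /
    256) 280375465082880 (by norm_num) (by norm_num [abs_le]))))))).cast (by simp only [hY]; ring)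
  have hn11 : RN t n11 ((hY P s y (l.ps s y)).n11) := (nrm_ok (neg_ok (rnd_ok (mul_ok hW2
    hsd)))).cast (by simp only [hY]; ring)
  have hn12 : RN t n12 ((hY P s y (l.ps s y)).n12) := (nrm_ok (neg_ok (rnd_ok (mul_ok hW2
    hjtc)))).cast (by simp only [hY]; ring)
  have hn22 : RN t n22 ((hY P s y (l.ps s y)).n22) := (nrm_ok (rnd_ok (mul_ok hW2 (nrm_ok (add_ok
    haa.toA hft.toA))))).cast (by simp only [hY]; ring)
  have hn3 : RN t n3 ((hY P s y (l.ps s y)).n3) := (nrm_ok (rnd_ok (mul_ok hW2 (nrm_ok (sub_ok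
    hft.toA hcj))))).cast (by simp only [hY]; ring)
  have hc11 : RN t c11 ((hY P s y (l.ps s y)).c11) := (nrm_ok (add_ok hg.toA (rnd_ok (mul_ok hwT
    hisd)))).cast (by simp only [hY]; ring)
  have hc12 : RN t c12 ((hY P s y (l.ps s y)).c12) := (nrm_ok (add_ok hch.toA (rnd_ok (mul_ok hwT
    hitc)))).cast (by simp only [hY]; ring)
  have hc21 : RN t c21 ((hY P s y (l.ps s y)).c21) := (nrm_ok (sub_ok (rnd_ok (mul_ok hwT hjtc))
    hch.toA)).cast (by simp only [hY]; ring)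
  have hc22 : RN t c22 ((hY P s y (l.ps s y)).c22) := (nrm_ok (neg_ok (rnd_ok (mul_ok hwT
    haa)))).cast (rfl)
  exact ⟨hc, hsg, het, hvs, hw, hwT, hg, hch, hr, he, hn11, hn12, hn22, hn3, hc11, hc12, hc21,
    hc22, hz11, hz12, hz22, hz3⟩

/-- the check of one box in the variables `s`, `1 + c`, `P` -/
def lfY (L : Law) (d l h m i n j : ℕ) : Bool :=
  let x : XN := ⟨nrm (var 1008 l h), nrm (sub (var 1152 m i) one), nrm (var 1440 n j)⟩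
  chk (bH x (bU x (bP L x))) d

def GY (L : Law) (s c' P : ℝ) : Prop := ∀ c S : ℝ, c' = 1 + c → 0 < s → s < 1 → 0 < P →
  c ^ 2 + S ^ 2 = 1 → Key P (qY P) c S (jT ((1 - s) / (1 / 2 * s)) (jP P (fY P) s (L.ps s c)))
    (1 / 2 ^ 100 * P * ((1 - s) / (1 / 2 * s)))

theorem lfY_ok (L : Law) (d l h m i n j : ℕ) (H : lfY L d l h m i n j = true) :
    Cov (GY L) l h m i n j := by
  rintro s _ P hs hc hP c S rfl s0 s1 P0 e
  unfold lfY at H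
  obtain ⟨t, a1, a2, a3⟩ := box_ok hs hc hP
  have hx : RX t ⟨nrm (var 1008 l h), nrm (sub (var 1152 m i) one), nrm (var 1440 n j)⟩ s c P :=
    ⟨nrm_ok a1, (nrm_ok (sub_ok a2 one_ok)).cast (add_sub_cancel_left _ _), nrm_ok a3⟩
  exact key_of e (div_pos (by linarith) (by linarith)) (rel_Y (L.ps s c) P0 s0 e)
    (bH_ok hx (bU_ok hx (bP_ok L hx))) P0 zero_le_one s0 s1.le H

end Pool.Agent.MP_815c6c_an.W.KB
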