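import Pool.Agent.MP_815c6c_an.W.YA
import Pool.Agent.MP_815c6c_an.W.Br3

/-! The certificate for small `P` from the boxes: the end `s = 0` and the assembly. -/

set_option autoImplicit false
set_option exponentiation.threshold 4000

noncomputable section

namespace Pool.Agent.MP_815c6c_an.W.KB

open AA KE KR CertYA

/-- the check of the five inequalities at the end -/
def lfE (L : Law) (_ l h m i n j : ℕ) : Bool :=
  let x : XN := ⟨nrm (var 1008 l h), nrm (sub (var 1152 m i) one), nrm (var 1440 n j)⟩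
  let u := bU x (bP L x)
  let B := nrm (neg (smul 2 u.b0.toA))
  let B1 := nrm (neg (smul 2 u.b2.toA))
  let B2 := nrm (neg (smul 2 u.b5.toA))
  let sg := nrm (sub one (rnd (mul x.c x.c)))
  let g := nrm (sub one (rnd (mul x.P B1)))
  let y := nrm (sub B.toA (rnd (mul x.c B1)))
  let z := nrm (add y.toA (rnd (mul sg B2)))
  let e := smul 2 (sub x.c.toA (rnd (mul x.P B)))
  let a := nrm (add (add z.toA (rnd (mul x.P z))) e)
  let b := nrm (add (add y.toA (rnd (mul x.P y))) e)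
  let f := nrm (add y.toA z.toA)
  let k := mul (nrm (rnd (mul sg g))) g
  and (and (pos g.toA) (and (pos y.toA) (pos z.toA)))
    (and (pos (rnd (sub (mul a z) k))) (pos (rnd (sub (mul b f) k))))

def GE (L : Law) (s c' P : ℝ) : Prop := ∀ c B B₁ B₂ : ℝ, c' = 1 + c →
  B = -(L.ps s c).f / (1 / 2) → B₁ = -(L.ps s c).c / (1 / 2) → B₂ = -(L.ps s c).cc / (1 / 2) →
  0 < 1 - P * B₁ ∧ 0 < B - c * B₁ ∧ 0 < B - c * B₁ + (1 - c ^ 2) * B₂ ∧
    (1 - c ^ 2) * (1 - P * B₁) ^ 2 < ((1 + P) * (B - c * B₁ + (1 - c ^ 2) * B₂) + 2 * (c - P * B)) *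
      (B - c * B₁ + (1 - c ^ 2) * B₂) ∧
    (1 - c ^ 2) * (1 - P * B₁) ^ 2 < ((1 + P) * (B - c * B₁) + 2 * (c - P * B)) *
      (2 * (B - c * B₁) + (1 - c ^ 2) * B₂)

theorem lfE_ok (L : Law) (d l h m i n j : ℕ) : lfE L d l h m i n j = true →
    Cov (GE L) l h m i n j := by
  unfold lfE
  extract_lets x u B B1 B2 sg g y z e a b f k
  rintro H s _ P hs hc hP c B' B₁ B₂ rfl e0 e1 e2
  obtain ⟨t, a1, a2, a3⟩ := box_ok hs hc hP
  have hx : RX t x s c P :=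
    ⟨nrm_ok a1, (nrm_ok (sub_ok a2 one_ok)).cast (add_sub_cancel_left _ _), nrm_ok a3⟩
  have hu : RBB t u L s c := bU_ok hx (bP_ok L hx)
  have hB : RN t B B' := (nrm_ok (neg_ok (smul_ok 2 hu.b0.toA))).cast (by rw [e0]; push_cast; ring)
  have hB1 : RN t B1 B₁ := (nrm_ok (neg_ok (smul_ok 2 hu.b2.toA))).cast (by rw [e1]; push_cast; ring)
  have hB2 : RN t B2 B₂ := (nrm_ok (neg_ok (smul_ok 2 hu.b5.toA))).cast (by rw [e2]; push_cast; ring)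
  have hsg : RN t sg _ := nrm_ok (sub_ok one_ok (rnd_ok (mul_ok hx.c hx.c)))
  have hg : RN t g _ := nrm_ok (sub_ok one_ok (rnd_ok (mul_ok hx.P hB1)))
  have hy : RN t y _ := nrm_ok (sub_ok hB.toA (rnd_ok (mul_ok hx.c hB1)))
  have hz : RN t z _ := nrm_ok (add_ok hy.toA (rnd_ok (mul_ok hsg hB2)))
  have he : RA t e _ := smul_ok 2 (sub_ok hx.c.toA (rnd_ok (mul_ok hx.P hB)))
  have ha : RN t a _ := nrm_ok (add_ok (add_ok hz.toA (rnd_ok (mul_ok hx.P hz))) he)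
  have hb : RN t b _ := nrm_ok (add_ok (add_ok hy.toA (rnd_ok (mul_ok hx.P hy))) he)
  have hf : RN t f _ := nrm_ok (add_ok hy.toA hz.toA)
  have hk : RW t k _ := mul_ok (nrm_ok (rnd_ok (mul_ok hsg hg))) hg
  simp only [Bool.and_eq_true] at H
  obtain ⟨⟨H1, H2, H3⟩, H4, H5⟩ := H
  have g4 := pos_ok (rnd_ok (sub_ok (mul_ok ha hz) hk)) H4
  have g5 := pos_ok (rnd_ok (sub_ok (mul_ok hb hf) hk)) H5
  push_cast at g4 g5
  exact ⟨pos_ok hg.toA H1, pos_ok hy.toA H2, by linear_combination pos_ok hz.toA H3,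
    by linear_combination g4, by linear_combination g5⟩

/-- the certificate for `2 < x ≤ b` -/
theorem small (L : Law) (b : ℚ) {h i j : ℕ} (k : ℕ) (T : Tr)
    (H : (decide (2 ^ 47 ≤ h ∧ 2 ^ 48 ≤ i ∧ (b - 2) * 2 ^ 48 ≤ 2 * k ∧ k ≤ j ∧ b < 3) &&
      run (lfE L) T 0 0 0 281474976710656 0 k) = true)
    (C : Cov (GY L) 0 h 0 i 0 j) (x : ℝ) (x2 : 2 < x) (xb : x ≤ b) : Br.Ct x := by
  simp only [Bool.and_eq_true, decide_eq_true_eq] at H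
  obtain ⟨⟨h1, h2, h3, h5, h4⟩, E⟩ := H
  have E := run_ok (lfE_ok L) T _ _ _ _ _ _ E
  have h1' : (2 : ℝ) ^ 47 ≤ h := by exact_mod_cast h1
  have h2' : (2 : ℝ) ^ 48 ≤ i := by exact_mod_cast h2
  have h3' : ((b : ℝ) - 2) * 2 ^ 48 ≤ 2 * k := by exact_mod_cast h3
  have h5' : (k : ℝ) ≤ j := by exact_mod_cast h5
  have h4' : (b : ℝ) < 3 := by exact_mod_cast h4
  have P0 : 0 < x - 2 := by linarith
  have iP : ∀ n : ℕ, (k : ℝ) ≤ n → In 0 n (x - 2) := fun n g =>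
    ⟨by push_cast; positivity, by push_cast; linarith⟩
  have ic : ∀ (n : ℕ) (c : ℝ), (2 : ℝ) ^ 48 ≤ n → c ^ 2 ≤ 1 → In 0 n (1 + c) := fun n c e g => by
    obtain ⟨c1, c2⟩ := abs_le.1 ((sq_le_one_iff_abs_le_one c).1 g)
    exact ⟨by push_cast; linarith, by push_cast; linarith⟩
  have q1 : 1 < qY (x - 2) := by unfold qY; linarith
  obtain ⟨F, J, κ, τ₀, τ₁, C', δ, e, r⟩ := certP (P := x - 2) (q := qY (x - 2)) (G := 1 / 2)
    (φ := fY (x - 2)) (m := 1 / 2 ^ 100 * (x - 2)) (ψ := L.ps) (jt_hsA L.l 2 (-1))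
    (ct_hsA L.l 2 (-1)) (by norm_num) q1 P0 (by linarith) (div_pos (by linarith) (by linarith))
    (by positivity) (fun s T c S s0 s1 hT g _ => hT ▸ C s (1 + c) (x - 2)
      ⟨by push_cast; positivity, by push_cast; linarith⟩ (ic i c h2' (by linarith [sq_nonneg S]))
      (iP j h5') c S rfl s0 s1 P0 g)
    fun c B B₁ B₂ g => E 0 (1 + c) (x - 2) ⟨by simp, by simp⟩ (ic _ c (by norm_num) g)
      (iP k le_rfl) c B B₁ B₂ rfl
  exact ⟨_, F, J, κ, τ₀, τ₁, C', δ, e, by unfold qY; linarith, r⟩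

/-- the law for `P ≤ 7 / 20` -/
def l35 : Law := ⟨⟨29926, 31533, 30804, 34698, 33465, 32288⟩,
  ⟨32740, 34032, 30636, 33862, 33986, 31546⟩, ⟨31524, 34611, 31626, 31285, 35174, 31666⟩,
  ⟨32067, 34007, 34360, 28554, 35322, 32657⟩, ⟨32266, 31131, 37026, 30478, 32247, 33399⟩,
  ⟨33912, 29893, 33847, 33704, 31298, 33037⟩⟩

def t35 : Tr :=
  .s2 (.s2 (.s3 (.s2 (.s3 (.lf 0) (.lf 0)) (.lf 0)) (.s2 (.s3 (.s2 (.lf 0) (.lf 0)) (.s2 (.lf 0)
  (.lf 0))) (.s3 (.s2 (.lf 0) (.lf 0)) (.s2 (.lf 0) (.lf 0))))) (.s3 (.s2 (.lf 0) (.lf 0)) (.s2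
  (.s3 (.lf 0) (.s2 (.lf 0) (.lf 0))) (.lf 0)))) (.s2 (.s3 (.s2 (.lf 0) (.lf 0)) (.s2 (.s3 (.lf 0)
  (.s2 (.lf 0) (.lf 0))) (.s3 (.lf 0) (.s2 (.lf 0) (.lf 0))))) (.s3 (.s2 (.s3 (.s2 (.lf 0) (.lf
  0)) (.s2 (.lf 0) (.lf 0))) (.s3 (.s2 (.lf 0) (.lf 0)) (.s2 (.lf 0) (.lf 0)))) (.s2 (.s3 (.s2
  (.lf 0) (.lf 0)) (.s2 (.lf 0) (.lf 0))) (.s3 (.s2 (.lf 0) (.lf 0)) (.s2 (.lf 0) (.lf 0))))))

theorem e35 : run (lfE l35) t35 0 0 0 281474976710656 0 49258120924365 = true := by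
  decide +kernel

theorem low35 {h i j : ℕ} (C : Cov (GY l35) 0 h 0 i 0 j)
    (H : 2 ^ 47 ≤ h ∧ 2 ^ 48 ≤ i ∧ 49258120924365 ≤ j) (x : ℝ) (a : 2 < x) (b : x ≤ 47 / 20) :
    Br.Ct x :=
  small l35 (47 / 20) 49258120924365 t35 (by
    rw [e35, Bool.and_true, decide_eq_true_eq]
    exact ⟨H.1, H.2.1, by norm_num, H.2.2, by norm_num⟩) C x a (by push_cast; exact b)

end Pool.Agent.MP_815c6c_an.W.KB
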